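import Pool.Agent.Work.MP_69fea5_lc.N3.StmtsH2
import Pool.Agent.Work.MP_69fea5_lc.KC.I_KCI

/-!
# Block [69fea5 N3], part H (coding), item CI3: the greedy construction in Case I
-/

set_option autoImplicit false

namespace Pool.Agent.Work.MP_69fea5_lc.N3

open MeasureTheory Topology Set Filter ProbabilityTheory
open scoped NNReal ENNReal
open Pool.Agent.Work.MP_69fea5_lc.AK
open Pool.Agent.Work.MP_69fea5_lc.HK (Cl DU Ar ArF ArR Dat Law LawC act near sc Pt oc Mn mr ext)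

namespace I_CI3

variable {k : ℕ}

theorem cyl_iff (hB : KC.S_CON) (P : Wd k) (n : ℤ) (z : Om k) :
    z ∈ cyl P n ↔ ∀ q ∈ KC.con P n, z q.1 = q.2 := by
  rw [← hB k P n]
  exact Iff.rfl

theorem bx_eq (hB : KC.S_CON) (P : W2 k) (n : ℤ) :
    bx P n = HK.cyl (KC.con P.1 n) ×ˢ HK.cyl (KC.con P.2 n) := by
  unfold bx
  rw [hB k P.1 n, hB k P.2 n]

theorem con_shift {w : Wd k} {t x : ℤ} {a : Fin k} (h : (t, a) ∈ KC.con w 0) :
    (t + x, a) ∈ KC.con w x := by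
  obtain ⟨i, h1, h2⟩ := KC.I_KCI.mem_con.1 h
  exact KC.I_KCI.mem_con.2 ⟨i, h1, by rw [h2]; ring⟩

theorem pos_iff (ν : Measure (Om k × Om k)) [IsProbabilityMeasure ν] (A : Set (Om k × Om k)) :
    0 < ν A ↔ (0 : ℝ) < ν.real A := by
  rw [Measure.real, ENNReal.toReal_pos_iff]
  exact ⟨fun h => ⟨h, measure_lt_top ν A⟩, fun h => h.1⟩

/-- a box inside `{g | g.1 ∈ A, g.2 ∈ B}` -/
theorem sub_of_bx {P : W2 k} (hne : (bx P 0).Nonempty) {A B : Set (Om k)}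
    (h : bx P 0 ⊆ {g | g.1 ∈ A ∧ g.2 ∈ B}) :
    (cyl P.1 0).Nonempty ∧ (cyl P.2 0).Nonempty ∧ cyl P.1 0 ⊆ A ∧ cyl P.2 0 ⊆ B := by
  obtain ⟨g, hg⟩ := hne
  have h1 : g.1 ∈ cyl P.1 0 ∧ g.2 ∈ cyl P.2 0 := hg
  refine ⟨⟨g.1, h1.1⟩, ⟨g.2, h1.2⟩, fun z hz => ?_, fun z hz => ?_⟩
  · exact (h (show (z, g.2) ∈ bx P 0 from ⟨hz, h1.2⟩)).1
  · exact (h (show (g.1, z) ∈ bx P 0 from ⟨h1.1, hz⟩)).2

/-- all sums of at most three elements of a set listed by `y` -/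
theorem sums (c : ℕ → Fin k) (r : Fin k) (y : ℕ → ℕ) (h1 : ∀ n, c (y n) = r)
    (h2 : ∀ m n, m < n → c (y m + y n) = r)
    (h3 : ∀ l m n, l < m → m < n → c (y l + y m + y n) = r) (F : Finset ℕ)
    (hF : (F : Set ℕ) ⊆ {x | ∃ n, y n = x}) (hne : F.Nonempty) (hc : F.card ≤ 3) :
    c (∑ x ∈ F, x) = r := by
  have h2' : ∀ m n, m ≠ n → c (y m + y n) = r := by
    intro m n hmn
    rcases lt_or_gt_of_ne hmn with h | h
    · exact h2 m n h
    · rw [add_comm]; exact h2 n m h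
  have h3' : ∀ l m n, l ≠ m → l ≠ n → m ≠ n → c (y l + y m + y n) = r := by
    intro l m n hlm hln hmn
    rcases lt_or_gt_of_ne hlm with a | a <;> rcases lt_or_gt_of_ne hln with b | b <;>
      rcases lt_or_gt_of_ne hmn with d | d
    · exact h3 l m n a d
    · have := h3 l n m b d
      rwa [show y l + y m + y n = y l + y n + y m by ring]
    · omega
    · have := h3 n l m b a
      rwa [show y l + y m + y n = y n + y l + y m by ring]
    · have := h3 m l n a b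
      rwa [show y l + y m + y n = y m + y l + y n by ring]
    · omega
    · have := h3 m n l d b
      rwa [show y l + y m + y n = y m + y n + y l by ring]
    · have := h3 n m l d a
      rwa [show y l + y m + y n = y n + y m + y l by ring]
  have hpos : 0 < F.card := Finset.card_pos.2 hne
  have hcases : F.card = 1 ∨ F.card = 2 ∨ F.card = 3 := by omega
  rcases hcases with h | h | h
  · obtain ⟨a, rfl⟩ := Finset.card_eq_one.1 h
    obtain ⟨n, rfl⟩ := hF (show a ∈ (({a} : Finset ℕ) : Set ℕ) by simp)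
    rw [Finset.sum_singleton]
    exact h1 n
  · obtain ⟨a, b, hab, rfl⟩ := Finset.card_eq_two.1 h
    obtain ⟨m, rfl⟩ := hF (show a ∈ (({a, b} : Finset ℕ) : Set ℕ) by simp)
    obtain ⟨n, rfl⟩ := hF (show b ∈ (({y m, b} : Finset ℕ) : Set ℕ) by simp)
    rw [Finset.sum_pair hab]
    exact h2' m n fun e => hab (by rw [e])
  · obtain ⟨a, b, d, hab, had, hbd, rfl⟩ := Finset.card_eq_three.1 h
    obtain ⟨l, rfl⟩ := hF (show a ∈ (({a, b, d} : Finset ℕ) : Set ℕ) by simp)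
    obtain ⟨m, rfl⟩ := hF (show b ∈ (({y l, b, d} : Finset ℕ) : Set ℕ) by simp)
    obtain ⟨n, rfl⟩ := hF (show d ∈ (({y l, y m, d} : Finset ℕ) : Set ℕ) by simp)
    rw [Finset.sum_insert (by simp [hab, had]), Finset.sum_pair hbd, ← add_assoc]
    exact h3' l m n (fun e => hab (by rw [e])) (fun e => had (by rw [e]))
      (fun e => hbd (by rw [e]))

end I_CI3

open I_CI3 in
theorem CI3_pf (hCON : KC.S_CON) (hCONF : KC.S_CONF) : S_CI3 := by
  classical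
  intro S hS k c ν _ hc0 hc hν hg
  obtain ⟨Q, r, hSt, hQr, hstep⟩ := hg
  have hQ : 0 < ν (bx Q 0) := hSt.2.2
  by_cases hk : 2 ≤ k
  swap
  · -- at most one colour
    refine ⟨{x | 0 < x}, ?_, ?_, fun x hx => hx, r, ?_⟩
    · exact HK.Ar.set (R := fun x => 0 < x) (HK.Ar.prim hS
        (Primrec.nat_lt.comp (Primrec.const 0) Primrec.id))
    · refine Set.infinite_of_not_bddAbove ?_
      rintro ⟨b, hb⟩
      have := hb (a := b + 1) (Nat.succ_pos b)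
      omega
    · have hsub : ∀ a b : Fin k, a = b := fun a b => by
        apply Fin.ext
        have := a.2
        have := b.2
        omega
      exact fun F _ _ _ => hsub _ _
  -- the greedy step
  have hcyl : ∀ (P : Wd k) (n : ℤ) (z : Om k), z ∈ cyl P n ↔ ∀ q ∈ KC.con P n, z q.1 = q.2 :=
    fun P n z => cyl_iff hCON P n z
  have hnon : ∀ P : W2 k, 0 < ν (bx P 0) → (bx P 0).Nonempty := by
    intro P h
    by_contra hc
    rw [Set.not_nonempty_iff_eq_empty] at hc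
    rw [hc, measure_empty] at h
    exact lt_irrefl _ h
  set Gd : W2 k → Prop := fun P => (∀ q ∈ KC.con Q.1 0, q ∈ KC.con P.1 0) ∧
    (∀ q ∈ KC.con Q.2 0, q ∈ KC.con P.2 0) ∧ (0 : ℝ) < ν.real (bx P 0) with hGd
  set R : ℕ × W2 k → ℕ × W2 k → Prop := fun p p' => Gd p.2 → (p.1 < p'.1 ∧
    (∀ q ∈ KC.con p.2.1 0, ext c (q.1 + p'.1) = q.2) ∧
    (∀ q ∈ KC.con p.2.1 0, q ∈ KC.con p'.2.1 0) ∧
    (∀ q ∈ KC.con p.2.2 0, (q.1 + (p'.1 : ℤ), q.2) ∈ KC.con p'.2.1 0) ∧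
    (∀ q ∈ KC.con p.2.2 0, q ∈ KC.con p'.2.2 0) ∧
    ((p'.1 : ℤ), r) ∈ KC.con p'.2.2 0 ∧ (0 : ℝ) < ν.real (bx p'.2 0)) with hR
  -- definability
  have acon : ArF S fun P : Wd k => KC.con P 0 :=
    HK.ArF.comp hS (g := fun p : Wd k × ℤ => KC.con p.1 p.2) (hCONF S hS k)
      (f := fun P => (P, (0 : ℤ))) ((HK.ArF.id hS).pair hS (HK.ArF.const hS 0))
  have hν' : ArR S fun P : HK.C k × HK.C k => ν.real (HK.cyl P.1 ×ˢ HK.cyl P.2) := hν
  have apos : Ar S fun P : W2 k => (0 : ℝ) < ν.real (bx P 0) := by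
    refine HK.Ar.congr (R := fun P : W2 k =>
      (0 : ℝ) < ν.real (HK.cyl (KC.con P.1 0) ×ˢ HK.cyl (KC.con P.2 0))) ?_ fun P => by
        rw [bx_eq hCON]
    refine HK.ArR.rlt hS (HK.ArR.zero hS) ?_ (fun _ => le_rfl)
    exact HK.ArR.sub hS hν' (g := fun P : W2 k => (KC.con P.1 0, KC.con P.2 0))
      ((acon.comp hS (HK.ArF.fst hS)).pair hS (acon.comp hS (HK.ArF.snd hS)))
  have aGd : Ar S Gd := by
    refine HK.Ar.and hS ?_ (HK.Ar.and hS ?_ apos)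
    · refine HK.Ar.ballList hS (R := fun (P : W2 k) (q : ℤ × Fin k) => q ∈ KC.con P.1 0) ?_
        (HK.ArF.const hS _)
      exact HK.Ar.memList hS (HK.ArF.snd hS) (acon.comp hS (HK.ArF.of_primrec hS
        (Primrec.fst.comp Primrec.fst)))
    · refine HK.Ar.ballList hS (R := fun (P : W2 k) (q : ℤ × Fin k) => q ∈ KC.con P.2 0) ?_
        (HK.ArF.const hS _)
      exact HK.Ar.memList hS (HK.ArF.snd hS) (acon.comp hS (HK.ArF.of_primrec hS
        (Primrec.snd.comp Primrec.fst)))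
  have aR : Ar S fun p : (ℕ × W2 k) × (ℕ × W2 k) => R p.1 p.2 := by
    have v1 : ArF S fun p : (ℕ × W2 k) × (ℕ × W2 k) => p.1.1 :=
      HK.ArF.of_primrec hS (Primrec.fst.comp Primrec.fst)
    have v2 : ArF S fun p : (ℕ × W2 k) × (ℕ × W2 k) => p.1.2 :=
      HK.ArF.of_primrec hS (Primrec.snd.comp Primrec.fst)
    have v21 : ArF S fun p : (ℕ × W2 k) × (ℕ × W2 k) => p.1.2.1 :=
      HK.ArF.of_primrec hS (Primrec.fst.comp (Primrec.snd.comp Primrec.fst))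
    have v22 : ArF S fun p : (ℕ × W2 k) × (ℕ × W2 k) => p.1.2.2 :=
      HK.ArF.of_primrec hS (Primrec.snd.comp (Primrec.snd.comp Primrec.fst))
    have v3 : ArF S fun p : (ℕ × W2 k) × (ℕ × W2 k) => p.2.1 :=
      HK.ArF.of_primrec hS (Primrec.fst.comp Primrec.snd)
    have v4 : ArF S fun p : (ℕ × W2 k) × (ℕ × W2 k) => p.2.2 :=
      HK.ArF.of_primrec hS (Primrec.snd.comp Primrec.snd)
    have v41 : ArF S fun p : (ℕ × W2 k) × (ℕ × W2 k) => p.2.2.1 :=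
      HK.ArF.of_primrec hS (Primrec.fst.comp (Primrec.snd.comp Primrec.snd))
    have v42 : ArF S fun p : (ℕ × W2 k) × (ℕ × W2 k) => p.2.2.2 :=
      HK.ArF.of_primrec hS (Primrec.snd.comp (Primrec.snd.comp Primrec.snd))
    have vx : ArF S fun p : ((ℕ × W2 k) × (ℕ × W2 k)) × (ℤ × Fin k) =>
        p.2.1 + ((p.1.2.1 : ℕ) : ℤ) :=
      HK.ArF.intAdd hS (HK.ArF.of_primrec hS (Primrec.fst.comp Primrec.snd))
        (HK.ArF.natCast hS (HK.ArF.of_primrec hS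
          (Primrec.fst.comp (Primrec.snd.comp Primrec.fst))))
    refine HK.Ar.imp hS (aGd.sub hS v2) ?_
    refine HK.Ar.and hS (HK.Ar.lt hS v1 v3) (HK.Ar.and hS ?_ (HK.Ar.and hS ?_
      (HK.Ar.and hS ?_ (HK.Ar.and hS ?_ (HK.Ar.and hS ?_ ?_)))))
    · refine HK.Ar.ballList hS (R := fun (p : (ℕ × W2 k) × (ℕ × W2 k)) (q : ℤ × Fin k) =>
        ext c (q.1 + p.2.1) = q.2) ?_ (acon.comp hS v21)
      refine HK.Ar.eq hS ?_ (HK.ArF.of_primrec hS (Primrec.snd.comp Primrec.snd))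
      refine HK.ArF.comp hS (g := fun p : Unit × ℤ => ext c p.2) hc
        (f := fun p : ((ℕ × W2 k) × (ℕ × W2 k)) × (ℤ × Fin k) =>
          ((), p.2.1 + (p.1.2.1 : ℤ))) ?_
      exact (HK.ArF.const hS ()).pair hS vx
    · refine HK.Ar.ballList hS (R := fun (p : (ℕ × W2 k) × (ℕ × W2 k)) (q : ℤ × Fin k) =>
        q ∈ KC.con p.2.2.1 0) ?_ (acon.comp hS v21)
      exact HK.Ar.memList hS (HK.ArF.snd hS) ((acon.comp hS v41).comp hS (HK.ArF.fst hS))
    · refine HK.Ar.ballList hS (R := fun (p : (ℕ × W2 k) × (ℕ × W2 k)) (q : ℤ × Fin k) =>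
        (q.1 + (p.2.1 : ℤ), q.2) ∈ KC.con p.2.2.1 0) ?_ (acon.comp hS v22)
      refine HK.Ar.memList hS ?_ ((acon.comp hS v41).comp hS (HK.ArF.fst hS))
      exact vx.pair hS (HK.ArF.of_primrec hS (Primrec.snd.comp Primrec.snd))
    · refine HK.Ar.ballList hS (R := fun (p : (ℕ × W2 k) × (ℕ × W2 k)) (q : ℤ × Fin k) =>
        q ∈ KC.con p.2.2.2 0) ?_ (acon.comp hS v22)
      exact HK.Ar.memList hS (HK.ArF.snd hS) ((acon.comp hS v42).comp hS (HK.ArF.fst hS))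
    · exact HK.Ar.memList hS ((v3.natCast hS).pair hS (HK.ArF.const hS r)) (acon.comp hS v42)
    · exact apos.sub hS v4
  have hRex : ∀ p, ∃ p', R p p' := by
    rintro ⟨x, P⟩
    by_cases hP : Gd P
    swap
    · exact ⟨(0, ([], [])), fun h => absurd h hP⟩
    have hPQ : bx P 0 ⊆ bx Q 0 := by
      rintro ⟨z, z'⟩ hz
      have hz1 : z ∈ cyl P.1 0 := hz.1
      have hz2 : z' ∈ cyl P.2 0 := hz.2
      rw [hcyl] at hz1 hz2
      refine ⟨(hcyl Q.1 0 z).2 fun q hq => hz1 q (hP.1 q hq), (hcyl Q.2 0 z').2 fun q hq => ?_⟩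
      exact hz2 q (hP.2.1 q hq)
    obtain ⟨x', hx', P', h3, h4, h5⟩ := hstep P hPQ ((pos_iff ν _).2 hP.2.2) (x + 1)
    have hne := hnon P' h5
    obtain ⟨n1, n2, s1, s2⟩ := sub_of_bx (A := {z | z ∈ cyl P.1 0 ∧ z ∈ cyl P.2 (x' : ℤ)})
      (B := {z | z ∈ cyl P.2 0 ∧ z (x' : ℤ) = r}) hne (by
        rintro g hg
        obtain ⟨g1, g2, g3⟩ := h4 hg
        exact ⟨⟨g1.1, g2⟩, ⟨g1.2, g3⟩⟩)
    refine ⟨(x', P'), fun _ => ⟨by omega, ?_, ?_, ?_, ?_, ?_, (pos_iff ν _).1 h5⟩⟩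
    · rw [hcyl] at h3
      exact fun q hq => h3 q hq
    · rintro ⟨t, a⟩ hq
      refine KC.I_KCI.mem_con_of hk n1 fun z hz => ?_
      exact (hcyl P.1 0 z).1 (s1 hz).1 _ hq
    · rintro ⟨t, a⟩ hq
      refine KC.I_KCI.mem_con_of hk n1 fun z hz => ?_
      exact (hcyl P.2 (x' : ℤ) z).1 (s1 hz).2 _ (con_shift hq)
    · rintro ⟨t, a⟩ hq
      refine KC.I_KCI.mem_con_of hk n2 fun z hz => ?_
      exact (hcyl P.2 0 z).1 (s2 hz).1 _ hq
    · exact KC.I_KCI.mem_con_of hk n2 fun z hz => (s2 hz).2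
  obtain ⟨G, aG, hG⟩ := HK.Ar.choose hS aR hRex
  obtain ⟨f, hf0, hfs⟩ := HK.exists_rec (α := Unit) (fun _ => ((0 : ℕ), Q)) fun _ _ p => G p
  have af : ArF S fun p : Unit × ℕ => f p.1 p.2 :=
    HK.ArF.rec hS (b := fun _ => ((0 : ℕ), Q)) (HK.ArF.const hS _) (G := fun _ _ p => G p)
      (aG.comp hS (HK.ArF.of_primrec hS (Primrec.snd.comp Primrec.snd))) hf0 hfs
  set s : ℕ → ℕ × W2 k := f () with hs
  have as : ArF S s := af.comp hS (f := fun n : ℕ => ((), n)) (HK.ArF.of_primrec hS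
    ((Primrec.const ()).pair Primrec.id))
  have hs0 : s 0 = (0, Q) := hf0 ()
  have hs1 : ∀ n, s (n + 1) = G (s n) := hfs ()
  have hgood : ∀ n, Gd (s n).2 := by
    intro n
    induction n with
    | zero => rw [hs0]; exact ⟨fun q hq => hq, fun q hq => hq, (pos_iff ν _).1 hQ⟩
    | succ n ih =>
      have h3 := hG (s n) ih
      rw [← hs1] at h3
      exact ⟨fun q hq => h3.2.2.1 q (ih.1 q hq), fun q hq => h3.2.2.2.2.1 q (ih.2.1 q hq),
        h3.2.2.2.2.2.2⟩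
  have hRn : ∀ n, (s n).1 < (s (n + 1)).1 ∧
      (∀ q ∈ KC.con (s n).2.1 0, ext c (q.1 + (s (n + 1)).1) = q.2) ∧
      (∀ q ∈ KC.con (s n).2.1 0, q ∈ KC.con (s (n + 1)).2.1 0) ∧
      (∀ q ∈ KC.con (s n).2.2 0, (q.1 + ((s (n + 1)).1 : ℤ), q.2) ∈ KC.con (s (n + 1)).2.1 0) ∧
      (∀ q ∈ KC.con (s n).2.2 0, q ∈ KC.con (s (n + 1)).2.2 0) ∧
      (((s (n + 1)).1 : ℤ), r) ∈ KC.con (s (n + 1)).2.2 0 := by
    intro n
    have h3 := hG (s n) (hgood n)
    rw [← hs1] at h3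
    exact ⟨h3.1, h3.2.1, h3.2.2.1, h3.2.2.2.1, h3.2.2.2.2.1, h3.2.2.2.2.2.1⟩
  have hmono : StrictMono fun n => (s n).1 := strictMono_nat_of_lt_succ fun n => (hRn n).1
  have hcon1 : ∀ i j, i ≤ j → ∀ q ∈ KC.con (s i).2.1 0, q ∈ KC.con (s j).2.1 0 := by
    intro i j hij
    induction j, hij using Nat.le_induction with
    | base => exact fun q hq => hq
    | succ j _ ih => exact fun q hq => (hRn j).2.2.1 q (ih q hq)
  have hcon2 : ∀ i j, i ≤ j → ∀ q ∈ KC.con (s i).2.2 0, q ∈ KC.con (s j).2.2 0 := by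
    intro i j hij
    induction j, hij using Nat.le_induction with
    | base => exact fun q hq => hq
    | succ j _ ih => exact fun q hq => (hRn j).2.2.2.2.1 q (ih q hq)
  -- the constraints
  obtain ⟨m1, m2, u1, u2⟩ := sub_of_bx (A := {z : Om k | z 0 = r}) (B := {z : Om k | z 0 = r})
    (hnon Q hQ) (fun g hg => hQr hg)
  have z1 : ∀ j, ((0 : ℤ), r) ∈ KC.con (s j).2.1 0 := by
    intro j
    refine hcon1 0 j (Nat.zero_le _) _ ?_
    rw [hs0]
    exact KC.I_KCI.mem_con_of hk m1 u1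
  have z2 : ∀ j, ((0 : ℤ), r) ∈ KC.con (s j).2.2 0 := by
    intro j
    refine hcon2 0 j (Nat.zero_le _) _ ?_
    rw [hs0]
    exact KC.I_KCI.mem_con_of hk m2 u2
  have a2 : ∀ l j, l + 1 ≤ j → (((s (l + 1)).1 : ℤ), r) ∈ KC.con (s j).2.2 0 := by
    intro l j hlj
    exact hcon2 (l + 1) j hlj _ (hRn l).2.2.2.2.2
  have a1 : ∀ l j, l + 1 ≤ j → (((s (l + 1)).1 : ℤ), r) ∈ KC.con (s j).2.1 0 := by
    intro l j hlj
    refine hcon1 (l + 1) j hlj _ ?_
    have := (hRn l).2.2.2.1 _ (z2 l)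
    simpa using this
  have b1 : ∀ m l j, m < l → l + 1 ≤ j →
      (((s (m + 1)).1 : ℤ) + ((s (l + 1)).1 : ℤ), r) ∈ KC.con (s j).2.1 0 := by
    intro m l j hml hlj
    refine hcon1 (l + 1) j hlj _ ?_
    exact (hRn l).2.2.2.1 _ (a2 m l (by omega))
  have hcol : ∀ n (t : ℕ), ((t : ℤ), r) ∈ KC.con (s n).2.1 0 → c (t + (s (n + 1)).1) = r := by
    intro n t ht
    have h4 : ext c ((t : ℤ) + ((s (n + 1)).1 : ℕ)) = r := (hRn n).2.1 _ ht
    have h5 : ((t : ℤ) + ((s (n + 1)).1 : ℕ)).toNat = t + (s (n + 1)).1 := by omega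
    unfold HK.ext at h4
    rwa [h5] at h4
  refine ⟨{x | ∃ n, (s (n + 1)).1 = x}, ?_, ?_, ?_, r, ?_⟩
  · refine HK.Ar.set (R := fun x => ∃ n, (s (n + 1)).1 = x) ?_
    refine HK.Ar.ex hS (R := fun x n => (s (n + 1)).1 = x) ?_
    refine HK.Ar.eq hS ?_ (HK.ArF.fst hS)
    exact HK.ArF.map hS Primrec.fst (as.comp hS ((HK.ArF.snd hS).succ hS))
  · refine Set.infinite_of_injective_forall_mem (f := fun n => (s (n + 1)).1) ?_
      fun n => ⟨n, rfl⟩
    intro a b hab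
    have := hmono.injective hab
    omega
  · rintro x ⟨n, rfl⟩
    exact (Nat.zero_le _).trans_lt (hRn n).1
  · intro F hF hne hc3
    refine sums c r (fun n => (s (n + 1)).1) ?_ ?_ ?_ F hF hne hc3
    · intro n
      have h := hcol n 0 (by simpa using z1 n)
      simpa using h
    · intro m n hmn
      exact hcol n _ (a1 m n (by omega))
    · intro l m n hlm hmn
      refine hcol n _ ?_
      have h := b1 l m n hlm (by omega)
      push_cast
      exact h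

end Pool.Agent.Work.MP_69fea5_lc.N3
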