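import Pool.Agent.Work.MP_69fea5_lc.N3.StmtsA

set_option autoImplicit false

namespace Pool.Agent.Work.MP_69fea5_lc.N3

open MeasureTheory Topology Set Filter ProbabilityTheory
open scoped NNReal ENNReal
open Pool.Agent.Work.MP_69fea5_lc.AK

namespace I_NBX

variable {k : ℕ}

theorem nhd (hC : AK.S_CYL) (p : Om k × Om k) (U : Set (Om k × Om k)) (hU : U ∈ 𝓝 p) :
    ∃ L₀ : ℕ, ∀ L, L₀ ≤ L → bx (wordOf p.1 L, wordOf p.2 L) 0 ⊆ U := by
  obtain ⟨_, _, _, _, hn, _, _⟩ := hC k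
  rw [nhds_prod_eq, Filter.mem_prod_iff] at hU
  obtain ⟨U1, h1, U2, h2, h12⟩ := hU
  obtain ⟨L1, hL1⟩ := hn p.1 U1 h1
  obtain ⟨L2, hL2⟩ := hn p.2 U2 h2
  refine ⟨max L1 L2, fun L hL => ?_⟩
  refine Subset.trans ?_ h12
  exact Set.prod_mono (hL1 L (le_trans (le_max_left _ _) hL))
    (hL2 L (le_trans (le_max_right _ _) hL))

theorem clopen_bx (hC : AK.S_CYL) (P : W2 k) (n : ℤ) : IsClopen (bx P n) := by
  obtain ⟨hc, _⟩ := hC k
  exact IsClopen.prod (hc P.1 n) (hc P.2 n)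

end I_NBX

theorem NBX_pf (hC : AK.S_CYL) : S_NBX := by
  intro k
  refine ⟨I_NBX.nhd hC, I_NBX.clopen_bx hC, ?_, ?_⟩
  · intro P n a p
    obtain ⟨_, hs, _⟩ := hC k
    constructor
    · rintro ⟨h1, h2⟩
      exact ⟨(hs P.1 n a p.1).1 h1, (hs P.2 n a p.2).1 h2⟩
    · rintro ⟨h1, h2⟩
      exact ⟨(hs P.1 n a p.1).2 h1, (hs P.2 n a p.2).2 h2⟩
  · intro K C hK hO hKC
    obtain ⟨_, _, hw, _⟩ := hC k
    have hcomp : IsCompact K := hK.isCompact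
    have hx : ∀ x : Om k × Om k, ∃ D : Set (Om k × Om k), IsClopen D ∧ (x ∈ K → x ∈ D ∧ D ⊆ C) := by
      intro x
      by_cases hxK : x ∈ K
      · obtain ⟨L, hL⟩ := I_NBX.nhd hC x C (hO.mem_nhds (hKC hxK))
        exact ⟨bx (wordOf x.1 L, wordOf x.2 L) 0, I_NBX.clopen_bx hC _ _,
          fun _ => ⟨⟨hw x.1 L, hw x.2 L⟩, hL L le_rfl⟩⟩
      · exact ⟨∅, isClopen_empty, fun h => absurd h hxK⟩
    choose D hD hD' using hx
    obtain ⟨t, ht, hcov⟩ := hcomp.elim_nhds_subcover (fun x => D x)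
      (fun x hxK => (hD x).isOpen.mem_nhds (hD' x hxK).1)
    refine ⟨⋃ x ∈ t, D x, ?_, hcov, ?_⟩
    · exact Set.Finite.isClopen_biUnion (Finset.finite_toSet t) (fun x _ => hD x)
    · exact iUnion₂_subset fun x hx => (hD' x (ht x hx)).2

end Pool.Agent.Work.MP_69fea5_lc.N3
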