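import Pool.Agent.Work.MP_69fea5_lc.N3.StmtsA

/-!
# Block [69fea5 N3], item SP2

The support of a finite measure on pairs.
-/

set_option autoImplicit false

namespace Pool.Agent.Work.MP_69fea5_lc.N3

open MeasureTheory Topology Set Filter ProbabilityTheory
open scoped NNReal ENNReal
open Pool.Agent.Work.MP_69fea5_lc.AK

theorem SP2_pf (hN : S_NBX) (hC : AK.S_CYL) : S_SP2 := by
  intro k ν hν
  obtain ⟨hN1, hN2, -, -⟩ := hN k
  obtain ⟨-, -, hC3, -, -, -, -⟩ := hC k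
  have hiff : ∀ g, g ∈ sup2 ν ↔ ∀ U ∈ 𝓝 g, 0 < ν U := by
    intro g
    constructor
    · intro hg U hU
      obtain ⟨L₀, hL⟩ := hN1 g U hU
      exact lt_of_lt_of_le (hg L₀) (measure_mono (hL L₀ le_rfl))
    · intro h L
      refine h _ ((hN2 _ 0).isOpen.mem_nhds ?_)
      exact ⟨hC3 g.1 L, hC3 g.2 L⟩
  have hnull : ν (sup2 ν)ᶜ = 0 := by
    refine measure_null_of_locally_null _ fun g hg => ?_
    have hg' : ¬ ∀ U ∈ 𝓝 g, 0 < ν U := fun h => hg ((hiff g).2 h)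
    push Not at hg'
    obtain ⟨U, hU, h0⟩ := hg'
    exact ⟨U, mem_nhdsWithin_of_mem_nhds hU, le_antisymm h0 bot_le⟩
  refine ⟨?_, hnull, hiff, ?_⟩
  · rw [← isOpen_compl_iff, isOpen_iff_mem_nhds]
    intro g hg
    have hg' : ¬ ∀ U ∈ 𝓝 g, 0 < ν U := fun h => hg ((hiff g).2 h)
    push Not at hg'
    obtain ⟨U, hU, h0⟩ := hg'
    obtain ⟨V, hVU, hVo, hgV⟩ := mem_nhds_iff.1 hU
    refine Filter.mem_of_superset (hVo.mem_nhds hgV) fun x hx hxs => ?_
    have h1 := (hiff x).1 hxs V (hVo.mem_nhds hx)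
    exact absurd (lt_of_lt_of_le h1 ((measure_mono hVU).trans h0)) (lt_irrefl _)
  · intro U _ hU
    by_contra hne
    rw [Set.not_nonempty_iff_eq_empty] at hne
    have hsub : U ⊆ (sup2 ν)ᶜ := fun x hx hxs => by
      have : x ∈ U ∩ sup2 ν := ⟨hx, hxs⟩
      rw [hne] at this
      exact this
    exact absurd (lt_of_lt_of_le hU ((measure_mono hsub).trans hnull.le)) (lt_irrefl _)

end Pool.Agent.Work.MP_69fea5_lc.N3
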