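import Pool.Agent.Work.MP_69fea5_lc.N3.StmtsH
import Pool.Agent.Work.MP_69fea5_lc.KC.I_LAWCU

set_option autoImplicit false

namespace Pool.Agent.Work.MP_69fea5_lc.N3

open MeasureTheory Topology Set Filter ProbabilityTheory
open scoped NNReal ENNReal
open Pool.Agent.Work.MP_69fea5_lc.AK
open Pool.Agent.Work.MP_69fea5_lc.HK (Cl DU Ar ArF ArR Dat Law LawC act near sc Pt oc Mn mr)

theorem URB_pf : S_URB := by
  classical
  intro S U hS hU k c hc
  obtain ⟨b0, g, hb0, hlim, hMn, hg⟩ := HK.URP_pf S U hS hU (HK.X k) c hc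
  have aN : Ar S fun p : ℕ × ℕ => near p.1 (act (p.2 : ℤ) (show HK.X k from c))
      (show HK.X k from g) := by
    have h1 : sc S (fun p : Unit × ℤ => act p.2 (show HK.X k from c)) :=
      LawC.sc_act S Unit (fun _ => (show HK.X k from c)) hS hc
    have h2 : sc S (fun x : ℕ => act (x : ℤ) (show HK.X k from c)) :=
      LawC.sc_comp S (Unit × ℤ) ℕ (fun p : Unit × ℤ => act p.2 (show HK.X k from c))
        (fun x => ((), (x : ℤ))) hS h1
        ((HK.ArF.const hS ()).pair hS ((HK.ArF.id hS).natCast hS))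
    have h3 : sc S (fun _ : ℕ => (show HK.X k from g)) :=
      LawC.sc_comp S Unit ℕ (fun _ => (show HK.X k from g)) (fun _ => ()) hS hg
        (HK.ArF.const hS ())
    exact LawC.sc_near S ℕ (fun x : ℕ => act (x : ℤ) (show HK.X k from c))
      (fun _ => (show HK.X k from g)) hS h2 h3
  have hex : ∀ n : ℕ, ∃ x : ℕ, n ≤ x ∧ near n (act (x : ℤ) (show HK.X k from c))
      (show HK.X k from g) := by
    intro n
    obtain ⟨m, hm1, hm2⟩ := ((hlim.eventually (HK.near_mem_nhds n (show HK.X k from g))).and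
      (hU.top (eventually_ge_atTop n))).exists
    exact ⟨b0 m, hm2.trans (hb0 m), hm1⟩
  obtain ⟨b, ab, hb⟩ := HK.Ar.choose hS (R := fun (n x : ℕ) => n ≤ x ∧
    near n (act (x : ℤ) (show HK.X k from c)) (show HK.X k from g))
    (HK.Ar.and hS (HK.Ar.le hS (HK.ArF.fst hS) (HK.ArF.snd hS)) aN) hex
  exact ⟨b, g, ab, fun n => (hb n).1, HK.tendsto_of_near hU.top fun n => (hb n).2,
    KC.minSet_of_Mn (α := AK.Om k) hMn, hg⟩

end Pool.Agent.Work.MP_69fea5_lc.N3
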