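import Pool.Agent.Work.MP_69fea5_lc.N3.StmtsA

/-!
Item USG: upper semicontinuity of the measure of the sections of a closed set, for compact
metrizable spaces.
-/

set_option autoImplicit false

namespace Pool.Agent.Work.MP_69fea5_lc.N3

open MeasureTheory Topology Set Filter ProbabilityTheory
open scoped NNReal ENNReal
open Pool.Agent.Work.MP_69fea5_lc.AK

namespace I_USG

/-- portmanteau: for closed `C` the set of the measures with small mass on `C` is a neighbourhood -/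
lemma nhds_lt {Y : Type} [TopologicalSpace Y] [TopologicalSpace.MetrizableSpace Y]
    [MeasurableSpace Y] [BorelSpace Y] (m : ProbabilityMeasure Y) (C : Set Y) (hC : IsClosed C)
    (a : ℝ≥0) (h : m C < a) : ∀ᶠ m' : ProbabilityMeasure Y in 𝓝 m, m' C < a := by
  letI := TopologicalSpace.metrizableSpaceMetric Y
  have hlim : Tendsto (fun m' : ProbabilityMeasure Y => m') (𝓝 m) (𝓝 m) := tendsto_id
  have h1 := ProbabilityMeasure.limsup_measure_closed_le_of_tendsto hlim hC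
  have h2 : (m : Measure Y) C < (a : ℝ≥0∞) := by
    rw [← ProbabilityMeasure.ennreal_coeFn_eq_coeFn_toMeasure]
    exact_mod_cast h
  have h3 := eventually_lt_of_limsup_lt (lt_of_le_of_lt h1 h2)
  filter_upwards [h3] with m' hm'
  rw [← ProbabilityMeasure.ennreal_coeFn_eq_coeFn_toMeasure] at hm'
  exact_mod_cast hm'

end I_USG

theorem USG_pf : S_USG := by
  intro Y X _ _ _ _ _ _ F hF a
  letI := TopologicalSpace.metrizableSpaceMetric Y
  rw [← isOpen_compl_iff, isOpen_iff_mem_nhds]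
  rintro ⟨m, x⟩ hp
  have hp' : m {y | (y, x) ∈ F} < a := not_le.mp hp
  have hclx : IsClosed {y : Y | (y, x) ∈ F} := hF.preimage (by fun_prop)
  -- an open set `O ⊇ F_x` with `m O < a`
  have hp2 : (m : Measure Y) {y | (y, x) ∈ F} < (a : ℝ≥0∞) := by
    rw [← ProbabilityMeasure.ennreal_coeFn_eq_coeFn_toMeasure]
    exact_mod_cast hp'
  obtain ⟨O, hFO, hO, hOa⟩ := Set.exists_isOpen_lt_of_lt {y : Y | (y, x) ∈ F} _ hp2
  obtain ⟨V, hV, hFV, hVO⟩ := normal_exists_closure_subset hclx hO hFO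
  have hCa : m (closure V) < a := by
    have h1 : (m : Measure Y) (closure V) < (a : ℝ≥0∞) :=
      lt_of_le_of_lt (measure_mono hVO) hOa
    rw [← ProbabilityMeasure.ennreal_coeFn_eq_coeFn_toMeasure] at h1
    exact_mod_cast h1
  have h1 : ∀ᶠ m' : ProbabilityMeasure Y in 𝓝 m, m' (closure V) < a :=
    I_USG.nhds_lt m _ isClosed_closure a hCa
  have hcl : IsClosed (Prod.snd '' (F ∩ (Vᶜ ×ˢ (univ : Set X)))) :=
    isClosedMap_snd_of_compactSpace _ (hF.inter (hV.isClosed_compl.prod isClosed_univ))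
  have h2 : IsOpen (Prod.snd '' (F ∩ (Vᶜ ×ˢ (univ : Set X))))ᶜ := hcl.isOpen_compl
  have hx : x ∈ (Prod.snd '' (F ∩ (Vᶜ ×ˢ (univ : Set X))))ᶜ := by
    rintro ⟨⟨z, x'⟩, ⟨hzF, hzV, -⟩, rfl⟩
    exact hzV (hFV hzF)
  have hmem : {m' : ProbabilityMeasure Y | m' (closure V) < a} ×ˢ
      (Prod.snd '' (F ∩ (Vᶜ ×ˢ (univ : Set X))))ᶜ ∈ 𝓝 (m, x) :=
    prod_mem_nhds h1 (h2.mem_nhds hx)
  refine Filter.mem_of_superset hmem ?_
  rintro ⟨m', x'⟩ ⟨hm', hx'⟩
  have hm'' : m' (closure V) < a := hm'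
  have hle : m' {y : Y | (y, x') ∈ F} ≤ m' (closure V) := by
    apply ProbabilityMeasure.apply_mono
    intro z hz
    apply subset_closure
    by_contra hzV
    exact hx' ⟨(z, x'), ⟨hz, hzV, mem_univ _⟩, rfl⟩
  exact not_le.mpr (lt_of_le_of_lt hle hm'')

end Pool.Agent.Work.MP_69fea5_lc.N3
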