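import Pool.Agent.Work.MP_69fea5_lc.N3.DefsA

/-!
# Block [69fea5 N3], classical part, first half: the statements of the items

Every item is a theorem `XXX_pf (h1 : S_A) (h2 : S_B) ... : S_XXX` in its own file
`N3/I_XXX.lean`; the hypotheses may be any statements of EARLIER items of this file or any
statements `AK.S_...` (all proved on main).
Paper proof: note 3621 on MP_69fea5_lc; hints in the docstrings.
-/

set_option autoImplicit false

namespace Pool.Agent.Work.MP_69fea5_lc.N3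

open MeasureTheory Topology Set Filter ProbabilityTheory
open scoped NNReal ENNReal
open Pool.Agent.Work.MP_69fea5_lc.AK

/-! ## General facts -/

/-- [USG] upper semicontinuity of the measure of the sections of a closed set (compact metrizable
space). If `m (F_x) < a` take an open `O ⊇ F_x` with `m O < a` and a closed neighbourhood `C ⊆ O`
of `F_x`; `F_x' ⊆ C` for `x'` near `x`; portmanteau for the closed set `C`. -/
def S_USG : Prop := ∀ (Y X : Type) [TopologicalSpace Y] [CompactSpace Y] [TopologicalSpace.MetrizableSpace Y]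
  [MeasurableSpace Y] [BorelSpace Y] [TopologicalSpace X] (F : Set (Y × X)), IsClosed F →
  ∀ a : ℝ≥0, IsClosed {p : ProbabilityMeasure Y × X | a ≤ p.1 {y | (y, p.2) ∈ F}}

/-- [RCT] clopen sets of pairs are finite disjoint unions of boxes: centred words of one length. -/
def S_RCT : Prop := ∀ (k : ℕ) (C : Set (Om k × Om k)), IsClopen C →
  ∃ (L : ℕ) (T : Finset (W2 k)), (∀ P ∈ T, P.1.length = 2 * L + 1 ∧ P.2.length = 2 * L + 1) ∧
    C = ⋃ P ∈ T, bx P 0 ∧ (T : Set (W2 k)).PairwiseDisjoint fun P => bx P 0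

/-- [NBX] neighbourhoods in products of two or three spaces of sequences contain boxes of centred
words. -/
def S_NBX : Prop := ∀ k : ℕ,
  (∀ (p : Om k × Om k) (U : Set (Om k × Om k)), U ∈ 𝓝 p → ∃ L₀ : ℕ, ∀ L, L₀ ≤ L →
    bx (wordOf p.1 L, wordOf p.2 L) 0 ⊆ U) ∧
  (∀ P : W2 k, ∀ n : ℤ, IsClopen (bx P n)) ∧
  (∀ (P : W2 k) (n a : ℤ) (p : Om k × Om k), sh a p ∈ bx P n ↔ p ∈ bx P (n + a)) ∧
  (∀ (K C : Set (Om k × Om k)), IsClosed K → IsOpen C → K ⊆ C → ∃ D, IsClopen D ∧ K ⊆ D ∧ D ⊆ C)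

/-- [CL2] a closed set of pairs of measure `< a` is contained in a clopen set of measure `< a`
(regularity and compactness). -/
def S_CL2 : Prop := ∀ (k : ℕ) (ν : Measure (Om k × Om k)) [IsFiniteMeasure ν]
  (F : Set (Om k × Om k)) (a : ℝ), IsClosed F → ν.real F < a →
  ∃ C, IsClopen C ∧ F ⊆ C ∧ ν.real C < a

/-- [SP2] the support of a finite measure on pairs. -/
def S_SP2 : Prop := ∀ (k : ℕ) (ν : Measure (Om k × Om k)) [IsFiniteMeasure ν],
  IsClosed (sup2 ν) ∧ ν (sup2 ν)ᶜ = 0 ∧ (∀ g, g ∈ sup2 ν ↔ ∀ U ∈ 𝓝 g, 0 < ν U) ∧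
  ∀ U : Set (Om k × Om k), IsOpen U → 0 < ν U → (U ∩ sup2 ν).Nonempty

/-! ## The universal isometric factor -/

/-- [RRB] the sets `RR L` are closed and invariant. -/
def S_RRB : Prop := ∀ (k : ℕ) (L L' : WL k), IsClosed (RR L) ∧ AK.Inv (RR L) ∧
  RR (L ++ L') = RR L ∩ RR L'

/-- [CLR] a closed invariant set of pairs is a decreasing limit of sets `RR L`, measured in the
section at `x`: every `u` with `(x, u) ∉ R` has a box disjoint from `R`; countably many boxes. -/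
def S_CLR : Prop := ∀ (k : ℕ) (m : PM k) (R : Set (Om k × Om k)), IsClosed R → AK.Inv R →
  ∀ (x : Om k) (ε : ℝ), 0 < ε → ∃ L : WL k, R ⊆ RR L ∧
    (m {u | (x, u) ∈ RR L ∧ (x, u) ∉ R} : ℝ) < ε

/-- [RMC] the measure of the sections of a closed invariant set of pairs is constant on `M`
(`AK.S_USC`, `AK.S_CST`). -/
def S_RMC : Prop := ∀ (k : ℕ) (m : PM k) (M : Set (Om k)), MinSet M → sh 1 m = m →
  ∀ R : Set (Om k × Om k), IsClosed R → AK.Inv R →
    ∀ x ∈ M, ∀ y ∈ M, m {u | (x, u) ∈ R} = m {u | (y, u) ∈ R}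

/-- [RHC] `rho` is a continuous invariant pseudometric (the measures of `R_x ∩ R_y` and
`R_x ∪ R_y` are upper semicontinuous with constant sum). -/
def S_RHC : Prop := ∀ (k : ℕ) (m : PM k) (M : Set (Om k)), MinSet M → sh 1 m = m →
  ∀ R : Set (Om k × Om k), IsClosed R → AK.Inv R → IPM M (rho m R)

/-- [DKB] the universal pseudometric. -/
def S_DKB : Prop := ∀ (k : ℕ) (m : PM k) (M : Set (Om k)), MinSet M → sh 1 m = m →
  IPM M (dK m) ∧ (∀ x y, 0 ≤ dK m x y ∧ dK m x y ≤ 1) ∧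
  (∀ x y, dK m x y = 0 → ∀ L : WL k, rho m (RR L) x y = 0)

/-- [DKU] universality: (note 3621 (a)) for a continuous invariant pseudometric `ρ` with
`ρ x y > 2 ε` use `R = {(a, b) ∈ M × M | ρ a b ≤ ε}`, CLR at `x` and at `y`; `m (R_x) > 0` because
`m` has full support (`m {b | ρ x b ≤ ε}` is constant in `x`, finite cover). -/
def S_DKU : Prop := ∀ (k : ℕ) (m : PM k) (M : Set (Om k)), MinSet M → sh 1 m = m → m M = 1 →
  ∀ ρ, IPM M ρ → ∀ x ∈ M, ∀ y ∈ M, dK m x y = 0 → ρ x y = 0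

/-- [PIN] the displacement does not depend on the point. -/
def S_PIN : Prop := ∀ (k : ℕ) (M : Set (Om k)) (ρ : Om k → Om k → ℝ), MinSet M → IPM M ρ →
  ∀ (n : ℤ), ∀ x ∈ M, ∀ y ∈ M, ρ (sh n x) x = ρ (sh n y) y

/-- [KCP] from a continuous invariant pseudometric to a compact group: `p n = ρ (T^n g, g)` is a
seminorm on `ℤ`; `K` is the completion; `M → K` by uniform continuity. -/
def S_KCP : Prop := ∀ (k : ℕ) (g : Om k) (ρ : Om k → Om k → ℝ), MinSet (orb g) →
  IPM (orb g) ρ → ∃ (K : Type) (_ : NormedAddCommGroup K) (_ : CompactSpace K) (e : K)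
    (π : Om k → K), Dense (Set.range fun n : ℤ => n • e) ∧ ContinuousOn π (orb g) ∧ π g = 0 ∧
      (∀ z ∈ orb g, ∀ n : ℤ, π (sh n z) = π z + n • e) ∧
      (∀ x ∈ orb g, ∀ y ∈ orb g, ‖π x - π y‖ = ρ x y) ∧
      (∀ n : ℤ, ‖n • e‖ = ρ (sh n g) g)

/-- [KRO] the universal isometric factor with a prescribed normalisation: the position of `c` is
`0`, that of `g = lim T^(b n) c` is the limit of the `b n • e`. -/
def S_KRO : Prop := ∀ (k : ℕ) (c g : Om k) (m : PM k) (G : Ultrafilter ℕ) (b : ℕ → ℕ),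
  MinSet (orb g) → sh 1 m = m → m (orb g) = 1 →
  Tendsto (fun n => sh (b n : ℤ) c) (G : Filter ℕ) (𝓝 g) →
  ∃ (K : Type) (_ : NormedAddCommGroup K) (_ : CompactSpace K) (e : K) (π : Om k → K),
    Kro (orb g) e π ∧ (∀ n : ℤ, ‖n • e‖ = dK m (sh n g) g) ∧ (∀ x : K, ‖x‖ ≤ 1) ∧
    (∀ x ∈ orb g, ∀ y ∈ orb g, ‖π x - π y‖ = dK m x y) ∧
    Tendsto (fun n => (b n : ℤ) • e) (G : Filter ℕ) (𝓝 (π g))

/-- [IKB] the embedding of `K` in the cube. -/
def S_IKB : Prop := ∀ (K : Type) [NormedAddCommGroup K] [CompactSpace K] (e : K),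
  Dense (Set.range fun n : ℤ => n • e) → (∀ x : K, ‖x‖ ≤ 1) →
  Continuous (iK e) ∧ Function.Injective (iK e) ∧ (∀ (v : K) (n : ℤ),
    iK e (v + n • e) = sh n (iK e v)) ∧ IsClosed (Set.range (iK e)) ∧
    ∀ (v : K) (F : Filter K), Tendsto (iK e) F (𝓝 (iK e v)) → F ≤ 𝓝 v

/-- [KGR] the base `K` itself: `Γ = {(w, iK (π w), ())}` is a base for `c`. -/
def S_KGR : Prop := ∀ (k : ℕ) (c g : Om k) (K : Type) [NormedAddCommGroup K] [CompactSpace K]
  (e : K) (π : Om k → K) (G : Ultrafilter ℕ) (b : ℕ → ℕ), MinSet (orb g) → Kro (orb g) e π →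
  (∀ x : K, ‖x‖ ≤ 1) → (G : Filter ℕ) ≤ atTop → (∀ n, n ≤ b n) →
  Tendsto (fun n => sh (b n : ℤ) c) (G : Filter ℕ) (𝓝 g) →
  Tendsto (fun n => (b n : ℤ) • e) (G : Filter ℕ) (𝓝 (π g)) →
  let Γ : Set (Om k × Cube Unit) := (fun w => (w, iK e (π w))) '' orb g
  MinSet Γ ∧ Γ ⊆ omg (c, iK e (0 : K))

/-! ## Haar measure -/

section Haar

/-- [HUN] the Haar measure is the only probability measure invariant under `t ↦ t + e`. -/
def S_HUN : Prop := ∀ (K : Type) [NormedAddCommGroup K] [CompactSpace K] [MeasurableSpace K]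
  [BorelSpace K] (hm : Measure K) [IsProbabilityMeasure hm] [hm.IsAddHaarMeasure] (e : K),
  Dense (Set.range fun n : ℤ => n • e) → ∀ ν : Measure K, IsProbabilityMeasure ν →
    ν.map (fun t => t + e) = ν → ν = hm

/-- [DBL] doubling: `K = 2K ∪ (e + 2K)`. -/
def S_DBL : Prop := ∀ (K : Type) [NormedAddCommGroup K] [CompactSpace K] [MeasurableSpace K]
  [BorelSpace K] (hm : Measure K) [IsProbabilityMeasure hm] [hm.IsAddHaarMeasure] (e : K),
  Dense (Set.range fun n : ℤ => n • e) → hm.map (fun t => t + t) ≤ (2 : ℝ≥0∞) • hm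

/-- [TRC] continuity of integrals of products of translates (Mathlib: continuity of translations in
`Lp`, `MeasureTheory/Function/LpSpace/DomAct/Continuous.lean`; for the `g` use DBL). -/
def S_TRC : Prop := ∀ (K : Type) [NormedAddCommGroup K] [CompactSpace K] [MeasurableSpace K]
  [BorelSpace K] (hm : Measure K) [IsProbabilityMeasure hm] [hm.IsAddHaarMeasure] (e : K),
  Dense (Set.range fun n : ℤ => n • e) → ∀ (I J : Type) [Fintype I] [Fintype J]
  (f : I → K → ℝ) (g : J → K → ℝ), (∀ i, Measurable (f i)) → (∀ j, Measurable (g j)) →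
  (∀ i t, 0 ≤ f i t ∧ f i t ≤ 1) → (∀ j t, 0 ≤ g j t ∧ g j t ≤ 1) →
  Continuous fun p : (I → K) × (J → K) =>
    ∫ a, (∏ i, f i (a + p.1 i)) * (∏ j, g j (a + a + p.2 j)) ∂hm

/-- [HLF] small elements which are doubles are doubles of small elements, and small elements are
doubles. -/
def S_HLF : Prop := ∀ (K : Type) [NormedAddCommGroup K] [CompactSpace K] (e : K),
  Dense (Set.range fun n : ℤ => n • e) → ∀ ε : ℝ, 0 < ε → ∃ δ : ℝ, 0 < δ ∧
    ∀ t : K, ‖t‖ < δ → ∃ s : K, ‖s‖ < ε ∧ s + s = t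

end Haar

/-! ## Disintegration and the kernels of progressions -/

section Ker

/-- [DIS] disintegrations exist (`condDistrib` of the identity with respect to `π`; the image of
`μ` is `hm` by HUN). -/
def S_DIS : Prop := ∀ (k : ℕ) (M : Set (Om k)) (K : Type) [NormedAddCommGroup K] [CompactSpace K]
  [MeasurableSpace K] [BorelSpace K] (e : K) (π : Om k → K) (hm : Measure K) (μ : PM k),
  IsProbabilityMeasure hm → hm.IsAddHaarMeasure → MinSet M → sh 1 μ = μ → μ M = 1 →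
  Kro M e π → ∃ η : Kernel K (Om k), Dis M e π hm μ η

variable {k : ℕ}

/-- [KPB] the kernels are measurable and have probability measures as values; first properties. -/
def S_KPB : Prop := ∀ (k : ℕ) (M : Set (Om k)) (K : Type) [NormedAddCommGroup K] [CompactSpace K]
  [MeasurableSpace K] [BorelSpace K] (e : K) (π : Om k → K) (hm : Measure K) (μ : PM k)
  (η : Kernel K (Om k)), Fr M e π hm μ η →
  (∀ a, IsProbabilityMeasure (kap1 hm η a) ∧ IsProbabilityMeasure (kap3 hm η a)) ∧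
  (∀ (a : K) (S : Set (Om k × Om k)), MeasurableSet S →
    kap1 hm η a S = ∫⁻ t, ((η (a + t)).prod (η (a + t + t))) S ∂hm) ∧
  (∀ (a : K) (S : Set (Om k × Om k)), MeasurableSet S →
    kap3 hm η a S = ∫⁻ t, ((η (a - t - t)).prod (η (a - t))) S ∂hm) ∧
  (∀ S : Set (K × (Om k × Om k)), MeasurableSet S →
    Measurable (fun a => kap1 hm η a {p | (a, p) ∈ S}) ∧
    Measurable (fun a => kap3 hm η a {p | (a, p) ∈ S})) ∧
  (∀ (a : K) (A : Set (Om k)), MeasurableSet A →
    kap1 hm η a (A ×ˢ univ) = (μ : Measure (Om k)) A ∧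
    kap1 hm η a (univ ×ˢ A) ≤ 2 * (μ : Measure (Om k)) A ∧
    kap3 hm η a (univ ×ˢ A) = (μ : Measure (Om k)) A ∧
    kap3 hm η a (A ×ˢ univ) ≤ 2 * (μ : Measure (Om k)) A)

/-- [KPC] continuity of the kernels on clopen sets (RCT, TRC). -/
def S_KPC : Prop := ∀ (k : ℕ) (M : Set (Om k)) (K : Type) [NormedAddCommGroup K] [CompactSpace K]
  [MeasurableSpace K] [BorelSpace K] (e : K) (π : Om k → K) (hm : Measure K) (μ : PM k)
  (η : Kernel K (Om k)), Fr M e π hm μ η → ∀ C : Set (Om k × Om k), IsClopen C →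
  Continuous (fun a => (kap1 hm η a).real C) ∧ Continuous (fun a => (kap3 hm η a).real C)

/-- [KPE] equivariance of the kernels, for all points. -/
def S_KPE : Prop := ∀ (k : ℕ) (M : Set (Om k)) (K : Type) [NormedAddCommGroup K] [CompactSpace K]
  [MeasurableSpace K] [BorelSpace K] (e : K) (π : Om k → K) (hm : Measure K) (μ : PM k)
  (η : Kernel K (Om k)), Fr M e π hm μ η → ∀ (n : ℤ) (a : K) (S : Set (Om k × Om k)),
  MeasurableSet S → kap1 hm η (a + n • e) S = kap1 hm η a {p | sh n p ∈ S} ∧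
    kap3 hm η (a + n • e) S = kap3 hm η a {p | sh n p ∈ S}

/-- [KPS] the kernels live on progressions in `M`. -/
def S_KPS : Prop := ∀ (k : ℕ) (M : Set (Om k)) (K : Type) [NormedAddCommGroup K] [CompactSpace K]
  [MeasurableSpace K] [BorelSpace K] (e : K) (π : Om k → K) (hm : Measure K) (μ : PM k)
  (η : Kernel K (Om k)), Fr M e π hm μ η → ∀ w ∈ M,
  kap1 hm η (π w) (sec1 (Z3 M π) w)ᶜ = 0 ∧ kap3 hm η (π w) (sec3 (Z3 M π) w)ᶜ = 0

/-- [KPF] Fubini: the law of a progression, seen from its first and from its last point. -/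
def S_KPF : Prop := ∀ (k : ℕ) (M : Set (Om k)) (K : Type) [NormedAddCommGroup K] [CompactSpace K]
  [MeasurableSpace K] [BorelSpace K] (e : K) (π : Om k → K) (hm : Measure K) (μ : PM k)
  (η : Kernel K (Om k)), Fr M e π hm μ η → ∀ N : Set (Om k × Om k × Om k), IsClosed N →
  ∀ A : Set (Om k × Om k × Om k), IsClopen A →
  ∫⁻ w in M, kap1 hm η (π w) (sec1 (N ∩ A) w) ∂(μ : Measure (Om k)) =
    ∫⁻ v in M, kap3 hm η (π v) (sec3 (N ∩ A) v) ∂(μ : Measure (Om k))

/-- [RKN] the measures of the sections of a closed invariant set of progressions are one constant.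
(USG or CL2 + KPC: upper semicontinuous; KPE: invariant; `AK.S_CST`; KPF.) -/
def S_RKN : Prop := ∀ (k : ℕ) (M : Set (Om k)) (K : Type) [NormedAddCommGroup K] [CompactSpace K]
  [MeasurableSpace K] [BorelSpace K] (e : K) (π : Om k → K) (hm : Measure K) (μ : PM k)
  (η : Kernel K (Om k)), Fr M e π hm μ η → ∀ N : Set (Om k × Om k × Om k), Rel3 M π N →
  ∃ a : ℝ, (∀ w ∈ M, (kap1 hm η (π w)).real (sec1 N w) = a) ∧
    (∀ v ∈ M, (kap3 hm η (π v)).real (sec3 N v) = a)

/-- [RKC] continuity of the measures of clopen parts of the sections. -/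
def S_RKC : Prop := ∀ (k : ℕ) (M : Set (Om k)) (K : Type) [NormedAddCommGroup K] [CompactSpace K]
  [MeasurableSpace K] [BorelSpace K] (e : K) (π : Om k → K) (hm : Measure K) (μ : PM k)
  (η : Kernel K (Om k)), Fr M e π hm μ η → ∀ N : Set (Om k × Om k × Om k), Rel3 M π N →
  ∀ C : Set (Om k × Om k), IsClopen C →
  ContinuousOn (fun w => (kap1 hm η (π w)).real (sec1 N w ∩ C)) M ∧
    ContinuousOn (fun v => (kap3 hm η (π v)).real (sec3 N v ∩ C)) M

/-- [RKD] the pseudometric `dd3` of a closed invariant set of progressions (on pairs of points of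
`M` at the same position): as `AK.S_DDC`, `AK.S_DDA`. -/
def S_RKD : Prop := ∀ (k : ℕ) (M : Set (Om k)) (K : Type) [NormedAddCommGroup K] [CompactSpace K]
  [MeasurableSpace K] [BorelSpace K] (e : K) (π : Om k → K) (hm : Measure K) (μ : PM k)
  (η : Kernel K (Om k)), Fr M e π hm μ η → ∀ N : Set (Om k × Om k × Om k), Rel3 M π N →
  ContinuousOn (fun q : Om k × Om k => dd3 hm η π N q.1 q.2)
    {q | q.1 ∈ M ∧ q.2 ∈ M ∧ π q.1 = π q.2} ∧
  (∀ v ∈ M, ∀ v' ∈ M, ∀ n : ℤ, dd3 hm η π N (sh n v) (sh n v') = dd3 hm η π N v v') ∧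
  (∀ v, dd3 hm η π N v v = 0) ∧ (∀ v v', 0 ≤ dd3 hm η π N v v') ∧
  (∀ v ∈ M, ∀ v' ∈ M, π v = π v' → dd3 hm η π N v v' = dd3 hm η π N v' v) ∧
  (∀ v ∈ M, ∀ v' ∈ M, ∀ v'' ∈ M, π v = π v' → π v' = π v'' →
    dd3 hm η π N v v'' ≤ dd3 hm η π N v v' + dd3 hm η π N v' v'') ∧
  (∀ v ∈ M, ∀ v' ∈ M, π v = π v' → ∀ C : Set (Om k × Om k), MeasurableSet C →
    |(kap3 hm η (π v)).real (sec3 N v ∩ C) - (kap3 hm η (π v')).real (sec3 N v' ∩ C)| ≤
      dd3 hm η π N v v')

/-- [RKZ] the pseudometric is zero if all clopen parts of the sections have the same measure. -/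
def S_RKZ : Prop := ∀ (k : ℕ) (M : Set (Om k)) (K : Type) [NormedAddCommGroup K] [CompactSpace K]
  [MeasurableSpace K] [BorelSpace K] (e : K) (π : Om k → K) (hm : Measure K) (μ : PM k)
  (η : Kernel K (Om k)), Fr M e π hm μ η → ∀ N : Set (Om k × Om k × Om k), Rel3 M π N →
  ∀ v ∈ M, ∀ v' ∈ M, π v = π v' →
  (∀ P : W2 k, (kap3 hm η (π v)).real (sec3 N v ∩ bx P 0) =
    (kap3 hm η (π v')).real (sec3 N v' ∩ bx P 0)) → dd3 hm η π N v v' = 0

end Ker

/-! ## The location lemma -/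

section Loc

/-- [BOX] four-cycles (note 3621 (d), Cauchy–Schwarz only). `hm` a probability measure, `α`, `β`
Markov kernels; `n, n'` measurable sets of pairs `(w, u)`. -/
def S_BOX : Prop := ∀ (A W U : Type) [MeasurableSpace A] [MeasurableSpace W] [MeasurableSpace U]
  (hm : Measure A) [IsProbabilityMeasure hm] (α : Kernel A W) (β : Kernel A U)
  [IsMarkovKernel α] [IsMarkovKernel β] (N N' : Set (W × U)), MeasurableSet N →
  MeasurableSet N' →
  let q : Set (W × U) → Set (W × U) → Set (W × U) → Set (W × U) → ℝ := fun N1 N2 N3 N4 =>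
    ∫ a, (((α a).prod (α a)).prod ((β a).prod (β a))).real
      {q | (q.1.1, q.2.1) ∈ N1 ∧ (q.1.1, q.2.2) ∈ N2 ∧ (q.1.2, q.2.1) ∈ N3 ∧
        (q.1.2, q.2.2) ∈ N4} ∂hm
  q N N N N = q N N N N' → q N N N N = q N' N' N' N' →
    ∀ᵐ a ∂hm, ((α a).prod (β a)) ((N \ N') ∪ (N' \ N)) = 0

/-- [HHM] comparison of cube functions: replacing the four sections by larger measurable sets costs
at most the sum of the `kap3` measures of the differences (the law of the pair `(w_i, u_j)` is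
`kap3` at the position of the corner: substitution `a = b - t`, and `a + s = b - t` for the second
column). -/
def S_HHM : Prop := ∀ (k : ℕ) (M : Set (Om k)) (K : Type) [NormedAddCommGroup K] [CompactSpace K]
  [MeasurableSpace K] [BorelSpace K] (e : K) (π : Om k → K) (hm : Measure K) (μ : PM k)
  (η : Kernel K (Om k)), Fr M e π hm μ η →
  ∀ (b00 b01 b10 b11 s : K), b01 = b00 + s + s → b11 = b10 + s + s →
  ∀ (A00 A01 A10 A11 C00 C01 C10 C11 : Set (Om k × Om k)), MeasurableSet A00 →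
  MeasurableSet A01 → MeasurableSet A10 → MeasurableSet A11 → MeasurableSet C00 →
  MeasurableSet C01 → MeasurableSet C10 → MeasurableSet C11 →
  |(∫ a, (qm η b00 b10 s a).real (qs A00 A01 A10 A11) ∂hm) -
    ∫ a, (qm η b00 b10 s a).real (qs C00 C01 C10 C11) ∂hm| ≤
  (kap3 hm η b00).real ((A00 \ C00) ∪ (C00 \ A00)) +
  (kap3 hm η b01).real ((A01 \ C01) ∪ (C01 \ A01)) +
  (kap3 hm η b10).real ((A10 \ C10) ∪ (C10 \ A10)) +
  (kap3 hm η b11).real ((A11 \ C11) ∪ (C11 \ A11))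

/-- [HHK] the cube integral of clopen sets is continuous in the positions (RCT, TRC). -/
def S_HHK : Prop := ∀ (k : ℕ) (M : Set (Om k)) (K : Type) [NormedAddCommGroup K] [CompactSpace K]
  [MeasurableSpace K] [BorelSpace K] (e : K) (π : Om k → K) (hm : Measure K) (μ : PM k)
  (η : Kernel K (Om k)), Fr M e π hm μ η →
  ∀ C00 C01 C10 C11 : Set (Om k × Om k), IsClopen C00 → IsClopen C01 → IsClopen C10 →
  IsClopen C11 → Continuous fun p : K × K × K =>
    ∫ a, (qm η p.1 p.2.1 p.2.2 a).real (qs C00 C01 C10 C11) ∂hm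

/-- [HHC] the cube function is continuous on its domain (for `x` fixed take clopen `C_ij ⊇ N^x_ij`
with small difference; they work for nearby points, as `kap3 (N^x) ` is constant). -/
def S_HHC : Prop := ∀ (k : ℕ) (M : Set (Om k)) (K : Type) [NormedAddCommGroup K] [CompactSpace K]
  [MeasurableSpace K] [BorelSpace K] (e : K) (π : Om k → K) (hm : Measure K) (μ : PM k)
  (η : Kernel K (Om k)), Fr M e π hm μ η → ∀ N : Set (Om k × Om k × Om k), Rel3 M π N →
  ContinuousOn (fun p : (Om k × Om k) × (Om k × Om k) × K =>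
    HH hm η π N p.1.1 p.1.2 p.2.1.1 p.2.1.2 p.2.2) (HD M π)

/-- [HHI] the cube function is invariant, and does not change if a corner is replaced by a point at
the same position at `dd3`-distance zero. -/
def S_HHI : Prop := ∀ (k : ℕ) (M : Set (Om k)) (K : Type) [NormedAddCommGroup K] [CompactSpace K]
  [MeasurableSpace K] [BorelSpace K] (e : K) (π : Om k → K) (hm : Measure K) (μ : PM k)
  (η : Kernel K (Om k)), Fr M e π hm μ η → ∀ N : Set (Om k × Om k × Om k), Rel3 M π N →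
  (∀ p ∈ HD M π, ∀ n : ℤ, HH hm η π N (sh n p.1.1) (sh n p.1.2) (sh n p.2.1.1)
    (sh n p.2.1.2) p.2.2 = HH hm η π N p.1.1 p.1.2 p.2.1.1 p.2.1.2 p.2.2) ∧
  (∀ p ∈ HD M π, ∀ x ∈ M, π x = π p.1.1 → dd3 hm η π N x p.1.1 = 0 →
    HH hm η π N x p.1.2 p.2.1.1 p.2.1.2 p.2.2 =
      HH hm η π N p.1.1 p.1.2 p.2.1.1 p.2.1.2 p.2.2) ∧
  (∀ p ∈ HD M π, ∀ x00 ∈ M, ∀ x01 ∈ M, ∀ x10 ∈ M, ∀ x11 ∈ M, π x00 = π p.1.1 →
    π x01 = π p.1.2 → π x10 = π p.2.1.1 → π x11 = π p.2.1.2 →
    dd3 hm η π N x00 p.1.1 = 0 → dd3 hm η π N x01 p.1.2 = 0 →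
    dd3 hm η π N x10 p.2.1.1 = 0 → dd3 hm η π N x11 p.2.1.2 = 0 →
    HH hm η π N x00 x01 x10 x11 p.2.2 = HH hm η π N p.1.1 p.1.2 p.2.1.1 p.2.1.2 p.2.2)

/-- [HHD] if the cube function at `(v, v, v, v')` is the same as at `(v, v, v, v)` then `v` and
`v'` are at distance zero (BOX with `α a = η (a + a - π v)`, `β a = η a`; `HH (x, x, x, x; 0)` is
constant on `M` by HHC, HHI, `AK.S_CST`). -/
def S_HHD : Prop := ∀ (k : ℕ) (M : Set (Om k)) (K : Type) [NormedAddCommGroup K] [CompactSpace K]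
  [MeasurableSpace K] [BorelSpace K] (e : K) (π : Om k → K) (hm : Measure K) (μ : PM k)
  (η : Kernel K (Om k)), Fr M e π hm μ η → ∀ N : Set (Om k × Om k × Om k), Rel3 M π N →
  ∀ v ∈ M, ∀ v' ∈ M, π v = π v' → HH hm η π N v v v v' 0 = HH hm η π N v v v v 0 →
    dd3 hm η π N v v' = 0

/-- [LOC] the location lemma: if `(w, u, v)` is a limit of `T^x (z, g₁, g₂)` for a point `z` at
the position `0`, and `w`, `g₁`, `u`, `g₂` are close to `z` (position and `dd3`), then so is `v`.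
In terms of convergence along an ultrafilter `G`: `w_i, u_i, v_i, g_i, g'_i` in `M`,
`(w_i, u_i, u_i, v_i)` has the same cube function as `(z, g_i, g_i, g'_i)`; all positions tend to
`0`; limits `w, u, g, g'` of the points are at distance zero from `z`. Then so is the limit `v`.
Proof: HLF for the parameters `s_i`, HHC, HHI, HHD. -/
def S_LOC : Prop := ∀ (k : ℕ) (M : Set (Om k)) (K : Type) [NormedAddCommGroup K] [CompactSpace K]
  [MeasurableSpace K] [BorelSpace K] (e : K) (π : Om k → K) (hm : Measure K) (μ : PM k)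
  (η : Kernel K (Om k)), Fr M e π hm μ η → ∀ N : Set (Om k × Om k × Om k), Rel3 M π N →
  ∀ z ∈ M, π z = 0 → ∀ (G : Ultrafilter ℕ) (w u v g g' : ℕ → Om k) (w₀ u₀ v₀ g₀ g₀' : Om k),
  (∀ i, w i ∈ M ∧ u i ∈ M ∧ v i ∈ M ∧ g i ∈ M ∧ g' i ∈ M ∧ π (w i) + π (g i) = π (u i) ∧
    π (g' i) = π (g i) + π (g i) ∧ π (u i) + π (g i) = π (v i)) →
  (∀ i (s : K), s + s = π (g i) →
    HH hm η π N (w i) (u i) (u i) (v i) s = HH hm η π N z (g i) (g i) (g' i) s) →
  Tendsto w (G : Filter ℕ) (𝓝 w₀) → Tendsto u (G : Filter ℕ) (𝓝 u₀) →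
  Tendsto v (G : Filter ℕ) (𝓝 v₀) → Tendsto g (G : Filter ℕ) (𝓝 g₀) →
  Tendsto g' (G : Filter ℕ) (𝓝 g₀') → π w₀ = 0 → π g₀ = 0 →
  dd3 hm η π N w₀ z = 0 → dd3 hm η π N u₀ z = 0 → dd3 hm η π N g₀ z = 0 →
  dd3 hm η π N g₀' z = 0 → π v₀ = 0 ∧ dd3 hm η π N z v₀ = 0

end Loc

end Pool.Agent.Work.MP_69fea5_lc.N3
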