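import Pool.Agent.Work.MP_69fea5_lc.N3.StmtsH
import Pool.Agent.Work.MP_69fea5_lc.KC.I_KTH
import Pool.Agent.Work.MP_69fea5_lc.KC.I_KAPF

/-!
# Block [69fea5 N3], item RSC: the measures of the sections of the relations `RR` are coded
-/

set_option autoImplicit false

namespace Pool.Agent.Work.MP_69fea5_lc.N3

open MeasureTheory Topology Set Filter ProbabilityTheory
open scoped NNReal ENNReal
open Pool.Agent.Work.MP_69fea5_lc.AK
open Pool.Agent.Work.MP_69fea5_lc.HK (Cl DU Ar ArF ArR Dat Law LawC act near sc Pt oc Mn mr)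

namespace I_RSC

variable {S : Set (Set ℕ)} {k : ℕ}

/-- the index: a list of boxes, two shifts, the size of the window -/
abbrev Ind (k : ℕ) := (WL k × ℤ × ℤ) × ℕ

/-- one box at one place -/
def one (g : Om k) (b : Ind k) (w : List (Fin k)) (j : ℤ) (q : Wd k × Wd k) : Prop :=
  ((sh b.1.2.1 g ∈ cyl q.1 j ∨ sh b.1.2.2 g ∈ cyl q.1 j) ∧
    ∀ t ∈ KC.con q.2 j, t.1.natAbs ≤ b.2 ∧ w[(t.1 + b.2).toNat]? = some t.2)

/-- the condition on the word of a point on a window -/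
def Hp (g : Om k) (b : Ind k) (w : List (Fin k)) : Prop :=
  ∀ j : ℤ, j.natAbs ≤ b.2 → ∀ q ∈ b.1.1, ¬ one g b w j q

theorem wd_get (u : Om k) (N : ℕ) (t : ℤ) (ht : t.natAbs ≤ N) (a : Fin k) :
    (HK.wd N u)[(t + N).toNat]? = some a ↔ u t = a := by
  have h1 : (t + N).toNat < 2 * N + 1 := by omega
  have h2 : (((t + N).toNat : ℕ) : ℤ) - N = t := by omega
  unfold HK.wd
  rw [List.getElem?_map, List.getElem?_range h1]
  simp only [Option.map_some, Option.some.injEq]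
  rw [h2]

theorem sections (hCON : KC.S_CON) (g : Om k) (L : WL k) (a b : ℤ) :
    {u : Om k | (sh a g, u) ∈ RR L ∧ (sh b g, u) ∈ RR L} =
      ⋂ N : ℕ, {u | Hp g ((L, a, b), N) (HK.wd N u)} := by
  ext u
  simp only [Set.mem_iInter]
  constructor
  · rintro ⟨h1, h2⟩ N j hj q hq ⟨h3, h4⟩
    have h5 : u ∈ cyl q.2 j := by
      rw [← hCON k q.2 j]
      intro t ht
      obtain ⟨h6, h7⟩ := h4 t ht
      exact (wd_get u N t.1 h6 t.2).1 h7
    rcases h3 with h3 | h3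
    · exact h1 j q hq ⟨h3, h5⟩
    · exact h2 j q hq ⟨h3, h5⟩
  · intro h
    have key : ∀ j : ℤ, ∀ q ∈ L, ¬ ((sh a g ∈ cyl q.1 j ∨ sh b g ∈ cyl q.1 j) ∧
        u ∈ cyl q.2 j) := by
      rintro j q hq ⟨h1, h2⟩
      obtain ⟨B, hB⟩ : ∃ B : ℕ, ∀ t ∈ KC.con q.2 j, t.1.natAbs ≤ B := by
        have hfin : {t | t ∈ KC.con q.2 j}.Finite := List.finite_toSet _
        obtain ⟨B, hB⟩ := (hfin.image fun t => t.1.natAbs).bddAbove
        exact ⟨B, fun t ht => hB ⟨t, ht, rfl⟩⟩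
      refine h (max B j.natAbs) j (le_max_right _ _) q hq ⟨h1, fun t ht => ?_⟩
      have h3 : t.1.natAbs ≤ max B j.natAbs := (hB t ht).trans (le_max_left _ _)
      refine ⟨h3, (wd_get u _ t.1 h3 t.2).2 ?_⟩
      rw [← hCON k q.2 j] at h2
      exact h2 t ht
    exact ⟨fun j q hq hh => key j q hq ⟨Or.inl hh.1, hh.2⟩,
      fun j q hq hh => key j q hq ⟨Or.inr hh.1, hh.2⟩⟩

theorem anti (g : Om k) (L : WL k) (a b : ℤ) :
    Antitone fun N : ℕ => {u : Om k | Hp g ((L, a, b), N) (HK.wd N u)} := by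
  intro N N' hN u hu j hj q hq hh
  refine hu j (le_trans hj hN) q hq ⟨hh.1, fun t ht => ?_⟩
  obtain ⟨h1, h2⟩ := hh.2 t ht
  have h3 : t.1.natAbs ≤ N' := le_trans h1 hN
  exact ⟨h3, (wd_get u N' t.1 h3 t.2).2 ((wd_get u N t.1 h1 t.2).1 h2)⟩

theorem measure_sections (hCON : KC.S_CON) (g : Om k) (m : PM k) (L : WL k) (a b : ℤ) :
    mr m {u : Om k | (sh a g, u) ∈ RR L ∧ (sh b g, u) ∈ RR L} =
      ⨅ N : ℕ, mr m (HK.cyl ([] : HK.C k) ∩ {u | Hp g ((L, a, b), N) (HK.wd N u)}) := by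
  have hnil : HK.cyl ([] : HK.C k) = univ := by
    ext u
    simp [HK.cyl]
  have he : ∀ N : ℕ, HK.cyl ([] : HK.C k) ∩ {u | Hp g ((L, a, b), N) (HK.wd N u)} =
      {u | Hp g ((L, a, b), N) (HK.wd N u)} := fun N => by rw [hnil, univ_inter]
  simp only [he]
  rw [sections hCON g L a b]
  have hlim : Tendsto (fun N : ℕ => mr m {u : Om k | Hp g ((L, a, b), N) (HK.wd N u)}) atTop
      (𝓝 (mr m (⋂ N : ℕ, {u | Hp g ((L, a, b), N) (HK.wd N u)}))) := by
    have h2 := tendsto_measure_iInter_atTop (μ := (m : Measure (Om k)))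
      (s := fun N : ℕ => {u : Om k | Hp g ((L, a, b), N) (HK.wd N u)})
      (fun N => (KC.I_KAPF.isClopen_wd _ N).isOpen.measurableSet.nullMeasurableSet)
      (anti g L a b) ⟨0, measure_ne_top _ _⟩
    exact (ENNReal.tendsto_toReal (measure_ne_top _ _)).comp h2
  have hbdd : BddBelow (Set.range fun N : ℕ =>
      mr m {u : Om k | Hp g ((L, a, b), N) (HK.wd N u)}) :=
    ⟨0, by rintro _ ⟨N, rfl⟩; exact measureReal_nonneg⟩
  exact tendsto_nhds_unique hlim (tendsto_atTop_ciInf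
    (fun N N' hN => measureReal_mono (anti g L a b hN)) hbdd)

/-- cylinders along a coded orbit -/
theorem cylF (hS : Cl S) (hCON : KC.S_CON) (hCONF : KC.S_CONF) {g : Om k} (hg : Pt S g) :
    Ar S fun p : ℤ × Wd k × ℤ => sh p.1 g ∈ cyl p.2.1 p.2.2 := by
  have hg' : ArF S fun p : Unit × ℤ => g p.2 := hg
  have hg1 : ArF S fun t : ℤ => g t :=
    HK.ArF.comp hS hg' (f := fun t : ℤ => ((), t))
      (HK.ArF.pair hS (HK.ArF.const hS ()) (HK.ArF.id hS))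
  have h1 : Ar S fun p : ℤ × Wd k × ℤ => ∀ t ∈ KC.con p.2.1 p.2.2, g (t.1 + p.1) = t.2 := by
    refine HK.Ar.ballList hS (R := fun (p : ℤ × Wd k × ℤ) (t : ℤ × Fin k) =>
      g (t.1 + p.1) = t.2) ?_ ?_
    · refine HK.Ar.eq hS ?_ (HK.ArF.of_primrec hS (Primrec.snd.comp Primrec.snd))
      refine HK.ArF.comp hS hg1 (f := fun p : (ℤ × Wd k × ℤ) × (ℤ × Fin k) => p.2.1 + p.1.1) ?_
      exact HK.ArF.intAdd hS (HK.ArF.of_primrec hS (Primrec.fst.comp Primrec.snd))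
        (HK.ArF.of_primrec hS (Primrec.fst.comp Primrec.fst))
    · exact HK.ArF.comp hS (hCONF S hS k) (HK.ArF.snd hS)
  refine h1.congr fun p => ?_
  rw [← hCON k p.2.1 p.2.2]
  exact Iff.rfl

theorem oneF (hS : Cl S) (hCON : KC.S_CON) (hCONF : KC.S_CONF) {g : Om k} (hg : Pt S g) :
    Ar S fun r : ((Ind k × List (Fin k)) × ℤ) × (Wd k × Wd k) =>
      one g r.1.1.1 r.1.1.2 r.1.2 r.2 := by
  have hc := cylF hS hCON hCONF hg
  have pb : Primrec fun r : ((Ind k × List (Fin k)) × ℤ) × (Wd k × Wd k) => r.1.1.1 :=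
    Primrec.fst.comp (Primrec.fst.comp Primrec.fst)
  have pw : Primrec fun r : ((Ind k × List (Fin k)) × ℤ) × (Wd k × Wd k) => r.1.1.2 :=
    Primrec.snd.comp (Primrec.fst.comp Primrec.fst)
  have pj : Primrec fun r : ((Ind k × List (Fin k)) × ℤ) × (Wd k × Wd k) => r.1.2 :=
    Primrec.snd.comp Primrec.fst
  have pa : Primrec fun r : ((Ind k × List (Fin k)) × ℤ) × (Wd k × Wd k) => r.1.1.1.1.2.1 :=
    Primrec.fst.comp (Primrec.snd.comp (Primrec.fst.comp pb))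
  have pa' : Primrec fun r : ((Ind k × List (Fin k)) × ℤ) × (Wd k × Wd k) => r.1.1.1.1.2.2 :=
    Primrec.snd.comp (Primrec.snd.comp (Primrec.fst.comp pb))
  have pN : Primrec fun r : ((Ind k × List (Fin k)) × ℤ) × (Wd k × Wd k) => r.1.1.1.2 :=
    Primrec.snd.comp pb
  have p1 : Primrec fun r : ((Ind k × List (Fin k)) × ℤ) × (Wd k × Wd k) => r.2.1 :=
    Primrec.fst.comp Primrec.snd
  have p2 : Primrec fun r : ((Ind k × List (Fin k)) × ℤ) × (Wd k × Wd k) => r.2.2 :=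
    Primrec.snd.comp Primrec.snd
  refine HK.Ar.and hS (HK.Ar.or hS ?_ ?_) ?_
  · exact HK.Ar.comp hS hc (pa.pair (p1.pair pj))
  · exact HK.Ar.comp hS hc (pa'.pair (p1.pair pj))
  · refine HK.Ar.ballList hS
      (R := fun (r : ((Ind k × List (Fin k)) × ℤ) × (Wd k × Wd k)) (t : ℤ × Fin k) =>
        t.1.natAbs ≤ r.1.1.1.2 ∧ r.1.1.2[(t.1 + r.1.1.1.2).toNat]? = some t.2) ?_ ?_
    · refine HK.Ar.and hS ?_ ?_
      · refine HK.Ar.le hS (HK.ArF.natAbs hS (HK.ArF.of_primrec hS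
          (Primrec.fst.comp Primrec.snd))) (HK.ArF.of_primrec hS (pN.comp Primrec.fst))
      · refine HK.Ar.eq hS (HK.ArF.of_primrec hS ?_) (HK.ArF.of_primrec hS ?_)
        · refine Primrec.list_getElem?.comp (pw.comp Primrec.fst) ?_
          refine HK.primrec_toNat.comp (HK.primrec_int_add.comp (Primrec.fst.comp Primrec.snd) ?_)
          exact HK.primrec_natCast.comp (pN.comp Primrec.fst)
        · exact Primrec.option_some.comp (Primrec.snd.comp Primrec.snd)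
    · exact HK.ArF.comp hS (hCONF S hS k) (HK.ArF.of_primrec hS (p2.pair pj))

theorem HpF (hS : Cl S) (hCON : KC.S_CON) (hCONF : KC.S_CONF) {g : Om k} (hg : Pt S g) :
    Ar S fun p : Ind k × List (Fin k) => Hp g p.1 p.2 := by
  refine HK.Ar.ballInt hS (R := fun (p : Ind k × List (Fin k)) (j : ℤ) =>
    ∀ q ∈ p.1.1.1, ¬ one g p.1 p.2 j q) ?_
    (HK.ArF.of_primrec hS (Primrec.snd.comp Primrec.fst))
  refine HK.Ar.ballList hS (R := fun (p : (Ind k × List (Fin k)) × ℤ) (q : Wd k × Wd k) =>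
    ¬ one g p.1.1 p.1.2 p.2 q) ?_
    (HK.ArF.of_primrec hS (Primrec.fst.comp (Primrec.fst.comp (Primrec.fst.comp Primrec.fst))))
  exact HK.Ar.not hS (oneF hS hCON hCONF hg)

/-- the measures of the intersections of two sections are coded -/
theorem interF (hS : Cl S) (hCON : KC.S_CON) (hCONF : KC.S_CONF) {g : Om k} (hg : Pt S g)
    {m : PM k} (hm : Pt S m) :
    ArR S fun p : WL k × ℤ × ℤ =>
      mr m {u : Om k | (sh p.2.1 g, u) ∈ RR p.1 ∧ (sh p.2.2 g, u) ∈ RR p.1} := by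
  have h0 := HK.MEASW_pf S hS k (Ind k) (fun _ => m) (fun b w => Hp g b w)
    (KC.I_KTH.sc_const hS hm) (HpF hS hCON hCONF hg)
  have h1 : ArR S fun p : (WL k × ℤ × ℤ) × ℕ =>
      mr m (HK.cyl ([] : HK.C k) ∩ {u | Hp g p (HK.wd p.2 u)}) := by
    refine HK.ArR.comp hS h0 (g := fun p : (WL k × ℤ × ℤ) × ℕ => (p, p.2, ([] : HK.C k))) ?_
    exact Primrec.id.pair (Primrec.snd.pair (Primrec.const _))
  have h2 : ArR S fun p : WL k × ℤ × ℤ => ⨅ N : ℕ,
      mr m (HK.cyl ([] : HK.C k) ∩ {u | Hp g (p, N) (HK.wd N u)}) :=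
    HK.ArR.iInf hS h1 (fun _ _ => measureReal_nonneg)
  exact h2.congr fun p => measure_sections hCON g m p.1 p.2.1 p.2.2

theorem diff_eq (m : PM k) {A B : Set (Om k)} (hB : MeasurableSet B) :
    (m {u | u ∈ A ∧ u ∉ B} : ℝ) = max (mr m A - mr m (A ∩ B)) 0 := by
  have h1 : (m {u | u ∈ A ∧ u ∉ B} : ℝ) = mr m (A \ B) := rfl
  have h2 : mr m (A ∩ B) + mr m (A \ B) = mr m A := by
    unfold HK.mr
    exact measureReal_inter_add_sdiff hB
  have h3 : 0 ≤ mr m (A \ B) := measureReal_nonneg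
  rw [h1, max_eq_left (by linarith)]
  linarith

theorem measurable_sec (hCON : KC.S_CON) (g : Om k) (L : WL k) (a : ℤ) :
    MeasurableSet {u : Om k | (sh a g, u) ∈ RR L} := by
  have h := sections hCON g L a a
  have h1 : {u : Om k | (sh a g, u) ∈ RR L} =
      {u : Om k | (sh a g, u) ∈ RR L ∧ (sh a g, u) ∈ RR L} := by
    ext u
    simp
  rw [h1, h]
  exact MeasurableSet.iInter fun N => (KC.I_KAPF.isClopen_wd _ N).isOpen.measurableSet

end I_RSC

open I_RSC in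
theorem RSC_pf (hCON : KC.S_CON) (hCONF : KC.S_CONF) : S_RSC := by
  intro S hS k g m hg hm
  have hI := interF hS hCON hCONF hg hm
  have e1 : ArR S fun p : WL k × ℤ × ℤ =>
      mr m {u : Om k | (sh p.2.1 g, u) ∈ RR p.1 ∧ (sh p.2.1 g, u) ∈ RR p.1} :=
    HK.ArR.comp hS hI (g := fun p : WL k × ℤ × ℤ => (p.1, p.2.1, p.2.1))
      (Primrec.fst.pair ((Primrec.fst.comp Primrec.snd).pair (Primrec.fst.comp Primrec.snd)))
  have e2 : ArR S fun p : WL k × ℤ × ℤ =>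
      mr m {u : Om k | (sh p.2.2 g, u) ∈ RR p.1 ∧ (sh p.2.2 g, u) ∈ RR p.1} :=
    HK.ArR.comp hS hI (g := fun p : WL k × ℤ × ℤ => (p.1, p.2.2, p.2.2))
      (Primrec.fst.pair ((Primrec.snd.comp Primrec.snd).pair (Primrec.snd.comp Primrec.snd)))
  have n0 : ∀ (A : Set (Om k)), 0 ≤ mr m A := fun _ => measureReal_nonneg
  have t1 := HK.ArR.tsub hS e1 hI (fun _ => n0 _) (fun _ => n0 _)
  have t2 := HK.ArR.tsub hS e2 hI (fun _ => n0 _) (fun _ => n0 _)
  refine (HK.ArR.add hS t1 t2 (fun _ => le_max_right _ _) (fun _ => le_max_right _ _)).congr ?_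
  intro p
  have h1 := diff_eq m (A := {u : Om k | (sh p.2.1 g, u) ∈ RR p.1}) (measurable_sec hCON g p.1 p.2.2)
  have h2 := diff_eq m (A := {u : Om k | (sh p.2.2 g, u) ∈ RR p.1}) (measurable_sec hCON g p.1 p.2.1)
  have s1 : {u : Om k | (sh p.2.1 g, u) ∈ RR p.1 ∧ (sh p.2.1 g, u) ∈ RR p.1} =
      {u : Om k | (sh p.2.1 g, u) ∈ RR p.1} := by
    ext u
    simp
  have s2 : {u : Om k | (sh p.2.2 g, u) ∈ RR p.1 ∧ (sh p.2.2 g, u) ∈ RR p.1} =
      {u : Om k | (sh p.2.2 g, u) ∈ RR p.1} := by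
    ext u
    simp
  have s3 : {u : Om k | (sh p.2.1 g, u) ∈ RR p.1} ∩ {u : Om k | (sh p.2.2 g, u) ∈ RR p.1} =
      {u : Om k | (sh p.2.1 g, u) ∈ RR p.1 ∧ (sh p.2.2 g, u) ∈ RR p.1} := rfl
  have s4 : {u : Om k | (sh p.2.2 g, u) ∈ RR p.1} ∩ {u : Om k | (sh p.2.1 g, u) ∈ RR p.1} =
      {u : Om k | (sh p.2.1 g, u) ∈ RR p.1 ∧ (sh p.2.2 g, u) ∈ RR p.1} := by
    rw [inter_comm]
    rfl
  rw [s3] at h1
  rw [s4] at h2
  rw [s1, s2]
  unfold rho
  exact congrArg₂ (· + ·) h1 h2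

end Pool.Agent.Work.MP_69fea5_lc.N3
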