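import Pool.Agent.Work.MP_69fea5_lc.N3.StmtsB

/-!
# Block [69fea5 N3]: item GDT

Zones which accumulate at a matched base point give `GOOD` (topology only).
-/

set_option autoImplicit false

namespace Pool.Agent.Work.MP_69fea5_lc.N3

open MeasureTheory Topology Set Filter ProbabilityTheory
open scoped NNReal ENNReal
open Pool.Agent.Work.MP_69fea5_lc.AK

theorem GDT_pf : S_GDT := by
  intro k c B _ _ R z y₀ O D hInv hz hret hopen hcol hacc F hF N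
  -- neighbourhoods at the points `T^s y₀`
  have h1 : ∀ s ∈ F, ∃ V ∈ 𝓝 (sh (s : ℤ) y₀), ∀ p' ∈ R, p'.2 ∈ V → p'.2 ∈ O := fun s hs =>
    hopen (sh (s : ℤ) (z, y₀)) (hInv _ _ hz) (hF s hs)
  have h2 : ∃ V ∈ 𝓝 y₀, ∀ s ∈ F, ∀ b ∈ V, ∀ w, (w, b) ∈ R → sh (s : ℤ) b ∈ O := by
    have : ∀ᶠ b in 𝓝 y₀, ∀ s ∈ F, ∀ w, (w, b) ∈ R → sh (s : ℤ) b ∈ O := by
      have hfin : ∀ᶠ b in 𝓝 y₀, ∀ s ∈ F.toFinset, ∀ w, (w, b) ∈ R → sh (s : ℤ) b ∈ O := by
        rw [Filter.eventually_all_finset]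
        intro s hs
        obtain ⟨V, hV, hVp⟩ := h1 s (List.mem_toFinset.mp hs)
        have := (sh_cont (X := B) (s : ℤ)).continuousAt (x := y₀) |>.preimage_mem_nhds hV
        filter_upwards [this] with b hb w hw
        exact hVp (sh (s : ℤ) (w, b)) (hInv _ _ hw) hb
      filter_upwards [hfin] with b hb s hs w hw
      exact hb s (List.mem_toFinset.mpr hs) w hw
    exact ⟨_, this, fun s hs b hb w hw => hb s hs w hw⟩
  obtain ⟨V, hV, hVp⟩ := h2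
  obtain ⟨⟨w, b⟩, hwb, hbV, hbO⟩ := hacc V hV
  simp only at hbV hbO
  have h3 : ∀ s ∈ F, sh (s : ℤ) b ∈ O := fun s hs => hVp s hs b hbV w hwb
  -- neighbourhoods of `b`
  have h4 : ∀ᶠ b' in 𝓝 b, ∀ w', (w', b') ∈ R → b' ∈ O := by
    obtain ⟨V', hV', hVp'⟩ := hopen (w, b) hwb hbO
    filter_upwards [hV'] with b' hb' w' hw'
    exact hVp' (w', b') hw' hb'
  have h5 : ∀ᶠ b' in 𝓝 b, ∀ s ∈ F.toFinset, ∀ w', (w', b') ∈ R → sh (s : ℤ) b' ∈ O := by
    rw [Filter.eventually_all_finset]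
    intro s hs
    obtain ⟨V', hV', hVp'⟩ := hopen (sh (s : ℤ) (w, b)) (hInv _ _ hwb)
      (h3 s (List.mem_toFinset.mp hs))
    have := (sh_cont (X := B) (s : ℤ)).continuousAt (x := b) |>.preimage_mem_nhds hV'
    filter_upwards [this] with b' hb' w' hw'
    exact hVp' (sh (s : ℤ) (w', b')) (hInv _ _ hw') hb'
  -- neighbourhoods of `w`
  have h6 : ∀ i : ℤ, ∀ᶠ w' in 𝓝 w, w' i = w i := by
    intro i
    have : ContinuousAt (fun w' : Om k => w' i) w := (continuous_apply i).continuousAt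
    have h := this.preimage_mem_nhds (t := {w i}) (by simp)
    filter_upwards [h] with w' hw'
    exact hw'
  have h7 : ∀ᶠ w' in 𝓝 w, ∀ s ∈ F.toFinset, w' (s : ℤ) = w (s : ℤ) := by
    rw [Filter.eventually_all_finset]
    intro s _
    exact h6 s
  have h8 : ∀ᶠ q in 𝓝 ((w, b) : Om k × B),
      (q.1 0 = w 0 ∧ (∀ s ∈ F.toFinset, q.1 (s : ℤ) = w (s : ℤ))) ∧
      ((∀ w', (w', q.2) ∈ R → q.2 ∈ O) ∧
        ∀ s ∈ F.toFinset, ∀ w', (w', q.2) ∈ R → sh (s : ℤ) q.2 ∈ O) := by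
    rw [nhds_prod_eq]
    exact ((h6 0).and h7).prod_mk (h4.and h5)
  obtain ⟨x, hNx, hx⟩ := hret (w, b) hwb _ h8 N
  obtain ⟨⟨hx0, hxs⟩, hy0, hys⟩ := hx
  have hRx : (sh (x : ℤ) z, sh (x : ℤ) y₀) ∈ R := hInv _ _ hz
  refine ⟨x, hNx, hy0 _ hRx, ?_, ?_⟩
  · have h9 : c (0 + (x : ℤ)) = w 0 := hx0
    have h10 := hcol (w, b) hwb hbO
    simp only at h10
    rw [zero_add] at h9
    rw [h9]
    exact h10
  · intro s hs
    have hs' := List.mem_toFinset.mpr hs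
    refine ⟨?_, ?_⟩
    · have h11 := hys s hs' _ hRx
      change sh (((s + x : ℕ) : ℕ) : ℤ) y₀ ∈ O
      push_cast
      rw [sh_add]
      exact h11
    · have h12 : c ((s : ℤ) + (x : ℤ)) = w (s : ℤ) := hxs s hs'
      have h13 := hcol (sh (s : ℤ) (w, b)) (hInv _ _ hwb) (h3 s hs)
      have h14 : (sh (s : ℤ) (w, b) : Om k × B).1 0 = w (s : ℤ) := by
        change w (0 + (s : ℤ)) = w s
        rw [zero_add]
      rw [h14] at h13
      push_cast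
      rw [h12]
      exact h13

end Pool.Agent.Work.MP_69fea5_lc.N3
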