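import Pool.Agent.Work.MP_69fea5_lc.N3.StmtsH2

/-!
Item GSL of block [69fea5 N3], part H: the property `GOOD` gives all finite sums.
-/

set_option autoImplicit false

open Filter Topology MeasureTheory

namespace Pool.Agent.Work.MP_69fea5_lc.N3

open Pool.Agent.Work.MP_69fea5_lc.AK
open Pool.Agent.Work.MP_69fea5_lc.HK (Cl DU Ar ArF ArR Dat Law LawC act near sc Pt oc Mn mr ext)

namespace I_GSL

/-- the next list of sums -/
def nx (F : List ℕ) (x : ℕ) : List ℕ := x :: (F ++ F.map fun s => s + x)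

theorem primrec_nx : Primrec₂ nx := by
  unfold nx
  refine Primrec.list_cons.comp Primrec.snd (Primrec.list_append.comp Primrec.fst ?_)
  exact Primrec.list_map (f := fun p : List ℕ × ℕ => p.1) (g := fun p s => s + p.2) Primrec.fst
    (Primrec.nat_add.comp Primrec.snd (Primrec.snd.comp Primrec.fst))

end I_GSL

open I_GSL in
theorem GSL_pf : S_GSL := by
  classical
  intro S hS k c D hit hc hh hG
  have hext : ∀ n : ℕ, ext c (n : ℤ) = c n := fun n => by simp [ext]
  set R : List ℕ × ℕ → ℕ → Prop := fun p x => (∀ s ∈ p.1, hit s) →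
    (p.2 ≤ x ∧ hit x ∧ c x ∈ D ∧ ∀ s ∈ p.1, hit (s + x) ∧ c (s + x) ∈ D) with hR
  have aD : ∀ {α : Type} [Primcodable α] {f : α → ℕ}, ArF S f → Ar S fun a => c (f a) ∈ D := by
    intro α _ f hf
    have h1 : Ar S fun r : Fin k => r ∈ D := by
      have := HK.Ar.memList hS (f := fun r : Fin k => r) (g := fun _ => D.toList)
        (HK.ArF.id hS) (HK.ArF.const hS _)
      exact this.congr fun r => by simp
    exact h1.sub hS (hc.comp hS hf)
  have aR : Ar S fun p : (List ℕ × ℕ) × ℕ => R p.1 p.2 := by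
    have v1 : ArF S fun p : (List ℕ × ℕ) × ℕ => p.1.1 :=
      HK.ArF.of_primrec hS (Primrec.fst.comp Primrec.fst)
    have v2 : ArF S fun p : (List ℕ × ℕ) × ℕ => p.1.2 :=
      HK.ArF.of_primrec hS (Primrec.snd.comp Primrec.fst)
    have v3 : ArF S fun p : (List ℕ × ℕ) × ℕ => p.2 := HK.ArF.snd hS
    refine HK.Ar.imp hS ?_ (HK.Ar.and hS (HK.Ar.le hS v2 v3) (HK.Ar.and hS (hh.sub hS v3)
      (HK.Ar.and hS (aD v3) ?_)))
    · exact HK.Ar.ballList hS (R := fun (_ : (List ℕ × ℕ) × ℕ) (s : ℕ) => hit s)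
        (hh.sub hS (HK.ArF.snd hS)) v1
    · have v4 : ArF S fun q : ((List ℕ × ℕ) × ℕ) × ℕ => q.2 + q.1.2 :=
        HK.ArF.add hS (HK.ArF.snd hS) (v3.comp hS (HK.ArF.fst hS))
      exact HK.Ar.ballList hS (R := fun (p : (List ℕ × ℕ) × ℕ) (s : ℕ) =>
        hit (s + p.2) ∧ c (s + p.2) ∈ D) (HK.Ar.and hS (hh.sub hS v4) (aD v4)) v1
  have hRex : ∀ p, ∃ x, R p x := by
    rintro ⟨F, N⟩
    by_cases hF : ∀ s ∈ F, hit s
    · obtain ⟨x, h1, h2, h3, h4⟩ := hG F hF N
      refine ⟨x, fun _ => ⟨h1, h2, by rwa [hext] at h3, fun s hs => ?_⟩⟩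
      have h5 := h4 s hs
      rw [hext] at h5
      exact h5
    · exact ⟨0, fun h => absurd h hF⟩
  obtain ⟨G, aG, hGR⟩ := HK.Ar.choose hS aR hRex
  obtain ⟨f, hf0, hfs⟩ := HK.exists_rec (α := Unit) (fun _ => ((0 : ℕ), ([] : List ℕ)))
    fun _ _ p => (G (p.2, p.1 + 1), nx p.2 (G (p.2, p.1 + 1)))
  have aG2 : ArF S fun p : ℕ × List ℕ => G (p.2, p.1 + 1) :=
    aG.comp hS (f := fun p : ℕ × List ℕ => (p.2, p.1 + 1))
      (HK.ArF.of_primrec hS (Primrec.snd.pair (Primrec.succ.comp Primrec.fst)))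
  have af : ArF S fun p : Unit × ℕ => f p.1 p.2 :=
    HK.ArF.rec hS (b := fun _ => ((0 : ℕ), ([] : List ℕ))) (HK.ArF.const hS _)
      (G := fun _ _ p => (G (p.2, p.1 + 1), nx p.2 (G (p.2, p.1 + 1))))
      ((aG2.pair hS (HK.ArF.map₂ hS primrec_nx (HK.ArF.snd hS) aG2)).comp hS
        (HK.ArF.of_primrec hS (Primrec.snd.comp Primrec.snd))) hf0 hfs
  set s : ℕ → ℕ × List ℕ := f () with hs
  have as : ArF S s := af.comp hS (f := fun n : ℕ => ((), n)) (HK.ArF.of_primrec hS
    ((Primrec.const ()).pair Primrec.id))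
  have hs0 : s 0 = (0, []) := hf0 ()
  have hs1 : ∀ n, (s (n + 1)).1 = G ((s n).2, (s n).1 + 1) := fun n => by
    rw [hs]; exact congrArg Prod.fst (hfs () n)
  have hs2 : ∀ n, (s (n + 1)).2 = nx (s n).2 (s (n + 1)).1 := fun n => by
    rw [hs1 n, hs]; exact congrArg Prod.snd (hfs () n)
  have hinv : ∀ n, ∀ t ∈ (s n).2, hit t ∧ c t ∈ D := by
    intro n
    induction n with
    | zero => rw [hs0]; simp
    | succ n ih =>
      have h3 := hGR ((s n).2, (s n).1 + 1) fun t ht => (ih t ht).1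
      rw [← hs1] at h3
      intro t ht
      rw [hs2] at ht
      simp only [nx, List.mem_cons, List.mem_append, List.mem_map] at ht
      rcases ht with rfl | ht | ⟨u, hu, rfl⟩
      · exact ⟨h3.2.1, h3.2.2.1⟩
      · exact ih t ht
      · exact h3.2.2.2 u hu
  have hlt : ∀ n, (s n).1 < (s (n + 1)).1 := by
    intro n
    have h3 := hGR ((s n).2, (s n).1 + 1) fun t ht => (hinv n t ht).1
    rw [← hs1] at h3
    exact h3.1
  have hmono : StrictMono fun n => (s n).1 := strictMono_nat_of_lt_succ hlt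
  have hsum : ∀ n, ∀ F : Finset ℕ, (∀ x ∈ F, ∃ i < n, (s (i + 1)).1 = x) → F.Nonempty →
      ∑ x ∈ F, x ∈ (s n).2 := by
    intro n
    induction n with
    | zero =>
      rintro F hF ⟨x, hx⟩
      obtain ⟨i, hi, _⟩ := hF x hx
      omega
    | succ n ih =>
      intro F hF hne
      rw [hs2]
      simp only [nx, List.mem_cons, List.mem_append, List.mem_map]
      by_cases hx : (s (n + 1)).1 ∈ F
      · have h1 : ∀ x ∈ F.erase (s (n + 1)).1, ∃ i < n, (s (i + 1)).1 = x := by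
          intro x hx1
          obtain ⟨h2, h3⟩ := Finset.mem_erase.1 hx1
          obtain ⟨i, hi, hix⟩ := hF x h3
          rcases Nat.lt_succ_iff_lt_or_eq.1 hi with h4 | h4
          · exact ⟨i, h4, hix⟩
          · subst h4
            exact absurd hix.symm h2
        have h5 := Finset.sum_erase_add F (fun x => x) hx
        by_cases he : (F.erase (s (n + 1)).1).Nonempty
        · exact Or.inr (Or.inr ⟨_, ih _ h1 he, h5⟩)
        · rw [Finset.not_nonempty_iff_eq_empty] at he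
          rw [he, Finset.sum_empty, zero_add] at h5
          exact Or.inl h5.symm
      · refine Or.inr (Or.inl (ih F (fun x hxF => ?_) hne))
        obtain ⟨i, hi, hix⟩ := hF x hxF
        rcases Nat.lt_succ_iff_lt_or_eq.1 hi with h4 | h4
        · exact ⟨i, h4, hix⟩
        · subst h4
          rw [hix] at hx
          exact absurd hxF hx
  refine ⟨{x | ∃ n, (s (n + 1)).1 = x}, ?_, ?_, ?_, ?_⟩
  · refine HK.Ar.set (R := fun x => ∃ n, (s (n + 1)).1 = x) ?_
    refine HK.Ar.ex hS (R := fun x n => (s (n + 1)).1 = x) ?_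
    refine HK.Ar.eq hS ?_ (HK.ArF.fst hS)
    exact HK.ArF.map hS Primrec.fst (as.comp hS ((HK.ArF.snd hS).succ hS))
  · refine Set.infinite_of_injective_forall_mem (f := fun n => (s (n + 1)).1) ?_
      fun n => ⟨n, rfl⟩
    intro a b hab
    have := hmono.injective hab
    omega
  · rintro x ⟨n, rfl⟩
    exact (Nat.zero_le _).trans_lt (hlt n)
  · intro F hF hne
    have h1 : ∀ x ∈ F, ∃ i < ∑ y ∈ F, y, (s (i + 1)).1 = x := by
      intro x hx
      obtain ⟨i, hi⟩ := hF hx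
      refine ⟨i, ?_, hi⟩
      have h2 : i + 1 ≤ (s (i + 1)).1 := hmono.id_le (i + 1)
      have h3 : x ≤ ∑ y ∈ F, y := Finset.single_le_sum (f := fun y => y) (fun _ _ => Nat.zero_le _) hx
      omega
    exact (hinv _ _ (hsum _ F h1 hne)).2

end Pool.Agent.Work.MP_69fea5_lc.N3
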