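import Pool.Agent.Work.MP_69fea5_lc.N3.DefsA

/-!
# Block [69fea5 N3]: definitions of the classical part, second half

McMahon's sets of triples `NN`, the isometric extension `Th3`, base points, stage measures, the
two kinds of zones, the property `GOOD` which gives the final solution.
-/

set_option autoImplicit false

namespace Pool.Agent.Work.MP_69fea5_lc.N3

open MeasureTheory Topology Set Filter ProbabilityTheory
open scoped NNReal
open Pool.Agent.Work.MP_69fea5_lc.AK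

instance unitSys : Sys Unit where
  sh _ x := x
  zero' _ := rfl
  add' _ _ _ := rfl
  cont' _ := continuous_id

variable {k : ℕ}

section K

variable {K : Type} [NormedAddCommGroup K] [CompactSpace K] [MeasurableSpace K] [BorelSpace K]

/-- the frame, with the position `0` of `c` -/
structure Fc (c : Om k) (M : Set (Om k)) (e : K) (π : Om k → K) (hm : Measure K) (μ : PM k)
    (η : Kernel K (Om k)) : Prop where
  fr : Fr M e π hm μ η
  bd : ∀ x : K, ‖x‖ ≤ 1
  ret : ∀ w ∈ M, (w, iK e (π w)) ∈ omg (c, iK e (0 : K))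

/-! ### McMahon's sets of triples -/

/-- limits of `T^x (c, g₁, g₂)`, `x → +∞`, `(g₁, g₂)` in the support of `ν` and in the box `P`,
along the times at which `T^x (iK 0, b₀)` comes close to `(iK (π w), θ w)`, `w` the limit of
`T^x c` -/
def NN {B : Type} [TopologicalSpace B] [Sys B] (c : Om k) (M : Set (Om k)) (e : K)
    (π : Om k → K) (θ : Om k → B) (b₀ : B) (ν : Measure (Om k × Om k)) (P : W2 k) :
    Set (Om k × Om k × Om k) :=
  {q | q.1 ∈ M ∧ ∀ U ∈ 𝓝 q, ∀ V ∈ 𝓝 (iK e (π q.1), θ q.1), ∀ L : ℕ, ∃ x : ℕ, L ≤ x ∧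
    ∃ g ∈ bx P 0 ∩ sup2 ν, (sh (x : ℤ) c, sh (x : ℤ) g.1, sh (x : ℤ) g.2) ∈ U ∧
      sh (x : ℤ) (iK e (0 : K), b₀) ∈ V}

/-- only the position in `K` is used -/
def N0 (c : Om k) (M : Set (Om k)) (e : K) (π : Om k → K) (hm : Measure K)
    (η : Kernel K (Om k)) (P : W2 k) : Set (Om k × Om k × Om k) :=
  NN c M e π (fun _ => ()) () (kap1 hm η 0) P

/-- a map `θ` to a base `B`, with a base point `b₀` which is matched with `c` -/
structure Mt {B : Type} [TopologicalSpace B] [Sys B] (c : Om k) (M : Set (Om k)) (e : K)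
    (π : Om k → K) (θ : Om k → B) (b₀ : B) : Prop where
  cont : ContinuousOn θ M
  equi : ∀ w ∈ M, ∀ n : ℤ, θ (sh n w) = sh n (θ w)
  ret : ∀ w ∈ M, (w, (iK e (π w), θ w)) ∈ omg (c, (iK e (0 : K), b₀))

/-- transport of mass into the sections of `N` -/
def Tr (M : Set (Om k)) (π : Om k → K) (hm : Measure K) (η : Kernel K (Om k)) (P : W2 k)
    (N : Set (Om k × Om k × Om k)) : Prop :=
  ∀ w ∈ M, ∀ C : Set K, IsClosed C →
    (kap1 hm η 0).real (bx P 0 ∩ {g | g.1 ∈ M ∧ π g.1 ∈ C}) ≤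
      (kap1 hm η (π w)).real (sec1 N w ∩ {g | g.1 ∈ M ∧ π g.1 - π w ∈ C})

/-- indices of the coordinates of the isometric extension -/
abbrev Ix3 (k : ℕ) := W2 k × W2 k

/-- the isometric extension of `K`: the numbers `κ₃(N³_v ∩ [Q] at n)`, `N = N0 P` -/
noncomputable def Th3 (c : Om k) (M : Set (Om k)) (e : K) (π : Om k → K) (hm : Measure K)
    (η : Kernel K (Om k)) (v : Om k) : Cube (Ix3 k) := fun i n =>
  Set.projIcc (0 : ℝ) 1 zero_le_one
    ((kap3 hm η (π v)).real (sec3 (N0 c M e π hm η i.1) v ∩ bx i.2 n))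

/-- the located sets of triples -/
def N1 (c : Om k) (M : Set (Om k)) (e : K) (π : Om k → K) (hm : Measure K)
    (η : Kernel K (Om k)) (z : Om k) (P : W2 k) : Set (Om k × Om k × Om k) :=
  NN c M e π (Th3 c M e π hm η) (Th3 c M e π hm η z) (kap1 hm η 0) P

/-- the position in `K` and in the isometric extension -/
noncomputable def ps (c : Om k) (M : Set (Om k)) (e : K) (π : Om k → K) (hm : Measure K)
    (η : Kernel K (Om k)) (v : Om k) : Cube Unit × Cube (Ix3 k) :=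
  (iK e (π v), Th3 c M e π hm η v)

/-- base points -/
structure Bp (c : Om k) (M : Set (Om k)) (e : K) (π : Om k → K) (hm : Measure K)
    (η : Kernel K (Om k)) (z : Om k) : Prop where
  mem : z ∈ M
  pos : π z = 0
  ret : ∀ w ∈ M, (w, ps c M e π hm η w) ∈ omg (c, ps c M e π hm η z)

/-- the word `P` is inside the set `W` of positions -/
def Ins (c : Om k) (M : Set (Om k)) (e : K) (π : Om k → K) (hm : Measure K)
    (η : Kernel K (Om k)) (W : Set (Cube Unit × Cube (Ix3 k))) (P : Wd k) : Prop :=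
  ∀ x ∈ M, x ∈ cyl P 0 → ps c M e π hm η x ∈ W

/-- `P` is a pair of words with the letter `r` in the middle, blocked for `r` -/
def Blk (c : Om k) (hm : Measure K) (η : Kernel K (Om k)) (P : W2 k) (r : Fin k) : Prop :=
  mid P.1 = some r ∧ mid P.2 = some r ∧ Bl3 c (kap1 hm η 0) P r

/-! ### Stage measures -/

/-- the fibre of `M` over `a` -/
def fb (M : Set (Om k)) (π : Om k → K) (a : K) : Set (Om k) := {x | x ∈ M ∧ π x = a}

/-- a relatively invariant measure on the fibre over `0` -/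
structure Sm (c : Om k) (M : Set (Om k)) (π : Om k → K) (m0 : PM k) : Prop where
  stg : Stage c m0 Finset.univ
  onM : ∀ p ∈ MM m0, p.1 ∈ M ∧ p.2 (fb M π (π p.1)) = 1
  sur : ∀ w ∈ M, ∃ m, (w, m) ∈ MM m0
  zer : m0 (fb M π 0) = 1
  prx : ∀ m ∈ orb m0, ∀ m' ∈ orb m0, ∀ a : K, m (fb M π a) = 1 → m' (fb M π a) = 1 →
    ∃ (G : Ultrafilter ℤ) (m'' : PM k), Tendsto (fun n => sh n m) (G : Filter ℤ) (𝓝 m'') ∧
      Tendsto (fun n => sh n m') (G : Filter ℤ) (𝓝 m'')

/-- `μ` is the limit of the averages of `T^n m0`, `0 ≤ n < L` -/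
def Avm (U : Ultrafilter ℕ) (m0 μ : PM k) : Prop :=
  ∀ C : Set (Om k), IsClopen C →
    Tendsto (fun L : ℕ => (∑ i ∈ Finset.range L, ((sh (i : ℤ) m0) C : ℝ)) / L) (U : Filter ℕ)
      (𝓝 (μ C : ℝ))

/-- the words inside the `L`-neighbourhood of the base point, seen on the orbit of `z` -/
def nearC {I : Type} [Encodable I] (L : ℕ) (y y' : Cube I) : Prop :=
  ∀ i : I, Encodable.encode i ≤ L → ∀ t : ℤ, |t| ≤ (L : ℤ) → |(y i t : ℝ) - y' i t| < 1 / (L + 1)

/-- the same for pairs -/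
def near2 (L : ℕ) (y y' : Cube Unit × Cube (Ix3 k)) : Prop :=
  nearC L y.1 y'.1 ∧ nearC L y.2 y'.2

/-- the set of words at the level `L` -/
def WW (y₀ : Cube Unit × Cube (Ix3 k)) (z : Om k) (L : ℕ) : Set (Wd k) :=
  {P | ∀ i : ℤ, sh i z ∈ cyl P 0 → near2 L (sh i y₀) y₀}

/-- two measures are close at the level `L` -/
def nearM (L : ℕ) (m m' : PM k) : Prop :=
  ∀ w : Wd k, Encodable.encode w ≤ L → |(m (cyl w 0) : ℝ) - m' (cyl w 0)| < 1 / (L + 1)

/-! ### Zones along the orbit of the base point -/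

/-- the first kind of zones: the base point `y₀` is in the zone of a blocked pair at the time `n` -/
def hitA (c : Om k) (hm : Measure K) (η : Kernel K (Om k)) (y₀ : Cube Unit × Cube (Ix3 k))
    (r : Fin k) (n : ℕ) : Prop :=
  ∃ P : W2 k, Blk c hm η P r ∧ (0 : ℝ) < y₀.2 (P, P) n

end K

/-- the second kind of zones: the position is close to the base point, and the colour `r` is not
charged by the measures `T^j m0` close to `T^n m0`, on the words at the level `L₀` -/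
def hitB (m0 : PM k) (y₀ : Cube Unit × Cube (Ix3 k)) (z : Om k) (L₀ L₁ : ℕ) (r : Fin k)
    (n : ℕ) : Prop :=
  near2 L₁ (sh (n : ℤ) y₀) y₀ ∧ ∃ L : ℕ, ∀ j : ℤ, nearM L (sh j m0) (sh (n : ℤ) m0) →
    ∀ P ∈ WW y₀ z L₀, mid P = some r → (sh j m0) (cyl P 0) = 0

/-- the property which gives the final set -/
def GOOD (c : Om k) (D : Finset (Fin k)) (hit : ℕ → Prop) : Prop :=
  ∀ F : List ℕ, (∀ s ∈ F, hit s) → ∀ N : ℕ, ∃ x : ℕ, N ≤ x ∧ hit x ∧ c (x : ℤ) ∈ D ∧
    ∀ s ∈ F, hit (s + x) ∧ c (((s + x : ℕ) : ℤ)) ∈ D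

/-- the property which gives the greedy construction in Case I -/
def GRD (c : Om k) (ν : Measure (Om k × Om k)) : Prop :=
  ∃ (Q : W2 k) (r : Fin k), St ν Q r ∧ bx Q 0 ⊆ {g | g.1 0 = r ∧ g.2 0 = r} ∧
    ∀ P : W2 k, bx P 0 ⊆ bx Q 0 → 0 < ν (bx P 0) → ∀ N : ℕ, ∃ x : ℕ, N ≤ x ∧ ∃ P' : W2 k,
      sh (x : ℤ) c ∈ cyl P.1 0 ∧ bx P' 0 ⊆ nxt P r x ∧ 0 < ν (bx P' 0)

end Pool.Agent.Work.MP_69fea5_lc.N3
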