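import Pool.Agent.Work.MP_69fea5_lc.N3.StmtsB

/-!
# Block [69fea5 N3], item SMC: stage measures from the energy set over the base `K`
-/

set_option autoImplicit false

namespace Pool.Agent.Work.MP_69fea5_lc.N3

open MeasureTheory Topology Set Filter ProbabilityTheory
open scoped NNReal ENNReal
open Pool.Agent.Work.MP_69fea5_lc.AK

namespace I_SMC

variable {k : ℕ}

theorem inter_ne (m : PM k) {A B : Set (Om k)} (hB : MeasurableSet B) (hA : m A = 1)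
    (hB1 : m B = 1) : (A ∩ B).Nonempty := by
  by_contra h
  rw [Set.not_nonempty_iff_eq_empty] at h
  have hsub : A ⊆ Bᶜ := by
    intro z hz hzB
    have : z ∈ A ∩ B := ⟨hz, hzB⟩
    rw [h] at this
    exact this
  have e1 : (m : Measure (Om k)) B = 1 := by
    rw [← ProbabilityMeasure.ennreal_coeFn_eq_coeFn_toMeasure, hB1]
    simp
  have e2 : (m : Measure (Om k)) Bᶜ = 0 := (prob_compl_eq_zero_iff hB).2 e1
  have e3 : (m : Measure (Om k)) A = 0 := measure_mono_null hsub e2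
  have e4 : (m : Measure (Om k)) A = 1 := by
    rw [← ProbabilityMeasure.ennreal_coeFn_eq_coeFn_toMeasure, hA]
    simp
  rw [e3] at e4
  exact zero_ne_one e4

theorem gen {X : Type*} [TopologicalSpace X] [CompactSpace X] (f : X → X → ℝ)
    (hc : Continuous fun p : X × X => f p.1 p.2) (h0 : ∀ x y, 0 ≤ f x y)
    (hs : ∀ x y, f x y = 0 → x = y) (a b : ℤ → X)
    (h : ∀ ε : ℝ, 0 < ε → ∃ n : ℤ, f (a n) (b n) < ε) :
    ∃ (G : Ultrafilter ℤ) (x : X), Tendsto a (G : Filter ℤ) (𝓝 x) ∧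
      Tendsto b (G : Filter ℤ) (𝓝 x) := by
  have h' : ∀ j : ℕ, ∃ n : ℤ, f (a n) (b n) < 1 / ((j : ℝ) + 1) := fun j =>
    h _ (by positivity)
  choose n hn using h'
  have t1 : ∃ m1 : X, Tendsto (fun j => a (n j)) (hyperfilter ℕ : Filter ℕ) (𝓝 m1) :=
    ⟨_, Ultrafilter.le_nhds_lim ((hyperfilter ℕ).map fun j => a (n j))⟩
  have t2 : ∃ m2 : X, Tendsto (fun j => b (n j)) (hyperfilter ℕ : Filter ℕ) (𝓝 m2) :=
    ⟨_, Ultrafilter.le_nhds_lim ((hyperfilter ℕ).map fun j => b (n j))⟩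
  obtain ⟨m1, t1⟩ := t1
  obtain ⟨m2, t2⟩ := t2
  have t3 : Tendsto (fun j => f (a (n j)) (b (n j))) (hyperfilter ℕ : Filter ℕ)
      (𝓝 (f m1 m2)) :=
    Tendsto.comp (g := fun p : X × X => f p.1 p.2) (hc.tendsto (m1, m2)) (t1.prodMk_nhds t2)
  have t4 : Tendsto (fun j => f (a (n j)) (b (n j))) (hyperfilter ℕ : Filter ℕ)
      (𝓝 0) := by
    refine squeeze_zero (fun j => h0 _ _) (fun j => (hn j).le) ?_
    exact (tendsto_one_div_add_atTop_nhds_zero_nat (𝕜 := ℝ)).mono_left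
      Nat.hyperfilter_le_atTop
  have e' : m1 = m2 := hs m1 m2 (tendsto_nhds_unique t3 t4)
  refine ⟨(hyperfilter ℕ).map n, m1, ?_, ?_⟩
  · rw [Ultrafilter.coe_map, tendsto_map'_iff]
    exact t1
  · rw [Ultrafilter.coe_map, tendsto_map'_iff, e']
    exact t2

theorem prox (hENG : AK.S_ENG) (m m' : PM k)
    (h : ∀ ε : ℝ, 0 < ε → ∃ n : ℤ, d2 (sh n m) (sh n m') < ε) :
    ∃ (G : Ultrafilter ℤ) (m'' : PM k), Tendsto (fun n => sh n m) (G : Filter ℤ) (𝓝 m'') ∧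
      Tendsto (fun n => sh n m') (G : Filter ℤ) (𝓝 m'') :=
  gen (X := PM k) d2 (hENG k).2.2.1 (fun x y => ((hENG k).2.2.2.1 x y).1)
    (fun x y => ((hENG k).2.2.2.1 x y).2.2) (fun n => sh n m) (fun n => sh n m') h

end I_SMC

open I_SMC in
theorem SMC_pf (hORB : AK.S_ORB) (hENG : AK.S_ENG) (hAAB : AK.S_AAB) (hPRX : AK.S_PRX)
    (hGLX : AK.S_GLX) (hGLM : AK.S_GLM) (hGLO : AK.S_GLO) (hIKB : S_IKB) : S_SMC := by
  intro k c M K _ _ e π hM hK hbd hret hG m0 hm0 hY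
  set Γ : Set (Om k × Cube Unit) := (fun w => (w, iK e (π w))) '' M with hΓ
  set Y : Set (Cube Unit × PM k) := orb (iK e (0 : K), m0) with hYdef
  obtain ⟨-, -, hAc, hAi, -⟩ := hAAB k (Cube Unit) Γ hG
  obtain ⟨hOc, hOi, hOm, hOs, -, -, -⟩ := hORB (Cube Unit × PM k) (iK e (0 : K), m0)
  have hYA : Y ⊆ AA Γ := hOs _ hAc hAi hm0
  obtain ⟨M', hM', hM's⟩ := (hGLX k (Cube Unit) Γ Y hG hY hYA).1
  obtain ⟨hX1, hX2⟩ := (hGLX k (Cube Unit) Γ Y hG hY hYA).2 M' hM' hM's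
  obtain ⟨hmin, hMM⟩ := hGLM k (Cube Unit) Γ Y M' hG hY hYA hM' hM's (iK e (0 : K), m0) hOm
  have hΓo : Γ ⊆ omg (c, iK e (0 : K)) := by
    rintro _ ⟨w, hw, rfl⟩
    exact hret w hw
  have hbase := hGLO k (Cube Unit) Γ Y c (iK e (0 : K)) m0 hG hY hYA hOm hΓo
  have hinj : Function.Injective (iK e) := (hIKB K e hK.dense hbd).2.1
  have hfib : ∀ a : K, {z : Om k | (z, iK e a) ∈ Γ} = fb M π a := by
    intro a
    ext z
    constructor
    · rintro ⟨w, hw, hwz⟩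
      rw [Prod.mk.injEq] at hwz
      obtain ⟨rfl, h2⟩ := hwz
      exact ⟨hw, hinj h2⟩
    · rintro ⟨hz, hza⟩
      exact ⟨z, hz, by rw [← hza]⟩
  have hclo : ∀ v : Cube Unit, IsClosed {z : Om k | (z, v) ∈ Γ} := fun v =>
    hG.closed.preimage (continuous_id.prodMk continuous_const)
  have hQ : ∀ p ∈ Y, p.2 {z | (z, p.1) ∈ Γ} = 1 := fun p hp => (hYA hp).1
  refine ⟨⟨hmin, hbase, ?_⟩, ?_, ?_, ?_, ?_⟩
  · intro U hU
    refine ⟨0, by rw [sh_zero]; exact mem_of_mem_nhds hU, ?_⟩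
    refine ⟨Set.univ, univ_mem, fun m' _ _ => ?_⟩
    simp
  · intro p hp
    rw [hMM] at hp
    obtain ⟨q, hq, rfl⟩ := hp
    obtain ⟨hq1, hq2⟩ := hM's hq
    obtain ⟨w, hw, hwq⟩ := hq2
    rw [Prod.mk.injEq] at hwq
    obtain ⟨h1, h2⟩ := hwq
    refine ⟨?_, ?_⟩
    · change q.1 ∈ M
      rw [← h1]
      exact hw
    · change q.2.2 (fb M π (π q.1)) = 1
      rw [← hfib, ← h1, h2]
      exact hQ _ hq1
  · intro w hw
    obtain ⟨m, hm⟩ := hX1 (w, iK e (π w)) ⟨w, hw, rfl⟩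
    refine ⟨m, ?_⟩
    rw [hMM]
    exact ⟨_, hm, rfl⟩
  · rw [← hfib]
    exact hQ _ hOm
  · intro m hm m' hm' a ha ha'
    have hsnd : orb m0 ⊆ Prod.snd '' Y := by
      refine (hORB (PM k) m0).2.2.2.1 _ ?_ ?_ ⟨_, hOm, rfl⟩
      · exact (hOc.isCompact.image continuous_snd).isClosed
      · rintro n _ ⟨p, hp, rfl⟩
        exact ⟨sh n p, hOi n p hp, rfl⟩
    have key : ∀ m ∈ orb m0, m (fb M π a) = 1 → (iK e a, m) ∈ Y := by
      intro m hm ha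
      obtain ⟨⟨v, m1⟩, hp, rfl⟩ := hsnd hm
      have h1 := hQ _ hp
      obtain ⟨z, hz1, hz2⟩ := inter_ne m1 (hclo v).measurableSet ha h1
      obtain ⟨w, hw, hwz⟩ := hz2
      rw [Prod.mk.injEq] at hwz
      obtain ⟨rfl, h2⟩ := hwz
      have h3 : v = iK e a := by rw [← h2, hz1.2]
      rw [← h3]
      exact hp
    have h1 := key m hm ha
    have h2 := key m' hm' ha'
    refine prox hENG m m' fun ε hε => ?_
    obtain ⟨n, hn, -, -⟩ := hPRX k (Cube Unit) Γ hG (iK e a) m m' (hYA h1) (hYA h2) ε hε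
    exact ⟨n, hn⟩

end Pool.Agent.Work.MP_69fea5_lc.N3
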