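import Mathlib

/-!
# Block [69fea5 N3]: translations in L¹ of a compact abelian group, doubling

`LC μ φ`: `φ : X → K → ℝ` is bounded, each `φ x` is measurable and `x ↦ φ x` is continuous into
`L¹(μ)`. Closed under products, precomposition; translates `φ x a = f (a + x)` of bounded measurable
`f` and `φ x a = f (a + a + x)` (when the image of `μ` under doubling is `≤ 2 μ`) are `LC`.
-/

set_option autoImplicit false

namespace Pool.Agent.Work.MP_69fea5_lc.N3

open MeasureTheory Topology Set Filter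

section LC

variable {K : Type*} [MeasurableSpace K] {X Y : Type*} [TopologicalSpace X] [TopologicalSpace Y]

/-- bounded, measurable, continuous into `L¹` -/
structure LC (μ : Measure K) (φ : X → K → ℝ) : Prop where
  meas : ∀ x, Measurable (φ x)
  bdd : ∃ C : ℝ, ∀ x a, |φ x a| ≤ C
  cont : ∀ x₀, Tendsto (fun x => ∫ a, |φ x a - φ x₀ a| ∂μ) (𝓝 x₀) (𝓝 0)

variable {μ : Measure K}

theorem LC.integrable [IsFiniteMeasure μ] {φ : X → K → ℝ} (h : LC μ φ) (x : X) :
    Integrable (φ x) μ := by
  obtain ⟨C, hC⟩ := h.bdd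
  exact Integrable.of_bound (h.meas x).aestronglyMeasurable C
    (Eventually.of_forall fun a => by simpa [Real.norm_eq_abs] using hC x a)

theorem LC.const (f : K → ℝ) (hf : Measurable f) (C : ℝ) (hC : ∀ a, |f a| ≤ C) :
    LC (X := X) μ (fun _ => f) :=
  ⟨fun _ => hf, ⟨C, fun _ a => hC a⟩, fun _ => by simp⟩

theorem LC.comp {φ : X → K → ℝ} (h : LC μ φ) {g : Y → X} (hg : Continuous g) :
    LC μ (fun y => φ (g y)) :=
  ⟨fun y => h.meas (g y), ⟨h.bdd.choose, fun y a => h.bdd.choose_spec (g y) a⟩,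
    fun y₀ => (h.cont (g y₀)).comp (hg.tendsto y₀)⟩

theorem LC.mul [IsFiniteMeasure μ] {φ ψ : X → K → ℝ} (hφ : LC μ φ) (hψ : LC μ ψ) :
    LC μ (fun x a => φ x a * ψ x a) := by
  obtain ⟨C, hC⟩ := hφ.bdd
  obtain ⟨D, hD⟩ := hψ.bdd
  refine ⟨fun x => (hφ.meas x).mul (hψ.meas x), ⟨|C| * |D|, fun x a => ?_⟩, fun x₀ => ?_⟩
  · rw [abs_mul]
    exact mul_le_mul ((hC x a).trans (le_abs_self C)) ((hD x a).trans (le_abs_self D))
      (abs_nonneg _) (abs_nonneg _)
  · have hlim : Tendsto (fun x => |D| * ∫ a, |φ x a - φ x₀ a| ∂μ +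
        |C| * ∫ a, |ψ x a - ψ x₀ a| ∂μ) (𝓝 x₀) (𝓝 0) := by
      have := ((hφ.cont x₀).const_mul |D|).add ((hψ.cont x₀).const_mul |C|)
      simpa using this
    refine squeeze_zero (fun x => integral_nonneg fun a => abs_nonneg _) (fun x => ?_) hlim
    have i1 : Integrable (fun a => |φ x a - φ x₀ a|) μ :=
      ((hφ.integrable x).sub (hφ.integrable x₀)).abs
    have i2 : Integrable (fun a => |ψ x a - ψ x₀ a|) μ :=
      ((hψ.integrable x).sub (hψ.integrable x₀)).abs
    rw [← integral_const_mul, ← integral_const_mul, ← integral_add (i1.const_mul _) (i2.const_mul _)]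
    refine integral_mono_of_nonneg (Eventually.of_forall fun a => abs_nonneg _)
      ((i1.const_mul _).add (i2.const_mul _)) (Eventually.of_forall fun a => ?_)
    show |φ x a * ψ x a - φ x₀ a * ψ x₀ a| ≤
      |D| * |φ x a - φ x₀ a| + |C| * |ψ x a - ψ x₀ a|
    have e : φ x a * ψ x a - φ x₀ a * ψ x₀ a =
        ψ x a * (φ x a - φ x₀ a) + φ x₀ a * (ψ x a - ψ x₀ a) := by ring
    rw [e]
    refine (abs_add_le _ _).trans ?_
    rw [abs_mul, abs_mul]
    exact add_le_add
      (mul_le_mul_of_nonneg_right ((hD x a).trans (le_abs_self D)) (abs_nonneg _))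
      (mul_le_mul_of_nonneg_right ((hC x₀ a).trans (le_abs_self C)) (abs_nonneg _))

theorem LC.add [IsFiniteMeasure μ] {φ ψ : X → K → ℝ} (hφ : LC μ φ) (hψ : LC μ ψ) :
    LC μ (fun x a => φ x a + ψ x a) := by
  obtain ⟨C, hC⟩ := hφ.bdd
  obtain ⟨D, hD⟩ := hψ.bdd
  refine ⟨fun x => (hφ.meas x).add (hψ.meas x), ⟨C + D, fun x a => ?_⟩, fun x₀ => ?_⟩
  · exact (abs_add_le _ _).trans (add_le_add (hC x a) (hD x a))
  · have hlim : Tendsto (fun x => ∫ a, |φ x a - φ x₀ a| ∂μ +
        ∫ a, |ψ x a - ψ x₀ a| ∂μ) (𝓝 x₀) (𝓝 0) := by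
      have := (hφ.cont x₀).add (hψ.cont x₀)
      simpa using this
    refine squeeze_zero (fun x => integral_nonneg fun a => abs_nonneg _) (fun x => ?_) hlim
    have i1 : Integrable (fun a => |φ x a - φ x₀ a|) μ :=
      ((hφ.integrable x).sub (hφ.integrable x₀)).abs
    have i2 : Integrable (fun a => |ψ x a - ψ x₀ a|) μ :=
      ((hψ.integrable x).sub (hψ.integrable x₀)).abs
    rw [← integral_add i1 i2]
    refine integral_mono_of_nonneg (Eventually.of_forall fun a => abs_nonneg _)
      (i1.add i2) (Eventually.of_forall fun a => ?_)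
    show |φ x a + ψ x a - (φ x₀ a + ψ x₀ a)| ≤ |φ x a - φ x₀ a| + |ψ x a - ψ x₀ a|
    have e : φ x a + ψ x a - (φ x₀ a + ψ x₀ a) = (φ x a - φ x₀ a) + (ψ x a - ψ x₀ a) := by ring
    rw [e]
    exact abs_add_le _ _

theorem LC.neg {φ : X → K → ℝ} (hφ : LC μ φ) : LC μ (fun x a => - φ x a) := by
  obtain ⟨C, hC⟩ := hφ.bdd
  refine ⟨fun x => (hφ.meas x).neg, ⟨C, fun x a => by simpa using hC x a⟩, fun x₀ => ?_⟩
  refine (hφ.cont x₀).congr fun x => ?_
  refine integral_congr_ae (Eventually.of_forall fun a => ?_)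
  show |φ x a - φ x₀ a| = |-φ x a - -φ x₀ a|
  rw [neg_sub_neg, abs_sub_comm]

theorem LC.sub [IsFiniteMeasure μ] {φ ψ : X → K → ℝ} (hφ : LC μ φ) (hψ : LC μ ψ) :
    LC μ (fun x a => φ x a - ψ x a) := by
  simpa [sub_eq_add_neg] using hφ.add hψ.neg

theorem LC.prod [IsFiniteMeasure μ] {ι : Type*} (s : Finset ι) {φ : ι → X → K → ℝ}
    (h : ∀ i ∈ s, LC μ (φ i)) : LC μ (fun x a => ∏ i ∈ s, φ i x a) := by
  classical
  induction s using Finset.induction_on with
  | empty =>
    simpa using LC.const (X := X) (μ := μ) (fun _ : K => (1 : ℝ)) measurable_const 1 (by simp)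
  | insert i s hi ih =>
    have h1 := (h i (Finset.mem_insert_self i s)).mul
      (ih fun j hj => h j (Finset.mem_insert_of_mem hj))
    simpa [Finset.prod_insert hi] using h1

/-- the integral of an `LC` family is continuous -/
theorem LC.continuous_integral [IsFiniteMeasure μ] {φ : X → K → ℝ} (h : LC μ φ) :
    Continuous fun x => ∫ a, φ x a ∂μ := by
  refine continuous_iff_continuousAt.2 fun x₀ => ?_
  refine tendsto_iff_norm_sub_tendsto_zero.2 ?_
  refine squeeze_zero (fun x => norm_nonneg _) (fun x => ?_) (h.cont x₀)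
  rw [← integral_sub (h.integrable x) (h.integrable x₀)]
  simpa [Real.norm_eq_abs] using norm_integral_le_integral_norm (μ := μ)
    (fun a => φ x a - φ x₀ a)

/-- the integral over a varying measurable set -/
theorem LC.indicator [IsFiniteMeasure μ] {φ : X → K → ℝ} (h : LC μ φ) {B : Set K}
    (hB : MeasurableSet B) : LC μ (fun x a => B.indicator 1 a * φ x a) := by
  refine (LC.const (X := X) (B.indicator (1 : K → ℝ)) (measurable_one.indicator hB) 1
    (fun a => ?_)).mul h
  by_cases ha : a ∈ B <;> simp [ha]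

end LC

section group

variable {K : Type*} [AddCommGroup K] [TopologicalSpace K] [IsTopologicalAddGroup K]
  [CompactSpace K] [T2Space K] [SecondCountableTopology K] [MeasurableSpace K] [BorelSpace K]
  (μ : Measure K) [IsProbabilityMeasure μ] [μ.IsAddLeftInvariant]

omit [T2Space K] [SecondCountableTopology K] in
theorem isAddHaar : μ.IsAddHaarMeasure := by
  refine MeasureTheory.Measure.isAddHaarMeasure_of_isCompact_nonempty_interior μ univ
    isCompact_univ ?_ ?_ ?_
  · rw [interior_univ]; exact ⟨0, trivial⟩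
  · simp
  · simp

omit [T2Space K] in
/-- translations are continuous in `L¹` -/
theorem shift_tendsto (f : K → ℝ) (hf : Integrable f μ) (x₀ : K) :
    Tendsto (fun x => ∫ a, |f (a + x) - f (a + x₀)| ∂μ) (𝓝 x₀) (𝓝 0) := by
  have := isAddHaar μ
  have : Fact ((1 : ENNReal) ≠ ⊤) := ⟨ENNReal.one_ne_top⟩
  have hm : MemLp f 1 μ := memLp_one_iff_integrable.2 hf
  have hc : Continuous fun x : K => (DomAddAct.mk x +ᵥ hm.toLp f : Lp ℝ 1 μ) := by
    have h1 : Continuous fun x : K => (DomAddAct.mk x : Kᵈᵃᵃ) := DomAddAct.continuous_mk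
    exact h1.vadd continuous_const
  have h2 := tendsto_iff_norm_sub_tendsto_zero.1 (hc.tendsto x₀)
  refine h2.congr fun x => ?_
  have hx : ∀ x : K, Integrable (fun a => f (x +ᵥ a)) μ := fun x =>
    (measurePreserving_add_left μ x).integrable_comp_of_integrable hf
  have e1 : (DomAddAct.mk x +ᵥ hm.toLp f : Lp ℝ 1 μ) - (DomAddAct.mk x₀ +ᵥ hm.toLp f : Lp ℝ 1 μ)
      = ((hx x).sub (hx x₀)).toL1 _ := rfl
  rw [e1, L1.norm_of_fun_eq_integral_norm]
  refine integral_congr_ae (Eventually.of_forall fun a => ?_)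
  show ‖f (x + a) - f (x₀ + a)‖ = |f (a + x) - f (a + x₀)|
  rw [Real.norm_eq_abs, add_comm x a, add_comm x₀ a]

omit [T2Space K] in
/-- translates of a bounded measurable function -/
theorem LC.shift (f : K → ℝ) (hf : Measurable f) (C : ℝ) (hC : ∀ a, |f a| ≤ C) :
    LC μ (fun x a : K => f (a + x)) :=
  ⟨fun x => hf.comp (measurable_add_const x), ⟨C, fun x a => hC (a + x)⟩, fun x₀ =>
    shift_tendsto μ f (Integrable.of_bound hf.aestronglyMeasurable C
      (Eventually.of_forall fun a => by simpa [Real.norm_eq_abs] using hC a)) x₀⟩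

/-- the doubling map has density at most two -/
def Dbl : Prop := μ.map (fun a : K => a + a) ≤ 2 • μ

omit [SecondCountableTopology K] in
/-- if `K = 2K ∪ (θ + 2K)` then doubling has density at most two -/
theorem dbl_of_index (θ : K) (hθ : ∀ x : K, ∃ y : K, x = y + y ∨ x = θ + (y + y)) : Dbl μ := by
  have := isAddHaar μ
  have hdm : Measurable fun a : K => a + a := (continuous_id.add continuous_id).measurable
  set ν : Measure K := μ.map (fun a : K => a + a) with hν
  have hνp : IsProbabilityMeasure ν := Measure.isProbabilityMeasure_map hdm.aemeasurable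
  have hT : ∀ x : K, Measurable fun b : K => x + b := fun x => measurable_const_add x
  have hmm : ∀ (x y : K) (m : Measure K), (m.map fun b => x + b).map (fun b => y + b) =
      m.map fun b => (x + y) + b := by
    intro x y m
    rw [Measure.map_map (hT y) (hT x)]
    congr 1
    funext b
    show y + (x + b) = x + y + b
    abel
  have hν2 : ∀ y : K, ν.map (fun b => (y + y) + b) = ν := by
    intro y
    rw [hν, Measure.map_map (hT _) hdm]
    have e : (fun b => (y + y) + b) ∘ (fun a : K => a + a) =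
        (fun a : K => a + a) ∘ fun a => y + a := by
      funext a
      show y + y + (a + a) = (y + a) + (y + a)
      abel
    rw [e, ← Measure.map_map hdm (hT y), map_add_left_eq_self]
  set ρ : Measure K := ν + ν.map (fun b => θ + b) with hρ
  have hmt : ∀ x : K, IsProbabilityMeasure (ν.map fun b => x + b) := fun x =>
    Measure.isProbabilityMeasure_map (hT x).aemeasurable
  have hinv : ∀ x : K, ρ.map (fun b => x + b) = ρ := by
    intro x
    rw [hρ, Measure.map_add _ _ (hT x)]
    obtain ⟨y, rfl | rfl⟩ := hθ x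
    · rw [hν2, hmm, add_comm θ (y + y), ← hmm, hν2]
    · have h1 : ν.map (fun b => (θ + (y + y)) + b) = ν.map fun b => θ + b := by
        rw [add_comm θ (y + y), ← hmm, hν2]
      have h2 : (ν.map fun b => θ + b).map (fun b => (θ + (y + y)) + b) = ν := by
        have : θ + (θ + (y + y)) = (θ + y) + (θ + y) := by abel
        rw [hmm, this, hν2]
      rw [h1, h2, add_comm]
  have : ρ.IsAddLeftInvariant := ⟨fun x => hinv x⟩
  set ρ' : Measure K := (2 : ENNReal)⁻¹ • ρ with hρ'
  have hρ'p : IsProbabilityMeasure ρ' := by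
    constructor
    rw [hρ', Measure.smul_apply, hρ, Measure.add_apply, measure_univ, measure_univ, smul_eq_mul,
      one_add_one_eq_two]
    exact ENNReal.inv_mul_cancel two_ne_zero ENNReal.ofNat_ne_top
  have : ρ'.IsAddLeftInvariant := by
    constructor
    intro x
    rw [hρ', Measure.map_smul, hinv x]
  have := isAddHaar ρ'
  have e : ρ' = μ := Measure.isAddHaarMeasure_eq_of_isProbabilityMeasure ρ' μ
  have e2 : ρ = 2 • μ := by
    rw [← e, hρ', ← smul_assoc]
    have : (2 : ℕ) • (2 : ENNReal)⁻¹ = 1 := by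
      rw [nsmul_eq_mul]
      exact ENNReal.mul_inv_cancel two_ne_zero ENNReal.ofNat_ne_top
    rw [this, one_smul]
  show ν ≤ 2 • μ
  rw [← e2, hρ]
  exact Measure.le_add_right le_rfl

omit [T2Space K] in
/-- translates after doubling -/
theorem LC.double (hd : Dbl μ) (f : K → ℝ) (hf : Measurable f) (C : ℝ) (hC : ∀ a, |f a| ≤ C) :
    LC μ (fun x a : K => f (a + a + x)) := by
  have hdm : Measurable fun a : K => a + a := (continuous_id.add continuous_id).measurable
  refine ⟨fun x => (hf.comp (measurable_add_const x)).comp hdm, ⟨C, fun x a => hC (a + a + x)⟩,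
    fun x₀ => ?_⟩
  have hi : Integrable f μ := Integrable.of_bound hf.aestronglyMeasurable C
      (Eventually.of_forall fun a => by simpa [Real.norm_eq_abs] using hC a)
  have h1 := (shift_tendsto μ f hi x₀).const_mul 2
  rw [mul_zero] at h1
  refine squeeze_zero (fun x => integral_nonneg fun a => abs_nonneg _) (fun x => ?_) h1
  have hg : Measurable fun b : K => |f (b + x) - f (b + x₀)| :=
    ((hf.comp (measurable_add_const x)).sub (hf.comp (measurable_add_const x₀))).abs
  have e : ∫ a, |f (a + a + x) - f (a + a + x₀)| ∂μ =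
      ∫ b, |f (b + x) - f (b + x₀)| ∂(μ.map fun a : K => a + a) :=
    (integral_map hdm.aemeasurable hg.aestronglyMeasurable).symm
  rw [e]
  have hgb : ∀ b : K, |(|f (b + x) - f (b + x₀)|)| ≤ C + C := fun b => by
    rw [abs_abs]
    exact (abs_sub _ _).trans (add_le_add (hC _) (hC _))
  have hgi : ∀ ν : Measure K, IsFiniteMeasure ν →
      Integrable (fun b : K => |f (b + x) - f (b + x₀)|) ν := fun ν _ =>
    Integrable.of_bound hg.aestronglyMeasurable (C + C)
      (Eventually.of_forall fun b => by simpa [Real.norm_eq_abs] using hgb b)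
  have e2 : (2 : ℝ) * ∫ b, |f (b + x) - f (b + x₀)| ∂μ =
      ∫ b, |f (b + x) - f (b + x₀)| ∂((2 : ℕ) • μ) := by
    rw [show ((2 : ℕ) • μ) = μ + μ from two_nsmul μ, integral_add_measure (hgi μ inferInstance)
      (hgi μ inferInstance)]
    ring
  rw [e2]
  refine integral_mono_measure hd (Eventually.of_forall fun b => abs_nonneg _) ?_
  rw [show ((2 : ℕ) • μ) = μ + μ from two_nsmul μ]
  exact (hgi μ inferInstance).add_measure (hgi μ inferInstance)

omit [SecondCountableTopology K] in
/-- doubling in a monothetic group -/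
theorem dbl_of_dense (e : K) (he : Dense (range fun n : ℤ => n • e)) : Dbl μ := by
  refine dbl_of_index μ e fun x => ?_
  have hc : IsCompact (range fun y : K => y + y) := isCompact_range (continuous_id.add continuous_id)
  have hc2 : IsCompact ((fun y : K => e + y) '' range fun y : K => y + y) :=
    hc.image (continuous_const.add continuous_id)
  have hcl : IsClosed ((range fun y : K => y + y) ∪
      ((fun y : K => e + y) '' range fun y : K => y + y)) := hc.isClosed.union hc2.isClosed
  have hsub : (range fun n : ℤ => n • e) ⊆ (range fun y : K => y + y) ∪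
      ((fun y : K => e + y) '' range fun y : K => y + y) := by
    rintro _ ⟨n, rfl⟩
    obtain ⟨m, rfl | rfl⟩ := Int.even_or_odd' n
    · left
      refine ⟨m • e, ?_⟩
      show m • e + m • e = (2 * m) • e
      rw [mul_zsmul, two_zsmul]
    · right
      refine ⟨m • e + m • e, ⟨m • e, rfl⟩, ?_⟩
      show e + (m • e + m • e) = (2 * m + 1) • e
      rw [add_zsmul, one_zsmul, mul_zsmul, two_zsmul, add_comm]
  have hx : x ∈ (range fun y : K => y + y) ∪
      ((fun y : K => e + y) '' range fun y : K => y + y) :=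
    hcl.closure_subset_iff.2 hsub (he x)
  rcases hx with ⟨y, rfl⟩ | ⟨_, ⟨y, rfl⟩, rfl⟩
  · exact ⟨y, Or.inl rfl⟩
  · exact ⟨y, Or.inr rfl⟩

end group

/-- [A44] (1)(a): the image of Haar measure under doubling -/
theorem dbl_le {K : Type*} [NormedAddCommGroup K] [CompactSpace K] [MeasurableSpace K]
    [BorelSpace K] (hm : Measure K) [IsProbabilityMeasure hm] [hm.IsAddHaarMeasure] (e : K)
    (he : Dense (range fun n : ℤ => n • e)) : hm.map (fun t => t + t) ≤ 2 • hm :=
  dbl_of_dense hm e he

/-- [A44] (1)(b): the analytic lemma -/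
theorem cont_prod_shift {K : Type*} [NormedAddCommGroup K] [CompactSpace K] [MeasurableSpace K]
    [BorelSpace K] (hm : Measure K) [IsProbabilityMeasure hm] [hm.IsAddHaarMeasure] (e : K)
    (he : Dense (range fun n : ℤ => n • e)) {I J : Type*} (s : Finset I) (t : Finset J)
    (f : I → K → ℝ) (g : J → K → ℝ) (hf : ∀ i, Measurable (f i)) (hg : ∀ j, Measurable (g j))
    (Cf : I → ℝ) (Cg : J → ℝ) (hCf : ∀ i a, |f i a| ≤ Cf i) (hCg : ∀ j a, |g j a| ≤ Cg j) :
    Continuous fun p : (I → K) × (J → K) =>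
      ∫ a, (∏ i ∈ s, f i (a + p.1 i)) * (∏ j ∈ t, g j (a + a + p.2 j)) ∂hm := by
  have hd : Dbl hm := dbl_of_dense hm e he
  have h1 : LC hm (fun (p : (I → K) × (J → K)) a => ∏ i ∈ s, f i (a + p.1 i)) :=
    LC.prod s fun i _ => (LC.shift hm (f i) (hf i) (Cf i) (hCf i)).comp
      ((continuous_apply i).comp continuous_fst)
  have h2 : LC hm (fun (p : (I → K) × (J → K)) a => ∏ j ∈ t, g j (a + a + p.2 j)) :=
    LC.prod t fun j _ => (LC.double hm hd (g j) (hg j) (Cg j) (hCg j)).comp
      ((continuous_apply j).comp continuous_snd)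
  exact (h1.mul h2).continuous_integral

end Pool.Agent.Work.MP_69fea5_lc.N3
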