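import Pool.Agent.Work.MP_69fea5_lc.N3.DefsH

/-!
# Block [69fea5 N3], part H (coding): the frame
-/

set_option autoImplicit false

namespace Pool.Agent.Work.MP_69fea5_lc.N3

open MeasureTheory Topology Set Filter ProbabilityTheory
open scoped NNReal ENNReal
open Pool.Agent.Work.MP_69fea5_lc.AK
open Pool.Agent.Work.MP_69fea5_lc.HK (Cl DU Ar ArF ArR Dat Law LawC act near sc Pt oc Mn mr)

/-- the graph of the position map on `M` -/
def GK {k : ℕ} (M : Set (Om k)) {K : Type} [NormedAddCommGroup K] (e : K) (π : Om k → K) :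
    Set (Om k × Cube Unit) := (fun w => (w, iK e (π w))) '' M

/-- the frame: the setting of the classical part together with coded representatives; `g` is
uniformly recurrent, `m0` is the measure of the first stage over the position `0`, `μ` the
invariant measure made of its translates -/
structure FrH (S : Set (Set ℕ)) (U : Ultrafilter ℕ) {k : ℕ} (c g : Om k) {K : Type}
    [NormedAddCommGroup K] [CompactSpace K] [MeasurableSpace K] [BorelSpace K] (e : K)
    (π : Om k → K) (hm : Measure K) (μ m0 : PM k) (η : Kernel K (Om k)) : Prop where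
  fr : Fr (orb g) e π hm μ η
  ptc : Pt S c
  ptg : Pt S g
  ptm : Pt S m0
  pt0 : Pt S (iK e (0 : K))
  ptv : Pt S (iK e (π g))
  nc : NC S (kap1 hm η 0)
  nrm : ∀ x : K, ‖x‖ ≤ 1
  base : MinSet (GK (orb g) e π)
  om : GK (orb g) e π ⊆ omg (c, iK e (0 : K))
  aa : (iK e (0 : K), m0) ∈ AA (GK (orb g) e π)
  mm : MinSet (orb (iK e (0 : K), m0))
  pos : m0 {z | z ∈ orb g ∧ π z = 0} = 1
  top : (U : Filter ℕ) ≤ atTop
  av : Tendsto (avP m0) (U : Filter ℕ) (𝓝 μ)

/-- [FRM] the frame exists. -/
def S_FRM : Prop := ∀ (S : Set (Set ℕ)) (U : Ultrafilter ℕ), Cl S → DU S U → ∀ (k : ℕ)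
  (c : Om k), Pt S c → ∃ (g : Om k) (K : Type) (_ : NormedAddCommGroup K) (_ : CompactSpace K)
    (_ : MeasurableSpace K) (_ : BorelSpace K) (e : K) (π : Om k → K) (hm : Measure K)
    (μ m0 : PM k) (η : Kernel K (Om k)), FrH S U c g e π hm μ m0 η

end Pool.Agent.Work.MP_69fea5_lc.N3
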