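import Pool.Agent.Work.MP_69fea5_lc.N3.StmtsB
import Pool.Agent.Work.MP_69fea5_lc.N3.DefsH2

/-!
# Block [69fea5 N3]: the classical theorem in the frame
-/

set_option autoImplicit false

namespace Pool.Agent.Work.MP_69fea5_lc.N3

open MeasureTheory Topology Set Filter ProbabilityTheory
open scoped NNReal ENNReal
open Pool.Agent.Work.MP_69fea5_lc.AK
open Pool.Agent.Work.MP_69fea5_lc.HK (Cl DU Ar ArF ArR Dat Law LawC act near sc Pt oc Mn mr)

/-- [CLA] the classical theorem in the frame: the dichotomy. -/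
def S_CLA : Prop := ∀ (S : Set (Set ℕ)) (U : Ultrafilter ℕ) (k : ℕ) (c g : Om k) (K : Type)
  [NormedAddCommGroup K] [CompactSpace K] [MeasurableSpace K] [BorelSpace K] (e : K)
  (π : Om k → K) (hm : Measure K) (μ m0 : PM k) (η : Kernel K (Om k)),
  FrH S U c g e π hm μ m0 η →
    Fc c (orb g) e π hm μ η ∧ Sm c (orb g) π m0 ∧ (∃ z, ZS c m0 z) ∧
    ∀ z, ZS c m0 z → Bp c (orb g) e π hm η z ∧ (GRD c (kap1 hm η 0) ∨ ∃ r : Fin k,
      GOOD c (Finset.univ.erase r) (hitA c hm η (ps c (orb g) e π hm η z) r) ∨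
      ∃ L₀ L₁ : ℕ, GOOD c (Finset.univ.erase r)
        (hitB m0 (ps c (orb g) e π hm η z) z L₀ L₁ r))

namespace I_CLA

/-- the two kinds of averages have the same limit -/
theorem avm_of {k : ℕ} (U : Ultrafilter ℕ) (m0 μ : PM k) (hU : (U : Filter ℕ) ≤ atTop)
    (h : Tendsto (avP m0) (U : Filter ℕ) (𝓝 μ)) : Avm U m0 μ := by
  intro C hC
  have h1 : Tendsto (fun L => ((avP m0 L) C : ℝ)) (U : Filter ℕ) (𝓝 (μ C : ℝ)) := by
    have h2 := ProbabilityMeasure.tendsto_measure_of_null_frontier_of_tendsto h (E := C)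
      (by rw [hC.frontier_eq]; simp)
    exact (NNReal.continuous_coe.tendsto _).comp h2
  have hav : ∀ L : ℕ, ((avP m0 L) C : ℝ) =
      (∑ i ∈ Finset.range (L + 1), ((sh (i : ℤ) m0) C : ℝ)) / ((L : ℝ) + 1) := by
    intro L
    change ((((avM m0 L) C).toNNReal : ℝ≥0) : ℝ) = _
    rw [avM, Measure.smul_apply, Measure.finsetSum_apply, ENNReal.coe_toNNReal_eq_toReal,
      smul_eq_mul, ENNReal.toReal_mul, ENNReal.toReal_inv, ENNReal.toReal_natCast,
      ENNReal.toReal_sum (fun i _ => measure_ne_top _ _)]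
    rw [div_eq_inv_mul]
    push_cast
    rfl
  have hlim : Tendsto (fun L : ℕ => ((1 : ℝ) / ((L : ℝ) + 1))) (U : Filter ℕ) (𝓝 0) :=
    (tendsto_one_div_add_atTop_nhds_zero_nat (𝕜 := ℝ)).mono_left hU
  have hb : ∀ i : ℕ, 0 ≤ ((sh (i : ℤ) m0) C : ℝ) ∧ ((sh (i : ℤ) m0) C : ℝ) ≤ 1 := fun i =>
    ⟨NNReal.coe_nonneg _, by exact_mod_cast (sh (i : ℤ) m0).apply_le_one C⟩
  have hdiff : ∀ᶠ L : ℕ in (U : Filter ℕ), |(∑ i ∈ Finset.range L, ((sh (i : ℤ) m0) C : ℝ)) / L -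
      ((avP m0 L) C : ℝ)| ≤ 1 / ((L : ℝ) + 1) := by
    filter_upwards [hU (eventually_ge_atTop 1)] with L hL
    rw [hav L, Finset.sum_range_succ]
    have hL' : (0 : ℝ) < L := by exact_mod_cast hL
    set s := ∑ i ∈ Finset.range L, ((sh (i : ℤ) m0) C : ℝ) with hs
    have hs0 : 0 ≤ s := Finset.sum_nonneg fun i _ => (hb i).1
    have hsL : s ≤ L := by
      have := Finset.sum_le_sum (s := Finset.range L) (fun i _ => (hb i).2)
      simpa using this
    have hx := hb L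
    set x := ((sh (L : ℤ) m0) C : ℝ)
    have hid : s / L - (s + x) / ((L : ℝ) + 1) = (s / L - x) / ((L : ℝ) + 1) := by
      field_simp
      ring
    rw [hid, abs_div, abs_of_pos (show (0 : ℝ) < (L : ℝ) + 1 by positivity)]
    gcongr
    have h3 : 0 ≤ s / L := by positivity
    have h4 : s / L ≤ 1 := by rw [div_le_one hL']; exact hsL
    rw [abs_le]
    constructor <;> linarith [hx.1, hx.2]
  have h0 : Tendsto (fun L : ℕ => (∑ i ∈ Finset.range L, ((sh (i : ℤ) m0) C : ℝ)) / L -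
      ((avP m0 L) C : ℝ)) (U : Filter ℕ) (𝓝 0) := by
    refine squeeze_zero_norm' ?_ hlim
    filter_upwards [hdiff] with L hL
    simpa using hL
  have := h0.add h1
  simpa using this

end I_CLA

theorem CLA_pf (hSMC : S_SMC) (hZS1 : AK.S_ZS1) (hMTC : S_MTC) (hDIC : S_DIC) (hGCA : S_GCA) :
    S_CLA := by
  intro S U k c g K _ _ _ _ e π hm μ m0 η h
  have hret : ∀ w ∈ orb g, (w, iK e (π w)) ∈ omg (c, iK e (0 : K)) := fun w hw =>
    h.om ⟨w, hw, rfl⟩
  have hFc : Fc c (orb g) e π hm μ η := ⟨h.fr, h.nrm, hret⟩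
  have hSm : Sm c (orb g) π m0 := hSMC k c (orb g) K e π h.fr.min h.fr.kro h.nrm hret h.base m0
    h.aa h.mm
  refine ⟨hFc, hSm, hZS1 k c m0 _ hSm.stg, fun z hz => ⟨?_, ?_⟩⟩
  · exact (hMTC k c (orb g) K e π hm μ η hFc m0 hSm z hz).1
  · by_cases h2 : CaseII3 c (kap1 hm η 0)
    · exact Or.inr (hDIC k c (orb g) K e π hm μ η hFc U m0 h.top hSm
        (I_CLA.avm_of U m0 μ h.top h.av) z hz h2)
    · exact Or.inl (hGCA k c (orb g) K e π hm μ η hFc h2)

end Pool.Agent.Work.MP_69fea5_lc.N3
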