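import Pool.Agent.Work.MP_69fea5_lc.N3.StmtsH
import Pool.Agent.Work.MP_69fea5_lc.KC.I_ADM
import Pool.Agent.Work.MP_69fea5_lc.KC.I_CON

/-! Item [AD3] of block [69fea5 N3]: admissible pairs of words are recognised. -/

set_option autoImplicit false

namespace Pool.Agent.Work.MP_69fea5_lc.N3

open MeasureTheory Topology Set Filter ProbabilityTheory
open scoped NNReal ENNReal
open Pool.Agent.Work.MP_69fea5_lc.AK
open Pool.Agent.Work.MP_69fea5_lc.HK (Cl DU Ar ArF ArR Dat Law LawC act near sc Pt oc Mn mr)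

namespace I_AD3

variable {S : Set (Set ℕ)} {β : Type} [Primcodable β] {k : ℕ}

/-- windows of a coded point, integer shifts -/
theorem wdZ (hS : Cl S) {z : Om k} (hz : Pt S z) {L : β → ℕ} {x : β → ℤ} (hL : ArF S L)
    (hx : ArF S x) : ArF S fun b => HK.wd (L b) (AK.sh (x b) z) := by
  refine HK.ArF.mapRange hS (f := fun b (i : ℕ) => z ((i : ℤ) - L b + x b)) ?_
    (KC.I_ADM.lenF hS hL)
  refine KC.I_ADM.pt_app hS hz
    (HK.ArF.intAdd hS (HK.ArF.intSub hS (HK.ArF.natCast hS (HK.ArF.snd hS)) ?_) ?_)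
  · exact HK.ArF.natCast hS (HK.ArF.comp hS hL (HK.ArF.fst hS))
  · exact HK.ArF.comp hS hx (HK.ArF.fst hS)

theorem wd_length (L : ℕ) (a : Om k) : (HK.wd L a).length = 2 * L + 1 := by
  simp [HK.wd]

/-- the points with a given word at a given time -/
theorem mem_wd (L : ℕ) (x : ℤ) (u : List (Fin k)) (hu : u.length = 2 * L + 1) (a : Om k) :
    HK.wd L (AK.sh x a) = u ↔ a ∈ HK.cyl (KC.con u x) := by
  rw [KC.CON_pf]
  have hl : u.length / 2 = L := by omega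
  constructor
  · intro h i b hi
    have hlt : i < 2 * L + 1 := by
      rw [← hu]
      obtain ⟨h1, -⟩ := List.getElem?_eq_some_iff.1 hi
      exact h1
    rw [← h] at hi
    have e : (HK.wd L (AK.sh x a))[i]? = some (a ((i : ℤ) - L + x)) := by
      simp only [HK.wd, List.getElem?_map, List.getElem?_range hlt, Option.map_some]
      rfl
    rw [e] at hi
    have h2 := Option.some.inj hi
    rw [hl, ← h2]
    congr 1
    ring
  · intro h
    refine List.ext_getElem (by rw [wd_length, hu]) fun i h1 h2 => ?_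
    have hlt : i < 2 * L + 1 := hu ▸ h2
    have e : (HK.wd L (AK.sh x a))[i] = a ((i : ℤ) - L + x) := by
      simp only [HK.wd, List.getElem_map, List.getElem_range]
      rfl
    rw [e]
    have h3 := h i u[i] (List.getElem?_eq_getElem h2)
    rw [hl] at h3
    rw [← h3]
    congr 1
    ring

/-- the set in the definition of `adm3` -/
theorem set_eq (hBXC : S_BXC) (P : W2 k) (z : Om k) (L : ℕ) (x : ℤ) (u : List (Fin k)) :
    bx P 0 ∩ {q : Om k × Om k | HK.wd L (AK.sh x q.1) = u ∧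
      HK.wd L (AK.sh x q.2) = HK.wd L z} =
    {q : Om k × Om k | u.length = 2 * L + 1 ∧
      q ∈ HK.cyl (KC.con P.1 0 ++ KC.con u x) ×ˢ
        HK.cyl (KC.con P.2 0 ++ KC.con (HK.wd L z) x)} := by
  have happ : ∀ (A B : HK.C k) (a : Om k), a ∈ HK.cyl (A ++ B) ↔ a ∈ HK.cyl A ∧ a ∈ HK.cyl B := by
    intro A B a
    constructor
    · intro h
      exact ⟨fun p hp => h p (List.mem_append_left _ hp),
        fun p hp => h p (List.mem_append_right _ hp)⟩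
    · rintro ⟨h1, h2⟩ p hp
      rcases List.mem_append.1 hp with h | h
      · exact h1 p h
      · exact h2 p h
  ext q
  constructor
  · rintro ⟨h0, h1, h2⟩
    have hu : u.length = 2 * L + 1 := by rw [← h1, wd_length]
    rw [hBXC] at h0
    refine ⟨hu, ?_, ?_⟩
    · exact (happ _ _ _).2 ⟨h0.1, (mem_wd L x u hu q.1).1 h1⟩
    · exact (happ _ _ _).2 ⟨h0.2, (mem_wd L x _ (wd_length L z) q.2).1 h2⟩
  · rintro ⟨hu, h1, h2⟩
    have h1' := (happ _ _ _).1 h1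
    have h2' := (happ _ _ _).1 h2
    refine ⟨?_, (mem_wd L x u hu q.1).2 h1'.2, (mem_wd L x _ (wd_length L z) q.2).2 h2'.2⟩
    rw [hBXC]
    exact ⟨h1'.1, h2'.1⟩

theorem pos_iff (hBXC : S_BXC) (ν : Measure (Om k × Om k)) (P : W2 k) (z : Om k) (L : ℕ) (x : ℤ)
    (u : List (Fin k)) :
    0 < ν.real (bx P 0 ∩ {q : Om k × Om k | HK.wd L (AK.sh x q.1) = u ∧
      HK.wd L (AK.sh x q.2) = HK.wd L z}) ↔
    u.length = 2 * L + 1 ∧ 0 < ν.real (HK.cyl (KC.con P.1 0 ++ KC.con u x) ×ˢ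
        HK.cyl (KC.con P.2 0 ++ KC.con (HK.wd L z) x)) := by
  rw [set_eq hBXC]
  by_cases hu : u.length = 2 * L + 1
  · have : {q : Om k × Om k | u.length = 2 * L + 1 ∧
        q ∈ HK.cyl (KC.con P.1 0 ++ KC.con u x) ×ˢ
          HK.cyl (KC.con P.2 0 ++ KC.con (HK.wd L z) x)} =
        HK.cyl (KC.con P.1 0 ++ KC.con u x) ×ˢ
          HK.cyl (KC.con P.2 0 ++ KC.con (HK.wd L z) x) := by
      ext q
      exact ⟨fun h => h.2, fun h => ⟨hu, h⟩⟩
    rw [this]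
    exact ⟨fun h => ⟨hu, h⟩, fun h => h.2⟩
  · have : {q : Om k × Om k | u.length = 2 * L + 1 ∧
        q ∈ HK.cyl (KC.con P.1 0 ++ KC.con u x) ×ˢ
          HK.cyl (KC.con P.2 0 ++ KC.con (HK.wd L z) x)} = ∅ := by
      ext q
      exact ⟨fun h => hu h.1, fun h => h.elim⟩
    rw [this]
    simp [hu]

/-- positive boxes of a coded measure on pairs -/
theorem posN (hS : Cl S) {ν : Measure (Om k × Om k)} (hν : NC S ν) {P Q : β → HK.C k}
    (hP : ArF S P) (hQ : ArF S Q) : Ar S fun b => 0 < ν.real (HK.cyl (P b) ×ˢ HK.cyl (Q b)) := by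
  have h1 : ArR S fun b => ν.real (HK.cyl (P b) ×ˢ HK.cyl (Q b)) :=
    HK.ArR.sub hS (f := fun p : HK.C k × HK.C k => ν.real (HK.cyl p.1 ×ˢ HK.cyl p.2)) hν
      (g := fun b => (P b, Q b)) (HK.ArF.pair hS hP hQ)
  exact HK.ArR.rlt hS (HK.ArR.zero hS) h1 fun _ => le_rfl

end I_AD3

open I_AD3

theorem AD3_pf (hBXC : S_BXC) (hCONF : KC.S_CONF) : S_AD3 := by
  intro S hS k K _ _ e π c g z ν _ hc hg hz hi hν
  refine HK.Ar.all hS (R := fun (p : (W2 k × ℕ) × (List (Fin k) × List (Fin k))) (N : ℕ) =>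
    ∃ x : ℕ, N ≤ x ∧ HK.wd p.1.2 (AK.sh (x : ℤ) c) = p.2.1 ∧
    (∃ n : ℤ, HK.wd p.1.2 (AK.sh n g) = p.2.1 ∧
      (iK e (π g) () (n - x) : ℝ) < 1 / (p.1.2 + 1)) ∧
    0 < ν.real (bx p.1.1 0 ∩ {q | HK.wd p.1.2 (AK.sh (x : ℤ) q.1) = p.2.2 ∧
      HK.wd p.1.2 (AK.sh (x : ℤ) q.2) = HK.wd p.1.2 z})) ?_
  refine HK.Ar.ex hS (R := fun (q : ((W2 k × ℕ) × (List (Fin k) × List (Fin k))) × ℕ) (x : ℕ) =>
    q.2 ≤ x ∧ HK.wd q.1.1.2 (AK.sh (x : ℤ) c) = q.1.2.1 ∧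
    (∃ n : ℤ, HK.wd q.1.1.2 (AK.sh n g) = q.1.2.1 ∧
      (iK e (π g) () (n - x) : ℝ) < 1 / (q.1.1.2 + 1)) ∧
    0 < ν.real (bx q.1.1.1 0 ∩ {a | HK.wd q.1.1.2 (AK.sh (x : ℤ) a.1) = q.1.2.2 ∧
      HK.wd q.1.1.2 (AK.sh (x : ℤ) a.2) = HK.wd q.1.1.2 z})) ?_
  have hL : ArF S fun r : (((W2 k × ℕ) × (List (Fin k) × List (Fin k))) × ℕ) × ℕ =>
      r.1.1.1.2 :=
    HK.ArF.of_primrec hS (Primrec.snd.comp (Primrec.fst.comp (Primrec.fst.comp Primrec.fst)))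
  have hP : ArF S fun r : (((W2 k × ℕ) × (List (Fin k) × List (Fin k))) × ℕ) × ℕ =>
      r.1.1.1.1 :=
    HK.ArF.of_primrec hS (Primrec.fst.comp (Primrec.fst.comp (Primrec.fst.comp Primrec.fst)))
  have hP1 : ArF S fun r : (((W2 k × ℕ) × (List (Fin k) × List (Fin k))) × ℕ) × ℕ =>
      r.1.1.1.1.1 :=
    HK.ArF.map hS Primrec.fst hP
  have hP2 : ArF S fun r : (((W2 k × ℕ) × (List (Fin k) × List (Fin k))) × ℕ) × ℕ =>
      r.1.1.1.1.2 :=
    HK.ArF.map hS Primrec.snd hP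
  have hw : ArF S fun r : (((W2 k × ℕ) × (List (Fin k) × List (Fin k))) × ℕ) × ℕ =>
      r.1.1.2.1 :=
    HK.ArF.of_primrec hS (Primrec.fst.comp (Primrec.snd.comp (Primrec.fst.comp Primrec.fst)))
  have hu : ArF S fun r : (((W2 k × ℕ) × (List (Fin k) × List (Fin k))) × ℕ) × ℕ =>
      r.1.1.2.2 :=
    HK.ArF.of_primrec hS (Primrec.snd.comp (Primrec.snd.comp (Primrec.fst.comp Primrec.fst)))
  have hN : ArF S fun r : (((W2 k × ℕ) × (List (Fin k) × List (Fin k))) × ℕ) × ℕ => r.1.2 :=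
    HK.ArF.of_primrec hS (Primrec.snd.comp Primrec.fst)
  have hx : ArF S fun r : (((W2 k × ℕ) × (List (Fin k) × List (Fin k))) × ℕ) × ℕ => r.2 :=
    HK.ArF.snd hS
  have hxz : ArF S fun r : (((W2 k × ℕ) × (List (Fin k) × List (Fin k))) × ℕ) × ℕ =>
      (r.2 : ℤ) := HK.ArF.natCast hS hx
  have hcon : ∀ {f : (((W2 k × ℕ) × (List (Fin k) × List (Fin k))) × ℕ) × ℕ → List (Fin k)}
      {y : (((W2 k × ℕ) × (List (Fin k) × List (Fin k))) × ℕ) × ℕ → ℤ}, ArF S f → ArF S y →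
      ArF S fun r => KC.con (f r) (y r) := by
    intro f y hf hy
    exact HK.ArF.comp hS (g := fun p : AK.Wd k × ℤ => KC.con p.1 p.2) (hCONF S hS k)
      (f := fun r => (f r, y r)) (HK.ArF.pair hS hf hy)
  have hwz : ArF S fun r : (((W2 k × ℕ) × (List (Fin k) × List (Fin k))) × ℕ) × ℕ =>
      HK.wd r.1.1.1.2 z := by
    have h1 := wdZ hS hz hL (x := fun _ => (0 : ℤ)) (HK.ArF.const hS 0)
    refine h1.congr fun r => ?_
    rw [AK.sh_zero]
  -- the last condition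
  have h4 : Ar S fun r : (((W2 k × ℕ) × (List (Fin k) × List (Fin k))) × ℕ) × ℕ =>
      0 < ν.real (bx r.1.1.1.1 0 ∩ {a | HK.wd r.1.1.1.2 (AK.sh (r.2 : ℤ) a.1) = r.1.1.2.2 ∧
        HK.wd r.1.1.1.2 (AK.sh (r.2 : ℤ) a.2) = HK.wd r.1.1.1.2 z}) := by
    refine (HK.Ar.and hS (HK.Ar.eq hS (HK.ArF.map hS Primrec.list_length hu)
      (KC.I_ADM.lenF hS hL)) (posN hS hν
        (HK.ArF.map₂ hS (g := fun (l l' : HK.C k) => l ++ l') Primrec.list_append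
          (hcon hP1 (HK.ArF.const hS 0)) (hcon hu hxz))
        (HK.ArF.map₂ hS (g := fun (l l' : HK.C k) => l ++ l') Primrec.list_append
          (hcon hP2 (HK.ArF.const hS 0)) (hcon hwz hxz)))).congr fun r => ?_
    exact pos_iff hBXC ν _ _ _ _ _
  -- the condition on the position
  have h3 : Ar S fun r : (((W2 k × ℕ) × (List (Fin k) × List (Fin k))) × ℕ) × ℕ =>
      ∃ n : ℤ, HK.wd r.1.1.1.2 (AK.sh n g) = r.1.1.2.1 ∧
        (iK e (π g) () (n - r.2) : ℝ) < 1 / (r.1.1.1.2 + 1) := by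
    refine HK.Ar.ex hS (R := fun (r : (((W2 k × ℕ) × (List (Fin k) × List (Fin k))) × ℕ) × ℕ)
      (n : ℤ) => HK.wd r.1.1.1.2 (AK.sh n g) = r.1.1.2.1 ∧
        (iK e (π g) () (n - r.2) : ℝ) < 1 / (r.1.1.1.2 + 1)) ?_
    have hfst : ArF S fun p : ((((W2 k × ℕ) × (List (Fin k) × List (Fin k))) × ℕ) × ℕ) × ℤ =>
        p.1 := HK.ArF.fst hS
    have hsnd : ArF S fun p : ((((W2 k × ℕ) × (List (Fin k) × List (Fin k))) × ℕ) × ℕ) × ℤ =>
        p.2 := HK.ArF.snd hS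
    have hL' := HK.ArF.comp hS hL hfst
    refine HK.Ar.and hS (HK.Ar.eq hS (wdZ hS hg hL' hsnd) (HK.ArF.comp hS hw hfst)) ?_
    have hpos : ArR S fun p : ((((W2 k × ℕ) × (List (Fin k) × List (Fin k))) × ℕ) × ℕ) × ℤ =>
        (iK e (π g) () (p.2 - p.1.2) : ℝ) :=
      HK.ArR.sub hS (f := fun p : Unit × Unit × ℤ => (iK e (π g) p.2.1 p.2.2 : ℝ)) hi
        (g := fun p : ((((W2 k × ℕ) × (List (Fin k) × List (Fin k))) × ℕ) × ℕ) × ℤ =>
          ((), (), p.2 - (p.1.2 : ℤ)))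
        (HK.ArF.pair hS (HK.ArF.const hS ()) (HK.ArF.pair hS (HK.ArF.const hS ())
          (HK.ArF.intSub hS hsnd (HK.ArF.comp hS hxz hfst))))
    have hrat : ArR S fun p : ((((W2 k × ℕ) × (List (Fin k) × List (Fin k))) × ℕ) × ℕ) × ℤ =>
        (1 : ℝ) / (p.1.1.1.1.2 + 1) := by
      refine (HK.ArR.rat hS (HK.ArF.const hS 1) hL').congr fun p => ?_
      push_cast
      rfl
    exact HK.ArR.rlt hS hpos hrat fun p => (iK e (π g) () (p.2 - p.1.2)).2.1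
  exact HK.Ar.and hS (HK.Ar.le hS hN hx) (HK.Ar.and hS
    (HK.Ar.eq hS (KC.I_ADM.wdF hS hc hL hx) hw) (HK.Ar.and hS h3 h4))

end Pool.Agent.Work.MP_69fea5_lc.N3
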