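import Pool.Agent.Work.MP_69fea5_lc.N3.StmtsH

/-!
# Block [69fea5 N3], item AVG: weighted averages
-/

set_option autoImplicit false

namespace Pool.Agent.Work.MP_69fea5_lc.N3

open MeasureTheory Topology Set Filter ProbabilityTheory
open scoped NNReal ENNReal
open Pool.Agent.Work.MP_69fea5_lc.AK
open Pool.Agent.Work.MP_69fea5_lc.HK (Cl DU Ar ArF ArR Dat Law LawC act near sc Pt oc Mn mr)

namespace I_AVG

variable {k : ℕ} {K : Type} [NormedAddCommGroup K] [CompactSpace K] [MeasurableSpace K]
  [BorelSpace K]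

/-- integrals against a mixture -/
theorem integral_bind' (hm : Measure K) (η : Kernel K (Om k)) (f : Om k → ℝ)
    (hf : Integrable f (hm.bind η)) : ∫ z, f z ∂(hm.bind η) = ∫ t, ∫ z, f z ∂(η t) ∂hm := by
  rw [Measure.comp_eq_comp_const_apply] at hf ⊢
  rw [Kernel.integral_comp hf]
  simp

/-- the continuous function: extension of `ψ ∘ π` -/
theorem ext {M : Set (Om k)} (hM : IsClosed M) {π : Om k → K} (hπ : ContinuousOn π M)
    {ψ : K → ℝ} (hψ : Continuous ψ) : ∃ F : Om k → ℝ, Continuous F ∧ ∀ z ∈ M, F z = ψ (π z) := by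
  let f : C(M, ℝ) := ⟨fun z => ψ (π z), hψ.comp (continuousOn_iff_continuous_domRestrict.1 hπ)⟩
  obtain ⟨g, hg⟩ := ContinuousMap.exists_restrict_eq hM f
  refine ⟨g, g.continuous, fun z hz => ?_⟩
  have := congrArg (fun h : C(M, ℝ) => h ⟨z, hz⟩) hg
  exact this

/-- the integral of a continuous function against an average -/
theorem integral_avM (m0 : PM k) (L : ℕ) (f : Om k → ℝ) (hf : Continuous f) :
    ∫ z, f z ∂(avM m0 L) =
      (∑ n ∈ Finset.range (L + 1), ∫ z, f (sh (n : ℤ) z) ∂(m0 : Measure (Om k))) /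
        ((L : ℝ) + 1) := by
  have hint : ∀ ν : Measure (Om k), IsFiniteMeasure ν → Integrable f ν := by
    intro ν _
    exact hf.integrable_of_hasCompactSupport (HasCompactSupport.of_compactSpace f)
  unfold avM
  rw [integral_smul_measure, integral_finsetSum_measure (fun i _ => hint _ inferInstance)]
  have h1 : ∀ n : ℕ, ∫ z, f z ∂((sh (n : ℤ) m0 : PM k) : Measure (Om k)) =
      ∫ z, f (sh (n : ℤ) z) ∂(m0 : Measure (Om k)) := by
    intro n
    change ∫ z, f z ∂(Measure.map (sh (n : ℤ) : Om k → Om k) (m0 : Measure (Om k))) = _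
    rw [integral_map (sh_cont (n : ℤ)).measurable.aemeasurable hf.aestronglyMeasurable]
  simp_rw [h1]
  have hL : (((L + 1 : ℕ) : ℝ≥0∞)⁻¹).toReal = ((L : ℝ) + 1)⁻¹ := by
    rw [ENNReal.toReal_inv, ENNReal.toReal_natCast]
    push_cast
    rfl
  rw [hL, div_eq_inv_mul, smul_eq_mul]

end I_AVG

/-- [AVG] averages weighted by a continuous function of the position. -/
theorem AVG_pf : S_AVG := by
  intro k M K _ _ _ _ e π hm μ η hFr m0 U hm0 hU ψ hψ P hP
  classical
  obtain ⟨F, hFc, hF⟩ := I_AVG.ext (π := π) hFr.min.closed hFr.kro.cont hψ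
  set f : Om k → ℝ := fun z => F z * P.indicator (fun _ => (1 : ℝ)) z with hf
  have hfc : Continuous f := hFc.mul ((continuous_const (y := (1 : ℝ))).indicator (by
    intro a ha
    rw [hP.frontier_eq] at ha
    exact absurd ha (by simp)))
  -- weak convergence
  have hlim : Tendsto (fun L : ℕ => ∫ z, f z ∂(avM m0 L)) (U : Filter ℕ)
      (𝓝 (∫ z, f z ∂(μ : Measure (Om k)))) := by
    obtain ⟨C, hC⟩ : ∃ C : ℝ, ∀ z, ‖f z‖ ≤ C := by
      obtain ⟨C, hC⟩ := (isCompact_univ (X := Om k)).exists_bound_of_continuousOn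
        hfc.continuousOn
      exact ⟨C, fun z => hC z (mem_univ z)⟩
    have := (ProbabilityMeasure.tendsto_iff_forall_integral_tendsto.1 hU)
      (BoundedContinuousFunction.ofNormedAddCommGroup f hfc C hC)
    exact this
  -- the integrals of the averages
  have h1 : ∀ L : ℕ, ∫ z, f z ∂(avM m0 L) =
      (∑ n ∈ Finset.range (L + 1), ψ ((n : ℤ) • e) * mr (sh (n : ℤ) m0) P) /
        ((L : ℝ) + 1) := by
    intro L
    rw [I_AVG.integral_avM m0 L f hfc]
    congr 1
    refine Finset.sum_congr rfl fun n _ => ?_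
    have hae : ∀ᵐ z ∂(m0 : Measure (Om k)), z ∈ M ∧ π z = 0 := by
      have hmeas : MeasurableSet {z | z ∈ M ∧ π z = 0} := by
        have : IsClosed {z | z ∈ M ∧ π z = 0} := by
          have h := hFr.kro.cont.preimage_isClosed_of_isClosed hFr.min.closed
            (isClosed_singleton (x := (0 : K)))
          exact h
        exact this.measurableSet
      have h2 : (m0 : Measure (Om k)) {z | z ∈ M ∧ π z = 0} = 1 := by
        have := hm0
        rw [← ProbabilityMeasure.ennreal_coeFn_eq_coeFn_toMeasure, this]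
        rfl
      rw [ae_iff]
      exact (prob_compl_eq_zero_iff hmeas).2 h2
    have h3 : ∫ z, f (sh (n : ℤ) z) ∂(m0 : Measure (Om k)) =
        ∫ z, ψ ((n : ℤ) • e) * ({z | sh (n : ℤ) z ∈ P}.indicator (fun _ => (1 : ℝ)) z)
          ∂(m0 : Measure (Om k)) := by
      refine integral_congr_ae ?_
      filter_upwards [hae] with z hz
      have h4 : F (sh (n : ℤ) z) = ψ ((n : ℤ) • e) := by
        rw [hF _ (hFr.min.inv n z hz.1), hFr.kro.equi z hz.1 n, hz.2, zero_add]
      simp only [hf, h4]
      rfl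
    rw [h3, integral_const_mul]
    congr 1
    have h5 : MeasurableSet {z : Om k | sh (n : ℤ) z ∈ P} :=
      hP.isOpen.measurableSet.preimage (sh_cont (n : ℤ)).measurable
    rw [integral_indicator_const _ h5]
    simp only [smul_eq_mul, mul_one]
    change _ = (Measure.map (sh (n : ℤ) : Om k → Om k) (m0 : Measure (Om k))).real P
    rw [Measure.real, Measure.real, Measure.map_apply (sh_cont (n : ℤ)).measurable
      hP.isOpen.measurableSet]
    rfl
  -- the limit
  have h2 : ∫ z, f z ∂(μ : Measure (Om k)) = ∫ t, ψ t * (η t).real P ∂hm := by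
    have hint : Integrable f (hm.bind η) := by
      rw [hFr.dis.bind]
      exact hfc.integrable_of_hasCompactSupport (HasCompactSupport.of_compactSpace f)
    rw [← hFr.dis.bind, I_AVG.integral_bind' hm η f hint]
    refine integral_congr_ae ?_
    filter_upwards [hFr.dis.fib] with t ht
    have hae : ∀ᵐ z ∂(η t), z ∈ M ∧ π z = t := by
      rw [ae_iff]
      exact ht
    have h3 : ∫ z, f z ∂(η t) = ∫ z, ψ t * (P.indicator (fun _ => (1 : ℝ)) z) ∂(η t) := by
      refine integral_congr_ae ?_
      filter_upwards [hae] with z hz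
      simp only [hf, hF z hz.1, hz.2]
    rw [h3, integral_const_mul, integral_indicator_const _ hP.isOpen.measurableSet]
    simp
  rw [← h2]
  simp_rw [← h1]
  exact hlim

end Pool.Agent.Work.MP_69fea5_lc.N3
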