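import Pool.Agent.Work.MP_69fea5_lc.N3.StmtsH2
import Pool.Agent.Work.MP_69fea5_lc.N3.AllB

/-!
# Block [69fea5 N3], item BAV: the two forms of the averages
-/

set_option autoImplicit false

namespace Pool.Agent.Work.MP_69fea5_lc.N3

open MeasureTheory Topology Set Filter ProbabilityTheory
open scoped NNReal ENNReal
open Pool.Agent.Work.MP_69fea5_lc.AK

/-- [BAV] the two forms of the averages have the same limit (`I_CLA.avm_of`). -/
theorem BAV_pf : S_BAV := fun _ U m0 μ hU h => I_CLA.avm_of U m0 μ hU h

end Pool.Agent.Work.MP_69fea5_lc.N3
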