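import Mathlib

/-!
# Block [69fea5 N3]: the four-cycle Cauchy–Schwarz lemma

`cyc4 α β n1 n2 n3 n4 = ∫ n1(w,u) n2(w,u') n3(w1,u) n4(w1,u')`. If, in the average over a parameter,
`cyc4 n n n n = cyc4 n n n n' = cyc4 n' n' n' n'`, then `n = n'` almost everywhere.
-/

set_option autoImplicit false

namespace Pool.Agent.Work.MP_69fea5_lc.N3

open MeasureTheory Set Filter ProbabilityTheory

section fixed

variable {W U : Type*} [MeasurableSpace W] [MeasurableSpace U]

/-- the four-cycle integral -/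
noncomputable def cyc4 (α : Measure W) (β : Measure U) (n1 n2 n3 n4 : W × U → ℝ) : ℝ :=
  ∫ w, ∫ w1, ∫ u, ∫ u', n1 (w, u) * n2 (w, u') * n3 (w1, u) * n4 (w1, u') ∂β ∂β ∂α ∂α

/-- the row kernel `f g*` -/
noncomputable def rw_ (β : Measure U) (f g : W × U → ℝ) (p : W × W) : ℝ :=
  ∫ u, f (p.1, u) * g (p.2, u) ∂β

/-- the column kernel `f* g` -/
noncomputable def cl_ (α : Measure W) (f g : W × U → ℝ) (p : U × U) : ℝ :=
  ∫ w, f (w, p.1) * g (w, p.2) ∂α

variable (α : Measure W) (β : Measure U) [IsProbabilityMeasure α] [IsProbabilityMeasure β]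

/-- bounded measurable functions -/
structure Bd {X : Type*} [MeasurableSpace X] (f : X → ℝ) : Prop where
  meas : Measurable f
  le : ∀ x, |f x| ≤ 1

theorem Bd.mul {X : Type*} [MeasurableSpace X] {f g : X → ℝ} (hf : Bd f) (hg : Bd g) :
    Bd fun x => f x * g x :=
  ⟨hf.meas.mul hg.meas, fun x => by
    rw [abs_mul]
    exact mul_le_one₀ (hf.le x) (abs_nonneg _) (hg.le x)⟩

theorem Bd.comp {X Y : Type*} [MeasurableSpace X] [MeasurableSpace Y] {f : X → ℝ} (hf : Bd f)
    {g : Y → X} (hg : Measurable g) : Bd fun y => f (g y) :=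
  ⟨hf.meas.comp hg, fun y => hf.le (g y)⟩

theorem Bd.int {X : Type*} [MeasurableSpace X] {f : X → ℝ} (hf : Bd f) (m : Measure X)
    [IsFiniteMeasure m] : Integrable f m :=
  Integrable.of_bound hf.meas.aestronglyMeasurable 1
    (Eventually.of_forall fun a => by simpa [Real.norm_eq_abs] using hf.le a)

theorem abs_integral_le_one {X : Type*} [MeasurableSpace X] (m : Measure X)
    [IsProbabilityMeasure m] (f : X → ℝ) (hf : ∀ x, |f x| ≤ 1) : |∫ x, f x ∂m| ≤ 1 := by
  have := norm_integral_le_of_norm_le_const (μ := m) (f := f) (C := 1)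
    (Eventually.of_forall fun a => by simpa [Real.norm_eq_abs] using hf a)
  simpa [Real.norm_eq_abs] using this

theorem Bd.rw_ {f g : W × U → ℝ} (hf : Bd f) (hg : Bd g) : Bd (rw_ β f g) := by
  have h : Bd fun q : (W × W) × U => f (q.1.1, q.2) * g (q.1.2, q.2) :=
    (hf.comp (measurable_fst.fst.prodMk measurable_snd)).mul
      (hg.comp (measurable_fst.snd.prodMk measurable_snd))
  refine ⟨?_, fun p => abs_integral_le_one β _ fun u => h.le (p, u)⟩
  exact (h.meas.stronglyMeasurable.integral_prod_right (ν := β)).measurable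

theorem Bd.cl_ {f g : W × U → ℝ} (hf : Bd f) (hg : Bd g) : Bd (cl_ α f g) := by
  have h : Bd fun q : (U × U) × W => f (q.2, q.1.1) * g (q.2, q.1.2) :=
    (hf.comp (measurable_snd.prodMk measurable_fst.fst)).mul
      (hg.comp (measurable_snd.prodMk measurable_fst.snd))
  refine ⟨?_, fun p => abs_integral_le_one α _ fun u => h.le (p, u)⟩
  exact (h.meas.stronglyMeasurable.integral_prod_right (ν := α)).measurable

/-- the row form -/
theorem bx_row {n1 n2 n3 n4 : W × U → ℝ} (h1 : Bd n1) (h2 : Bd n2) (h3 : Bd n3) (h4 : Bd n4) :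
    cyc4 α β n1 n2 n3 n4 = ∫ p, rw_ β n1 n3 p * rw_ β n2 n4 p ∂(α.prod α) := by
  rw [integral_prod _ (((h1.rw_ β h3).mul (h2.rw_ β h4)).int _)]
  unfold cyc4
  congr 1; funext w
  congr 1; funext w1
  show _ = (∫ u, n1 (w, u) * n3 (w1, u) ∂β) * ∫ u, n2 (w, u) * n4 (w1, u) ∂β
  rw [← integral_mul_const]
  congr 1; funext u
  rw [← integral_const_mul]
  congr 1; funext u'
  ring

/-- the column form -/
theorem bx_col {n1 n2 n3 n4 : W × U → ℝ} (h1 : Bd n1) (h2 : Bd n2) (h3 : Bd n3) (h4 : Bd n4) :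
    cyc4 α β n1 n2 n3 n4 = ∫ p, cl_ α n1 n2 p * cl_ α n3 n4 p ∂(β.prod β) := by
  have H : Bd fun q : (W × W) × (U × U) =>
      n1 (q.1.1, q.2.1) * n2 (q.1.1, q.2.2) * n3 (q.1.2, q.2.1) * n4 (q.1.2, q.2.2) :=
    (((h1.comp (measurable_fst.fst.prodMk measurable_snd.fst)).mul
      (h2.comp (measurable_fst.fst.prodMk measurable_snd.snd))).mul
      (h3.comp (measurable_fst.snd.prodMk measurable_snd.fst))).mul
      (h4.comp (measurable_fst.snd.prodMk measurable_snd.snd))
  have e1 : cyc4 α β n1 n2 n3 n4 = ∫ q : (W × W) × (U × U),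
      n1 (q.1.1, q.2.1) * n2 (q.1.1, q.2.2) * n3 (q.1.2, q.2.1) * n4 (q.1.2, q.2.2)
        ∂((α.prod α).prod (β.prod β)) := by
    rw [integral_prod _ (H.int _), integral_prod _ ((H.int _).integral_prod_left)]
    unfold cyc4
    congr 1; funext w
    congr 1; funext w1
    exact (integral_prod (μ := β) (ν := β) (fun r : U × U =>
      n1 (w, r.1) * n2 (w, r.2) * n3 (w1, r.1) * n4 (w1, r.2))
      ((H.comp (g := fun r : U × U => ((w, w1), r))
        (measurable_const.prodMk measurable_id)).int _)).symm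
  rw [e1, integral_prod_symm _ (H.int _)]
  congr 1; funext r
  obtain ⟨u, u'⟩ := r
  show ∫ q : W × W, n1 (q.1, u) * n2 (q.1, u') * n3 (q.2, u) * n4 (q.2, u') ∂(α.prod α) =
    (∫ w, n1 (w, u) * n2 (w, u') ∂α) * ∫ w, n3 (w, u) * n4 (w, u') ∂α
  rw [← integral_prod_mul]
  congr 1; funext q
  ring

theorem sq_row {n1 n2 n3 n4 : W × U → ℝ} (h1 : Bd n1) (h2 : Bd n2) (h3 : Bd n3) (h4 : Bd n4) :
    ∫ p, (rw_ β n1 n2 p - rw_ β n3 n4 p) ^ 2 ∂(α.prod α) =
      cyc4 α β n1 n1 n2 n2 - 2 * cyc4 α β n1 n3 n2 n4 + cyc4 α β n3 n3 n4 n4 := by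
  rw [bx_row α β h1 h1 h2 h2, bx_row α β h1 h3 h2 h4, bx_row α β h3 h3 h4 h4,
    ← integral_const_mul, ← integral_sub, ← integral_add]
  · congr 1; funext p; ring
  · exact ((((h1.rw_ β h2).mul (h1.rw_ β h2)).int _).sub
      ((((h1.rw_ β h2).mul (h3.rw_ β h4)).int _).const_mul 2))
  · exact (((h3.rw_ β h4).mul (h3.rw_ β h4)).int _)
  · exact (((h1.rw_ β h2).mul (h1.rw_ β h2)).int _)
  · exact (((h1.rw_ β h2).mul (h3.rw_ β h4)).int _).const_mul 2

theorem sq_col {n1 n2 n3 n4 : W × U → ℝ} (h1 : Bd n1) (h2 : Bd n2) (h3 : Bd n3) (h4 : Bd n4) :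
    ∫ p, (cl_ α n1 n2 p - cl_ α n3 n4 p) ^ 2 ∂(β.prod β) =
      cyc4 α β n1 n2 n1 n2 - 2 * cyc4 α β n1 n2 n3 n4 + cyc4 α β n3 n4 n3 n4 := by
  rw [bx_col α β h1 h2 h1 h2, bx_col α β h1 h2 h3 h4, bx_col α β h3 h4 h3 h4,
    ← integral_const_mul, ← integral_sub, ← integral_add]
  · congr 1; funext p; ring
  · exact ((((h1.cl_ α h2).mul (h1.cl_ α h2)).int _).sub
      ((((h1.cl_ α h2).mul (h3.cl_ α h4)).int _).const_mul 2))
  · exact (((h3.cl_ α h4).mul (h3.cl_ α h4)).int _)
  · exact (((h1.cl_ α h2).mul (h1.cl_ α h2)).int _)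
  · exact (((h1.cl_ α h2).mul (h3.cl_ α h4)).int _).const_mul 2

/-- a real function whose product with its transpose vanishes almost everywhere vanishes almost
everywhere -/
theorem ae_zero_of_rw_zero {M : W × U → ℝ} (hM : Measurable M) (C : ℝ) (hC : ∀ q, |M q| ≤ C)
    (h : ∀ᵐ p ∂(α.prod α), ∫ u, M (p.1, u) * M (p.2, u) ∂β = 0) :
    ∀ᵐ q ∂(α.prod β), M q = 0 := by
  have hMi : ∀ (m : Measure (W × U)) [IsFiniteMeasure m], Integrable M m := fun m _ =>
    Integrable.of_bound hM.aestronglyMeasurable C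
      (Eventually.of_forall fun a => by simpa [Real.norm_eq_abs] using hC a)
  -- rectangles
  have hrect : ∀ (B : Set W) (D : Set U), MeasurableSet B → MeasurableSet D →
      ∫ q in B ×ˢ D, M q ∂(α.prod β) = 0 := by
    intro B D hB hD
    have h3 : Measurable fun q : (W × W) × U => M (q.1.1, q.2) * M (q.1.2, q.2) :=
      (hM.comp (measurable_fst.fst.prodMk measurable_snd)).mul
        (hM.comp (measurable_fst.snd.prodMk measurable_snd))
    have h3i : Integrable (fun q : (W × W) × U => M (q.1.1, q.2) * M (q.1.2, q.2))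
        (((α.restrict B).prod (α.restrict B)).prod β) := by
      refine Integrable.of_bound h3.aestronglyMeasurable (C * C) (Eventually.of_forall fun a => ?_)
      rw [Real.norm_eq_abs, abs_mul]
      exact mul_le_mul (hC _) (hC _) (abs_nonneg _) ((abs_nonneg _).trans (hC (a.1.1, a.2)))
    have hz : ∫ u, (∫ w in B, M (w, u) ∂α) ^ 2 ∂β = 0 := by
      have e1 : ∀ u, (∫ w in B, M (w, u) ∂α) ^ 2 =
          ∫ p, M (p.1, u) * M (p.2, u) ∂((α.restrict B).prod (α.restrict B)) := by
        intro u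
        rw [sq, ← integral_prod_mul]
      simp_rw [e1]
      rw [← integral_prod_symm _ h3i, integral_prod _ h3i]
      have hac : ((α.restrict B).prod (α.restrict B)) ≪ α.prod α := by
        rw [Measure.prod_restrict]
        exact Measure.absolutelyContinuous_of_le Measure.restrict_le_self
      refine integral_eq_zero_of_ae ?_
      exact hac.ae_le h
    have hg : Measurable fun u => ∫ w in B, M (w, u) ∂α := by
      have : StronglyMeasurable fun q : U × W => M (q.2, q.1) :=
        (hM.comp measurable_swap).stronglyMeasurable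
      exact (this.integral_prod_right' (ν := α.restrict B)).measurable
    have hb : ∀ u, |∫ w in B, M (w, u) ∂α| ≤ |C| := by
      intro u
      have := norm_integral_le_of_norm_le_const (μ := α.restrict B) (f := fun w => M (w, u))
        (C := |C|) (Eventually.of_forall fun a => by
          simpa [Real.norm_eq_abs] using (hC (a, u)).trans (le_abs_self C))
      rw [Real.norm_eq_abs] at this
      refine this.trans ?_
      have h1 : (α.restrict B).real univ ≤ 1 := by
        rw [measureReal_restrict_apply_univ]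
        exact measureReal_le_one
      exact mul_le_of_le_one_right (abs_nonneg _) h1
    have hae : (fun u => (∫ w in B, M (w, u) ∂α) ^ 2) =ᵐ[β] 0 := by
      refine (integral_eq_zero_iff_of_nonneg (fun u => sq_nonneg _) ?_).1 hz
      refine Integrable.of_bound (hg.pow_const 2).aestronglyMeasurable (|C| ^ 2)
        (Eventually.of_forall fun u => ?_)
      rw [Real.norm_eq_abs, abs_of_nonneg (sq_nonneg _), ← sq_abs]
      exact pow_le_pow_left₀ (abs_nonneg _) (hb u) 2
    rw [← Measure.prod_restrict, integral_prod_symm _ (hMi _)]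
    refine integral_eq_zero_of_ae ?_
    refine ae_restrict_of_ae ?_
    filter_upwards [hae] with u hu
    have : (∫ w in B, M (w, u) ∂α) ^ 2 = 0 := hu
    exact pow_eq_zero_iff (two_ne_zero) |>.1 this
  -- all measurable sets
  have hall : ∀ S : Set (W × U), MeasurableSet S → ∫ q in S, M q ∂(α.prod β) = 0 := by
    have huniv : ∫ q, M q ∂(α.prod β) = 0 := by
      have := hrect univ univ MeasurableSet.univ MeasurableSet.univ
      simpa using this
    intro S hS
    induction S, hS using MeasurableSpace.induction_on_inter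
      (generateFrom_prod (α := W) (β := U)).symm isPiSystem_prod with
    | empty => simp
    | basic S hS =>
      obtain ⟨B, hB, D, hD, rfl⟩ := hS
      exact hrect B D hB hD
    | compl S hS ih =>
      have := integral_add_compl hS (hMi (α.prod β))
      rw [ih, huniv, zero_add] at this
      exact this
    | iUnion f hd hf ih =>
      rw [integral_iUnion hf hd (hMi _).integrableOn]
      simp [ih]
  exact (hMi (α.prod β)).ae_eq_zero_of_forall_setIntegral_eq_zero fun S hS _ => hall S hS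

omit [MeasurableSpace W] [IsProbabilityMeasure β] in
theorem rw_swap (f g : W × U → ℝ) (p : W × W) : rw_ β f g p = rw_ β g f p.swap := by
  show ∫ u, f (p.1, u) * g (p.2, u) ∂β = ∫ u, g (p.2, u) * f (p.1, u) ∂β
  congr 1; funext u; ring

theorem ae_eq_of_sq_zero {n n' : W × U → ℝ} (hn : Bd n) (hn' : Bd n')
    (h1 : ∫ p, (rw_ β n n p - rw_ β n n' p) ^ 2 ∂(α.prod α) = 0)
    (h2 : ∫ p, (rw_ β n n p - rw_ β n' n' p) ^ 2 ∂(α.prod α) = 0) :
    ∀ᵐ q ∂(α.prod β), n q = n' q := by
  have key : ∀ f g : W × U → ℝ, Bd f → Bd g →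
      ∫ p, (rw_ β n n p - rw_ β f g p) ^ 2 ∂(α.prod α) = 0 →
      ∀ᵐ p ∂(α.prod α), rw_ β n n p = rw_ β f g p := by
    intro f g hf hg h
    have hi : Integrable (fun p => (rw_ β n n p - rw_ β f g p) ^ 2) (α.prod α) := by
      refine Integrable.of_bound (((hn.rw_ β hn).meas.sub (hf.rw_ β hg).meas).pow_const
        2).aestronglyMeasurable 4 (Eventually.of_forall fun p => ?_)
      rw [Real.norm_eq_abs, abs_of_nonneg (sq_nonneg _)]
      have a1 := abs_le.1 ((hn.rw_ β hn).le p)
      have a2 := abs_le.1 ((hf.rw_ β hg).le p)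
      nlinarith
    have := (integral_eq_zero_iff_of_nonneg (fun p => sq_nonneg _) hi).1 h
    filter_upwards [this] with p hp
    have : (rw_ β n n p - rw_ β f g p) ^ 2 = 0 := hp
    exact sub_eq_zero.1 (pow_eq_zero_iff two_ne_zero |>.1 this)
  have k1 := key n n' hn hn' h1
  have k2 := key n' n' hn' hn' h2
  have k3 : ∀ᵐ p ∂(α.prod α), rw_ β n n p.swap = rw_ β n n' p.swap :=
    (Measure.measurePreserving_swap (μ := α) (ν := α)).quasiMeasurePreserving.ae k1
  have hM : Measurable fun q => n q - n' q := hn.meas.sub hn'.meas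
  have h0 : ∀ᵐ p ∂(α.prod α), ∫ u, (n (p.1, u) - n' (p.1, u)) * (n (p.2, u) - n' (p.2, u)) ∂β
      = 0 := by
    filter_upwards [k1, k2, k3] with p p1 p2 p3
    have hs : ∀ f g : W × U → ℝ, Bd f → Bd g →
        Integrable (fun u => f (p.1, u) * g (p.2, u)) β := fun f g hf hg =>
      ((hf.comp (measurable_const.prodMk measurable_id)).mul
        (hg.comp (measurable_const.prodMk measurable_id))).int β
    have e : ∀ u, (n (p.1, u) - n' (p.1, u)) * (n (p.2, u) - n' (p.2, u)) =
        (n (p.1, u) * n (p.2, u) - n (p.1, u) * n' (p.2, u)) -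
          (n' (p.1, u) * n (p.2, u) - n' (p.1, u) * n' (p.2, u)) := fun u => by ring
    simp_rw [e]
    have i1 : Integrable (fun u => n (p.1, u) * n (p.2, u) - n (p.1, u) * n' (p.2, u)) β :=
      (hs n n hn hn).sub (hs n n' hn hn')
    have i2 : Integrable (fun u => n' (p.1, u) * n (p.2, u) - n' (p.1, u) * n' (p.2, u)) β :=
      (hs n' n hn' hn).sub (hs n' n' hn' hn')
    rw [integral_sub i1 i2, integral_sub (hs n n hn hn) (hs n n' hn hn'),
      integral_sub (hs n' n hn' hn) (hs n' n' hn' hn')]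
    have e1 : rw_ β n' n p = rw_ β n n p := by
      rw [rw_swap β n' n p, ← p3, rw_swap β n n p]
    change (rw_ β n n p - rw_ β n n' p) - (rw_ β n' n p - rw_ β n' n' p) = 0
    rw [e1, ← p1, ← p2]
    ring
  have := ae_zero_of_rw_zero α β hM 2 (fun q => by
    have a1 := abs_le.1 (hn.le q)
    have a2 := abs_le.1 (hn'.le q)
    exact abs_le.2 ⟨by linarith, by linarith⟩) h0
  filter_upwards [this] with q hq
  exact sub_eq_zero.1 hq

end fixed

section fibred

variable {A W U : Type*} [MeasurableSpace A] [MeasurableSpace W] [MeasurableSpace U]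

theorem bd_bx (al : Kernel A W) [IsMarkovKernel al] (be : Kernel A U) [IsMarkovKernel be]
    {n1 n2 n3 n4 : W × U → ℝ} (h1 : Bd n1) (h2 : Bd n2) (h3 : Bd n3) (h4 : Bd n4) :
    Bd fun a => cyc4 (al a) (be a) n1 n2 n3 n4 := by
  have e : ∀ a, cyc4 (al a) (be a) n1 n2 n3 n4 =
      ∫ p, (∫ u, n1 (p.1, u) * n3 (p.2, u) ∂(be a)) * (∫ u, n2 (p.1, u) * n4 (p.2, u) ∂(be a))
        ∂((al ×ₖ al) a) := by
    intro a
    rw [bx_row (al a) (be a) h1 h2 h3 h4, Kernel.prod_apply]
    rfl
  have hR : ∀ f g : W × U → ℝ, Bd f → Bd g →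
      Measurable fun q : A × (W × W) => ∫ u, f (q.2.1, u) * g (q.2.2, u) ∂(be q.1) := by
    intro f g hf hg
    have hm : StronglyMeasurable fun r : (A × (W × W)) × U => f (r.1.2.1, r.2) * g (r.1.2.2, r.2) :=
      ((hf.meas.comp (measurable_fst.snd.fst.prodMk measurable_snd)).mul
        (hg.meas.comp (measurable_fst.snd.snd.prodMk measurable_snd))).stronglyMeasurable
    exact (hm.integral_kernel_prod_right' (κ := be.comap Prod.fst measurable_fst)).measurable
  refine ⟨?_, fun a => ?_⟩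
  · simp_rw [e]
    have hm : StronglyMeasurable fun q : A × (W × W) =>
        (∫ u, n1 (q.2.1, u) * n3 (q.2.2, u) ∂(be q.1)) *
          (∫ u, n2 (q.2.1, u) * n4 (q.2.2, u) ∂(be q.1)) :=
      ((hR n1 n3 h1 h3).mul (hR n2 n4 h2 h4)).stronglyMeasurable
    exact (hm.integral_kernel_prod_right' (κ := al ×ₖ al)).measurable
  · rw [bx_row (al a) (be a) h1 h2 h3 h4]
    exact abs_integral_le_one _ _ fun p => ((h1.rw_ (be a) h3).mul (h2.rw_ (be a) h4)).le p

/-- [A44] (2): the four-cycle lemma -/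
theorem box_eq (hm : Measure A) [IsProbabilityMeasure hm] (al : Kernel A W) [IsMarkovKernel al]
    (be : Kernel A U) [IsMarkovKernel be] {n n' : W × U → ℝ} (hn : Bd n) (hn' : Bd n')
    (e1 : ∫ a, cyc4 (al a) (be a) n n n n' ∂hm = ∫ a, cyc4 (al a) (be a) n n n n ∂hm)
    (e2 : ∫ a, cyc4 (al a) (be a) n' n' n' n' ∂hm = ∫ a, cyc4 (al a) (be a) n n n n ∂hm) :
    ∀ᵐ a ∂hm, ∀ᵐ q ∂((al a).prod (be a)), n q = n' q := by
  have I : ∀ {n1 n2 n3 n4 : W × U → ℝ}, Bd n1 → Bd n2 → Bd n3 → Bd n4 →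
      Integrable (fun a => cyc4 (al a) (be a) n1 n2 n3 n4) hm := fun h1 h2 h3 h4 =>
    (bd_bx al be h1 h2 h3 h4).int hm
  have hs : ∀ {f g k : A → ℝ}, Integrable f hm → Integrable g hm → Integrable k hm →
      ∫ a, (f a - 2 * g a + k a) ∂hm = ∫ a, f a ∂hm - 2 * ∫ a, g a ∂hm + ∫ a, k a ∂hm := by
    intro f g k hf hg hk
    have i1 : Integrable (fun a => f a - 2 * g a) hm := hf.sub (hg.const_mul 2)
    rw [integral_add i1 hk, integral_sub hf (hg.const_mul 2), integral_const_mul]
  -- the four squares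
  have s1 : ∀ a, 0 ≤ cyc4 (al a) (be a) n n n n - 2 * cyc4 (al a) (be a) n n n n' +
      cyc4 (al a) (be a) n n' n n' := fun a => by
    rw [← sq_col (al a) (be a) hn hn hn hn']
    exact integral_nonneg fun p => sq_nonneg _
  have s2 : ∀ a, 0 ≤ cyc4 (al a) (be a) n n n n - 2 * cyc4 (al a) (be a) n n' n n' +
      cyc4 (al a) (be a) n' n' n' n' := fun a => by
    rw [← sq_row (al a) (be a) hn hn hn' hn']
    exact integral_nonneg fun p => sq_nonneg _
  have s1' : ∀ a, 0 ≤ cyc4 (al a) (be a) n n n n - 2 * cyc4 (al a) (be a) n n n n' +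
      cyc4 (al a) (be a) n n n' n' := fun a => by
    rw [← sq_row (al a) (be a) hn hn hn hn']
    exact integral_nonneg fun p => sq_nonneg _
  have s2' : ∀ a, 0 ≤ cyc4 (al a) (be a) n n n n - 2 * cyc4 (al a) (be a) n n n' n' +
      cyc4 (al a) (be a) n' n' n' n' := fun a => by
    rw [← sq_col (al a) (be a) hn hn hn' hn']
    exact integral_nonneg fun p => sq_nonneg _
  have t1 := integral_nonneg (μ := hm) (Pi.le_def.2 s1)
  have t2 := integral_nonneg (μ := hm) (Pi.le_def.2 s2)
  have t1' := integral_nonneg (μ := hm) (Pi.le_def.2 s1')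
  have t2' := integral_nonneg (μ := hm) (Pi.le_def.2 s2')
  rw [hs (I hn hn hn hn) (I hn hn hn hn') (I hn hn' hn hn')] at t1
  rw [hs (I hn hn hn hn) (I hn hn' hn hn') (I hn' hn' hn' hn')] at t2
  rw [hs (I hn hn hn hn) (I hn hn hn hn') (I hn hn hn' hn')] at t1'
  rw [hs (I hn hn hn hn) (I hn hn hn' hn') (I hn' hn' hn' hn')] at t2'
  have z2 : ∫ a, (cyc4 (al a) (be a) n n n n - 2 * cyc4 (al a) (be a) n n' n n' +
      cyc4 (al a) (be a) n' n' n' n') ∂hm = 0 := by
    rw [hs (I hn hn hn hn) (I hn hn' hn hn') (I hn' hn' hn' hn')]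
    linarith
  have z1' : ∫ a, (cyc4 (al a) (be a) n n n n - 2 * cyc4 (al a) (be a) n n n n' +
      cyc4 (al a) (be a) n n n' n') ∂hm = 0 := by
    rw [hs (I hn hn hn hn) (I hn hn hn hn') (I hn hn hn' hn')]
    linarith
  have a2 := (integral_eq_zero_iff_of_nonneg s2 (((I hn hn hn hn).sub
    ((I hn hn' hn hn').const_mul 2)).add (I hn' hn' hn' hn'))).1 z2
  have a1 := (integral_eq_zero_iff_of_nonneg s1' (((I hn hn hn hn).sub
    ((I hn hn hn hn').const_mul 2)).add (I hn hn hn' hn'))).1 z1'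
  filter_upwards [a1, a2] with a b1 b2
  refine ae_eq_of_sq_zero (al a) (be a) hn hn' ?_ ?_
  · rw [sq_row (al a) (be a) hn hn hn hn']
    exact b1
  · rw [sq_row (al a) (be a) hn hn hn' hn']
    exact b2

end fibred

end Pool.Agent.Work.MP_69fea5_lc.N3
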