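import Pool.Agent.Work.MP_69fea5_lc.N3.StmtsA
import Pool.Agent.Work.MP_69fea5_lc.N3.E44b

/-! Item [BOX] of block [69fea5 N3]. -/

set_option autoImplicit false

namespace Pool.Agent.Work.MP_69fea5_lc.N3

open MeasureTheory Topology Set Filter ProbabilityTheory
open scoped NNReal ENNReal

theorem Bd.ind {X : Type*} [MeasurableSpace X] {S : Set X} (hS : MeasurableSet S) :
    Bd (S.indicator (1 : X → ℝ)) :=
  ⟨measurable_one.indicator hS, fun x => by by_cases hx : x ∈ S <;> simp [hx]⟩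

/-- the four-cycle integral of indicators -/
theorem cyc4_ind {W U : Type*} [MeasurableSpace W] [MeasurableSpace U] (α : Measure W)
    (β : Measure U) [IsProbabilityMeasure α] [IsProbabilityMeasure β] {N1 N2 N3 N4 : Set (W × U)}
    (h1 : MeasurableSet N1) (h2 : MeasurableSet N2) (h3 : MeasurableSet N3)
    (h4 : MeasurableSet N4) :
    ((α.prod α).prod (β.prod β)).real {q : (W × W) × (U × U) | (q.1.1, q.2.1) ∈ N1 ∧
      (q.1.1, q.2.2) ∈ N2 ∧ (q.1.2, q.2.1) ∈ N3 ∧ (q.1.2, q.2.2) ∈ N4} =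
    cyc4 α β (N1.indicator 1) (N2.indicator 1) (N3.indicator 1) (N4.indicator 1) := by
  have m1 : Measurable fun q : (W × W) × (U × U) => (q.1.1, q.2.1) :=
    measurable_fst.fst.prodMk measurable_snd.fst
  have m2 : Measurable fun q : (W × W) × (U × U) => (q.1.1, q.2.2) :=
    measurable_fst.fst.prodMk measurable_snd.snd
  have m3 : Measurable fun q : (W × W) × (U × U) => (q.1.2, q.2.1) :=
    measurable_fst.snd.prodMk measurable_snd.fst
  have m4 : Measurable fun q : (W × W) × (U × U) => (q.1.2, q.2.2) :=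
    measurable_fst.snd.prodMk measurable_snd.snd
  have hS : MeasurableSet {q : (W × W) × (U × U) | (q.1.1, q.2.1) ∈ N1 ∧
      (q.1.1, q.2.2) ∈ N2 ∧ (q.1.2, q.2.1) ∈ N3 ∧ (q.1.2, q.2.2) ∈ N4} :=
    (m1 h1).inter ((m2 h2).inter ((m3 h3).inter (m4 h4)))
  have H : Bd fun q : (W × W) × (U × U) =>
      N1.indicator (1 : W × U → ℝ) (q.1.1, q.2.1) * N2.indicator (1 : W × U → ℝ) (q.1.1, q.2.2) *
        N3.indicator (1 : W × U → ℝ) (q.1.2, q.2.1) *
        N4.indicator (1 : W × U → ℝ) (q.1.2, q.2.2) :=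
    ((((Bd.ind h1).comp m1).mul ((Bd.ind h2).comp m2)).mul ((Bd.ind h3).comp m3)).mul
      ((Bd.ind h4).comp m4)
  rw [← integral_indicator_one hS]
  have e0 : ∀ q : (W × W) × (U × U), {q : (W × W) × (U × U) | (q.1.1, q.2.1) ∈ N1 ∧
      (q.1.1, q.2.2) ∈ N2 ∧ (q.1.2, q.2.1) ∈ N3 ∧ (q.1.2, q.2.2) ∈ N4}.indicator
        (1 : (W × W) × (U × U) → ℝ) q =
      N1.indicator (1 : W × U → ℝ) (q.1.1, q.2.1) * N2.indicator (1 : W × U → ℝ) (q.1.1, q.2.2) *
        N3.indicator (1 : W × U → ℝ) (q.1.2, q.2.1) *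
        N4.indicator (1 : W × U → ℝ) (q.1.2, q.2.2) := by
    intro q
    by_cases a1 : (q.1.1, q.2.1) ∈ N1 <;> by_cases a2 : (q.1.1, q.2.2) ∈ N2 <;>
      by_cases a3 : (q.1.2, q.2.1) ∈ N3 <;> by_cases a4 : (q.1.2, q.2.2) ∈ N4 <;>
      simp [a1, a2, a3, a4]
  simp_rw [e0]
  rw [integral_prod _ (H.int _), integral_prod _ ((H.int _).integral_prod_left)]
  unfold cyc4
  congr 1; funext w
  congr 1; funext w1
  exact integral_prod (μ := β) (ν := β) (fun r : U × U =>
    N1.indicator (1 : W × U → ℝ) (w, r.1) * N2.indicator (1 : W × U → ℝ) (w, r.2) *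
      N3.indicator (1 : W × U → ℝ) (w1, r.1) * N4.indicator (1 : W × U → ℝ) (w1, r.2))
    ((H.comp (g := fun r : U × U => ((w, w1), r))
      (measurable_const.prodMk measurable_id)).int _)

theorem BOX_pf : S_BOX := by
  intro A W U _ _ _ hm _ α β _ _ N N' hN hN' q e1 e2
  have hq : ∀ N1 N2 N3 N4 : Set (W × U), MeasurableSet N1 → MeasurableSet N2 →
      MeasurableSet N3 → MeasurableSet N4 → q N1 N2 N3 N4 =
      ∫ a, cyc4 (α a) (β a) (N1.indicator 1) (N2.indicator 1) (N3.indicator 1)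
        (N4.indicator 1) ∂hm := by
    intro N1 N2 N3 N4 h1 h2 h3 h4
    refine integral_congr_ae (Eventually.of_forall fun a => ?_)
    exact cyc4_ind (α a) (β a) h1 h2 h3 h4
  rw [hq N N N N hN hN hN hN, hq N N N N' hN hN hN hN'] at e1
  rw [hq N N N N hN hN hN hN, hq N' N' N' N' hN' hN' hN' hN'] at e2
  have := box_eq hm α β (Bd.ind hN) (Bd.ind hN') e1.symm e2.symm
  filter_upwards [this] with a ha
  have hz : ∀ᵐ q ∂((α a).prod (β a)), q ∉ (N \ N') ∪ (N' \ N) := by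
    filter_upwards [ha] with q hq1
    rintro (⟨h1, h2⟩ | ⟨h1, h2⟩)
    · rw [indicator_of_mem h1, indicator_of_notMem h2] at hq1
      exact one_ne_zero hq1
    · rw [indicator_of_mem h1, indicator_of_notMem h2] at hq1
      exact one_ne_zero hq1.symm
  have := ae_iff.1 hz
  simpa only [not_not, ofPred_mem_eq] using this

end Pool.Agent.Work.MP_69fea5_lc.N3
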