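import Pool.Agent.Work.MP_69fea5_lc.N3.StmtsH

set_option autoImplicit false

namespace Pool.Agent.Work.MP_69fea5_lc.N3

theorem BXC47_pf (hCON : KC.S_CON) : S_BXC := by
  intro k P n
  unfold bx
  rw [hCON, hCON]

end Pool.Agent.Work.MP_69fea5_lc.N3
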