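import Pool.Agent.Work.MP_69fea5_lc.N3.StmtsB

set_option autoImplicit false

namespace Pool.Agent.Work.MP_69fea5_lc.N3

open MeasureTheory Topology Set Filter ProbabilityTheory
open scoped NNReal ENNReal
open Pool.Agent.Work.MP_69fea5_lc.AK

namespace I_CHG

variable {k : ℕ}

/-- the filter of the neighbourhoods given by finitely many coordinates -/
def cf {I : Type} (b : Cube I) : Filter (Cube I) where
  sets := {V | ∃ (S : Set (I × ℤ)) (δ : ℝ), S.Finite ∧ 0 < δ ∧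
    ∀ v : Cube I, (∀ q ∈ S, |(v q.1 q.2 : ℝ) - b q.1 q.2| ≤ δ) → v ∈ V}
  univ_sets := ⟨∅, 1, Set.finite_empty, one_pos, fun _ _ => trivial⟩
  sets_of_superset := by
    rintro V V' ⟨S, δ, hS, hδ, h⟩ hVV
    exact ⟨S, δ, hS, hδ, fun v hv => hVV (h v hv)⟩
  inter_sets := by
    rintro V V' ⟨S, δ, hS, hδ, h⟩ ⟨S', δ', hS', hδ', h'⟩
    refine ⟨S ∪ S', min δ δ', hS.union hS', lt_min hδ hδ', fun v hv => ⟨h v fun q hq => ?_,
      h' v fun q hq => ?_⟩⟩
    · exact (hv q (Or.inl hq)).trans (min_le_left _ _)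
    · exact (hv q (Or.inr hq)).trans (min_le_right _ _)

theorem cf_le {I : Type} (b : Cube I) : cf b ≤ 𝓝 b := by
  have h : Tendsto (fun v : Cube I => v) (cf b) (𝓝 b) := by
    rw [tendsto_pi_nhds]
    intro i
    rw [tendsto_pi_nhds]
    intro j
    rw [Metric.tendsto_nhds]
    intro ε hε
    refine ⟨{(i, j)}, ε / 2, Set.finite_singleton _, half_pos hε, fun v hv => ?_⟩
    have h1 := hv (i, j) rfl
    change dist (v i j) (b i j) < ε
    rw [Subtype.dist_eq, Real.dist_eq]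
    linarith
  exact h

theorem cube_nhd {I : Type} (b : Cube I) (V : Set (Cube I)) (hV : V ∈ 𝓝 b) :
    ∃ (S : Set (I × ℤ)) (δ : ℝ), S.Finite ∧ 0 < δ ∧
      ∀ v : Cube I, (∀ q ∈ S, |(v q.1 q.2 : ℝ) - b q.1 q.2| ≤ δ) → v ∈ V :=
  cf_le b hV

theorem le_add (m : PM k) {A B C : Set (Om k)} (h : A ⊆ B ∪ C) : m A ≤ m B + m C := by
  have h1 : (m : Measure (Om k)) A ≤ (m : Measure (Om k)) B + (m : Measure (Om k)) C :=
    (measure_mono h).trans (measure_union_le _ _)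
  have h5 : ((m A : ℝ≥0) : ENNReal) ≤ ((m B : ℝ≥0) : ENNReal) + ((m C : ℝ≥0) : ENNReal) := by
    simpa using h1
  exact_mod_cast h5

theorem add_le (m : PM k) {A B : Set (Om k)} (h : Disjoint A B) (hB : MeasurableSet B) :
    m A + m B ≤ 1 := by
  have h1 : (m : Measure (Om k)) A + (m : Measure (Om k)) B ≤ 1 := by
    rw [← measure_union h hB]
    exact prob_le_one
  have h5 : ((m A : ℝ≥0) : ENNReal) + ((m B : ℝ≥0) : ENNReal) ≤ 1 := by
    simpa using h1
  exact_mod_cast h5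

section

variable {K : Type} [NormedAddCommGroup K] [CompactSpace K] [MeasurableSpace K] [BorelSpace K]

/-- the domain -/
def DD (M : Set (Om k)) (π : Om k → K) : Set (Om k × Om k) := {q | q.1 ∈ M ∧ q.2 ∈ M ∧ π q.1 = π q.2}

/-- closed balls -/
def FB (M : Set (Om k)) (hm : Measure K) (η : Kernel K (Om k)) (π : Om k → K)
    (N : W2 k → Set (Om k × Om k × Om k)) (A : Set (W2 k)) (ε : ℝ) : Set (Om k × Om k) :=
  {q | q ∈ DD M π ∧ ∀ P ∈ A, dd3 hm η π (N P) q.1 q.2 ≤ ε}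

/-- complements of open balls -/
def CB (M : Set (Om k)) (hm : Measure K) (η : Kernel K (Om k)) (π : Om k → K)
    (N : W2 k → Set (Om k × Om k × Om k)) (A : Set (W2 k)) (ε : ℝ) : Set (Om k × Om k) :=
  {q | q ∈ DD M π ∧ ∃ P ∈ A, ε ≤ dd3 hm η π (N P) q.1 q.2}

omit [CompactSpace K] [MeasurableSpace K] [BorelSpace K] in
theorem DD_closed (M : Set (Om k)) (π : Om k → K) (hM : IsClosed M) (hπ : ContinuousOn π M) :
    IsClosed (DD M π) := by
  have h1 : ContinuousOn (fun q : Om k × Om k => (π q.1, π q.2)) (M ×ˢ M) :=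
    (hπ.comp continuousOn_fst fun q hq => hq.1).prodMk (hπ.comp continuousOn_snd fun q hq => hq.2)
  have h2 := h1.preimage_isClosed_of_isClosed (hM.prod hM) (isClosed_diagonal (X := K))
  have e : DD M π = (M ×ˢ M) ∩ (fun q : Om k × Om k => (π q.1, π q.2)) ⁻¹' Set.diagonal K := by
    ext q
    simp [DD, and_assoc]
  rw [e]
  exact h2

omit [CompactSpace K] [BorelSpace K] in
theorem FB_closed (M : Set (Om k)) (hm : Measure K) (η : Kernel K (Om k)) (π : Om k → K)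
    (N : W2 k → Set (Om k × Om k × Om k)) (A : Set (W2 k)) (ε : ℝ) (hD : IsClosed (DD M π))
    (hc : ∀ P, ContinuousOn (fun q : Om k × Om k => dd3 hm η π (N P) q.1 q.2) (DD M π)) :
    IsClosed (FB M hm η π N A ε) := by
  have e : FB M hm η π N A ε = DD M π ∩ ⋂ P ∈ A, (DD M π ∩
      (fun q : Om k × Om k => dd3 hm η π (N P) q.1 q.2) ⁻¹' Set.Iic ε) := by
    ext q
    simp only [FB, Set.mem_ofPred_eq, Set.mem_inter_iff, Set.mem_iInter, Set.mem_preimage,
      Set.mem_Iic]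
    constructor
    · rintro ⟨h1, h2⟩
      exact ⟨h1, fun P hP => ⟨h1, h2 P hP⟩⟩
    · rintro ⟨h1, h2⟩
      exact ⟨h1, fun P hP => (h2 P hP).2⟩
  rw [e]
  exact hD.inter (isClosed_biInter fun P _ => (hc P).preimage_isClosed_of_isClosed hD isClosed_Iic)

omit [CompactSpace K] [BorelSpace K] in
theorem CB_closed (M : Set (Om k)) (hm : Measure K) (η : Kernel K (Om k)) (π : Om k → K)
    (N : W2 k → Set (Om k × Om k × Om k)) (A : Set (W2 k)) (ε : ℝ) (hA : A.Finite)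
    (hD : IsClosed (DD M π))
    (hc : ∀ P, ContinuousOn (fun q : Om k × Om k => dd3 hm η π (N P) q.1 q.2) (DD M π)) :
    IsClosed (CB M hm η π N A ε) := by
  have e : CB M hm η π N A ε = ⋃ P ∈ A, (DD M π ∩
      (fun q : Om k × Om k => dd3 hm η π (N P) q.1 q.2) ⁻¹' Set.Ici ε) := by
    ext q
    simp only [CB, Set.mem_ofPred_eq, Set.mem_inter_iff, Set.mem_iUnion, Set.mem_preimage,
      Set.mem_Ici, exists_prop]
    constructor
    · rintro ⟨h1, P, hP, h2⟩
      exact ⟨P, hP, h1, h2⟩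
    · rintro ⟨P, hP, h1, h2⟩
      exact ⟨h1, P, hP, h2⟩
  rw [e]
  exact hA.isClosed_biUnion fun P _ => (hc P).preimage_isClosed_of_isClosed hD isClosed_Ici

end

/-- the section -/
def sc (R : Set (Om k × Om k)) (x : Om k) : Set (Om k) := {y | (y, x) ∈ R}

theorem sc_closed {R : Set (Om k × Om k)} (hR : IsClosed R) (x : Om k) : IsClosed (sc R x) :=
  hR.preimage (Continuous.prodMk_left x)

theorem sc_inv (hP : AK.S_PMB) {R : Set (Om k × Om k)} (hR : IsClosed R) (hI : AK.Inv R)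
    (m : PM k) (x : Om k) (n : ℤ) : (sh n m) (sc R (sh n x)) = m (sc R x) := by
  rw [(hP k).1 m n _ (sc_closed hR _).measurableSet]
  congr 1
  ext y
  constructor
  · intro h
    have h1 := hI (-n) _ h
    have e : sh (-n) ((sh n y, sh n x) : Om k × Om k) = (y, x) := by
      rw [sh_prod, ← sh_add, ← sh_add, neg_add_cancel, sh_zero, sh_zero]
    rw [e] at h1
    exact h1
  · intro h
    exact hI n _ h

end I_CHG

open I_CHG in
theorem CHG_pf (hUSC : AK.S_USC) (hCST : AK.S_CST) (hPMB : AK.S_PMB) (hSUP : AK.S_SUP)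
    (hMMB : AK.S_MMB) (hRKD : S_RKD) (hPOS : S_POS) (hNNR : S_NNR) (hTH3 : S_TH3) : S_CHG := by
  intro k c M K _ _ _ _ e π hm μ η hF m0 hS m hmo x hx hmx W hW
  obtain ⟨-, hfc, hMc, -, hpi⟩ := hPOS k c M K e π hm μ η hF
  obtain ⟨-, -, -, hth, -, -, -⟩ := hTH3 k c M K e π hm μ η hF
  have hR3 : ∀ P : W2 k, Rel3 M π (N0 c M e π hm η P) := fun P =>
    hNNR k c M K e π hm μ η hF Unit (fun _ => ()) () continuousOn_const (fun _ _ _ => rfl) P
  have hdd := fun P : W2 k => hRKD k M K e π hm μ η hF.fr _ (hR3 P)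
  have hD : IsClosed (DD M π) := DD_closed M π hMc hF.fr.kro.cont
  have hc : ∀ P, ContinuousOn (fun q : Om k × Om k =>
      dd3 hm η π (N0 c M e π hm η P) q.1 q.2) (DD M π) := fun P => (hdd P).1
  have hDI : AK.Inv (DD M π) := by
    intro n q hq
    refine ⟨(hpi n _ hq.1).1, (hpi n _ hq.2.1).1, ?_⟩
    change π (sh n q.1) = π (sh n q.2)
    rw [(hpi n _ hq.1).2, (hpi n _ hq.2.1).2, hq.2.2]
  have hdI : ∀ P (n : ℤ) (q : Om k × Om k), q ∈ DD M π →
      dd3 hm η π (N0 c M e π hm η P) (sh n q).1 (sh n q).2 =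
        dd3 hm η π (N0 c M e π hm η P) q.1 q.2 := fun P n q hq =>
    (hdd P).2.1 q.1 hq.1 q.2 hq.2.1 n
  -- the neighbourhood
  rw [mem_nhds_prod_iff] at hW
  obtain ⟨U, hU, V, hV, hUV⟩ := hW
  obtain ⟨S, δ, hSf, hδ, hSV⟩ := cube_nhd _ V hV
  have hU' : iK e (π x) ∈ U := mem_of_mem_nhds hU
  obtain ⟨A, hA⟩ : ∃ A : Set (W2 k), A = (fun q : Ix3 k × ℤ => q.1.1) '' S := ⟨_, rfl⟩
  have hAf : A.Finite := by rw [hA]; exact hSf.image _
  have hball : ∀ y ∈ M, π y = π x → (∀ P ∈ A, dd3 hm η π (N0 c M e π hm η P) y x < δ) →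
      ps c M e π hm η y ∈ W := by
    intro y hy hyx hyd
    refine hUV ⟨?_, hSV _ fun q hq => ?_⟩
    · change iK e (π y) ∈ U
      rw [hyx]
      exact hU'
    · exact (hth y hy x hx hyx q.1 q.2).trans (hyd q.1.1 (by rw [hA]; exact ⟨q, hq, rfl⟩)).le
  -- the closed sets
  obtain ⟨F, hFdef⟩ : ∃ F, F = FB M hm η π (fun P => N0 c M e π hm η P) A (δ / 2) := ⟨_, rfl⟩
  obtain ⟨C, hCdef⟩ : ∃ C, C = CB M hm η π (fun P => N0 c M e π hm η P) A δ := ⟨_, rfl⟩
  have hFc : IsClosed F := by rw [hFdef]; exact FB_closed M hm η π _ A _ hD hc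
  have hCc : IsClosed C := by rw [hCdef]; exact CB_closed M hm η π _ A _ hAf hD hc
  have hFI : AK.Inv F := by
    rw [hFdef]
    intro n q hq
    exact ⟨hDI n q hq.1, fun P hP => by rw [hdI P n q hq.1]; exact hq.2 P hP⟩
  have hCI : AK.Inv C := by
    rw [hCdef]
    rintro n q ⟨hq, P, hP, h⟩
    exact ⟨hDI n q hq, P, hP, by rw [hdI P n q hq]; exact h⟩
  have hFC : ∀ z, Disjoint (sc F z) (sc C z) := by
    intro z
    rw [Set.disjoint_left]
    intro y h1 h2
    have h1' : (y, z) ∈ F := h1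
    have h2' : (y, z) ∈ C := h2
    rw [hFdef] at h1'
    rw [hCdef] at h2'
    obtain ⟨-, P, hP, h⟩ := h2'
    have h3 := h1'.2 P hP
    change δ ≤ dd3 hm η π (N0 c M e π hm η P) y z at h
    change dd3 hm η π (N0 c M e π hm η P) y z ≤ δ / 2 at h3
    linarith
  -- the constant
  obtain ⟨hMMc, hMMI, hMMs, hMMo⟩ := hMMB k m0
  have hmin : MinSet (MM m0) := hS.stg.min
  have hcst : ∀ p ∈ MM m0, ∀ p' ∈ MM m0, (p.2 (sc F p.1) : ℝ) = p'.2 (sc F p'.1) := by
    intro p hp p' hp'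
    refine hCST (Om k × PM k) (MM m0) (fun p => (p.2 (sc F p.1) : ℝ)) hmin ?_ ?_ p hp p' hp'
    · intro n q _
      change (((sh n q.2) (sc F (sh n q.1)) : ℝ≥0) : ℝ) = ((q.2 (sc F q.1) : ℝ≥0) : ℝ)
      rw [sc_inv hPMB hFc hFI]
    · intro a
      rcases le_total a 0 with ha | ha
      · have e1 : {q : Om k × PM k | a ≤ (q.2 (sc F q.1) : ℝ)} = univ := by
          ext q
          simp only [Set.mem_ofPred_eq, Set.mem_univ, iff_true]
          exact ha.trans (q.2 (sc F q.1)).2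
        change IsClosed (MM m0 ∩ {q : Om k × PM k | a ≤ (q.2 (sc F q.1) : ℝ)})
        rw [e1, Set.inter_univ]
        exact hMMc
      · refine hMMc.inter ?_
        have h1 := hUSC k (Om k) F hFc ⟨a, ha⟩
        have h2 : IsClosed {q : Om k × PM k | a ≤ (q.2 (sc F q.1) : ℝ)} :=
          h1.preimage (continuous_swap : Continuous (Prod.swap : Om k × PM k → PM k × Om k))
        exact h2
  -- positivity
  have hpos : ∀ p ∈ MM m0, 0 < p.2 (sc F p.1) := by
    obtain ⟨z, hz⟩ := (hSUP k m0).2.2.1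
    have hzM := hMMs z hz
    obtain ⟨hzm, hzf⟩ := hS.onM _ hzM
    have hzz : (z, z) ∈ DD M π := ⟨hzm, hzm, rfl⟩
    have hev : ∀ᶠ q in 𝓝[DD M π] (z, z), ∀ P ∈ A,
        dd3 hm η π (N0 c M e π hm η P) q.1 q.2 < δ / 2 := by
      rw [Filter.eventually_all_finite hAf]
      intro P _
      have h1 := (hc P) (z, z) hzz
      have h2 : dd3 hm η π (N0 c M e π hm η P) z z < δ / 2 := by
        rw [(hdd P).2.2.1 z]
        linarith
      exact h1.eventually (Iio_mem_nhds h2)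
    rw [eventually_nhdsWithin_iff, nhds_prod_eq] at hev
    obtain ⟨pa, ha, pb, hb, hab⟩ := Filter.eventually_prod_iff.1 hev
    obtain ⟨O, hOs, hOo, hzO⟩ := mem_nhds_iff.1 ha
    have hO : 0 < m0 O := hz O hOo hzO
    have hsub : O ⊆ sc F z ∪ (fb M π (π z))ᶜ := by
      intro y hy
      by_cases hyf : y ∈ fb M π (π z)
      · left
        change (y, z) ∈ F
        rw [hFdef]
        have hq : (y, z) ∈ DD M π := ⟨hyf.1, hzm, hyf.2⟩
        exact ⟨hq, fun P hP => (hab (hOs hy) hb.self_of_nhds hq P hP).le⟩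
      · exact Or.inr hyf
    have h0 : m0 (fb M π (π z))ᶜ = 0 := by
      have h1 := add_le m0 (A := (fb M π (π z))ᶜ) (B := fb M π (π z)) disjoint_compl_left
        (hfc _).measurableSet
      have h2 : m0 (fb M π (π z)) = 1 := hzf
      rw [h2] at h1
      have h3 : m0 (fb M π (π z))ᶜ ≤ 0 := by
        have := add_le_add_iff_right (a := (1 : ℝ≥0)) (b := m0 (fb M π (π z))ᶜ) (c := 0)
        exact this.1 (by rw [zero_add]; exact h1)
      exact le_antisymm h3 (zero_le)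
    have h4 := le_add m0 hsub
    rw [h0, add_zero] at h4
    intro p hp
    have h5 := hcst p hp (z, m0) hzM
    have h6 : (0 : ℝ) < (m0 (sc F z) : ℝ) := by exact_mod_cast hO.trans_le h4
    have h7 : (0 : ℝ) < (p.2 (sc F p.1) : ℝ) := by
      rw [h5]
      exact h6
    exact_mod_cast h7
  -- the argument
  by_contra hcon
  have hzero : m {y | y ∈ M ∧ ps c M e π hm η y ∈ W} = 0 := by
    exact le_antisymm (not_lt.1 hcon) (zero_le)
  have hone : ∀ n : ℤ, 1 ≤ (sh n m) (sc C (sh n x)) := by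
    intro n
    rw [sc_inv hPMB hCc hCI]
    have hsub : fb M π (π x) ⊆ {y | y ∈ M ∧ ps c M e π hm η y ∈ W} ∪ sc C x := by
      intro y hy
      by_cases h : ∀ P ∈ A, dd3 hm η π (N0 c M e π hm η P) y x < δ
      · exact Or.inl ⟨hy.1, hball y hy.1 hy.2 h⟩
      · right
        change (y, x) ∈ C
        rw [hCdef]
        refine ⟨⟨hy.1, hx, hy.2⟩, ?_⟩
        by_contra h2
        apply h
        intro P hP
        by_contra h3
        exact h2 ⟨P, hP, not_lt.1 h3⟩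
    have h1 := le_add m hsub
    rw [hmx, hzero, zero_add] at h1
    exact h1
  obtain ⟨m', hm'⟩ := hS.sur x hx
  obtain ⟨G, m'', hG, hG'⟩ := hS.prx m hmo m' (hMMo _ hm') (π x) hmx (hS.onM _ hm').2
  obtain ⟨x'', -, hx''⟩ := (isCompact_univ (X := Om k)).ultrafilter_le_nhds
    (G.map (fun n : ℤ => sh n x)) (by simp)
  have hx3 : Tendsto (fun n : ℤ => sh n x) (G : Filter ℤ) (𝓝 x'') := hx''
  have hin : (x'', m'') ∈ MM m0 := by
    have ht : Tendsto (fun n : ℤ => (sh n x, sh n m')) (G : Filter ℤ) (𝓝 (x'', m'')) :=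
      hx3.prodMk_nhds hG'
    exact hMMc.mem_of_tendsto ht (Eventually.of_forall fun n => hMMI n _ hm')
  have hC1 : 1 ≤ m'' (sc C x'') := by
    have ht : Tendsto (fun n : ℤ => (sh n m, sh n x)) (G : Filter ℤ) (𝓝 (m'', x'')) :=
      hG.prodMk_nhds hx3
    exact (hUSC k (Om k) C hCc 1).mem_of_tendsto ht (Eventually.of_forall fun n => hone n)
  have hP1 := hpos _ hin
  have h8 := add_le m'' (hFC x'') (sc_closed hCc x'').measurableSet
  have h9 : (0 : ℝ) < (m'' (sc F x'') : ℝ) := by exact_mod_cast hP1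
  have h10 : (1 : ℝ) ≤ (m'' (sc C x'') : ℝ) := by exact_mod_cast hC1
  have h11 : (m'' (sc F x'') : ℝ) + (m'' (sc C x'') : ℝ) ≤ 1 := by exact_mod_cast h8
  linarith

end Pool.Agent.Work.MP_69fea5_lc.N3
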