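import Pool.Agent.Work.MP_69fea5_lc.N3.StmtsB

/-!
# Item CHN
-/

set_option autoImplicit false

namespace Pool.Agent.Work.MP_69fea5_lc.N3

open MeasureTheory Topology Set Filter ProbabilityTheory
open scoped NNReal ENNReal
open Pool.Agent.Work.MP_69fea5_lc.AK

namespace I_CHN

variable {k : ℕ}

/-- measures of closed sets equal to one: a closed condition -/
theorem closed_one (hUSC : AK.S_USC) (F : Set (Om k)) (hF : IsClosed F) :
    IsClosed {m : PM k | 1 ≤ m F} := by
  have h := hUSC k Unit (F ×ˢ univ) (hF.prod isClosed_univ) 1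
  have h2 : IsClosed ((fun m : PM k => (m, ())) ⁻¹'
      {p : PM k × Unit | 1 ≤ p.1 {z | (z, p.2) ∈ F ×ˢ (univ : Set Unit)}}) :=
    h.preimage (by fun_prop)
  have e : {m : PM k | 1 ≤ m F} = ((fun m : PM k => (m, ())) ⁻¹'
      {p : PM k × Unit | 1 ≤ p.1 {z | (z, p.2) ∈ F ×ˢ (univ : Set Unit)}}) := by
    ext m
    simp
  rw [e]
  exact h2

theorem one_iff (m : PM k) (F : Set (Om k)) : 1 ≤ m F ↔ (m : Measure (Om k)) F = 1 := by
  constructor
  · intro h
    refine le_antisymm prob_le_one ?_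
    rw [← ProbabilityMeasure.ennreal_coeFn_eq_coeFn_toMeasure]
    exact_mod_cast h
  · intro h
    have h1 : ((m F : ℝ≥0) : ℝ≥0∞) = 1 := by
      rw [ProbabilityMeasure.ennreal_coeFn_eq_coeFn_toMeasure]
      exact h
    have h2 : m F = 1 := by exact_mod_cast h1
    exact h2.ge

theorem iInter_one (m : PM k) (F : ℕ → Set (Om k)) (hF : ∀ n, IsClosed (F n))
    (h : ∀ n, 1 ≤ m (F n)) : (m : Measure (Om k)) (⋂ n, F n) = 1 := by
  have h0 : ∀ n, (m : Measure (Om k)) (F n)ᶜ = 0 := by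
    intro n
    rw [prob_compl_eq_zero_iff (hF n).measurableSet]
    exact (one_iff m _).1 (h n)
  have h1 : (m : Measure (Om k)) (⋂ n, F n)ᶜ = 0 := by
    rw [Set.compl_iInter]
    exact measure_iUnion_null h0
  rwa [prob_compl_eq_zero_iff (isClosed_iInter hF).measurableSet] at h1

end I_CHN

theorem CHN_pf (hUSC : AK.S_USC) (hCHG : S_CHG) (hPOS : S_POS) (hTH3 : S_TH3) : S_CHN := by
  intro k c M K _ _ _ _ e π hm μ η hF m0 hSm z hz hz0 W hW
  have hMc : IsClosed M := (hPOS k c M K e π hm μ η hF).2.2.1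
  have hps : ContinuousOn (ps c M e π hm η) M := (hTH3 k c M K e π hm μ η hF).2.2.2.2.2.1
  have hπ : ContinuousOn π M := hF.fr.kro.cont
  obtain ⟨W', hW'W, hW'o, hzW'⟩ := mem_nhds_iff.1 hW
  obtain ⟨U, hU, hUe⟩ := continuousOn_iff'.1 hps W' hW'o
  -- the closed sets
  let F : ℕ → Set (Om k) := fun n => M ∩ π ⁻¹' Metric.closedBall 0 (1 / ((n : ℝ) + 1))
  have hFc : ∀ n, IsClosed (F n) := fun n =>
    hπ.preimage_isClosed_of_isClosed hMc Metric.isClosed_closedBall
  by_contra hcon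
  push Not at hcon
  let A : ℕ → Set (PM k) := fun n => orb m0 ∩ ({m | 1 ≤ m (F n)} ∩ {m | 1 ≤ m Uᶜ})
  have hAc : ∀ n, IsClosed (A n) := fun n =>
    isClosed_closure.inter ((I_CHN.closed_one hUSC _ (hFc n)).inter
      (I_CHN.closed_one hUSC _ hU.isClosed_compl))
  have hAd : ∀ n, A (n + 1) ⊆ A n := by
    rintro n m ⟨h1, h2, h3⟩
    refine ⟨h1, ?_, h3⟩
    have h4 : m (F (n + 1)) ≤ m (F n) := by
      apply ProbabilityMeasure.apply_mono
      rintro y ⟨hy, hy2⟩
      refine ⟨hy, Metric.closedBall_subset_closedBall ?_ hy2⟩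
      apply one_div_le_one_div_of_le (by positivity)
      push_cast
      linarith
    exact le_trans h2 h4
  have hAn : ∀ n, (A n).Nonempty := by
    intro n
    obtain ⟨m, hm1, a, ha, hma, hmW⟩ := hcon (1 / ((n : ℝ) + 1)) (by positivity)
    have hmW0 : m {y | y ∈ M ∧ ps c M e π hm η y ∈ W} = 0 := le_antisymm hmW zero_le
    refine ⟨m, hm1, ?_, ?_⟩
    · have h4 : m (fb M π a) ≤ m (F n) := by
        apply ProbabilityMeasure.apply_mono
        rintro y ⟨hy, hy2⟩
        refine ⟨hy, ?_⟩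
        simp only [Set.mem_preimage, Metric.mem_closedBall, dist_zero_right]
        rw [hy2]
        exact ha.le
      rw [hma] at h4
      exact h4
    · have h5 : m (fb M π a) ≤ m (Uᶜ ∪ {y | y ∈ M ∧ ps c M e π hm η y ∈ W}) := by
        apply ProbabilityMeasure.apply_mono
        rintro y ⟨hy, -⟩
        by_cases hyU : y ∈ U
        · right
          have h6 : y ∈ ps c M e π hm η ⁻¹' W' ∩ M := by
            rw [hUe]
            exact ⟨hyU, hy⟩
          exact ⟨hy, hW'W h6.1⟩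
        · exact Or.inl hyU
      have h6 := le_trans h5 (ProbabilityMeasure.apply_union_le m)
      rw [hma, hmW0, add_zero] at h6
      exact h6
  obtain ⟨m, hmA⟩ := IsCompact.nonempty_iInter_of_sequence_nonempty_isCompact_isClosed A hAd hAn
    (hAc 0).isCompact hAc
  rw [Set.mem_iInter] at hmA
  have hm1 : m ∈ orb m0 := (hmA 0).1
  have hfb : (m : Measure (Om k)) (⋂ n, F n) = 1 :=
    I_CHN.iInter_one m F hFc fun n => (hmA n).2.1
  have hfe : (⋂ n, F n) = fb M π (π z) := by
    ext y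
    rw [Set.mem_iInter]
    constructor
    · intro h
      refine ⟨(h 0).1, ?_⟩
      rw [hz0, ← norm_eq_zero]
      refine le_antisymm ?_ (norm_nonneg _)
      refine ge_of_tendsto' (x := atTop) (f := fun n : ℕ => 1 / ((n : ℝ) + 1))
        tendsto_one_div_add_atTop_nhds_zero_nat fun n => ?_
      have := (h n).2
      simpa [Metric.mem_closedBall] using this
    · rintro ⟨hy, hy2⟩ n
      refine ⟨hy, ?_⟩
      rw [hz0] at hy2
      simp only [Set.mem_preimage, hy2, Metric.mem_closedBall, dist_self]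
      positivity
  rw [hfe] at hfb
  have hfb1 : m (fb M π (π z)) = 1 :=
    le_antisymm (m.apply_le_one _) ((I_CHN.one_iff m _).2 hfb)
  have hpos := hCHG k c M K e π hm μ η hF m0 hSm m hm1 z hz hfb1 W' (hW'o.mem_nhds hzW')
  have hle : m {y | y ∈ M ∧ ps c M e π hm η y ∈ W'} ≤ m U := by
    apply ProbabilityMeasure.apply_mono
    rintro y ⟨hy, hy2⟩
    have h6 : y ∈ ps c M e π hm η ⁻¹' W' ∩ M := ⟨hy2, hy⟩
    rw [hUe] at h6
    exact h6.1
  have hU0 : m U = 0 := by
    have h7 := (I_CHN.one_iff m _).1 (hmA 0).2.2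
    rw [prob_compl_eq_one_iff hU.measurableSet] at h7
    have h8 : ((m U : ℝ≥0) : ℝ≥0∞) = 0 := by
      rw [ProbabilityMeasure.ennreal_coeFn_eq_coeFn_toMeasure]
      exact h7
    exact_mod_cast h8
  rw [hU0] at hle
  exact absurd hpos (not_lt.mpr hle)

end Pool.Agent.Work.MP_69fea5_lc.N3
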