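import Pool.Agent.Work.MP_69fea5_lc.N3.StmtsA

/-!
# Block [69fea5 N3], item CLR

A closed invariant set of pairs is a decreasing limit of sets `RR L`, measured in the section at
`x`: every `u` with `(x, u) ∉ R` has a box disjoint from `R`; there are countably many boxes.
-/

set_option autoImplicit false

namespace Pool.Agent.Work.MP_69fea5_lc.N3

open MeasureTheory Topology Set Filter ProbabilityTheory
open scoped NNReal ENNReal
open Pool.Agent.Work.MP_69fea5_lc.AK

namespace I_CLR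

variable {k : ℕ}

/-- the `i`-th box -/
def bb (k : ℕ) (i : ℕ) : Wd k × Wd k :=
  ((Encodable.decode i : Option (Wd k × Wd k))).getD ([], [])

/-- the boxes among the first `j` ones which are disjoint from `R` -/
noncomputable def LL (R : Set (Om k × Om k)) (j : ℕ) : WL k := by
  classical
  exact ((List.range j).map (bb k)).filter fun q => decide (Disjoint R (bx q 0))

theorem mem_LL (R : Set (Om k × Om k)) (j : ℕ) (q : Wd k × Wd k) :
    q ∈ LL R j ↔ (∃ i < j, bb k i = q) ∧ Disjoint R (bx q 0) := by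
  classical
  simp [LL]

theorem sub_LL (hC : AK.S_CYL) (R : Set (Om k × Om k)) (hR : AK.Inv R) (j : ℕ) :
    R ⊆ RR (LL R j) := by
  obtain ⟨-, hsh, -⟩ := hC k
  intro p hp n q hq h
  rw [mem_LL] at hq
  have h1 : sh n p ∈ R := hR n p hp
  have h2 : sh n p ∈ bx q 0 := by
    refine ⟨?_, ?_⟩
    · exact (hsh q.1 0 n p.1).2 (by simpa using h.1)
    · exact (hsh q.2 0 n p.2).2 (by simpa using h.2)
  exact (Set.disjoint_left.1 hq.2) h1 h2

theorem anti_LL (R : Set (Om k × Om k)) {i j : ℕ} (hij : i ≤ j) :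
    RR (LL R j) ⊆ RR (LL R i) := by
  intro p hp n q hq
  apply hp n q
  rw [mem_LL] at hq ⊢
  obtain ⟨⟨a, ha, e⟩, hd⟩ := hq
  exact ⟨⟨a, ha.trans_le hij, e⟩, hd⟩

theorem inter_LL (hC : AK.S_CYL) (hN : S_NBX) (R : Set (Om k × Om k)) (hR : IsClosed R)
    (p : Om k × Om k) (hp : p ∉ R) : ∃ j, p ∉ RR (LL R j) := by
  obtain ⟨-, -, hself, -⟩ := hC k
  obtain ⟨hnb, -⟩ := hN k
  have hU : Rᶜ ∈ 𝓝 p := hR.isOpen_compl.mem_nhds hp
  obtain ⟨L₀, hL⟩ := hnb p _ hU
  have h1 := hL L₀ le_rfl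
  set q : Wd k × Wd k := (wordOf p.1 L₀, wordOf p.2 L₀) with hq
  have hd : Disjoint R (bx q 0) := by
    rw [Set.disjoint_left]
    intro z hz hz'
    exact h1 hz' hz
  refine ⟨Encodable.encode q + 1, fun h => ?_⟩
  refine h 0 q ?_ ⟨hself p.1 L₀, hself p.2 L₀⟩
  rw [mem_LL]
  exact ⟨⟨Encodable.encode q, Nat.lt_succ_self _, by simp [bb]⟩, hd⟩

end I_CLR

open I_CLR in
theorem CLR_pf (h1 : S_RRB) (h2 : AK.S_CYL) (h3 : S_NBX) : S_CLR := by
  intro k m R hR hI x ε hε
  have hmeasR : MeasurableSet {u : Om k | (x, u) ∈ R} :=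
    (hR.preimage (Continuous.prodMk_right x)).measurableSet
  set S : ℕ → Set (Om k) := fun j => {u | (x, u) ∈ RR (LL R j) ∧ (x, u) ∉ R} with hS
  have hmeas : ∀ j, MeasurableSet (S j) := by
    intro j
    have h4 : MeasurableSet {u : Om k | (x, u) ∈ RR (LL R j)} :=
      ((h1 k (LL R j) []).1.preimage (Continuous.prodMk_right x)).measurableSet
    exact h4.inter hmeasR.compl
  have hanti : Antitone S := by
    intro i j hij u hu
    exact ⟨anti_LL R hij hu.1, hu.2⟩
  have hemp : ⋂ j, S j = ∅ := by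
    rw [Set.eq_empty_iff_forall_notMem]
    intro u hu
    rw [Set.mem_iInter] at hu
    obtain ⟨j, hj⟩ := inter_LL h2 h3 R hR (x, u) (hu 0).2
    exact hj (hu j).1
  have ht := tendsto_measure_iInter_atTop (μ := (m : Measure (Om k))) (s := S)
    (fun j => (hmeas j).nullMeasurableSet) hanti ⟨0, measure_ne_top _ _⟩
  rw [hemp, measure_empty] at ht
  have hpos : (0 : ℝ≥0∞) < ENNReal.ofReal ε := ENNReal.ofReal_pos.2 hε
  obtain ⟨j, hj⟩ := ((tendsto_order.1 ht).2 _ hpos).exists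
  refine ⟨LL R j, sub_LL h2 R hI j, ?_⟩
  have h5 : ((m (S j) : ℝ≥0) : ℝ≥0∞) < ENNReal.ofReal ε := by
    rw [ProbabilityMeasure.ennreal_coeFn_eq_coeFn_toMeasure]
    exact hj
  have h6 : ((m (S j) : ℝ≥0) : ℝ) < ε := by
    rw [ENNReal.ofReal, ENNReal.coe_lt_coe] at h5
    have := NNReal.coe_lt_coe.2 h5
    rwa [Real.coe_toNNReal _ hε.le] at this
  exact h6

end Pool.Agent.Work.MP_69fea5_lc.N3
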