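import Pool.Agent.Work.MP_69fea5_lc.N3.StmtsA
import Pool.Agent.Work.MP_69fea5_lc.N3.A44a

/-!
# Block [69fea5 N3], item DBL: doubling
-/

set_option autoImplicit false

namespace Pool.Agent.Work.MP_69fea5_lc.N3

open MeasureTheory Topology Set Filter ProbabilityTheory
open scoped NNReal ENNReal
open Pool.Agent.Work.MP_69fea5_lc.AK

theorem DBL_pf : S_DBL := by
  intro K _ _ _ _ hm _ _ e he
  have h := dbl_le hm e he
  have e2 : (2 : ℝ≥0∞) • hm = (2 : ℕ) • hm := by
    rw [two_nsmul, two_smul]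
  rw [e2]
  exact h

end Pool.Agent.Work.MP_69fea5_lc.N3
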