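import Pool.Agent.Work.MP_69fea5_lc.N3.StmtsB

/-!
# Block [69fea5 N3], item DIC: the dichotomy of Case II
-/

set_option autoImplicit false

namespace Pool.Agent.Work.MP_69fea5_lc.N3

open MeasureTheory Topology Set Filter ProbabilityTheory
open scoped NNReal ENNReal
open Pool.Agent.Work.MP_69fea5_lc.AK

theorem DIC_pf (hKPB : S_KPB) (hWWP : S_WWP) (hZNL : S_ZNL) (hGDA : S_GDA) (hIIB : S_IIB)
    (hMTC : S_MTC) (hGDB : S_GDB) : S_DIC := by
  intro k c M K _ _ _ _ e π hm μ η hfc U m0 hU hsm havm z hz hII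
  have hbp : Bp c M e π hm η z := (hMTC k c M K e π hm μ η hfc m0 hsm z hz).1
  obtain ⟨w1, w2, -⟩ := hWWP k c M K e π hm μ η hfc z hbp.mem
  have hprob : IsProbabilityMeasure (kap1 hm η 0) :=
    ((hKPB k M K e π hm μ η hfc.fr).1 0).1
  by_cases hA : ∀ L : ℕ, ∃ P ∈ WW (ps c M e π hm η z) z L, ∃ Q ∈ WW (ps c M e π hm η z) z L,
      ∃ r, mid P = some r ∧ mid Q = some r ∧ (kap1 hm η 0).real (bx (P, Q) 0) ≠ 0
  · -- zones of blocked pairs
    have key : ∀ W ∈ 𝓝 (ps c M e π hm η z), ∃ r : Fin k, ∃ P : W2 k, Blk c hm η P r ∧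
        ∃ v ∈ M, ps c M e π hm η v ∈ W ∧
          0 < (kap3 hm η (π v)).real (sec3 (N0 c M e π hm η P) v ∩ bx P 0) := by
      intro W hW
      obtain ⟨W', hW', hz'⟩ := hZNL k c M K e π hm μ η hfc z hbp W hW
      obtain ⟨L, hL⟩ := w1 W' hW'
      obtain ⟨P, hP, Q, hQ, r, hr1, hr2, hne⟩ := hA L
      have hst : St (kap1 hm η 0) (P, Q) r := by
        refine ⟨hr1, hr2, ?_⟩
        rw [pos_iff_ne_zero]
        intro h0
        exact hne (by rw [measureReal_def, h0, ENNReal.toReal_zero])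
      obtain ⟨P', hsub, hst', hbl⟩ := hII (P, Q) r hst
      have hpos : 0 < (kap1 hm η 0) (bx P' 0) := hst'.2.2
      have hne' : (bx P' 0).Nonempty := nonempty_of_measure_ne_zero hpos.ne'
      obtain ⟨⟨a, b⟩, hab⟩ := hne'
      have s1 : cyl P'.1 0 ⊆ cyl P 0 := fun x hx =>
        (hsub (show ((x, b) : Om k × Om k) ∈ bx P' 0 from ⟨hx, hab.2⟩)).1
      have s2 : cyl P'.2 0 ⊆ cyl Q 0 := fun x hx =>
        (hsub (show ((a, x) : Om k × Om k) ∈ bx P' 0 from ⟨hab.1, hx⟩)).2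
      have i1 : Ins c M e π hm η W' P'.1 := fun x hxM hx => hL P hP x hxM (s1 hx)
      have i2 : Ins c M e π hm η W' P'.2 := fun x hxM hx => hL Q hQ x hxM (s2 hx)
      have hreal : 0 < (kap1 hm η 0).real (bx P' 0) := by
        rw [measureReal_def]
        exact ENNReal.toReal_pos hpos.ne' (measure_ne_top _ _)
      obtain ⟨v, hv, hvW, hv3⟩ := hz' P' i1 i2 hreal
      exact ⟨r, P', ⟨hst'.1, hst'.2.1, hbl⟩, v, hv, hvW, hv3⟩
    have key2 : ∃ r : Fin k, ∀ W ∈ 𝓝 (ps c M e π hm η z), ∃ P : W2 k, Blk c hm η P r ∧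
        ∃ v ∈ M, ps c M e π hm η v ∈ W ∧
          0 < (kap3 hm η (π v)).real (sec3 (N0 c M e π hm η P) v ∩ bx P 0) := by
      by_contra hcon
      push Not at hcon
      choose W hW hWn using hcon
      have hint : (⋂ r, W r) ∈ 𝓝 (ps c M e π hm η z) := Filter.iInter_mem.mpr hW
      obtain ⟨r, P, hP, v, hv, hvW, hv3⟩ := key _ hint
      exact absurd hv3 (not_lt.mpr (hWn r P hP v hv (mem_iInter.mp hvW r)))
    obtain ⟨r, hr⟩ := key2
    exact ⟨r, Or.inl (hGDA k c M K e π hm μ η hfc z hbp r hr)⟩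
  · push Not at hA
    obtain ⟨L₀, hL₀⟩ := hA
    obtain ⟨W, hW, hWx⟩ := w2 L₀
    obtain ⟨r, hr⟩ := hIIB k c M K e π hm μ η hfc U m0 hU hsm havm z hbp.mem hbp.pos
      (WW (ps c M e π hm η z) z L₀) W hW hWx
      (fun P hP Q hQ r h1 h2 => hL₀ P hP Q hQ r h1 h2)
    obtain ⟨L₁, hL₁⟩ := hGDB k c M K e π hm μ η hfc m0 hsm z hz L₀ r hr
    exact ⟨r, Or.inr ⟨L₀, L₁, hL₁⟩⟩

end Pool.Agent.Work.MP_69fea5_lc.N3
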