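import Pool.Agent.Work.MP_69fea5_lc.N3.StmtsA

/-!
# Block [69fea5 N3], item DIS: disintegration of an invariant measure over the isometric factor
-/

set_option autoImplicit false

namespace Pool.Agent.Work.MP_69fea5_lc.N3

open MeasureTheory Topology Set Filter ProbabilityTheory
open scoped NNReal ENNReal
open Pool.Agent.Work.MP_69fea5_lc.AK

namespace I_DIS

variable {k : ℕ} {K : Type} [NormedAddCommGroup K] [CompactSpace K] [MeasurableSpace K]
  [BorelSpace K]

/-- the measurable version of the map to `K` -/
noncomputable def pp (M : Set (Om k)) (π : Om k → K) : Om k → K := by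
  classical
  exact fun z => if z ∈ M then π z else 0

theorem pp_of_mem {M : Set (Om k)} {π : Om k → K} {z : Om k} (hz : z ∈ M) : pp M π z = π z := by
  unfold pp
  rw [if_pos hz]

theorem meas_pp {M : Set (Om k)} {π : Om k → K} (hM : IsClosed M) (hc : ContinuousOn π M) :
    Measurable (pp M π) := by
  classical
  refine measurable_of_isClosed fun F hF => ?_
  have h1 : IsClosed (M ∩ π ⁻¹' F) := hc.preimage_isClosed_of_isClosed hM hF
  have h2 : pp M π ⁻¹' F = (M ∩ π ⁻¹' F) ∪ (Mᶜ ∩ {_z : Om k | (0 : K) ∈ F}) := by
    ext z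
    by_cases hz : z ∈ M
    · simp [pp, hz]
    · simp [pp, hz]
  rw [h2]
  exact h1.measurableSet.union (hM.measurableSet.compl.inter (MeasurableSet.const _))

end I_DIS

open I_DIS in
theorem DIS_pf (hH : S_HUN) : S_DIS := by
  classical
  intro k M K _ _ _ _ e π hm μ hprob hhaar hM hinv hone hK
  have : SecondCountableTopology K := inferInstance
  obtain ⟨z0, hz0⟩ := hM.ne
  have : Nonempty (Om k) := ⟨z0⟩
  have hMc : IsClosed M := hM.closed
  have hMm : MeasurableSet M := hMc.measurableSet
  set p : Om k → K := pp M π with hp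
  have hpm : Measurable p := meas_pp hMc hK.cont
  have hsm : ∀ n : ℤ, Measurable (sh n : Om k → Om k) := fun n => (sh_cont n).measurable
  -- the measure `μ` lives on `M`
  have hae : ∀ᵐ z ∂(μ : Measure (Om k)), z ∈ M := by
    have h1 : (μ : Measure (Om k)) M = 1 := by
      have := congrArg (fun t : ℝ≥0 => (t : ℝ≥0∞)) hone
      simpa using this
    rw [ae_iff]
    have h2 : (μ : Measure (Om k)) Mᶜ = 0 := by
      rw [prob_compl_eq_zero_iff hMm]
      exact h1
    exact h2
  have hinv1 : (μ : Measure (Om k)).map (sh 1 : Om k → Om k) = μ := by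
    have := congrArg (fun t : PM k => (t : Measure (Om k))) hinv
    exact this
  have hinv2 : (μ : Measure (Om k)).map (sh (-1) : Om k → Om k) = μ := by
    conv_lhs => rw [← hinv1]
    rw [Measure.map_map (hsm (-1)) (hsm 1)]
    have h3 : (sh (-1) ∘ sh 1 : Om k → Om k) = id := by
      funext z
      simp only [Function.comp_apply, id_eq]
      rw [← sh_add, neg_add_cancel, sh_zero]
    rw [h3, Measure.map_id]
  -- the image is the Haar measure
  have hν : (μ : Measure (Om k)).map p = hm := by
    refine hH K hm e hK.dense _ ?_ ?_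
    · exact Measure.isProbabilityMeasure_map hpm.aemeasurable
    · rw [Measure.map_map (measurable_add_const e) hpm]
      have h4 : (μ : Measure (Om k)).map p = (μ : Measure (Om k)).map (p ∘ sh 1) := by
        conv_lhs => rw [← hinv1]
        rw [Measure.map_map hpm (hsm 1)]
      rw [h4]
      refine Measure.map_congr ?_
      filter_upwards [hae] with z hz
      simp only [Function.comp_apply]
      have h5 : sh (1 : ℤ) z ∈ M := hM.inv 1 z hz
      rw [hp, pp_of_mem hz, pp_of_mem h5, hK.equi z hz 1, one_smul]
  -- the joint law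
  have hjm : Measurable fun z : Om k => (p z, z) := hpm.prodMk measurable_id
  set ρ : Measure (K × Om k) := (μ : Measure (Om k)).map fun z => (p z, z) with hρ
  have hρp : IsProbabilityMeasure ρ := Measure.isProbabilityMeasure_map hjm.aemeasurable
  have hfst : ρ.fst = hm := by
    rw [hρ, Measure.fst, Measure.map_map measurable_fst hjm]
    exact hν
  have hsnd : ρ.snd = (μ : Measure (Om k)) := by
    rw [hρ, Measure.snd, Measure.map_map measurable_snd hjm]
    exact Measure.map_id
  set η : Kernel K (Om k) := ρ.condKernel with hη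
  have hdis : hm ⊗ₘ η = ρ := by
    rw [← hfst]
    exact ρ.disintegrate ρ.condKernel
  refine ⟨η, ?_, ?_, ?_, ?_⟩
  · infer_instance
  · rw [← hsnd, ← hdis, Measure.snd_compProd]
  · -- the fibres
    have h6 : ∀ᵐ q ∂(hm ⊗ₘ η), q.2 ∈ M ∧ π q.2 = q.1 := by
      rw [hdis, hρ, ae_map_iff hjm.aemeasurable]
      · filter_upwards [hae] with z hz
        exact ⟨hz, (pp_of_mem hz).symm⟩
      · have h7 : {q : K × Om k | q.2 ∈ M ∧ π q.2 = q.1} =
            {q : K × Om k | q.2 ∈ M} ∩ {q : K × Om k | p q.2 = q.1} := by
          ext q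
          constructor
          · rintro ⟨h1, h2⟩
            exact ⟨h1, (pp_of_mem h1).trans h2⟩
          · rintro ⟨h1, h2⟩
            exact ⟨h1, (pp_of_mem h1).symm.trans h2⟩
        rw [h7]
        exact (measurable_snd hMm).inter
          (measurableSet_eq_fun (hpm.comp measurable_snd) measurable_fst)
    have h8 := Measure.ae_ae_of_ae_compProd h6
    filter_upwards [h8] with t ht
    exact ht
  · -- equivariance
    set κ : Kernel K (Om k) := (η.comap (fun t => t + e) (measurable_add_const e)).map
      (sh (-1) : Om k → Om k) with hκ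
    have hκa : ∀ t, κ t = (η (t + e)).map (sh (-1) : Om k → Om k) := by
      intro t
      rw [hκ, Kernel.map_apply _ (hsm (-1)), Kernel.comap_apply]
    have : IsMarkovKernel κ := by
      rw [hκ]
      exact Kernel.IsMarkovKernel.map _ (hsm (-1))
    have hκρ : ρ = ρ.fst ⊗ₘ κ := by
      rw [hfst]
      refine Measure.ext fun S hS => ?_
      have hS' : MeasurableSet ((fun q : K × Om k => (q.1 - e, sh (-1) q.2)) ⁻¹' S) := by
        have h9 : Measurable (fun q : K × Om k => (q.1 - e, sh (-1) q.2)) :=
          (measurable_fst.sub_const e).prodMk ((hsm (-1)).comp measurable_snd)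
        exact h9 hS
      rw [Measure.compProd_apply hS]
      have h10 : ∀ t : K, κ t (Prod.mk t ⁻¹' S) =
          η (t + e) (Prod.mk (t + e) ⁻¹'
            ((fun q : K × Om k => (q.1 - e, sh (-1) q.2)) ⁻¹' S)) := by
        intro t
        rw [hκa, Measure.map_apply (hsm (-1)) (measurable_prodMk_left hS)]
        congr 1
        ext z
        simp
      have h11 : ∫⁻ t, κ t (Prod.mk t ⁻¹' S) ∂hm =
          ∫⁻ t, η t (Prod.mk t ⁻¹'
            ((fun q : K × Om k => (q.1 - e, sh (-1) q.2)) ⁻¹' S)) ∂hm := by
        simp_rw [h10]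
        exact lintegral_add_right_eq_self (μ := hm) (fun t => η t (Prod.mk t ⁻¹'
            ((fun q : K × Om k => (q.1 - e, sh (-1) q.2)) ⁻¹' S))) e
      rw [h11, ← Measure.compProd_apply hS', hdis, hρ, Measure.map_apply hjm hS,
        Measure.map_apply hjm hS']
      have h12 : (μ : Measure (Om k)) ((fun z => (p z, z)) ⁻¹' S) =
          (μ : Measure (Om k)) ((sh (-1) : Om k → Om k) ⁻¹' ((fun z => (p z, z)) ⁻¹' S)) := by
        conv_lhs => rw [← hinv2]
        rw [Measure.map_apply (hsm (-1)) (hjm hS)]
      rw [h12]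
      refine measure_congr ?_
      filter_upwards [hae] with z hz
      have h13 : sh (-1 : ℤ) z ∈ M := hM.inv (-1) z hz
      have h14 : p (sh (-1) z) = p z - e := by
        rw [hp, pp_of_mem hz, pp_of_mem h13, hK.equi z hz (-1), neg_smul, one_smul, sub_eq_add_neg]
      apply propext
      change ((p (sh (-1) z), sh (-1) z) ∈ S) ↔ ((p z - e, sh (-1) z) ∈ S)
      rw [h14]
    have h15 := eq_condKernel_of_measure_eq_compProd κ hκρ
    rw [hfst] at h15
    filter_upwards [h15] with t ht
    rw [hη, ← ht, hκa, Measure.map_map (hsm 1) (hsm (-1))]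
    have h16 : (sh 1 ∘ sh (-1) : Om k → Om k) = id := by
      funext z
      simp only [Function.comp_apply, id_eq]
      rw [← sh_add, add_neg_cancel, sh_zero]
    rw [h16, Measure.map_id]

end Pool.Agent.Work.MP_69fea5_lc.N3
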