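import Pool.Agent.Work.MP_69fea5_lc.N3.StmtsH

/-!
# Block [69fea5 N3], item DIV

Quotients of coded real functions.
-/

set_option autoImplicit false

namespace Pool.Agent.Work.MP_69fea5_lc.N3

open MeasureTheory Topology Set Filter ProbabilityTheory
open scoped NNReal ENNReal
open Pool.Agent.Work.MP_69fea5_lc.AK
open Pool.Agent.Work.MP_69fea5_lc.HK (Cl DU Ar ArF ArR Dat Law LawC act near sc Pt oc Mn mr)

theorem DIV_pf : S_DIV := by
  intro S hS α _ f g hf hg f0 g0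
  have hu : ArF S fun p : α × ℕ × ℕ => p.2.1 :=
    ArF.of_primrec hS (Primrec.fst.comp Primrec.snd)
  have hv : ArF S fun p : α × ℕ × ℕ => p.2.2 + 1 :=
    ArF.of_primrec hS (Primrec.succ.comp (Primrec.snd.comp Primrec.snd))
  have h1 : ArR S fun p : α × ℕ × ℕ => (p.2.1 : ℝ) * g p.1 :=
    ArR.mul hS (ArR.nat hS hu) (ArR.comp hS hg Primrec.fst) (fun p => Nat.cast_nonneg _)
      (fun p => (g0 _).le)
  have h2 : ArR S fun p : α × ℕ × ℕ => f p.1 * ((p.2.2 + 1 : ℕ) : ℝ) :=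
    ArR.mul hS (ArR.comp hS hf Primrec.fst) (ArR.nat hS hv) (fun p => f0 _)
      (fun p => Nat.cast_nonneg _)
  refine (ArR.rlt hS h1 h2 fun p => mul_nonneg (Nat.cast_nonneg _) (g0 _).le).congr fun p => ?_
  have hg' := g0 p.1
  push_cast
  rw [div_mul_eq_mul_div, lt_div_iff₀ hg']

end Pool.Agent.Work.MP_69fea5_lc.N3
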