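import Pool.Agent.Work.MP_69fea5_lc.N3.StmtsA

set_option autoImplicit false

namespace Pool.Agent.Work.MP_69fea5_lc.N3

open MeasureTheory Topology Set Filter ProbabilityTheory
open scoped NNReal ENNReal
open Pool.Agent.Work.MP_69fea5_lc.AK

namespace I_DKB47

variable {k : ℕ}

theorem rho_nonneg (m : PM k) (R : Set (Om k × Om k)) (x y : Om k) : 0 ≤ rho m R x y := by
  unfold rho
  positivity

theorem rho_le (m : PM k) (R : Set (Om k × Om k)) (x y : Om k) : rho m R x y ≤ 2 := by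
  unfold rho
  have h1 : (m {u | (x, u) ∈ R ∧ (y, u) ∉ R} : ℝ) ≤ 1 := by exact_mod_cast m.apply_le_one _
  have h2 : (m {u | (y, u) ∈ R ∧ (x, u) ∉ R} : ℝ) ≤ 1 := by exact_mod_cast m.apply_le_one _
  linarith

/-- the terms -/
noncomputable def tm (m : PM k) (x y : Om k) (i : ℕ) : ℝ :=
  (1 / 2) ^ (i + 2) * rho m (RR (wl k i)) x y

theorem dK_eq (m : PM k) (x y : Om k) : dK m x y = ∑' i, tm m x y i := rfl

theorem tm_nonneg (m : PM k) (x y : Om k) (i : ℕ) : 0 ≤ tm m x y i :=
  mul_nonneg (by positivity) (rho_nonneg _ _ _ _)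

theorem tm_le (m : PM k) (x y : Om k) (i : ℕ) : tm m x y i ≤ 1 / 2 * (1 / 2) ^ i := by
  unfold tm
  have h := rho_le m (RR (wl k i)) x y
  have h2 : (0 : ℝ) ≤ (1 / 2) ^ (i + 2) := by positivity
  calc (1 / 2 : ℝ) ^ (i + 2) * rho m (RR (wl k i)) x y ≤ (1 / 2) ^ (i + 2) * 2 :=
        mul_le_mul_of_nonneg_left h h2
    _ = 1 / 2 * (1 / 2) ^ i := by rw [pow_add]; ring

theorem geo : HasSum (fun i : ℕ => 1 / 2 * (1 / 2 : ℝ) ^ i) 1 := by
  have h2 := hasSum_geometric_two.mul_left (1 / 2 : ℝ)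
  have h3 : (1 / 2 : ℝ) * 2 = 1 := by norm_num
  rwa [h3] at h2

theorem summ (m : PM k) (x y : Om k) : Summable (tm m x y) :=
  Summable.of_nonneg_of_le (tm_nonneg m x y) (tm_le m x y) geo.summable

end I_DKB47

open I_DKB47 in
theorem DKB47_pf (hRRB : S_RRB) (hRHC : S_RHC) : S_DKB := by
  intro k m M hM hm
  have hI : ∀ i : ℕ, IPM M (rho m (RR (wl k i))) := fun i =>
    hRHC k m M hM hm _ (hRRB k (wl k i) []).1 (hRRB k (wl k i) []).2.1
  refine ⟨⟨?_, ?_, ?_, ?_, ?_, ?_⟩, ?_, ?_⟩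
  · have h1 : ContinuousOn (fun p : Om k × Om k => ∑' i, tm m p.1 p.2 i) (M ×ˢ M) := by
      refine continuousOn_tsum (u := fun i : ℕ => 1 / 2 * (1 / 2 : ℝ) ^ i) ?_ geo.summable ?_
      · intro i
        exact continuousOn_const.mul (hI i).cont
      · intro i p _
        rw [Real.norm_of_nonneg (tm_nonneg _ _ _ _)]
        exact tm_le _ _ _ _
    exact h1
  · intro n x hx y hy
    unfold dK
    exact tsum_congr fun i => by rw [(hI i).inv n x hx y hy]
  · intro x hx
    unfold dK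
    have : ∀ i : ℕ, (1 / 2 : ℝ) ^ (i + 2) * rho m (RR (wl k i)) x x = 0 := fun i => by
      rw [(hI i).self x hx, mul_zero]
    rw [tsum_congr this, tsum_zero]
  · intro x _ y _
    exact tsum_nonneg (tm_nonneg m x y)
  · intro x hx y hy
    unfold dK
    exact tsum_congr fun i => by rw [(hI i).symm x hx y hy]
  · intro x hx y hy z hz
    rw [dK_eq, dK_eq, dK_eq, ← (summ m x y).tsum_add (summ m y z)]
    refine (summ m x z).tsum_le_tsum (fun i => ?_) ((summ m x y).add (summ m y z))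
    unfold tm
    rw [← mul_add]
    exact mul_le_mul_of_nonneg_left ((hI i).tri x hx y hy z hz) (by positivity)
  · intro x y
    refine ⟨tsum_nonneg (tm_nonneg m x y), ?_⟩
    rw [dK_eq, ← geo.tsum_eq]
    exact (summ m x y).tsum_le_tsum (tm_le m x y) geo.summable
  · intro x y h L
    have h1 : tm m x y (Encodable.encode L) = 0 := by
      rw [dK_eq] at h
      refine le_antisymm ?_ (tm_nonneg _ _ _ _)
      rw [← h]
      exact (summ m x y).le_tsum _ fun j _ => tm_nonneg _ _ _ _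
    have h2 : wl k (Encodable.encode L) = L := by
      unfold wl
      rw [Encodable.encodek]
      rfl
    unfold tm at h1
    rw [h2] at h1
    rcases mul_eq_zero.1 h1 with h3 | h3
    · exact absurd h3 (by positivity)
    · exact h3

end Pool.Agent.Work.MP_69fea5_lc.N3
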