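import Pool.Agent.Work.MP_69fea5_lc.N3.StmtsA

/-!
# [69fea5 N3 DKU] universality of the pseudometric `dK`
-/

set_option autoImplicit false

namespace Pool.Agent.Work.MP_69fea5_lc.N3

open MeasureTheory Topology Set Filter ProbabilityTheory
open scoped NNReal ENNReal
open Pool.Agent.Work.MP_69fea5_lc.AK

namespace I_DKU

variable {k : ℕ}

/-- the relation `ρ a b ≤ ε` on `M` -/
def rel (M : Set (Om k)) (ρ : Om k → Om k → ℝ) (ε : ℝ) : Set (Om k × Om k) :=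
  (M ×ˢ M) ∩ (fun p : Om k × Om k => ρ p.1 p.2) ⁻¹' Set.Iic ε

theorem mem_rel (M : Set (Om k)) (ρ : Om k → Om k → ℝ) (ε : ℝ) (a b : Om k) :
    (a, b) ∈ rel M ρ ε ↔ (a ∈ M ∧ b ∈ M) ∧ ρ a b ≤ ε := by
  simp [rel]

theorem rel_closed (M : Set (Om k)) (ρ : Om k → Om k → ℝ) (ε : ℝ) (hM : IsClosed M)
    (h : IPM M ρ) : IsClosed (rel M ρ ε) :=
  h.cont.preimage_isClosed_of_isClosed (hM.prod hM) isClosed_Iic

theorem rel_inv (M : Set (Om k)) (ρ : Om k → Om k → ℝ) (ε : ℝ) (hM : AK.Inv M)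
    (h : IPM M ρ) : AK.Inv (rel M ρ ε) := by
  rintro n ⟨a, b⟩ hab
  rw [mem_rel] at hab
  rw [sh_prod, mem_rel]
  exact ⟨⟨hM n a hab.1.1, hM n b hab.1.2⟩, by rw [h.inv n a hab.1.1 b hab.1.2]; exact hab.2⟩

/-- the sections of `rel` have positive measure at the points of the support -/
theorem rel_pos (m : PM k) (M : Set (Om k)) (ρ : Om k → Om k → ℝ) (ε : ℝ) (hε : 0 < ε)
    (hMc : IsClosed M) (h : IPM M ρ) (hm1 : m M = 1) (z : Om k) (hz : z ∈ M) (hs : z ∈ supp m) :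
    0 < m {u | (z, u) ∈ rel M ρ ε} := by
  have hc : ContinuousWithinAt (fun u : Om k => ρ z u) M z := by
    have h1 : ContinuousWithinAt (fun p : Om k × Om k => ρ p.1 p.2) (M ×ˢ M) (z, z) :=
      h.cont (z, z) ⟨hz, hz⟩
    have h2 : ContinuousWithinAt (fun u : Om k => (z, u)) M z :=
      (by fun_prop : Continuous fun u : Om k => (z, u)).continuousWithinAt
    exact ContinuousWithinAt.comp (g := fun p : Om k × Om k => ρ p.1 p.2)
      (f := fun u : Om k => (z, u)) (t := M ×ˢ M) h1 h2 (fun u hu => ⟨hz, hu⟩)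
  have hev : ∀ᶠ u in 𝓝[M] z, ρ z u < ε := by
    have : ρ z z < ε := by rw [h.self z hz]; exact hε
    exact hc.eventually (gt_mem_nhds this)
  obtain ⟨U, hUo, hzU, hU⟩ := mem_nhdsWithin.mp hev
  have hpos : 0 < m U := hs U hUo hzU
  have hcompl : (m : Measure (Om k)) Mᶜ = 0 := by
    rw [prob_compl_eq_zero_iff hMc.measurableSet]
    have := congrArg (fun a : ℝ≥0 => (a : ℝ≥0∞)) hm1
    simpa using this
  have hle : (m : Measure (Om k)) U ≤ (m : Measure (Om k)) {u | (z, u) ∈ rel M ρ ε} := by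
    have hsub : U ⊆ {u | (z, u) ∈ rel M ρ ε} ∪ Mᶜ := by
      intro u hu
      by_cases huM : u ∈ M
      · left
        show (z, u) ∈ rel M ρ ε
        rw [mem_rel]
        exact ⟨⟨hz, huM⟩, le_of_lt (hU ⟨hu, huM⟩)⟩
      · right; exact huM
    calc (m : Measure (Om k)) U ≤ (m : Measure (Om k)) ({u | (z, u) ∈ rel M ρ ε} ∪ Mᶜ) :=
          measure_mono hsub
      _ ≤ (m : Measure (Om k)) {u | (z, u) ∈ rel M ρ ε} + (m : Measure (Om k)) Mᶜ :=
          measure_union_le _ _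
      _ = _ := by rw [hcompl, add_zero]
  have : m U ≤ m {u | (z, u) ∈ rel M ρ ε} := by
    rw [← ENNReal.coe_le_coe]
    simpa using hle
  exact lt_of_lt_of_le hpos this

end I_DKU

open I_DKU in
theorem DKU_pf (hCLR : S_CLR) (hRMC : S_RMC) (hDKB : S_DKB) (hSUP : AK.S_SUP) : S_DKU := by
  intro k m M hM hm hm1 ρ hρ x hx y hy hxy
  by_contra hne
  have hpos : 0 < ρ x y := lt_of_le_of_ne (hρ.nonneg x hx y hy) (Ne.symm hne)
  set ε : ℝ := ρ x y / 3 with hε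
  have hεp : 0 < ε := by positivity
  set R := rel M ρ ε with hR
  have hRc : IsClosed R := rel_closed M ρ ε hM.closed hρ
  have hRi : AK.Inv R := rel_inv M ρ ε hM.inv hρ
  obtain ⟨-, -, ⟨z, hz⟩, -, -, -, hsup, -⟩ := hSUP k m
  have hzM : z ∈ M := hsup M hM.closed hm1 hz
  have hα : 0 < m {u | (x, u) ∈ R} := by
    rw [hRMC k m M hM hm R hRc hRi x hx z hzM]
    exact rel_pos m M ρ ε hεp hM.closed hρ hm1 z hzM hz
  obtain ⟨L, hL1, hL2⟩ := hCLR k m R hRc hRi y (m {u | (x, u) ∈ R} : ℝ) (by exact_mod_cast hα)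
  have hrho := (hDKB k m M hM hm).2.2 x y hxy L
  have h0 : (m {u | (x, u) ∈ RR L ∧ (y, u) ∉ RR L} : ℝ) = 0 := by
    unfold rho at hrho
    have h1 : (0 : ℝ) ≤ (m {u | (x, u) ∈ RR L ∧ (y, u) ∉ RR L} : ℝ) := NNReal.coe_nonneg _
    have h2 : (0 : ℝ) ≤ (m {u | (y, u) ∈ RR L ∧ (x, u) ∉ RR L} : ℝ) := NNReal.coe_nonneg _
    linarith
  have hsub : {u | (x, u) ∈ R} ⊆ {u | (x, u) ∈ RR L ∧ (y, u) ∉ RR L} ∪
      {u | (y, u) ∈ RR L ∧ (y, u) ∉ R} := by
    intro u hu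
    have hxL : (x, u) ∈ RR L := hL1 hu
    by_cases hyL : (y, u) ∈ RR L
    · right
      refine ⟨hyL, ?_⟩
      intro hyR
      have hu' : (x, u) ∈ R := hu
      rw [hR, mem_rel] at hu' hyR
      have h1 := hρ.tri x hx u hu'.1.2 y hy
      have h2 := hρ.symm y hy u hu'.1.2
      have h3 : ρ x y ≤ 2 * ε := by linarith [hu'.2, hyR.2]
      rw [hε] at h3
      linarith
    · left
      exact ⟨hxL, hyL⟩
  have hle : m {u | (x, u) ∈ R} ≤ m {u | (x, u) ∈ RR L ∧ (y, u) ∉ RR L} +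
      m {u | (y, u) ∈ RR L ∧ (y, u) ∉ R} := by
    calc m {u | (x, u) ∈ R} ≤ m ({u | (x, u) ∈ RR L ∧ (y, u) ∉ RR L} ∪
          {u | (y, u) ∈ RR L ∧ (y, u) ∉ R}) := m.apply_mono hsub
      _ ≤ _ := by
        rw [← ENNReal.coe_le_coe]
        push_cast
        simpa using measure_union_le (μ := (m : Measure (Om k))) _ _
  have hle' : (m {u | (x, u) ∈ R} : ℝ) ≤ (m {u | (x, u) ∈ RR L ∧ (y, u) ∉ RR L} : ℝ) +
      (m {u | (y, u) ∈ RR L ∧ (y, u) ∉ R} : ℝ) := by exact_mod_cast hle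
  rw [h0, zero_add] at hle'
  exact absurd hL2 (not_lt.mpr hle')

end Pool.Agent.Work.MP_69fea5_lc.N3
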