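import Pool.Agent.Work.MP_69fea5_lc.N3.StmtsH
import Pool.Agent.Work.MP_69fea5_lc.HK.Real

/-!
# Block [69fea5 N3], item EPC: the universal pseudometric along an orbit is coded
-/

set_option autoImplicit false

namespace Pool.Agent.Work.MP_69fea5_lc.N3

open MeasureTheory Topology Set Filter ProbabilityTheory
open scoped NNReal ENNReal
open Pool.Agent.Work.MP_69fea5_lc.AK
open Pool.Agent.Work.MP_69fea5_lc.HK (Cl DU Ar ArF ArR Dat Law LawC act near sc Pt oc Mn mr)

namespace I_EPC

open Pool.Agent.Work.MP_69fea5_lc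

theorem primrec_wl (k : ℕ) : Primrec (wl k) := by
  unfold wl
  exact Primrec.option_getD.comp Primrec.decode (Primrec.const [])

theorem rho_nonneg {k : ℕ} (m : PM k) (R : Set (Om k × Om k)) (x y : Om k) : 0 ≤ rho m R x y := by
  unfold rho
  exact add_nonneg NNReal.zero_le_coe NNReal.zero_le_coe

theorem rho_le {k : ℕ} (m : PM k) (R : Set (Om k × Om k)) (x y : Om k) : rho m R x y ≤ 2 := by
  unfold rho
  have h : ∀ A : Set (Om k), ((m A : ℝ≥0) : ℝ) ≤ 1 := fun A => by
    exact_mod_cast ProbabilityMeasure.apply_le_one m A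
  linarith [h {u | (x, u) ∈ R ∧ (y, u) ∉ R}, h {u | (y, u) ∈ R ∧ (x, u) ∉ R}]

theorem summ {k : ℕ} (m : PM k) (x y : Om k) :
    Summable fun i : ℕ => (1 / 2 : ℝ) ^ (i + 2) * rho m (RR (wl k i)) x y := by
  have h1 : Summable fun i : ℕ => (1 / 2 : ℝ) ^ i := summable_geometric_two
  refine Summable.of_nonneg_of_le (fun i => mul_nonneg (by positivity) (rho_nonneg _ _ _ _))
    (fun i => ?_) h1
  have := rho_le m (RR (wl k i)) x y
  have h0 := rho_nonneg m (RR (wl k i)) x y
  have hp : (0 : ℝ) < (1 / 2) ^ i := by positivity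
  rw [pow_add]
  nlinarith

end I_EPC

open I_EPC in
theorem EPC_pf (hRSC : S_RSC) : S_EPC := by
  intro S hS k g m hg hm
  have h := hRSC S hS k g m hg hm
  have h1 : ArR S fun q : ℤ × ℕ => rho m (RR (wl k q.2)) (sh q.1 g) g := by
    refine (ArR.sub' hS h (g := fun q : ℤ × ℕ => (wl k q.2, q.1, (0 : ℤ)))
      (ArF.of_primrec hS (((primrec_wl k).comp Primrec.snd).pair
        (Primrec.fst.pair (Primrec.const 0))))).congr fun q => ?_
    have e : sh (0 : ℤ) g = g := sh_zero g
    simp only [e]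
  unfold dK
  refine ArR.tsum hS (f := fun (n : ℤ) (i : ℕ) =>
    (1 / 2 : ℝ) ^ (i + 2) * rho m (RR (wl k i)) (sh n g) g) ?_ ?_ ?_
  · refine ArR.mul hS ?_ h1 ?_ ?_
    · exact ArR.half_pow hS (ArF.of_primrec hS (Primrec.nat_add.comp Primrec.snd (Primrec.const 2)))
    · intro q; positivity
    · intro q; exact rho_nonneg _ _ _ _
  · intro n i
    exact mul_nonneg (by positivity) (rho_nonneg _ _ _ _)
  · intro n
    exact summ m _ _

end Pool.Agent.Work.MP_69fea5_lc.N3
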