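import Pool.Agent.Work.MP_69fea5_lc.N3.StmtsB

/-!
# [69fea5 N3 FUL] an invariant measure on a minimal set has full support
-/

set_option autoImplicit false

namespace Pool.Agent.Work.MP_69fea5_lc.N3

open MeasureTheory Topology Set Filter ProbabilityTheory
open scoped NNReal ENNReal
open Pool.Agent.Work.MP_69fea5_lc.AK

namespace I_FUL

variable {k : ℕ}

/-- a point which is invariant under `sh 1` is invariant under all `sh n` -/
theorem sh_all {X : Type*} [TopologicalSpace X] [Sys X] (m : X) (h : sh 1 m = m) (n : ℤ) :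
    sh n m = m := by
  have hneg : sh (-1) m = m := by
    conv_lhs => rw [← h]
    rw [← sh_add]
    simp [sh_zero]
  induction n using Int.induction_on with
  | zero => exact sh_zero m
  | succ n ih => rw [sh_add, h, ih]
  | pred n ih =>
    have : (-(n : ℤ) - 1) = -(n : ℤ) + (-1) := by ring
    rw [this, sh_add, hneg, ih]

end I_FUL

open I_FUL in
theorem FUL_pf (hPMB : AK.S_PMB) : S_FUL := by
  intro k M K _ _ _ _ e π hm μ η hFr U hU hne
  obtain ⟨hPM1, -, -, -, -⟩ := hPMB k
  by_contra hcon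
  have h0 : μ U = 0 := by
    simpa using hcon
  -- all translates have measure zero
  have htr : ∀ n : ℤ, μ {z | sh n z ∈ U} = 0 := by
    intro n
    rw [← hPM1 μ n U hU.measurableSet, sh_all μ hFr.inv n, h0]
  have hW : μ (⋃ n : ℤ, {z : Om k | sh n z ∈ U}) = 0 := by
    have h1 : ∀ n : ℤ, (μ : Measure (Om k)) {z | sh n z ∈ U} = 0 := by
      intro n
      have h2 := htr n
      rw [← ProbabilityMeasure.ennreal_coeFn_eq_coeFn_toMeasure, h2]
      simp
    have h3 : (μ : Measure (Om k)) (⋃ n : ℤ, {z : Om k | sh n z ∈ U}) = 0 :=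
      measure_iUnion_null h1
    rw [← ProbabilityMeasure.ennreal_coeFn_eq_coeFn_toMeasure] at h3
    exact_mod_cast h3
  have hMW : M ⊆ ⋃ n : ℤ, {z : Om k | sh n z ∈ U} := by
    by_contra hnot
    obtain ⟨x, hxM, hxW⟩ := Set.not_subset.mp hnot
    have hcl : IsClosed (M ∩ (⋃ n : ℤ, {z : Om k | sh n z ∈ U})ᶜ) := by
      refine hFr.min.closed.inter ?_
      refine (isOpen_iUnion fun n => ?_).isClosed_compl
      exact hU.preimage (sh_cont n)
    have hinv : AK.Inv (M ∩ (⋃ n : ℤ, {z : Om k | sh n z ∈ U})ᶜ) := by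
      intro n y hy
      refine ⟨hFr.min.inv n y hy.1, ?_⟩
      intro hmem
      apply hy.2
      obtain ⟨m, hm'⟩ := mem_iUnion.mp hmem
      refine mem_iUnion.mpr ⟨m + n, ?_⟩
      simpa [sh_add] using hm'
    have heq := hFr.min.min _ hcl ⟨x, hxM, hxW⟩ hinv inter_subset_left
    obtain ⟨y, hyU, hyM⟩ := hne
    have hy2 : y ∈ M ∩ (⋃ n : ℤ, {z : Om k | sh n z ∈ U})ᶜ := by
      rw [heq]; exact hyM
    apply hy2.2
    refine mem_iUnion.mpr ⟨0, ?_⟩
    simpa [sh_zero] using hyU
  have h1 : μ M ≤ 0 := by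
    rw [← hW]
    exact ProbabilityMeasure.apply_mono μ hMW
  rw [hFr.one] at h1
  exact absurd h1 (by norm_num)

end Pool.Agent.Work.MP_69fea5_lc.N3
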