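import Pool.Agent.Work.MP_69fea5_lc.N3.StmtsB

/-!
# Block [69fea5 N3], item GDA: zones of blocked pairs accumulating at the base point
-/

set_option autoImplicit false

namespace Pool.Agent.Work.MP_69fea5_lc.N3

open MeasureTheory Topology Set Filter ProbabilityTheory
open scoped NNReal ENNReal
open Pool.Agent.Work.MP_69fea5_lc.AK

theorem GDA_pf (hZCL : S_ZCL) (hTH3 : S_TH3) (hGDT : S_GDT) : S_GDA := by
  intro k c M K _ _ _ _ e π hm μ η hF z hz r hacc
  obtain ⟨-, -, -, -, hval, -, hps⟩ := hTH3 k c M K e π hm μ η hF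
  set y₀ := ps c M e π hm η z with hy₀
  set O : Set (Cube Unit × Cube (Ix3 k)) :=
    {b | ∃ P : W2 k, Blk c hm η P r ∧ (0 : ℝ) < b.2 (P, P) 0} with hO
  have hOopen : IsOpen O := by
    have : O = ⋃ P : {P : W2 k // Blk c hm η P r},
        {b : Cube Unit × Cube (Ix3 k) | (0 : ℝ) < b.2 (P.1, P.1) 0} := by
      ext b
      simp only [hO, mem_ofPred_eq, mem_iUnion, Subtype.exists, exists_prop]
    rw [this]
    refine isOpen_iUnion fun P => ?_
    have hcont : Continuous fun b : Cube Unit × Cube (Ix3 k) => ((b.2 (P.1, P.1) 0 : ℝ)) :=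
      continuous_subtype_val.comp
        ((continuous_apply (0 : ℤ)).comp ((continuous_apply (P.1, P.1)).comp continuous_snd))
    exact isOpen_lt continuous_const hcont
  have hpsv : ∀ w ∈ M, ∀ P : W2 k, (((ps c M e π hm η w).2 (P, P) 0 : unitInterval) : ℝ) =
      (kap3 hm η (π w)).real (sec3 (N0 c M e π hm η P) w ∩ bx P 0) :=
    fun w hw P => hval w hw (P, P) 0
  have hmain := hGDT k c (Cube Unit × Cube (Ix3 k))
    ((fun w => (w, ps c M e π hm η w)) '' M) z y₀ O (Finset.univ.erase r) ?_ ?_ ?_ ?_ ?_ ?_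
  · have hfun : (fun n : ℕ => sh (n : ℤ) y₀ ∈ O) = hitA c hm η y₀ r := by
      funext n
      refine propext (exists_congr fun P => and_congr_right fun _ => ?_)
      show (0 : ℝ) < y₀.2 (P, P) (0 + (n : ℤ)) ↔ (0 : ℝ) < y₀.2 (P, P) (n : ℤ)
      rw [zero_add]
    rw [← hfun]
    exact hmain
  · rintro n _ ⟨w, hw, rfl⟩
    refine ⟨sh n w, hF.fr.min.inv n w hw, ?_⟩
    show (sh n w, ps c M e π hm η (sh n w)) = (sh n w, sh n (ps c M e π hm η w))
    rw [hps w hw n]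
  · exact ⟨z, hz.mem, rfl⟩
  · rintro _ ⟨w, hw, rfl⟩
    exact hz.ret w hw
  · rintro _ ⟨w, hw, rfl⟩ hwO
    exact ⟨O, hOopen.mem_nhds hwO, fun _ _ h => h⟩
  · rintro _ ⟨w, hw, rfl⟩ ⟨P, hP, hpos⟩
    have hpos' := hpos
    change (0 : ℝ) < (((ps c M e π hm η w).2 (P, P) 0 : unitInterval) : ℝ) at hpos'
    rw [hpsv w hw P] at hpos'
    have h0 := hZCL k c M K e π hm μ η hF P r hP.2.2 w hw hpos'
    exact Finset.mem_erase.2 ⟨h0, Finset.mem_univ _⟩
  · intro V hV
    obtain ⟨P, hP, v, hv, hvV, hpos⟩ := hacc V hV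
    refine ⟨(v, ps c M e π hm η v), ⟨v, hv, rfl⟩, hvV, P, hP, ?_⟩
    change (0 : ℝ) < (((ps c M e π hm η v).2 (P, P) 0 : unitInterval) : ℝ)
    rw [hpsv v hv P]
    exact hpos

end Pool.Agent.Work.MP_69fea5_lc.N3
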