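import Pool.Agent.Work.MP_69fea5_lc.N3.StmtsB

/-!
# Block [69fea5 N3], item WWP: the words at the level `L`
-/

set_option autoImplicit false

namespace Pool.Agent.Work.MP_69fea5_lc.N3

open MeasureTheory Topology Set Filter ProbabilityTheory
open scoped NNReal ENNReal
open Pool.Agent.Work.MP_69fea5_lc.AK

namespace I_WWP

variable {k : ℕ}

theorem nearC_nhds {I : Type} [Encodable I] (L : ℕ) (y₀ : Cube I) :
    ∀ᶠ y in 𝓝 y₀, nearC L y y₀ := by
  have hfi : {i : I | Encodable.encode i ≤ L}.Finite :=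
    Set.Finite.preimage Encodable.encode_injective.injOn (Set.finite_Iic L)
  have hft : {t : ℤ | |t| ≤ (L : ℤ)}.Finite := by
    refine (Set.finite_Icc (-(L : ℤ)) L).subset ?_
    intro t ht
    exact abs_le.mp ht
  have : ∀ᶠ y in 𝓝 y₀, ∀ i ∈ {i : I | Encodable.encode i ≤ L},
      ∀ t ∈ {t : ℤ | |t| ≤ (L : ℤ)}, |(y i t : ℝ) - y₀ i t| < 1 / ((L : ℝ) + 1) := by
    rw [Filter.eventually_all_finite hfi]
    intro i _
    rw [Filter.eventually_all_finite hft]
    intro t _
    have hc : Continuous fun y : Cube I => |(y i t : ℝ) - y₀ i t| := by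
      have h1 : Continuous fun y : Cube I => (y i t : ℝ) :=
        continuous_subtype_val.comp ((continuous_apply t).comp (continuous_apply i))
      exact (h1.sub continuous_const).abs
    have h0 : |(y₀ i t : ℝ) - y₀ i t| < 1 / ((L : ℝ) + 1) := by
      rw [sub_self, abs_zero]; positivity
    exact (hc.tendsto y₀).eventually (gt_mem_nhds h0)
  filter_upwards [this] with y hy
  intro i hi t ht
  exact hy i hi t ht

/-- the closed version -/
def cnear {I : Type} [Encodable I] (L : ℕ) (y y' : Cube I) : Prop :=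
  ∀ i : I, Encodable.encode i ≤ L → ∀ t : ℤ, |t| ≤ (L : ℤ) →
    |(y i t : ℝ) - y' i t| ≤ 1 / ((L : ℝ) + 1)

theorem cnear_closed {I : Type} [Encodable I] (L : ℕ) (y₀ : Cube I) :
    IsClosed {y : Cube I | cnear L y y₀} := by
  have : {y : Cube I | cnear L y y₀} = ⋂ (i : I) (_ : Encodable.encode i ≤ L) (t : ℤ)
      (_ : |t| ≤ (L : ℤ)), {y : Cube I | |(y i t : ℝ) - y₀ i t| ≤ 1 / ((L : ℝ) + 1)} := by
    ext y
    simp only [cnear, mem_iInter]
    rfl
  rw [this]
  refine isClosed_iInter fun i => isClosed_iInter fun _ => isClosed_iInter fun t =>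
    isClosed_iInter fun _ => ?_
  have hc : Continuous fun y : Cube I => |(y i t : ℝ) - y₀ i t| := by
    have h1 : Continuous fun y : Cube I => (y i t : ℝ) :=
      continuous_subtype_val.comp ((continuous_apply t).comp (continuous_apply i))
    exact (h1.sub continuous_const).abs
  exact isClosed_le hc continuous_const

theorem tendsto_of_cnear {I : Type} [Encodable I] (y₀ : Cube I) (y : ℕ → Cube I)
    (h : ∀ L, cnear L (y L) y₀) : Tendsto y atTop (𝓝 y₀) := by
  rw [tendsto_pi_nhds]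
  intro i
  rw [tendsto_pi_nhds]
  intro t
  rw [tendsto_subtype_rng]
  have h1 : Tendsto (fun L : ℕ => (1 : ℝ) / ((L : ℝ) + 1)) atTop (𝓝 0) :=
    tendsto_one_div_add_atTop_nhds_zero_nat
  rw [tendsto_iff_dist_tendsto_zero]
  refine squeeze_zero' (Eventually.of_forall fun L => dist_nonneg) ?_ h1
  filter_upwards [eventually_ge_atTop (max (Encodable.encode i) t.natAbs)] with L hL
  have hi : Encodable.encode i ≤ L := le_trans (le_max_left _ _) hL
  have ht : |t| ≤ (L : ℤ) := by
    have h2 := le_trans (le_max_right _ _) hL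
    rw [Int.abs_eq_natAbs]
    exact_mod_cast h2
  rw [Real.dist_eq]
  exact h L i hi t ht

theorem near_sub (y₀ : Cube Unit × Cube (Ix3 k)) (W : Set (Cube Unit × Cube (Ix3 k)))
    (hW : W ∈ 𝓝 y₀) : ∃ L : ℕ, ∀ y : Cube Unit × Cube (Ix3 k), cnear L y.1 y₀.1 →
      cnear L y.2 y₀.2 → y ∈ W := by
  by_contra hcon
  push Not at hcon
  choose y h1 h2 h3 using hcon
  have t1 := tendsto_of_cnear y₀.1 (fun L => (y L).1) h1
  have t2 := tendsto_of_cnear y₀.2 (fun L => (y L).2) h2
  have t : Tendsto y atTop (𝓝 y₀) := by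
    have := t1.prodMk_nhds t2
    simpa using this
  obtain ⟨L, hL⟩ := (t.eventually hW).exists
  exact h3 L hL

end I_WWP

open I_WWP in
theorem WWP_pf (h1 : S_TH3) (h2 : AK.S_ORB) (h3 : AK.S_CYL) : S_WWP := by
  intro k c M K _ _ _ _ e π hm μ η hfc z hz
  obtain ⟨-, -, -, -, -, hcont, hequi⟩ := h1 k c M K e π hm μ η hfc
  have hmin : MinSet M := hfc.fr.min
  obtain ⟨-, -, -, -, horb, -, -⟩ := h2 (Om k) z
  have hzM : orb z = M := horb M hmin hz
  obtain ⟨hclop, -, hself, -, hnh, -, -⟩ := h3 k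
  set y₀ := ps c M e π hm η z with hy₀
  refine ⟨?_, ?_, ?_⟩
  · intro W hW
    obtain ⟨L, hL⟩ := near_sub y₀ W hW
    refine ⟨L, ?_⟩
    intro P hP x hxM hxP
    have hclos : ps c M e π hm η x ∈
        closure {y : Cube Unit × Cube (Ix3 k) | near2 L y y₀} := by
      rw [mem_closure_iff_nhds]
      intro V hV
      have hcx : ContinuousWithinAt (ps c M e π hm η) M x := hcont x hxM
      have h4 := hcx hV
      rw [mem_map, mem_nhdsWithin] at h4
      obtain ⟨U, hUo, hxU, hUs⟩ := h4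
      have hxo : x ∈ orb z := by rw [hzM]; exact hxM
      have h5 := mem_closure_iff.mp hxo (U ∩ cyl P 0) (hUo.inter (hclop P 0).isOpen) ⟨hxU, hxP⟩
      obtain ⟨x', ⟨hx'U, hx'P⟩, ⟨i, rfl⟩⟩ := h5
      have hiM : sh i z ∈ M := hmin.inv i z hz
      refine ⟨ps c M e π hm η (sh i z), hUs ⟨hx'U, hiM⟩, ?_⟩
      change near2 L (ps c M e π hm η (sh i z)) y₀
      rw [hequi z hz i]
      exact hP i hx'P
    have hsub : {y : Cube Unit × Cube (Ix3 k) | near2 L y y₀} ⊆
        {y | cnear L y.1 y₀.1 ∧ cnear L y.2 y₀.2} := by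
      intro y hy
      exact ⟨fun i hi t ht => (hy.1 i hi t ht).le, fun i hi t ht => (hy.2 i hi t ht).le⟩
    have hcl : IsClosed {y : Cube Unit × Cube (Ix3 k) | cnear L y.1 y₀.1 ∧
        cnear L y.2 y₀.2} :=
      ((cnear_closed L y₀.1).preimage continuous_fst).inter
        ((cnear_closed L y₀.2).preimage continuous_snd)
    have h6 := closure_minimal hsub hcl hclos
    exact hL _ h6.1 h6.2
  · intro L
    have hWn : {y : Cube Unit × Cube (Ix3 k) | near2 L y y₀} ∈ 𝓝 y₀ := by
      have a1 : ∀ᶠ y in 𝓝 y₀, nearC L y.1 y₀.1 :=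
        (continuous_fst.tendsto y₀).eventually (nearC_nhds L y₀.1)
      have a2 : ∀ᶠ y in 𝓝 y₀, nearC L y.2 y₀.2 :=
        (continuous_snd.tendsto y₀).eventually (nearC_nhds L y₀.2)
      exact a1.and a2
    refine ⟨interior {y : Cube Unit × Cube (Ix3 k) | near2 L y y₀},
      interior_mem_nhds.mpr hWn, ?_⟩
    intro x hxM hx
    have hcx : ContinuousWithinAt (ps c M e π hm η) M x := hcont x hxM
    have h4 := hcx (isOpen_interior.mem_nhds hx)
    rw [mem_map, mem_nhdsWithin] at h4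
    obtain ⟨U, hUo, hxU, hUs⟩ := h4
    obtain ⟨L₀, hL₀⟩ := hnh x U (hUo.mem_nhds hxU)
    refine ⟨L₀, ?_⟩
    intro i hi
    have hiM : sh i z ∈ M := hmin.inv i z hz
    have h5 := hUs ⟨hL₀ L₀ le_rfl hi, hiM⟩
    have h7 : ps c M e π hm η (sh i z) ∈
        {y : Cube Unit × Cube (Ix3 k) | near2 L y y₀} := interior_subset h5
    have h6 : near2 L (ps c M e π hm η (sh i z)) y₀ := h7
    rw [hequi z hz i] at h6
    exact h6
  · intro L P P' hP hsub i hi
    exact hP i (hsub hi)

end Pool.Agent.Work.MP_69fea5_lc.N3
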