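import Pool.Agent.Work.MP_69fea5_lc.N3.StmtsB
import Pool.Agent.Work.MP_69fea5_lc.N3.I_WWP

/-!
# Block [69fea5 N3], item GDB: zones of the second kind give `GOOD`
-/

set_option autoImplicit false

namespace Pool.Agent.Work.MP_69fea5_lc.N3

open MeasureTheory Topology Set Filter ProbabilityTheory
open scoped NNReal ENNReal
open Pool.Agent.Work.MP_69fea5_lc.AK

namespace I_GDB

variable {k : ℕ}

/-- the middle letter of a centred word -/
theorem mid_wordOf (z : Om k) (L : ℕ) : mid (wordOf z L) = some (z 0) := by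
  unfold mid wordOf
  rw [List.length_ofFn]
  have h : (2 * L + 1) / 2 = L := by omega
  rw [h, List.getElem?_ofFn]
  simp
  omega

theorem near2_nhds (L : ℕ) (y₀ : Cube Unit × Cube (Ix3 k)) : ∀ᶠ y in 𝓝 y₀, near2 L y y₀ := by
  have a1 : ∀ᶠ y in 𝓝 y₀, nearC L y.1 y₀.1 :=
    (continuous_fst.tendsto y₀).eventually (I_WWP.nearC_nhds L y₀.1)
  have a2 : ∀ᶠ y in 𝓝 y₀, nearC L y.2 y₀.2 :=
    (continuous_snd.tendsto y₀).eventually (I_WWP.nearC_nhds L y₀.2)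
  exact a1.and a2

theorem nearC_open {I : Type} [Encodable I] (L : ℕ) (y₀ : Cube I) :
    IsOpen {y : Cube I | nearC L y y₀} := by
  have hfi : {i : I | Encodable.encode i ≤ L}.Finite :=
    Set.Finite.preimage Encodable.encode_injective.injOn (Set.finite_Iic L)
  have hft : {t : ℤ | |t| ≤ (L : ℤ)}.Finite := by
    refine (Set.finite_Icc (-(L : ℤ)) L).subset ?_
    intro t ht
    exact abs_le.mp ht
  have : {y : Cube I | nearC L y y₀} = ⋂ i ∈ {i : I | Encodable.encode i ≤ L},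
      ⋂ t ∈ {t : ℤ | |t| ≤ (L : ℤ)}, {y : Cube I | |(y i t : ℝ) - y₀ i t| < 1 / ((L : ℝ) + 1)} := by
    ext y
    simp only [nearC, mem_iInter]
    rfl
  rw [this]
  refine hfi.isOpen_biInter fun i _ => hft.isOpen_biInter fun t _ => ?_
  have hc : Continuous fun y : Cube I => |(y i t : ℝ) - y₀ i t| := by
    have h1 : Continuous fun y : Cube I => (y i t : ℝ) :=
      continuous_subtype_val.comp ((continuous_apply t).comp (continuous_apply i))
    exact (h1.sub continuous_const).abs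
  exact isOpen_lt hc continuous_const

theorem near2_open (L : ℕ) (y₀ : Cube Unit × Cube (Ix3 k)) :
    IsOpen {y : Cube Unit × Cube (Ix3 k) | near2 L y y₀} :=
  ((nearC_open L y₀.1).preimage continuous_fst).inter
    ((nearC_open L y₀.2).preimage continuous_snd)

theorem nearM_open (hPMB : AK.S_PMB) (hCYL : AK.S_CYL) (L : ℕ) (m₁ : PM k) :
    IsOpen {m : PM k | nearM L m m₁} := by
  have hfi : {w : Wd k | Encodable.encode w ≤ L}.Finite :=
    Set.Finite.preimage Encodable.encode_injective.injOn (Set.finite_Iic L)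
  have : {m : PM k | nearM L m m₁} = ⋂ w ∈ {w : Wd k | Encodable.encode w ≤ L},
      {m : PM k | |((m (cyl w 0) : ℝ≥0) : ℝ) - m₁ (cyl w 0)| < 1 / ((L : ℝ) + 1)} := by
    ext m
    simp only [nearM, mem_iInter]
    rfl
  rw [this]
  refine hfi.isOpen_biInter fun w _ => ?_
  have hc : Continuous fun m : PM k => ((m (cyl w 0) : ℝ≥0) : ℝ) :=
    NNReal.continuous_coe.comp ((hPMB k).2.2.1 _ ((hCYL k).1 w 0))
  exact isOpen_lt (hc.sub continuous_const).abs continuous_const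

theorem nearM_self (L : ℕ) (m : PM k) : nearM L m m := by
  intro w _
  rw [sub_self, abs_zero]
  positivity

/-- the neighbourhoods of a measure in terms of words -/
theorem nearM_basis (hPMB : AK.S_PMB) (m₁ : PM k) {O : Set (PM k)} (hO : O ∈ 𝓝 m₁) :
    ∃ L : ℕ, ∀ m : PM k, nearM L m m₁ → m ∈ O := by
  by_contra hcon
  push Not at hcon
  choose m h1 h2 using hcon
  have hlim : Tendsto m atTop (𝓝 m₁) := by
    refine (hPMB k).2.2.2.2 m₁ (map m atTop) fun w => ?_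
    rw [tendsto_map'_iff]
    have h0 : Tendsto (fun L : ℕ => (1 : ℝ) / ((L : ℝ) + 1)) atTop (𝓝 0) :=
      tendsto_one_div_add_atTop_nhds_zero_nat
    rw [← NNReal.tendsto_coe, tendsto_iff_dist_tendsto_zero]
    refine squeeze_zero' (Eventually.of_forall fun L => dist_nonneg) ?_ h0
    filter_upwards [eventually_ge_atTop (Encodable.encode w)] with L hL
    rw [Real.dist_eq]
    exact (h1 L w hL).le
  obtain ⟨L, hL⟩ := (hlim.eventually hO).exists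
  exact h2 L hL

/-- the zone -/
def OO (m0 : PM k) (y₀ : Cube Unit × Cube (Ix3 k)) (L₁ : ℕ) (Z : Set (Wd k)) :
    Set (PM k × (Cube Unit × Cube (Ix3 k))) :=
  {b | near2 L₁ b.2 y₀ ∧ ∃ O₁ ∈ 𝓝 b.1, ∀ m' ∈ orb m0 ∩ O₁, ∀ P ∈ Z, m' (cyl P 0) = 0}

theorem OO_open (m0 : PM k) (y₀ : Cube Unit × Cube (Ix3 k)) (L₁ : ℕ) (Z : Set (Wd k)) :
    IsOpen (OO m0 y₀ L₁ Z) := by
  rw [isOpen_iff_mem_nhds]
  rintro b ⟨hb, O₁, hO₁, hz⟩
  have h1 : ∀ᶠ b' in 𝓝 b, near2 L₁ b'.2 y₀ :=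
    (continuous_snd.tendsto b).eventually ((near2_open L₁ y₀).mem_nhds hb)
  have h2 : ∀ᶠ b' in 𝓝 b, O₁ ∈ 𝓝 b'.1 :=
    (continuous_fst.tendsto b).eventually (eventually_mem_nhds_iff.2 hO₁)
  filter_upwards [h1, h2] with b' hb1 hb2
  exact ⟨hb1, O₁, hb2, hz⟩

end I_GDB

open I_GDB in
/-- [GDB] zones of the second kind give `GOOD`. -/
theorem GDB_pf (hGDT : S_GDT) (hMTC : S_MTC) (hWWP : S_WWP) (hTH3 : S_TH3) (hPMB : AK.S_PMB)
    (hCYL : AK.S_CYL) (hSUP : AK.S_SUP) (hSTG : AK.S_STG) : S_GDB := by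
  intro k c M K _ _ _ _ e π hm μ η hfc m0 hsm z hzs L₀ r hacc
  set y₀ : Cube Unit × Cube (Ix3 k) := ps c M e π hm η z with hy₀
  obtain ⟨-, -, -, -, -, hcont, hequi⟩ := hTH3 k c M K e π hm μ η hfc
  obtain ⟨hclop, -, hself, -, -, -, -⟩ := hCYL k
  obtain ⟨hBp, hret⟩ := hMTC k c M K e π hm μ η hfc m0 hsm z hzs
  have hzM : z ∈ M := hBp.mem
  obtain ⟨-, hW2, -⟩ := hWWP k c M K e π hm μ η hfc z hzM
  obtain ⟨W, hW, hWs⟩ := hW2 L₀
  obtain ⟨L₁, hL₁⟩ := I_WWP.near_sub y₀ W hW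
  obtain ⟨-, -, -, hsuppMM, -⟩ := hSTG k c m0 Finset.univ hsm.stg
  have hsupz : z ∈ supp m0 := by
    rw [← (hSUP k m0).1.closure_eq, mem_closure_iff_nhds]
    intro U hU
    obtain ⟨x, -, -, g, hg, -⟩ := hzs U hU univ univ_mem 0
    exact ⟨g, hg.2, hg.1⟩
  have hm0 : m0 ∈ orb m0 := subset_closure ⟨0, sh_zero m0⟩
  have horb : ∀ n : ℤ, sh n m0 ∈ orb m0 := fun n => subset_closure ⟨n, rfl⟩
  set Z : Set (Wd k) := {P | P ∈ WW y₀ z L₀ ∧ mid P = some r} with hZ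
  refine ⟨L₁, ?_⟩
  have key : GOOD c (Finset.univ.erase r)
      (fun n : ℕ => sh (n : ℤ) ((m0, y₀) : PM k × (Cube Unit × Cube (Ix3 k))) ∈
        OO m0 y₀ L₁ Z) := by
    refine hGDT k c (PM k × (Cube Unit × Cube (Ix3 k)))
      {p | (p.1, p.2.1) ∈ MM m0 ∧ p.2.2 = ps c M e π hm η p.1} z (m0, y₀) (OO m0 y₀ L₁ Z)
      (Finset.univ.erase r) ?_ ?_ ?_ ?_ ?_ ?_
    · -- invariance
      rintro n ⟨w, m, y⟩ ⟨h1, h2⟩
      refine ⟨hsm.stg.min.inv n _ h1, ?_⟩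
      change sh n y = ps c M e π hm η (sh n w)
      rw [hequi w (hsm.onM _ h1).1 n]
      exact congrArg _ h2
    · exact ⟨hsuppMM m0 hm0 z hsupz, rfl⟩
    · rintro ⟨w, m, y⟩ ⟨h1, h2⟩
      have h3 := hret (w, m) h1
      have h4 : y = ps c M e π hm η w := h2
      rw [h4]
      exact h3
    · intro p _ hpO
      exact ⟨_, (OO_open m0 y₀ L₁ Z).mem_nhds hpO, fun p' _ hp' => hp'⟩
    · -- the colour
      rintro ⟨w, m, y⟩ ⟨h1, h2⟩ ⟨hn, O₁, hO₁, hz0⟩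
      rw [Finset.mem_erase]
      refine ⟨fun hw0 => ?_, Finset.mem_univ _⟩
      have h4 : y = ps c M e π hm η w := h2
      have hwM : w ∈ M := (hsm.onM _ h1).1
      have h5 : ps c M e π hm η w ∈ W := by
        rw [← h4]
        exact hL₁ y (fun i hi t ht => (hn.1 i hi t ht).le) (fun i hi t ht => (hn.2 i hi t ht).le)
      obtain ⟨L', hL'⟩ := hWs w hwM h5
      have hmid : mid (wordOf w L') = some r := by
        rw [mid_wordOf]
        exact congrArg some hw0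
      have h6 : (cyl (wordOf w L') 0 ×ˢ O₁ : Set (Om k × PM k)) ∈ 𝓝 ((w, m) : Om k × PM k) :=
        prod_mem_nhds ((hclop _ 0).isOpen.mem_nhds (hself w L')) hO₁
      obtain ⟨q, hq, n, z', hz', rfl⟩ := mem_closure_iff_nhds.1 h1 _ h6
      have h7 : 0 < (sh n m0) (cyl (wordOf w L') 0) :=
        (hSUP k m0).2.2.2.2.1 n z' hz' _ (hclop _ 0).isOpen hq.1
      exact h7.ne' (hz0 _ ⟨horb n, hq.2⟩ _ ⟨hL', hmid⟩)
    · -- accumulation
      intro V hV
      obtain ⟨V₁, hV₁, V₂, hV₂, hVs⟩ := mem_nhds_prod_iff.1 hV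
      have h1 : ∀ᶠ w in 𝓝[M] z, ps c M e π hm η w ∈ V₂ ∩ {y | near2 L₁ y y₀} :=
        (hcont z hzM) (inter_mem hV₂ (near2_nhds L₁ y₀))
      rw [eventually_nhdsWithin_iff] at h1
      have h2 := (hSUP k m0).2.2.2.2.2.2.2 z hsupz _ h1
      obtain ⟨m₁, ⟨hm₁, hm₁'⟩, O₁, hO₁, hz0⟩ := hacc _ (inter_mem hV₁ h2)
      obtain ⟨w, hw1, hw2⟩ := hm₁'.2
      have h3 : (w, m₁) ∈ MM m0 := hsuppMM m₁ hm₁ w hw2
      have h4 := hw1 (hsm.onM _ h3).1
      exact ⟨(w, (m₁, ps c M e π hm η w)), ⟨h3, rfl⟩, hVs ⟨hm₁'.1, h4.1⟩, h4.2, O₁, hO₁,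
        fun m' hm' P hP => hz0 m' hm' P hP.1 hP.2⟩
  have heq : (fun n : ℕ => sh (n : ℤ) ((m0, y₀) : PM k × (Cube Unit × Cube (Ix3 k))) ∈
      OO m0 y₀ L₁ Z) = hitB m0 y₀ z L₀ L₁ r := by
    funext n
    apply propext
    constructor
    · rintro ⟨hn, O₁, hO₁, hz0⟩
      obtain ⟨L, hL⟩ := nearM_basis hPMB (sh (n : ℤ) m0) hO₁
      exact ⟨hn, L, fun j hj P hP hmid => hz0 _ ⟨horb j, hL _ hj⟩ P ⟨hP, hmid⟩⟩
    · rintro ⟨hn, L, hL⟩
      refine ⟨hn, {m | nearM L m (sh (n : ℤ) m0)},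
        (nearM_open hPMB hCYL L _).mem_nhds (nearM_self L _), ?_⟩
      rintro m' ⟨hm', hnear⟩ P ⟨hP, hmid⟩
      have hcl : IsClosed {m : PM k | m (cyl P 0) = 0} :=
        isClosed_singleton.preimage ((hPMB k).2.2.1 _ (hclop P 0))
      have h1 : m' ∈ closure ({m | nearM L m (sh (n : ℤ) m0)} ∩ range fun j : ℤ => sh j m0) :=
        (nearM_open hPMB hCYL L _).inter_closure ⟨hnear, hm'⟩
      refine closure_minimal ?_ hcl h1
      rintro _ ⟨hq, j, rfl⟩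
      exact hL j hq P hP hmid
  rw [← heq]
  exact key

end Pool.Agent.Work.MP_69fea5_lc.N3
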