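import Pool.Agent.Work.MP_69fea5_lc.N3.StmtsH2

/-!
# Block [69fea5 N3], item HAC: the first kind of zones is recognised
-/

set_option autoImplicit false

namespace Pool.Agent.Work.MP_69fea5_lc.N3

open MeasureTheory Topology Set Filter ProbabilityTheory
open scoped NNReal ENNReal
open Pool.Agent.Work.MP_69fea5_lc.AK
open Pool.Agent.Work.MP_69fea5_lc.HK (Cl DU Ar ArF ArR Dat Law LawC act near sc Pt oc Mn mr ext)

namespace I_HAC

theorem primrec_mid (k : ℕ) : Primrec (mid : Wd k → Option (Fin k)) :=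
  Primrec.list_getElem?.comp Primrec.id
    (Primrec.nat_div.comp Primrec.list_length (Primrec.const 2))

end I_HAC

open I_HAC in
theorem HAC_pf (hSTC : S_STC) : S_HAC := by
  intro S hS k c K _ _ _ _ hm η _ y₀ r hc hν hy
  have hBl := (hSTC S hS k c (kap1 hm η 0) hc hν).2
  have hy1 : ArR S fun p : Unit × (Ix3 k) × ℤ => (y₀.2 p.2.1 p.2.2 : ℝ) := hy
  unfold hitA Blk
  refine Ar.ex hS (R := fun (n : ℕ) (P : W2 k) => (mid P.1 = some r ∧ mid P.2 = some r ∧
    Bl3 c (kap1 hm η 0) P r) ∧ (0 : ℝ) < y₀.2 (P, P) n) ?_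
  refine Ar.and hS (Ar.and hS ?_ (Ar.and hS ?_ ?_)) ?_
  · exact Ar.eq hS (ArF.of_primrec hS ((primrec_mid k).comp (Primrec.fst.comp Primrec.snd)))
      (ArF.const hS (some r))
  · exact Ar.eq hS (ArF.of_primrec hS ((primrec_mid k).comp (Primrec.snd.comp Primrec.snd)))
      (ArF.const hS (some r))
  · exact Ar.comp hS hBl (f := fun p : ℕ × W2 k => (p.2, r)) (Primrec.snd.pair (Primrec.const r))
  · refine ArR.rlt hS (ArR.zero hS) ?_ (fun _ => le_rfl)
    refine ArR.sub hS hy1 (g := fun p : ℕ × W2 k => ((), (p.2, p.2), ((p.1 : ℕ) : ℤ))) ?_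
    refine (ArF.const hS ()).pair hS (ArF.pair hS ?_ ((ArF.fst hS).natCast hS))
    exact ArF.of_primrec hS (Primrec.snd.pair Primrec.snd)

end Pool.Agent.Work.MP_69fea5_lc.N3
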