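import Pool.Agent.Work.MP_69fea5_lc.N3.StmtsH2
import Pool.Agent.Work.MP_69fea5_lc.HK.InstPM

/-!
# Block [69fea5 N3], part H, item HBC: the second kind of zones is recognised on the orbit
-/

set_option autoImplicit false

namespace Pool.Agent.Work.MP_69fea5_lc.N3

open MeasureTheory Topology Set Filter ProbabilityTheory
open scoped NNReal ENNReal
open Pool.Agent.Work.MP_69fea5_lc.AK
open Pool.Agent.Work.MP_69fea5_lc.HK (Cl DU Ar ArF ArR Dat Law LawC act near sc Pt oc Mn mr)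

namespace I_HBC

variable {k : ℕ}

theorem arr (hCYSC : KC.S_CYSC) {S : Set (Set ℕ)} (hS : Cl S) (m0 : PM k) (hm : Pt S m0) :
    ArR S fun p : ℤ × Wd k => mr (sh p.1 m0 : PM k) (AK.cyl p.2 0) := by
  have h1 : sc S (fun p : Unit × ℤ => act p.2 (show HK.PM k from m0)) :=
    LawC.sc_act S Unit (fun _ => (show HK.PM k from m0)) hS hm
  have h2 := hCYSC S hS k (Unit × ℤ) (fun p => (sh p.2 m0 : PM k)) h1
  exact ArR.comp hS h2 (g := fun p : ℤ × Wd k => (((), p.1), p.2, (0 : ℤ)))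
    (((Primrec.const ()).pair Primrec.fst).pair (Primrec.snd.pair (Primrec.const 0)))

theorem zero_iff (m : PM k) (A : Set (Om k)) : m A = 0 ↔ ¬ (0 : ℝ) < mr m A := by
  have h : mr m A = ((m A : NNReal) : ℝ) := rfl
  rw [h, NNReal.coe_pos, not_lt, nonpos_iff_eq_zero]

theorem nonneg (m : PM k) (A : Set (Om k)) : 0 ≤ mr m A := measureReal_nonneg

theorem nearM_ar {S : Set (Set ℕ)} (hS : Cl S) (m0 : PM k)
    (hA : ArR S fun p : ℤ × Wd k => mr (sh p.1 m0 : PM k) (AK.cyl p.2 0)) :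
    Ar S fun p : (ℕ × ℕ) × ℤ => nearM p.1.2 (sh p.2 m0) (sh (p.1.1 : ℤ) m0) := by
  have e : ∀ p : (ℕ × ℕ) × ℤ, nearM p.1.2 (sh p.2 m0) (sh (p.1.1 : ℤ) m0) ↔
      ∀ w : Wd k, Encodable.encode w ≤ p.1.2 →
        |mr (sh p.2 m0 : PM k) (AK.cyl w 0) - mr (sh (p.1.1 : ℤ) m0 : PM k) (AK.cyl w 0)| <
          1 / (p.1.2 + 1) := fun p => Iff.rfl
  refine Ar.congr ?_ e
  refine Ar.all hS (R := fun (p : (ℕ × ℕ) × ℤ) (w : Wd k) => Encodable.encode w ≤ p.1.2 →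
    |mr (sh p.2 m0 : PM k) (AK.cyl w 0) - mr (sh (p.1.1 : ℤ) m0 : PM k) (AK.cyl w 0)| <
      1 / (p.1.2 + 1)) ?_
  refine Ar.imp hS (Ar.prim hS (Primrec.nat_le.comp (Primrec.encode.comp Primrec.snd)
    (Primrec.snd.comp (Primrec.fst.comp Primrec.fst)))) ?_
  have h1 : ArR S fun q : ((ℕ × ℕ) × ℤ) × Wd k => mr (sh q.1.2 m0 : PM k) (AK.cyl q.2 0) :=
    ArR.comp hS hA (g := fun q : ((ℕ × ℕ) × ℤ) × Wd k => (q.1.2, q.2))
      ((Primrec.snd.comp Primrec.fst).pair Primrec.snd)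
  have h2 : ArR S fun q : ((ℕ × ℕ) × ℤ) × Wd k =>
      mr (sh (q.1.1.1 : ℤ) m0 : PM k) (AK.cyl q.2 0) :=
    ArR.comp hS hA (g := fun q : ((ℕ × ℕ) × ℤ) × Wd k => ((q.1.1.1 : ℤ), q.2))
      ((HK.primrec_natCast.comp (Primrec.fst.comp (Primrec.fst.comp Primrec.fst))).pair
        Primrec.snd)
  have h3 : ArR S fun q : ((ℕ × ℕ) × ℤ) × Wd k => (1 : ℝ) / (q.1.1.2 + 1) :=
    (ArR.rat hS (ArF.const hS 1) (ArF.of_primrec hS
      (Primrec.snd.comp (Primrec.fst.comp Primrec.fst)))).congr fun q => by simp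
  exact ArR.rlt hS (ArR.absd hS h1 h2 (fun q => nonneg _ _) (fun q => nonneg _ _)) h3
    (fun q => abs_nonneg _)

end I_HBC

open I_HBC in
theorem HBC_pf (hWWC : S_WWC) (hCYSC : KC.S_CYSC) : S_HBC := by
  intro S hS k m0 y₀ z L₀ L₁ r hm hy1 hy2 hz
  obtain ⟨hN, hW⟩ := hWWC S hS k y₀ z hy1 hy2 hz
  have hA := arr hCYSC hS m0 hm
  unfold hitB
  refine Ar.and hS ?_ ?_
  · exact hN.comp hS (f := fun n : ℕ => (L₁, (n : ℤ)))
      ((Primrec.const L₁).pair HK.primrec_natCast)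
  · refine Ar.ex hS (R := fun (n : ℕ) (L : ℕ) => ∀ j : ℤ,
      nearM L (sh j m0) (sh (n : ℤ) m0) →
        ∀ P ∈ WW y₀ z L₀, mid P = some r → (sh j m0) (AK.cyl P 0) = 0) ?_
    refine Ar.all hS (R := fun (p : ℕ × ℕ) (j : ℤ) =>
      nearM p.2 (sh j m0) (sh (p.1 : ℤ) m0) →
        ∀ P ∈ WW y₀ z L₀, mid P = some r → (sh j m0) (AK.cyl P 0) = 0) ?_
    refine Ar.imp hS (nearM_ar hS m0 hA) ?_
    refine Ar.all hS (R := fun (q : (ℕ × ℕ) × ℤ) (P : Wd k) => P ∈ WW y₀ z L₀ →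
      mid P = some r → (sh q.2 m0) (AK.cyl P 0) = 0) ?_
    refine Ar.imp hS ?_ (Ar.imp hS ?_ ?_)
    · exact hW.comp hS (f := fun q : ((ℕ × ℕ) × ℤ) × Wd k => (q.2, L₀))
        (Primrec.snd.pair (Primrec.const L₀))
    · exact Ar.eq hS (ArF.of_primrec hS (f := fun q : ((ℕ × ℕ) × ℤ) × Wd k => mid q.2)
        (Primrec.list_getElem?.comp Primrec.snd
          (Primrec.nat_div.comp (Primrec.list_length.comp Primrec.snd) (Primrec.const 2))))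
        (ArF.const hS (some r))
    · refine Ar.congr (R := fun q : ((ℕ × ℕ) × ℤ) × Wd k =>
        ¬ (0 : ℝ) < mr (sh q.1.2 m0 : PM k) (AK.cyl q.2 0)) ?_ fun q => zero_iff _ _
      refine Ar.not hS (ArR.rlt hS (ArR.zero hS) ?_ (fun _ => le_rfl))
      exact ArR.comp hS hA (g := fun q : ((ℕ × ℕ) × ℤ) × Wd k => (q.1.2, q.2))
        ((Primrec.snd.comp Primrec.fst).pair Primrec.snd)

end Pool.Agent.Work.MP_69fea5_lc.N3
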