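import Pool.Agent.Work.MP_69fea5_lc.N3.StmtsA

/-!
# Block [69fea5 N3]: item HHD

If the cube function at `(v, v, v, v')` is the same as at `(v, v, v, v)` then `v` and `v'` are at
`dd3`-distance zero.
-/

set_option autoImplicit false

namespace Pool.Agent.Work.MP_69fea5_lc.N3

open MeasureTheory Topology Set Filter ProbabilityTheory
open scoped NNReal ENNReal
open Pool.Agent.Work.MP_69fea5_lc.AK

namespace I_HHD

variable {k : ℕ}

theorem meas_sec3 (N : Set (Om k × Om k × Om k)) (hN : IsClosed N) (v : Om k) :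
    MeasurableSet (sec3 N v) := by
  have : sec3 N v = (fun p : Om k × Om k => (p.1, p.2, v)) ⁻¹' N := rfl
  rw [this]
  exact (hN.preimage (by fun_prop)).measurableSet

theorem mem_HD {M : Set (Om k)} {K : Type} [NormedAddCommGroup K] (π : Om k → K) {x : Om k}
    (hx : x ∈ M) : (((x, x), (x, x), (0 : K)) : (Om k × Om k) × (Om k × Om k) × K) ∈ HD M π :=
  ⟨hx, hx, hx, hx, by simp, by simp⟩

end I_HHD

open I_HHD in
theorem HHD_pf (h1 : S_BOX) (h2 : S_HHC) (h3 : S_HHI) (h4 : S_KPB) (h5 : AK.S_CST) : S_HHD := by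
  intro k M K _ _ _ _ e π hm μ η h N hN v hv v' hv' hπ hH
  have := h.prob
  have := h.haar
  have := h.dis.markov
  have hc : HH hm η π N v v v v 0 = HH hm η π N v' v' v' v' 0 := by
    refine h5 (Om k) M (fun x => HH hm η π N x x x x 0) h.min ?_ ?_ v hv v' hv'
    · intro n x hx
      exact (h3 k M K e π hm μ η h N hN).1 ((x, x), (x, x), 0) (mem_HD π hx) n
    · intro a
      have hf : ContinuousOn (fun x => HH hm η π N x x x x 0) M := by
        have hg : ContinuousOn (fun x : Om k =>
            (((x, x), (x, x), (0 : K)) : (Om k × Om k) × (Om k × Om k) × K)) M :=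
          Continuous.continuousOn (by fun_prop)
        exact (h2 k M K e π hm μ η h N hN).comp hg (fun x hx => mem_HD π hx)
      exact hf.preimage_isClosed_of_isClosed h.min.closed isClosed_Ici
  have hme : Measurable (fun a : K => a + a - π v) := by fun_prop
  have hs := meas_sec3 N hN.closed v
  have hs' := meas_sec3 N hN.closed v'
  have key := h1 K (Om k) (Om k) hm (η.comap (fun a : K => a + a - π v) hme) η (sec3 N v)
    (sec3 N v') hs hs'
  have hq : ∀ x00 x01 x10 x11 : Om k, π x00 = π v → π x10 = π v →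
      HH hm η π N x00 x01 x10 x11 0 =
      ∫ a, ((((η.comap (fun a : K => a + a - π v) hme) a).prod
        ((η.comap (fun a : K => a + a - π v) hme) a)).prod ((η a).prod (η a))).real
      {q | (q.1.1, q.2.1) ∈ sec3 N x00 ∧ (q.1.1, q.2.2) ∈ sec3 N x01 ∧
        (q.1.2, q.2.1) ∈ sec3 N x10 ∧ (q.1.2, q.2.2) ∈ sec3 N x11} ∂hm := by
    intro x00 x01 x10 x11 e1 e2
    unfold HH qm
    rw [e1, e2]
    simp only [add_zero, Kernel.comap_apply]
    rfl
  have k0 := key
    ((hq v v v v rfl rfl).symm.trans (hH.symm.trans (hq v v v v' rfl rfl)))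
    ((hq v v v v rfl rfl).symm.trans (hc.trans (hq v' v' v' v' hπ.symm hπ.symm)))
  have hmp : MeasurePreserving (fun t : K => π v - t) hm hm := Measure.measurePreserving_sub_left hm (π v)
  have k1 : ∀ᵐ t ∂hm, ((η (π v - t - t)).prod (η (π v - t)))
      ((sec3 N v \ sec3 N v') ∪ (sec3 N v' \ sec3 N v)) = 0 := by
    filter_upwards [hmp.quasiMeasurePreserving.ae k0] with t ht
    rw [Kernel.comap_apply] at ht
    have e3 : π v - t + (π v - t) - π v = π v - t - t := by abel
    rwa [e3] at ht
  have hk3 := (h4 k M K e π hm μ η h).2.2.1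
  have hz : kap3 hm η (π v) ((sec3 N v \ sec3 N v') ∪ (sec3 N v' \ sec3 N v)) = 0 := by
    rw [hk3 (π v) _ ((hs.diff hs').union (hs'.diff hs))]
    rw [lintegral_congr_ae k1]
    simp
  have hz1 : kap3 hm η (π v) (sec3 N v \ sec3 N v') = 0 :=
    measure_mono_null subset_union_left hz
  have hz2 : kap3 hm η (π v) (sec3 N v' \ sec3 N v) = 0 :=
    measure_mono_null subset_union_right hz
  unfold dd3
  simp [Measure.real, hz1, hz2]

end Pool.Agent.Work.MP_69fea5_lc.N3
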