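import Pool.Agent.Work.MP_69fea5_lc.N3.StmtsA

/-!
# Block [69fea5 N3]: item HHI

The cube function is invariant, and does not change if corners are replaced by points at the same
position at `dd3`-distance zero. Uses the comparison HHM and the doubling estimate DBL only.
-/

set_option autoImplicit false

namespace Pool.Agent.Work.MP_69fea5_lc.N3

open MeasureTheory Topology Set Filter ProbabilityTheory
open scoped NNReal ENNReal
open Pool.Agent.Work.MP_69fea5_lc.AK

namespace I_HHI

/-- doubling followed by a translation is nonsingular -/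
theorem qmp_dbl (h2 : S_DBL) {K : Type} [NormedAddCommGroup K] [CompactSpace K]
    [MeasurableSpace K] [BorelSpace K] (hm : Measure K) [IsProbabilityMeasure hm]
    [hm.IsAddHaarMeasure] (e : K) (he : Dense (Set.range fun n : ℤ => n • e)) (b : K) :
    Measure.QuasiMeasurePreserving (fun a : K => a + a - b) hm hm := by
  have h1 : Measure.QuasiMeasurePreserving (fun a : K => a + a) hm hm := by
    refine ⟨(continuous_id.add continuous_id).measurable, ?_⟩
    exact (Measure.absolutelyContinuous_of_le (h2 K hm e he)).trans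
      (Measure.smul_absolutelyContinuous)
  exact (measurePreserving_sub_right hm b).quasiMeasurePreserving.comp h1

variable {k : ℕ}

theorem meas_sec3 (N : Set (Om k × Om k × Om k)) (hN : IsClosed N) (v : Om k) :
    MeasurableSet (sec3 N v) := by
  have : sec3 N v = (fun p : Om k × Om k => (p.1, p.2, v)) ⁻¹' N := rfl
  rw [this]
  exact (hN.preimage (by fun_prop)).measurableSet

theorem meas_qs {N00 N01 N10 N11 : Set (Om k × Om k)} (h00 : MeasurableSet N00)
    (h01 : MeasurableSet N01) (h10 : MeasurableSet N10) (h11 : MeasurableSet N11) :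
    MeasurableSet (qs N00 N01 N10 N11) := by
  have : qs N00 N01 N10 N11 =
      (fun q : (Om k × Om k) × (Om k × Om k) => (q.1.1, q.2.1)) ⁻¹' N00 ∩
      ((fun q : (Om k × Om k) × (Om k × Om k) => (q.1.1, q.2.2)) ⁻¹' N01 ∩
      ((fun q : (Om k × Om k) × (Om k × Om k) => (q.1.2, q.2.1)) ⁻¹' N10 ∩
      (fun q : (Om k × Om k) × (Om k × Om k) => (q.1.2, q.2.2)) ⁻¹' N11)) := rfl
  rw [this]
  refine MeasurableSet.inter (h00.preimage (by fun_prop)) (MeasurableSet.inter
    (h01.preimage (by fun_prop)) (MeasurableSet.inter (h10.preimage (by fun_prop))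
    (h11.preimage (by fun_prop))))

/-- sections of an invariant set at shifted points -/
theorem sec3_sh (N : Set (Om k × Om k × Om k)) (hN : AK.Inv N) (n : ℤ) (w u v : Om k) :
    (sh n w, sh n u) ∈ sec3 N (sh n v) ↔ (w, u) ∈ sec3 N v := by
  constructor
  · intro h
    have h' := hN (-n) _ h
    simp only [sh_prod] at h'
    have hz : ∀ z : Om k, sh (-n) (sh n z) = z := fun z => by
      rw [← sh_add, neg_add_cancel, sh_zero]
    rw [hz, hz, hz] at h'
    exact h'
  · intro h
    exact hN n _ h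

/-- one step of the shift -/
theorem step (h2 : S_DBL) (M : Set (Om k)) (K : Type) [NormedAddCommGroup K] [CompactSpace K]
    [MeasurableSpace K] [BorelSpace K] (e : K) (π : Om k → K) (hm : Measure K) (μ : PM k)
    (η : Kernel K (Om k)) (h : Fr M e π hm μ η) (N : Set (Om k × Om k × Om k))
    (hN : Rel3 M π N) (x00 x01 x10 x11 : Om k) (s : K) (hx00 : x00 ∈ M) (hx10 : x10 ∈ M) :
    HH hm η π N (sh 1 x00) (sh 1 x01) (sh 1 x10) (sh 1 x11) s = HH hm η π N x00 x01 x10 x11 s := by
  have := h.prob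
  have := h.haar
  have := h.dis.markov
  have hme : Measurable (sh 1 : Om k → Om k) := (sh_cont 1).measurable
  unfold HH
  rw [← integral_add_right_eq_self _ e]
  apply integral_congr_ae
  have ha := h.dis.eqv
  have hb := (measurePreserving_add_right hm s).quasiMeasurePreserving.ae h.dis.eqv
  have hc := (qmp_dbl h2 hm e h.kro.dense (π x00)).ae h.dis.eqv
  have hd := (qmp_dbl h2 hm e h.kro.dense (π x10)).ae h.dis.eqv
  filter_upwards [ha, hb, hc, hd] with a ha hb hc hd
  have e0 : π (sh 1 x00) = π x00 + e := by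
    have := h.kro.equi x00 hx00 1
    rwa [one_zsmul] at this
  have e1 : π (sh 1 x10) = π x10 + e := by
    have := h.kro.equi x10 hx10 1
    rwa [one_zsmul] at this
  have f0 : a + e + (a + e) - (π x00 + e) = a + a - π x00 + e := by abel
  have f1 : a + e + (a + e) - (π x10 + e) = a + a - π x10 + e := by abel
  have f2 : a + e + s = a + s + e := by abel
  have hq : qm η (π (sh 1 x00)) (π (sh 1 x10)) s (a + e) =
      (qm η (π x00) (π x10) s a).map
        (Prod.map (Prod.map (sh 1) (sh 1)) (Prod.map (sh 1) (sh 1))) := by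
    unfold qm
    rw [e0, e1, f0, f1, f2, ha, hb, hc, hd, Measure.map_prod_map _ _ hme hme,
      Measure.map_prod_map _ _ hme hme,
      Measure.map_prod_map _ _ (hme.prodMap hme) (hme.prodMap hme)]
  rw [hq, map_measureReal_apply ((hme.prodMap hme).prodMap (hme.prodMap hme))
    (meas_qs (meas_sec3 N hN.closed _) (meas_sec3 N hN.closed _) (meas_sec3 N hN.closed _)
      (meas_sec3 N hN.closed _))]
  congr 1
  ext q
  simp only [qs, mem_preimage, mem_ofPred_eq, Prod.map_fst, Prod.map_snd]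
  rw [sec3_sh N hN.inv, sec3_sh N hN.inv, sec3_sh N hN.inv, sec3_sh N hN.inv]

theorem dd3_union {K : Type} [NormedAddCommGroup K] [CompactSpace K]
    [MeasurableSpace K] [BorelSpace K] (π : Om k → K) (hm : Measure K)
    (η : Kernel K (Om k)) (N : Set (Om k × Om k × Om k)) (x p : Om k) (hx : π x = π p)
    (h0 : dd3 hm η π N x p = 0) :
    (kap3 hm η (π p)).real ((sec3 N x \ sec3 N p) ∪ (sec3 N p \ sec3 N x)) ≤ 0 := by
  refine (measureReal_union_le _ _).trans ?_
  unfold dd3 at h0
  rw [hx] at h0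
  exact h0.le

end I_HHI

open I_HHI in
theorem HHI_pf (h1 : S_HHM) (h2 : S_DBL) : S_HHI := by
  intro k M K _ _ _ _ e π hm μ η h N hN
  have key : ∀ p ∈ HD M π, ∀ x00 ∈ M, ∀ x01 ∈ M, ∀ x10 ∈ M, ∀ x11 ∈ M, π x00 = π p.1.1 →
      π x01 = π p.1.2 → π x10 = π p.2.1.1 → π x11 = π p.2.1.2 →
      dd3 hm η π N x00 p.1.1 = 0 → dd3 hm η π N x01 p.1.2 = 0 →
      dd3 hm η π N x10 p.2.1.1 = 0 → dd3 hm η π N x11 p.2.1.2 = 0 →
      HH hm η π N x00 x01 x10 x11 p.2.2 = HH hm η π N p.1.1 p.1.2 p.2.1.1 p.2.1.2 p.2.2 := by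
    intro p hp x00 _ x01 _ x10 _ x11 _ q00 q01 q10 q11 d00 d01 d10 d11
    obtain ⟨_, _, _, _, hs0, hs1⟩ := hp
    have hb := h1 k M K e π hm μ η h (π p.1.1) (π p.1.2) (π p.2.1.1) (π p.2.1.2) p.2.2 hs0 hs1
      (sec3 N x00) (sec3 N x01) (sec3 N x10) (sec3 N x11)
      (sec3 N p.1.1) (sec3 N p.1.2) (sec3 N p.2.1.1) (sec3 N p.2.1.2)
      (meas_sec3 N hN.closed _) (meas_sec3 N hN.closed _) (meas_sec3 N hN.closed _)
      (meas_sec3 N hN.closed _) (meas_sec3 N hN.closed _) (meas_sec3 N hN.closed _)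
      (meas_sec3 N hN.closed _) (meas_sec3 N hN.closed _)
    have c00 := dd3_union π hm η N _ _ q00 d00
    have c01 := dd3_union π hm η N _ _ q01 d01
    have c10 := dd3_union π hm η N _ _ q10 d10
    have c11 := dd3_union π hm η N _ _ q11 d11
    have hz : |HH hm η π N x00 x01 x10 x11 p.2.2 -
        HH hm η π N p.1.1 p.1.2 p.2.1.1 p.2.1.2 p.2.2| ≤ 0 := by
      unfold HH
      rw [q00, q10]
      linarith
    exact sub_eq_zero.mp (abs_nonpos_iff.mp hz)
  refine ⟨?_, ?_, key⟩
  · intro p hp n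
    obtain ⟨m0, m1, m2, m3, hs0, hs1⟩ := hp
    have one : ∀ n : ℤ, HH hm η π N (sh (n + 1) p.1.1) (sh (n + 1) p.1.2) (sh (n + 1) p.2.1.1)
        (sh (n + 1) p.2.1.2) p.2.2 = HH hm η π N (sh n p.1.1) (sh n p.1.2) (sh n p.2.1.1)
        (sh n p.2.1.2) p.2.2 := by
      intro n
      have := step h2 M K e π hm μ η h N hN (sh n p.1.1) (sh n p.1.2) (sh n p.2.1.1)
        (sh n p.2.1.2) p.2.2 (h.min.inv n _ m0) (h.min.inv n _ m2)
      rw [add_comm n 1, sh_add, sh_add, sh_add, sh_add]
      exact this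
    induction n using Int.induction_on with
    | zero => rw [sh_zero, sh_zero, sh_zero, sh_zero]
    | succ i ih => rw [one, ih]
    | pred i ih =>
      have := one (-(i : ℤ) - 1)
      rw [sub_add_cancel] at this
      rw [← this, ih]
  · intro p hp x hx hπ hd
    have hs : ∀ v, dd3 hm η π N v v = 0 := by
      intro v
      simp [dd3]
    obtain ⟨m0, m1, m2, m3, _, _⟩ := id hp
    exact key p hp x hx p.1.2 m1 p.2.1.1 m2 p.2.1.2 m3 hπ rfl rfl rfl hd (hs _) (hs _) (hs _)

end Pool.Agent.Work.MP_69fea5_lc.N3
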