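import Pool.Agent.Work.MP_69fea5_lc.N3.StmtsA

set_option autoImplicit false

namespace Pool.Agent.Work.MP_69fea5_lc.N3

open MeasureTheory Topology Set Filter ProbabilityTheory
open scoped NNReal ENNReal
open Pool.Agent.Work.MP_69fea5_lc.AK

namespace I_HHK

variable {k : ℕ}

theorem cyl_meas (w : Wd k) (n : ℤ) : MeasurableSet (cyl w n) := by
  have e : cyl w n = ⋂ (i : ℕ) (a : Fin k) (_ : w[i]? = some a),
      (fun z : Om k => z (n - ((w.length / 2 : ℕ) : ℤ) + i)) ⁻¹' {a} := by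
    ext z
    simp [cyl]
  rw [e]
  refine MeasurableSet.iInter fun i => MeasurableSet.iInter fun a => MeasurableSet.iInter fun _ => ?_
  exact measurable_pi_apply _ (MeasurableSet.singleton a)

/-- the product set of four boxes -/
def ps (P : (W2 k × W2 k) × (W2 k × W2 k)) : Set ((Om k × Om k) × (Om k × Om k)) :=
  ((cyl P.1.1.1 0 ∩ cyl P.1.2.1 0) ×ˢ (cyl P.2.1.1 0 ∩ cyl P.2.2.1 0)) ×ˢ
    ((cyl P.1.1.2 0 ∩ cyl P.2.1.2 0) ×ˢ (cyl P.1.2.2 0 ∩ cyl P.2.2.2 0))

theorem ps_eq (P : (W2 k × W2 k) × (W2 k × W2 k)) :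
    qs (bx P.1.1 0) (bx P.1.2 0) (bx P.2.1 0) (bx P.2.2 0) = ps P := by
  ext q
  simp only [qs, bx, ps, Set.mem_prod, Set.mem_inter_iff, Set.mem_ofPred_eq]
  tauto

theorem ps_meas (P : (W2 k × W2 k) × (W2 k × W2 k)) : MeasurableSet (ps P) :=
  (((cyl_meas _ _).inter (cyl_meas _ _)).prod ((cyl_meas _ _).inter (cyl_meas _ _))).prod
    (((cyl_meas _ _).inter (cyl_meas _ _)).prod ((cyl_meas _ _).inter (cyl_meas _ _)))

theorem qs_union (T00 T01 T10 T11 : Finset (W2 k)) :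
    qs (⋃ P ∈ T00, bx P 0) (⋃ P ∈ T01, bx P 0) (⋃ P ∈ T10, bx P 0) (⋃ P ∈ T11, bx P 0) =
      ⋃ P ∈ (T00 ×ˢ T01) ×ˢ (T10 ×ˢ T11), ps P := by
  ext q
  simp only [← ps_eq, qs, Set.mem_iUnion, Set.mem_ofPred_eq, Finset.mem_product, exists_prop]
  constructor
  · rintro ⟨⟨a, ha, ha'⟩, ⟨b, hb, hb'⟩, ⟨c, hc, hc'⟩, d, hd, hd'⟩
    exact ⟨((a, b), (c, d)), ⟨⟨ha, hb⟩, hc, hd⟩, ha', hb', hc', hd'⟩
  · rintro ⟨⟨⟨a, b⟩, ⟨c, d⟩⟩, ⟨⟨ha, hb⟩, hc, hd⟩, ha', hb', hc', hd'⟩
    exact ⟨⟨a, ha, ha'⟩, ⟨b, hb, hb'⟩, ⟨c, hc, hc'⟩, d, hd, hd'⟩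

theorem uniq {T : Finset (W2 k)} (h : (T : Set (W2 k)).PairwiseDisjoint fun P => bx P 0)
    {P Q : W2 k} (hP : P ∈ T) (hQ : Q ∈ T) {x : Om k × Om k} (hx : x ∈ bx P 0)
    (hx' : x ∈ bx Q 0) : P = Q := by
  by_contra hne
  exact Set.disjoint_left.1 (h hP hQ hne) hx hx'

theorem ps_disj (T00 T01 T10 T11 : Finset (W2 k))
    (h00 : (T00 : Set (W2 k)).PairwiseDisjoint fun P => bx P 0)
    (h01 : (T01 : Set (W2 k)).PairwiseDisjoint fun P => bx P 0)
    (h10 : (T10 : Set (W2 k)).PairwiseDisjoint fun P => bx P 0)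
    (h11 : (T11 : Set (W2 k)).PairwiseDisjoint fun P => bx P 0) :
    (((T00 ×ˢ T01) ×ˢ (T10 ×ˢ T11) : Finset ((W2 k × W2 k) × (W2 k × W2 k))) :
      Set ((W2 k × W2 k) × (W2 k × W2 k))).PairwiseDisjoint fun P => ps P := by
  intro P hP Q hQ hne
  refine Set.disjoint_left.2 fun q hq hq' => hne ?_
  have hP' := Finset.mem_coe.1 hP
  have hQ' := Finset.mem_coe.1 hQ
  simp only [Finset.mem_product] at hP' hQ'
  have hq1 : q ∈ ps P := hq
  have hq2 : q ∈ ps Q := hq'
  rw [← ps_eq] at hq1 hq2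
  obtain ⟨a1, a2, a3, a4⟩ := hq1
  obtain ⟨b1, b2, b3, b4⟩ := hq2
  exact Prod.ext (Prod.ext (uniq h00 hP'.1.1 hQ'.1.1 a1 b1) (uniq h01 hP'.1.2 hQ'.1.2 a2 b2))
    (Prod.ext (uniq h10 hP'.2.1 hQ'.2.1 a3 b3) (uniq h11 hP'.2.2 hQ'.2.2 a4 b4))

section

variable {K : Type} [NormedAddCommGroup K] [CompactSpace K] [MeasurableSpace K] [BorelSpace K]

omit [CompactSpace K] [BorelSpace K] in
instance qm_prob (η : Kernel K (Om k)) [IsMarkovKernel η] (b0 b1 s a : K) :
    IsProbabilityMeasure (qm η b0 b1 s a) := by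
  unfold qm
  infer_instance

omit [CompactSpace K] [BorelSpace K] in
theorem qm_ps (η : Kernel K (Om k)) [IsMarkovKernel η] (b0 b1 s a : K)
    (P : (W2 k × W2 k) × (W2 k × W2 k)) :
    (qm η b0 b1 s a).real (ps P) =
      ((η a).real (cyl P.1.1.2 0 ∩ cyl P.2.1.2 0) *
        (η (a + s)).real (cyl P.1.2.2 0 ∩ cyl P.2.2.2 0)) *
      ((η (a + a - b0)).real (cyl P.1.1.1 0 ∩ cyl P.1.2.1 0) *
        (η (a + a - b1)).real (cyl P.2.1.1 0 ∩ cyl P.2.2.1 0)) := by
  unfold qm ps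
  rw [measureReal_prod_prod, measureReal_prod_prod, measureReal_prod_prod]
  ring

theorem cont_one (h2 : S_TRC) (hm : Measure K) [IsProbabilityMeasure hm] [hm.IsAddHaarMeasure]
    (e : K) (he : Dense (Set.range fun n : ℤ => n • e)) (η : Kernel K (Om k))
    [IsMarkovKernel η] (F F' G G' : Set (Om k)) (hF : MeasurableSet F) (hF' : MeasurableSet F')
    (hG : MeasurableSet G) (hG' : MeasurableSet G') :
    Continuous fun p : K × K × K => ∫ a, ((η a).real F * (η (a + p.2.2)).real F') *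
      ((η (a + a - p.1)).real G * (η (a + a - p.2.1)).real G') ∂hm := by
  have hc := h2 K hm e he Bool Bool (fun i s => (η s).real (cond i F F'))
    (fun i s => (η s).real (cond i G G'))
    (fun i => (η.measurable_coe (by cases i <;> assumption)).ennreal_toReal)
    (fun i => (η.measurable_coe (by cases i <;> assumption)).ennreal_toReal)
    (fun _ t => ⟨measureReal_nonneg, measureReal_le_one⟩)
    (fun _ t => ⟨measureReal_nonneg, measureReal_le_one⟩)
  have hc2 : Continuous fun p : K × K × K =>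
      ((fun i : Bool => cond i (0 : K) p.2.2), (fun i : Bool => cond i (-p.1) (-p.2.1))) := by
    refine Continuous.prodMk (continuous_pi fun i => ?_) (continuous_pi fun i => ?_)
    · cases i
      · exact continuous_snd.comp continuous_snd
      · exact continuous_const
    · cases i
      · exact (continuous_fst.comp continuous_snd).neg
      · exact continuous_fst.neg
  have h3 := hc.comp hc2
  refine h3.congr fun p => ?_
  simp [sub_eq_add_neg]

theorem integ (hm : Measure K) [IsProbabilityMeasure hm] (η : Kernel K (Om k))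
    [IsMarkovKernel η] (F F' G G' : Set (Om k)) (hF : MeasurableSet F) (hF' : MeasurableSet F')
    (hG : MeasurableSet G) (hG' : MeasurableSet G') (b0 b1 s : K) :
    Integrable (fun a => ((η a).real F * (η (a + s)).real F') *
      ((η (a + a - b0)).real G * (η (a + a - b1)).real G')) hm := by
  have m1 : Measurable fun a : K => (η a).real F := (η.measurable_coe hF).ennreal_toReal
  have m2 : Measurable fun a : K => (η (a + s)).real F' :=
    ((η.measurable_coe hF').comp (by fun_prop : Measurable fun a : K => a + s)).ennreal_toReal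
  have m3 : Measurable fun a : K => (η (a + a - b0)).real G :=
    ((η.measurable_coe hG).comp
      (by fun_prop : Measurable fun a : K => a + a - b0)).ennreal_toReal
  have m4 : Measurable fun a : K => (η (a + a - b1)).real G' :=
    ((η.measurable_coe hG').comp
      (by fun_prop : Measurable fun a : K => a + a - b1)).ennreal_toReal
  refine Integrable.of_bound ((m1.mul m2).mul (m3.mul m4)).aestronglyMeasurable 1
    (Eventually.of_forall fun a => ?_)
  rw [Real.norm_of_nonneg (by positivity)]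
  exact mul_le_one₀ (mul_le_one₀ measureReal_le_one measureReal_nonneg measureReal_le_one)
    (by positivity) (mul_le_one₀ measureReal_le_one measureReal_nonneg measureReal_le_one)

end

end I_HHK

open I_HHK in
theorem HHK_pf (h1 : S_RCT) (h2 : S_TRC) : S_HHK := by
  intro k M K _ _ _ _ e π hm μ η hF C00 C01 C10 C11 k00 k01 k10 k11
  have hp : IsProbabilityMeasure hm := hF.prob
  have hh : hm.IsAddHaarMeasure := hF.haar
  have hk : IsMarkovKernel η := hF.dis.markov
  obtain ⟨-, T00, -, e00, d00⟩ := h1 k C00 k00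
  obtain ⟨-, T01, -, e01, d01⟩ := h1 k C01 k01
  obtain ⟨-, T10, -, e10, d10⟩ := h1 k C10 k10
  obtain ⟨-, T11, -, e11, d11⟩ := h1 k C11 k11
  have e1 : (fun p : K × K × K =>
      ∫ a, (qm η p.1 p.2.1 p.2.2 a).real (qs C00 C01 C10 C11) ∂hm) =
      fun p => ∑ P ∈ (T00 ×ˢ T01) ×ˢ (T10 ×ˢ T11),
        ∫ a, ((η a).real (cyl P.1.1.2 0 ∩ cyl P.2.1.2 0) *
          (η (a + p.2.2)).real (cyl P.1.2.2 0 ∩ cyl P.2.2.2 0)) *
          ((η (a + a - p.1)).real (cyl P.1.1.1 0 ∩ cyl P.1.2.1 0) *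
          (η (a + a - p.2.1)).real (cyl P.2.1.1 0 ∩ cyl P.2.2.1 0)) ∂hm := by
    funext p
    rw [← integral_finsetSum _ fun P _ => integ hm η _ _ _ _
      ((cyl_meas _ _).inter (cyl_meas _ _)) ((cyl_meas _ _).inter (cyl_meas _ _))
      ((cyl_meas _ _).inter (cyl_meas _ _)) ((cyl_meas _ _).inter (cyl_meas _ _)) _ _ _]
    refine integral_congr_ae (Eventually.of_forall fun a => ?_)
    change (qm η p.1 p.2.1 p.2.2 a).real (qs C00 C01 C10 C11) = _
    rw [e00, e01, e10, e11, qs_union, measureReal_biUnion_finset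
      (ps_disj T00 T01 T10 T11 d00 d01 d10 d11) fun P _ => ps_meas P]
    exact Finset.sum_congr rfl fun P _ => qm_ps η _ _ _ _ P
  rw [e1]
  exact continuous_finsetSum _ fun P _ => cont_one h2 hm e hF.kro.dense η _ _ _ _
    ((cyl_meas _ _).inter (cyl_meas _ _)) ((cyl_meas _ _).inter (cyl_meas _ _))
    ((cyl_meas _ _).inter (cyl_meas _ _)) ((cyl_meas _ _).inter (cyl_meas _ _))

end Pool.Agent.Work.MP_69fea5_lc.N3
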