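import Pool.Agent.Work.MP_69fea5_lc.N3.StmtsA

/-!
# Block [69fea5 N3], item HHM: comparison of cube functions
-/

set_option autoImplicit false

namespace Pool.Agent.Work.MP_69fea5_lc.N3

open MeasureTheory Topology Set Filter ProbabilityTheory
open scoped NNReal ENNReal
open Pool.Agent.Work.MP_69fea5_lc.AK

namespace I_HHM

variable {k : ℕ}

/-- the set of quadruples whose pair (first component by `i`, second by `j`) is in `V` -/
def pre (f g : Om k × Om k → Om k) (V : Set (Om k × Om k)) :
    Set ((Om k × Om k) × (Om k × Om k)) := (Prod.map f g) ⁻¹' V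

theorem symm_sub (A00 A01 A10 A11 C00 C01 C10 C11 : Set (Om k × Om k)) :
    (qs A00 A01 A10 A11 \ qs C00 C01 C10 C11) ⊆
      ((pre Prod.fst Prod.fst ((A00 \ C00) ∪ (C00 \ A00)) ∪
        pre Prod.fst Prod.snd ((A01 \ C01) ∪ (C01 \ A01))) ∪
      pre Prod.snd Prod.fst ((A10 \ C10) ∪ (C10 \ A10))) ∪
        pre Prod.snd Prod.snd ((A11 \ C11) ∪ (C11 \ A11)) := by
  rintro q ⟨⟨h00, h01, h10, h11⟩, hn⟩
  by_contra hc
  apply hn
  simp only [pre, Set.mem_union, Set.mem_preimage, Prod.map, Set.mem_diff, not_or, not_and,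
    not_not] at hc
  exact ⟨hc.1.1.1.1 h00, hc.1.1.2.1 h01, hc.1.2.1 h10, hc.2.1 h11⟩

theorem qs_meas {A00 A01 A10 A11 : Set (Om k × Om k)} (h00 : MeasurableSet A00)
    (h01 : MeasurableSet A01) (h10 : MeasurableSet A10) (h11 : MeasurableSet A11) :
    MeasurableSet (qs A00 A01 A10 A11) := by
  have e : qs A00 A01 A10 A11 = (Prod.map Prod.fst Prod.fst ⁻¹' A00) ∩
      ((Prod.map Prod.fst Prod.snd ⁻¹' A01) ∩ ((Prod.map Prod.snd Prod.fst ⁻¹' A10) ∩
        (Prod.map Prod.snd Prod.snd ⁻¹' A11))) := by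
    ext q
    simp [qs, Prod.map]
  rw [e]
  exact ((measurable_fst.prodMap measurable_fst) h00).inter
    (((measurable_fst.prodMap measurable_snd) h01).inter
      (((measurable_snd.prodMap measurable_fst) h10).inter
        ((measurable_snd.prodMap measurable_snd) h11)))

/-- abstract comparison for one probability measure -/
theorem one_cmp (ν : Measure ((Om k × Om k) × (Om k × Om k))) [IsProbabilityMeasure ν]
    (A00 A01 A10 A11 C00 C01 C10 C11 : Set (Om k × Om k)) :
    ν.real (qs A00 A01 A10 A11) ≤ ν.real (qs C00 C01 C10 C11) +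
      (ν.real (pre Prod.fst Prod.fst ((A00 \ C00) ∪ (C00 \ A00))) +
      ν.real (pre Prod.fst Prod.snd ((A01 \ C01) ∪ (C01 \ A01))) +
      ν.real (pre Prod.snd Prod.fst ((A10 \ C10) ∪ (C10 \ A10))) +
      ν.real (pre Prod.snd Prod.snd ((A11 \ C11) ∪ (C11 \ A11)))) := by
  have h1 : qs A00 A01 A10 A11 ⊆ qs C00 C01 C10 C11 ∪
      (qs A00 A01 A10 A11 \ qs C00 C01 C10 C11) := by
    intro q hq
    by_cases h : q ∈ qs C00 C01 C10 C11
    · exact Or.inl h
    · exact Or.inr ⟨hq, h⟩
  refine (measureReal_mono h1).trans ((measureReal_union_le _ _).trans ?_)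
  refine add_le_add le_rfl ?_
  refine (measureReal_mono (symm_sub A00 A01 A10 A11 C00 C01 C10 C11)).trans ?_
  refine (measureReal_union_le _ _).trans (add_le_add ?_ le_rfl)
  refine (measureReal_union_le _ _).trans (add_le_add ?_ le_rfl)
  exact measureReal_union_le _ _

section

variable {K : Type} [NormedAddCommGroup K] [CompactSpace K] [MeasurableSpace K] [BorelSpace K]

omit [CompactSpace K] [BorelSpace K] in
instance qm_prob (η : Kernel K (Om k)) [IsMarkovKernel η] (b0 b1 s a : K) :
    IsProbabilityMeasure (qm η b0 b1 s a) := by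
  unfold qm
  infer_instance

/-- marginals of products -/
theorem marg (α β γ δ : Measure (Om k)) [IsProbabilityMeasure α] [IsProbabilityMeasure β]
    [IsProbabilityMeasure γ] [IsProbabilityMeasure δ] (V : Set (Om k × Om k))
    (hV : MeasurableSet V) :
    ((α.prod β).prod (γ.prod δ)) (pre Prod.fst Prod.fst V) = (α.prod γ) V ∧
    ((α.prod β).prod (γ.prod δ)) (pre Prod.fst Prod.snd V) = (α.prod δ) V ∧
    ((α.prod β).prod (γ.prod δ)) (pre Prod.snd Prod.fst V) = (β.prod γ) V ∧
    ((α.prod β).prod (γ.prod δ)) (pre Prod.snd Prod.snd V) = (β.prod δ) V := by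
  have f1 : ∀ (x y : Measure (Om k)) [IsProbabilityMeasure x] [IsProbabilityMeasure y],
      (x.prod y).map Prod.fst = x := by
    intro x y _ _
    rw [Measure.map_fst_prod, measure_univ, one_smul]
  have f2 : ∀ (x y : Measure (Om k)) [IsProbabilityMeasure x] [IsProbabilityMeasure y],
      (x.prod y).map Prod.snd = y := by
    intro x y _ _
    rw [Measure.map_snd_prod, measure_univ, one_smul]
  refine ⟨?_, ?_, ?_, ?_⟩
  · rw [pre, ← Measure.map_apply (measurable_fst.prodMap measurable_fst) hV,
      ← Measure.map_prod_map _ _ measurable_fst measurable_fst, f1, f1]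
  · rw [pre, ← Measure.map_apply (measurable_fst.prodMap measurable_snd) hV,
      ← Measure.map_prod_map _ _ measurable_fst measurable_snd, f1, f2]
  · rw [pre, ← Measure.map_apply (measurable_snd.prodMap measurable_fst) hV,
      ← Measure.map_prod_map _ _ measurable_snd measurable_fst, f2, f1]
  · rw [pre, ← Measure.map_apply (measurable_snd.prodMap measurable_snd) hV,
      ← Measure.map_prod_map _ _ measurable_snd measurable_snd, f2, f2]

omit [CompactSpace K] in
theorem meas_pair (η : Kernel K (Om k)) [IsMarkovKernel η] (f g : K → K) (hf : Measurable f)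
    (hg : Measurable g) (V : Set (Om k × Om k)) (hV : MeasurableSet V) :
    Measurable fun t => ((η (f t)).prod (η (g t))) V := by
  have h := ((η.comap f hf) ×ₖ (η.comap g hg)).measurable_coe hV
  have e : (fun t => ((η (f t)).prod (η (g t))) V) =
      fun t => ((η.comap f hf) ×ₖ (η.comap g hg)) t V := by
    funext t
    rw [Kernel.prod_apply, Kernel.comap_apply, Kernel.comap_apply]
  rw [e]
  exact h

theorem meas_qm (η : Kernel K (Om k)) [IsMarkovKernel η] (b0 b1 s : K)
    (S : Set ((Om k × Om k) × (Om k × Om k))) (hS : MeasurableSet S) :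
    Measurable fun a => (qm η b0 b1 s a) S := by
  have hf0 : Measurable fun a : K => a + a - b0 := by fun_prop
  have hf1 : Measurable fun a : K => a + a - b1 := by fun_prop
  have hg : Measurable fun a : K => a + s := by fun_prop
  have h := (((η.comap _ hf0) ×ₖ (η.comap _ hf1)) ×ₖ (η ×ₖ (η.comap _ hg))).measurable_coe hS
  have e : (fun a => (qm η b0 b1 s a) S) =
      fun a => (((η.comap _ hf0) ×ₖ (η.comap _ hf1)) ×ₖ (η ×ₖ (η.comap _ hg))) a S := by
    funext a
    rw [Kernel.prod_apply, Kernel.prod_apply, Kernel.prod_apply, Kernel.comap_apply,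
      Kernel.comap_apply, Kernel.comap_apply]
    rfl
  rw [e]
  exact h

/-- the integral of the real measures -/
theorem int_real {X : Type} [MeasurableSpace X] (hm : Measure K) [IsProbabilityMeasure hm]
    (ν : K → Measure X) (hp : ∀ a, IsProbabilityMeasure (ν a)) (V : Set X)
    (hV : Measurable fun a => ν a V) :
    Integrable (fun a => (ν a).real V) hm ∧
      ∫ a, (ν a).real V ∂hm = (∫⁻ a, ν a V ∂hm).toReal := by
  have hle : ∀ a, ν a V ≤ 1 := fun a => by
    have := hp a
    exact prob_le_one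
  have hfin : ∫⁻ a, ν a V ∂hm ≠ ∞ := by
    refine ne_top_of_le_ne_top (b := 1) ENNReal.one_ne_top ?_
    calc ∫⁻ a, ν a V ∂hm ≤ ∫⁻ _, 1 ∂hm := lintegral_mono hle
      _ = 1 := by simp
  refine ⟨?_, ?_⟩
  · exact integrable_toReal_of_lintegral_ne_top hV.aemeasurable hfin
  · exact integral_toReal hV.aemeasurable
      (Eventually.of_forall fun a => lt_of_le_of_lt (hle a) ENNReal.one_lt_top)

theorem int4 (hm : Measure K) (f0 f1 f2 f3 : K → ℝ) (i0 : Integrable f0 hm)
    (i1 : Integrable f1 hm) (i2 : Integrable f2 hm) (i3 : Integrable f3 hm) :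
    Integrable (fun a => f0 a + f1 a + f2 a + f3 a) hm ∧
    ∫ a, (f0 a + f1 a + f2 a + f3 a) ∂hm =
      ∫ a, f0 a ∂hm + ∫ a, f1 a ∂hm + ∫ a, f2 a ∂hm + ∫ a, f3 a ∂hm := by
  have j1 : Integrable (fun a => f0 a + f1 a) hm := i0.add i1
  have j2 : Integrable (fun a => f0 a + f1 a + f2 a) hm := j1.add i2
  have j3 : Integrable (fun a => f0 a + f1 a + f2 a + f3 a) hm := j2.add i3
  refine ⟨j3, ?_⟩
  rw [integral_add j2 i3, integral_add j1 i2, integral_add i0 i1]

theorem int_cmp (hm : Measure K) (f g T : K → ℝ) (hf : Integrable f hm)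
    (hg : Integrable g hm) (hT : Integrable T hm) (h : ∀ a, f a ≤ g a + T a) :
    ∫ a, f a ∂hm ≤ ∫ a, g a ∂hm + ∫ a, T a ∂hm := by
  rw [← integral_add hg hT]
  exact integral_mono hf (hg.add hT) h

end

end I_HHM

open I_HHM in
theorem HHM_pf (hK : S_KPB) : S_HHM := by
  intro k M K _ _ _ _ e π hm μ η F b00 b01 b10 b11 s e0 e1 A00 A01 A10 A11 C00 C01 C10 C11
    a00 a01 a10 a11 c00 c01 c10 c11
  have := F.prob
  have := F.haar
  have := F.dis.markov
  obtain ⟨-, -, hk, -, -⟩ := hK k M K e π hm μ η F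
  -- the four marginal integrals
  have key : ∀ (b b' s' : K) (V : Set (Om k × Om k)), MeasurableSet V → b' = b + s' + s' →
      ∫⁻ a, ((η (a + a - b)).prod (η (a + s'))) V ∂hm = kap3 hm η b' V := by
    intro b b' s' V hV hb
    rw [hk b' V hV]
    rw [← lintegral_sub_left_eq_self (μ := hm)
      (fun a => ((η (a + a - b)).prod (η (a + s'))) V) (b' - s')]
    refine lintegral_congr fun t => ?_
    have q1 : b' - s' - t + (b' - s' - t) - b = b' - t - t := by
      rw [hb]
      abel
    have q2 : b' - s' - t + s' = b' - t := by abel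
    rw [q1, q2]
  have hV : ∀ {A C : Set (Om k × Om k)}, MeasurableSet A → MeasurableSet C →
      MeasurableSet ((A \ C) ∪ (C \ A)) := fun hA hC => (hA.diff hC).union (hC.diff hA)
  have pm : ∀ (f g : Om k × Om k → Om k), Measurable f → Measurable g →
      ∀ V : Set (Om k × Om k), MeasurableSet V → MeasurableSet (pre f g V) :=
    fun f g hf hg V hV => (hf.prodMap hg) hV
  -- real integrals of the marginals
  have r00 : ∀ V : Set (Om k × Om k), MeasurableSet V →
      ∫ a, (qm η b00 b10 s a).real (pre Prod.fst Prod.fst V) ∂hm = (kap3 hm η b00).real V := by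
    intro V hV
    rw [(int_real hm (qm η b00 b10 s) (fun a => inferInstance) _
      (meas_qm η b00 b10 s _ (pm _ _ measurable_fst measurable_fst V hV))).2]
    rw [Measure.real]
    congr 1
    rw [← key b00 b00 0 V hV (by abel)]
    refine lintegral_congr fun a => ?_
    rw [qm, (marg _ _ _ _ V hV).1, add_zero]
  have r01 : ∀ V : Set (Om k × Om k), MeasurableSet V →
      ∫ a, (qm η b00 b10 s a).real (pre Prod.fst Prod.snd V) ∂hm = (kap3 hm η b01).real V := by
    intro V hV
    rw [(int_real hm (qm η b00 b10 s) (fun a => inferInstance) _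
      (meas_qm η b00 b10 s _ (pm _ _ measurable_fst measurable_snd V hV))).2]
    rw [Measure.real]
    congr 1
    rw [← key b00 b01 s V hV e0]
    refine lintegral_congr fun a => ?_
    rw [qm, (marg _ _ _ _ V hV).2.1]
  have r10 : ∀ V : Set (Om k × Om k), MeasurableSet V →
      ∫ a, (qm η b00 b10 s a).real (pre Prod.snd Prod.fst V) ∂hm = (kap3 hm η b10).real V := by
    intro V hV
    rw [(int_real hm (qm η b00 b10 s) (fun a => inferInstance) _
      (meas_qm η b00 b10 s _ (pm _ _ measurable_snd measurable_fst V hV))).2]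
    rw [Measure.real]
    congr 1
    rw [← key b10 b10 0 V hV (by abel)]
    refine lintegral_congr fun a => ?_
    rw [qm, (marg _ _ _ _ V hV).2.2.1, add_zero]
  have r11 : ∀ V : Set (Om k × Om k), MeasurableSet V →
      ∫ a, (qm η b00 b10 s a).real (pre Prod.snd Prod.snd V) ∂hm = (kap3 hm η b11).real V := by
    intro V hV
    rw [(int_real hm (qm η b00 b10 s) (fun a => inferInstance) _
      (meas_qm η b00 b10 s _ (pm _ _ measurable_snd measurable_snd V hV))).2]
    rw [Measure.real]
    congr 1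
    rw [← key b10 b11 s V hV e1]
    refine lintegral_congr fun a => ?_
    rw [qm, (marg _ _ _ _ V hV).2.2.2]
  have ii : ∀ S : Set ((Om k × Om k) × (Om k × Om k)), MeasurableSet S →
      Integrable (fun a => (qm η b00 b10 s a).real S) hm := fun S hS =>
    (int_real hm (qm η b00 b10 s) (fun a => inferInstance) _ (meas_qm η b00 b10 s _ hS)).1
  have i00 := ii _ (pm _ _ measurable_fst measurable_fst _ (hV a00 c00))
  have i01 := ii _ (pm _ _ measurable_fst measurable_snd _ (hV a01 c01))
  have i10 := ii _ (pm _ _ measurable_snd measurable_fst _ (hV a10 c10))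
  have i11 := ii _ (pm _ _ measurable_snd measurable_snd _ (hV a11 c11))
  have iA := ii _ (qs_meas a00 a01 a10 a11)
  have iC := ii _ (qs_meas c00 c01 c10 c11)
  obtain ⟨iT, tot⟩ := int4 hm _ _ _ _ i00 i01 i10 i11
  rw [r00 _ (hV a00 c00), r01 _ (hV a01 c01), r10 _ (hV a10 c10), r11 _ (hV a11 c11)] at tot
  rw [← tot, abs_le]
  constructor
  · have h := int_cmp hm _ _ _ iC iA iT fun a => by
      have h0 := one_cmp (qm η b00 b10 s a) C00 C01 C10 C11 A00 A01 A10 A11
      rw [Set.union_comm (C00 \ A00), Set.union_comm (C01 \ A01),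
        Set.union_comm (C10 \ A10), Set.union_comm (C11 \ A11)] at h0
      exact h0
    linarith
  · have h := int_cmp hm _ _ _ iA iC iT fun a =>
      one_cmp (qm η b00 b10 s a) A00 A01 A10 A11 C00 C01 C10 C11
    linarith

end Pool.Agent.Work.MP_69fea5_lc.N3
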