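import Pool.Agent.Work.MP_69fea5_lc.N3.StmtsA

/-! Item [HLF] of block [69fea5 N3]. -/

set_option autoImplicit false

namespace Pool.Agent.Work.MP_69fea5_lc.N3

open MeasureTheory Topology Set Filter
open scoped NNReal ENNReal

theorem HLF_pf : S_HLF := by
  intro K _ _ e he ε hε
  -- `K = 2K ∪ (e + 2K)`
  have hc : IsCompact (range fun y : K => y + y) :=
    isCompact_range (continuous_id.add continuous_id)
  have hc2 : IsCompact ((fun y : K => e + y) '' range fun y : K => y + y) :=
    hc.image (continuous_const.add continuous_id)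
  have hcl : IsClosed ((range fun y : K => y + y) ∪
      ((fun y : K => e + y) '' range fun y : K => y + y)) := hc.isClosed.union hc2.isClosed
  have hsub : (range fun n : ℤ => n • e) ⊆ (range fun y : K => y + y) ∪
      ((fun y : K => e + y) '' range fun y : K => y + y) := by
    rintro _ ⟨n, rfl⟩
    obtain ⟨m, rfl | rfl⟩ := Int.even_or_odd' n
    · left
      refine ⟨m • e, ?_⟩
      show m • e + m • e = (2 * m) • e
      rw [mul_zsmul, two_zsmul]
    · right
      refine ⟨m • e + m • e, ⟨m • e, rfl⟩, ?_⟩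
      show e + (m • e + m • e) = (2 * m + 1) • e
      rw [add_zsmul, one_zsmul, mul_zsmul, two_zsmul, add_comm]
  have hall : ∀ x : K, x ∈ (range fun y : K => y + y) ∪
      ((fun y : K => e + y) '' range fun y : K => y + y) := fun x =>
    hcl.closure_subset_iff.2 hsub (he x)
  -- elements near `0` are doubles
  have h0 : ∀ᶠ t in 𝓝 (0 : K), ∃ y : K, y + y = t := by
    by_cases h : (0 : K) ∈ (fun y : K => e + y) '' range fun y : K => y + y
    · obtain ⟨_, ⟨y, rfl⟩, hy⟩ := h
      change e + (y + y) = 0 at hy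
      refine Eventually.of_forall fun t => ?_
      rcases hall t with ⟨x, hx⟩ | ⟨_, ⟨x, rfl⟩, hx⟩
      · exact ⟨x, hx⟩
      · refine ⟨x - y, ?_⟩
        change e + (x + x) = t at hx
        rw [← hx]
        have : e = -(y + y) := eq_neg_of_add_eq_zero_left hy
        rw [this]
        abel
    · have : ∀ᶠ t in 𝓝 (0 : K), t ∉ (fun y : K => e + y) '' range fun y : K => y + y :=
        hc2.isClosed.isOpen_compl.mem_nhds h
      filter_upwards [this] with t ht
      rcases hall t with ⟨x, hx⟩ | h'
      · exact ⟨x, hx⟩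
      · exact absurd h' ht
  by_contra hcon
  push Not at hcon
  have h1 : ∀ i : ℕ, ∃ t : K, ‖t‖ < 1 / ((i : ℝ) + 1) ∧ ∀ s : K, ‖s‖ < ε → s + s ≠ t :=
    fun i => hcon _ (by positivity)
  choose t ht hts using h1
  have ht0 : Tendsto t atTop (𝓝 0) := by
    refine squeeze_zero_norm (fun i => (ht i).le) ?_
    exact tendsto_one_div_add_atTop_nhds_zero_nat (𝕜 := ℝ)
  have h2 : ∀ᶠ i in atTop, ∃ y : K, y + y = t i := ht0.eventually h0
  obtain ⟨N, hN⟩ := eventually_atTop.1 h2
  have h3 : ∀ i : ℕ, ∃ y : K, y + y = t (N + i) := fun i => hN _ (Nat.le_add_right _ _)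
  choose y hy using h3
  obtain ⟨a, -, φ, hφ, hya⟩ := (isCompact_univ (X := K)).tendsto_subseq (fun i => mem_univ (y i))
  have haa : a + a = 0 := by
    have l1 : Tendsto (fun i => y (φ i) + y (φ i)) atTop (𝓝 (a + a)) := hya.add hya
    have l2 : Tendsto (fun i => y (φ i) + y (φ i)) atTop (𝓝 0) := by
      have : (fun i => y (φ i) + y (φ i)) = fun i => t (N + φ i) := funext fun i => hy _
      rw [this]
      exact ht0.comp (tendsto_atTop_mono (fun i => (hφ.id_le i).trans (Nat.le_add_left _ _))
        tendsto_id)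
    exact tendsto_nhds_unique l1 l2
  have l3 : Tendsto (fun i => ‖y (φ i) - a‖) atTop (𝓝 0) :=
    tendsto_iff_norm_sub_tendsto_zero.1 hya
  obtain ⟨i, hi⟩ := (l3.eventually (gt_mem_nhds hε)).exists
  refine hts (N + φ i) (y (φ i) - a) hi ?_
  rw [← hy]
  have : y (φ i) - a + (y (φ i) - a) = y (φ i) + y (φ i) - (a + a) := by abel
  rw [this, haa, sub_zero]

end Pool.Agent.Work.MP_69fea5_lc.N3
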