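import Pool.Agent.Work.MP_69fea5_lc.N3.StmtsA
import Pool.Agent.Work.MP_69fea5_lc.N3.A44a

/-! Item [HUN] of block [69fea5 N3]. -/

set_option autoImplicit false

namespace Pool.Agent.Work.MP_69fea5_lc.N3

open MeasureTheory Topology Set Filter
open scoped NNReal ENNReal

theorem HUN_pf : S_HUN := by
  intro K _ _ _ _ hm _ _ e he ν hν hinv
  have hm1 : ∀ x : K, Measurable fun t : K => t + x := fun x => measurable_add_const x
  -- invariance under the multiples of `e`
  have hnat : ∀ n : ℕ, ν.map (fun t => t + (n : ℤ) • e) = ν := by
    intro n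
    induction n with
    | zero => simp
    | succ n ih =>
      have : (fun t : K => t + ((n + 1 : ℕ) : ℤ) • e) =
          (fun t => t + (n : ℤ) • e) ∘ fun t => t + e := by
        funext t
        show t + ((n + 1 : ℕ) : ℤ) • e = t + e + (n : ℤ) • e
        push_cast
        rw [add_zsmul, one_zsmul]
        abel
      rw [this, ← Measure.map_map (hm1 _) (hm1 _), hinv, ih]
  have hint : ∀ n : ℤ, ν.map (fun t => t + n • e) = ν := by
    intro n
    obtain ⟨m, rfl | rfl⟩ := n.eq_nat_or_neg
    · exact hnat m
    · have h1 : (ν.map fun t => t + (m : ℤ) • e).map (fun t => t + (-(m : ℤ)) • e) = ν := by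
        rw [Measure.map_map (hm1 _) (hm1 _)]
        have : (fun t : K => t + (-(m : ℤ)) • e) ∘ (fun t => t + (m : ℤ) • e) = id := by
          funext t
          show t + (m : ℤ) • e + (-(m : ℤ)) • e = t
          rw [neg_zsmul]
          abel
        rw [this, Measure.map_id]
      rw [hnat m] at h1
      exact h1
  -- all translations
  have hall : ∀ x : K, ν.map (fun t => t + x) = ν := by
    intro x
    have : IsProbabilityMeasure (ν.map fun t => t + x) :=
      Measure.isProbabilityMeasure_map (hm1 x).aemeasurable
    refine ext_of_forall_integral_eq_of_IsFiniteMeasure fun f => ?_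
    have hc : Continuous fun y : K => ∫ t, f (t + y) ∂ν := by
      refine continuous_of_dominated (bound := fun _ => ‖f‖) (fun y => ?_) (fun y => ?_) ?_ ?_
      · exact (f.continuous.comp (continuous_add_const y)).aestronglyMeasurable
      · exact Eventually.of_forall fun t => f.norm_coe_le_norm _
      · exact integrable_const _
      · exact Eventually.of_forall fun t => f.continuous.comp (continuous_const_add t)
    have hd : ∀ y ∈ range (fun n : ℤ => n • e), ∫ t, f (t + y) ∂ν = ∫ t, f t ∂ν := by
      rintro _ ⟨n, rfl⟩
      conv_rhs => rw [← hint n]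
      exact (integral_map (hm1 _).aemeasurable f.continuous.aestronglyMeasurable).symm
    have hx : ∫ t, f (t + x) ∂ν = ∫ t, f t ∂ν := by
      have hcl : IsClosed {y : K | ∫ t, f (t + y) ∂ν = ∫ t, f t ∂ν} :=
        isClosed_eq hc continuous_const
      exact hcl.closure_subset_iff.2 hd (he x)
    rw [integral_map (hm1 x).aemeasurable f.continuous.aestronglyMeasurable, hx]
  have : ν.IsAddLeftInvariant := by
    constructor
    intro x
    have : (fun t : K => x + t) = fun t => t + x := funext fun t => add_comm x t
    rw [this]
    exact hall x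
  have := isAddHaar ν
  exact Measure.isAddHaarMeasure_eq_of_isProbabilityMeasure ν hm

end Pool.Agent.Work.MP_69fea5_lc.N3
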