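import Pool.Agent.Work.MP_69fea5_lc.N3.StmtsB

/-!
# Block [69fea5 N3], item IIB: no state near the base point
-/

set_option autoImplicit false

namespace Pool.Agent.Work.MP_69fea5_lc.N3

open MeasureTheory Topology Set Filter ProbabilityTheory
open scoped NNReal ENNReal
open Pool.Agent.Work.MP_69fea5_lc.AK

namespace I_IIB

/-- finite covers of a neighbourhood by closed sets: one of them has interior points near the
point, for one and the same index for all neighbourhoods -/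
theorem cover {X I : Type} [TopologicalSpace X] [Finite I] (Y : Set X) (x₀ : X) (hx : x₀ ∈ Y)
    (E : I → Set X) (hE : ∀ r, IsClosed (E r)) (O₀ : Set X) (hO : O₀ ∈ 𝓝 x₀)
    (hcov : ∀ x ∈ Y ∩ O₀, ∃ r, x ∈ E r) :
    ∃ r, ∀ O ∈ 𝓝 x₀, ∃ x₁ ∈ Y ∩ O, ∃ O₁ ∈ 𝓝 x₁, ∀ x ∈ Y ∩ O₁, x ∈ E r := by
  classical
  have := Fintype.ofFinite I
  by_contra hcon
  push Not at hcon
  choose V hV hne using hcon
  set O' : Set X := interior (O₀ ∩ ⋂ r, V r) with hO'
  have hO'x : x₀ ∈ O' := mem_interior_iff_mem_nhds.2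
    (inter_mem hO ((Filter.iInter_mem).2 fun r => hV r))
  have key : ∀ T : Finset I, ∃ x ∈ Y ∩ O', ∀ r ∈ T, x ∉ E r := by
    intro T
    induction T using Finset.induction_on with
    | empty => exact ⟨x₀, ⟨hx, hO'x⟩, fun r hr => absurd hr (Finset.notMem_empty r)⟩
    | insert a T ha ih =>
      obtain ⟨x, ⟨hxY, hxO⟩, hxE⟩ := ih
      have hopen : IsOpen (O' ∩ ⋂ r ∈ T, (E r)ᶜ) :=
        isOpen_interior.inter (isOpen_biInter_finset fun r _ => (hE r).isOpen_compl)
      have hmem : x ∈ O' ∩ ⋂ r ∈ T, (E r)ᶜ := by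
        refine ⟨hxO, ?_⟩
        simp only [mem_iInter]
        exact fun r hr => hxE r hr
      have hxV : x ∈ V a := by
        have h1 : x ∈ O₀ ∩ ⋂ r, V r := interior_subset hxO
        exact mem_iInter.1 h1.2 a
      obtain ⟨y, ⟨hyY, hyO⟩, hyE⟩ := hne a x ⟨hxY, hxV⟩ _ (hopen.mem_nhds hmem)
      refine ⟨y, ⟨hyY, hyO.1⟩, fun r hr => ?_⟩
      rcases Finset.mem_insert.1 hr with rfl | hr
      · exact hyE
      · have h2 := hyO.2
        simp only [mem_iInter] at h2
        exact h2 r hr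
  obtain ⟨x, ⟨hxY, hxO⟩, hxE⟩ := key Finset.univ
  obtain ⟨r, hr⟩ := hcov x ⟨hxY, (interior_subset hxO).1⟩
  exact hxE r (Finset.mem_univ r) hr

end I_IIB

theorem IIB_pf (h1 : S_PUR) (h2 : AK.S_USC) (h3 : AK.S_CYL) (h4 : AK.S_PMB) (h5 : AK.S_STG) :
    S_IIB := by
  classical
  intro k c M K _ _ _ _ e π hm μ η hF U m0 hU hS hA z hz hz0 𝒲 W hW hword hst
  obtain ⟨δ, hδ, hpur⟩ := h1 k c M K e π hm μ η hF U m0 hU hS hA z hz hz0 𝒲 W hW hword hst
  obtain ⟨-, -, hone, -, -⟩ := h5 k c m0 _ hS.stg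
  have hm0 : m0 ∈ orb m0 := subset_closure ⟨0, AK.sh_zero m0⟩
  -- the graph of the position
  have hFcl : IsClosed {q : Om k × K | q.1 ∈ M ∧ π q.1 = q.2} := by
    have hcl : IsClosed {q : Om k × K | q.1 ∈ M} := hF.fr.min.closed.preimage continuous_fst
    have hco : ContinuousOn (fun q : Om k × K => (π q.1, q.2)) {q : Om k × K | q.1 ∈ M} :=
      (hF.fr.kro.cont.comp continuous_fst.continuousOn fun q hq => hq).prodMk
        continuous_snd.continuousOn
    exact hco.preimage_isClosed_of_isClosed hcl isClosed_diagonal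
  have hB : IsClosed {p : PM k × K | (1 : ℝ≥0) ≤ p.1 (fb M π p.2)} := h2 k K _ hFcl 1
  have hAcl : IsClosed (Prod.fst '' ({p : PM k × K | (1 : ℝ≥0) ≤ p.1 (fb M π p.2)} ∩
      {p : PM k × K | δ ≤ ‖p.2‖})) := by
    refine isClosedMap_fst_of_compactSpace _ (hB.inter ?_)
    exact isClosed_le continuous_const continuous_snd.norm
  set O₀ : Set (PM k) := (Prod.fst '' ({p : PM k × K | (1 : ℝ≥0) ≤ p.1 (fb M π p.2)} ∩
      {p : PM k × K | δ ≤ ‖p.2‖}))ᶜ with hO₀
  have hm0O : m0 ∈ O₀ := by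
    rintro ⟨⟨m, a⟩, ⟨ha1, ha2⟩, rfl⟩
    simp only [mem_ofPred_eq] at ha1 ha2
    have ha0 : a ≠ 0 := by
      rintro rfl
      rw [norm_zero] at ha2
      exact absurd ha2 (not_le.2 hδ)
    -- two disjoint sets of full measure
    have e1 : (m : Measure (Om k)) (fb M π 0)ᶜ = 0 := by
      have h6 : (m : Measure (Om k)) (fb M π 0) = 1 := by
        have h8 : m (fb M π 0) = 1 := hS.zer
        rw [← ProbabilityMeasure.ennreal_coeFn_eq_coeFn_toMeasure, h8, ENNReal.coe_one]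
      have hmeas : MeasurableSet (fb M π (0 : K)) := by
        have : IsClosed (fb M π (0 : K)) :=
          hFcl.preimage (continuous_id.prodMk continuous_const : Continuous fun x : Om k => (x, (0 : K)))
        exact this.measurableSet
      exact (prob_compl_eq_zero_iff hmeas).2 h6
    have e2 : (m : Measure (Om k)) (fb M π a) ≤ (m : Measure (Om k)) (fb M π 0)ᶜ := by
      refine measure_mono ?_
      rintro x ⟨hx1, hx2⟩ ⟨hx3, hx4⟩
      exact ha0 (hx2.symm.trans hx4)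
    rw [e1] at e2
    have e3 : m (fb M π a) = 0 := by
      have h7 := le_antisymm e2 (zero_le)
      rw [← ProbabilityMeasure.ennreal_coeFn_eq_coeFn_toMeasure] at h7
      exact_mod_cast h7
    rw [e3] at ha1
    exact absurd ha1 (by norm_num)
  have hcov : ∀ m ∈ orb m0 ∩ O₀, ∃ r, m ∈ {m : PM k | ∀ P ∈ 𝒲, mid P = some r → m (cyl P 0) = 0} := by
    rintro m ⟨hm1, hm2⟩
    have h6 := hone m hm1
    have hne : {z | (z, m) ∈ MM m0}.Nonempty := by
      by_contra hh
      rw [not_nonempty_iff_eq_empty] at hh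
      rw [hh] at h6
      simp at h6
    obtain ⟨x, hx⟩ := hne
    have h7 := (hS.onM _ hx).2
    simp only at h7
    refine hpur m hm1 (π x) ?_ h7
    by_contra hh
    exact hm2 ⟨(m, π x), ⟨le_of_eq h7.symm, not_lt.1 hh⟩, rfl⟩
  have hE : ∀ r : Fin k, IsClosed {m : PM k | ∀ P ∈ 𝒲, mid P = some r → m (cyl P 0) = 0} := by
    intro r
    have : {m : PM k | ∀ P ∈ 𝒲, mid P = some r → m (cyl P 0) = 0} =
        ⋂ P ∈ {P : Wd k | P ∈ 𝒲 ∧ mid P = some r}, {m : PM k | m (cyl P 0) = 0} := by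
      ext m
      simp only [mem_ofPred_eq, mem_iInter, and_imp]
    rw [this]
    refine isClosed_biInter fun P _ => ?_
    exact isClosed_eq ((h4 k).2.2.1 _ ((h3 k).1 P 0)) continuous_const
  exact I_IIB.cover (orb m0) m0 hm0 _ hE O₀ (hAcl.isOpen_compl.mem_nhds hm0O) hcov

end Pool.Agent.Work.MP_69fea5_lc.N3
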