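import Pool.Agent.Work.MP_69fea5_lc.N3.StmtsA

set_option autoImplicit false

namespace Pool.Agent.Work.MP_69fea5_lc.N3

open MeasureTheory Topology Set Filter ProbabilityTheory
open scoped NNReal ENNReal
open Pool.Agent.Work.MP_69fea5_lc.AK

namespace I_IKB

theorem cont {K : Type} [NormedAddCommGroup K] (e : K) : Continuous (iK e) := by
  refine continuous_pi fun _ => continuous_pi fun j => ?_
  exact continuous_projIcc.comp (continuous_norm.comp (continuous_id.add continuous_const))

theorem inj {K : Type} [NormedAddCommGroup K] (e : K)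
    (hd : Dense (Set.range fun n : ℤ => n • e)) (h1 : ∀ x : K, ‖x‖ ≤ 1) :
    Function.Injective (iK e) := by
  intro v v' h
  have h2 : ∀ j : ℤ, ‖v + j • e‖ = ‖v' + j • e‖ := by
    intro j
    have h3 : iK e v () j = iK e v' () j := by rw [h]
    have h4 : ((iK e v () j : Set.Icc (0 : ℝ) 1) : ℝ) = (iK e v' () j : Set.Icc (0 : ℝ) 1) := by
      rw [h3]
    simp only [iK] at h4
    rw [Set.coe_projIcc, Set.coe_projIcc, min_eq_right (h1 _), min_eq_right (h1 _),
      max_eq_right (norm_nonneg _), max_eq_right (norm_nonneg _)] at h4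
    exact h4
  have h3 : (fun x : K => ‖v + x‖) = fun x : K => ‖v' + x‖ := by
    apply Continuous.ext_on hd
    · exact continuous_norm.comp (continuous_const.add continuous_id)
    · exact continuous_norm.comp (continuous_const.add continuous_id)
    · rintro x ⟨j, rfl⟩
      exact h2 j
  have h4 := congrFun h3 (-v)
  simp only [add_neg_cancel, norm_zero] at h4
  have h5 : v' + -v = 0 := norm_eq_zero.mp h4.symm
  have h6 : v' - v = 0 := by rw [sub_eq_add_neg]; exact h5
  exact (sub_eq_zero.mp h6).symm

end I_IKB

theorem IKB_pf : S_IKB := by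
  intro K _ _ e hd h1
  have hc := I_IKB.cont e
  have hi := I_IKB.inj e hd h1
  refine ⟨hc, hi, ?_, (isCompact_range hc).isClosed, ?_⟩
  · intro v n
    funext u j
    show Set.projIcc (0 : ℝ) 1 zero_le_one ‖v + n • e + j • e‖ = iK e v u (j + n)
    simp only [iK]
    congr 2
    rw [add_zsmul, add_assoc, add_comm (n • e)]
  · intro v F h
    have hcl : IsClosedEmbedding (iK e) := hc.isClosedEmbedding hi
    rw [hcl.isInducing.nhds_eq_comap]
    exact h.le_comap

end Pool.Agent.Work.MP_69fea5_lc.N3
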