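import Pool.Agent.Work.MP_69fea5_lc.N3.StmtsH

/-!
# [69fea5 N3 K3S] the law of the pairs before a last point at the position `0`
-/

set_option autoImplicit false

namespace Pool.Agent.Work.MP_69fea5_lc.N3

open MeasureTheory Topology Set Filter ProbabilityTheory
open scoped NNReal ENNReal
open Pool.Agent.Work.MP_69fea5_lc.AK

namespace I_K3S

variable {k : ℕ} {K : Type} [NormedAddCommGroup K] [CompactSpace K] [MeasurableSpace K]
  [BorelSpace K]

/-- products of values of a Markov kernel at continuous positions are measurable -/
theorem meas (η : Kernel K (Om k)) [IsMarkovKernel η] (f g : K → K) (hf : Continuous f)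
    (hg : Continuous g) : Measurable fun t => (η (f t)).prod (η (g t)) := by
  have h := ((η.comap f hf.measurable) ×ₖ (η.comap g hg.measurable)).measurable
  have e : (fun t => (η (f t)).prod (η (g t))) =
      ((η.comap f hf.measurable) ×ₖ (η.comap g hg.measurable)) := by
    funext t
    rw [Kernel.prod_apply, Kernel.comap_apply, Kernel.comap_apply]
  rw [e]
  exact h

end I_K3S

open I_K3S in
theorem K3S_pf : S_K3S := by
  intro k M K _ _ _ _ e π hm μ η hFr
  have hmk : IsMarkovKernel η := hFr.dis.markov
  have hpr : IsProbabilityMeasure hm := hFr.prob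
  have hhaar : hm.IsAddHaarMeasure := hFr.haar
  have hneg : hm.map (fun t => -t) = hm := Measure.map_neg_eq_self hm
  have m1 : Measurable fun t : K => (η (0 + t)).prod (η (0 + t + t)) :=
    meas η (fun t => 0 + t) (fun t => 0 + t + t) (by fun_prop) (by fun_prop)
  have m3 : Measurable fun t : K => (η (0 - t - t)).prod (η (0 - t)) :=
    meas η (fun t => 0 - t - t) (fun t => 0 - t) (by fun_prop) (by fun_prop)
  ext S hS
  have hS' : MeasurableSet (Prod.swap ⁻¹' S : Set (Om k × Om k)) := measurable_swap hS
  unfold kap3 kap1
  rw [Measure.map_apply measurable_swap hS, Measure.bind_apply hS m3.aemeasurable,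
    Measure.bind_apply hS' m1.aemeasurable]
  have hmeas : Measurable fun t : K => ((η (0 - t - t)).prod (η (0 - t))) S :=
    (Measure.measurable_coe hS).comp m3
  conv_lhs => rw [← hneg]
  rw [lintegral_map hmeas measurable_neg]
  refine lintegral_congr fun t => ?_
  have e1 : (0 : K) - -t - -t = 0 + t + t := by abel
  have e2 : (0 : K) - -t = 0 + t := by abel
  rw [e1, e2, ← Measure.map_apply measurable_swap hS, Measure.prod_swap]

end Pool.Agent.Work.MP_69fea5_lc.N3
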