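import Pool.Agent.Work.MP_69fea5_lc.N3.StmtsA

/-! Item [KCP] of block [69fea5 N3]: the compact group of a continuous invariant pseudometric on a
minimal set. -/

set_option autoImplicit false

namespace Pool.Agent.Work.MP_69fea5_lc.N3

open MeasureTheory Topology Set Filter
open scoped NNReal ENNReal
open Pool.Agent.Work.MP_69fea5_lc.AK

namespace I_KCP

section

variable {k : ℕ} {M : Set (Om k)} {d : Om k → Om k → ℝ}

/-- the seminorm `n ↦ d (T^n x₀, x₀)` on `ℤ` -/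
noncomputable def sem (h : IPM M d) (hi : AK.Inv M) {x₀ : Om k} (hx₀ : x₀ ∈ M) :
    AddGroupSeminorm ℤ where
  toFun n := d (sh n x₀) x₀
  map_zero' := by rw [sh_zero]; exact h.self _ hx₀
  add_le' m n := by
    have h1 := h.tri _ (hi (m + n) x₀ hx₀) _ (hi n x₀ hx₀) _ hx₀
    have e : d (sh (m + n) x₀) (sh n x₀) = d (sh m x₀) x₀ := by
      rw [add_comm m n, sh_add n m, h.inv n _ (hi m x₀ hx₀) _ hx₀]
    rw [e] at h1
    exact h1
  neg' n := by
    have h1 := h.inv n _ (hi (-n) x₀ hx₀) _ hx₀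
    rw [← sh_add, add_neg_cancel, sh_zero] at h1
    show d (sh (-n) x₀) x₀ = d (sh n x₀) x₀
    rw [← h1, h.symm _ hx₀ _ (hi n x₀ hx₀)]

theorem sem_apply (h : IPM M d) (hi : AK.Inv M) {x₀ : Om k} (hx₀ : x₀ ∈ M) (n : ℤ) :
    sem h hi hx₀ n = d (sh n x₀) x₀ := rfl

theorem sem_sub (h : IPM M d) (hi : AK.Inv M) {x₀ : Om k} (hx₀ : x₀ ∈ M) (m n : ℤ) :
    sem h hi hx₀ (m - n) = d (sh m x₀) (sh n x₀) := by
  rw [sem_apply, ← h.inv n _ (hi (m - n) x₀ hx₀) _ hx₀, ← sh_add]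
  congr 2
  ring

end

/-- the integers with a seminorm -/
def ZK (_ : AddGroupSeminorm ℤ) : Type := ℤ

instance (p : AddGroupSeminorm ℤ) : AddCommGroup (ZK p) := inferInstanceAs (AddCommGroup ℤ)

noncomputable instance (p : AddGroupSeminorm ℤ) : SeminormedAddCommGroup (ZK p) :=
  AddGroupSeminorm.toSeminormedAddCommGroup (E := ZK p) p

/-- the inclusion -/
def toZK (p : AddGroupSeminorm ℤ) (n : ℤ) : ZK p := n

/-- the completion of `(ℤ, p)` -/
abbrev KG (p : AddGroupSeminorm ℤ) : Type := UniformSpace.Completion (ZK p)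

/-- the integers in `KG p` -/
noncomputable def ik (p : AddGroupSeminorm ℤ) (n : ℤ) : KG p := (toZK p n : KG p)

theorem ik_norm (p : AddGroupSeminorm ℤ) (n : ℤ) : ‖ik p n‖ = p n :=
  UniformSpace.Completion.norm_coe (toZK p n)

theorem ik_add (p : AddGroupSeminorm ℤ) (m n : ℤ) : ik p (m + n) = ik p m + ik p n :=
  UniformSpace.Completion.coe_add (toZK p m) (toZK p n)

theorem ik_neg (p : AddGroupSeminorm ℤ) (n : ℤ) : ik p (-n) = -ik p n :=
  UniformSpace.Completion.coe_neg (toZK p n)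

theorem ik_sub (p : AddGroupSeminorm ℤ) (m n : ℤ) : ik p (m - n) = ik p m - ik p n := by
  rw [sub_eq_add_neg, ik_add, ik_neg, sub_eq_add_neg]

theorem ik_zero (p : AddGroupSeminorm ℤ) : ik p 0 = 0 :=
  UniformSpace.Completion.coe_zero (α := ZK p)

theorem ik_zsmul (p : AddGroupSeminorm ℤ) (n : ℤ) : n • ik p 1 = ik p n := by
  have h : ∀ m : ℕ, (m : ℤ) • ik p 1 = ik p m := by
    intro m
    induction m with
    | zero => simp [ik_zero]
    | succ m ih =>
      push_cast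
      rw [add_zsmul, one_zsmul, ih, ik_add]
  obtain ⟨m, rfl | rfl⟩ := n.eq_nat_or_neg
  · exact h m
  · rw [neg_zsmul, h m, ik_neg]

theorem ik_dense (p : AddGroupSeminorm ℤ) : Dense (range (ik p)) :=
  UniformSpace.Completion.denseRange_coe (α := ZK p)

section

variable {k : ℕ} {M : Set (Om k)} {d : Om k → Om k → ℝ}

theorem orbit_dense {x₀ : Om k} (hM : MinSet M) (hx₀ : x₀ ∈ M) {y : Om k} (hy : y ∈ M)
    {U : Set (Om k)} (hU : U ∈ 𝓝 y) : ∃ n : ℤ, sh n x₀ ∈ U := by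
  have hcl : IsClosed (closure (range fun n : ℤ => sh n x₀)) := isClosed_closure
  have hsub : closure (range fun n : ℤ => sh n x₀) ⊆ M :=
    hM.closed.closure_subset_iff.2 (by rintro _ ⟨n, rfl⟩; exact hM.inv n x₀ hx₀)
  have hinv : AK.Inv (closure (range fun n : ℤ => sh n x₀)) := by
    intro n x hx
    have hm : MapsTo (sh n : Om k → Om k) (range fun n : ℤ => sh n x₀)
        (range fun n : ℤ => sh n x₀) := by
      rintro _ ⟨m, rfl⟩
      exact ⟨n + m, sh_add n m x₀⟩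
    exact hm.closure (sh_cont n) hx
  have he : closure (range fun n : ℤ => sh n x₀) = M :=
    hM.min _ hcl ⟨x₀, subset_closure ⟨0, sh_zero x₀⟩⟩ hinv hsub
  have hy' : y ∈ closure (range fun n : ℤ => sh n x₀) := he ▸ hy
  obtain ⟨_, h1, n, rfl⟩ := mem_closure_iff_nhds.1 hy' U hU
  exact ⟨n, h1⟩

theorem near (h : IPM M d) (hM : MinSet M) {x₀ : Om k} (hx₀ : x₀ ∈ M) {y : Om k} (hy : y ∈ M)
    {ε : ℝ} (hε : 0 < ε) : ∃ n : ℤ, d y (sh n x₀) < ε := by
  have hc := h.cont (y, y) ⟨hy, hy⟩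
  have : {p : Om k × Om k | d p.1 p.2 < ε} ∈ 𝓝[M ×ˢ M] (y, y) :=
    hc.eventually (gt_mem_nhds (show d y y < ε by rw [h.self y hy]; exact hε))
  rw [nhdsWithin_prod_eq] at this
  obtain ⟨S, hS, S', hS', hSS⟩ := Filter.mem_prod_iff.1 this
  obtain ⟨U, hU, hUS⟩ := mem_nhdsWithin_iff_exists_mem_nhds_inter.1 hS'
  obtain ⟨n, hn⟩ := orbit_dense hM hx₀ hy hU
  refine ⟨n, ?_⟩
  have : (y, sh n x₀) ∈ {p : Om k × Om k | d p.1 p.2 < ε} :=
    hSS ⟨mem_of_mem_nhdsWithin hy hS, hUS ⟨hn, hM.inv n x₀ hx₀⟩⟩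
  exact this

theorem compact (h : IPM M d) (hM : MinSet M) {x₀ : Om k} (hx₀ : x₀ ∈ M) :
    CompactSpace (KG (sem h hM.inv hx₀)) := by
  have htb : TotallyBounded (univ : Set (ZK (sem h hM.inv hx₀))) := by
    refine Metric.totallyBounded_iff.2 fun ε hε => ?_
    have hMc : IsCompact M := hM.closed.isCompact
    have hcov : ∀ y ∈ M, ∃ V ∈ 𝓝[M] y, ∃ n : ℤ, ∀ z ∈ V, d z (sh n x₀) < ε := by
      intro y hy
      obtain ⟨n, hn⟩ := near h hM hx₀ hy hε
      have hc : ContinuousOn (fun z => d z (sh n x₀)) M := by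
        refine h.cont.comp (f := fun z => (z, sh n x₀))
          (continuousOn_id.prodMk continuousOn_const) fun z hz => ⟨hz, hM.inv n x₀ hx₀⟩
      exact ⟨_, (hc y hy).eventually (gt_mem_nhds hn), n, fun z hz => hz⟩
    choose! V hV n hn using hcov
    obtain ⟨t, ht, hMt⟩ := hMc.elim_nhdsWithin_subcover V hV
    refine ⟨(fun y => toZK (sem h hM.inv hx₀) (n y)) '' (t : Set (Om k)),
      t.finite_toSet.image _, ?_⟩
    intro m _
    have hm : sh (m : ℤ) x₀ ∈ M := hM.inv m x₀ hx₀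
    obtain ⟨y, hy, hmy⟩ := mem_iUnion₂.1 (hMt hm)
    refine mem_iUnion₂.2 ⟨toZK _ (n y), mem_image_of_mem _ hy, ?_⟩
    rw [Metric.mem_ball, dist_eq_norm]
    have h9 := hn y (ht y hy) _ hmy
    exact (sem_sub h hM.inv hx₀ m (n y)).trans_lt h9
  have hc : TotallyBounded (univ : Set (KG (sem h hM.inv hx₀))) := by
    have := (htb.image
      (UniformSpace.Completion.uniformContinuous_coe (ZK (sem h hM.inv hx₀)))).closure
    rwa [image_univ,
      (UniformSpace.Completion.denseRange_coe (α := ZK (sem h hM.inv hx₀))).closure_range]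
      at this
  exact ⟨isCompact_iff_totallyBounded_isComplete.2 ⟨hc, isComplete_univ⟩⟩

/-- the point of `KG` over `x` -/
theorem exists_pt (h : IPM M d) (hM : MinSet M) {x₀ : Om k} (hx₀ : x₀ ∈ M)
    {x : Om k} (hx : x ∈ M) :
    ∃ v : KG (sem h hM.inv hx₀), ∀ n : ℤ, ‖v - ik _ n‖ = d x (sh n x₀) := by
  have := compact h hM hx₀
  -- integers close to `x`
  have h1 : ∀ i : ℕ, ∃ m : ℤ, d x (sh m x₀) < 1 / ((i : ℝ) + 1) := fun i =>
    near h hM hx₀ hx (by positivity)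
  choose m hm using h1
  obtain ⟨v, -, φ, hφ, hv⟩ := (isCompact_univ (X := KG (sem h hM.inv hx₀))).tendsto_subseq
    (x := fun i => ik (sem h hM.inv hx₀) (m i)) (fun i => mem_univ _)
  refine ⟨v, fun n => ?_⟩
  have l1 : Tendsto (fun i => ‖ik (sem h hM.inv hx₀) (m (φ i)) - ik _ n‖) atTop
      (𝓝 ‖v - ik _ n‖) := (hv.sub_const _).norm
  have l2 : Tendsto (fun i => ‖ik (sem h hM.inv hx₀) (m (φ i)) - ik _ n‖) atTop
      (𝓝 (d x (sh n x₀))) := by
    have l0 : Tendsto (fun i : ℕ => 1 / ((φ i : ℝ) + 1)) atTop (𝓝 0) :=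
      (tendsto_one_div_add_atTop_nhds_zero_nat (𝕜 := ℝ)).comp hφ.tendsto_atTop
    have l3 : Tendsto (fun i : ℕ => d x (sh n x₀) - 1 / ((φ i : ℝ) + 1)) atTop
        (𝓝 (d x (sh n x₀))) := by
      have := l0.const_sub (d x (sh n x₀))
      rwa [sub_zero] at this
    have l4 : Tendsto (fun i : ℕ => d x (sh n x₀) + 1 / ((φ i : ℝ) + 1)) atTop
        (𝓝 (d x (sh n x₀))) := by
      have := l0.const_add (d x (sh n x₀))
      rwa [add_zero] at this
    refine tendsto_of_tendsto_of_tendsto_of_le_of_le l3 l4 (fun i => ?_) (fun i => ?_)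
    · show d x (sh n x₀) - 1 / ((φ i : ℝ) + 1) ≤ ‖ik (sem h hM.inv hx₀) (m (φ i)) - ik _ n‖
      rw [← ik_sub, ik_norm, sem_sub]
      have := h.tri _ hx _ (hM.inv (m (φ i)) x₀ hx₀) _ (hM.inv n x₀ hx₀)
      linarith [hm (φ i)]
    · show ‖ik (sem h hM.inv hx₀) (m (φ i)) - ik _ n‖ ≤ d x (sh n x₀) + 1 / ((φ i : ℝ) + 1)
      rw [← ik_sub, ik_norm, sem_sub]
      have := h.tri _ (hM.inv (m (φ i)) x₀ hx₀) _ hx _ (hM.inv n x₀ hx₀)
      rw [h.symm _ (hM.inv (m (φ i)) x₀ hx₀) _ hx] at this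
      linarith [hm (φ i)]
  exact tendsto_nhds_unique l1 l2

end

/-- the group of a continuous invariant pseudometric -/
theorem exists_group {k : ℕ} {M : Set (Om k)} {d : Om k → Om k → ℝ} (h : IPM M d)
    (hM : MinSet M) {x₀ : Om k} (hx₀ : x₀ ∈ M) :
    ∃ (K : Type) (_ : NormedAddCommGroup K) (_ : CompactSpace K) (e : K) (q : Om k → K),
      Dense (range fun n : ℤ => n • e) ∧ ContinuousOn q M ∧ q x₀ = 0 ∧
      (∀ x ∈ M, ∀ n : ℤ, q (sh n x) = q x + n • e) ∧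
      (∀ x ∈ M, ∀ y ∈ M, ‖q x - q y‖ = d x y) ∧
      (∀ n : ℤ, ‖n • e‖ = d (sh n x₀) x₀) := by
  classical
  refine ⟨KG (sem h hM.inv hx₀), inferInstance, compact h hM hx₀, ik _ 1, ?_⟩
  have h1 : ∀ x ∈ M, ∃ v : KG (sem h hM.inv hx₀), ∀ n : ℤ, ‖v - ik _ n‖ = d x (sh n x₀) :=
    fun x hx => exists_pt h hM hx₀ hx
  choose! q hq using h1
  have huniq : ∀ v v' : KG (sem h hM.inv hx₀), (∀ n : ℤ, ‖v - ik _ n‖ = ‖v' - ik _ n‖) →
      v = v' := by
    intro v v' hv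
    refine eq_of_dist_eq_zero (le_antisymm (le_of_forall_pos_le_add fun ε hε => ?_) dist_nonneg)
    obtain ⟨_, hn, ⟨n, rfl⟩⟩ := Metric.dense_iff.1 (ik_dense (sem h hM.inv hx₀)) v (ε / 2)
      (by positivity)
    have e1 : ‖v - ik _ n‖ < ε / 2 := by
      rw [← dist_eq_norm, dist_comm]; exact hn
    have e2 : ‖v' - ik _ n‖ < ε / 2 := hv n ▸ e1
    have h7 := dist_triangle v (ik (sem h hM.inv hx₀) n) v'
    have e3 : dist v (ik (sem h hM.inv hx₀) n) < ε / 2 := by rw [dist_eq_norm]; exact e1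
    have e4 : dist (ik (sem h hM.inv hx₀) n) v' < ε / 2 := by
      rw [dist_comm, dist_eq_norm]; exact e2
    linarith
  have hiso : ∀ x ∈ M, ∀ y ∈ M, ‖q x - q y‖ = d x y := by
    intro x hx y hy
    refine le_antisymm (le_of_forall_pos_le_add fun ε hε => ?_)
      (le_of_forall_pos_le_add fun ε hε => ?_)
    · obtain ⟨n, hn⟩ := near h hM hx₀ hx (show 0 < ε / 2 by positivity)
      have t1 := norm_sub_le_norm_sub_add_norm_sub (q x) (ik _ n) (q y)
      have t2 := h.tri _ hy _ hx _ (hM.inv n x₀ hx₀)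
      rw [norm_sub_rev (ik _ n) (q y), hq x hx n, hq y hy n] at t1
      rw [h.symm _ hy _ hx] at t2
      linarith
    · obtain ⟨n, hn⟩ := near h hM hx₀ hx (show 0 < ε / 2 by positivity)
      have t1 := norm_sub_le_norm_sub_add_norm_sub (q y) (q x) (ik _ n)
      have t2 := h.tri _ hx _ (hM.inv n x₀ hx₀) _ hy
      rw [hq x hx n, hq y hy n, norm_sub_rev (q y) (q x)] at t1
      rw [h.symm _ (hM.inv n x₀ hx₀) _ hy] at t2
      linarith
  refine ⟨q, ?_, ?_, ?_, ?_, hiso, ?_⟩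
  · have : (fun n : ℤ => n • ik (sem h hM.inv hx₀) 1) = ik (sem h hM.inv hx₀) :=
      funext fun n => ik_zsmul _ n
    rw [this]
    exact ik_dense _
  · intro x hx
    rw [ContinuousWithinAt, tendsto_iff_norm_sub_tendsto_zero]
    have hc : ContinuousOn (fun z => d z x) M :=
      h.cont.comp (f := fun z => (z, x)) (continuousOn_id.prodMk continuousOn_const)
        fun z hz => ⟨hz, hx⟩
    have h2 := hc x hx
    rw [ContinuousWithinAt, h.self x hx] at h2
    refine h2.congr' ?_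
    filter_upwards [self_mem_nhdsWithin] with z hz
    exact (hiso z hz x hx).symm
  · refine huniq _ _ fun n => ?_
    rw [hq x₀ hx₀ n, zero_sub, norm_neg, ik_norm, sem_apply, h.symm _ hx₀ _ (hM.inv n x₀ hx₀)]
  · intro x hx n
    refine huniq _ _ fun j => ?_
    rw [hq _ (hM.inv n x hx) j, ik_zsmul]
    have : q x + ik (sem h hM.inv hx₀) n - ik (sem h hM.inv hx₀) j =
        q x - ik (sem h hM.inv hx₀) (j - n) := by
      rw [ik_sub]; abel
    rw [this, hq x hx, ← h.inv n _ hx _ (hM.inv (j - n) x₀ hx₀), ← sh_add]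
    congr 2
    ring
  · intro n
    rw [ik_zsmul, ik_norm, sem_apply]

end I_KCP

theorem KCP_pf : S_KCP := by
  intro k g ρ hM hρ
  have hg : g ∈ orb g := subset_closure ⟨0, sh_zero g⟩
  exact I_KCP.exists_group hρ hM hg

end Pool.Agent.Work.MP_69fea5_lc.N3
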