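import Pool.Agent.Work.MP_69fea5_lc.N3.StmtsA

set_option autoImplicit false

namespace Pool.Agent.Work.MP_69fea5_lc.N3

open MeasureTheory Topology Set Filter ProbabilityTheory
open scoped NNReal ENNReal
open Pool.Agent.Work.MP_69fea5_lc.AK

/-- [KGR] the base `K` itself. -/
theorem KGR_pf (hORB : AK.S_ORB) (hIMG : AK.S_IMG) (hOMG : AK.S_OMG) (hIKB : S_IKB) : S_KGR := by
  intro k c g K _ _ e π G b hM hK h1 hG hb hc he Γ
  obtain ⟨hcont, -, heq, -, -⟩ := hIKB K e hK.dense h1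
  have hmin : MinSet Γ := by
    refine hIMG (Om k) (Om k × Cube Unit) (orb g) (fun w => (w, iK e (π w))) hM
      (continuousOn_id.prodMk (hcont.comp_continuousOn hK.cont)) ?_
    intro n x hx
    change (sh n x, iK e (π (sh n x))) = (sh n x, sh n (iK e (π x)))
    rw [hK.equi x hx n, heq]
  refine ⟨hmin, ?_⟩
  obtain ⟨-, -, hg, -, -, -, -⟩ := hORB (Om k) g
  obtain ⟨-, -, -, -, -, hsub, -⟩ := hORB (Om k × Cube Unit) (c, iK e (0 : K))
  obtain ⟨hcl, hinv, -⟩ := hOMG (Om k × Cube Unit) (c, iK e (0 : K))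
  refine hsub Γ _ hmin hcl hinv ⟨(g, iK e (π g)), ⟨g, hg, rfl⟩, ?_⟩
  intro U hU N
  have ht : Tendsto (fun n => sh (b n : ℤ) (c, iK e (0 : K))) (G : Filter ℕ)
      (𝓝 (g, iK e (π g))) := by
    have h2 : Tendsto (fun n => iK e ((b n : ℤ) • e)) (G : Filter ℕ) (𝓝 (iK e (π g))) :=
      (hcont.tendsto (π g)).comp he
    have h3 : (fun n => sh (b n : ℤ) (c, iK e (0 : K))) =
        fun n => (sh (b n : ℤ) c, iK e ((b n : ℤ) • e)) := by
      funext n
      rw [sh_prod, ← heq (0 : K) (b n : ℤ), zero_add]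
    rw [h3]
    exact hc.prodMk_nhds h2
  have h4 : ∀ᶠ n in (G : Filter ℕ), sh (b n : ℤ) (c, iK e (0 : K)) ∈ U := ht hU
  have h5 : ∀ᶠ n in (G : Filter ℕ), N ≤ n := hG (eventually_ge_atTop N)
  obtain ⟨n, hn1, hn2⟩ := (h4.and h5).exists
  exact ⟨b n, hn2.trans (hb n), hn1⟩

end Pool.Agent.Work.MP_69fea5_lc.N3
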