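import Pool.Agent.Work.MP_69fea5_lc.N3.StmtsH
import Pool.Agent.Work.MP_69fea5_lc.KC.I_LAWCU
import Pool.Agent.Work.MP_69fea5_lc.HK.InstPM

/-!
# Block [69fea5 N3], item KMI

A coded invariant measure on the orbit closure of a coded point (adapted from `KC/I_KINIT.lean`).
-/

set_option autoImplicit false

namespace Pool.Agent.Work.MP_69fea5_lc.N3

open MeasureTheory Topology Set Filter ProbabilityTheory
open scoped NNReal ENNReal
open Pool.Agent.Work.MP_69fea5_lc.AK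
open Pool.Agent.Work.MP_69fea5_lc.HK (Cl DU Ar ArF ArR Dat Law LawC act near sc Pt oc Mn mr)

namespace I_KMI

/-- limits along an ultrafilter in a compact space -/
theorem exists_lim {α : Type} [TopologicalSpace α] [CompactSpace α] (U : Ultrafilter ℕ)
    (f : ℕ → α) : ∃ a, Tendsto f (U : Filter ℕ) (𝓝 a) := by
  obtain ⟨a, -, ha⟩ := isCompact_univ.ultrafilter_le_nhds (U.map f) (by simp)
  exact ⟨a, ha⟩

theorem cluster {α : Type} [TopologicalSpace α] {U : Ultrafilter ℕ}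
    (hU : (U : Filter ℕ) ≤ atTop) {f : ℕ → α} {a : α} (h : Tendsto f (U : Filter ℕ) (𝓝 a)) :
    MapClusterPt a atTop f := h.mapClusterPt.mono hU

end I_KMI

open I_KMI in
theorem KMI_pf (hKB : AK.S_KB) (hMXSC : KC.S_MXSC) : S_KMI := by
  intro S U hS hU k g hg
  obtain ⟨m, hm⟩ := exists_lim U
    (fun L : ℕ => AK.mix 0 ((List.range L).map (fun i : ℕ => ((i : ℤ) + 1))) g)
  have hsc : Pt S m := by
    refine LawC.sc_lim S U Unit
      (fun p : Unit × ℕ => AK.mix 0 ((List.range p.2).map (fun i : ℕ => ((i : ℤ) + 1))) g)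
      (fun _ => m) hS hU ?_ (fun _ => hm)
    refine LawC.sc_comp S (ℤ × List ℤ) (Unit × ℕ) (fun p => AK.mix p.1 p.2 g)
      (fun p => (0, (List.range p.2).map (fun i : ℕ => ((i : ℤ) + 1)))) hS
      (hMXSC S hS k g hg) ?_
    refine (HK.ArF.const hS (0 : ℤ)).pair hS ?_
    refine HK.ArF.mapRange hS (f := fun (_ : Unit × ℕ) (i : ℕ) => ((i : ℤ) + 1)) ?_
      (HK.ArF.snd hS)
    exact HK.ArF.intAdd hS ((HK.ArF.snd hS).natCast hS) (HK.ArF.const hS 1)
  obtain ⟨h1, h2⟩ := hKB k g m (cluster hU.top hm)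
  exact ⟨m, hsc, h1, h2⟩

end Pool.Agent.Work.MP_69fea5_lc.N3
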