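import Pool.Agent.Work.MP_69fea5_lc.N3.StmtsH
import Pool.Agent.Work.MP_69fea5_lc.KC.I_KINIT

/-!
Item KMZ of block [69fea5 N3], part H: a coded measure of the energy set over a prescribed point,
with minimal orbit closure.
-/

set_option autoImplicit false

open Filter Topology MeasureTheory Set

namespace Pool.Agent.Work.MP_69fea5_lc.N3

open Pool.Agent.Work.MP_69fea5_lc.AK
open Pool.Agent.Work.MP_69fea5_lc.HK (Cl DU Ar ArF ArR Dat Law LawC act near sc Pt oc Mn mr)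

open KC KC.I_KINIT in
theorem KMZ_pf (hKAA : KC.S_KAA) (hORB : AK.S_ORB) (hIMG : AK.S_IMG) (hAAB : AK.S_AAB) :
    S_KMZ := by
  intro S U hS hU k I _ M z v hM hzv hz hv
  obtain ⟨m', hm', hAA⟩ := hKAA S U hS hU k I M z v hM hzv hz hv
  obtain ⟨-, -, hAc, hAi, -⟩ := hAAB k (AK.Cube I) M hM
  -- the minimal point
  have hp0 : Pt S ((v, m') : AK.Cube I × AK.PM k) := And.intro hv hm'
  obtain ⟨b, w1, hb, hlim, hMn, hp1⟩ := HK.URP_pf S U hS hU (AK.Cube I × AK.PM k)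
    (v, m') hp0
  obtain ⟨v1, m1⟩ := w1
  have hv1 : Pt S v1 := hp1.1
  have hm1 : Pt S m1 := hp1.2
  have horb : (v1, m1) ∈ AK.orb (v, m') := by
    refine mem_closure_of_tendsto hlim (Eventually.of_forall fun n => ?_)
    exact ⟨(b n : ℤ), (Agree.eq _ _).symm⟩
  have hmin1 : AK.MinSet (AK.orb (v1, m1)) := minSet_of_Mn hMn
  have hv1orb : v1 ∈ AK.orb v := by
    refine mem_closure_of_tendsto ((continuous_fst.tendsto _).comp hlim)
      (Eventually.of_forall fun n => ?_)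
    exact ⟨(b n : ℤ), rfl⟩
  -- the orbit closure of `v` is minimal
  have hminv : AK.MinSet ((Prod.snd : AK.Om k × AK.Cube I → AK.Cube I) '' M) :=
    hIMG (AK.Om k × AK.Cube I) (AK.Cube I) M Prod.snd hM continuous_snd.continuousOn
      (fun n x _ => rfl)
  have hvim : v ∈ (Prod.snd : AK.Om k × AK.Cube I → AK.Cube I) '' M := ⟨(z, v), hzv, rfl⟩
  have ho1 : AK.orb v = (Prod.snd : AK.Om k × AK.Cube I → AK.Cube I) '' M :=
    (hORB (AK.Cube I) v).2.2.2.2.1 _ hminv hvim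
  have ho2 : AK.orb v1 = (Prod.snd : AK.Om k × AK.Cube I → AK.Cube I) '' M :=
    (hORB (AK.Cube I) v1).2.2.2.2.1 _ hminv (ho1 ▸ hv1orb)
  have hvv1 : v ∈ AK.orb v1 := by rw [ho2]; exact hvim
  -- the choice of the shifts
  have hsc1 : sc S (fun n : ℤ => act n v1) :=
    LawC.sc_comp S (Unit × ℤ) ℤ (fun p : Unit × ℤ => act p.2 v1) (fun n => ((), n)) hS
      (LawC.sc_act S Unit (fun _ => v1) hS hv1)
      (HK.ArF.of_primrec hS ((Primrec.const ()).pair Primrec.id))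
  have hsc0 : sc S (fun _ : ℤ => v) :=
    LawC.sc_comp S Unit ℤ (fun _ => v) (fun _ => ()) hS hv
      (HK.ArF.of_primrec hS (Primrec.const ()))
  have hscm : sc S (fun n : ℤ => act n m1) :=
    LawC.sc_comp S (Unit × ℤ) ℤ (fun p : Unit × ℤ => act p.2 m1) (fun n => ((), n)) hS
      (LawC.sc_act S Unit (fun _ => m1) hS hm1)
      (HK.ArF.of_primrec hS ((Primrec.const ()).pair Primrec.id))
  have aR : Ar S fun p : ℕ × ℤ => near p.1 (act p.2 v1) v :=
    LawC.sc_near S ℤ (fun n => act n v1) (fun _ => v) hS hsc1 hsc0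
  have hex : ∀ i : ℕ, ∃ n : ℤ, near i (act n v1) v := by
    intro i
    have h4 : IsOpen {w : AK.Cube I | near i w v} :=
      (Law.near_open i).preimage (f := fun w => (w, v)) (by fun_prop)
    obtain ⟨w, hw1, n, rfl⟩ := mem_closure_iff.1 hvv1 _ h4 (Law.near_refl i v)
    exact ⟨n, hw1⟩
  obtain ⟨n, an, hn⟩ := HK.Ar.choose hS aR hex
  obtain ⟨m, hm⟩ := exists_lim U (fun i => act (n i) m1)
  have hmin : (v, m) ∈ AK.orb (v1, m1) := by
    have hv' : Tendsto (fun i => act (n i) v1) (U : Filter ℕ) (𝓝 v) := by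
      intro V hV
      obtain ⟨L, hL⟩ := Law.near_basis v V hV
      have h7 : ∀ᶠ i in (U : Filter ℕ), L ≤ i := hU.top (eventually_ge_atTop L)
      exact h7.mono fun i hi => hL _ (Law.near_symm _ _ _ (Law.near_mono L i _ _ hi (hn i)))
    refine mem_closure_of_tendsto (hv'.prodMk_nhds hm) (Eventually.of_forall fun i => ?_)
    exact ⟨n i, rfl⟩
  have ho3 : AK.orb (v, m) = AK.orb (v1, m1) :=
    (hORB (AK.Cube I × AK.PM k) (v, m)).2.2.2.2.1 _ hmin1 hmin
  refine ⟨m, ?_, ?_, ?_⟩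
  · refine LawC.sc_lim S U Unit (fun p : Unit × ℕ => act (n p.2) m1) (fun _ => m) hS hU ?_
      (fun _ => hm)
    exact LawC.sc_comp S ℤ (Unit × ℕ) (fun j => act j m1) (fun p => n p.2) hS hscm
      (an.comp hS (HK.ArF.snd hS))
  · have h5 : AK.orb (v, m') ⊆ AK.AA M :=
      (hORB (AK.Cube I × AK.PM k) (v, m')).2.2.2.1 _ hAc hAi hAA
    have h6 : AK.orb (v1, m1) ⊆ AK.AA M :=
      (hORB (AK.Cube I × AK.PM k) (v1, m1)).2.2.2.1 _ hAc hAi (h5 horb)
    exact h6 hmin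
  · rw [ho3]; exact hmin1

end Pool.Agent.Work.MP_69fea5_lc.N3
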