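import Pool.Agent.Work.MP_69fea5_lc.N3.StmtsB

/-! Item [KNU] of block [69fea5 N3]. -/

set_option autoImplicit false

namespace Pool.Agent.Work.MP_69fea5_lc.N3

open MeasureTheory Topology Set Filter ProbabilityTheory
open scoped NNReal ENNReal
open Pool.Agent.Work.MP_69fea5_lc.AK

namespace I_KNU

variable {K : Type} [NormedAddCommGroup K]

/-- tent around a closed set -/
noncomputable def tn (F : Set K) (n : ℕ) (t : K) : ℝ := max (1 - n * Metric.infDist t F) 0

theorem tn_cont (F : Set K) (n : ℕ) : Continuous (tn F n) := by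
  unfold tn
  exact (continuous_const.sub (continuous_const.mul (Metric.continuous_infDist_pt F))).max
    continuous_const

theorem tn_nonneg (F : Set K) (n : ℕ) (t : K) : 0 ≤ tn F n t := le_max_right _ _

theorem tn_le_one (F : Set K) (n : ℕ) (t : K) : tn F n t ≤ 1 := by
  unfold tn
  refine max_le ?_ zero_le_one
  have : 0 ≤ (n : ℝ) * Metric.infDist t F := mul_nonneg n.cast_nonneg Metric.infDist_nonneg
  linarith

theorem tn_one {F : Set K} (n : ℕ) {t : K} (h : t ∈ F) : tn F n t = 1 := by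
  unfold tn
  rw [Metric.infDist_zero_of_mem h]
  simp

theorem tn_tendsto {F : Set K} (hF : IsClosed F) (hne : F.Nonempty) (t : K) :
    Tendsto (fun n : ℕ => tn F n t) atTop (𝓝 (F.indicator 1 t)) := by
  by_cases ht : t ∈ F
  · rw [Set.indicator_of_mem ht]
    simp only [tn_one _ ht]
    exact tendsto_const_nhds
  · rw [Set.indicator_of_notMem ht]
    have hpos : 0 < Metric.infDist t F := (hF.notMem_iff_infDist_pos hne).1 ht
    obtain ⟨N, hN⟩ := exists_nat_gt (1 / Metric.infDist t F)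
    refine tendsto_const_nhds.congr' ?_
    filter_upwards [eventually_ge_atTop N] with n hn
    unfold tn
    refine (max_eq_right ?_).symm
    rw [div_lt_iff₀ hpos] at hN
    have h1 : (N : ℝ) * Metric.infDist t F ≤ n * Metric.infDist t F :=
      mul_le_mul_of_nonneg_right (by exact_mod_cast hn) hpos.le
    linarith

section M

variable [CompactSpace K] [MeasurableSpace K] [BorelSpace K]

theorem bdd_int (μ : Measure K) [IsFiniteMeasure μ] (φ : K → ℝ) (hφ : Continuous φ) :
    Integrable φ μ := by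
  obtain ⟨C, hC⟩ := (isCompact_univ (X := K)).exists_bound_of_continuousOn hφ.continuousOn
  exact Integrable.of_bound hφ.measurable.aestronglyMeasurable C
    (Eventually.of_forall fun a => hC a trivial)

theorem null_closed (μ ν : Measure K) [IsFiniteMeasure μ] [IsFiniteMeasure ν] (g : K → ℝ)
    (hg : Measurable g) (hg0 : ∀ t, 0 ≤ g t ∧ g t ≤ 1) (C : ℝ)
    (h : ∀ φ : K → ℝ, Continuous φ → (∀ t, 0 ≤ φ t) → ∫ t, φ t ∂μ ≤ C * ∫ t, φ t * g t ∂ν)
    (F : Set K) (hF : IsClosed F) (h0 : ∀ᵐ t ∂ν, t ∈ F → g t = 0) : μ F = 0 := by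
  rcases F.eq_empty_or_nonempty with rfl | hne
  · simp
  have hlim : Tendsto (fun n : ℕ => ∫ t, tn F n t * g t ∂ν) atTop
      (𝓝 (∫ t, F.indicator 1 t * g t ∂ν)) := by
    refine tendsto_integral_of_dominated_convergence (fun _ => (1 : ℝ)) (fun n => ?_)
      (integrable_const _) (fun n => ?_) ?_
    · exact ((tn_cont F n).measurable.mul hg).aestronglyMeasurable
    · refine Eventually.of_forall fun t => ?_
      rw [Real.norm_eq_abs, abs_mul, abs_of_nonneg (tn_nonneg F n t), abs_of_nonneg (hg0 t).1]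
      exact mul_le_one₀ (tn_le_one F n t) (hg0 t).1 (hg0 t).2
    · refine Eventually.of_forall fun t => ?_
      exact (tn_tendsto hF hne t).mul tendsto_const_nhds
  have hz : ∫ t, F.indicator 1 t * g t ∂ν = 0 := by
    refine integral_eq_zero_of_ae ?_
    filter_upwards [h0] with t ht
    by_cases htF : t ∈ F
    · simp [ht htF]
    · simp [Set.indicator_of_notMem htF]
  rw [hz] at hlim
  have hle : ∀ n : ℕ, μ.real F ≤ C * ∫ t, tn F n t * g t ∂ν := by
    intro n
    refine le_trans ?_ (h _ (tn_cont F n) (tn_nonneg F n))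
    rw [← integral_indicator_one hF.measurableSet]
    refine integral_mono ?_ (bdd_int μ _ (tn_cont F n)) fun t => ?_
    · exact (integrable_const (1 : ℝ)).indicator hF.measurableSet
    · by_cases ht : t ∈ F
      · simp [Set.indicator_of_mem ht, tn_one n ht]
      · simp [Set.indicator_of_notMem ht, tn_nonneg F n t]
  have hle0 : μ.real F ≤ 0 := by
    have := hlim.const_mul C
    rw [mul_zero] at this
    exact ge_of_tendsto' this hle
  have h1 : μ.real F = 0 := le_antisymm hle0 measureReal_nonneg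
  exact (measureReal_eq_zero_iff).1 h1

theorem null_meas (μ ν : Measure K) [IsFiniteMeasure μ] [IsFiniteMeasure ν] (g : K → ℝ)
    (hg : Measurable g) (hg0 : ∀ t, 0 ≤ g t ∧ g t ≤ 1) (C : ℝ)
    (h : ∀ φ : K → ℝ, Continuous φ → (∀ t, 0 ≤ φ t) → ∫ t, φ t ∂μ ≤ C * ∫ t, φ t * g t ∂ν)
    (B : Set K) (hB : MeasurableSet B) (h0 : ∀ᵐ t ∂ν, t ∈ B → g t = 0) : μ B = 0 := by
  rw [hB.measure_eq_iSup_isClosed_of_ne_top (measure_ne_top μ B)]
  simp only [ENNReal.iSup_eq_zero]
  intro F hFB hF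
  refine null_closed μ ν g hg hg0 C h F hF ?_
  filter_upwards [h0] with t ht htF
  exact ht (hFB htF)

/-- uniform measures on finite parts of the orbit -/
noncomputable def emp (e : K) (S : Finset ℕ) : Measure K :=
  (S.card : ℝ≥0∞)⁻¹ • ∑ i ∈ S, Measure.dirac ((i : ℤ) • e)

omit [CompactSpace K] [BorelSpace K] in
theorem emp_prob (e : K) (S : Finset ℕ) (h : S.Nonempty) : IsProbabilityMeasure (emp e S) := by
  constructor
  unfold emp
  rw [Measure.smul_apply, Measure.finsetSum_apply]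
  simp only [measure_univ, Finset.sum_const, smul_eq_mul, nsmul_eq_mul, mul_one]
  refine ENNReal.inv_mul_cancel ?_ (ENNReal.natCast_ne_top _)
  exact_mod_cast h.card_pos.ne'

theorem emp_int (e : K) (S : Finset ℕ) (φ : K → ℝ) (hφ : Continuous φ) :
    ∫ t, φ t ∂(emp e S) = (∑ i ∈ S, φ ((i : ℤ) • e)) / S.card := by
  unfold emp
  rw [integral_smul_measure, integral_finsetSum_measure fun i _ => bdd_int _ φ hφ]
  simp only [integral_dirac, ENNReal.toReal_inv, ENNReal.toReal_natCast, smul_eq_mul]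
  rw [div_eq_inv_mul]

theorem lim_exists (e : K) (U : Ultrafilter ℕ) (S : ℕ → Finset ℕ)
    (hS : ∀ᶠ L in (U : Filter ℕ), (S L).Nonempty) :
    ∃ θ : Measure K, IsProbabilityMeasure θ ∧ ∀ φ : K → ℝ, Continuous φ →
      Tendsto (fun L => (∑ i ∈ S L, φ ((i : ℤ) • e)) / ((S L).card : ℝ)) (U : Filter ℕ)
        (𝓝 (∫ t, φ t ∂θ)) := by
  classical
  let P : ℕ → ProbabilityMeasure K := fun L =>
    if h : (S L).Nonempty then ⟨emp e (S L), emp_prob e _ h⟩ else ⟨Measure.dirac 0, inferInstance⟩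
  obtain ⟨θ, -, hθ⟩ := (isCompact_univ (X := ProbabilityMeasure K)).ultrafilter_le_nhds
    (U.map P) (by simp)
  have hT : Tendsto P (U : Filter ℕ) (𝓝 θ) := hθ
  rw [ProbabilityMeasure.tendsto_iff_forall_integral_tendsto] at hT
  refine ⟨θ, inferInstance, fun φ hφ => ?_⟩
  have h1 := hT (BoundedContinuousFunction.mkOfCompact ⟨φ, hφ⟩)
  refine h1.congr' ?_
  filter_upwards [hS] with L hL
  have : (P L : Measure K) = emp e (S L) := by
    simp only [P, dif_pos hL]
    rfl
  rw [this]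
  exact emp_int e (S L) φ hφ

/-- equidistribution -/
theorem equi (hH : S_HUN) (hm : Measure K) [IsProbabilityMeasure hm] [hm.IsAddHaarMeasure]
    (e : K) (he : Dense (Set.range fun n : ℤ => n • e)) (U : Ultrafilter ℕ)
    (hU : (U : Filter ℕ) ≤ atTop) (φ : K → ℝ) (hφ : Continuous φ) :
    Tendsto (fun L : ℕ => (∑ i ∈ Finset.range L, φ ((i : ℤ) • e)) / (L : ℝ)) (U : Filter ℕ)
      (𝓝 (∫ t, φ t ∂hm)) := by
  have hne : ∀ᶠ L in (U : Filter ℕ), (Finset.range L).Nonempty := by
    filter_upwards [hU (eventually_ge_atTop 1)] with L hL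
    exact Finset.nonempty_range_iff.2 (by omega)
  obtain ⟨θ, hθ, hlim⟩ := lim_exists e U Finset.range hne
  simp only [Finset.card_range] at hlim
  have hinv : θ.map (fun t => t + e) = θ := by
    have hme : Measurable fun t : K => t + e := measurable_add_const e
    have : IsProbabilityMeasure (θ.map fun t => t + e) :=
      Measure.isProbabilityMeasure_map hme.aemeasurable
    refine ext_of_forall_integral_eq_of_IsFiniteMeasure fun f => ?_
    rw [integral_map hme.aemeasurable f.continuous.aestronglyMeasurable]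
    have h1 := hlim (fun t => f (t + e)) (f.continuous.comp (continuous_add_const e))
    have h2 := hlim f f.continuous
    have h3 := h1.sub h2
    have h4 : Tendsto (fun L : ℕ => (∑ i ∈ Finset.range L, f ((i : ℤ) • e + e)) / (L : ℝ) -
        (∑ i ∈ Finset.range L, f ((i : ℤ) • e)) / (L : ℝ)) (U : Filter ℕ) (𝓝 0) := by
      have hsq : ∀ L : ℕ, (∑ i ∈ Finset.range L, f ((i : ℤ) • e + e)) / (L : ℝ) -
          (∑ i ∈ Finset.range L, f ((i : ℤ) • e)) / (L : ℝ) =
            (f ((L : ℤ) • e) - f 0) / (L : ℝ) := by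
        intro L
        rw [← sub_div, ← Finset.sum_sub_distrib]
        congr 1
        have hs := Finset.sum_range_sub (fun j : ℕ => f ((j : ℤ) • e)) L
        have h0 : f (((0 : ℕ) : ℤ) • e) = f 0 := by simp
        have hi : ∀ i : ℕ, f ((i : ℤ) • e + e) - f ((i : ℤ) • e) =
            f (((i + 1 : ℕ) : ℤ) • e) - f ((i : ℤ) • e) := by
          intro i
          push_cast
          rw [add_zsmul, one_zsmul]
        rw [h0] at hs
        rw [← hs]
        exact Finset.sum_congr rfl fun i _ => hi i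
      simp only [hsq]
      have hb : ∀ L : ℕ, |(f ((L : ℤ) • e) - f 0) / (L : ℝ)| ≤ (2 * ‖f‖) / (L : ℝ) := by
        intro L
        rw [abs_div, Nat.abs_cast]
        refine div_le_div_of_nonneg_right ?_ L.cast_nonneg
        have h5 := f.norm_coe_le_norm ((L : ℤ) • e)
        have h6 := f.norm_coe_le_norm 0
        rw [Real.norm_eq_abs] at h5 h6
        calc |f ((L : ℤ) • e) - f 0| ≤ |f ((L : ℤ) • e)| + |f 0| := abs_sub _ _
          _ ≤ 2 * ‖f‖ := by linarith
      refine squeeze_zero_norm hb ?_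
      exact (tendsto_const_div_atTop_nhds_zero_nat (2 * ‖f‖)).mono_left hU
    have := tendsto_nhds_unique h3 h4
    linarith
  have := hH K hm e he θ hθ hinv
  rw [← this]
  exact hlim φ hφ

end M

end I_KNU

open I_KNU in
theorem KNU_pf (hH : S_HUN) : S_KNU := by
  classical
  intro K _ _ _ _ hm _ _ e he U hU A d hd hA F hF hAF ι _ f ε hε hf hf0 hfr hcon
  let S : ℕ → Finset ℕ := fun L => (Finset.range L).filter (fun i => i ∈ A)
  have hS' : ∀ᶠ L : ℕ in (U : Filter ℕ), 0 < L ∧ d * L ≤ ((S L).card : ℝ) := by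
    filter_upwards [hA, hU (eventually_gt_atTop 0)] with L h1 h2
    refine ⟨h2, ?_⟩
    simp only [S]
    convert h1
  have hS : ∀ᶠ L : ℕ in (U : Filter ℕ), (S L).Nonempty := by
    filter_upwards [hS'] with L hL
    have h1 : (0 : ℝ) < d * L := mul_pos hd (by exact_mod_cast hL.1)
    have h2 : (0 : ℝ) < ((S L).card : ℝ) := lt_of_lt_of_le h1 hL.2
    exact Finset.card_pos.1 (by exact_mod_cast h2)
  obtain ⟨θ, hθ, hlim⟩ := lim_exists e U S hS
  -- the comparison of the two averages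
  have hcmp : ∀ φ : K → ℝ, (∀ t, 0 ≤ φ t) → ∀ᶠ L : ℕ in (U : Filter ℕ),
      d * ((∑ i ∈ S L, φ ((i : ℤ) • e)) / ((S L).card : ℝ)) ≤
        (∑ i ∈ S L, φ ((i : ℤ) • e)) / (L : ℝ) := by
    intro φ hφ
    filter_upwards [hS'] with L hL
    have hs : 0 ≤ ∑ i ∈ S L, φ ((i : ℤ) • e) := Finset.sum_nonneg fun i _ => hφ _
    have hLp : (0 : ℝ) < L := by exact_mod_cast hL.1
    have hcp : (0 : ℝ) < (S L).card := lt_of_lt_of_le (mul_pos hd hLp) hL.2
    rw [← mul_div_assoc, div_le_div_iff₀ hcp hLp]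
    calc d * (∑ i ∈ S L, φ ((i : ℤ) • e)) * L = (∑ i ∈ S L, φ ((i : ℤ) • e)) * (d * L) := by ring
      _ ≤ (∑ i ∈ S L, φ ((i : ℤ) • e)) * ((S L).card : ℝ) := mul_le_mul_of_nonneg_left hL.2 hs
  have hone : ∀ φ : K → ℝ, Continuous φ → (∀ t, 0 ≤ φ t) →
      ∫ t, φ t ∂θ ≤ d⁻¹ * ∫ t, φ t * (fun _ => (1 : ℝ)) t ∂hm := by
    intro φ hφ h0
    simp only [mul_one]
    rw [← div_eq_inv_mul, le_div_iff₀ hd, mul_comm]
    refine le_of_tendsto_of_tendsto ((hlim φ hφ).const_mul d)
      (equi hH hm e he U hU φ hφ) ?_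
    filter_upwards [hcmp φ h0] with L hL
    refine hL.trans ?_
    refine div_le_div_of_nonneg_right ?_ L.cast_nonneg
    exact Finset.sum_le_sum_of_subset_of_nonneg (Finset.filter_subset _ _) fun i _ _ => h0 _
  have hr : ∀ r, ∀ φ : K → ℝ, Continuous φ → (∀ t, 0 ≤ φ t) →
      ∫ t, φ t ∂θ ≤ (ε * d)⁻¹ * ∫ t, φ t * f r t ∂hm := by
    intro r φ hφ h0
    have hed : 0 < ε * d := mul_pos hε hd
    rw [← div_eq_inv_mul, le_div_iff₀ hed, mul_comm]
    refine le_of_forall_pos_le_add fun δ hδ => ?_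
    refine le_of_tendsto ((hlim φ hφ).const_mul (ε * d)) ?_
    filter_upwards [hcmp φ h0, hfr r φ hφ h0 δ hδ] with L h1 h2
    have h3 : ε * ((∑ i ∈ S L, φ ((i : ℤ) • e)) / (L : ℝ)) ≤ ∫ t, φ t * f r t ∂hm + δ := by
      simp only [S]
      convert h2
    calc ε * d * ((∑ i ∈ S L, φ ((i : ℤ) • e)) / ((S L).card : ℝ)) =
        ε * (d * ((∑ i ∈ S L, φ ((i : ℤ) • e)) / ((S L).card : ℝ))) := by ring
      _ ≤ ε * ((∑ i ∈ S L, φ ((i : ℤ) • e)) / (L : ℝ)) := mul_le_mul_of_nonneg_left h1 hε.le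
      _ ≤ _ := h3
  -- `θ` lives on `F`
  have hFne : F.Nonempty := by
    obtain ⟨L, hL⟩ := hS.exists
    obtain ⟨i, hi⟩ := hL
    exact ⟨_, hAF i (Finset.mem_filter.1 hi).2⟩
  have hFθ : ∀ᵐ t ∂θ, t ∈ F := by
    have h1 := hlim (fun t => Metric.infDist t F) (Metric.continuous_infDist_pt F)
    have h2 : (fun L : ℕ => (∑ i ∈ S L, Metric.infDist ((i : ℤ) • e) F) / ((S L).card : ℝ)) =
        fun _ => 0 := by
      funext L
      rw [Finset.sum_eq_zero, zero_div]
      intro i hi
      exact Metric.infDist_zero_of_mem (hAF i (Finset.mem_filter.1 hi).2)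
    rw [h2] at h1
    have h3 : ∫ t, Metric.infDist t F ∂θ = 0 := tendsto_nhds_unique h1 tendsto_const_nhds
    rw [integral_eq_zero_iff_of_nonneg (fun t => Metric.infDist_nonneg)
      (bdd_int θ _ (Metric.continuous_infDist_pt F))] at h3
    filter_upwards [h3] with t ht
    exact (hF.mem_iff_infDist_zero hFne).2 ht
  -- null sets
  have hm0 : ∀ B : Set K, MeasurableSet B → hm B = 0 → θ B = 0 := by
    intro B hB h0
    refine null_meas θ hm (fun _ => 1) measurable_const (fun _ => ⟨zero_le_one, le_rfl⟩) d⁻¹ hone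
      B hB ?_
    have : ∀ᵐ t ∂hm, t ∉ B := by
      rw [ae_iff]
      simpa using h0
    filter_upwards [this] with t ht htB
    exact absurd htB ht
  have hz : ∀ r, θ {t | f r t = 0} = 0 := fun r =>
    null_meas θ hm (f r) (hf r) (hf0 r) (ε * d)⁻¹ (hr r) {t | f r t = 0}
      (hf r (measurableSet_singleton 0)) (Eventually.of_forall fun t ht => ht)
  have hbad : θ {t | t ∈ F ∧ ∀ r, f r t ≠ 0} = 0 := by
    refine hm0 _ ?_ ?_
    · refine hF.measurableSet.inter ?_
      have : {t | ∀ r, f r t ≠ 0} = ⋂ r, {t | f r t ≠ 0} := by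
        ext t; simp
      show MeasurableSet {t | ∀ r, f r t ≠ 0}
      rw [this]
      exact MeasurableSet.iInter fun r => (hf r (measurableSet_singleton 0)).compl
    · rw [ae_iff] at hcon
      convert hcon using 2
      ext t
      simp only [mem_ofPred_eq, Classical.not_imp, not_exists]
  have hall : ∀ᵐ t ∂θ, False := by
    have h1 : ∀ᵐ t ∂θ, ¬ (t ∈ F ∧ ∀ r, f r t ≠ 0) := by
      rw [ae_iff]
      simpa using hbad
    have h2 : ∀ᵐ t ∂θ, ∀ r, f r t ≠ 0 := by
      rw [ae_all_iff]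
      intro r
      rw [ae_iff]
      simpa using hz r
    filter_upwards [hFθ, h1, h2] with t a b c
    exact b ⟨a, c⟩
  have : θ = 0 := by
    rw [← ae_eq_bot, ← Filter.eventually_false_iff_eq_bot]
    exact hall
  have h1 := hθ.measure_univ
  rw [this] at h1
  simp at h1

end Pool.Agent.Work.MP_69fea5_lc.N3
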