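import Pool.Agent.Work.MP_69fea5_lc.N3.StmtsA

/-!
# Block [69fea5 N3], item KPB: the kernels of progressions
-/

set_option autoImplicit false

namespace Pool.Agent.Work.MP_69fea5_lc.N3

open MeasureTheory Topology Set Filter ProbabilityTheory
open scoped NNReal ENNReal
open Pool.Agent.Work.MP_69fea5_lc.AK

namespace I_KPB

variable {k : ℕ} {K : Type} [NormedAddCommGroup K] [CompactSpace K] [MeasurableSpace K]
  [BorelSpace K]

/-- the kernel `(a, t) ↦ η (f a t) × η (g a t)` -/
noncomputable def KK (η : Kernel K (Om k)) (f g : K × K → K) (hf : Measurable f)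
    (hg : Measurable g) : Kernel (K × K) (Om k × Om k) :=
  (η.comap f hf) ×ₖ (η.comap g hg)

instance KK_markov (η : Kernel K (Om k)) [IsMarkovKernel η] (f g : K × K → K) (hf : Measurable f)
    (hg : Measurable g) : IsMarkovKernel (KK η f g hf hg) := by
  unfold KK
  infer_instance

theorem KK_apply (η : Kernel K (Om k)) [IsMarkovKernel η] (f g : K × K → K) (hf : Measurable f)
    (hg : Measurable g) (p : K × K) : KK η f g hf hg p = (η (f p)).prod (η (g p)) := by
  rw [KK, Kernel.prod_apply, Kernel.comap_apply, Kernel.comap_apply]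

theorem meas_prod (η : Kernel K (Om k)) [IsMarkovKernel η] (f g : K → K) (hf : Measurable f)
    (hg : Measurable g) : Measurable fun t => (η (f t)).prod (η (g t)) := by
  have h := ((η.comap f hf) ×ₖ (η.comap g hg)).measurable
  have e : (fun t => (η (f t)).prod (η (g t))) = ((η.comap f hf) ×ₖ (η.comap g hg)) := by
    funext t
    rw [Kernel.prod_apply, Kernel.comap_apply, Kernel.comap_apply]
  rw [e]
  exact h

theorem gen (hm : Measure K) [IsProbabilityMeasure hm] (η : Kernel K (Om k)) [IsMarkovKernel η]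
    (f g : K × K → K) (hf : Measurable f) (hg : Measurable g) :
    (∀ a, IsProbabilityMeasure (hm.bind fun t => (η (f (a, t))).prod (η (g (a, t))))) ∧
    (∀ (a : K) (S : Set (Om k × Om k)), MeasurableSet S →
      (hm.bind fun t => (η (f (a, t))).prod (η (g (a, t)))) S =
        ∫⁻ t, ((η (f (a, t))).prod (η (g (a, t)))) S ∂hm) ∧
    (∀ S : Set (K × (Om k × Om k)), MeasurableSet S → Measurable (fun a =>
      (hm.bind fun t => (η (f (a, t))).prod (η (g (a, t)))) {p | (a, p) ∈ S})) := by
  have hm1 : ∀ a, Measurable fun t => (η (f (a, t))).prod (η (g (a, t))) := fun a =>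
    meas_prod η (fun t => f (a, t)) (fun t => g (a, t)) (hf.comp measurable_prodMk_left)
      (hg.comp measurable_prodMk_left)
  have h2 : ∀ (a : K) (S : Set (Om k × Om k)), MeasurableSet S →
      (hm.bind fun t => (η (f (a, t))).prod (η (g (a, t)))) S =
        ∫⁻ t, ((η (f (a, t))).prod (η (g (a, t)))) S ∂hm := fun a S hS =>
    Measure.bind_apply hS (hm1 a).aemeasurable
  refine ⟨fun a => ⟨?_⟩, h2, fun S hS => ?_⟩
  · rw [h2 a univ MeasurableSet.univ]
    simp
  · have e : (fun a => (hm.bind fun t => (η (f (a, t))).prod (η (g (a, t)))) {p | (a, p) ∈ S}) =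
        fun a => ∫⁻ t, ((η (f (a, t))).prod (η (g (a, t)))) {p | (a, p) ∈ S} ∂hm := by
      funext a
      exact h2 a _ (measurable_prodMk_left hS)
    rw [e]
    have hS2 : MeasurableSet {q : (K × K) × (Om k × Om k) | (q.1.1, q.2) ∈ S} :=
      ((measurable_fst.comp measurable_fst).prodMk measurable_snd) hS
    have h3 := Kernel.measurable_kernel_prodMk_left (κ := KK η f g hf hg) hS2
    have h4 : Measurable fun q : K × K =>
        ((η (f (q.1, q.2))).prod (η (g (q.1, q.2)))) {p | (q.1, p) ∈ S} := by
      have e4 : (fun q : K × K =>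
          ((η (f (q.1, q.2))).prod (η (g (q.1, q.2)))) {p | (q.1, p) ∈ S}) =
          fun q => KK η f g hf hg q
            (Prod.mk q ⁻¹' {q : (K × K) × (Om k × Om k) | (q.1.1, q.2) ∈ S}) := by
        funext q
        rw [KK_apply]
        rfl
      rw [e4]
      exact h3
    exact h4.lintegral_prod_right

end I_KPB

open I_KPB in
theorem KPB_pf (h1 : S_DBL) : S_KPB := by
  intro k M K _ _ _ _ e π hm μ η F
  have := F.prob
  have := F.haar
  have := F.dis.markov
  have hd := h1 K hm e F.kro.dense
  have hf1 : Measurable fun p : K × K => p.1 + p.2 := (continuous_fst.add continuous_snd).measurable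
  have hg1 : Measurable fun p : K × K => p.1 + p.2 + p.2 :=
    ((continuous_fst.add continuous_snd).add continuous_snd).measurable
  have hf3 : Measurable fun p : K × K => p.1 - p.2 - p.2 :=
    ((continuous_fst.sub continuous_snd).sub continuous_snd).measurable
  have hg3 : Measurable fun p : K × K => p.1 - p.2 := (continuous_fst.sub continuous_snd).measurable
  obtain ⟨a1, b1, c1⟩ := gen hm η _ _ hf1 hg1
  obtain ⟨a3, b3, c3⟩ := gen hm η _ _ hf3 hg3
  have hb : ∀ A : Set (Om k), MeasurableSet A → ∫⁻ t, η t A ∂hm = (μ : Measure (Om k)) A := by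
    intro A hA
    rw [← F.dis.bind, Measure.bind_apply hA η.measurable.aemeasurable]
  refine ⟨fun a => ⟨a1 a, a3 a⟩, b1, b3, fun S hS => ⟨c1 S hS, c3 S hS⟩, fun a A hA => ?_⟩
  have hηA : Measurable fun t => η t A := η.measurable_coe hA
  have p1 : ∀ u v : K, ((η u).prod (η v)) (A ×ˢ univ) = η u A := by
    intro u v
    rw [Measure.prod_prod, measure_univ, mul_one]
  have p2 : ∀ u v : K, ((η u).prod (η v)) (univ ×ˢ A) = η v A := by
    intro u v
    rw [Measure.prod_prod, measure_univ, one_mul]
  have hdm : Measurable fun t : K => t + t := (continuous_id.add continuous_id).measurable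
  have dd : ∀ G : K → ℝ≥0∞, Measurable G → ∫⁻ t, G (t + t) ∂hm ≤ 2 * ∫⁻ t, G t ∂hm := by
    intro G hG
    rw [← lintegral_map (f := G) hG hdm]
    calc ∫⁻ s, G s ∂(hm.map fun t => t + t) ≤ ∫⁻ s, G s ∂((2 : ℝ≥0∞) • hm) :=
          lintegral_mono' hd le_rfl
      _ = 2 * ∫⁻ t, G t ∂hm := by rw [lintegral_smul_measure, smul_eq_mul]
  refine ⟨?_, ?_, ?_, ?_⟩
  · rw [kap1, b1 a _ (hA.prod MeasurableSet.univ)]
    simp only [p1]
    rw [lintegral_add_left_eq_self (μ := hm) (fun t => η t A) a, hb A hA]
  · rw [kap1, b1 a _ (MeasurableSet.univ.prod hA)]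
    simp only [p2]
    have e1 : ∀ t : K, a + t + t = a + (t + t) := fun t => add_assoc _ _ _
    simp only [e1]
    refine (dd (fun s => η (a + s) A) (hηA.comp (measurable_const_add a))).trans ?_
    rw [lintegral_add_left_eq_self (μ := hm) (fun t => η t A) a, hb A hA]
  · rw [kap3, b3 a _ (MeasurableSet.univ.prod hA)]
    simp only [p2]
    rw [lintegral_sub_left_eq_self (μ := hm) (fun t => η t A) a, hb A hA]
  · rw [kap3, b3 a _ (hA.prod MeasurableSet.univ)]
    simp only [p1]
    have e1 : ∀ t : K, a - t - t = a - (t + t) := fun t => by abel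
    simp only [e1]
    refine (dd (fun s => η (a - s) A) (hηA.comp (measurable_const_sub a))).trans ?_
    rw [lintegral_sub_left_eq_self (μ := hm) (fun t => η t A) a, hb A hA]

end Pool.Agent.Work.MP_69fea5_lc.N3
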