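import Pool.Agent.Work.MP_69fea5_lc.N3.StmtsA

set_option autoImplicit false

namespace Pool.Agent.Work.MP_69fea5_lc.N3

open MeasureTheory Topology Set Filter ProbabilityTheory
open scoped NNReal ENNReal
open Pool.Agent.Work.MP_69fea5_lc.AK

namespace I_KPC

variable {k : ℕ}

theorem cyl_meas (w : Wd k) (n : ℤ) : MeasurableSet (cyl w n) := by
  have e : cyl w n = ⋂ (i : ℕ) (a : Fin k) (_ : w[i]? = some a),
      (fun z : Om k => z (n - ((w.length / 2 : ℕ) : ℤ) + i)) ⁻¹' {a} := by
    ext z
    simp [cyl]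
  rw [e]
  refine MeasurableSet.iInter fun i => MeasurableSet.iInter fun a => MeasurableSet.iInter fun _ => ?_
  exact measurable_pi_apply _ (MeasurableSet.singleton a)

theorem bx_meas (P : W2 k) (n : ℤ) : MeasurableSet (bx P n) :=
  (cyl_meas P.1 n).prod (cyl_meas P.2 n)

section

variable {K : Type} [NormedAddCommGroup K] [CompactSpace K] [MeasurableSpace K] [BorelSpace K]

omit [CompactSpace K] in
theorem lint1 (hm : Measure K) [IsProbabilityMeasure hm] [hm.IsAddHaarMeasure]
    (F G : K → ℝ≥0∞) (a : K) :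
    ∫⁻ t, F (a + t) * G (a + t + t) ∂hm = ∫⁻ s, F s * G (s + s + -a) ∂hm := by
  rw [← lintegral_add_left_eq_self (fun s => F s * G (s + s + -a)) a]
  refine lintegral_congr fun t => ?_
  have : a + t + (a + t) + -a = a + t + t := by abel
  rw [this]

theorem lint3 (hm : Measure K) [IsProbabilityMeasure hm] [hm.IsAddHaarMeasure]
    (F G : K → ℝ≥0∞) (b : K) :
    ∫⁻ t, G (b - t - t) * F (b - t) ∂hm = ∫⁻ s, F s * G (s + s + -b) ∂hm := by
  rw [← lintegral_sub_left_eq_self (fun s => F s * G (s + s + -b)) b]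
  refine lintegral_congr fun t => ?_
  have : b - t + (b - t) + -b = b - t - t := by abel
  rw [this, mul_comm]

/-- the integral of products of the real measures -/
theorem toReal_lint (hm : Measure K) [IsProbabilityMeasure hm] (η : Kernel K (Om k))
    [IsMarkovKernel η] (A B : Set (Om k)) (hA : MeasurableSet A) (hB : MeasurableSet B) (c : K) :
    (∫⁻ s, η s A * η (s + s + c) B ∂hm).toReal =
      ∫ s, (η s).real A * (η (s + s + c)).real B ∂hm := by
  have hd : Measurable fun s : K => s + s + c := by fun_prop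
  have h1 : Measurable fun s : K => η s A := η.measurable_coe hA
  have h2 : Measurable fun s : K => η (s + s + c) B := (η.measurable_coe hB).comp hd
  have h12 : AEMeasurable (fun s => η s A * η (s + s + c) B) hm := (h1.mul h2).aemeasurable
  rw [← integral_toReal h12 (Eventually.of_forall fun s =>
      ENNReal.mul_lt_top (measure_lt_top _ _) (measure_lt_top _ _))]
  refine integral_congr_ae (Eventually.of_forall fun s => ?_)
  simp [Measure.real, ENNReal.toReal_mul]

theorem cont_box (h2 : S_TRC) (hm : Measure K) [IsProbabilityMeasure hm] [hm.IsAddHaarMeasure]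
    (e : K) (he : Dense (Set.range fun n : ℤ => n • e)) (η : Kernel K (Om k))
    [IsMarkovKernel η] (A B : Set (Om k)) (hA : MeasurableSet A) (hB : MeasurableSet B) :
    Continuous fun a : K => (∫⁻ s, η s A * η (s + s + -a) B ∂hm).toReal := by
  have hc := h2 K hm e he Unit Unit (fun _ s => (η s).real A) (fun _ s => (η s).real B)
    (fun _ => (η.measurable_coe hA).ennreal_toReal) (fun _ => (η.measurable_coe hB).ennreal_toReal)
    (fun _ t => ⟨measureReal_nonneg, measureReal_le_one⟩)
    (fun _ t => ⟨measureReal_nonneg, measureReal_le_one⟩)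
  have hc2 : Continuous fun a : K => ((fun _ : Unit => (0 : K)), (fun _ : Unit => -a)) := by
    fun_prop
  have h3 := hc.comp hc2
  refine h3.congr fun a => ?_
  rw [toReal_lint hm η A B hA hB (-a)]
  simp

end

end I_KPC

open I_KPC in
theorem KPC_pf (h1 : S_RCT) (h2 : S_TRC) (h3 : S_KPB) : S_KPC := by
  intro k M K _ _ _ _ e π hm μ η hF C hC
  have hp : IsProbabilityMeasure hm := hF.prob
  have hh : hm.IsAddHaarMeasure := hF.haar
  have hk : IsMarkovKernel η := hF.dis.markov
  obtain ⟨L, T, -, hCT, hdis⟩ := h1 k C hC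
  obtain ⟨hpr, hk1, hk3, -, -⟩ := h3 k M K e π hm μ η hF
  have hsum : ∀ (ν : Measure (Om k × Om k)) [IsFiniteMeasure ν],
      ν.real C = ∑ P ∈ T, ν.real (bx P 0) := by
    intro ν _
    rw [hCT]
    exact measureReal_biUnion_finset hdis fun P _ => bx_meas P 0
  have hb1 : ∀ (a : K) (P : W2 k), kap1 hm η a (bx P 0) =
      ∫⁻ s, η s (cyl P.1 0) * η (s + s + -a) (cyl P.2 0) ∂hm := by
    intro a P
    rw [hk1 a _ (bx_meas P 0),
      ← lint1 hm (fun s => η s (cyl P.1 0)) (fun s => η s (cyl P.2 0)) a]
    refine lintegral_congr fun t => ?_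
    exact Measure.prod_prod _ _
  have hb3 : ∀ (b : K) (P : W2 k), kap3 hm η b (bx P 0) =
      ∫⁻ s, η s (cyl P.2 0) * η (s + s + -b) (cyl P.1 0) ∂hm := by
    intro b P
    rw [hk3 b _ (bx_meas P 0),
      ← lint3 hm (fun s => η s (cyl P.2 0)) (fun s => η s (cyl P.1 0)) b]
    refine lintegral_congr fun t => ?_
    exact Measure.prod_prod _ _
  constructor
  · have e1 : (fun a => (kap1 hm η a).real C) = fun a => ∑ P ∈ T,
        (∫⁻ s, η s (cyl P.1 0) * η (s + s + -a) (cyl P.2 0) ∂hm).toReal := by
      funext a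
      have := (hpr a).1
      rw [hsum]
      refine Finset.sum_congr rfl fun P _ => ?_
      rw [Measure.real, hb1]
    rw [e1]
    exact continuous_finsetSum T fun P _ => cont_box h2 hm e hF.kro.dense η _ _
      (cyl_meas _ _) (cyl_meas _ _)
  · have e1 : (fun a => (kap3 hm η a).real C) = fun a => ∑ P ∈ T,
        (∫⁻ s, η s (cyl P.2 0) * η (s + s + -a) (cyl P.1 0) ∂hm).toReal := by
      funext a
      have := (hpr a).2
      rw [hsum]
      refine Finset.sum_congr rfl fun P _ => ?_
      rw [Measure.real, hb3]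
    rw [e1]
    exact continuous_finsetSum T fun P _ => cont_box h2 hm e hF.kro.dense η _ _
      (cyl_meas _ _) (cyl_meas _ _)

end Pool.Agent.Work.MP_69fea5_lc.N3
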