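import Pool.Agent.Work.MP_69fea5_lc.N3.StmtsA

/-!
# Block [69fea5 N3], item KPF: Fubini for progressions
-/

set_option autoImplicit false

namespace Pool.Agent.Work.MP_69fea5_lc.N3

open MeasureTheory Topology Set Filter ProbabilityTheory
open scoped NNReal ENNReal
open Pool.Agent.Work.MP_69fea5_lc.AK

namespace I_KPF

variable {k : ℕ} {K : Type} [NormedAddCommGroup K] [CompactSpace K] [MeasurableSpace K]
  [BorelSpace K]

/-- the kernel `(a, t) ↦ η (f a t) × η (g a t)` -/
noncomputable def KK (η : Kernel K (Om k)) (f g : K × K → K) (hf : Measurable f)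
    (hg : Measurable g) : Kernel (K × K) (Om k × Om k) :=
  (η.comap f hf) ×ₖ (η.comap g hg)

instance KK_markov (η : Kernel K (Om k)) [IsMarkovKernel η] (f g : K × K → K) (hf : Measurable f)
    (hg : Measurable g) : IsMarkovKernel (KK η f g hf hg) := by
  unfold KK
  infer_instance

theorem KK_apply (η : Kernel K (Om k)) [IsMarkovKernel η] (f g : K × K → K) (hf : Measurable f)
    (hg : Measurable g) (p : K × K) : KK η f g hf hg p = (η (f p)).prod (η (g p)) := by
  rw [KK, Kernel.prod_apply, Kernel.comap_apply, Kernel.comap_apply]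

/-- integrals of sections over `M` -/
theorem integ {M : Set (Om k)} {π : Om k → K} {e : K} {hm : Measure K} {μ : PM k}
    {η : Kernel K (Om k)} (F : Fr M e π hm μ η) (κ : Kernel K (Om k × Om k)) [IsMarkovKernel κ]
    (B : Set (Om k × (Om k × Om k))) (hB : MeasurableSet B) :
    ∫⁻ w in M, κ (π w) (Prod.mk w ⁻¹' B) ∂(μ : Measure (Om k)) =
      ∫⁻ a, ∫⁻ w, κ a (Prod.mk w ⁻¹' B) ∂(η a) ∂hm := by
  classical
  have hMm : MeasurableSet M := F.min.closed.measurableSet
  have h1 : (μ : Measure (Om k)) M = 1 := by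
    have h := F.one
    rw [← ProbabilityMeasure.ennreal_coeFn_eq_coeFn_toMeasure, h]
    rfl
  have hae : ∀ᵐ w ∂(μ : Measure (Om k)), w ∈ M := (prob_compl_eq_zero_iff hMm).2 h1
  let π' : Om k → K := M.piecewise π fun _ => 0
  have hπ' : Measurable π' := F.kro.cont.measurable_piecewise continuousOn_const hMm
  have hmeas : Measurable fun w => κ (π' w) (Prod.mk w ⁻¹' B) := by
    have h := Kernel.measurable_kernel_prodMk_left (κ := κ.comap π' hπ') hB
    exact h
  calc ∫⁻ w in M, κ (π w) (Prod.mk w ⁻¹' B) ∂(μ : Measure (Om k)) =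
      ∫⁻ w in M, κ (π' w) (Prod.mk w ⁻¹' B) ∂(μ : Measure (Om k)) := by
        refine setLIntegral_congr_fun hMm fun w hw => ?_
        have e1 : π' w = π w := Set.piecewise_eq_of_mem _ _ _ hw
        simp only [e1]
    _ = ∫⁻ w, κ (π' w) (Prod.mk w ⁻¹' B) ∂(μ : Measure (Om k)) := by
        rw [Measure.restrict_eq_self_of_ae_mem hae]
    _ = ∫⁻ a, ∫⁻ w, κ (π' w) (Prod.mk w ⁻¹' B) ∂(η a) ∂hm := by
        rw [← F.dis.bind, Measure.lintegral_bind η.measurable.aemeasurable hmeas.aemeasurable]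
    _ = ∫⁻ a, ∫⁻ w, κ a (Prod.mk w ⁻¹' B) ∂(η a) ∂hm := by
        refine lintegral_congr_ae ?_
        filter_upwards [F.dis.fib] with a ha
        refine lintegral_congr_ae ?_
        have h2 : ∀ᵐ w ∂(η a), w ∈ {z | z ∈ M ∧ π z = a} := ha
        filter_upwards [h2] with w hw
        have e1 : π' w = a := (Set.piecewise_eq_of_mem _ _ _ hw.1).trans hw.2
        simp only [e1]

/-- exchange of the integrals -/
theorem swp (hm : Measure K) [IsProbabilityMeasure hm] (η : Kernel K (Om k)) [IsMarkovKernel η]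
    (f g : K × K → K) (hf : Measurable f) (hg : Measurable g) (κ : Kernel K (Om k × Om k))
    (hκ : ∀ (a : K) (S : Set (Om k × Om k)), MeasurableSet S →
      κ a S = ∫⁻ t, ((η (f (a, t))).prod (η (g (a, t)))) S ∂hm)
    (B : Set (Om k × (Om k × Om k))) (hB : MeasurableSet B) :
    ∫⁻ a, ∫⁻ w, κ a (Prod.mk w ⁻¹' B) ∂(η a) ∂hm =
      ∫⁻ t, ∫⁻ a, ((η a).prod ((η (f (a, t))).prod (η (g (a, t))))) B ∂hm ∂hm := by
  have h1 : ∀ a : K, ∫⁻ w, κ a (Prod.mk w ⁻¹' B) ∂(η a) =
      ∫⁻ t, ((η a).prod ((η (f (a, t))).prod (η (g (a, t))))) B ∂hm := by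
    intro a
    have hc : Measurable fun q : Om k × K => ((a, q.2) : K × K) :=
      measurable_const.prodMk measurable_snd
    have hS : MeasurableSet {q : (Om k × K) × (Om k × Om k) | (q.1.1, q.2) ∈ B} :=
      ((measurable_fst.comp measurable_fst).prodMk measurable_snd) hB
    have h3 := Kernel.measurable_kernel_prodMk_left (κ := (KK η f g hf hg).comap _ hc) hS
    have h4 : Measurable fun q : Om k × K =>
        ((η (f (a, q.2))).prod (η (g (a, q.2)))) (Prod.mk q.1 ⁻¹' B) := by
      have e4 : (fun q : Om k × K =>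
          ((η (f (a, q.2))).prod (η (g (a, q.2)))) (Prod.mk q.1 ⁻¹' B)) =
          fun q => (KK η f g hf hg).comap _ hc q
            (Prod.mk q ⁻¹' {q : (Om k × K) × (Om k × Om k) | (q.1.1, q.2) ∈ B}) := by
        funext q
        rw [Kernel.comap_apply, KK_apply]
        rfl
      rw [e4]
      exact h3
    calc ∫⁻ w, κ a (Prod.mk w ⁻¹' B) ∂(η a) =
        ∫⁻ w, ∫⁻ t, ((η (f (a, t))).prod (η (g (a, t)))) (Prod.mk w ⁻¹' B) ∂hm ∂(η a) :=
          lintegral_congr fun w => hκ a _ (measurable_prodMk_left hB)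
      _ = ∫⁻ t, ∫⁻ w, ((η (f (a, t))).prod (η (g (a, t)))) (Prod.mk w ⁻¹' B) ∂(η a) ∂hm :=
          lintegral_lintegral_swap h4.aemeasurable
      _ = ∫⁻ t, ((η a).prod ((η (f (a, t))).prod (η (g (a, t))))) B ∂hm :=
          lintegral_congr fun t => (Measure.prod_apply hB).symm
  have h5 : Measurable fun q : K × K =>
      ((η q.1).prod ((η (f (q.1, q.2))).prod (η (g (q.1, q.2))))) B := by
    have h6 := ((η.comap Prod.fst measurable_fst) ×ₖ (KK η f g hf hg)).measurable_coe hB
    have e6 : (fun q : K × K =>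
        ((η q.1).prod ((η (f (q.1, q.2))).prod (η (g (q.1, q.2))))) B) =
        fun q => ((η.comap Prod.fst measurable_fst) ×ₖ (KK η f g hf hg)) q B := by
      funext q
      rw [Kernel.prod_apply, KK_apply, Kernel.comap_apply]
    rw [e6]
    exact h6
  calc ∫⁻ a, ∫⁻ w, κ a (Prod.mk w ⁻¹' B) ∂(η a) ∂hm =
      ∫⁻ a, ∫⁻ t, ((η a).prod ((η (f (a, t))).prod (η (g (a, t))))) B ∂hm ∂hm :=
        lintegral_congr h1
    _ = _ := lintegral_lintegral_swap h5.aemeasurable

/-- rotation of a triple product -/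
theorem rot (m1 m2 m3 : Measure (Om k)) [IsProbabilityMeasure m1] [IsProbabilityMeasure m2]
    [IsProbabilityMeasure m3] (B : Set (Om k × (Om k × Om k))) (hB : MeasurableSet B) :
    (m3.prod (m1.prod m2)) {q | (q.2.1, q.2.2, q.1) ∈ B} = (m1.prod (m2.prod m3)) B := by
  have hB' : MeasurableSet {q : Om k × (Om k × Om k) | (q.2.1, q.2.2, q.1) ∈ B} :=
    ((measurable_fst.comp measurable_snd).prodMk
      ((measurable_snd.comp measurable_snd).prodMk measurable_fst)) hB
  rw [Measure.prod_apply_symm hB', Measure.prod_apply hB, lintegral_prod]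
  · refine lintegral_congr fun w => ?_
    rw [Measure.prod_apply (measurable_prodMk_left hB)]
    rfl
  · exact (measurable_measure_prodMk_right hB').aemeasurable

end I_KPF

open I_KPF in
theorem KPF_pf (h1 : S_KPB) : S_KPF := by
  intro k M K _ _ _ _ e π hm μ η F N hN A hA
  have := F.prob
  have := F.haar
  have := F.dis.markov
  obtain ⟨a0, b1, b3, c0, -⟩ := h1 k M K e π hm μ η F
  have hf1 : Measurable fun p : K × K => p.1 + p.2 := (continuous_fst.add continuous_snd).measurable
  have hg1 : Measurable fun p : K × K => p.1 + p.2 + p.2 :=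
    ((continuous_fst.add continuous_snd).add continuous_snd).measurable
  have hf3 : Measurable fun p : K × K => p.1 - p.2 - p.2 :=
    ((continuous_fst.sub continuous_snd).sub continuous_snd).measurable
  have hg3 : Measurable fun p : K × K => p.1 - p.2 := (continuous_fst.sub continuous_snd).measurable
  have hB : MeasurableSet (N ∩ A) := hN.measurableSet.inter hA.isClosed.measurableSet
  have hB' : MeasurableSet {q : Om k × (Om k × Om k) | (q.2.1, q.2.2, q.1) ∈ N ∩ A} :=
    ((measurable_fst.comp measurable_snd).prodMk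
      ((measurable_snd.comp measurable_snd).prodMk measurable_fst)) hB
  -- the kernels
  have m1 : Measurable (kap1 hm η) := Measure.measurable_of_measurable_coe _ fun S hS => by
    have h := (c0 (univ ×ˢ S) (MeasurableSet.univ.prod hS)).1
    simpa using h
  have m3 : Measurable (kap3 hm η) := Measure.measurable_of_measurable_coe _ fun S hS => by
    have h := (c0 (univ ×ˢ S) (MeasurableSet.univ.prod hS)).2
    simpa using h
  let κ1 : Kernel K (Om k × Om k) := ⟨kap1 hm η, m1⟩
  let κ3 : Kernel K (Om k × Om k) := ⟨kap3 hm η, m3⟩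
  have i1 : IsMarkovKernel κ1 := ⟨fun a => (a0 a).1⟩
  have i3 : IsMarkovKernel κ3 := ⟨fun a => (a0 a).2⟩
  have e1 := (integ F κ1 _ hB).trans (swp hm η _ _ hf1 hg1 κ1 (fun a S hS => b1 a S hS) _ hB)
  have e3 := (integ F κ3 _ hB').trans (swp hm η _ _ hf3 hg3 κ3 (fun a S hS => b3 a S hS) _ hB')
  have e1' : ∫⁻ w in M, kap1 hm η (π w) (sec1 (N ∩ A) w) ∂(μ : Measure (Om k)) =
    ∫⁻ t, ∫⁻ a, ((η a).prod ((η (a + t)).prod (η (a + t + t)))) (N ∩ A) ∂hm ∂hm := e1
  have e3' : ∫⁻ v in M, kap3 hm η (π v) (sec3 (N ∩ A) v) ∂(μ : Measure (Om k)) =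
    ∫⁻ t, ∫⁻ b, ((η b).prod ((η (b - t - t)).prod (η (b - t))))
      {q : Om k × (Om k × Om k) | (q.2.1, q.2.2, q.1) ∈ N ∩ A} ∂hm ∂hm := e3
  rw [e1', e3']
  refine lintegral_congr fun t => ?_
  refine Eq.trans ?_ (lintegral_add_right_eq_self (μ := hm) (fun b =>
    ((η b).prod ((η (b - t - t)).prod (η (b - t))))
      {q : Om k × (Om k × Om k) | (q.2.1, q.2.2, q.1) ∈ N ∩ A}) (t + t))
  refine lintegral_congr fun a => ?_
  have q1 : a + (t + t) - t - t = a := by abel
  have q2 : a + (t + t) - t = a + t := by abel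
  have q3 : a + (t + t) = a + t + t := by abel
  rw [q1, q2, q3]
  exact (rot (η a) (η (a + t)) (η (a + t + t)) _ hB).symm

end Pool.Agent.Work.MP_69fea5_lc.N3
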