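import Pool.Agent.Work.MP_69fea5_lc.N3.StmtsA

/-!
# Block [69fea5 N3], item KPS: the kernels live on progressions in `M`
-/

set_option autoImplicit false

namespace Pool.Agent.Work.MP_69fea5_lc.N3

open MeasureTheory Topology Set Filter ProbabilityTheory
open scoped NNReal ENNReal
open Pool.Agent.Work.MP_69fea5_lc.AK

namespace I_KPS

variable {k : ℕ}

/-- `Z3` is closed -/
theorem Z3_closed {K : Type} [NormedAddCommGroup K] {M : Set (Om k)} {π : Om k → K}
    (hM : IsClosed M) (hπ : ContinuousOn π M) : IsClosed (Z3 M π) := by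
  have hC : IsClosed (M ×ˢ (M ×ˢ M)) := hM.prod (hM.prod hM)
  have c1 : ContinuousOn (fun q : Om k × Om k × Om k => π q.1) (M ×ˢ (M ×ˢ M)) :=
    hπ.comp continuous_fst.continuousOn fun q hq => hq.1
  have c2 : ContinuousOn (fun q : Om k × Om k × Om k => π q.2.1) (M ×ˢ (M ×ˢ M)) :=
    hπ.comp (continuous_fst.comp continuous_snd).continuousOn fun q hq => hq.2.1
  have c3 : ContinuousOn (fun q : Om k × Om k × Om k => π q.2.2) (M ×ˢ (M ×ˢ M)) :=
    hπ.comp (continuous_snd.comp continuous_snd).continuousOn fun q hq => hq.2.2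
  have c4 := (c1.add c3).sub (c2.add c2)
  have h := c4.preimage_isClosed_of_isClosed hC (isClosed_singleton (x := (0 : K)))
  have e : Z3 M π = (M ×ˢ (M ×ˢ M)) ∩
      (fun q : Om k × Om k × Om k => π q.1 + π q.2.2 - (π q.2.1 + π q.2.1)) ⁻¹' {0} := by
    ext q
    simp only [Z3, mem_ofPred_eq, mem_inter_iff, mem_prod, mem_preimage, mem_singleton_iff,
      sub_eq_zero]
    tauto
  rw [e]
  exact h

/-- null sets of products -/
theorem prod_null {m n : Measure (Om k)} [IsProbabilityMeasure m] [IsProbabilityMeasure n]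
    {A B : Set (Om k)} {S : Set (Om k × Om k)} (hA : m Aᶜ = 0) (hB : n Bᶜ = 0)
    (h : ∀ x ∈ A, ∀ y ∈ B, (x, y) ∈ S) : (m.prod n) Sᶜ = 0 := by
  have hs : Sᶜ ⊆ (Aᶜ ×ˢ univ) ∪ (univ ×ˢ Bᶜ) := by
    rintro ⟨x, y⟩ hxy
    by_cases hx : x ∈ A
    · by_cases hy : y ∈ B
      · exact absurd (h x hx y hy) hxy
      · exact Or.inr ⟨mem_univ _, hy⟩
    · exact Or.inl ⟨hx, mem_univ _⟩
  refine measure_mono_null hs (measure_union_null ?_ ?_)
  · rw [Measure.prod_prod, hA, zero_mul]
  · rw [Measure.prod_prod, hB, mul_zero]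

end I_KPS

open I_KPS in
theorem KPS_pf (h1 : S_DBL) (h2 : S_KPB) : S_KPS := by
  intro k M K _ _ _ _ e π hm μ η F w hw
  have := F.prob
  have := F.haar
  have := F.dis.markov
  have hd := h1 K hm e F.kro.dense
  obtain ⟨-, b1, b3, -, -⟩ := h2 k M K e π hm μ η F
  have hZ : IsClosed (Z3 M π) := Z3_closed F.min.closed F.kro.cont
  have m1 : MeasurableSet (sec1 (Z3 M π) w)ᶜ := by
    refine (IsClosed.measurableSet ?_).compl
    exact hZ.preimage (continuous_const.prodMk (continuous_fst.prodMk continuous_snd))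
  have m3 : MeasurableSet (sec3 (Z3 M π) w)ᶜ := by
    refine (IsClosed.measurableSet ?_).compl
    exact hZ.preimage (continuous_fst.prodMk (continuous_snd.prodMk continuous_const))
  have hdm : Measurable fun t : K => t + t := (continuous_id.add continuous_id).measurable
  have hdq : Measure.QuasiMeasurePreserving (fun t : K => t + t) hm hm :=
    ⟨hdm, (Measure.absolutelyContinuous_of_le hd).trans Measure.smul_absolutelyContinuous⟩
  have fib := F.dis.fib
  have f1 : ∀ᵐ t ∂hm, η (π w + t) {z | z ∈ M ∧ π z = π w + t}ᶜ = 0 :=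
    (measurePreserving_add_left hm (π w)).quasiMeasurePreserving.ae fib
  have f2 : ∀ᵐ t ∂hm, η (π w + (t + t)) {z | z ∈ M ∧ π z = π w + (t + t)}ᶜ = 0 :=
    hdq.ae f1
  have f3 : ∀ᵐ t ∂hm, η (π w - t) {z | z ∈ M ∧ π z = π w - t}ᶜ = 0 :=
    (Measure.measurePreserving_sub_left hm (π w)).quasiMeasurePreserving.ae fib
  have f4 : ∀ᵐ t ∂hm, η (π w - (t + t)) {z | z ∈ M ∧ π z = π w - (t + t)}ᶜ = 0 :=
    hdq.ae f3
  constructor
  · rw [b1 _ _ m1]
    refine lintegral_eq_zero_of_ae_eq_zero ?_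
    filter_upwards [f1, f2] with t g1 g2
    have e1 : π w + t + t = π w + (t + t) := add_assoc _ _ _
    rw [e1]
    refine prod_null g1 g2 ?_
    rintro x ⟨hx, hx'⟩ y ⟨hy, hy'⟩
    refine ⟨hw, hx, hy, ?_⟩
    change π w + π y = π x + π x
    rw [hx', hy']
    abel
  · rw [b3 _ _ m3]
    refine lintegral_eq_zero_of_ae_eq_zero ?_
    filter_upwards [f3, f4] with t g1 g2
    have e1 : π w - t - t = π w - (t + t) := by abel
    rw [e1]
    refine prod_null g2 g1 ?_
    rintro x ⟨hx, hx'⟩ y ⟨hy, hy'⟩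
    refine ⟨hx, hy, hw, ?_⟩
    change π x + π w = π y + π y
    rw [hx', hy']
    abel

end Pool.Agent.Work.MP_69fea5_lc.N3
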