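import Pool.Agent.Work.MP_69fea5_lc.N3.StmtsA

set_option autoImplicit false

namespace Pool.Agent.Work.MP_69fea5_lc.N3

open MeasureTheory Topology Set Filter ProbabilityTheory
open scoped NNReal ENNReal
open Pool.Agent.Work.MP_69fea5_lc.AK

theorem KRO47_pf (hDKB : S_DKB) (hDKU : S_DKU) (hKCP : S_KCP) : S_KRO := by
  intro k c g m G b hmin hm hm1 hlim
  obtain ⟨hI, hb1, -⟩ := hDKB k m (orb g) hmin hm
  obtain ⟨K, _, _, e, π, hd, hc, hg0, he, hn, hne⟩ := hKCP k g (dK m) hmin hI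
  have hg : g ∈ orb g := subset_closure ⟨0, sh_zero g⟩
  obtain ⟨t, -, ht⟩ := isCompact_univ.ultrafilter_le_nhds (G.map fun n => (b n : ℤ) • e)
    (by simp)
  have ht' : Tendsto (fun n => (b n : ℤ) • e) (G : Filter ℕ) (𝓝 t) := ht
  have hdist : ∀ x ∈ orb g, ∀ y ∈ orb g, ‖(π x + t) - (π y + t)‖ = dK m x y := by
    intro x hx y hy
    rw [add_sub_add_right_eq_sub]
    exact hn x hx y hy
  refine ⟨K, ‹_›, ‹_›, e, fun z => π z + t, ⟨hd, hc.add continuousOn_const, ?_, ?_⟩, hne, ?_,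
    hdist, ?_⟩
  · intro z hz n
    show π (sh n z) + t = π z + t + n • e
    rw [he z hz n]
    abel
  · intro ρ hρ x hx y hy hxy
    refine hDKU k m (orb g) hmin hm hm1 ρ hρ x hx y hy ?_
    rw [← hdist x hx y hy]
    have hxy' : π x + t = π y + t := hxy
    rw [hxy', sub_self, norm_zero]
  · intro x
    have hcl : IsClosed {x : K | ‖x‖ ≤ 1} := isClosed_le continuous_norm continuous_const
    have h1 : closure (Set.range fun n : ℤ => n • e) ⊆ {x : K | ‖x‖ ≤ 1} := by
      refine closure_minimal ?_ hcl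
      rintro _ ⟨n, rfl⟩
      show ‖n • e‖ ≤ 1
      rw [hne n]
      exact (hb1 _ _).2
    exact h1 (hd x)
  · simp only [hg0, zero_add]
    exact ht'

end Pool.Agent.Work.MP_69fea5_lc.N3
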