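import Pool.Agent.Work.MP_69fea5_lc.N3.StmtsH
import Pool.Agent.Work.MP_69fea5_lc.HK.InstC

/-!
Block [69fea5 N3], item KZ0: a coded point over the position `0`.
-/

set_option autoImplicit false

namespace Pool.Agent.Work.MP_69fea5_lc.N3

open MeasureTheory Topology Set Filter ProbabilityTheory
open Pool.Agent.Work.MP_69fea5_lc.AK
open Pool.Agent.Work.MP_69fea5_lc.HK (Cl DU Ar ArF ArR Dat Law LawC act near sc Pt oc Mn mr)

theorem KZ0_pf : S_KZ0 := by
  intro S U hS hU k g b hg hb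
  have h1 : sc S (fun p : Unit × ℤ => act p.2 (show HK.X k from g)) :=
    LawC.sc_act S Unit (fun _ => (show HK.X k from g)) hS hg
  have h2 : sc S (fun p : Unit × ℕ => act (-(b p.2 : ℤ)) (show HK.X k from g)) :=
    LawC.sc_comp S (Unit × ℤ) (Unit × ℕ) (fun p : Unit × ℤ => act p.2 (show HK.X k from g))
      (fun p => ((), (-(b p.2 : ℤ)))) hS h1
      (HK.ArF.pair hS (HK.ArF.const hS ())
        (HK.ArF.intNeg hS (HK.ArF.natCast hS (HK.ArF.comp hS hb (HK.ArF.snd hS)))))
  obtain ⟨z, -, hz⟩ := isCompact_univ.ultrafilter_le_nhds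
    (U.map fun n => act (-(b n : ℤ)) (show HK.X k from g)) (by simp)
  have hlim : Tendsto (fun n => act (-(b n : ℤ)) (show HK.X k from g)) (U : Filter ℕ) (𝓝 z) := hz
  refine ⟨z, ?_, ?_, hlim⟩
  · exact LawC.sc_lim S U Unit (fun p => act (-(b p.2 : ℤ)) (show HK.X k from g)) (fun _ => z)
      hS hU h2 (fun _ => hlim)
  · refine mem_closure_of_tendsto hlim (Filter.Eventually.of_forall fun n => ?_)
    exact ⟨-(b n : ℤ), rfl⟩

end Pool.Agent.Work.MP_69fea5_lc.N3
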