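import Pool.Agent.Work.MP_69fea5_lc.N3.StmtsB

/-!
# Block [69fea5 N3], item LCF: location of the zones near the base point
-/

set_option autoImplicit false

namespace Pool.Agent.Work.MP_69fea5_lc.N3

open MeasureTheory Topology Set Filter ProbabilityTheory
open scoped NNReal ENNReal
open Pool.Agent.Work.MP_69fea5_lc.AK

namespace I_LCF

/-- limits along an ultrafilter in the space of sequences -/
theorem lim {k : ℕ} (G : Ultrafilter ℕ) (a : ℕ → Om k) :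
    ∃ x, Tendsto a (G : Filter ℕ) (𝓝 x) := by
  obtain ⟨x, -, hx⟩ := isCompact_univ.ultrafilter_le_nhds (G.map a)
    (by simp : ((G.map a : Ultrafilter (Om k)) : Filter (Om k)) ≤ 𝓟 univ)
  exact ⟨x, hx⟩

end I_LCF

theorem LCF_pf (hL : S_LCN) (hLOC : S_LOC) (hT : S_TH3) (hN : S_NNR) (hI : S_IKB) : S_LCF := by
  intro k c M K _ _ _ _ e π hm μ η hF z hz W hW
  obtain ⟨hTc, hTe, hT3, hT4, -, hpc, -⟩ := hT k c M K e π hm μ η hF
  obtain ⟨-, hinj, -, -, -⟩ := hI K e hF.fr.kro.dense hF.bd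
  have hcl : IsClosed M := hF.fr.min.closed
  by_contra hcon
  push Not at hcon
  obtain ⟨V, hV⟩ := (𝓝 (ps c M e π hm η z)).exists_antitone_basis
  have hstep : ∀ i : ℕ, ∃ (P : W2 k) (w u v g g' : Om k),
      Ins c M e π hm η (V i) P.1 ∧ Ins c M e π hm η (V i) P.2 ∧
      w ∈ M ∧ u ∈ M ∧ v ∈ M ∧ g ∈ M ∧ g' ∈ M ∧ (w, u) ∈ bx P 0 ∧ (g, g') ∈ bx P 0 ∧
      ps c M e π hm η v ∉ W ∧ π w + π g = π u ∧ π g' = π g + π g ∧ π u + π g = π v ∧
      ∀ (Q : W2 k) (s : K), s + s = π g →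
        HH hm η π (N0 c M e π hm η Q) w u u v s = HH hm η π (N0 c M e π hm η Q) z g g g' s := by
    intro i
    obtain ⟨P, h1, h2, w, u, v, h3, h4, h5⟩ := hcon (V i) (hV.1.mem_of_mem trivial)
    obtain ⟨g, hg, g', hg', h6, h7, h8, h9⟩ := hL k c M K e π hm μ η hF z hz P w u v h3
    have hR : Rel3 M π (N1 c M e π hm η z P) :=
      hN k c M K e π hm μ η hF (Cube (Ix3 k)) (Th3 c M e π hm η) (Th3 c M e π hm η z) hTc hTe P
    obtain ⟨hw, hu, hv, h10⟩ := hR.sub h3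
    refine ⟨P, w, u, v, g, g', h1, h2, hw, hu, hv, hg, hg', h4, h6, h5, h7, h8, ?_, h9⟩
    have h11 : π w + π v = π u + π u := h10
    have h12 : π w + (π u + π g) = π w + π v := by
      rw [h11, ← add_assoc, add_comm (π w) (π u), add_assoc, h7]
    exact add_left_cancel h12
  choose P w u v g g' hP1 hP2 hw hu hv hg hg' hwu hgg hW' hwg hgg' hug hHH using hstep
  -- the positions of `w`, `u`, `g`, `g'` tend to the position of `z`
  have hlim : ∀ a : ℕ → Om k, (∀ i, ps c M e π hm η (a i) ∈ V i) → ∀ G : Ultrafilter ℕ,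
      (G : Filter ℕ) ≤ atTop →
      Tendsto (fun i => ps c M e π hm η (a i)) (G : Filter ℕ) (𝓝 (ps c M e π hm η z)) := by
    intro a ha G hG
    exact (hV.tendsto ha).mono_left hG
  obtain ⟨G, hG⟩ : ∃ G : Ultrafilter ℕ, (G : Filter ℕ) ≤ atTop := Ultrafilter.exists_le atTop
  obtain ⟨w₀, hw₀⟩ := I_LCF.lim G w
  obtain ⟨u₀, hu₀⟩ := I_LCF.lim G u
  obtain ⟨v₀, hv₀⟩ := I_LCF.lim G v
  obtain ⟨g₀, hg₀⟩ := I_LCF.lim G g
  obtain ⟨g₀', hg₀'⟩ := I_LCF.lim G g'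
  have hM : ∀ (a : ℕ → Om k) (a₀ : Om k), (∀ i, a i ∈ M) →
      Tendsto a (G : Filter ℕ) (𝓝 a₀) → a₀ ∈ M := fun a a₀ ha hta =>
    hcl.mem_of_tendsto hta (Eventually.of_forall ha)
  have hps : ∀ (a : ℕ → Om k) (a₀ : Om k), (∀ i, a i ∈ M) →
      Tendsto a (G : Filter ℕ) (𝓝 a₀) → Tendsto (fun i => ps c M e π hm η (a i)) (G : Filter ℕ)
        (𝓝 (ps c M e π hm η a₀)) := by
    intro a a₀ ha hta
    have h1 := hpc a₀ (hM a a₀ ha hta)
    have h2 : Tendsto a (G : Filter ℕ) (𝓝[M] a₀) :=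
      tendsto_nhdsWithin_iff.mpr ⟨hta, Eventually.of_forall ha⟩
    exact h1.tendsto.comp h2
  have hzM : z ∈ M := hz.mem
  have hz0 : π z = 0 := hz.pos
  have key : ∀ (a : ℕ → Om k) (a₀ : Om k), (∀ i, a i ∈ M) → (∀ i, ps c M e π hm η (a i) ∈ V i) →
      Tendsto a (G : Filter ℕ) (𝓝 a₀) → a₀ ∈ M ∧ π a₀ = 0 ∧
        ∀ Q : W2 k, dd3 hm η π (N0 c M e π hm η Q) a₀ z = 0 := by
    intro a a₀ ha hav hta
    have h1 := tendsto_nhds_unique (hps a a₀ ha hta) (hlim a hav G hG)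
    have h2 : iK e (π a₀) = iK e (π z) := congrArg Prod.fst h1
    have h3 : Th3 c M e π hm η a₀ = Th3 c M e π hm η z := congrArg Prod.snd h1
    have h4 : π a₀ = π z := hinj h2
    exact ⟨hM a a₀ ha hta, h4.trans hz0, hT3 a₀ (hM a a₀ ha hta) z hzM h4 h3⟩
  obtain ⟨mw, pw, dw⟩ := key w w₀ hw (fun i => hP1 i (w i) (hw i) (hwu i).1) hw₀
  obtain ⟨mu, pu, du⟩ := key u u₀ hu (fun i => hP2 i (u i) (hu i) (hwu i).2) hu₀
  obtain ⟨mg, pg, dg⟩ := key g g₀ hg (fun i => hP1 i (g i) (hg i) (hgg i).1) hg₀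
  obtain ⟨mg', pg', dg'⟩ := key g' g₀' hg' (fun i => hP2 i (g' i) (hg' i) (hgg i).2) hg₀'
  have hloc : ∀ Q : W2 k, π v₀ = 0 ∧ dd3 hm η π (N0 c M e π hm η Q) z v₀ = 0 := by
    intro Q
    have hR : Rel3 M π (N0 c M e π hm η Q) :=
      hN k c M K e π hm μ η hF Unit (fun _ => ()) () continuousOn_const (fun _ _ _ => rfl) Q
    exact hLOC k M K e π hm μ η hF.fr (N0 c M e π hm η Q) hR z hzM hz0 G w u v g g' w₀ u₀ v₀ g₀ g₀'
      (fun i => ⟨hw i, hu i, hv i, hg i, hg' i, hwg i, hgg' i, hug i⟩)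
      (fun i s hs => hHH i Q s hs) hw₀ hu₀ hv₀ hg₀ hg₀' pw pg (dw Q) (du Q) (dg Q) (dg' Q)
  have mv : v₀ ∈ M := hM v v₀ hv hv₀
  have pv : π z = π v₀ := by rw [hz0, (hloc ([], [])).1]
  have hTh : Th3 c M e π hm η v₀ = Th3 c M e π hm η z := by
    funext i n
    have h1 := hT4 z hzM v₀ mv pv i n
    rw [(hloc i.1).2] at h1
    have h2 : (Th3 c M e π hm η z i n : ℝ) = Th3 c M e π hm η v₀ i n := by
      have := abs_nonpos_iff.mp h1
      linarith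
    exact Subtype.ext h2.symm
  have hpsv : ps c M e π hm η v₀ = ps c M e π hm η z := by
    unfold ps
    rw [hTh, pv]
  have hfin := hps v v₀ hv hv₀
  rw [hpsv] at hfin
  obtain ⟨i, hi⟩ := (hfin.eventually hW).exists
  exact hW' i hi

end Pool.Agent.Work.MP_69fea5_lc.N3
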