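import Pool.Agent.Work.MP_69fea5_lc.N3.StmtsB

/-!
# Block [69fea5 N3], item LCN: located triples are limits of progressions starting at `z`
-/

set_option autoImplicit false

namespace Pool.Agent.Work.MP_69fea5_lc.N3

open MeasureTheory Topology Set Filter ProbabilityTheory
open scoped NNReal ENNReal
open Pool.Agent.Work.MP_69fea5_lc.AK

namespace I_LCN

/-- halves of small norm -/
theorem halves (h : S_HLF) (K : Type) [NormedAddCommGroup K] [CompactSpace K] (e : K)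
    (he : Dense (Set.range fun n : ℤ => n • e)) {T : Type*} (G : Filter T) (t : T → K)
    (ht : Tendsto t G (𝓝 0)) : ∃ s : T → K, (∀ᶠ i in G, s i + s i = t i) ∧
      Tendsto s G (𝓝 0) := by
  classical
  have key : ∀ x : K, ∃ s : K, (∃ r : K, r + r = x) →
      s + s = x ∧ ∀ r : K, r + r = x → ‖s‖ ≤ ‖r‖ := by
    intro x
    by_cases hx : ∃ r : K, r + r = x
    · have hcl : IsClosed {r : K | r + r = x} :=
        isClosed_eq (continuous_id.add continuous_id) continuous_const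
      have hne : {r : K | r + r = x}.Nonempty := hx
      obtain ⟨s, hs, hmin⟩ := hcl.isCompact.exists_isMinOn hne continuous_norm.continuousOn
      exact ⟨s, fun _ => ⟨hs, fun r hr => hmin hr⟩⟩
    · exact ⟨0, fun hh => absurd hh hx⟩
  choose f hf using key
  have hev : ∀ ε : ℝ, 0 < ε → ∀ᶠ i in G, f (t i) + f (t i) = t i ∧ ‖f (t i)‖ < ε := by
    intro ε hε
    obtain ⟨δ, hδ, hh⟩ := h K e he ε hε
    have h1 : ∀ᶠ i in G, ‖t i‖ < δ := by
      have := ht.norm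
      rw [norm_zero] at this
      exact this.eventually_lt_const hδ
    filter_upwards [h1] with i hi
    obtain ⟨s, hs1, hs2⟩ := hh (t i) hi
    have h2 := hf (t i) ⟨s, hs2⟩
    exact ⟨h2.1, lt_of_le_of_lt (h2.2 s hs2) hs1⟩
  refine ⟨fun i => f (t i), ?_, ?_⟩
  · filter_upwards [hev 1 one_pos] with i hi using hi.1
  · rw [Metric.tendsto_nhds]
    intro ε hε
    filter_upwards [hev ε hε] with i hi
    rw [dist_zero_right]
    exact hi.2

/-- an ultrafilter of times and pairs -/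
theorem ultra {k : ℕ} {B : Type} [TopologicalSpace B] [Sys B] (c : Om k) (A : Set (Om k × Om k))
    (q : Om k × Om k × Om k) (b b₁ : B)
    (h : ∀ U ∈ 𝓝 q, ∀ V ∈ 𝓝 b₁, ∀ L : ℕ, ∃ x : ℕ, L ≤ x ∧ ∃ g ∈ A,
      (sh (x : ℤ) c, sh (x : ℤ) g.1, sh (x : ℤ) g.2) ∈ U ∧ sh (x : ℤ) b ∈ V) :
    ∃ G : Ultrafilter (ℕ × (Om k × Om k)), (∀ᶠ t in (G : Filter (ℕ × (Om k × Om k))), t.2 ∈ A) ∧
      Tendsto (fun t : ℕ × (Om k × Om k) => (sh (t.1 : ℤ) c, sh (t.1 : ℤ) t.2.1,
        sh (t.1 : ℤ) t.2.2)) (G : Filter (ℕ × (Om k × Om k))) (𝓝 q) ∧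
      Tendsto (fun t : ℕ × (Om k × Om k) => sh (t.1 : ℤ) b) (G : Filter (ℕ × (Om k × Om k)))
        (𝓝 b₁) := by
  let Φ : ℕ × (Om k × Om k) → (Om k × Om k × Om k) × B := fun t =>
    ((sh (t.1 : ℤ) c, sh (t.1 : ℤ) t.2.1, sh (t.1 : ℤ) t.2.2), sh (t.1 : ℤ) b)
  let F : Filter (ℕ × (Om k × Om k)) := comap Φ (𝓝 (q, b₁)) ⊓ 𝓟 {t | t.2 ∈ A}
  have hne : F.NeBot := by
    rw [← forall_mem_nonempty_iff_neBot]
    intro s hs
    obtain ⟨s1, hs1, s2, hs2, rfl⟩ := Filter.mem_inf_iff.mp hs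
    obtain ⟨W, hW, hWs⟩ := mem_comap.mp hs1
    rw [nhds_prod_eq, mem_prod_iff] at hW
    obtain ⟨U, hU, V, hV, hUV⟩ := hW
    obtain ⟨x, -, g, hg, h1, h2⟩ := h U hU V hV 0
    refine ⟨(x, g), hWs (hUV ⟨h1, h2⟩), ?_⟩
    exact (mem_principal.mp hs2) hg
  refine ⟨Ultrafilter.of F, ?_, ?_, ?_⟩
  · exact (Ultrafilter.of_le F).trans inf_le_right (mem_principal_self _)
  · have h1 : Tendsto Φ (Ultrafilter.of F : Filter (ℕ × (Om k × Om k))) (𝓝 (q, b₁)) :=
      tendsto_comap.mono_left ((Ultrafilter.of_le F).trans inf_le_left)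
    exact (continuous_fst.tendsto _).comp h1
  · have h1 : Tendsto Φ (Ultrafilter.of F : Filter (ℕ × (Om k × Om k))) (𝓝 (q, b₁)) :=
      tendsto_comap.mono_left ((Ultrafilter.of_le F).trans inf_le_left)
    exact (continuous_snd.tendsto _).comp h1

/-- limits along ultrafilters exist in `Om k` -/
theorem lim {k : ℕ} {T : Type*} (G : Ultrafilter T) (f : T → Om k) :
    ∃ a : Om k, Tendsto f (G : Filter T) (𝓝 a) := by
  refine ⟨(G.map f).lim, ?_⟩
  exact (G.map f).le_nhds_lim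

theorem isClosed_cyl {k : ℕ} (w : Wd k) (n : ℤ) : IsClosed (cyl w n) := by
  have : cyl w n = ⋂ i : ℕ, ⋂ a : Fin k, ⋂ _ : w[i]? = some a,
      {z : Om k | z (n - ((w.length / 2 : ℕ) : ℤ) + i) = a} := by
    ext z
    simp only [cyl, mem_setOf_eq, mem_iInter]
  rw [this]
  refine isClosed_iInter fun i => isClosed_iInter fun a => isClosed_iInter fun _ => ?_
  exact isClosed_eq (continuous_apply _) continuous_const

end I_LCN

open I_LCN in
theorem LCN_pf (h1 : S_TH3) (h2 : S_NNR) (h3 : S_HLF) (h4 : S_HHC) (h5 : S_HHI) (h6 : S_IKB)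
    (h7 : S_POS) : S_LCN := by
  intro k c M K _ _ _ _ e π hm μ η F z hz P w u v hq
  obtain ⟨tC, tE, tD, -, -, tP, tPE⟩ := h1 k c M K e π hm μ η F
  obtain ⟨-, -, hMc, hsup, hshM⟩ := h7 k c M K e π hm μ η F
  obtain ⟨-, hinj, -, -, -⟩ := h6 K e F.fr.kro.dense F.bd
  have hR1 : Rel3 M π (N1 c M e π hm η z P) :=
    h2 k c M K e π hm μ η F (Cube (Ix3 k)) (Th3 c M e π hm η) (Th3 c M e π hm η z) tC tE P
  have hR0 : ∀ Q : W2 k, Rel3 M π (N0 c M e π hm η Q) := fun Q =>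
    h2 k c M K e π hm μ η F Unit (fun _ => ()) () continuousOn_const (fun _ _ _ => rfl) Q
  obtain ⟨hwM, huM, hvM, hwuv⟩ := hR1.sub hq
  change w ∈ M at hwM
  change u ∈ M at huM
  change v ∈ M at hvM
  change π w + π v = π u + π u at hwuv
  obtain ⟨G, hA, hT, hB⟩ := ultra c (bx P 0 ∩ sup2 (kap1 hm η 0)) (w, u, v)
    (iK e (0 : K), Th3 c M e π hm η z) (iK e (π w), Th3 c M e π hm η w) hq.2
  obtain ⟨g, hg⟩ := lim G fun t => t.2.1
  obtain ⟨g', hg'⟩ := lim G fun t => t.2.2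
  obtain ⟨z', hz'⟩ := lim G fun t => sh (t.1 : ℤ) z
  have hAM : ∀ᶠ t in (G : Filter (ℕ × (Om k × Om k))),
      t.2.1 ∈ M ∧ t.2.2 ∈ M ∧ π t.2.2 = π t.2.1 + π t.2.1 := by
    filter_upwards [hA] with t ht using hsup t.2 ht.2
  have hgM : g ∈ M := hMc.mem_of_tendsto hg (hAM.mono fun t ht => ht.1)
  have hgM' : g' ∈ M := hMc.mem_of_tendsto hg' (hAM.mono fun t ht => ht.2.1)
  have hzM : ∀ n : ℤ, sh n z ∈ M := fun n => (hshM n z hz.mem).1
  have hzM' : z' ∈ M := hMc.mem_of_tendsto hz' (Eventually.of_forall fun t => hzM _)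
  have htu : Tendsto (fun t : ℕ × (Om k × Om k) => sh (t.1 : ℤ) t.2.1)
      (G : Filter (ℕ × (Om k × Om k))) (𝓝 u) :=
    (continuous_fst.tendsto _).comp ((continuous_snd.tendsto _).comp hT)
  have htv : Tendsto (fun t : ℕ × (Om k × Om k) => sh (t.1 : ℤ) t.2.2)
      (G : Filter (ℕ × (Om k × Om k))) (𝓝 v) :=
    (continuous_snd.tendsto _).comp ((continuous_snd.tendsto _).comp hT)
  have hpi : ∀ (a : ℕ × (Om k × Om k) → Om k) (a₀ : Om k),
      (∀ᶠ t in (G : Filter (ℕ × (Om k × Om k))), a t ∈ M) → a₀ ∈ M →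
      Tendsto a (G : Filter (ℕ × (Om k × Om k))) (𝓝 a₀) →
      Tendsto (fun t => π (a t)) (G : Filter (ℕ × (Om k × Om k))) (𝓝 (π a₀)) := by
    intro a a₀ ha ha0 hta
    have hc := F.fr.kro.cont a₀ ha0
    exact hc.tendsto.comp (tendsto_nhdsWithin_iff.mpr ⟨hta, ha⟩)
  have pg := hpi _ g (hAM.mono fun t ht => ht.1) hgM hg
  have pg' := hpi _ g' (hAM.mono fun t ht => ht.2.1) hgM' hg'
  have pz := hpi _ z' (Eventually.of_forall fun t => hzM _) hzM' hz'
  have pu := hpi _ u (hAM.mono fun t ht => (hshM _ _ ht.1).1) huM htu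
  -- the position of `z'`
  have hps : ps c M e π hm η z' = ps c M e π hm η w := by
    have l1 : Tendsto (fun t : ℕ × (Om k × Om k) => ps c M e π hm η (sh (t.1 : ℤ) z))
        (G : Filter (ℕ × (Om k × Om k))) (𝓝 (ps c M e π hm η z')) :=
      (tP z' hzM').tendsto.comp
        (tendsto_nhdsWithin_iff.mpr ⟨hz', Eventually.of_forall fun t => hzM _⟩)
    have l2 : Tendsto (fun t : ℕ × (Om k × Om k) => ps c M e π hm η (sh (t.1 : ℤ) z))
        (G : Filter (ℕ × (Om k × Om k))) (𝓝 (ps c M e π hm η w)) := by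
      refine hB.congr fun t => ?_
      rw [tPE z hz.mem]
      change _ = sh (t.1 : ℤ) (iK e (π z), Th3 c M e π hm η z)
      rw [hz.pos]
    exact tendsto_nhds_unique l1 l2
  have hpz : π z' = π w := hinj (congrArg Prod.fst hps)
  have hTz : Th3 c M e π hm η z' = Th3 c M e π hm η w := congrArg Prod.snd hps
  have hdd : ∀ Q : W2 k, dd3 hm η π (N0 c M e π hm η Q) z' w = 0 := tD z' hzM' w hwM hpz hTz
  -- positions
  have hwu : π w + π g = π u := by
    have l1 := pz.add pg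
    have l2 : Tendsto (fun t : ℕ × (Om k × Om k) => π (sh (t.1 : ℤ) z) + π t.2.1)
        (G : Filter (ℕ × (Om k × Om k))) (𝓝 (π u)) := by
      refine pu.congr' ?_
      filter_upwards [hAM] with t ht
      rw [(hshM _ _ ht.1).2, (hshM _ _ hz.mem).2, hz.pos]
      abel
    have l3 := tendsto_nhds_unique l1 l2
    rw [hpz] at l3
    exact l3
  have hgg : π g' = π g + π g := by
    refine tendsto_nhds_unique pg' ((pg.add pg).congr' ?_)
    filter_upwards [hAM] with t ht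
    exact ht.2.2.symm
  have huv : π v = π u + π g := by
    have h8 : π v = π u + π u - π w := by rw [← hwuv]; abel
    rw [h8, ← hwu]
    abel
  refine ⟨g, hgM, g', hgM', ?_, hwu, hgg, ?_⟩
  · refine ⟨(isClosed_cyl _ _).mem_of_tendsto hg ?_, (isClosed_cyl _ _).mem_of_tendsto hg' ?_⟩
    · exact hA.mono fun t ht => ht.1.1
    · exact hA.mono fun t ht => ht.1.2
  intro Q s hs
  -- the parameters
  have hr : Tendsto (fun t : ℕ × (Om k × Om k) => π t.2.1 - π g)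
      (G : Filter (ℕ × (Om k × Om k))) (𝓝 0) := by
    have := pg.sub_const (π g)
    rwa [sub_self] at this
  obtain ⟨r, hr1, hr2⟩ := halves h3 K e F.fr.kro.dense (G : Filter (ℕ × (Om k × Om k))) _ hr
  have hs2 : Tendsto (fun t => s + r t) (G : Filter (ℕ × (Om k × Om k))) (𝓝 s) := by
    have := hr2.const_add s
    rwa [add_zero] at this
  have hs1 : ∀ᶠ t in (G : Filter (ℕ × (Om k × Om k))),
      (s + r t) + (s + r t) = π t.2.1 := by
    filter_upwards [hr1] with t ht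
    have : (s + r t) + (s + r t) = (s + s) + (r t + r t) := by abel
    rw [this, ht, hs]
    abel
  have hC := h4 k M K e π hm μ η F.fr _ (hR0 Q)
  obtain ⟨hI1, hI2, -⟩ := h5 k M K e π hm μ η F.fr _ (hR0 Q)
  have hQ1 : (((z, g), (g, g'), s) : (Om k × Om k) × (Om k × Om k) × K) ∈ HD M π := by
    refine ⟨hz.mem, hgM, hgM, hgM', ?_, ?_⟩
    · change π g = π z + s + s
      rw [add_assoc, hs, hz.pos, zero_add]
    · change π g' = π g + s + s
      rw [add_assoc, hs, hgg]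
  have hQ2 : (((z', u), (u, v), s) : (Om k × Om k) × (Om k × Om k) × K) ∈ HD M π := by
    refine ⟨hzM', huM, huM, hvM, ?_, ?_⟩
    · change π u = π z' + s + s
      rw [add_assoc, hs, hpz, hwu]
    · change π v = π u + s + s
      rw [add_assoc, hs, huv]
  have tQ1 : Tendsto (fun t : ℕ × (Om k × Om k) =>
      (((z, t.2.1), (t.2.1, t.2.2), s + r t) : (Om k × Om k) × (Om k × Om k) × K))
      (G : Filter (ℕ × (Om k × Om k))) (𝓝 ((z, g), (g, g'), s)) :=
    (tendsto_const_nhds.prodMk_nhds hg).prodMk_nhds ((hg.prodMk_nhds hg').prodMk_nhds hs2)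
  have tQ2 : Tendsto (fun t : ℕ × (Om k × Om k) =>
      (((sh (t.1 : ℤ) z, sh (t.1 : ℤ) t.2.1), (sh (t.1 : ℤ) t.2.1, sh (t.1 : ℤ) t.2.2),
        s + r t) : (Om k × Om k) × (Om k × Om k) × K))
      (G : Filter (ℕ × (Om k × Om k))) (𝓝 ((z', u), (u, v), s)) :=
    (hz'.prodMk_nhds htu).prodMk_nhds ((htu.prodMk_nhds htv).prodMk_nhds hs2)
  have eQ1 : ∀ᶠ t in (G : Filter (ℕ × (Om k × Om k))),
      (((z, t.2.1), (t.2.1, t.2.2), s + r t) : (Om k × Om k) × (Om k × Om k) × K) ∈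
        HD M π := by
    filter_upwards [hAM, hs1] with t ht hst
    refine ⟨hz.mem, ht.1, ht.1, ht.2.1, ?_, ?_⟩
    · change π t.2.1 = π z + (s + r t) + (s + r t)
      rw [add_assoc, hst, hz.pos, zero_add]
    · change π t.2.2 = π t.2.1 + (s + r t) + (s + r t)
      rw [add_assoc, hst, ht.2.2]
  have eQ2 : ∀ᶠ t in (G : Filter (ℕ × (Om k × Om k))),
      (((sh (t.1 : ℤ) z, sh (t.1 : ℤ) t.2.1), (sh (t.1 : ℤ) t.2.1, sh (t.1 : ℤ) t.2.2),
        s + r t) : (Om k × Om k) × (Om k × Om k) × K) ∈ HD M π := by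
    filter_upwards [hAM, hs1] with t ht hst
    refine ⟨hzM _, (hshM _ _ ht.1).1, (hshM _ _ ht.1).1, (hshM _ _ ht.2.1).1, ?_, ?_⟩
    · change π (sh (t.1 : ℤ) t.2.1) = π (sh (t.1 : ℤ) z) + (s + r t) + (s + r t)
      rw [add_assoc, hst, (hshM _ _ ht.1).2, (hshM _ _ hz.mem).2, hz.pos]
      abel
    · change π (sh (t.1 : ℤ) t.2.2) = π (sh (t.1 : ℤ) t.2.1) + (s + r t) + (s + r t)
      rw [add_assoc, hst, (hshM _ _ ht.1).2, (hshM _ _ ht.2.1).2, ht.2.2]
      abel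
  have lQ1 := (hC _ hQ1).tendsto.comp (tendsto_nhdsWithin_iff.mpr ⟨tQ1, eQ1⟩)
  have lQ2 := (hC _ hQ2).tendsto.comp (tendsto_nhdsWithin_iff.mpr ⟨tQ2, eQ2⟩)
  have e1 : HH hm η π (N0 c M e π hm η Q) z' u u v s =
      HH hm η π (N0 c M e π hm η Q) z g g g' s := by
    refine tendsto_nhds_unique (lQ2.congr' ?_) lQ1
    filter_upwards [eQ1] with t ht
    exact hI1 _ ht (t.1 : ℤ)
  rw [← e1]
  have hQ3 : (((w, u), (u, v), s) : (Om k × Om k) × (Om k × Om k) × K) ∈ HD M π := by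
    refine ⟨hwM, huM, huM, hvM, ?_, ?_⟩
    · change π u = π w + s + s
      rw [add_assoc, hs, hwu]
    · change π v = π u + s + s
      rw [add_assoc, hs, huv]
  exact (hI2 _ hQ3 z' hzM' hpz (hdd Q)).symm

end Pool.Agent.Work.MP_69fea5_lc.N3
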