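import Pool.Agent.Work.MP_69fea5_lc.N3.StmtsA

/-!
# Block [69fea5 N3], item LOC: the location lemma
-/

set_option autoImplicit false

namespace Pool.Agent.Work.MP_69fea5_lc.N3

open MeasureTheory Topology Set Filter ProbabilityTheory
open scoped NNReal ENNReal
open Pool.Agent.Work.MP_69fea5_lc.AK

namespace I_LOC

/-- halves of small norm along a sequence tending to zero -/
theorem halves (h : S_HLF) (K : Type) [NormedAddCommGroup K] [CompactSpace K] (e : K)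
    (he : Dense (Set.range fun n : ℤ => n • e)) (G : Filter ℕ) (t : ℕ → K)
    (ht : Tendsto t G (𝓝 0)) : ∃ s : ℕ → K, (∀ᶠ i in G, s i + s i = t i) ∧
      Tendsto s G (𝓝 0) := by
  classical
  have key : ∀ x : K, ∃ s : K, (∃ r : K, r + r = x) →
      s + s = x ∧ ∀ r : K, r + r = x → ‖s‖ ≤ ‖r‖ := by
    intro x
    by_cases hx : ∃ r : K, r + r = x
    · have hcl : IsClosed {r : K | r + r = x} :=
        isClosed_eq (continuous_id.add continuous_id) continuous_const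
      have hne : {r : K | r + r = x}.Nonempty := hx
      obtain ⟨s, hs, hmin⟩ := hcl.isCompact.exists_isMinOn hne continuous_norm.continuousOn
      exact ⟨s, fun _ => ⟨hs, fun r hr => hmin hr⟩⟩
    · exact ⟨0, fun hh => absurd hh hx⟩
  choose f hf using key
  have hev : ∀ ε : ℝ, 0 < ε → ∀ᶠ i in G, f (t i) + f (t i) = t i ∧ ‖f (t i)‖ < ε := by
    intro ε hε
    obtain ⟨δ, hδ, hh⟩ := h K e he ε hε
    have h1 : ∀ᶠ i in G, ‖t i‖ < δ := by
      have := ht.norm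
      rw [norm_zero] at this
      exact this.eventually_lt_const hδ
    filter_upwards [h1] with i hi
    obtain ⟨s, hs1, hs2⟩ := hh (t i) hi
    have h2 := hf (t i) ⟨s, hs2⟩
    exact ⟨h2.1, lt_of_le_of_lt (h2.2 s hs2) hs1⟩
  refine ⟨fun i => f (t i), ?_, ?_⟩
  · filter_upwards [hev 1 one_pos] with i hi using hi.1
  · rw [Metric.tendsto_nhds]
    intro ε hε
    filter_upwards [hev ε hε] with i hi
    rw [dist_zero_right]
    exact hi.2

end I_LOC

theorem LOC_pf (h1 : S_HLF) (h2 : S_RKD) (h3 : S_HHC) (h4 : S_HHI) (h5 : S_HHD) : S_LOC := by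
  intro k M K _ _ _ _ e π hm μ η hF N hN z hz hz0 G w u v g g' w₀ u₀ v₀ g₀ g₀' hM hH hw hu hv
    hg hg' hw0 hg0 dw du dg dg'
  have hcl : IsClosed M := hF.min.closed
  have hmw : w₀ ∈ M := hcl.mem_of_tendsto hw (Eventually.of_forall fun i => (hM i).1)
  have hmu : u₀ ∈ M := hcl.mem_of_tendsto hu (Eventually.of_forall fun i => (hM i).2.1)
  have hmv : v₀ ∈ M := hcl.mem_of_tendsto hv (Eventually.of_forall fun i => (hM i).2.2.1)
  have hmg : g₀ ∈ M := hcl.mem_of_tendsto hg (Eventually.of_forall fun i => (hM i).2.2.2.1)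
  have hmg' : g₀' ∈ M := hcl.mem_of_tendsto hg' (Eventually.of_forall fun i => (hM i).2.2.2.2.1)
  have hpi : ∀ (a : ℕ → Om k) (a₀ : Om k), (∀ i, a i ∈ M) → a₀ ∈ M →
      Tendsto a (G : Filter ℕ) (𝓝 a₀) → Tendsto (fun i => π (a i)) (G : Filter ℕ) (𝓝 (π a₀)) := by
    intro a a₀ ha ha0 hta
    have hc := hF.kro.cont a₀ ha0
    have : Tendsto a (G : Filter ℕ) (𝓝[M] a₀) :=
      tendsto_nhdsWithin_iff.mpr ⟨hta, Eventually.of_forall ha⟩
    exact hc.tendsto.comp this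
  have pw := hpi w w₀ (fun i => (hM i).1) hmw hw
  have pu := hpi u u₀ (fun i => (hM i).2.1) hmu hu
  have pv := hpi v v₀ (fun i => (hM i).2.2.1) hmv hv
  have pg := hpi g g₀ (fun i => (hM i).2.2.2.1) hmg hg
  have pg' := hpi g' g₀' (fun i => (hM i).2.2.2.2.1) hmg' hg'
  have hu0 : π u₀ = 0 := by
    have h := pw.add pg
    have h' : Tendsto (fun i => π (u i)) (G : Filter ℕ) (𝓝 (π w₀ + π g₀)) :=
      h.congr fun i => (hM i).2.2.2.2.2.1
    have := tendsto_nhds_unique pu h'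
    rw [this, hw0, hg0, add_zero]
  have hg0' : π g₀' = 0 := by
    have h := pg.add pg
    have h' : Tendsto (fun i => π (g' i)) (G : Filter ℕ) (𝓝 (π g₀ + π g₀)) :=
      h.congr fun i => ((hM i).2.2.2.2.2.2.1).symm
    have := tendsto_nhds_unique pg' h'
    rw [this, hg0, add_zero]
  have hv0 : π v₀ = 0 := by
    have h := pu.add pg
    have h' : Tendsto (fun i => π (v i)) (G : Filter ℕ) (𝓝 (π u₀ + π g₀)) :=
      h.congr fun i => (hM i).2.2.2.2.2.2.2
    have := tendsto_nhds_unique pv h'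
    rw [this, hu0, hg0, add_zero]
  refine ⟨hv0, ?_⟩
  -- the parameters
  rw [hg0] at pg
  obtain ⟨s, hs, hs0⟩ := I_LOC.halves h1 K e hF.kro.dense (G : Filter ℕ) (fun i => π (g i)) pg
  have hself := (h2 k M K e π hm μ η hF N hN).2.2.1
  have hC := h3 k M K e π hm μ η hF N hN
  obtain ⟨-, -, hI⟩ := h4 k M K e π hm μ η hF N hN
  -- the two limits
  have hP : (((w₀, u₀), (u₀, v₀), (0 : K)) : (Om k × Om k) × (Om k × Om k) × K) ∈ HD M π := by
    refine ⟨hmw, hmu, hmu, hmv, ?_, ?_⟩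
    · simp [hw0, hu0]
    · simp [hu0, hv0]
  have hQ : (((z, g₀), (g₀, g₀'), (0 : K)) : (Om k × Om k) × (Om k × Om k) × K) ∈ HD M π := by
    refine ⟨hz, hmg, hmg, hmg', ?_, ?_⟩
    · simp [hz0, hg0]
    · simp [hg0, hg0']
  have tP : Tendsto (fun i => (((w i, u i), (u i, v i), s i) : (Om k × Om k) × (Om k × Om k) × K))
      (G : Filter ℕ) (𝓝 ((w₀, u₀), (u₀, v₀), (0 : K))) :=
    (hw.prodMk_nhds hu).prodMk_nhds ((hu.prodMk_nhds hv).prodMk_nhds hs0)
  have tQ : Tendsto (fun i => (((z, g i), (g i, g' i), s i) : (Om k × Om k) × (Om k × Om k) × K))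
      (G : Filter ℕ) (𝓝 ((z, g₀), (g₀, g₀'), (0 : K))) :=
    (tendsto_const_nhds.prodMk_nhds hg).prodMk_nhds ((hg.prodMk_nhds hg').prodMk_nhds hs0)
  have eP : ∀ᶠ i in (G : Filter ℕ),
      (((w i, u i), (u i, v i), s i) : (Om k × Om k) × (Om k × Om k) × K) ∈ HD M π := by
    filter_upwards [hs] with i hi
    refine ⟨(hM i).1, (hM i).2.1, (hM i).2.1, (hM i).2.2.1, ?_, ?_⟩
    · change π (u i) = π (w i) + s i + s i
      rw [add_assoc, hi, (hM i).2.2.2.2.2.1]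
    · change π (v i) = π (u i) + s i + s i
      rw [add_assoc, hi, (hM i).2.2.2.2.2.2.2]
  have eQ : ∀ᶠ i in (G : Filter ℕ),
      (((z, g i), (g i, g' i), s i) : (Om k × Om k) × (Om k × Om k) × K) ∈ HD M π := by
    filter_upwards [hs] with i hi
    refine ⟨hz, (hM i).2.2.2.1, (hM i).2.2.2.1, (hM i).2.2.2.2.1, ?_, ?_⟩
    · change π (g i) = π z + s i + s i
      rw [add_assoc, hi, hz0, zero_add]
    · change π (g' i) = π (g i) + s i + s i
      rw [add_assoc, hi, (hM i).2.2.2.2.2.2.1]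
  have lP := (hC _ hP).tendsto.comp (tendsto_nhdsWithin_iff.mpr ⟨tP, eP⟩)
  have lQ := (hC _ hQ).tendsto.comp (tendsto_nhdsWithin_iff.mpr ⟨tQ, eQ⟩)
  have hlim : HH hm η π N w₀ u₀ u₀ v₀ 0 = HH hm η π N z g₀ g₀ g₀' 0 := by
    refine tendsto_nhds_unique (lP.congr' ?_) lQ
    filter_upwards [hs] with i hi
    exact hH i (s i) hi
  have hzz : dd3 hm η π N z z = 0 := hself z
  have c1 : HH hm η π N w₀ u₀ u₀ v₀ 0 = HH hm η π N z z z v₀ 0 := by
    refine hI (((z, z), (z, v₀), (0 : K)) : (Om k × Om k) × (Om k × Om k) × K) ?_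
      w₀ hmw u₀ hmu u₀ hmu v₀ hmv ?_ ?_ ?_ rfl dw du du (hself v₀)
    · refine ⟨hz, hz, hz, hmv, ?_, ?_⟩
      · simp
      · simp [hz0, hv0]
    · rw [hw0, hz0]
    · rw [hu0, hz0]
    · rw [hu0, hz0]
  have c2 : HH hm η π N z g₀ g₀ g₀' 0 = HH hm η π N z z z z 0 := by
    refine hI (((z, z), (z, z), (0 : K)) : (Om k × Om k) × (Om k × Om k) × K) ?_
      z hz g₀ hmg g₀ hmg g₀' hmg' rfl ?_ ?_ ?_ hzz dg dg dg'
    · refine ⟨hz, hz, hz, hz, ?_, ?_⟩
      · simp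
      · simp
    · rw [hg0, hz0]
    · rw [hg0, hz0]
    · rw [hg0', hz0]
  exact h5 k M K e π hm μ η hF N hN z hz v₀ hmv (by rw [hz0, hv0])
    (by rw [← c1, hlim, c2])

end Pool.Agent.Work.MP_69fea5_lc.N3
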