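import Pool.Agent.Work.MP_69fea5_lc.N3.StmtsB

/-!
# Block [69fea5 N3], item MTC: the base points of `AK` are matched in the isometric extension
-/

set_option autoImplicit false

namespace Pool.Agent.Work.MP_69fea5_lc.N3

open MeasureTheory Topology Set Filter ProbabilityTheory
open scoped NNReal ENNReal
open Pool.Agent.Work.MP_69fea5_lc.AK

namespace I_MTC

variable {k : ℕ}

/-- the base point is in the support -/
theorem mem_supp (hSUP : AK.S_SUP) (c : Om k) (m0 : PM k) (z : Om k) (hz : ZS c m0 z) :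
    z ∈ supp m0 := by
  have hcl : IsClosed (supp m0) := (hSUP k m0).1
  rw [← hcl.closure_eq, mem_closure_iff_nhds]
  intro U hU
  obtain ⟨x, -, -, g, hg, -⟩ := hz U hU univ univ_mem 0
  exact ⟨g, hg.2, hg.1⟩

/-- sequences from the definition of a base point -/
theorem seqs (c : Om k) (m0 : PM k) (z : Om k) (hz : ZS c m0 z) :
    ∃ (x : ℕ → ℕ) (g : ℕ → Om k), (∀ n, n ≤ x n) ∧ (∀ n, g n ∈ supp m0) ∧
      (∀ n : ℕ, ∀ j : ℤ, |j| ≤ (n : ℤ) → g n (x n + j) = c (x n + j)) ∧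
      Tendsto g atTop (𝓝 z) ∧ Tendsto (fun n => sh (x n : ℤ) m0) atTop (𝓝 m0) := by
  obtain ⟨U, hU⟩ := (𝓝 z).exists_antitone_basis
  obtain ⟨V, hV⟩ := (𝓝 m0).exists_antitone_basis
  have h : ∀ n : ℕ, ∃ p : ℕ × Om k, n ≤ p.1 ∧ sh (p.1 : ℤ) m0 ∈ V n ∧ p.2 ∈ supp m0 ∩ U n ∧
      ∀ j : ℤ, |j| ≤ (n : ℤ) → p.2 (p.1 + j) = c (p.1 + j) := by
    intro n
    obtain ⟨x, hx, hxV, g, hg, hgj⟩ := hz (U n) (hU.1.mem_of_mem trivial) (V n)
      (hV.1.mem_of_mem trivial) n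
    exact ⟨(x, g), hx, hxV, hg, hgj⟩
  choose p hp1 hp2 hp3 hp4 using h
  refine ⟨fun n => (p n).1, fun n => (p n).2, hp1, fun n => (hp3 n).1, hp4, ?_, ?_⟩
  · exact hU.tendsto fun n => (hp3 n).2
  · exact hV.tendsto fun n => hp2 n

/-- agreement on long windows -/
theorem agree (c : Om k) (x : ℕ → ℕ) (g : ℕ → Om k)
    (h : ∀ n : ℕ, ∀ j : ℤ, |j| ≤ (n : ℤ) → g n (x n + j) = c (x n + j))
    (𝒰 : Filter ℕ) (h𝒰 : 𝒰 ≤ atTop) (q : Om k)
    (hq : Tendsto (fun n => sh (x n : ℤ) c) 𝒰 (𝓝 q)) :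
    Tendsto (fun n => sh (x n : ℤ) (g n)) 𝒰 (𝓝 q) := by
  rw [tendsto_pi_nhds] at hq ⊢
  intro j
  refine (hq j).congr' ?_
  have h1 : ∀ᶠ n : ℕ in 𝒰, |j| ≤ (n : ℤ) := by
    apply h𝒰
    filter_upwards [eventually_ge_atTop j.natAbs] with n hn
    rw [← Int.natCast_natAbs]
    exact_mod_cast hn
  filter_upwards [h1] with n hn
  change c (j + (x n : ℤ)) = g n (j + (x n : ℤ))
  rw [add_comm j, h n j hn]

/-- a measure is carried by only one fibre -/
theorem fb_unique {K : Type} (M : Set (Om k)) (π : Om k → K)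
    (hcl : ∀ a : K, IsClosed (fb M π a)) (m : PM k) (a b : K) (ha : m (fb M π a) = 1)
    (hb : m (fb M π b) = 1) : a = b := by
  by_contra hne
  have hd : Disjoint (fb M π a) (fb M π b) := by
    rw [Set.disjoint_left]
    intro x hx hy
    exact hne (hx.2.symm.trans hy.2)
  have h1 : (m : Measure (Om k)) (fb M π a) = 1 := by
    rw [← ProbabilityMeasure.ennreal_coeFn_eq_coeFn_toMeasure, ha]
    rfl
  have h2 : (m : Measure (Om k)) (fb M π b) = 1 := by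
    rw [← ProbabilityMeasure.ennreal_coeFn_eq_coeFn_toMeasure, hb]
    rfl
  have h3 : (m : Measure (Om k)) (fb M π a ∪ fb M π b) = 1 + 1 := by
    rw [measure_union hd (hcl b).measurableSet, h1, h2]
  have h4 : (m : Measure (Om k)) (fb M π a ∪ fb M π b) ≤ 1 := prob_le_one
  rw [h3] at h4
  norm_num at h4

end I_MTC

theorem MTC_pf (hRKD : S_RKD) (hTH3 : S_TH3) (hNNR : S_NNR) (hPOS : S_POS)
    (hSUP : AK.S_SUP) (hMMB : AK.S_MMB) (hIMG : AK.S_IMG) (hORB : AK.S_ORB)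
    (hOMG : AK.S_OMG) : S_MTC := by
  intro k c M K _ _ _ _ e π hm μ η hF m0 hS z hz
  obtain ⟨-, hfbc, -, -, hsh⟩ := hPOS k c M K e π hm μ η hF
  obtain ⟨-, -, -, hT4, -, hpsc, hpse⟩ := hTH3 k c M K e π hm μ η hF
  have hRel : ∀ P : W2 k, Rel3 M π (N0 c M e π hm η P) := fun P =>
    hNNR k c M K e π hm μ η hF Unit (fun _ => ()) () continuousOn_const (fun _ _ _ => rfl) P
  have hzs : z ∈ supp m0 := I_MTC.mem_supp hSUP c m0 z hz
  obtain ⟨hMc, hMi, hMs, -⟩ := hMMB k m0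
  -- points of the system of `m0` over `m0` are at the position `0`
  have hpt : ∀ y : Om k, (y, m0) ∈ MM m0 → y ∈ M ∧ π y = 0 := by
    intro y hy
    obtain ⟨h1, h2⟩ := hS.onM _ hy
    exact ⟨h1, I_MTC.fb_unique M π hfbc m0 _ _ h2 hS.zer⟩
  have hzMM : (z, m0) ∈ MM m0 := hMs z hzs
  obtain ⟨hzM, hz0⟩ := hpt z hzMM
  obtain ⟨x, g, hx, hg, hag, hgz, hxm⟩ := I_MTC.seqs c m0 z hz
  -- a cluster point of `sh (x n) c`
  obtain ⟨q, 𝒰, hle, hq⟩ : ∃ (q : Om k) (𝒰 : Ultrafilter ℕ), (𝒰 : Filter ℕ) ≤ atTop ∧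
      Tendsto (fun n => sh (x n : ℤ) c) 𝒰 (𝓝 q) := by
    have hU := (isCompact_univ (X := Om k)).ultrafilter_le_nhds
      ((Ultrafilter.of atTop).map (fun n : ℕ => sh (x n : ℤ) c)) (by simp)
    obtain ⟨q, -, hq⟩ := hU
    exact ⟨q, Ultrafilter.of atTop, Ultrafilter.of_le atTop, hq⟩
  have hq2 : Tendsto (fun n => sh (x n : ℤ) (g n)) 𝒰 (𝓝 q) :=
    I_MTC.agree c x g hag 𝒰 hle q hq
  have hxm2 : Tendsto (fun n => sh (x n : ℤ) m0) 𝒰 (𝓝 m0) := hxm.mono_left hle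
  have hgz2 : Tendsto g 𝒰 (𝓝 z) := hgz.mono_left hle
  have hgMM : ∀ n, (g n, m0) ∈ MM m0 := fun n => hMs (g n) (hg n)
  have hgM : ∀ n, g n ∈ M := fun n => (hpt _ (hgMM n)).1
  have hg0 : ∀ n, π (g n) = 0 := fun n => (hpt _ (hgMM n)).2
  have hsM : ∀ n, (sh (x n : ℤ) (g n), sh (x n : ℤ) m0) ∈ MM m0 := fun n =>
    hMi (x n : ℤ) _ (hgMM n)
  have hpair : Tendsto (fun n => (sh (x n : ℤ) (g n), sh (x n : ℤ) m0)) 𝒰 (𝓝 (q, m0)) :=
    hq2.prodMk_nhds hxm2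
  have hqMM : (q, m0) ∈ MM m0 := hMc.mem_of_tendsto hpair (Eventually.of_forall hsM)
  obtain ⟨hqM, -⟩ := hpt q hqMM
  -- continuity of `ps`
  have hT1 : Tendsto (fun n => ps c M e π hm η (sh (x n : ℤ) (g n))) 𝒰
      (𝓝 (ps c M e π hm η q)) := by
    refine (hpsc q hqM).tendsto.comp ?_
    exact tendsto_nhdsWithin_iff.2 ⟨hq2, Eventually.of_forall fun n => (hsh _ _ (hgM n)).1⟩
  -- the distance tends to zero
  have hdd : ∀ P : W2 k, Tendsto (fun n => dd3 hm η π (N0 c M e π hm η P) z (g n)) 𝒰 (𝓝 0) := by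
    intro P
    obtain ⟨hc, -, hs, -⟩ := hRKD k M K e π hm μ η hF.fr _ (hRel P)
    have h2 : ((z, z) : Om k × Om k) ∈
        {q : Om k × Om k | q.1 ∈ M ∧ q.2 ∈ M ∧ π q.1 = π q.2} := ⟨hzM, hzM, rfl⟩
    have h3 := hc _ h2
    have h4 : Tendsto (fun n => ((z, g n) : Om k × Om k)) 𝒰 (𝓝 (z, z)) :=
      tendsto_const_nhds.prodMk_nhds hgz2
    have h5 : Tendsto (fun n => ((z, g n) : Om k × Om k)) 𝒰
        (𝓝[{q : Om k × Om k | q.1 ∈ M ∧ q.2 ∈ M ∧ π q.1 = π q.2}] (z, z)) :=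
      tendsto_nhdsWithin_iff.2 ⟨h4, Eventually.of_forall fun n =>
        ⟨hzM, hgM n, by rw [hz0]; exact (hg0 n).symm⟩⟩
    have h6 := h3.tendsto.comp h5
    have h7 : dd3 hm η π (N0 c M e π hm η P) z z = 0 := hs z
    simp only [h7] at h6
    exact h6
  -- `ps` of the shifted base point
  have hpis : ∀ n, π (sh (x n : ℤ) z) = π (sh (x n : ℤ) (g n)) := by
    intro n
    rw [(hsh _ _ hzM).2, (hsh _ _ (hgM n)).2, hz0, hg0 n]
  have hT2 : Tendsto (fun n => sh (x n : ℤ) (ps c M e π hm η z)) 𝒰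
      (𝓝 (ps c M e π hm η q)) := by
    have hTe : ∀ n, sh (x n : ℤ) (ps c M e π hm η z) = ps c M e π hm η (sh (x n : ℤ) z) :=
      fun n => (hpse z hzM (x n : ℤ)).symm
    simp only [hTe]
    have hfst : Tendsto (fun n => iK e (π (sh (x n : ℤ) z))) 𝒰 (𝓝 (iK e (π q))) := by
      have h := (continuous_fst.tendsto (ps c M e π hm η q)).comp hT1
      refine h.congr fun n => ?_
      change iK e (π (sh (x n : ℤ) (g n))) = iK e (π (sh (x n : ℤ) z))
      rw [hpis n]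
    have hsnd : Tendsto (fun n => Th3 c M e π hm η (sh (x n : ℤ) z)) 𝒰
        (𝓝 (Th3 c M e π hm η q)) := by
      have h : Tendsto (fun n => Th3 c M e π hm η (sh (x n : ℤ) (g n))) 𝒰
          (𝓝 (Th3 c M e π hm η q)) := (continuous_snd.tendsto (ps c M e π hm η q)).comp hT1
      rw [tendsto_pi_nhds] at h ⊢
      intro i
      have hi := h i
      rw [tendsto_pi_nhds] at hi ⊢
      intro j
      have hij := hi j
      rw [tendsto_subtype_rng] at hij ⊢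
      obtain ⟨-, hinv, -⟩ := hRKD k M K e π hm μ η hF.fr _ (hRel i.1)
      have hle2 : ∀ n, |(Th3 c M e π hm η (sh (x n : ℤ) z) i j : ℝ) -
          Th3 c M e π hm η (sh (x n : ℤ) (g n)) i j| ≤
          dd3 hm η π (N0 c M e π hm η i.1) z (g n) := by
        intro n
        have h8 := hT4 _ (hsh (x n : ℤ) z hzM).1 _ (hsh (x n : ℤ) (g n) (hgM n)).1 (hpis n) i j
        rwa [hinv z hzM (g n) (hgM n) (x n : ℤ)] at h8
      have hz9 : Tendsto (fun n => (Th3 c M e π hm η (sh (x n : ℤ) z) i j : ℝ) -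
          Th3 c M e π hm η (sh (x n : ℤ) (g n)) i j) 𝒰 (𝓝 0) :=
        squeeze_zero_norm (fun n => by rw [Real.norm_eq_abs]; exact hle2 n) (hdd i.1)
      have hsum := hz9.add hij
      rw [zero_add] at hsum
      refine hsum.congr fun n => ?_
      ring
    exact hfst.prodMk_nhds hsnd
  -- the minimal set
  let f : Om k × PM k → Om k × (PM k × (Cube Unit × Cube (Ix3 k))) :=
    fun p => (p.1, (p.2, ps c M e π hm η p.1))
  have hfM : MinSet (f '' MM m0) := by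
    refine hIMG (Om k × PM k) (Om k × (PM k × (Cube Unit × Cube (Ix3 k)))) (MM m0) f
      hS.stg.min ?_ ?_
    · refine continuousOn_fst.prodMk (continuousOn_snd.prodMk ?_)
      exact hpsc.comp continuousOn_fst fun p hp => (hS.onM p hp).1
    · intro n p hp
      change ((sh n p.1, (sh n p.2, ps c M e π hm η (sh n p.1))) :
        Om k × (PM k × (Cube Unit × Cube (Ix3 k)))) =
        (sh n p.1, (sh n p.2, sh n (ps c M e π hm η p.1)))
      rw [hpse _ (hS.onM p hp).1 n]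
  have hom : f (q, m0) ∈ omg (c, (m0, ps c M e π hm η z)) := by
    intro U hU N
    have hp : Tendsto (fun n => (sh (x n : ℤ) c, (sh (x n : ℤ) m0,
        sh (x n : ℤ) (ps c M e π hm η z)))) 𝒰 (𝓝 (f (q, m0))) :=
      hq.prodMk_nhds (hxm2.prodMk_nhds hT2)
    have h9 : ∀ᶠ n in (𝒰 : Filter ℕ), N ≤ x n := by
      apply hle
      filter_upwards [eventually_ge_atTop N] with n hn
      exact hn.trans (hx n)
    obtain ⟨n, hn1, hn2⟩ := ((hp.eventually hU).and h9).exists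
    exact ⟨x n, hn2, hn1⟩
  obtain ⟨hOc, hOi, -⟩ := hOMG (Om k × (PM k × (Cube Unit × Cube (Ix3 k))))
    (c, (m0, ps c M e π hm η z))
  have hall : f '' MM m0 ⊆ omg (c, (m0, ps c M e π hm η z)) :=
    (hORB (Om k × (PM k × (Cube Unit × Cube (Ix3 k))))
      (c, (m0, ps c M e π hm η z))).2.2.2.2.2.1 _ _ hfM hOc hOi
      ⟨f (q, m0), ⟨(q, m0), hqMM, rfl⟩, hom⟩
  refine ⟨⟨hzM, hz0, ?_⟩, fun p hp => hall ⟨p, hp, rfl⟩⟩
  intro w hw
  obtain ⟨m, hwm⟩ := hS.sur w hw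
  have h10 : f (w, m) ∈ omg (c, (m0, ps c M e π hm η z)) := hall ⟨(w, m), hwm, rfl⟩
  intro U hU N
  have hcont : Continuous fun p : Om k × (PM k × (Cube Unit × Cube (Ix3 k))) =>
      (p.1, p.2.2) := continuous_fst.prodMk (continuous_snd.comp continuous_snd)
  have hpre := hcont.tendsto (f (w, m)) hU
  obtain ⟨n, hn, hnU⟩ := h10 _ hpre N
  exact ⟨n, hn, hnU⟩

end Pool.Agent.Work.MP_69fea5_lc.N3
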