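import Pool.Agent.Work.MP_69fea5_lc.N3.StmtsH
import Pool.Agent.Work.MP_69fea5_lc.AK.I_CYL

/-!
Item MUI: limits of the averages of the translates of a measure.
-/

set_option autoImplicit false

namespace Pool.Agent.Work.MP_69fea5_lc.N3

open MeasureTheory Topology Set Filter ProbabilityTheory
open scoped NNReal ENNReal
open Pool.Agent.Work.MP_69fea5_lc.AK

namespace I_MUI

variable {k : ℕ}

theorem av_apply (m0 : PM k) (L : ℕ) (B : Set (Om k)) :
    ((avP m0 L B : ℝ≥0) : ℝ) =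
      (∑ n ∈ Finset.range (L + 1), (((sh (n : ℤ) m0 : PM k) B : ℝ≥0) : ℝ)) / ((L : ℝ) + 1) := by
  have h0 : ((avP m0 L B : ℝ≥0) : ℝ) = (avM m0 L B).toReal := rfl
  rw [h0]
  unfold avM
  rw [Measure.smul_apply, Measure.finsetSum_apply, smul_eq_mul, ENNReal.toReal_mul,
    ENNReal.toReal_inv, ENNReal.toReal_natCast, ENNReal.toReal_sum, inv_mul_eq_div]
  · congr 1
    push_cast
    rfl
  · intro i _
    exact measure_ne_top _ _

theorem diff_le (hPMB : AK.S_PMB) (m0 : PM k) (L : ℕ) (B : Set (Om k)) (hB : IsClopen B) :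
    |((avP m0 L {z | sh 1 z ∈ B} : ℝ≥0) : ℝ) - ((avP m0 L B : ℝ≥0) : ℝ)| ≤
      1 / ((L : ℝ) + 1) := by
  obtain ⟨hP1, _, _, _, _⟩ := hPMB k
  rw [av_apply, av_apply, ← sub_div, abs_div]
  have hL : |((L : ℝ) + 1)| = (L : ℝ) + 1 := abs_of_pos (by positivity)
  rw [hL]
  gcongr
  have h1 : ∀ i : ℕ, (((sh (i : ℤ) m0 : PM k) {z : Om k | sh 1 z ∈ B} : ℝ≥0) : ℝ) =
      (((sh ((i + 1 : ℕ) : ℤ) m0 : PM k) B : ℝ≥0) : ℝ) := by
    intro i
    have h2 : (sh ((i + 1 : ℕ) : ℤ) m0 : PM k) = sh 1 (sh (i : ℤ) m0 : PM k) := by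
      rw [← sh_add]
      congr 1
      push_cast
      ring
    rw [h2, hP1 _ 1 B hB.1.measurableSet]
  simp only [h1]
  have h3 := Finset.sum_range_succ (fun i : ℕ => (((sh (i : ℤ) m0 : PM k) B : ℝ≥0) : ℝ)) (L + 1)
  have h4 := Finset.sum_range_succ' (fun i : ℕ => (((sh (i : ℤ) m0 : PM k) B : ℝ≥0) : ℝ)) (L + 1)
  rw [h3] at h4
  have h5 : ∀ n : ℤ, 0 ≤ (((sh n m0 : PM k) B : ℝ≥0) : ℝ) ∧
      (((sh n m0 : PM k) B : ℝ≥0) : ℝ) ≤ 1 := by
    intro n
    refine ⟨NNReal.coe_nonneg _, ?_⟩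
    exact_mod_cast (sh n m0 : PM k).apply_le_one B
  have h6 := h5 ((L + 1 : ℕ) : ℤ)
  have h7 := h5 ((0 : ℕ) : ℤ)
  rw [abs_le]
  constructor <;> linarith [h6.1, h6.2, h7.1, h7.2]

end I_MUI

theorem MUI_pf (_hORB : AK.S_ORB) (hPMB : AK.S_PMB) (hUSC : AK.S_USC) : S_MUI := by
  intro k M m0 μ U hU hM hm0 hlim
  obtain ⟨hP1, _, hP3, hP4, _⟩ := hPMB k
  constructor
  · apply hP4
    intro w
    have hcl : IsClopen (cyl w 0 : Set (Om k)) := (AK.CYL_pf k).1 w 0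
    have hcl' : IsClopen {z : Om k | sh 1 z ∈ cyl w 0} := hcl.preimage (sh_cont 1)
    rw [hP1 μ 1 (cyl w 0) hcl.1.measurableSet]
    have hf : Continuous fun m' : PM k =>
        |((m' {z : Om k | sh 1 z ∈ cyl w 0} : ℝ≥0) : ℝ) - ((m' (cyl w 0) : ℝ≥0) : ℝ)| :=
      ((NNReal.continuous_coe.comp (hP3 _ hcl')).sub
        (NNReal.continuous_coe.comp (hP3 _ hcl))).abs
    have h1 := (hf.tendsto μ).comp hlim
    have h2 : Tendsto (fun L : ℕ => 1 / ((L : ℝ) + 1)) (U : Filter ℕ) (𝓝 0) :=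
      tendsto_one_div_add_atTop_nhds_zero_nat.mono_left hU
    have h3 := le_of_tendsto_of_tendsto' h1 h2
      (fun L => I_MUI.diff_le hPMB m0 L (cyl w 0) hcl)
    have h4 := abs_nonpos_iff.1 h3
    exact NNReal.coe_injective (sub_eq_zero.1 h4)
  · have hK : IsClosed (M ×ˢ (univ : Set Unit)) := hM.closed.prod isClosed_univ
    have hC := hUSC k Unit _ hK 1
    have hC' : IsClosed {m' : PM k | (1 : ℝ≥0) ≤ m' M} := by
      have h1 := hC.preimage (f := fun m' : PM k => (m', ())) (by fun_prop)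
      convert h1 using 1
      ext m'
      simp
    have hmem : ∀ L : ℕ, avP m0 L ∈ {m' : PM k | (1 : ℝ≥0) ≤ m' M} := by
      intro L
      change (1 : ℝ≥0) ≤ _
      rw [← NNReal.coe_le_coe, I_MUI.av_apply]
      have h1 : ∀ n : ℤ, (((sh n m0 : PM k) M : ℝ≥0) : ℝ) = 1 := by
        intro n
        rw [hP1 _ n M hM.closed.measurableSet]
        have h2 : (1 : ℝ≥0) ≤ m0 {z | sh n z ∈ M} := by
          rw [← hm0]
          exact m0.apply_mono (fun z hz => hM.inv n z hz)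
        have h3 := m0.apply_le_one {z | sh n z ∈ M}
        rw [le_antisymm h3 h2]
        rfl
      simp only [h1]
      simp
      rw [div_self]
      positivity
    have h2 : μ ∈ {m' : PM k | (1 : ℝ≥0) ≤ m' M} :=
      hC'.mem_of_tendsto hlim (Eventually.of_forall hmem)
    exact le_antisymm (μ.apply_le_one _) h2

end Pool.Agent.Work.MP_69fea5_lc.N3
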