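import Pool.Agent.Work.MP_69fea5_lc.N3.StmtsH
import Pool.Agent.Work.MP_69fea5_lc.HK.I_MEASW

/-!
# [69fea5 N3] item MW2: measures of decidable families of pairs of words
-/

set_option autoImplicit false

namespace Pool.Agent.Work.MP_69fea5_lc.N3

open MeasureTheory Topology Set Filter ProbabilityTheory
open scoped NNReal ENNReal
open Pool.Agent.Work.MP_69fea5_lc.AK
open Pool.Agent.Work.MP_69fea5_lc.HK (Cl DU Ar ArF ArR Dat Law LawC act near sc Pt oc Mn mr
  primrec_pow)

namespace I_MW2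

open Pool.Agent.Work.MP_69fea5_lc.HK.I_MEASW

variable {k : ℕ}

/-- the measure as a finite sum over pairs of words -/
theorem measure_eq2 (hk : 0 < k) (ν : Measure (Om k × Om k)) [IsProbabilityMeasure ν]
    (Q Q' : HK.C k) (n : ℕ) (H : List (Fin k) × List (Fin k) → Prop) [DecidablePred H] :
    ν.real ((HK.cyl Q ×ˢ HK.cyl Q') ∩ {g | H (HK.wd n g.1, HK.wd n g.2)}) =
      ∑ e ∈ Finset.range (k ^ (2 * n + 1)), ∑ e' ∈ Finset.range (k ^ (2 * n + 1)),
      (if H (word hk n e, word hk n e') then (1 : ℝ) else 0) *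
        ν.real (HK.cyl (Q ++ con hk n e) ×ˢ HK.cyl (Q' ++ con hk n e')) := by
  classical
  have h1 : (HK.cyl Q ×ˢ HK.cyl Q') ∩ {g : Om k × Om k | H (HK.wd n g.1, HK.wd n g.2)} =
      ⋃ e ∈ (Finset.range (k ^ (2 * n + 1)) ×ˢ Finset.range (k ^ (2 * n + 1))).filter
        (fun e => H (word hk n e.1, word hk n e.2)),
        HK.cyl (Q ++ con hk n e.1) ×ˢ HK.cyl (Q' ++ con hk n e.2) := by
    ext z
    simp only [Set.mem_inter_iff, Set.mem_ofPred_eq, Finset.mem_filter, Finset.mem_range,
      Finset.mem_product, Set.mem_iUnion, exists_prop, cyl_append, Set.mem_prod]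
    constructor
    · rintro ⟨⟨hQ, hQ'⟩, hH⟩
      obtain ⟨e, he, h⟩ := exists_code hk (fun i => z.1 ((i : ℤ) - n)) (2 * n + 1)
      obtain ⟨e', he', h'⟩ := exists_code hk (fun i => z.2 ((i : ℤ) - n)) (2 * n + 1)
      have hz : z.1 ∈ HK.cyl (con hk n e) := (mem_con hk n e z.1).2 fun i hi => (h i hi).symm
      have hz' : z.2 ∈ HK.cyl (con hk n e') :=
        (mem_con hk n e' z.2).2 fun i hi => (h' i hi).symm
      exact ⟨(e, e'), ⟨⟨he, he'⟩, by rwa [← wd_eq hk n e z.1 hz, ← wd_eq hk n e' z.2 hz']⟩,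
        ⟨hQ, hz⟩, hQ', hz'⟩
    · rintro ⟨e, ⟨_, hH⟩, ⟨hQ, hz⟩, hQ', hz'⟩
      exact ⟨⟨hQ, hQ'⟩, by rwa [wd_eq hk n e.1 z.1 hz, wd_eq hk n e.2 z.2 hz']⟩
  rw [h1, measureReal_biUnion_finset]
  · rw [Finset.sum_filter, ← Finset.sum_product']
    refine Finset.sum_congr rfl fun e _ => ?_
    split_ifs <;> simp
  · intro e he e' he' hne
    rw [Function.onFun, Set.disjoint_left]
    intro z hz hz'
    rw [Set.mem_prod, cyl_append, cyl_append] at hz hz'
    simp only [Finset.coe_filter, Finset.mem_range, Set.mem_ofPred_eq, Finset.mem_product]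
      at he he'
    refine hne (Prod.ext ?_ ?_)
    · exact code_inj hk _ _ _ he.1.1 he'.1.1 fun i hi =>
        ((mem_con hk n e.1 z.1).1 hz.1.2 i hi).symm.trans
          ((mem_con hk n e'.1 z.1).1 hz'.1.2 i hi)
    · exact code_inj hk _ _ _ he.1.2 he'.1.2 fun i hi =>
        ((mem_con hk n e.2 z.2).1 hz.2.2 i hi).symm.trans
          ((mem_con hk n e'.2 z.2).1 hz'.2.2 i hi)
  · intro e _
    exact (measurable_cyl _).prod (measurable_cyl _)

end I_MW2

open I_MW2 Pool.Agent.Work.MP_69fea5_lc.HK.I_MEASW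

theorem MW2_pf : S_MW2 := by
  classical
  intro S hS k ν _ hν β _ H hH
  rcases Nat.eq_zero_or_pos k with rfl | hk
  · -- no measures
    exfalso
    have : IsEmpty (Om 0 × Om 0) := ⟨fun z => (z.1 0).elim0⟩
    have h1 : ν Set.univ = 1 := measure_univ
    rw [Set.eq_empty_of_isEmpty (Set.univ : Set (Om 0 × Om 0)), measure_empty] at h1
    exact zero_ne_one h1
  · have h1 : ArR S fun p : β × ℕ × (HK.C k × HK.C k) =>
        ∑ e ∈ Finset.range (k ^ (2 * p.2.1 + 1)), ∑ e' ∈ Finset.range (k ^ (2 * p.2.1 + 1)),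
          (if H p.1 (word hk p.2.1 e, word hk p.2.1 e') then (1 : ℝ) else 0) *
          ν.real (HK.cyl (p.2.2.1 ++ con hk p.2.1 e) ×ˢ HK.cyl (p.2.2.2 ++ con hk p.2.1 e')) := by
      refine ArR.sum hS (f := fun (p : β × ℕ × (HK.C k × HK.C k)) e =>
        ∑ e' ∈ Finset.range (k ^ (2 * p.2.1 + 1)),
          (if H p.1 (word hk p.2.1 e, word hk p.2.1 e') then (1 : ℝ) else 0) *
          ν.real (HK.cyl (p.2.2.1 ++ con hk p.2.1 e) ×ˢ HK.cyl (p.2.2.2 ++ con hk p.2.1 e')))
        ?_ ?_ ?_
      · refine ArR.sum hS (f := fun (q : (β × ℕ × (HK.C k × HK.C k)) × ℕ) e' =>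
          (if H q.1.1 (word hk q.1.2.1 q.2, word hk q.1.2.1 e') then (1 : ℝ) else 0) *
          ν.real (HK.cyl (q.1.2.2.1 ++ con hk q.1.2.1 q.2) ×ˢ
            HK.cyl (q.1.2.2.2 ++ con hk q.1.2.1 e'))) ?_ ?_ ?_
        · refine ArR.mul hS ?_ ?_ ?_ ?_
          · refine ArR.ind hS (P := fun r : ((β × ℕ × (HK.C k × HK.C k)) × ℕ) × ℕ =>
              H r.1.1.1 (word hk r.1.1.2.1 r.1.2, word hk r.1.1.2.1 r.2)) ?_
            exact Ar.comp hS hH (f := fun r : ((β × ℕ × (HK.C k × HK.C k)) × ℕ) × ℕ =>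
              (r.1.1.1, (word hk r.1.1.2.1 r.1.2, word hk r.1.1.2.1 r.2)))
              ((Primrec.fst.comp (Primrec.fst.comp Primrec.fst)).pair
                (((primrec_word hk).comp
                  (Primrec.fst.comp (Primrec.snd.comp (Primrec.fst.comp Primrec.fst)))
                  (Primrec.snd.comp Primrec.fst)).pair
                ((primrec_word hk).comp
                  (Primrec.fst.comp (Primrec.snd.comp (Primrec.fst.comp Primrec.fst)))
                  Primrec.snd)))
          · refine ArR.comp hS (f := fun P : HK.C k × HK.C k =>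
                ν.real (HK.cyl P.1 ×ˢ HK.cyl P.2)) hν
              (g := fun r : ((β × ℕ × (HK.C k × HK.C k)) × ℕ) × ℕ =>
                (r.1.1.2.2.1 ++ con hk r.1.1.2.1 r.1.2, r.1.1.2.2.2 ++ con hk r.1.1.2.1 r.2)) ?_
            have hn : Primrec fun r : ((β × ℕ × (HK.C k × HK.C k)) × ℕ) × ℕ => r.1.1.2.1 :=
              Primrec.fst.comp (Primrec.snd.comp (Primrec.fst.comp Primrec.fst))
            have hc : Primrec fun r : ((β × ℕ × (HK.C k × HK.C k)) × ℕ) × ℕ => r.1.1.2.2 :=
              Primrec.snd.comp (Primrec.snd.comp (Primrec.fst.comp Primrec.fst))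
            exact (Primrec.list_append.comp (Primrec.fst.comp hc)
              ((primrec_con hk).comp hn (Primrec.snd.comp Primrec.fst))).pair
              (Primrec.list_append.comp (Primrec.snd.comp hc)
              ((primrec_con hk).comp hn Primrec.snd))
          · intro q; split_ifs <;> norm_num
          · intro q; exact measureReal_nonneg
        · intro p e
          refine mul_nonneg ?_ measureReal_nonneg
          split_ifs <;> norm_num
        · exact ArF.of_primrec hS (primrec_pow.comp (Primrec.const k)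
            (primrec_len.comp (Primrec.fst.comp (Primrec.snd.comp Primrec.fst))))
      · intro p e
        refine Finset.sum_nonneg fun e' _ => mul_nonneg ?_ measureReal_nonneg
        split_ifs <;> norm_num
      · exact ArF.of_primrec hS (primrec_pow.comp (Primrec.const k)
          (primrec_len.comp (Primrec.fst.comp Primrec.snd)))
    refine h1.congr fun p => ?_
    exact measure_eq2 hk ν p.2.2.1 p.2.2.2 p.2.1 (H p.1)

end Pool.Agent.Work.MP_69fea5_lc.N3
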