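import Pool.Agent.Work.MP_69fea5_lc.N3.StmtsB

/-!
# Block [69fea5 N3], item N1R: the located sets
-/

set_option autoImplicit false

namespace Pool.Agent.Work.MP_69fea5_lc.N3

open MeasureTheory Topology Set Filter ProbabilityTheory
open scoped NNReal ENNReal
open Pool.Agent.Work.MP_69fea5_lc.AK

theorem N1R_pf (hNNR : S_NNR) (hTRN : S_TRN) (hTH3 : S_TH3) : S_N1R := by
  intro k c M K _ _ _ _ e π hm μ η hF z hz P
  obtain ⟨hc, he, -⟩ := hTH3 k c M K e π hm μ η hF
  refine ⟨?_, ?_, ?_, ?_⟩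
  · -- the inclusion
    rintro q ⟨hq, h⟩
    refine ⟨hq, fun U hU V hV L => ?_⟩
    have hV' : {p : Cube Unit × Cube (Ix3 k) | ((p.1, ()) : Cube Unit × Unit) ∈ V} ∈
        𝓝 ((iK e (π q.1), Th3 c M e π hm η q.1) : Cube Unit × Cube (Ix3 k)) := by
      have hcont : Continuous fun p : Cube Unit × Cube (Ix3 k) =>
          ((p.1, ()) : Cube Unit × Unit) := continuous_fst.prodMk continuous_const
      exact hcont.continuousAt.preimage_mem_nhds hV
    obtain ⟨x, hx, g, hg, h1, h2⟩ := h U hU _ hV' L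
    exact ⟨x, hx, g, hg, h1, h2⟩
  · exact hNNR k c M K e π hm μ η hF Unit (fun _ => ()) () continuousOn_const
      (fun _ _ _ => rfl) P
  · exact hNNR k c M K e π hm μ η hF (Cube (Ix3 k)) (Th3 c M e π hm η)
      (Th3 c M e π hm η z) hc he P
  · refine hTRN k c M K e π hm μ η hF (Cube (Ix3 k)) (Th3 c M e π hm η)
      (Th3 c M e π hm η z) ⟨hc, he, fun w hw => ?_⟩ P
    have h := hz.ret w hw
    unfold ps at h
    rw [hz.pos] at h
    exact h

end Pool.Agent.Work.MP_69fea5_lc.N3
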