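import Pool.Agent.Work.MP_69fea5_lc.N3.StmtsB

/-!
# Block [69fea5 N3], item NNR: the sets `NN` are closed invariant sets of progressions
-/

set_option autoImplicit false

namespace Pool.Agent.Work.MP_69fea5_lc.N3

open MeasureTheory Topology Set Filter ProbabilityTheory
open scoped NNReal ENNReal
open Pool.Agent.Work.MP_69fea5_lc.AK

namespace I_NNR

variable {k : ℕ} {K : Type} [NormedAddCommGroup K] [CompactSpace K] [MeasurableSpace K]
  [BorelSpace K]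

/-- the triples (position, point, point) of progressions form a closed set -/
theorem closedA {M : Set (Om k)} (hM : IsClosed M) {π : Om k → K} (hπ : ContinuousOn π M) :
    IsClosed {p : K × (Om k × Om k) | p.2.1 ∈ M ∧ p.2.2 ∈ M ∧
      p.1 + π p.2.2 = π p.2.1 + π p.2.1} := by
  have hS : IsClosed {p : K × (Om k × Om k) | p.2.1 ∈ M ∧ p.2.2 ∈ M} :=
    (hM.preimage (continuous_fst.comp continuous_snd)).inter
      (hM.preimage (continuous_snd.comp continuous_snd))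
  have h1 : ContinuousOn (fun p : K × (Om k × Om k) => π p.2.1)
      {p : K × (Om k × Om k) | p.2.1 ∈ M ∧ p.2.2 ∈ M} :=
    hπ.comp (continuous_fst.comp continuous_snd).continuousOn (fun p hp => hp.1)
  have h2 : ContinuousOn (fun p : K × (Om k × Om k) => π p.2.2)
      {p : K × (Om k × Om k) | p.2.1 ∈ M ∧ p.2.2 ∈ M} :=
    hπ.comp (continuous_snd.comp continuous_snd).continuousOn (fun p hp => hp.2)
  have h3 : ContinuousOn (fun p : K × (Om k × Om k) =>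
      (p.1 + π p.2.2) - (π p.2.1 + π p.2.1)) {p : K × (Om k × Om k) | p.2.1 ∈ M ∧ p.2.2 ∈ M} :=
    ((continuous_fst.continuousOn).add h2).sub (h1.add h1)
  have h4 := h3.preimage_isClosed_of_isClosed hS (isClosed_singleton (x := (0 : K)))
  convert h4 using 1
  ext p
  simp only [mem_ofPred_eq, mem_inter_iff, mem_preimage, mem_singleton_iff, sub_eq_zero]
  tauto

end I_NNR

/-- [NNR] the sets `NN` are closed invariant sets of progressions. -/
theorem NNR_pf (h1 : S_IKB) (h2 : S_POS) : S_NNR := by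
  intro k c M K _ _ _ _ e π hm μ η hFc B _ _ θ b₀ hθ hθe P
  obtain ⟨hiKc, -, hiKe, -, hiKn⟩ := h1 K e hFc.fr.kro.dense hFc.bd
  obtain ⟨-, -, hMc, hsup, hpos⟩ := h2 k c M K e π hm μ η hFc
  have hπ := hFc.fr.kro.cont
  refine ⟨?_, ?_, ?_⟩
  · -- closed
    rw [← closure_subset_iff_isClosed]
    intro q hq
    have hqM : q.1 ∈ M := by
      have : q ∈ closure ((fun p : Om k × Om k × Om k => p.1) ⁻¹' M) :=
        closure_mono (fun p hp => hp.1) hq
      rw [(hMc.preimage continuous_fst).closure_eq] at this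
      exact this
    refine ⟨hqM, fun U hU V hV L => ?_⟩
    have hc : ContinuousWithinAt (fun w => (iK e (π w), θ w)) M q.1 :=
      (hiKc.continuousAt.comp_continuousWithinAt (hπ q.1 hqM)).prodMk (hθ q.1 hqM)
    obtain ⟨V', hV'V, hV'o, hqV'⟩ := mem_nhds_iff.1 hV
    obtain ⟨U', hU'U, hU'o, hqU'⟩ := mem_nhds_iff.1 hU
    have hc1 : ∀ᶠ w in 𝓝[M] q.1, (iK e (π w), θ w) ∈ V' := hc.eventually (hV'o.mem_nhds hqV')
    obtain ⟨W, hWo, hqW, hW⟩ := mem_nhdsWithin.1 hc1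
    have hO : IsOpen (U' ∩ (fun p : Om k × Om k × Om k => p.1) ⁻¹' W) :=
      hU'o.inter (hWo.preimage continuous_fst)
    obtain ⟨q', ⟨hq'U, hq'W⟩, hq'N⟩ := mem_closure_iff.1 hq _ hO ⟨hqU', hqW⟩
    have h5 : (iK e (π q'.1), θ q'.1) ∈ V' := hW ⟨hq'W, hq'N.1⟩
    obtain ⟨x, hx, g, hg, hgU, hgV⟩ := hq'N.2 U' (hU'o.mem_nhds hq'U) V' (hV'o.mem_nhds h5) L
    exact ⟨x, hx, g, hg, hU'U hgU, hV'V hgV⟩
  · -- invariant
    intro n q hq
    obtain ⟨hq1, hq2⟩ := hq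
    refine ⟨(hpos n q.1 hq1).1, fun U hU V hV L => ?_⟩
    have hU1 : (sh n : (Om k × Om k × Om k) → _) ⁻¹' U ∈ 𝓝 q := (sh_cont n).continuousAt hU
    have hV0 : (iK e (π (sh n q).1), θ (sh n q).1) =
        sh n ((iK e (π q.1), θ q.1) : Cube Unit × B) := by
      change (iK e (π (sh n q.1)), θ (sh n q.1)) = (sh n (iK e (π q.1)), sh n (θ q.1))
      rw [(hpos n q.1 hq1).2, hiKe, hθe q.1 hq1 n]
    rw [hV0] at hV
    have hV1 : (sh n : (Cube Unit × B) → _) ⁻¹' V ∈ 𝓝 ((iK e (π q.1), θ q.1) : Cube Unit × B) :=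
      (sh_cont n).continuousAt hV
    obtain ⟨x, hx, g, hg, hgU, hgV⟩ := hq2 _ hU1 _ hV1 (L + n.natAbs)
    obtain ⟨y, hy⟩ : ∃ y : ℕ, (y : ℤ) = n + x := ⟨(n + x).toNat, by omega⟩
    refine ⟨y, by omega, g, hg, ?_, ?_⟩
    · have h6 : ((sh (y : ℤ) c, sh (y : ℤ) g.1, sh (y : ℤ) g.2) : Om k × Om k × Om k) =
          sh n ((sh (x : ℤ) c, sh (x : ℤ) g.1, sh (x : ℤ) g.2) : Om k × Om k × Om k) := by
        rw [sh_prod, sh_prod, hy, sh_add, sh_add, sh_add]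
      rw [h6]
      exact hgU
    · rw [hy, sh_add]
      exact hgV
  · -- progressions
    intro q hq
    obtain ⟨hq1, hq2⟩ := hq
    refine ⟨hq1, ?_⟩
    by_contra hcon
    have hA := I_NNR.closedA hMc hπ
    have hnot : ((π q.1, (q.2.1, q.2.2)) : K × (Om k × Om k)) ∈
        {p : K × (Om k × Om k) | p.2.1 ∈ M ∧ p.2.2 ∈ M ∧
          p.1 + π p.2.2 = π p.2.1 + π p.2.1}ᶜ := hcon
    have hnb := hA.isOpen_compl.mem_nhds hnot
    obtain ⟨O1, hO1, O2, hO2, hO⟩ := mem_nhds_prod_iff.1 hnb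
    have h7 : Filter.comap (iK e) (𝓝 (iK e (π q.1))) ≤ 𝓝 (π q.1) :=
      hiKn (π q.1) _ tendsto_comap
    obtain ⟨V1, hV1, hV1O⟩ := Filter.mem_comap.1 (h7 hO1)
    have hU1 : (univ : Set (Om k)) ×ˢ O2 ∈ 𝓝 q := by
      have : q = (q.1, q.2) := rfl
      rw [this]
      exact prod_mem_nhds univ_mem hO2
    have hV2 : V1 ×ˢ (univ : Set B) ∈ 𝓝 ((iK e (π q.1), θ q.1) : Cube Unit × B) :=
      prod_mem_nhds hV1 univ_mem
    obtain ⟨x, -, g, hg, hgU, hgV⟩ := hq2 _ hU1 _ hV2 0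
    obtain ⟨hg1, hg2, hg3⟩ := hsup g hg.2
    have h8 : ((x : ℤ) • e) ∈ O1 := by
      apply hV1O
      change iK e ((x : ℤ) • e) ∈ V1
      have := hiKe 0 (x : ℤ)
      rw [zero_add] at this
      rw [this]
      exact hgV.1
    have h9 : (((x : ℤ) • e, (sh (x : ℤ) g.1, sh (x : ℤ) g.2)) : K × (Om k × Om k)) ∈
        {p : K × (Om k × Om k) | p.2.1 ∈ M ∧ p.2.2 ∈ M ∧
          p.1 + π p.2.2 = π p.2.1 + π p.2.1}ᶜ := hO ⟨h8, hgU.2⟩
    apply h9
    refine ⟨(hpos _ _ hg1).1, (hpos _ _ hg2).1, ?_⟩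
    change (x : ℤ) • e + π (sh (x : ℤ) g.2) = π (sh (x : ℤ) g.1) + π (sh (x : ℤ) g.1)
    rw [(hpos _ _ hg1).2, (hpos _ _ hg2).2, hg3]
    abel

end Pool.Agent.Work.MP_69fea5_lc.N3
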