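import Pool.Agent.Work.MP_69fea5_lc.N3.StmtsH
import Pool.Agent.Work.MP_69fea5_lc.KC.I_LAWCPM

/-!
# Block [69fea5 N3], item NUC: the law of the pairs is coded

Iterated limits along `U` of the weighted averages of `T^n m0` (`AVG`, `NUL`); the weight
`tent i ((n' - 2 n) • e)` is coded.
-/

set_option autoImplicit false

namespace Pool.Agent.Work.MP_69fea5_lc.N3

open MeasureTheory Topology Set Filter ProbabilityTheory
open scoped NNReal ENNReal
open Pool.Agent.Work.MP_69fea5_lc.AK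
open Pool.Agent.Work.MP_69fea5_lc.HK (Cl DU Ar ArF ArR Dat Law LawC act near sc Pt oc Mn mr)

namespace I_NUC

theorem tent_nonneg {K : Type} [NormedAddCommGroup K] (i : ℕ) (s : K) : 0 ≤ tent i s :=
  le_max_right _ _

theorem continuous_tent {K : Type} [NormedAddCommGroup K] (i : ℕ) :
    Continuous fun s : K => tent i s :=
  (continuous_const.sub (continuous_const.mul continuous_norm)).max continuous_const

/-- the weights are coded -/
theorem tent_coded {S : Set (Set ℕ)} (hS : Cl S) {K : Type} [NormedAddCommGroup K] (e : K)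
    (he : ArR S fun n : ℤ => ‖n • e‖) : ArR S fun p : ℕ × ℤ => tent p.1 (p.2 • e) := by
  have h1 : ArR S fun p : ℕ × ℤ => ((p.1 + 1 : ℕ) : ℝ) * ‖p.2 • e‖ :=
    HK.ArR.mul hS (HK.ArR.nat hS (HK.ArF.succ hS (HK.ArF.fst hS)))
      (HK.ArR.comp hS he Primrec.snd) (fun _ => Nat.cast_nonneg _) (fun _ => norm_nonneg _)
  refine (HK.ArR.tsub hS (HK.ArR.one hS) h1 (fun _ => zero_le_one)
    (fun _ => mul_nonneg (Nat.cast_nonneg _) (norm_nonneg _))).congr fun p => ?_
  unfold tent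
  push_cast
  rfl

/-- the measures of the translates are coded -/
theorem mr_coded {S : Set (Set ℕ)} (hS : Cl S) {k : ℕ} (m0 : PM k) (h : Pt S m0) :
    ArR S fun p : ℤ × HK.C k => mr (sh p.1 m0) (HK.cyl p.2) := by
  have h1 := LawC.sc_act (α := HK.PM k) S Unit (fun _ => m0) hS h
  exact HK.ArR.comp hS
    (f := fun q : (Unit × ℤ) × HK.C k => mr (act q.1.2 (show HK.PM k from m0)) (HK.cyl q.2)) h1
    (g := fun p : ℤ × HK.C k => (((), p.1), p.2))
    (((Primrec.const ()).pair Primrec.fst).pair Primrec.snd)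

/-- limits of weighted averages are coded -/
theorem avg_lim {S : Set (Set ℕ)} {U : Ultrafilter ℕ} (hS : Cl S) (hU : DU S U) {α : Type}
    [Primcodable α] (w v : α → ℕ → ℝ) (hw : ArR S fun p : α × ℕ => w p.1 p.2)
    (hv : ArR S fun p : α × ℕ => v p.1 p.2) (w0 : ∀ a n, 0 ≤ w a n) (v0 : ∀ a n, 0 ≤ v a n)
    (F : α → ℝ)
    (hF : ∀ a, Tendsto (fun L : ℕ => (∑ n ∈ Finset.range (L + 1), w a n * v a n) / ((L : ℝ) + 1))
      (U : Filter ℕ) (𝓝 (F a))) : ArR S F := by
  refine HK.ArR.lim hS hU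
    (f := fun a L => (∑ n ∈ Finset.range (L + 1), w a n * v a n) / ((L : ℝ) + 1)) ?_ ?_ hF
  · refine HK.ArR.divn hS
      (f := fun p : α × ℕ => ∑ n ∈ Finset.range (p.2 + 1), w p.1 n * v p.1 n) ?_ ?_
      (v := fun p => p.2) (HK.ArF.snd hS)
    · refine HK.ArR.sum hS (f := fun (p : α × ℕ) n => w p.1 n * v p.1 n) ?_ ?_
        (g := fun p => p.2 + 1) (HK.ArF.succ hS (HK.ArF.snd hS))
      · refine HK.ArR.mul hS (f := fun q : (α × ℕ) × ℕ => w q.1.1 q.2)
          (g := fun q : (α × ℕ) × ℕ => v q.1.1 q.2) ?_ ?_ (fun q => w0 _ _) (fun q => v0 _ _)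
        · exact HK.ArR.comp hS hw (g := fun q : (α × ℕ) × ℕ => (q.1.1, q.2))
            ((Primrec.fst.comp Primrec.fst).pair Primrec.snd)
        · exact HK.ArR.comp hS hv (g := fun q : (α × ℕ) × ℕ => (q.1.1, q.2))
            ((Primrec.fst.comp Primrec.fst).pair Primrec.snd)
      · exact fun p n => mul_nonneg (w0 _ _) (v0 _ _)
    · exact fun p => Finset.sum_nonneg fun n _ => mul_nonneg (w0 _ _) (v0 _ _)
  · exact fun a L => div_nonneg (Finset.sum_nonneg fun n _ => mul_nonneg (w0 _ _) (v0 _ _))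
      (by positivity)

end I_NUC

open I_NUC in
/-- [NUC] the law of the pairs is coded. -/
theorem NUC_pf (hDIV : S_DIV) (hAVG : S_AVG) (hNUL : S_NUL) : S_NUC := by
  intro S U hS hU k M K _ _ _ _ e π hm μ η hF m0 h0 hav hm0 he
  have hA := hAVG k M K e π hm μ η hF m0 U h0 hav
  have hN := hNUL k M K e π hm μ η hF
  have : IsMarkovKernel η := hF.dis.markov
  have hmr := mr_coded hS m0 hm0
  have ht := tent_coded hS e he
  have hgn : ∀ (i : ℕ) (P : Set (Om k)) (t : K), 0 ≤ gSm hm η i P t := fun i P t =>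
    integral_nonneg fun t' => mul_nonneg (tent_nonneg _ _) measureReal_nonneg
  -- the smoothed density at the points `n • e`
  have hG : ArR S fun p : ℕ × ℕ × HK.C k =>
      gSm hm η p.1 (HK.cyl p.2.2) (((p.2.1 : ℕ) : ℤ) • e) := by
    refine avg_lim hS hU
      (fun (p : ℕ × ℕ × HK.C k) n' => tent p.1 (((n' : ℤ) - (p.2.1 : ℤ) - (p.2.1 : ℤ)) • e))
      (fun (p : ℕ × ℕ × HK.C k) n' => mr (sh (n' : ℤ) m0) (HK.cyl p.2.2)) ?_ ?_
      (fun _ _ => tent_nonneg _ _) (fun _ _ => HK.mr_nonneg _ _) _ ?_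
    · refine HK.ArR.comp hS ht
        (g := fun q : (ℕ × ℕ × HK.C k) × ℕ =>
          (q.1.1, ((q.2 : ℤ) - (q.1.2.1 : ℤ) - (q.1.2.1 : ℤ)))) ?_
      have e1 : Primrec fun q : (ℕ × ℕ × HK.C k) × ℕ => ((q.1.2.1 : ℕ) : ℤ) :=
        HK.primrec_natCast.comp (Primrec.fst.comp (Primrec.snd.comp Primrec.fst))
      have e2 : Primrec fun q : (ℕ × ℕ × HK.C k) × ℕ => ((q.2 : ℕ) : ℤ) :=
        HK.primrec_natCast.comp Primrec.snd
      exact (Primrec.fst.comp Primrec.fst).pair
        (HK.primrec_int_sub.comp (HK.primrec_int_sub.comp e2 e1) e1)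
    · refine HK.ArR.comp hS hmr
        (g := fun q : (ℕ × ℕ × HK.C k) × ℕ => ((q.2 : ℤ), q.1.2.2)) ?_
      exact (HK.primrec_natCast.comp Primrec.snd).pair
        (Primrec.snd.comp (Primrec.snd.comp Primrec.fst))
    · intro p
      have h := hA (fun t' => tent p.1 (t' - (p.2.1 : ℤ) • e - (p.2.1 : ℤ) • e))
        ((continuous_tent p.1).comp
          ((continuous_id.sub continuous_const).sub continuous_const))
        (HK.cyl p.2.2) (HK.isClopen_cyl _)
      refine h.congr fun L => ?_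
      simp only [sub_smul]
  -- the numerators
  have hnum : ArR S fun p : ℕ × (HK.C k × HK.C k) =>
      ∫ t, gSm hm η p.1 (HK.cyl p.2.2) t * (η t).real (HK.cyl p.2.1) ∂hm := by
    refine avg_lim hS hU
      (fun (p : ℕ × (HK.C k × HK.C k)) n => gSm hm η p.1 (HK.cyl p.2.2) ((n : ℤ) • e))
      (fun (p : ℕ × (HK.C k × HK.C k)) n => mr (sh (n : ℤ) m0) (HK.cyl p.2.1)) ?_ ?_
      (fun _ _ => hgn _ _ _) (fun _ _ => HK.mr_nonneg _ _) _ ?_
    · refine HK.ArR.comp hS hG
        (g := fun q : (ℕ × (HK.C k × HK.C k)) × ℕ => (q.1.1, q.2, q.1.2.2)) ?_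
      exact (Primrec.fst.comp Primrec.fst).pair
        (Primrec.snd.pair (Primrec.snd.comp (Primrec.snd.comp Primrec.fst)))
    · refine HK.ArR.comp hS hmr
        (g := fun q : (ℕ × (HK.C k × HK.C k)) × ℕ => ((q.2 : ℤ), q.1.2.1)) ?_
      exact (HK.primrec_natCast.comp Primrec.snd).pair
        (Primrec.fst.comp (Primrec.snd.comp Primrec.fst))
    · intro p
      exact hA (fun t => gSm hm η p.1 (HK.cyl p.2.2) t)
        ((hN (HK.cyl p.2.1) (HK.cyl p.2.2) (HK.isClopen_cyl _) (HK.isClopen_cyl _)).2.1 p.1)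
        (HK.cyl p.2.1) (HK.isClopen_cyl _)
  -- the denominators
  have hcyl : HK.cyl (k := k) [] = Set.univ := by
    ext z
    simp [HK.cyl]
  have hden : ArR S fun i : ℕ => ∫ s : K, tent i s ∂hm := by
    refine avg_lim hS hU (fun (i : ℕ) n => tent i ((n : ℤ) • e))
      (fun (_ : ℕ) n => mr (sh (n : ℤ) m0) (HK.cyl [])) ?_ ?_
      (fun _ _ => tent_nonneg _ _) (fun _ _ => HK.mr_nonneg _ _) _ ?_
    · refine HK.ArR.comp hS ht (g := fun q : ℕ × ℕ => (q.1, (q.2 : ℤ))) ?_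
      exact Primrec.fst.pair (HK.primrec_natCast.comp Primrec.snd)
    · refine HK.ArR.comp hS hmr (g := fun q : ℕ × ℕ => ((q.2 : ℤ), ([] : HK.C k))) ?_
      exact (HK.primrec_natCast.comp Primrec.snd).pair (Primrec.const [])
    · intro i
      have h := hA (fun t => tent i t) (continuous_tent i) (HK.cyl []) (HK.isClopen_cyl _)
      have e1 : ∀ t : K, (η t).real (HK.cyl (k := k) []) = 1 := by
        intro t
        rw [hcyl, Measure.real, measure_univ, ENNReal.toReal_one]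
      simp only [e1, mul_one] at h
      exact h
  have hpos := (hN Set.univ Set.univ isClopen_univ isClopen_univ).1
  -- the quotients
  have hq : ArR S fun p : ℕ × (HK.C k × HK.C k) =>
      (∫ t, gSm hm η p.1 (HK.cyl p.2.2) t * (η t).real (HK.cyl p.2.1) ∂hm) /
        ∫ s : K, tent p.1 s ∂hm :=
    hDIV S hS (ℕ × (HK.C k × HK.C k)) _ (fun p => ∫ s : K, tent p.1 s ∂hm) hnum
      (HK.ArR.comp hS hden Primrec.fst)
      (fun p => integral_nonneg fun t => mul_nonneg (hgn _ _ _) measureReal_nonneg)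
      (fun p => hpos p.1)
  -- the limit
  refine HK.ArR.lim hS hU
    (f := fun (P : HK.C k × HK.C k) (i : ℕ) =>
      (∫ t, gSm hm η i (HK.cyl P.2) t * (η t).real (HK.cyl P.1) ∂hm) /
        ∫ s : K, tent i s ∂hm) ?_ ?_ ?_
  · exact HK.ArR.comp hS hq (g := fun q : (HK.C k × HK.C k) × ℕ => (q.2, q.1))
      (Primrec.snd.pair Primrec.fst)
  · exact fun P i => div_nonneg
      (integral_nonneg fun t => mul_nonneg (hgn _ _ _) measureReal_nonneg) (hpos i).le
  · intro P
    exact ((hN (HK.cyl P.1) (HK.cyl P.2) (HK.isClopen_cyl _) (HK.isClopen_cyl _)).2.2).mono_left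
      hU.top

end Pool.Agent.Work.MP_69fea5_lc.N3
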