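import Pool.Agent.Work.MP_69fea5_lc.N3.StmtsH
import Pool.Agent.Work.MP_69fea5_lc.N3.A44a

/-!
# Block [69fea5 N3], item NUL: the law of the pairs as a limit
-/

set_option autoImplicit false

namespace Pool.Agent.Work.MP_69fea5_lc.N3

open MeasureTheory Topology Set Filter ProbabilityTheory
open scoped NNReal ENNReal
open Pool.Agent.Work.MP_69fea5_lc.AK

namespace I_NUL

section tent

variable {K : Type} [NormedAddCommGroup K]

theorem tent_cont (i : ℕ) : Continuous (tent i : K → ℝ) := by
  unfold tent
  exact (continuous_const.sub (continuous_const.mul continuous_norm)).max continuous_const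

theorem tent_nonneg (i : ℕ) (s : K) : 0 ≤ tent i s := le_max_right _ _

theorem tent_le_one (i : ℕ) (s : K) : tent i s ≤ 1 := by
  unfold tent
  refine max_le ?_ zero_le_one
  have : 0 ≤ ((i : ℝ) + 1) * ‖s‖ := by positivity
  linarith

theorem tent_abs (i : ℕ) (s : K) : |tent i s| ≤ 1 := by
  rw [abs_of_nonneg (tent_nonneg i s)]; exact tent_le_one i s

theorem tent_zero (i : ℕ) : tent i (0 : K) = 1 := by
  unfold tent; simp

theorem tent_far (i : ℕ) (s : K) (h : 1 / ((i : ℝ) + 1) ≤ ‖s‖) : tent i s = 0 := by
  unfold tent
  have h1 : (0 : ℝ) < (i : ℝ) + 1 := by positivity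
  rw [div_le_iff₀ h1] at h
  refine max_eq_right ?_
  linarith [mul_comm ‖s‖ ((i : ℝ) + 1)]

end tent

section K

variable {K : Type} [NormedAddCommGroup K] [CompactSpace K] [MeasurableSpace K] [BorelSpace K]
  (hm : Measure K) [IsProbabilityMeasure hm] [hm.IsAddHaarMeasure]

omit [CompactSpace K] [hm.IsAddHaarMeasure] in
theorem tent_int (i : ℕ) : Integrable (tent i : K → ℝ) hm :=
  Integrable.of_bound (tent_cont i).measurable.aestronglyMeasurable 1
    (Eventually.of_forall fun a => by simpa [Real.norm_eq_abs] using tent_abs i a)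

omit [CompactSpace K] in
theorem tent_pos (i : ℕ) : 0 < ∫ s, (tent i s : ℝ) ∂hm := by
  refine (integral_pos_iff_support_of_nonneg (fun s => tent_nonneg i s) (tent_int hm i)).2 ?_
  have ho : IsOpen (Function.support (tent i : K → ℝ)) :=
    (tent_cont i).isOpen_support
  exact ho.measure_pos hm ⟨0, by simp [tent_zero]⟩

/-- approximate identity -/
theorem approx (h : K → ℝ) (hc : Continuous h) :
    Tendsto (fun i : ℕ => (∫ s, tent i s * h s ∂hm) / ∫ s, tent i s ∂hm) atTop (𝓝 (h 0)) := by
  rw [Metric.tendsto_atTop]
  intro ε hε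
  obtain ⟨δ, hδ, hh⟩ := Metric.continuous_iff.1 hc 0 (ε / 2) (by positivity)
  obtain ⟨N, hN⟩ := exists_nat_one_div_lt hδ
  refine ⟨N, fun i hi => ?_⟩
  obtain ⟨C, hC⟩ : ∃ C, ∀ s, |h s| ≤ C := by
    obtain ⟨C, hC⟩ := (isCompact_univ (X := K)).exists_bound_of_continuousOn hc.continuousOn
    exact ⟨C, fun s => by simpa [Real.norm_eq_abs] using hC s trivial⟩
  have hi1 : Integrable (fun s => tent i s * h s) hm :=
    Integrable.of_bound ((tent_cont i).mul hc).measurable.aestronglyMeasurable (1 * C)
      (Eventually.of_forall fun a => by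
        rw [Real.norm_eq_abs, abs_mul]
        exact mul_le_mul (tent_abs i a) (hC a) (abs_nonneg _) zero_le_one)
  have hpos := tent_pos hm i
  have e1 : (∫ s, tent i s * h s ∂hm) / (∫ s, tent i s ∂hm) - h 0 =
      (∫ s, tent i s * (h s - h 0) ∂hm) / (∫ s, tent i s ∂hm) := by
    have : ∫ s, tent i s * (h s - h 0) ∂hm =
        (∫ s, tent i s * h s ∂hm) - (∫ s, tent i s ∂hm) * h 0 := by
      rw [← integral_mul_const, ← integral_sub hi1 ((tent_int hm i).mul_const _)]
      refine integral_congr_ae (Eventually.of_forall fun s => ?_)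
      show tent i s * (h s - h 0) = tent i s * h s - tent i s * h 0
      ring
    rw [this]
    field_simp
  rw [Real.dist_eq, e1, abs_div, abs_of_pos hpos, div_lt_iff₀ hpos]
  have key : ∀ s : K, |tent i s * (h s - h 0)| ≤ ε / 2 * tent i s := by
    intro s
    rw [abs_mul, abs_of_nonneg (tent_nonneg i s), mul_comm]
    by_cases hs : ‖s‖ < δ
    · refine mul_le_mul_of_nonneg_right ?_ (tent_nonneg i s)
      have := hh s (by simpa [dist_eq_norm] using hs)
      rw [Real.dist_eq] at this
      exact this.le
    · have : tent i s = 0 := by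
        refine tent_far i s ?_
        refine le_trans ?_ (le_trans hN.le (not_lt.1 hs))
        have : ((N : ℝ) + 1) ≤ (i : ℝ) + 1 := by
          have : (N : ℝ) ≤ (i : ℝ) := by exact_mod_cast hi
          linarith
        exact one_div_le_one_div_of_le (by positivity) this
      simp [this]
  have h1 : |∫ s, tent i s * (h s - h 0) ∂hm| ≤ ∫ s, ε / 2 * tent i s ∂hm := by
    refine (abs_integral_le_integral_abs).trans ?_
    refine integral_mono_of_nonneg (Eventually.of_forall fun s => abs_nonneg _)
      ((tent_int hm i).const_mul _) (Eventually.of_forall key)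
  rw [integral_const_mul] at h1
  refine h1.trans_lt ?_
  exact mul_lt_mul_of_pos_right (by linarith) hpos

end K

end I_NUL

open I_NUL in
theorem NUL_pf (hKPB : S_KPB) : S_NUL := by
  intro k M K _ _ _ _ e π hm μ η hF P1 P2 hP1 hP2
  have hprob := hF.prob
  have hhaar := hF.haar
  have hmk := hF.dis.markov
  obtain ⟨-, hk1, -⟩ := hKPB k M K e π hm μ η hF
  have hM1 : Measurable fun t : K => (η t).real P1 :=
    (η.measurable_coe hP1.1.measurableSet).ennreal_toReal
  have hM2 : Measurable fun t : K => (η t).real P2 :=
    (η.measurable_coe hP2.1.measurableSet).ennreal_toReal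
  have hb : ∀ (P : Set (Om k)) (t : K), |(η t).real P| ≤ 1 := fun P t => by
    rw [abs_of_nonneg measureReal_nonneg]; exact measureReal_le_one
  refine ⟨fun i => tent_pos hm i, fun i => ?_, ?_⟩
  · -- continuity
    unfold gSm
    refine continuous_of_dominated (bound := fun _ => 1) (fun t => ?_) (fun t => ?_)
      (integrable_const _) ?_
    · refine Measurable.aestronglyMeasurable ?_
      exact ((tent_cont i).measurable.comp
        ((measurable_id.sub_const t).sub_const t)).mul hM2
    · refine Eventually.of_forall fun t' => ?_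
      rw [Real.norm_eq_abs, abs_mul]
      calc _ ≤ (1 : ℝ) * 1 := mul_le_mul (tent_abs i _) (hb _ _) (abs_nonneg _) zero_le_one
        _ = 1 := one_mul 1
    · refine Eventually.of_forall fun t' => ?_
      exact ((tent_cont i).comp ((continuous_const.sub continuous_id).sub continuous_id)).mul
        continuous_const
  · -- the limit
    set F1 : K → ℝ := fun t => (η t).real P1 with hF1
    set F2 : K → ℝ := fun t => (η t).real P2 with hF2
    set h : K → ℝ := fun s => ∫ t, F1 t * F2 (t + t + s) ∂hm with hh
    have hc : Continuous h := by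
      have := cont_prod_shift hm e hF.kro.dense (Finset.univ : Finset Unit)
        (Finset.univ : Finset Unit) (fun _ => F1) (fun _ => F2) (fun _ => hM1) (fun _ => hM2)
        (fun _ => 1) (fun _ => 1) (fun _ a => hb _ _) (fun _ a => hb _ _)
      have h2 := this.comp (f := fun s : K => ((fun _ => 0 : Unit → K), (fun _ => s : Unit → K)))
        (by fun_prop)
      refine h2.congr fun s => ?_
      simp [hh]
    have hnum : ∀ i : ℕ, ∫ t, gSm hm η i P2 t * (η t).real P1 ∂hm = ∫ s, tent i s * h s ∂hm := by
      intro i
      have e1 : ∀ t : K, gSm hm η i P2 t = ∫ s, tent i s * F2 (t + t + s) ∂hm := by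
        intro t
        unfold gSm
        rw [← integral_add_left_eq_self (μ := hm) (fun t' => tent i (t' - t - t) * (η t').real P2)
          (t + t)]
        refine integral_congr_ae (Eventually.of_forall fun s => ?_)
        show tent i (t + t + s - t - t) * F2 (t + t + s) = tent i s * F2 (t + t + s)
        congr 2
        abel
      have e2 : ∀ s : K, tent i s * h s = ∫ t, tent i s * (F1 t * F2 (t + t + s)) ∂hm := by
        intro s
        rw [integral_const_mul]
      have e3 : ∀ t : K, gSm hm η i P2 t * (η t).real P1 =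
          ∫ s, tent i s * (F1 t * F2 (t + t + s)) ∂hm := by
        intro t
        rw [e1 t, ← integral_mul_const]
        refine integral_congr_ae (Eventually.of_forall fun s => ?_)
        show tent i s * F2 (t + t + s) * F1 t = tent i s * (F1 t * F2 (t + t + s))
        ring
      simp_rw [e2, e3]
      refine integral_integral_swap ?_
      have hmeas : Measurable fun p : K × K => tent i p.2 * (F1 p.1 * F2 (p.1 + p.1 + p.2)) := by
        refine ((tent_cont i).measurable.comp measurable_snd).mul
          ((hM1.comp measurable_fst).mul (hM2.comp ?_))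
        exact ((continuous_fst.add continuous_fst).add continuous_snd).measurable
      refine Integrable.of_bound hmeas.aestronglyMeasurable 1 (Eventually.of_forall fun p => ?_)
      show ‖tent i p.2 * (F1 p.1 * F2 (p.1 + p.1 + p.2))‖ ≤ 1
      rw [Real.norm_eq_abs, abs_mul, abs_mul]
      calc _ ≤ (1 : ℝ) * (1 * 1) := mul_le_mul (tent_abs i _)
            (mul_le_mul (hb _ _) (hb _ _) (abs_nonneg _) zero_le_one) (by positivity) zero_le_one
        _ = 1 := by norm_num
    have h0 : (kap1 hm η 0).real (P1 ×ˢ P2) = h 0 := by
      have hms : MeasurableSet (P1 ×ˢ P2) := hP1.1.measurableSet.prod hP2.1.measurableSet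
      have e4 : ∀ t : K, ((η (0 + t)).prod (η (0 + t + t))) (P1 ×ˢ P2) =
          ENNReal.ofReal (F1 t * F2 (t + t + 0)) := by
        intro t
        rw [Measure.prod_prod, zero_add, add_zero, ENNReal.ofReal_mul measureReal_nonneg]
        congr 1 <;> exact (ofReal_measureReal).symm
      have hmeas : Measurable fun t : K => F1 t * F2 (t + t + 0) := by
        refine hM1.mul (hM2.comp ?_)
        exact ((continuous_id.add continuous_id).add continuous_const).measurable
      rw [measureReal_def, hk1 0 _ hms]
      simp_rw [e4]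
      rw [hh]
      show _ = ∫ t, F1 t * F2 (t + t + 0) ∂hm
      rw [integral_eq_lintegral_of_nonneg_ae
        (Eventually.of_forall fun t => mul_nonneg measureReal_nonneg measureReal_nonneg)
        hmeas.aestronglyMeasurable]
    rw [h0]
    simp_rw [hnum]
    exact approx hm h hc

end Pool.Agent.Work.MP_69fea5_lc.N3
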