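import Pool.Agent.Work.MP_69fea5_lc.N3.StmtsH

/-!
Block [69fea5 N3], item PIK: the points of the cube given by positions are coded.
-/

set_option autoImplicit false

namespace Pool.Agent.Work.MP_69fea5_lc.N3

open MeasureTheory Topology Set Filter ProbabilityTheory
open Pool.Agent.Work.MP_69fea5_lc.AK
open Pool.Agent.Work.MP_69fea5_lc.HK (Cl DU Ar ArF ArR Dat Law LawC act near sc Pt oc Mn mr)

namespace I_PIK

theorem iK_val {K : Type} [NormedAddCommGroup K] (h1 : ∀ x : K, ‖x‖ ≤ 1) (e v : K) (u : Unit)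
    (j : ℤ) : (iK e v u j : ℝ) = ‖v + j • e‖ := by
  have h : ‖v + j • e‖ ∈ Icc (0 : ℝ) 1 := ⟨norm_nonneg _, h1 _⟩
  show ((Set.projIcc (0 : ℝ) 1 zero_le_one ‖v + j • e‖ : Icc (0 : ℝ) 1) : ℝ) = _
  rw [Set.projIcc_of_mem zero_le_one h]

theorem pt_of {S : Set (Set ℕ)} (hS : Cl S) {K : Type} [NormedAddCommGroup K]
    (h1 : ∀ x : K, ‖x‖ ≤ 1) (e v : K) (h : ArR S fun j : ℤ => ‖v + j • e‖) :
    Pt S (iK e v) := by
  have h2 : ArR S (fun p : Unit × Unit × ℤ => ‖v + p.2.2 • e‖) :=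
    h.comp hS (g := fun p : Unit × Unit × ℤ => p.2.2) (Primrec.snd.comp Primrec.snd)
  exact h2.congr fun p => iK_val h1 e v p.2.1 p.2.2

end I_PIK

theorem PIK_pf : S_PIK := by
  intro S U hS hU K _ _ e v b h1 hn hb hlim
  refine ⟨I_PIK.pt_of hS h1 e 0 ?_, I_PIK.pt_of hS h1 e v ?_⟩
  · exact hn.congr fun j => by rw [zero_add]
  · have h2 : ArR S (fun p : ℤ × ℕ => ‖((b p.2 : ℤ) + p.1) • e‖) :=
      hn.sub hS (g := fun p : ℤ × ℕ => (b p.2 : ℤ) + p.1)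
        (HK.ArF.intAdd hS (HK.ArF.natCast hS (HK.ArF.comp hS hb (HK.ArF.snd hS)))
          (HK.ArF.fst hS))
    refine HK.ArR.lim hS hU (f := fun (j : ℤ) (n : ℕ) => ‖((b n : ℤ) + j) • e‖) h2
      (fun _ _ => norm_nonneg _) fun j => ?_
    have h3 : (fun n : ℕ => ‖((b n : ℤ) + j) • e‖) = fun n => ‖(b n : ℤ) • e + j • e‖ :=
      funext fun n => by rw [add_zsmul]
    rw [h3]
    exact (hlim.add_const _).norm

end Pool.Agent.Work.MP_69fea5_lc.N3
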