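import Pool.Agent.Work.MP_69fea5_lc.N3.StmtsB

/-! Item [PSM] of block [69fea5 N3]: for almost all small `t` some word of `𝒲` is charged by
`η t`. -/

set_option autoImplicit false

namespace Pool.Agent.Work.MP_69fea5_lc.N3

open MeasureTheory Topology Set Filter ProbabilityTheory
open scoped NNReal ENNReal
open Pool.Agent.Work.MP_69fea5_lc.AK

namespace I_PSM

/-- an integral inequality for continuous functions supported in a ball gives positivity almost
everywhere in the ball -/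
theorem ae_pos {K : Type} [NormedAddCommGroup K] [MeasurableSpace K] [BorelSpace K]
    (hm : Measure K) [IsProbabilityMeasure hm] (f : K → ℝ) (hf : Measurable f)
    (hf0 : ∀ t, 0 ≤ f t) (hf1 : ∀ t, f t ≤ 1) (ε δ : ℝ) (hε : 0 < ε)
    (H : ∀ φ : K → ℝ, Continuous φ → (∀ t, 0 ≤ φ t) → (∀ t, δ ≤ ‖t‖ → φ t = 0) →
      ε * ∫ t, φ t ∂hm ≤ ∫ t, φ t * f t ∂hm) :
    ∀ᵐ t ∂hm, ‖t‖ < δ → 0 < f t := by
  let B : Set K := {t | ‖t‖ < δ ∧ f t = 0}
  have hB : MeasurableSet B :=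
    (isOpen_lt continuous_norm continuous_const).measurableSet.inter
      (hf (measurableSet_singleton 0))
  suffices hB0 : hm B = 0 by
    rw [← compl_mem_ae_iff] at hB0
    filter_upwards [hB0] with t ht htδ
    refine lt_of_le_of_ne (hf0 t) fun h => ht ⟨htδ, h.symm⟩
  by_contra hne
  have hpos : 0 < hm B := pos_iff_ne_zero.2 hne
  obtain ⟨F, hFB, hFc, hF0⟩ : ∃ F ⊆ B, IsClosed F ∧ 0 < hm F :=
    hB.exists_lt_isClosed_of_ne_top (measure_ne_top _ _) hpos
  -- the cutoff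
  let ψ : K → ℝ := fun t => max 0 (δ - ‖t‖)
  have hψ : Continuous ψ := continuous_const.max (continuous_const.sub continuous_norm)
  have hψ0 : ∀ t, 0 ≤ ψ t := fun t => le_max_left _ _
  have hψ1 : ∀ t, ψ t ≤ |δ| := fun t => by
    refine max_le (abs_nonneg _) ?_
    have := norm_nonneg t
    have := le_abs_self δ
    linarith
  let χ : ℕ → K → ℝ := fun n t => max 0 (1 - n * Metric.infDist t F)
  have hχ : ∀ n, Continuous (χ n) := fun n =>
    continuous_const.max (continuous_const.sub (continuous_const.mul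
      (Metric.continuous_infDist_pt F)))
  have hχ0 : ∀ n t, 0 ≤ χ n t := fun n t => le_max_left _ _
  have hχ1 : ∀ n t, χ n t ≤ 1 := fun n t => by
    refine max_le zero_le_one ?_
    have : 0 ≤ (n : ℝ) * Metric.infDist t F := mul_nonneg (Nat.cast_nonneg n) Metric.infDist_nonneg
    linarith
  have hFne : F.Nonempty := nonempty_of_measure_ne_zero hF0.ne'
  have hlim : ∀ t, Tendsto (fun n => χ n t) atTop (𝓝 (F.indicator 1 t)) := by
    intro t
    by_cases ht : t ∈ F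
    · have : ∀ n, χ n t = 1 := fun n => by
        simp [χ, Metric.infDist_zero_of_mem ht]
      simp [this, ht]
    · rw [indicator_of_notMem ht]
      have hd : 0 < Metric.infDist t F := (hFc.notMem_iff_infDist_pos hFne).1 ht
      obtain ⟨n0, hn0⟩ := exists_nat_gt (1 / Metric.infDist t F)
      refine tendsto_const_nhds.congr' ?_
      filter_upwards [eventually_ge_atTop n0] with n hn
      symm
      refine max_eq_left ?_
      have h1 : (1 : ℝ) / Metric.infDist t F < n := hn0.trans_le (by exact_mod_cast hn)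
      rw [div_lt_iff₀ hd] at h1
      linarith
  have hint : ∀ n, ε * ∫ t, ψ t * χ n t ∂hm ≤ ∫ t, ψ t * χ n t * f t ∂hm := by
    intro n
    refine H (fun t => ψ t * χ n t) (hψ.mul (hχ n)) (fun t => mul_nonneg (hψ0 t) (hχ0 n t)) ?_
    intro t ht
    have : ψ t = 0 := max_eq_left (by linarith)
    simp [this]
  have hbd : Integrable (fun _ : K => |δ|) hm := integrable_const _
  have L1 : Tendsto (fun n => ∫ t, ψ t * χ n t ∂hm) atTop
      (𝓝 (∫ t, ψ t * F.indicator 1 t ∂hm)) := by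
    refine tendsto_integral_of_dominated_convergence (fun _ => |δ|)
      (fun n => (hψ.mul (hχ n)).aestronglyMeasurable) hbd
      (fun n => Eventually.of_forall fun t => ?_)
      (Eventually.of_forall fun t => (hlim t).const_mul _)
    rw [Real.norm_eq_abs, abs_of_nonneg (mul_nonneg (hψ0 t) (hχ0 n t))]
    exact (mul_le_of_le_one_right (hψ0 t) (hχ1 n t)).trans (hψ1 t)
  have L2 : Tendsto (fun n => ∫ t, ψ t * χ n t * f t ∂hm) atTop
      (𝓝 (∫ t, ψ t * F.indicator 1 t * f t ∂hm)) := by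
    refine tendsto_integral_of_dominated_convergence (fun _ => |δ|)
      (fun n => ((hψ.mul (hχ n)).measurable.mul hf).aestronglyMeasurable) hbd
      (fun n => Eventually.of_forall fun t => ?_)
      (Eventually.of_forall fun t => ((hlim t).const_mul _).mul_const _)
    rw [Real.norm_eq_abs, abs_of_nonneg (mul_nonneg (mul_nonneg (hψ0 t) (hχ0 n t)) (hf0 t))]
    refine (mul_le_of_le_one_right (mul_nonneg (hψ0 t) (hχ0 n t)) (hf1 t)).trans ?_
    exact (mul_le_of_le_one_right (hψ0 t) (hχ1 n t)).trans (hψ1 t)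
  have hle := le_of_tendsto_of_tendsto' (L1.const_mul ε) L2 hint
  have hz : ∫ t, ψ t * F.indicator 1 t * f t ∂hm = 0 := by
    have : (fun t => ψ t * F.indicator 1 t * f t) = fun _ => 0 := by
      funext t
      by_cases ht : t ∈ F
      · have : f t = 0 := (hFB ht).2
        simp [this]
      · simp [ht]
    rw [this]
    simp
  have hi : ∫ t, ψ t * F.indicator 1 t ∂hm = ∫ t in F, ψ t ∂hm := by
    rw [← integral_indicator hFc.measurableSet]
    refine integral_congr_ae (Eventually.of_forall fun t => ?_)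
    by_cases ht : t ∈ F <;> simp [ht]
  have hψi : IntegrableOn ψ F hm := by
    refine Integrable.integrableOn ?_
    refine Integrable.of_bound hψ.aestronglyMeasurable |δ| (Eventually.of_forall fun t => ?_)
    rw [Real.norm_eq_abs, abs_of_nonneg (hψ0 t)]
    exact hψ1 t
  have hposi : 0 < ∫ t in F, ψ t ∂hm := by
    rw [setIntegral_pos_iff_support_of_nonneg_ae (Eventually.of_forall fun t => hψ0 t) hψi]
    refine hF0.trans_le (measure_mono fun t ht => ⟨?_, ht⟩)
    have h1 : ‖t‖ < δ := (hFB ht).1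
    have h2 : 0 < ψ t := lt_max_of_lt_right (by linarith)
    exact h2.ne'
  rw [hi, hz] at hle
  have := mul_pos hε hposi
  linarith

section

variable {k : ℕ} {c : Om k} {M : Set (Om k)} {K : Type} [NormedAddCommGroup K] [CompactSpace K]
  [MeasurableSpace K] [BorelSpace K] {e : K} {π : Om k → K} {hm : Measure K} {μ : PM k}
  {η : Kernel K (Om k)}

/-- the union of the first words of `𝒲` -/
def CC (𝒲 : Set (Wd k)) (n : ℕ) : Set (Om k) :=
  ⋃ P ∈ {P : Wd k | P ∈ 𝒲 ∧ Encodable.encode P ≤ n}, cyl P 0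

theorem fin (𝒲 : Set (Wd k)) (n : ℕ) : {P : Wd k | P ∈ 𝒲 ∧ Encodable.encode P ≤ n}.Finite :=
  ((Set.finite_Iic n).preimage (Encodable.encode_injective (α := Wd k)).injOn).subset
    fun _ hP => hP.2

theorem CC_clopen (hCYL : AK.S_CYL) (𝒲 : Set (Wd k)) (n : ℕ) : IsClopen (CC 𝒲 n) :=
  (fin 𝒲 n).isClopen_biUnion fun P _ => (hCYL k).1 P 0

theorem unif (hCYL : AK.S_CYL) (hPMB : AK.S_PMB) (hSUP : AK.S_SUP) (hMMB : AK.S_MMB)
    (hPOS : S_POS) (hCHN : S_CHN) (hF : Fc c M e π hm μ η) (m0 : PM k) (hS : Sm c M π m0)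
    (z : Om k) (hz : z ∈ M) (hz0 : π z = 0) (𝒲 : Set (Wd k))
    (W : Set (Cube Unit × Cube (Ix3 k))) (hW : W ∈ 𝓝 (ps c M e π hm η z))
    (hWW : ∀ x ∈ M, ps c M e π hm η x ∈ W → ∃ P ∈ 𝒲, x ∈ cyl P 0) :
    ∃ δ : ℝ, 0 < δ ∧ ∃ n : ℕ, ∀ i : ℤ, ‖i • e‖ ≤ δ →
      (1 : ℝ) / (n + 1) ≤ ((sh i m0) (CC 𝒲 n) : ℝ) := by
  obtain ⟨-, hfc, hMc, -, hsh⟩ := hPOS k c M K e π hm μ η hF
  obtain ⟨δ0, hδ0, h0⟩ := hCHN k c M K e π hm μ η hF m0 hS z hz hz0 W hW
  refine ⟨δ0 / 2, by positivity, ?_⟩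
  by_contra hcon
  push Not at hcon
  choose i hi1 hi2 using hcon
  obtain ⟨-, -, ⟨z', hz'⟩, -, -, -, hsK, -⟩ := hSUP k m0
  have hz'0 : z' ∈ fb M π 0 := hsK _ (hfc 0) hS.zer hz'
  obtain ⟨hmc, hmi, hmz, hmo⟩ := hMMB k m0
  let G : Ultrafilter ℕ := hyperfilter ℕ
  have hG : (G : Filter ℕ) ≤ atTop := by
    rw [← Nat.cofinite_eq_atTop]
    exact hyperfilter_le_cofinite
  let p : ℕ → Om k × PM k := fun n => (sh (i n) z', sh (i n) m0)
  have hpM : ∀ n, p n ∈ MM m0 := fun n => hmi (i n) (z', m0) (hmz z' hz')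
  obtain ⟨q, -, hq⟩ := (isCompact_univ (X := Om k × PM k)).ultrafilter_le_nhds (G.map p)
    (by simp)
  have hq' : Tendsto p (G : Filter ℕ) (𝓝 q) := hq
  have hqM : q ∈ MM m0 := hmc.mem_of_tendsto hq' (Eventually.of_forall hpM)
  obtain ⟨hq1, hq2⟩ := hS.onM q hqM
  have hπ : Tendsto (fun n => π (p n).1) (G : Filter ℕ) (𝓝 (π q.1)) := by
    have h1 : Tendsto (fun n => (p n).1) (G : Filter ℕ) (𝓝[M] q.1) :=
      tendsto_nhdsWithin_iff.2 ⟨(continuous_fst.tendsto q).comp hq',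
        Eventually.of_forall fun n => (hS.onM _ (hpM n)).1⟩
    exact (hF.fr.kro.cont q.1 hq1).tendsto.comp h1
  have hπn : ∀ n, π (p n).1 = i n • e := fun n => by
    have := (hsh (i n) z' hz'0.1).2
    rw [hz'0.2, zero_add] at this
    exact this
  have hnorm : ‖π q.1‖ ≤ δ0 / 2 :=
    le_of_tendsto hπ.norm (Eventually.of_forall fun n => by rw [hπn]; exact hi1 n)
  have hch := h0 q.2 (hmo q hqM) (π q.1) (by linarith) hq2
  obtain ⟨P, hP, hPpos⟩ : ∃ P ∈ 𝒲, 0 < q.2 (cyl P 0) := by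
    by_contra hno
    push Not at hno
    have hz : (q.2 : Measure (Om k)) (⋃ P ∈ 𝒲, cyl P 0) = 0 := by
      rw [measure_biUnion_null_iff 𝒲.to_countable]
      intro P hP
      have := hno P hP
      rw [nonpos_iff_eq_zero] at this
      rwa [ProbabilityMeasure.null_iff_toMeasure_null] at this
    have hsub : {y | y ∈ M ∧ ps c M e π hm η y ∈ W} ⊆ ⋃ P ∈ 𝒲, cyl P 0 := by
      rintro y ⟨hy, hyW⟩
      obtain ⟨P, hP, hyP⟩ := hWW y hy hyW
      exact mem_biUnion hP hyP
    have h2 : (q.2 : Measure (Om k)) {y | y ∈ M ∧ ps c M e π hm η y ∈ W} = 0 :=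
      measure_mono_null hsub hz
    rw [← ProbabilityMeasure.null_iff_toMeasure_null] at h2
    exact hch.ne' h2
  have hcont : Tendsto (fun n => (((sh (i n) m0) (cyl P 0) : ℝ≥0) : ℝ)) (G : Filter ℕ)
      (𝓝 ((q.2 (cyl P 0) : ℝ≥0) : ℝ)) := by
    have h1 : Tendsto (fun n => (p n).2) (G : Filter ℕ) (𝓝 q.2) :=
      (continuous_snd.tendsto q).comp hq'
    exact (NNReal.continuous_coe.tendsto _).comp
      ((((hPMB k).2.2.1 _ ((hCYL k).1 P 0)).tendsto q.2).comp h1)
  have hle : ((q.2 (cyl P 0) : ℝ≥0) : ℝ) ≤ 0 := by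
    have hz : Tendsto (fun n : ℕ => (1 : ℝ) / ((n : ℝ) + 1)) (G : Filter ℕ) (𝓝 0) :=
      (tendsto_one_div_add_atTop_nhds_zero_nat (𝕜 := ℝ)).mono_left hG
    refine le_of_tendsto_of_tendsto hcont hz ?_
    filter_upwards [hG (eventually_ge_atTop (Encodable.encode P))] with n hn
    refine le_trans ?_ (hi2 n).le
    have hsub : cyl P 0 ⊆ CC 𝒲 n := by
      intro y hy
      exact mem_biUnion (show P ∈ {P : Wd k | P ∈ 𝒲 ∧ Encodable.encode P ≤ n} from ⟨hP, hn⟩) hy
    exact_mod_cast (sh (i n) m0).apply_mono hsub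
  have : (0 : ℝ) < ((q.2 (cyl P 0) : ℝ≥0) : ℝ) := by exact_mod_cast hPpos
  linarith

end

end I_PSM

open I_PSM in
theorem PSM_pf (hCYL : AK.S_CYL) (hPMB : AK.S_PMB) (hSUP : AK.S_SUP) (hMMB : AK.S_MMB)
    (hPOS : S_POS) (hCHN : S_CHN) (hJNT : S_JNT) : S_PSM := by
  intro k c M K _ _ _ _ e π hm μ η hF U m0 hU hS hA z hz hz0 𝒲 W hW hWW
  have hprob : IsProbabilityMeasure hm := hF.fr.prob
  have hmk : IsMarkovKernel η := hF.fr.dis.markov
  obtain ⟨δ, hδ, n, H⟩ := unif hCYL hPMB hSUP hMMB hPOS hCHN hF m0 hS z hz hz0 𝒲 W hW hWW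
  refine ⟨δ, hδ, ?_⟩
  have hC : IsClopen (CC 𝒲 n) := CC_clopen hCYL 𝒲 n
  have hfm : Measurable fun t => (η t).real (CC 𝒲 n) :=
    (Kernel.measurable_coe η hC.1.measurableSet).ennreal_toReal
  have key : ∀ᵐ t ∂hm, ‖t‖ < δ → 0 < (η t).real (CC 𝒲 n) := by
    refine ae_pos hm (fun t => (η t).real (CC 𝒲 n)) hfm (fun t => measureReal_nonneg)
      (fun t => measureReal_le_one) (1 / ((n : ℝ) + 1)) δ (by positivity) ?_
    intro φ hφ hφ0 hφδ
    have h1 := hJNT k c M K e π hm μ η hF U m0 hU hS hA (CC 𝒲 n) φ hC hφ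
    have h2 := hJNT k c M K e π hm μ η hF U m0 hU hS hA univ φ isClopen_univ hφ
    have e2 : ∫ t, φ t * (η t).real univ ∂hm = ∫ t, φ t ∂hm := by
      refine integral_congr_ae (Eventually.of_forall fun t => ?_)
      simp
    rw [e2] at h2
    refine le_of_tendsto_of_tendsto' (h2.const_mul (1 / ((n : ℝ) + 1))) h1 fun L => ?_
    rw [← mul_div_assoc, Finset.mul_sum]
    refine div_le_div_of_nonneg_right (Finset.sum_le_sum fun i _ => ?_) (Nat.cast_nonneg L)
    have hu : (((sh (i : ℤ) m0) univ : ℝ≥0) : ℝ) = 1 := by simp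
    rw [hu, mul_one, mul_comm]
    by_cases hi : δ ≤ ‖(i : ℤ) • e‖
    · rw [hφδ _ hi]
      simp
    · push Not at hi
      exact mul_le_mul_of_nonneg_left (H (i : ℤ) hi.le) (hφ0 _)
  filter_upwards [key] with t ht hδt
  have h3 := ht hδt
  by_contra hno
  push Not at hno
  have hz3 : η t (CC 𝒲 n) = 0 := by
    unfold CC
    rw [measure_biUnion_null_iff (fin 𝒲 n).countable]
    intro P hP
    have h4 := hno P hP.1
    have h5 : (η t).real (cyl P 0) = 0 := le_antisymm h4 measureReal_nonneg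
    exact (measureReal_eq_zero_iff).1 h5
  rw [measureReal_def, hz3] at h3
  simp at h3

end Pool.Agent.Work.MP_69fea5_lc.N3
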