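import Pool.Agent.Work.MP_69fea5_lc.N3.StmtsB

/-! Item [PUR] of block [69fea5 N3]: Case IIb, every measure near `m0` omits a colour. -/

set_option autoImplicit false
set_option linter.unusedSectionVars false

namespace Pool.Agent.Work.MP_69fea5_lc.N3

open MeasureTheory Topology Set Filter ProbabilityTheory
open scoped NNReal ENNReal
open Pool.Agent.Work.MP_69fea5_lc.AK

namespace I_PUR

/-- bounded gaps in a minimal system -/
theorem gaps {X : Type*} [TopologicalSpace X] [CompactSpace X] [Sys X] {x : X}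
    (hm : MinSet (orb x)) {U : Set X} (hU : IsOpen U) (hne : (orb x ∩ U).Nonempty) :
    ∃ R : ℕ, ∀ y ∈ orb x, ∃ n : ℤ, |n| ≤ R ∧ sh n y ∈ U := by
  have hY : IsCompact (orb x) := hm.closed.isCompact
  have hcov : orb x ⊆ ⋃ n : ℤ, (sh n : X → X) ⁻¹' U := by
    intro y hy
    have hcl : closure (Set.range fun n : ℤ => sh n y) = orb x := by
      refine hm.min _ isClosed_closure ⟨y, subset_closure ⟨0, sh_zero y⟩⟩ ?_ ?_
      · intro n v hv
        refine map_mem_closure (sh_cont n) hv ?_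
        rintro _ ⟨j, rfl⟩
        exact ⟨n + j, sh_add n j y⟩
      · refine closure_minimal ?_ hm.closed
        rintro _ ⟨n, rfl⟩
        exact hm.inv n y hy
    obtain ⟨v, hv, hvU⟩ := hne
    rw [← hcl] at hv
    obtain ⟨_, h1, n, rfl⟩ := mem_closure_iff.1 hv U hU hvU
    exact mem_iUnion.2 ⟨n, h1⟩
  obtain ⟨t, ht⟩ := hY.elim_finite_subcover (fun n : ℤ => (sh n : X → X) ⁻¹' U)
    (fun n => hU.preimage (sh_cont n)) hcov
  refine ⟨t.sup Int.natAbs, fun y hy => ?_⟩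
  obtain ⟨n, hn, hy'⟩ := mem_iUnion₂.1 (ht hy)
  refine ⟨n, ?_, hy'⟩
  have h1 : n.natAbs ≤ t.sup Int.natAbs := Finset.le_sup (f := Int.natAbs) hn
  rw [Int.abs_eq_natAbs]
  exact_mod_cast h1

open Classical in
/-- bounded gaps give positive density -/
theorem dens {A : Set ℕ} (R : ℕ) (h : ∀ i : ℕ, ∃ j, i ≤ j ∧ j ≤ i + 2 * R ∧ j ∈ A) (L : ℕ) :
    L / (2 * R + 1) ≤ ((Finset.range L).filter (fun i => i ∈ A)).card := by
  choose f h1 h2 h3 using h
  have hg : ∀ t ∈ Finset.range (L / (2 * R + 1)), f (t * (2 * R + 1)) ∈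
      (Finset.range L).filter (fun i => i ∈ A) := by
    intro t ht
    rw [Finset.mem_range] at ht
    refine Finset.mem_filter.2 ⟨Finset.mem_range.2 ?_, h3 _⟩
    have e1 : (t + 1) * (2 * R + 1) ≤ L :=
      (Nat.mul_le_mul_right _ ht).trans (Nat.div_mul_le_self L (2 * R + 1))
    have e2 := h2 (t * (2 * R + 1))
    have e3 : (t + 1) * (2 * R + 1) = t * (2 * R + 1) + (2 * R + 1) := by ring
    omega
  have hlt : ∀ t t' : ℕ, t < t' → f (t * (2 * R + 1)) < f (t' * (2 * R + 1)) := by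
    intro t t' htt
    have e1 := h2 (t * (2 * R + 1))
    have e2 := h1 (t' * (2 * R + 1))
    have e3 : (t + 1) * (2 * R + 1) ≤ t' * (2 * R + 1) := Nat.mul_le_mul_right _ htt
    have e4 : (t + 1) * (2 * R + 1) = t * (2 * R + 1) + (2 * R + 1) := by ring
    omega
  have hinj : Set.InjOn (fun t : ℕ => f (t * (2 * R + 1)))
      (Finset.range (L / (2 * R + 1)) : Set ℕ) := by
    intro t _ t' _ he
    rcases lt_trichotomy t t' with h | h | h
    · exact absurd he (hlt t t' h).ne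
    · exact h
    · exact absurd he.symm (hlt t' t h).ne
  have := Finset.card_le_card_of_injOn (fun t : ℕ => f (t * (2 * R + 1))) hg hinj
  rwa [Finset.card_range] at this

variable {k : ℕ} {K : Type} [NormedAddCommGroup K] [CompactSpace K]

theorem fb_closed {M : Set (Om k)} {π : Om k → K} (hM : IsClosed M) (hπ : ContinuousOn π M)
    (a : K) : IsClosed (fb M π a) :=
  hπ.preimage_isClosed_of_isClosed hM (isClosed_singleton (x := a))

/-- the pairs (measure, position) form a closed set -/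
theorem pos_closed (hUSC : AK.S_USC) {M : Set (Om k)} {π : Om k → K} (hM : IsClosed M)
    (hπ : ContinuousOn π M) : IsClosed {p : PM k × K | 1 ≤ p.1 (fb M π p.2)} := by
  have hG : IsClosed {q : Om k × K | q.1 ∈ M ∧ π q.1 = q.2} := by
    have h1 : IsClosed (M ×ˢ (univ : Set K)) := hM.prod isClosed_univ
    have h2 : ContinuousOn (fun q : Om k × K => (π q.1, q.2)) (M ×ˢ (univ : Set K)) :=
      (hπ.comp continuousOn_fst fun q hq => hq.1).prodMk continuousOn_snd
    have h3 := h2.preimage_isClosed_of_isClosed h1 (isClosed_diagonal (X := K))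
    convert h3 using 1
    ext q
    exact ⟨fun h => ⟨⟨h.1, trivial⟩, h.2⟩, fun h => ⟨h.1.1, h.2⟩⟩
  exact hUSC k K {q : Om k × K | q.1 ∈ M ∧ π q.1 = q.2} hG 1

/-- two different fibres -/
theorem pos_unique {M : Set (Om k)} {π : Om k → K} (hM : IsClosed M)
    (hπ : ContinuousOn π M) {m : PM k} {a b : K} (ha : m (fb M π a) = 1)
    (hb : 1 ≤ m (fb M π b)) : a = b := by
  by_contra hab
  have hd : Disjoint (fb M π a) (fb M π b) :=
    Set.disjoint_left.2 fun x h1 h2 => hab (h1.2.symm.trans h2.2)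
  have h1 : (m : Measure (Om k)) (fb M π a ∪ fb M π b) =
      (m : Measure (Om k)) (fb M π a) + (m : Measure (Om k)) (fb M π b) :=
    measure_union hd (fb_closed hM hπ b).measurableSet
  have h2 : (m : Measure (Om k)) (fb M π a ∪ fb M π b) ≤ 1 := prob_le_one
  have h3 : (m : Measure (Om k)) (fb M π a) = 1 := by
    rw [← ProbabilityMeasure.ennreal_coeFn_eq_coeFn_toMeasure, ha]
    rfl
  have h4 : 1 ≤ (m : Measure (Om k)) (fb M π b) := by
    rw [← ProbabilityMeasure.ennreal_coeFn_eq_coeFn_toMeasure]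
    exact_mod_cast hb
  rw [h1, h3] at h2
  have h5 : (1 : ℝ≥0∞) + 1 ≤ 1 := (add_le_add le_rfl h4).trans h2
  norm_num at h5

/-- the positions of the measures `T^i m0` -/
theorem pos_sh (hPMB : AK.S_PMB) {M : Set (Om k)} {π : Om k → K} {e : K} (hM : IsClosed M)
    (hI : AK.Inv M) (hπ : ContinuousOn π M) (heq : ∀ z ∈ M, ∀ n : ℤ, π (sh n z) = π z + n • e)
    {m0 : PM k} (h0 : m0 (fb M π 0) = 1) (i : ℤ) : sh i m0 (fb M π (i • e)) = 1 := by
  rw [(hPMB k).1 m0 i _ (fb_closed hM hπ _).measurableSet]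
  refine le_antisymm (ProbabilityMeasure.apply_le_one _ _) ?_
  rw [← h0]
  refine ProbabilityMeasure.apply_mono m0 fun z hz => ?_
  exact ⟨hI i z hz.1, by rw [heq z hz.1 i, hz.2, zero_add]⟩

end I_PUR

open I_PUR

theorem PUR_pf (hCYL : AK.S_CYL) (hPMB : AK.S_PMB) (hUSC : AK.S_USC) (hSTG : AK.S_STG)
    (hDBL : S_DBL) (hKPB : S_KPB) (hJNT : S_JNT) (hPSM : S_PSM) (hKNU : S_KNU) : S_PUR := by
  classical
  intro k c M K _ _ _ _ e π hm μ η hFc U m0 hU hSm hAvm z hz hz0 𝒲 W hW hWW hno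
  have hFr := hFc.fr
  have hMc := hFr.min.closed
  have hπc := hFr.kro.cont
  have := hFr.prob
  have := hFr.haar
  -- the words with a letter in the middle
  obtain ⟨δ₁, hδ₁, hps⟩ := hPSM k c M K e π hm μ η hFc U m0 hU hSm hAvm z hz hz0
    {P | P ∈ 𝒲 ∧ ∃ r, mid P = some r} W hW (by
      intro x hx hxW
      obtain ⟨L, hL⟩ := hWW x hx hxW
      refine ⟨wordOf x L, ⟨hL, x 0, ?_⟩, (hCYL k).2.2.1 x L⟩
      unfold mid wordOf
      rw [List.length_ofFn]
      have h2 : (2 * L + 1) / 2 = L := by omega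
      rw [h2, List.getElem?_ofFn]
      have h3 : L < 2 * L + 1 := by omega
      simp [h3])
  -- doubling
  have hdm : Measurable fun t : K => t + t := (continuous_id.add continuous_id).measurable
  have hac : hm.map (fun t : K => t + t) ≪ hm :=
    Measure.absolutelyContinuous_of_le_smul (hDBL K hm e hFr.kro.dense)
  have hps2 : ∀ᵐ t ∂hm, ‖t + t‖ < δ₁ →
      ∃ P ∈ {P | P ∈ 𝒲 ∧ ∃ r, mid P = some r}, 0 < (η (t + t)).real (cyl P 0) :=
    ae_of_ae_map hdm.aemeasurable (hac.ae_le hps)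
  -- no charged states
  have hKP := hKPB k M K e π hm μ η hFr
  have hpair : ∀ P ∈ 𝒲, ∀ Q ∈ 𝒲, ∀ r, mid P = some r → mid Q = some r →
      ∀ᵐ t ∂hm, (η t) (cyl P 0) * (η (t + t)) (cyl Q 0) = 0 := by
    intro P hP Q hQ r hr hr'
    have := (hKP.1 0).1
    have h1 : kap1 hm η 0 (bx (P, Q) 0) = 0 := by
      have := hno P hP Q hQ r hr hr'
      rwa [Measure.real, ENNReal.toReal_eq_zero_iff, or_iff_left (measure_ne_top _ _)] at this
    have hmP : MeasurableSet (cyl P 0) := ((hCYL k).1 P 0).isOpen.measurableSet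
    have hmQ : MeasurableSet (cyl Q 0) := ((hCYL k).1 Q 0).isOpen.measurableSet
    have hmB : MeasurableSet (bx (P, Q) 0) := hmP.prod hmQ
    rw [hKP.2.1 0 _ hmB] at h1
    have := hFr.dis.markov
    have h2 : ∀ t : K, ((η (0 + t)).prod (η (0 + t + t))) (bx (P, Q) 0) =
        (η t) (cyl P 0) * (η (t + t)) (cyl Q 0) := by
      intro t
      rw [zero_add]
      exact Measure.prod_prod _ _
    simp_rw [h2] at h1
    have hmeas : Measurable fun t : K => (η t) (cyl P 0) * (η (t + t)) (cyl Q 0) :=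
      (Kernel.measurable_coe η hmP).mul ((Kernel.measurable_coe η hmQ).comp hdm)
    exact (lintegral_eq_zero_iff hmeas).1 h1
  have hpairs : ∀ᵐ t ∂hm, ∀ P Q : Wd k, P ∈ 𝒲 → Q ∈ 𝒲 → ∀ r, mid P = some r → mid Q = some r →
      (η t) (cyl P 0) * (η (t + t)) (cyl Q 0) = 0 := by
    rw [ae_all_iff]
    intro P
    rw [ae_all_iff]
    intro Q
    by_cases hP : P ∈ 𝒲
    · by_cases hQ : Q ∈ 𝒲
      · by_cases h : ∃ r, mid P = some r ∧ mid Q = some r
        · obtain ⟨r, h1, h2⟩ := h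
          filter_upwards [hpair P hP Q hQ r h1 h2] with t ht _ _ _ _ _ using ht
        · refine Eventually.of_forall fun t _ _ r h1 h2 => absurd ⟨r, h1, h2⟩ h
      · exact Eventually.of_forall fun t _ h => absurd h hQ
    · exact Eventually.of_forall fun t h => absurd h hP
  refine ⟨δ₁ / 8, by positivity, fun m₁ hm₁ a ha hma => ?_⟩
  by_contra hcon
  push Not at hcon
  choose P hP hPr hPm using hcon
  have : Nonempty (Fin k) := ⟨z 0⟩
  -- a uniform lower bound
  have hpos : ∀ r, (0 : ℝ) < (m₁ (cyl (P r) 0) : ℝ) := fun r => by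
    have := pos_iff_ne_zero.2 (hPm r)
    exact_mod_cast this
  obtain ⟨r₀, hr₀⟩ := Finite.exists_min fun r => (m₁ (cyl (P r) 0) : ℝ)
  set ε : ℝ := (m₁ (cyl (P r₀) 0) : ℝ) / 2 with hε
  have hε0 : 0 < ε := by have := hpos r₀; positivity
  have hεr : ∀ r, ε < (m₁ (cyl (P r) 0) : ℝ) := fun r => by
    have h1 := hpos r₀
    have h2 := hr₀ r
    rw [hε]
    linarith
  -- the neighbourhood of `m₁`
  have hOo : IsOpen {m : PM k | ∀ r, ε < (m (cyl (P r) 0) : ℝ)} := by
    have : {m : PM k | ∀ r, ε < (m (cyl (P r) 0) : ℝ)} =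
        ⋂ r, {m : PM k | ε < (m (cyl (P r) 0) : ℝ)} := by
      ext m; simp
    rw [this]
    refine isOpen_iInter_of_finite fun r => ?_
    exact isOpen_lt continuous_const
      (NNReal.continuous_coe.comp ((hPMB k).2.2.1 _ ((hCYL k).1 (P r) 0)))
  have hEc : IsClosed (Prod.fst '' ({p : PM k × K | 1 ≤ p.1 (fb M π p.2)} ∩
      {p : PM k × K | δ₁ / 4 ≤ ‖p.2‖})) :=
    isClosedMap_fst_of_compactSpace _ ((pos_closed hUSC hMc hπc).inter
      (isClosed_le continuous_const continuous_snd.norm))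
  have hE1 : m₁ ∉ Prod.fst '' ({p : PM k × K | 1 ≤ p.1 (fb M π p.2)} ∩
      {p : PM k × K | δ₁ / 4 ≤ ‖p.2‖}) := by
    rintro ⟨p, ⟨h1, h2⟩, rfl⟩
    have h3 : a = p.2 := pos_unique hMc hπc hma h1
    change δ₁ / 4 ≤ ‖p.2‖ at h2
    rw [← h3] at h2
    linarith
  have hVo : IsOpen ({m : PM k | ∀ r, ε < (m (cyl (P r) 0) : ℝ)} ∩
      (Prod.fst '' ({p : PM k × K | 1 ≤ p.1 (fb M π p.2)} ∩
        {p : PM k × K | δ₁ / 4 ≤ ‖p.2‖}))ᶜ) := hOo.inter hEc.isOpen_compl
  set V : Set (PM k) := {m : PM k | ∀ r, ε < (m (cyl (P r) 0) : ℝ)} ∩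
      (Prod.fst '' ({p : PM k × K | 1 ≤ p.1 (fb M π p.2)} ∩
        {p : PM k × K | δ₁ / 4 ≤ ‖p.2‖}))ᶜ with hV
  have hmin : MinSet (orb m0) := (hSTG k c m0 _ hSm.stg).2.1
  obtain ⟨R, hR⟩ := gaps hmin hVo ⟨m₁, hm₁, hεr, hE1⟩
  -- the set of times
  obtain ⟨A, hA⟩ : ∃ A : Set ℕ, ∀ i, i ∈ A ↔ sh (i : ℤ) m0 ∈ V :=
    ⟨{i | sh (i : ℤ) m0 ∈ V}, fun _ => Iff.rfl⟩
  have hgap : ∀ i : ℕ, ∃ j, i ≤ j ∧ j ≤ i + 2 * R ∧ j ∈ A := by
    intro i
    have hy : sh ((i : ℤ) + R) m0 ∈ orb m0 := subset_closure ⟨_, rfl⟩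
    obtain ⟨n, hn, hnV⟩ := hR _ hy
    obtain ⟨hn1, hn2⟩ := abs_le.1 hn
    refine ⟨((i : ℤ) + R + n).toNat, by omega, by omega, ?_⟩
    rw [hA]
    have e1 : ((((i : ℤ) + R + n).toNat : ℕ) : ℤ) = n + ((i : ℤ) + R) := by omega
    rw [e1, sh_add]
    exact hnV
  have hdens : ∀ᶠ L : ℕ in (U : Filter ℕ), (1 / (2 * (2 * (R : ℝ) + 1))) * L ≤
      (((Finset.range L).filter (fun i => i ∈ A)).card : ℝ) := by
    have h1 : ∀ᶠ L : ℕ in (U : Filter ℕ), 2 * (2 * R + 1) ≤ L := hU (eventually_ge_atTop _)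
    filter_upwards [h1] with L hL
    have h2 := dens (A := A) R hgap L
    have h3 : (L : ℝ) < ((L / (2 * R + 1) : ℕ) + 1) * (2 * (R : ℝ) + 1) := by
      have := Nat.lt_div_mul_add (a := L) (b := 2 * R + 1) (by omega)
      have h4 : L < (L / (2 * R + 1) + 1) * (2 * R + 1) := by
        rw [add_mul, one_mul]; exact this
      exact_mod_cast h4
    have h5 : (2 * (2 * (R : ℝ) + 1)) ≤ L := by exact_mod_cast hL
    have h6 : ((L / (2 * R + 1) : ℕ) : ℝ) ≤
        (((Finset.range L).filter (fun i => i ∈ A)).card : ℝ) := by exact_mod_cast h2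
    have hR0 : (0 : ℝ) < 2 * (R : ℝ) + 1 := by positivity
    refine le_trans ?_ h6
    rw [div_mul_eq_mul_div, one_mul, div_le_iff₀ (by positivity)]
    nlinarith
  have hApos : ∀ i ∈ A, (i : ℤ) • e ∈ {t : K | ‖t‖ ≤ δ₁ / 4} := by
    intro i hi
    show ‖(i : ℤ) • e‖ ≤ δ₁ / 4
    by_contra hlt
    push Not at hlt
    refine ((hA i).1 hi).2 ⟨(sh (i : ℤ) m0, (i : ℤ) • e), ⟨?_, hlt.le⟩, rfl⟩
    exact (pos_sh hPMB hMc hFr.min.inv hπc hFr.kro.equi hSm.zer (i : ℤ)).ge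
  have hfm : ∀ r, Measurable fun t : K => (η t).real (cyl (P r) 0) := fun r =>
    (Kernel.measurable_coe η ((hCYL k).1 (P r) 0).isOpen.measurableSet).ennreal_toReal
  have := hFr.dis.markov
  refine hKNU K hm e hFr.kro.dense U hU A (1 / (2 * (2 * (R : ℝ) + 1))) (by positivity) hdens
    {t : K | ‖t‖ ≤ δ₁ / 4} (isClosed_le continuous_norm continuous_const) hApos (Fin k)
    (fun r t => (η t).real (cyl (P r) 0)) ε hε0 hfm
    (fun r t => ⟨measureReal_nonneg, measureReal_le_one⟩) ?_ ?_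
  · -- the averages
    intro r φ hφ hφ0 δ hδ
    have h1 := hJNT k c M K e π hm μ η hFc U m0 hU hSm hAvm (cyl (P r) 0) φ
      ((hCYL k).1 (P r) 0) hφ
    have h2 := h1.eventually (gt_mem_nhds (show
      ∫ t, φ t * (η t).real (cyl (P r) 0) ∂hm < ∫ t, φ t * (η t).real (cyl (P r) 0) ∂hm + δ
        by linarith))
    filter_upwards [h2] with L hL
    refine le_trans ?_ hL.le
    rw [← mul_div_assoc]
    refine div_le_div_of_nonneg_right ?_ (Nat.cast_nonneg L)
    rw [Finset.mul_sum]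
    refine le_trans (Finset.sum_le_sum (g := fun i : ℕ =>
      φ ((i : ℤ) • e) * ((sh (i : ℤ) m0) (cyl (P r) 0) : ℝ)) fun i hi => ?_) ?_
    · have hiA : i ∈ A := (Finset.mem_filter.1 hi).2
      have := ((hA i).1 hiA).1 r
      rw [mul_comm]
      exact mul_le_mul_of_nonneg_left this.le (hφ0 _)
    · refine Finset.sum_le_sum_of_subset_of_nonneg (Finset.filter_subset _ _) fun i _ _ => ?_
      exact mul_nonneg (hφ0 _) (NNReal.coe_nonneg _)
  · -- one colour is omitted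
    filter_upwards [hps2, hpairs] with t ht1 ht2 htF
    change ‖t‖ ≤ δ₁ / 4 at htF
    have h1 : ‖t + t‖ < δ₁ := by
      have := norm_add_le t t
      linarith
    obtain ⟨Q, ⟨hQ, r, hQr⟩, hQp⟩ := ht1 h1
    refine ⟨r, ?_⟩
    have h3 := ht2 (P r) Q (hP r) hQ r (hPr r) hQr
    rcases mul_eq_zero.1 h3 with h | h
    · show (η t).real (cyl (P r) 0) = 0
      rw [Measure.real, h, ENNReal.toReal_zero]
    · rw [Measure.real, h, ENNReal.toReal_zero] at hQp
      exact absurd hQp (lt_irrefl 0)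

end Pool.Agent.Work.MP_69fea5_lc.N3
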