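import Pool.Agent.Work.MP_69fea5_lc.N3.StmtsA

set_option autoImplicit false

namespace Pool.Agent.Work.MP_69fea5_lc.N3

open MeasureTheory Topology Set Filter ProbabilityTheory
open scoped NNReal ENNReal
open Pool.Agent.Work.MP_69fea5_lc.AK

namespace I_RCT

variable {k : ℕ}

theorem length_wordOf (z : Om k) (L : ℕ) : (wordOf z L).length = 2 * L + 1 := by
  unfold wordOf; simp

/-- the word of `z` on `[-L, L]` is determined by the values of `z` there -/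
theorem wordOf_eq (z z' : Om k) (L : ℕ) (h : ∀ j : ℤ, |j| ≤ L → z' j = z j) :
    wordOf z' L = wordOf z L := by
  unfold wordOf
  congr 1
  funext i
  apply h
  have := i.2
  rw [abs_le]
  constructor <;> omega

/-- the box of `p` -/
def W (L : ℕ) (p : Om k × Om k) : W2 k := (wordOf p.1 L, wordOf p.2 L)

theorem W_of_mem (h1 : AK.S_CYL) (L : ℕ) (p q : Om k × Om k) (h : q ∈ bx (W L p) 0) :
    W L q = W L p := by
  obtain ⟨-, -, -, h4, -⟩ := h1 k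
  have ha : q.1 ∈ cyl (wordOf p.1 L) 0 := h.1
  have hb : q.2 ∈ cyl (wordOf p.2 L) 0 := h.2
  unfold W
  rw [wordOf_eq p.1 q.1 L ((h4 _ _ _).1 ha), wordOf_eq p.2 q.2 L ((h4 _ _ _).1 hb)]

theorem self_mem (h1 : AK.S_CYL) (L : ℕ) (p : Om k × Om k) : p ∈ bx (W L p) 0 := by
  obtain ⟨-, -, h3, -⟩ := h1 k
  exact ⟨h3 _ _, h3 _ _⟩

theorem open_bx (h1 : AK.S_CYL) (P : W2 k) (n : ℤ) : IsOpen (bx P n) := by
  obtain ⟨h, -⟩ := h1 k
  exact (h P.1 n).isOpen.prod (h P.2 n).isOpen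

theorem anti (h1 : AK.S_CYL) (L L' : ℕ) (hL : L ≤ L') (p : Om k × Om k) :
    bx (W L' p) 0 ⊆ bx (W L p) 0 := by
  obtain ⟨-, -, -, h4, -⟩ := h1 k
  rintro q ⟨ha, hb⟩
  have hL2 : (L : ℤ) ≤ L' := by exact_mod_cast hL
  refine ⟨(h4 _ _ _).2 fun j hj => ?_, (h4 _ _ _).2 fun j hj => ?_⟩
  · exact (h4 _ _ _).1 ha j (hj.trans hL2)
  · exact (h4 _ _ _).1 hb j (hj.trans hL2)

theorem nhds_bx (h1 : AK.S_CYL) (p : Om k × Om k) (U : Set (Om k × Om k)) (hU : U ∈ 𝓝 p) :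
    ∃ L : ℕ, bx (W L p) 0 ⊆ U := by
  obtain ⟨-, -, -, -, h5, -⟩ := h1 k
  obtain ⟨A, hA, B, hB, hAB⟩ := mem_nhds_prod_iff.1 hU
  obtain ⟨a, ha⟩ := h5 p.1 A hA
  obtain ⟨b, hb⟩ := h5 p.2 B hB
  refine ⟨max a b, ?_⟩
  rintro q ⟨hq1, hq2⟩
  exact hAB ⟨ha _ (le_max_left _ _) hq1, hb _ (le_max_right _ _) hq2⟩

theorem unif (h1 : AK.S_CYL) (C : Set (Om k × Om k)) (hC : IsClopen C) :
    ∃ L : ℕ, ∀ p ∈ C, bx (W L p) 0 ⊆ C := by
  have h0 : ∀ p ∈ C, ∃ L : ℕ, bx (W L p) 0 ⊆ C := fun p hp =>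
    nhds_bx h1 p C (hC.isOpen.mem_nhds hp)
  choose! f hf using h0
  obtain ⟨t, ht, hcov⟩ := hC.isClosed.isCompact.elim_nhds_subcover (fun p => bx (W (f p) p) 0)
    (fun p _ => (open_bx h1 _ _).mem_nhds (self_mem h1 _ p))
  refine ⟨t.sup f, fun p hp q hq => ?_⟩
  obtain ⟨y, hy, hpy⟩ := mem_iUnion₂.1 (hcov hp)
  apply hf y (ht y hy)
  have h2 : f y ≤ t.sup f := Finset.le_sup hy
  have h3 := W_of_mem h1 _ _ _ hpy
  rw [← h3]
  exact anti h1 _ _ h2 p hq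

end I_RCT

/-- [RCT] clopen sets of pairs are finite disjoint unions of boxes of centred words of one
length. -/
theorem RCT_pf (h1 : AK.S_CYL) : S_RCT := by
  intro k C hC
  obtain ⟨L, hL⟩ := I_RCT.unif h1 C hC
  have hfin : (I_RCT.W L '' C).Finite := by
    have hf1 : {l : Wd k | l.length = 2 * L + 1}.Finite := List.finite_length_eq (Fin k) _
    refine (hf1.prod hf1).subset ?_
    rintro _ ⟨p, -, rfl⟩
    exact ⟨I_RCT.length_wordOf _ _, I_RCT.length_wordOf _ _⟩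
  refine ⟨L, hfin.toFinset, ?_, ?_, ?_⟩
  · intro P hP
    obtain ⟨p, -, rfl⟩ := hfin.mem_toFinset.1 hP
    exact ⟨I_RCT.length_wordOf _ _, I_RCT.length_wordOf _ _⟩
  · ext q
    simp only [mem_iUnion, Set.Finite.mem_toFinset, exists_prop]
    constructor
    · intro hq
      exact ⟨_, ⟨q, hq, rfl⟩, I_RCT.self_mem h1 L q⟩
    · rintro ⟨_, ⟨p, hp, rfl⟩, hq⟩
      exact hL p hp hq
  · intro P hP Q hQ hne
    obtain ⟨p, -, rfl⟩ := hfin.mem_toFinset.1 hP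
    obtain ⟨q, -, rfl⟩ := hfin.mem_toFinset.1 hQ
    refine Set.disjoint_left.2 fun z hz1 hz2 => hne ?_
    rw [← I_RCT.W_of_mem h1 L p z hz1, ← I_RCT.W_of_mem h1 L q z hz2]

end Pool.Agent.Work.MP_69fea5_lc.N3
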