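import Pool.Agent.Work.MP_69fea5_lc.N3.StmtsA
import Pool.Agent.Work.MP_69fea5_lc.AK.I_DDC

/-!
# [69fea5 N3 RHC] `rho` is a continuous invariant pseudometric
-/

set_option autoImplicit false

namespace Pool.Agent.Work.MP_69fea5_lc.N3

open MeasureTheory Topology Set Filter ProbabilityTheory
open scoped NNReal ENNReal
open Pool.Agent.Work.MP_69fea5_lc.AK

namespace I_RHC

variable {k : ℕ}

theorem sh_all {X : Type*} [TopologicalSpace X] [Sys X] (m : X) (h : sh 1 m = m) (n : ℤ) :
    sh n m = m := by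
  have hneg : sh (-1) m = m := by
    conv_lhs => rw [← h]
    rw [← sh_add]
    simp [sh_zero]
  induction n using Int.induction_on with
  | zero => exact sh_zero m
  | succ n ih => rw [sh_add, h, ih]
  | pred n ih =>
    have : (-(n : ℤ) - 1) = -(n : ℤ) + (-1) := by ring
    rw [this, sh_add, hneg, ih]

theorem inv_iff {X : Type*} [TopologicalSpace X] [Sys X] (R : Set X) (hR : AK.Inv R) (n : ℤ)
    (x : X) : sh n x ∈ R ↔ x ∈ R := by
  constructor
  · intro h
    have := hR (-n) _ h
    rw [← sh_add] at this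
    simpa [sh_zero] using this
  · exact hR n x

/-- the section at `x` -/
def sec (R : Set (Om k × Om k)) (x : Om k) : Set (Om k) := {u | (x, u) ∈ R}

theorem sec_closed (R : Set (Om k × Om k)) (hR : IsClosed R) (x : Om k) : IsClosed (sec R x) :=
  hR.preimage (by fun_prop : Continuous fun u : Om k => (x, u))

theorem rho_eq (m : PM k) (R : Set (Om k × Om k)) (x y : Om k) :
    rho m R x y = (m : Measure (Om k)).real (sec R x \ sec R y) +
      (m : Measure (Om k)).real (sec R y \ sec R x) := rfl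

end I_RHC

open I_RHC in
theorem RHC_pf (hUSC : AK.S_USC) (hRMC : S_RMC) (hPMB : AK.S_PMB) : S_RHC := by
  intro k m M hM hm R hR hRi
  obtain ⟨hPM1, -, -, -, -⟩ := hPMB k
  obtain ⟨x₀, hx₀⟩ := hM.ne
  have meas : ∀ x, MeasurableSet (sec R x) := fun x => (sec_closed R hR x).measurableSet
  set a : ℝ := (m : Measure (Om k)).real (sec R x₀) with ha
  have hval : ∀ x ∈ M, (m : Measure (Om k)).real (sec R x) = a := by
    intro x hx
    have := hRMC k m M hM hm R hR hRi x hx x₀ hx₀
    exact congrArg (fun t : ℝ≥0 => (t : ℝ)) this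
  have hd1 : ∀ x ∈ M, ∀ y ∈ M, rho m R x y =
      2 * a - 2 * (m : Measure (Om k)).real (sec R x ∩ sec R y) := by
    intro x hx y hy
    rw [rho_eq]
    have h1 := hval x hx
    have h2 := hval y hy
    have h3 := measureReal_sdiff_add_inter (μ := (m : Measure (Om k)))
      (s := sec R x) (t := sec R y) (meas y)
    have h4 := measureReal_sdiff_add_inter (μ := (m : Measure (Om k)))
      (s := sec R y) (t := sec R x) (meas x)
    rw [inter_comm (sec R y)] at h4
    linarith
  constructor
  · -- continuity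
    set K1 : Set (Om k × (Om k × Om k)) := {p | (p.2.1, p.1) ∈ R ∧ (p.2.2, p.1) ∈ R} with hK1
    set K2 : Set (Om k × (Om k × Om k)) := {p | (p.2.1, p.1) ∈ R ∨ (p.2.2, p.1) ∈ R} with hK2
    have c1 : Continuous fun p : Om k × (Om k × Om k) => (p.2.1, p.1) := by fun_prop
    have c2 : Continuous fun p : Om k × (Om k × Om k) => (p.2.2, p.1) := by fun_prop
    have k1 : IsClosed K1 := (hR.preimage c1).inter (hR.preimage c2)
    have k2 : IsClosed K2 := (hR.preimage c1).union (hR.preimage c2)
    have usc : ∀ K : Set (Om k × (Om k × Om k)), IsClosed K → ∀ b : ℝ≥0,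
        IsClosed {q : Om k × Om k | b ≤ m {u | (u, q) ∈ K}} := by
      intro K hK b
      have h1 := hUSC k (Om k × Om k) K hK b
      have h2 : Continuous fun q : Om k × Om k => (m, q) := by fun_prop
      exact h1.preimage h2
    have hcont : ContinuousOn (fun q : Om k × Om k => ((m {u | (u, q) ∈ K1} : ℝ≥0) : ℝ))
        (M ×ˢ M) := by
      refine AK.I_DDC.cont_of_usc (f := fun q : Om k × Om k => m {u | (u, q) ∈ K1})
        (g := fun q : Om k × Om k => m {u | (u, q) ∈ K2}) (s := 2 * a) (usc K1 k1) (usc K2 k2) ?_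
      rintro ⟨x, y⟩ ⟨hx, hy⟩
      have h1 := hval x hx
      have h2 := hval y hy
      have h3 := measureReal_union_add_inter (μ := (m : Measure (Om k)))
        (s := sec R x) (t := sec R y) (meas y)
      have e1 : ((m {u | (u, ((x, y) : Om k × Om k)) ∈ K1} : ℝ≥0) : ℝ) =
        (m : Measure (Om k)).real (sec R x ∩ sec R y) := rfl
      have e2 : ((m {u | (u, ((x, y) : Om k × Om k)) ∈ K2} : ℝ≥0) : ℝ) =
        (m : Measure (Om k)).real (sec R x ∪ sec R y) := rfl
      show ((m {u | (u, ((x, y) : Om k × Om k)) ∈ K1} : ℝ≥0) : ℝ) +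
        ((m {u | (u, ((x, y) : Om k × Om k)) ∈ K2} : ℝ≥0) : ℝ) = 2 * a
      rw [e1, e2]
      linarith
    refine ((continuousOn_const (c := 2 * a)).sub (hcont.const_smul (2 : ℝ))).congr ?_
    rintro ⟨x, y⟩ ⟨hx, hy⟩
    have e1 : ((m {u | (u, ((x, y) : Om k × Om k)) ∈ K1} : ℝ≥0) : ℝ) =
      (m : Measure (Om k)).real (sec R x ∩ sec R y) := rfl
    show rho m R x y = 2 * a - (2 : ℝ) • ((m {u | (u, ((x, y) : Om k × Om k)) ∈ K1} : ℝ≥0) : ℝ)
    rw [hd1 x hx y hy, e1, smul_eq_mul]
  · -- invariance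
    intro n x hx y hy
    have key : ∀ x y : Om k, (m : Measure (Om k)).real (sec R (sh n x) \ sec R (sh n y)) =
        (m : Measure (Om k)).real (sec R x \ sec R y) := by
      intro x y
      have h1 := hPM1 m n (sec R (sh n x) \ sec R (sh n y)) ((meas _).diff (meas _))
      rw [sh_all m hm n] at h1
      have h2 : {z | sh n z ∈ sec R (sh n x) \ sec R (sh n y)} = sec R x \ sec R y := by
        ext z
        show ((sh n x, sh n z) ∈ R ∧ (sh n y, sh n z) ∉ R) ↔ ((x, z) ∈ R ∧ (y, z) ∉ R)
        have e1 := inv_iff R hRi n (x, z)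
        have e2 := inv_iff R hRi n (y, z)
        rw [sh_prod] at e1 e2
        rw [e1, e2]
      rw [h2] at h1
      exact congrArg (fun t : ℝ≥0 => (t : ℝ)) h1
    rw [rho_eq, rho_eq, key, key]
  · intro x _
    rw [rho_eq]
    simp
  · intro x _ y _
    rw [rho_eq]
    positivity
  · intro x _ y _
    rw [rho_eq, rho_eq, add_comm]
  · intro x _ y _ z _
    rw [rho_eq, rho_eq, rho_eq]
    have key : ∀ A B C : Set (Om k), (m : Measure (Om k)).real (A \ C) ≤
        (m : Measure (Om k)).real (A \ B) + (m : Measure (Om k)).real (B \ C) := by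
      intro A B C
      refine (measureReal_mono (s₂ := (A \ B) ∪ (B \ C)) ?_ (measure_ne_top _ _)).trans
        (measureReal_union_le _ _)
      intro u hu
      by_cases h : u ∈ B
      · exact Or.inr ⟨h, hu.2⟩
      · exact Or.inl ⟨hu.1, h⟩
    have h1 := key (sec R x) (sec R y) (sec R z)
    have h2 := key (sec R z) (sec R y) (sec R x)
    linarith

end Pool.Agent.Work.MP_69fea5_lc.N3
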