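import Pool.Agent.Work.MP_69fea5_lc.N3.StmtsA

/-!
Block [69fea5 N3], item RKC: continuity of the measures of clopen parts of the sections.
-/

set_option autoImplicit false

namespace Pool.Agent.Work.MP_69fea5_lc.N3

open MeasureTheory Topology Set Filter ProbabilityTheory
open scoped NNReal ENNReal
open Pool.Agent.Work.MP_69fea5_lc.AK

namespace I_RKC

variable {k : ℕ}

/-- the sections of a closed set are in a given open set, for all parameters near by -/
lemma near {X Y : Type*} [TopologicalSpace X] [TopologicalSpace Y] [CompactSpace Y]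
    (G : Set (X × Y)) (hG : IsClosed G) (D : Set Y) (hD : IsOpen D) (x : X)
    (h : {p | (x, p) ∈ G} ⊆ D) : ∀ᶠ w in 𝓝 x, {p | (w, p) ∈ G} ⊆ D := by
  have h1 : IsClosed {q : X × Y | q ∈ G ∧ q.2 ∉ D} :=
    hG.inter (hD.isClosed_compl.preimage continuous_snd)
  have h2 : IsClosed (Prod.fst '' {q : X × Y | q ∈ G ∧ q.2 ∉ D}) :=
    isClosedMap_fst_of_compactSpace _ h1
  have h3 : x ∉ Prod.fst '' {q : X × Y | q ∈ G ∧ q.2 ∉ D} := by
    rintro ⟨⟨a, b⟩, ⟨hab, hb⟩, rfl⟩
    exact hb (h hab)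
  filter_upwards [h2.isOpen_compl.mem_nhds h3] with w hw p hp
  by_contra hpD
  exact hw ⟨(w, p), ⟨hp, hpD⟩, rfl⟩

lemma usc (hCL2 : S_CL2) {K : Type} [TopologicalSpace K] (M : Set (Om k)) (π : Om k → K)
    (hπ : ContinuousOn π M) (ν : K → Measure (Om k × Om k)) [∀ a, IsFiniteMeasure (ν a)]
    (hν : ∀ D : Set (Om k × Om k), IsClopen D → Continuous fun a => (ν a).real D)
    (G : Set (Om k × (Om k × Om k))) (hG : IsClosed G) :
    UpperSemicontinuousOn (fun w => (ν (π w)).real {p | (w, p) ∈ G}) M := by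
  intro w hw y hy
  have hcl : IsClosed {p | (w, p) ∈ G} := hG.preimage (by fun_prop)
  obtain ⟨D, hD, hsub, hlt⟩ := hCL2 k (ν (π w)) _ y hcl hy
  have h1 : ContinuousOn (fun w => (ν (π w)).real D) M := (hν D hD).comp_continuousOn hπ
  have h2 : ∀ᶠ w' in 𝓝[M] w, (ν (π w')).real D < y := (h1 w hw).eventually_lt_const hlt
  have h3 := near G hG D hD.isOpen w hsub
  filter_upwards [h2, mem_nhdsWithin_of_mem_nhds h3] with w' h4 h5
  exact lt_of_le_of_lt (measureReal_mono h5) h4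

lemma cont (hCL2 : S_CL2) {K : Type} [TopologicalSpace K] (M : Set (Om k)) (π : Om k → K)
    (hπ : ContinuousOn π M) (ν : K → Measure (Om k × Om k)) [∀ a, IsFiniteMeasure (ν a)]
    (hν : ∀ D : Set (Om k × Om k), IsClopen D → Continuous fun a => (ν a).real D)
    (G : Set (Om k × (Om k × Om k))) (hG : IsClosed G) (a : ℝ)
    (ha : ∀ w ∈ M, (ν (π w)).real {p | (w, p) ∈ G} = a) (C : Set (Om k × Om k))
    (hC : IsClopen C) :
    ContinuousOn (fun w => (ν (π w)).real ({p | (w, p) ∈ G} ∩ C)) M := by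
  have key : ∀ C : Set (Om k × Om k), IsClopen C →
      UpperSemicontinuousOn (fun w => (ν (π w)).real ({p | (w, p) ∈ G} ∩ C)) M := by
    intro C hC
    have := usc hCL2 M π hπ ν hν {q : Om k × (Om k × Om k) | q ∈ G ∧ q.2 ∈ C}
      (hG.inter (hC.isClosed.preimage continuous_snd))
    exact this
  have h1 := key C hC
  have h2 := key Cᶜ hC.compl
  have hsum : ∀ w ∈ M, (ν (π w)).real ({p | (w, p) ∈ G} ∩ C) +
      (ν (π w)).real ({p | (w, p) ∈ G} ∩ Cᶜ) = a := by
    intro w hw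
    rw [← ha w hw]
    have := measureReal_inter_add_sdiff (μ := ν (π w)) (s := {p | (w, p) ∈ G})
      hC.isClosed.measurableSet
    rw [← this, sdiff_eq]
  rw [continuousOn_iff_lower_upperSemicontinuousOn]
  refine ⟨?_, h1⟩
  intro w hw y hy
  have e := hsum w hw
  have h3 : (ν (π w)).real ({p | (w, p) ∈ G} ∩ Cᶜ) < a - y := by
    have : y < (ν (π w)).real ({p | (w, p) ∈ G} ∩ C) := hy
    linarith
  filter_upwards [h2 w hw _ h3, self_mem_nhdsWithin] with w' h4 h5
  have e' := hsum w' h5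
  have h6 : (ν (π w')).real ({p | (w', p) ∈ G} ∩ Cᶜ) < a - y := h4
  change y < (ν (π w')).real ({p | (w', p) ∈ G} ∩ C)
  linarith

end I_RKC

theorem RKC_pf (hRKN : S_RKN) (hKPC : S_KPC) (hCL2 : S_CL2) (hKPB : S_KPB) : S_RKC := by
  intro k M K _ _ _ _ e π hm μ η hFr N hN C hC
  obtain ⟨a, ha1, ha3⟩ := hRKN k M K e π hm μ η hFr N hN
  have hP := (hKPB k M K e π hm μ η hFr).1
  have h1 : ∀ a, IsFiniteMeasure (kap1 hm η a) := fun a =>
    haveI := (hP a).1
    inferInstance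
  have h3 : ∀ a, IsFiniteMeasure (kap3 hm η a) := fun a =>
    haveI := (hP a).2
    inferInstance
  refine ⟨?_, ?_⟩
  · exact I_RKC.cont hCL2 M π hFr.kro.cont (kap1 hm η)
      (fun D hD => (hKPC k M K e π hm μ η hFr D hD).1) N hN.closed a ha1 C hC
  · have hcl : IsClosed {q : Om k × (Om k × Om k) | (q.2.1, q.2.2, q.1) ∈ N} :=
      hN.closed.preimage (by fun_prop)
    exact I_RKC.cont hCL2 M π hFr.kro.cont (kap3 hm η)
      (fun D hD => (hKPC k M K e π hm μ η hFr D hD).2) _ hcl a ha3 C hC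

end Pool.Agent.Work.MP_69fea5_lc.N3
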