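import Pool.Agent.Work.MP_69fea5_lc.N3.StmtsA

/-!
# [69fea5 N3 RKD] the pseudometric `dd3` of a closed invariant set of progressions
-/

set_option autoImplicit false

namespace Pool.Agent.Work.MP_69fea5_lc.N3

open MeasureTheory Topology Set Filter ProbabilityTheory
open scoped NNReal ENNReal
open Pool.Agent.Work.MP_69fea5_lc.AK

namespace I_RKD

variable {k : ℕ}

/-- compactness: sections of a closed set over nearby points are contained in an open
neighbourhood of the section -/
theorem near {X Y : Type} [TopologicalSpace X] [TopologicalSpace Y] [CompactSpace Y]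
    (F : Set (X × Y)) (hF : IsClosed F) (w : X) (C : Set Y) (hC : IsOpen C)
    (h : {p | (w, p) ∈ F} ⊆ C) : ∀ᶠ w' in 𝓝 w, {p | (w', p) ∈ F} ⊆ C := by
  have hcl : IsClosed (F ∩ (Prod.snd ⁻¹' Cᶜ)) :=
    hF.inter (hC.isClosed_compl.preimage continuous_snd)
  have himg : IsClosed (Prod.fst '' (F ∩ (Prod.snd ⁻¹' Cᶜ))) :=
    isClosedMap_fst_of_compactSpace _ hcl
  have hw : w ∉ Prod.fst '' (F ∩ (Prod.snd ⁻¹' Cᶜ)) := by
    rintro ⟨⟨w', p⟩, ⟨h1, h2⟩, h3⟩
    simp only at h3
    subst h3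
    exact h2 (h h1)
  filter_upwards [himg.isOpen_compl.mem_nhds hw] with w' hw' p hp
  by_contra hpC
  exact hw' ⟨(w', p), ⟨hp, hpC⟩, rfl⟩

/-- upper semicontinuity of the measures of the sections, local form -/
theorem usc (hCL2 : S_CL2) {K X : Type} [TopologicalSpace K] [TopologicalSpace X] (M : Set X)
    (p : X → K) (hp : ContinuousOn p M) (κ : K → Measure (Om k × Om k))
    (hκ : ∀ a, IsFiniteMeasure (κ a))
    (hc : ∀ C : Set (Om k × Om k), IsClopen C → Continuous fun a => (κ a).real C)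
    (F : Set (X × (Om k × Om k))) (hF : IsClosed F) (x : X) (hx : x ∈ M) (b : ℝ)
    (hb : (κ (p x)).real {u | (x, u) ∈ F} < b) :
    ∀ᶠ y in 𝓝[M] x, (κ (p y)).real {u | (y, u) ∈ F} < b := by
  have := hκ (p x)
  have hFx : IsClosed {u | (x, u) ∈ F} := hF.preimage (by fun_prop)
  obtain ⟨C, hC, hFC, hCb⟩ := hCL2 k (κ (p x)) {u | (x, u) ∈ F} b hFx hb
  have h1 := nhdsWithin_le_nhds (s := M) (near F hF x C hC.isOpen hFC)
  have h2 : ContinuousWithinAt (fun y => (κ (p y)).real C) M x :=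
    ((hc C hC).comp_continuousOn hp) x hx
  have h3 : ∀ᶠ y in 𝓝[M] x, (κ (p y)).real C < b := h2.eventually_lt_const hCb
  filter_upwards [h1, h3] with y hy1 hy2
  have := hκ (p y)
  exact (measureReal_mono hy1).trans_lt hy2

/-- two locally usc functions with constant sum are continuous -/
theorem cont_of_usc {X : Type} [TopologicalSpace X] {F : Set X} {f g : X → ℝ} {s : ℝ}
    (hf : ∀ x ∈ F, ∀ b, f x < b → ∀ᶠ y in 𝓝[F] x, f y < b)
    (hg : ∀ x ∈ F, ∀ b, g x < b → ∀ᶠ y in 𝓝[F] x, g y < b)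
    (hs : ∀ q ∈ F, f q + g q = s) : ContinuousOn f F := by
  intro x hx
  refine tendsto_order.2 ⟨fun b hb => ?_, fun b hb => hf x hx b hb⟩
  have h0 := hs x hx
  have h1 := hg x hx (s - b) (by linarith)
  filter_upwards [h1, self_mem_nhdsWithin] with y hy hyF
  have h2 := hs y hyF
  linarith

theorem union_le (m : Measure (Om k × Om k)) [IsFiniteMeasure m] {A B C : Set (Om k × Om k)}
    (h : A ⊆ B ∪ C) : m.real A ≤ m.real B + m.real C :=
  (measureReal_mono h).trans (measureReal_union_le B C)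

theorem abs_le (m : Measure (Om k × Om k)) [IsFiniteMeasure m] (A A' B : Set (Om k × Om k)) :
    |m.real (A ∩ B) - m.real (A' ∩ B)| ≤ m.real (A \ A') + m.real (A' \ A) := by
  have h1 : m.real (A ∩ B) ≤ m.real (A' ∩ B) + m.real (A \ A') := by
    apply union_le
    rintro x ⟨hA, hB⟩
    by_cases h : x ∈ A'
    · exact Or.inl ⟨h, hB⟩
    · exact Or.inr ⟨hA, h⟩
  have h2 : m.real (A' ∩ B) ≤ m.real (A ∩ B) + m.real (A' \ A) := by
    apply union_le
    rintro x ⟨hA, hB⟩
    by_cases h : x ∈ A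
    · exact Or.inl ⟨h, hB⟩
    · exact Or.inr ⟨hA, h⟩
  have h3 : (0 : ℝ) ≤ m.real (A \ A') := measureReal_nonneg
  have h4 : (0 : ℝ) ≤ m.real (A' \ A) := measureReal_nonneg
  rw [_root_.abs_le]
  constructor <;> linarith

end I_RKD

open I_RKD in
theorem RKD_pf (hCL2 : S_CL2) (hKPB : S_KPB) (hKPC : S_KPC) (hKPE : S_KPE) (hRKN : S_RKN) :
    S_RKD := by
  intro k M K _ _ _ _ e π hm μ η hFr N hN
  obtain ⟨hprob, -, -, -, -⟩ := hKPB k M K e π hm μ η hFr
  have hcont := hKPC k M K e π hm μ η hFr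
  have hequi := hKPE k M K e π hm μ η hFr
  obtain ⟨a, -, ha⟩ := hRKN k M K e π hm μ η hFr N hN
  have hfin : ∀ b, IsFiniteMeasure (kap3 hm η b) := fun b => by
    have := (hprob b).2
    infer_instance
  have hclosed3 : ∀ v, IsClosed (sec3 N v) := fun v =>
    hN.closed.preimage (by fun_prop : Continuous fun p : Om k × Om k => (p.1, p.2, v))
  have hms : ∀ v, MeasurableSet (sec3 N v) := fun v => (hclosed3 v).measurableSet
  have hinvN : ∀ (n : ℤ) (q : Om k × Om k × Om k), sh n q ∈ N ↔ q ∈ N := by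
    intro n q
    constructor
    · intro h
      have h2 := hN.inv (-n) _ h
      rw [← sh_add, neg_add_cancel, sh_zero] at h2
      exact h2
    · exact fun h => hN.inv n q h
  refine ⟨?_, ?_, ?_, ?_, ?_, ?_, ?_⟩
  · -- continuity
    set F : Set (Om k × Om k) := {q | q.1 ∈ M ∧ q.2 ∈ M ∧ π q.1 = π q.2} with hF
    have hp : ContinuousOn (fun q : Om k × Om k => π q.1) F :=
      hFr.kro.cont.comp continuousOn_fst (fun q hq => hq.1)
    set K1 : Set ((Om k × Om k) × (Om k × Om k)) :=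
      {p | (p.2.1, p.2.2, p.1.1) ∈ N ∧ (p.2.1, p.2.2, p.1.2) ∈ N} with hK1
    set K2 : Set ((Om k × Om k) × (Om k × Om k)) :=
      {p | (p.2.1, p.2.2, p.1.1) ∈ N ∨ (p.2.1, p.2.2, p.1.2) ∈ N} with hK2
    have c1 : Continuous fun p : (Om k × Om k) × (Om k × Om k) => (p.2.1, p.2.2, p.1.1) := by
      fun_prop
    have c2 : Continuous fun p : (Om k × Om k) × (Om k × Om k) => (p.2.1, p.2.2, p.1.2) := by
      fun_prop
    have k1 : IsClosed K1 := (hN.closed.preimage c1).inter (hN.closed.preimage c2)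
    have k2 : IsClosed K2 := (hN.closed.preimage c1).union (hN.closed.preimage c2)
    have e1 : ∀ q : Om k × Om k, {u | (q, u) ∈ K1} = sec3 N q.1 ∩ sec3 N q.2 := fun q => rfl
    have e2 : ∀ q : Om k × Om k, {u | (q, u) ∈ K2} = sec3 N q.1 ∪ sec3 N q.2 := fun q => rfl
    have hval : ∀ q ∈ F, (kap3 hm η (π q.1)).real (sec3 N q.1) = a ∧
        (kap3 hm η (π q.1)).real (sec3 N q.2) = a := by
      rintro q ⟨h1, h2, h3⟩
      exact ⟨ha _ h1, by rw [h3]; exact ha _ h2⟩
    have hc1 : ContinuousOn (fun q : Om k × Om k => (kap3 hm η (π q.1)).real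
        {u | (q, u) ∈ K1}) F := by
      refine cont_of_usc (g := fun q : Om k × Om k => (kap3 hm η (π q.1)).real
        {u | (q, u) ∈ K2}) (s := 2 * a) ?_ ?_ ?_
      · intro x hx b hb
        exact usc hCL2 F (fun q => π q.1) hp (fun a => kap3 hm η a) hfin
          (fun C hC => (hcont C hC).2) K1 k1 x hx b hb
      · intro x hx b hb
        exact usc hCL2 F (fun q => π q.1) hp (fun a => kap3 hm η a) hfin
          (fun C hC => (hcont C hC).2) K2 k2 x hx b hb
      · intro q hq
        obtain ⟨h1, h2⟩ := hval q hq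
        have := hfin (π q.1)
        have h3 := measureReal_union_add_inter (μ := kap3 hm η (π q.1))
          (s := sec3 N q.1) (t := sec3 N q.2) (hms q.2)
        show (kap3 hm η (π q.1)).real {u | (q, u) ∈ K1} +
          (kap3 hm η (π q.1)).real {u | (q, u) ∈ K2} = 2 * a
        rw [e1, e2]
        linarith
    refine ((continuousOn_const (c := 2 * a)).sub (hc1.const_smul (2 : ℝ))).congr ?_
    intro q hq
    obtain ⟨h1, h2⟩ := hval q hq
    have := hfin (π q.1)
    show dd3 hm η π N q.1 q.2 = 2 * a - (2 : ℝ) • (kap3 hm η (π q.1)).real {u | (q, u) ∈ K1}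
    rw [e1, smul_eq_mul]
    unfold dd3
    have h3 := measureReal_sdiff_add_inter (μ := kap3 hm η (π q.1))
      (s := sec3 N q.1) (t := sec3 N q.2) (hms q.2)
    have h4 := measureReal_sdiff_add_inter (μ := kap3 hm η (π q.1))
      (s := sec3 N q.2) (t := sec3 N q.1) (hms q.1)
    rw [inter_comm (sec3 N q.2)] at h4
    linarith
  · -- invariance
    intro v hv v' hv' n
    unfold dd3
    have hset : ∀ a b : Om k, {p : Om k × Om k | sh n p ∈ sec3 N (sh n a) \ sec3 N (sh n b)} =
        sec3 N a \ sec3 N b := by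
      intro a b
      ext p
      have h1 : sh n p ∈ sec3 N (sh n a) ↔ p ∈ sec3 N a := hinvN n (p.1, p.2, a)
      have h2 : sh n p ∈ sec3 N (sh n b) ↔ p ∈ sec3 N b := hinvN n (p.1, p.2, b)
      simp only [Set.mem_sdiff, h1, h2, mem_ofPred_eq]
    rw [hFr.kro.equi v hv n, measureReal_def, measureReal_def,
      (hequi n (π v) _ ((hms _).diff (hms _))).2, (hequi n (π v) _ ((hms _).diff (hms _))).2,
      hset, hset, measureReal_def, measureReal_def]
  · intro v
    simp [dd3]
  · intro v v'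
    unfold dd3
    positivity
  · intro v _ v' _ h
    unfold dd3
    rw [h, add_comm]
  · intro v _ v' _ v'' _ h1 h2
    unfold dd3
    rw [← h1]
    have := hfin (π v)
    have h3 := union_le (kap3 hm η (π v)) (A := sec3 N v \ sec3 N v'')
      (B := sec3 N v \ sec3 N v') (C := sec3 N v' \ sec3 N v'') (by
        rintro x ⟨ha, hb⟩
        by_cases h : x ∈ sec3 N v'
        · exact Or.inr ⟨h, hb⟩
        · exact Or.inl ⟨ha, h⟩)
    have h4 := union_le (kap3 hm η (π v)) (A := sec3 N v'' \ sec3 N v)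
      (B := sec3 N v' \ sec3 N v) (C := sec3 N v'' \ sec3 N v') (by
        rintro x ⟨ha, hb⟩
        by_cases h : x ∈ sec3 N v'
        · exact Or.inl ⟨h, hb⟩
        · exact Or.inr ⟨ha, h⟩)
    linarith
  · intro v _ v' _ h C _
    unfold dd3
    rw [← h]
    have := hfin (π v)
    exact abs_le (kap3 hm η (π v)) _ _ C

end Pool.Agent.Work.MP_69fea5_lc.N3
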