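import Pool.Agent.Work.MP_69fea5_lc.N3.StmtsA

/-!
# [69fea5 N3 RKN] the measures of the sections of a closed invariant set of progressions are one
constant
-/

set_option autoImplicit false

namespace Pool.Agent.Work.MP_69fea5_lc.N3

open MeasureTheory Topology Set Filter ProbabilityTheory
open scoped NNReal ENNReal
open Pool.Agent.Work.MP_69fea5_lc.AK

namespace I_RKN

variable {k : ℕ}

/-- compactness: sections of a closed set over nearby points are contained in a clopen
neighbourhood of the section -/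
theorem near {X Y : Type} [TopologicalSpace X] [TopologicalSpace Y] [CompactSpace Y]
    (F : Set (X × Y)) (hF : IsClosed F) (w : X) (C : Set Y) (hC : IsOpen C)
    (h : {p | (w, p) ∈ F} ⊆ C) : ∀ᶠ w' in 𝓝 w, {p | (w', p) ∈ F} ⊆ C := by
  have hcl : IsClosed (F ∩ (Prod.snd ⁻¹' Cᶜ)) :=
    hF.inter (hC.isClosed_compl.preimage continuous_snd)
  have himg : IsClosed (Prod.fst '' (F ∩ (Prod.snd ⁻¹' Cᶜ))) :=
    isClosedMap_fst_of_compactSpace _ hcl
  have hw : w ∉ Prod.fst '' (F ∩ (Prod.snd ⁻¹' Cᶜ)) := by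
    rintro ⟨⟨w', p⟩, ⟨h1, h2⟩, h3⟩
    simp only at h3
    subst h3
    exact h2 (h h1)
  filter_upwards [himg.isOpen_compl.mem_nhds hw] with w' hw' p hp
  by_contra hpC
  exact hw' ⟨(w', p), ⟨hp, hpC⟩, rfl⟩

/-- upper semicontinuity of the measures of the sections -/
theorem usc (hCL2 : S_CL2) {K : Type} [TopologicalSpace K] (M : Set (Om k)) (hM : IsClosed M)
    (π : Om k → K) (hπ : ContinuousOn π M) (κ : K → Measure (Om k × Om k))
    (hκ : ∀ a, IsFiniteMeasure (κ a))
    (hc : ∀ C : Set (Om k × Om k), IsClopen C → Continuous fun a => (κ a).real C)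
    (F : Set (Om k × (Om k × Om k))) (hF : IsClosed F) (a : ℝ) :
    IsClosed (M ∩ {w | a ≤ (κ (π w)).real {p | (w, p) ∈ F}}) := by
  rw [← closure_subset_iff_isClosed]
  intro w hw
  have hwM : w ∈ M := by
    have := closure_mono (inter_subset_left) hw
    rwa [hM.closure_eq] at this
  refine ⟨hwM, ?_⟩
  by_contra hlt
  have hlt' : (κ (π w)).real {p | (w, p) ∈ F} < a := not_le.1 hlt
  have := hκ (π w)
  have hFw : IsClosed {p | (w, p) ∈ F} := hF.preimage (by fun_prop)
  obtain ⟨C, hC, hFC, hCa⟩ := hCL2 k (κ (π w)) {p | (w, p) ∈ F} a hFw hlt'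
  have h1 := near F hF w C hC.isOpen hFC
  have h2 : ContinuousWithinAt (fun w' => (κ (π w')).real C) M w :=
    ((hc C hC).comp_continuousOn hπ) w hwM
  have h3 : ∀ᶠ w' in 𝓝[M] w, (κ (π w')).real C < a := h2.eventually_lt_const hCa
  have h4 : ∀ᶠ w' in 𝓝 w, w' ∈ M → (κ (π w')).real C < a := eventually_nhdsWithin_iff.1 h3
  obtain ⟨w', ⟨hw'1, hw'2⟩, hw'3, hw'4⟩ :=
    (mem_closure_iff_frequently.1 hw).and_eventually (h1.and h4) |>.exists
  have := hκ (π w')
  have h5 : (κ (π w')).real {p | (w', p) ∈ F} ≤ (κ (π w')).real C := measureReal_mono hw'3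
  have h6 := hw'4 hw'1
  have h7 : a ≤ (κ (π w')).real {p | (w', p) ∈ F} := hw'2
  linarith

end I_RKN

open I_RKN in
theorem RKN_pf (hCST : AK.S_CST) (hCL2 : S_CL2) (hKPB : S_KPB) (hKPC : S_KPC) (hKPE : S_KPE)
    (hKPF : S_KPF) : S_RKN := by
  intro k M K _ _ _ _ e π hm μ η hFr N hN
  obtain ⟨hprob, -, -, -, -⟩ := hKPB k M K e π hm μ η hFr
  have hcont := hKPC k M K e π hm μ η hFr
  have hequi := hKPE k M K e π hm μ η hFr
  have hmin := hFr.min
  have hclosed1 : ∀ w, IsClosed (sec1 N w) := fun w =>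
    hN.closed.preimage (by fun_prop : Continuous fun p : Om k × Om k => (w, p.1, p.2))
  have hclosed3 : ∀ v, IsClosed (sec3 N v) := fun v =>
    hN.closed.preimage (by fun_prop : Continuous fun p : Om k × Om k => (p.1, p.2, v))
  have hinvN : ∀ (n : ℤ) (q : Om k × Om k × Om k), sh n q ∈ N ↔ q ∈ N := by
    intro n q
    constructor
    · intro h
      have h2 := hN.inv (-n) _ h
      rw [← sh_add, neg_add_cancel, sh_zero] at h2
      exact h2
    · exact fun h => hN.inv n q h
  -- invariance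
  have hinv1 : ∀ (n : ℤ), ∀ w ∈ M, (kap1 hm η (π (sh n w))).real (sec1 N (sh n w)) =
      (kap1 hm η (π w)).real (sec1 N w) := by
    intro n w hw
    rw [hFr.kro.equi w hw n, measureReal_def, measureReal_def,
      (hequi n (π w) _ (hclosed1 _).measurableSet).1]
    congr 2
    ext p
    exact hinvN n (w, p.1, p.2)
  have hinv3 : ∀ (n : ℤ), ∀ v ∈ M, (kap3 hm η (π (sh n v))).real (sec3 N (sh n v)) =
      (kap3 hm η (π v)).real (sec3 N v) := by
    intro n v hv
    rw [hFr.kro.equi v hv n, measureReal_def, measureReal_def,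
      (hequi n (π v) _ (hclosed3 _).measurableSet).2]
    congr 2
    ext p
    exact hinvN n (p.1, p.2, v)
  -- upper semicontinuity
  have husc1 : ∀ a : ℝ, IsClosed (M ∩ {w | a ≤ (kap1 hm η (π w)).real (sec1 N w)}) := by
    intro a
    exact usc hCL2 M hmin.closed π hFr.kro.cont (fun a => kap1 hm η a)
      (fun a => by have := (hprob a).1; infer_instance) (fun C hC => (hcont C hC).1) N
      hN.closed a
  have husc3 : ∀ a : ℝ, IsClosed (M ∩ {v | a ≤ (kap3 hm η (π v)).real (sec3 N v)}) := by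
    intro a
    have h := usc hCL2 M hmin.closed π hFr.kro.cont (fun a => kap3 hm η a)
      (fun a => by have := (hprob a).2; infer_instance) (fun C hC => (hcont C hC).2)
      {q | (q.2.1, q.2.2, q.1) ∈ N} (hN.closed.preimage (by fun_prop)) a
    exact h
  have hc1 := hCST (Om k) M (fun w => (kap1 hm η (π w)).real (sec1 N w)) hmin hinv1 husc1
  have hc3 := hCST (Om k) M (fun w => (kap3 hm η (π w)).real (sec3 N w)) hmin hinv3 husc3
  obtain ⟨w0, hw0⟩ := hmin.ne
  refine ⟨(kap1 hm η (π w0)).real (sec1 N w0), fun w hw => hc1 w hw w0 hw0, fun v hv => ?_⟩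
  rw [show (kap3 hm η (π v)).real (sec3 N v) = (kap3 hm η (π w0)).real (sec3 N w0) from
    hc3 v hv w0 hw0]
  -- Fubini
  have hF := hKPF k M K e π hm μ η hFr N hN.closed univ isClopen_univ
  rw [inter_univ] at hF
  have hMm : MeasurableSet M := hmin.closed.measurableSet
  have hμM : (μ : Measure (Om k)) M = 1 := by
    have := congrArg (fun r : ℝ≥0 => (r : ENNReal)) hFr.one
    simpa using this
  have e1 : ∫⁻ w in M, kap1 hm η (π w) (sec1 N w) ∂(μ : Measure (Om k)) =
      kap1 hm η (π w0) (sec1 N w0) := by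
    rw [setLIntegral_congr_fun hMm (g := fun _ => kap1 hm η (π w0) (sec1 N w0)),
      setLIntegral_const, hμM, mul_one]
    intro w hw
    have := (hprob (π w)).1
    have := (hprob (π w0)).1
    have h := hc1 w hw w0 hw0
    simp only [measureReal_def] at h
    exact (ENNReal.toReal_eq_toReal_iff' (measure_ne_top _ _) (measure_ne_top _ _)).1 h
  have e3 : ∫⁻ w in M, kap3 hm η (π w) (sec3 N w) ∂(μ : Measure (Om k)) =
      kap3 hm η (π w0) (sec3 N w0) := by
    rw [setLIntegral_congr_fun hMm (g := fun _ => kap3 hm η (π w0) (sec3 N w0)),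
      setLIntegral_const, hμM, mul_one]
    intro w hw
    have := (hprob (π w)).2
    have := (hprob (π w0)).2
    have h := hc3 w hw w0 hw0
    simp only [measureReal_def] at h
    exact (ENNReal.toReal_eq_toReal_iff' (measure_ne_top _ _) (measure_ne_top _ _)).1 h
  rw [e1, e3] at hF
  rw [measureReal_def, measureReal_def, hF]

end Pool.Agent.Work.MP_69fea5_lc.N3
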