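import Pool.Agent.Work.MP_69fea5_lc.N3.StmtsA

/-!
# [69fea5 N3 RKZ] the pseudometric is zero if all clopen parts of the sections have the same measure
-/

set_option autoImplicit false

namespace Pool.Agent.Work.MP_69fea5_lc.N3

open MeasureTheory Topology Set Filter ProbabilityTheory
open scoped NNReal ENNReal
open Pool.Agent.Work.MP_69fea5_lc.AK

namespace I_RKZ

variable {k : ℕ}

/-- two sets whose parts in all boxes have the same measure have parts of the same measure in all
clopen sets -/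
theorem clopen_eq (hRCT : S_RCT) (hNBX : S_NBX) (ν : Measure (Om k × Om k)) [IsFiniteMeasure ν]
    (F F' : Set (Om k × Om k))
    (h : ∀ P : W2 k, ν.real (F ∩ bx P 0) = ν.real (F' ∩ bx P 0))
    (C : Set (Om k × Om k)) (hC : IsClopen C) : ν.real (F ∩ C) = ν.real (F' ∩ C) := by
  obtain ⟨L, T, -, hT, hd⟩ := hRCT k C hC
  have hcl : ∀ P : W2 k, IsClopen (bx P 0) := fun P => (hNBX k).2.1 P 0
  have key : ∀ G : Set (Om k × Om k),
      ν.real (G ∩ C) = ∑ P ∈ T, ν.real (G ∩ bx P 0) := by
    intro G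
    have e1 : ∀ S : Set (Om k × Om k), MeasurableSet S → ν.real (G ∩ S) = (ν.restrict G).real S := by
      intro S hS
      rw [measureReal_restrict_apply hS, inter_comm]
    rw [e1 C hC.isClosed.measurableSet, hT]
    rw [measureReal_biUnion_finset hd (fun P _ => (hcl P).isClosed.measurableSet)]
    exact Finset.sum_congr rfl fun P _ => (e1 _ (hcl P).isClosed.measurableSet).symm
  rw [key F, key F']
  exact Finset.sum_congr rfl fun P _ => h P

/-- one half of the symmetric difference -/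
theorem half (hRCT : S_RCT) (hNBX : S_NBX) (hCL2 : S_CL2) (ν : Measure (Om k × Om k))
    [IsFiniteMeasure ν] (F F' : Set (Om k × Om k)) (hF : IsClosed F)
    (h : ∀ P : W2 k, ν.real (F ∩ bx P 0) = ν.real (F' ∩ bx P 0)) :
    ν.real (F' \ F) = 0 := by
  refine le_antisymm (le_of_forall_pos_le_add fun ε hε => ?_) measureReal_nonneg
  obtain ⟨C, hC, hFC, hlt⟩ := hCL2 k ν F (ν.real F + ε) hF (by linarith)
  have h1 := clopen_eq hRCT hNBX ν F F' h C hC
  have h2 := clopen_eq hRCT hNBX ν F F' h univ isClopen_univ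
  rw [inter_univ, inter_univ] at h2
  rw [inter_eq_left.2 hFC] at h1
  have mC := hC.isClosed.measurableSet
  have h3 := measureReal_inter_add_sdiff (μ := ν) (s := F') mC
  have h4 : ν.real (C \ F) = ν.real C - ν.real F := measureReal_sdiff hFC hF.measurableSet
  have h5 : ν.real (F' \ F) ≤ ν.real (F' \ C) + ν.real (C \ F) := by
    refine (measureReal_mono ?_).trans (measureReal_union_le _ _)
    rintro x ⟨hx, hx2⟩
    by_cases hxC : x ∈ C
    · exact Or.inr ⟨hxC, hx2⟩
    · exact Or.inl ⟨hx, hxC⟩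
  linarith

end I_RKZ

theorem RKZ_pf (hRCT : S_RCT) (hNBX : S_NBX) (hCL2 : S_CL2) (hKPB : S_KPB) : S_RKZ := by
  intro k M K _ _ _ _ e π hm μ η hFr N hN v hv v' hv' hπ h
  have hP := (hKPB k M K e π hm μ η hFr).1 (π v)
  have := hP.2
  have hcl : ∀ w, IsClosed (sec3 N w) := fun w =>
    hN.closed.preimage (by fun_prop : Continuous fun p : Om k × Om k => (p.1, p.2, w))
  have h' : ∀ P : W2 k, (kap3 hm η (π v)).real (sec3 N v ∩ bx P 0) =
      (kap3 hm η (π v)).real (sec3 N v' ∩ bx P 0) := by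
    intro P
    rw [h P, hπ]
  have h1 := I_RKZ.half hRCT hNBX hCL2 (kap3 hm η (π v)) (sec3 N v) (sec3 N v') (hcl v) h'
  have h2 := I_RKZ.half hRCT hNBX hCL2 (kap3 hm η (π v)) (sec3 N v') (sec3 N v) (hcl v')
    fun P => (h' P).symm
  unfold dd3
  rw [h1, h2, add_zero]

end Pool.Agent.Work.MP_69fea5_lc.N3
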