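import Pool.Agent.Work.MP_69fea5_lc.N3.StmtsA

/-!
# Block [69fea5 N3], item RRB: the sets `RR L` are closed and invariant
-/

set_option autoImplicit false

namespace Pool.Agent.Work.MP_69fea5_lc.N3

open MeasureTheory Topology Set Filter ProbabilityTheory
open scoped NNReal ENNReal
open Pool.Agent.Work.MP_69fea5_lc.AK

theorem RRB_pf (h1 : AK.S_CYL) : S_RRB := by
  intro k L L'
  obtain ⟨hclo, hsh, -⟩ := h1 k
  refine ⟨?_, ?_, ?_⟩
  · have hset : RR L = ⋂ n : ℤ, ⋂ q ∈ L,
        {p : Om k × Om k | ¬ (p.1 ∈ cyl q.1 n ∧ p.2 ∈ cyl q.2 n)} := by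
      ext p
      simp only [RR, mem_setOf_eq, mem_iInter]
    rw [hset]
    refine isClosed_iInter fun n => isClosed_iInter fun q => isClosed_iInter fun _ => ?_
    have hop : IsOpen {p : Om k × Om k | p.1 ∈ cyl q.1 n ∧ p.2 ∈ cyl q.2 n} :=
      ((hclo q.1 n).isOpen.preimage continuous_fst).inter
        ((hclo q.2 n).isOpen.preimage continuous_snd)
    exact hop.isClosed_compl
  · intro a p hp n q hq hcon
    refine hp (n + a) q hq ⟨?_, ?_⟩
    · exact (hsh q.1 n a p.1).1 hcon.1
    · exact (hsh q.2 n a p.2).1 hcon.2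
  · ext p
    constructor
    · intro hp
      exact ⟨fun n q hq => hp n q (List.mem_append_left _ hq),
        fun n q hq => hp n q (List.mem_append_right _ hq)⟩
    · rintro ⟨h, h'⟩ n q hq
      rcases List.mem_append.1 hq with hq | hq
      · exact h n q hq
      · exact h' n q hq

end Pool.Agent.Work.MP_69fea5_lc.N3
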