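import Pool.Agent.Work.MP_69fea5_lc.N3.StmtsB

/-! # Item RUN of block [69fea5 N3] -/

set_option autoImplicit false

namespace Pool.Agent.Work.MP_69fea5_lc.N3

open MeasureTheory Topology Set Filter ProbabilityTheory
open scoped NNReal ENNReal
open Pool.Agent.Work.MP_69fea5_lc.AK

theorem RUN_pf (hRHC : S_RHC) : S_RUN := by
  intro k M K _ _ _ _ e π hm μ η hF R hR hRi u hu u' hu' huu
  have hR' : IsClosed {p : Om k × Om k | (p.2, p.1) ∈ R} :=
    hR.preimage (continuous_snd.prodMk continuous_fst)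
  have hRi' : AK.Inv {p : Om k × Om k | (p.2, p.1) ∈ R} := by
    intro n p hp
    exact hRi n (p.2, p.1) hp
  have hI := hRHC k μ M hF.min hF.inv {p : Om k × Om k | (p.2, p.1) ∈ R} hR' hRi'
  have h0 := hF.kro.univ _ hI u hu u' hu' huu
  unfold rho at h0
  have h1 : (0 : ℝ) ≤ (μ {w | (u, w) ∈ {p : Om k × Om k | (p.2, p.1) ∈ R} ∧
      (u', w) ∉ {p : Om k × Om k | (p.2, p.1) ∈ R}} : ℝ) := NNReal.coe_nonneg _
  have h2 : (0 : ℝ) ≤ (μ {w | (u', w) ∈ {p : Om k × Om k | (p.2, p.1) ∈ R} ∧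
      (u, w) ∉ {p : Om k × Om k | (p.2, p.1) ∈ R}} : ℝ) := NNReal.coe_nonneg _
  have h3 : (μ {w | (u, w) ∈ {p : Om k × Om k | (p.2, p.1) ∈ R} ∧
      (u', w) ∉ {p : Om k × Om k | (p.2, p.1) ∈ R}} : ℝ) = 0 := by linarith
  exact NNReal.coe_eq_zero.mp h3

end Pool.Agent.Work.MP_69fea5_lc.N3
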