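import Pool.Agent.Work.MP_69fea5_lc.N3.StmtsH2
import Pool.Agent.Work.MP_69fea5_lc.KC.I_KAPF

/-!
Block [69fea5 N3], item SE3: the sections of `N0 P` at a last point as limits.
-/

set_option autoImplicit false

namespace Pool.Agent.Work.MP_69fea5_lc.N3

open MeasureTheory Topology Set Filter ProbabilityTheory
open scoped NNReal ENNReal
open Pool.Agent.Work.MP_69fea5_lc.AK

namespace I_SE3

variable {k : ℕ}

theorem wd_mono {L L' : ℕ} (h : L ≤ L') {a b : Om k} (hab : HK.wd L' a = HK.wd L' b) :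
    HK.wd L a = HK.wd L b := by
  rw [KC.I_KAPF.wd_eq_iff] at hab ⊢
  exact fun t ht => hab t (ht.trans (by exact_mod_cast h))

theorem wd_nhds (L : ℕ) (a : Om k) : {b : Om k | HK.wd L b = HK.wd L a} ∈ 𝓝 a :=
  (KC.I_KAPF.isClopen_wd (fun w => w = HK.wd L a) L).isOpen.mem_nhds rfl

theorem wd_basis (a : Om k) (U : Set (Om k)) (hU : U ∈ 𝓝 a) :
    ∃ L : ℕ, ∀ b, HK.wd L b = HK.wd L a → b ∈ U := by
  obtain ⟨L, hL⟩ := HK.Law.near_basis (show HK.X k from a) U hU
  refine ⟨L, fun b hb => hL b ?_⟩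
  intro t ht
  exact ((KC.I_KAPF.wd_eq_iff L b a).1 hb t ht).symm

theorem isClopen_wd2 (R : List (Fin k) → List (Fin k) → Prop) (L : ℕ) :
    IsClopen {q : Om k × Om k | R (HK.wd L q.2) (HK.wd L q.1)} := by
  have h : ∀ R : List (Fin k) → List (Fin k) → Prop,
      IsOpen {q : Om k × Om k | R (HK.wd L q.2) (HK.wd L q.1)} := by
    intro R
    rw [isOpen_iff_mem_nhds]
    intro q hq
    filter_upwards [prod_mem_nhds (wd_nhds L q.1) (wd_nhds L q.2)] with y hy
    obtain ⟨h1, h2⟩ := hy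
    have h1' : HK.wd L y.1 = HK.wd L q.1 := h1
    have h2' : HK.wd L y.2 = HK.wd L q.2 := h2
    show R (HK.wd L y.2) (HK.wd L y.1)
    rw [h1', h2']
    exact hq
  exact ⟨⟨h fun u w => ¬ R u w⟩, h R⟩

theorem real_pos_iff {X : Type} [MeasurableSpace X] (ν : Measure X) [IsFiniteMeasure ν]
    (B : Set X) : 0 < ν.real B ↔ 0 < ν B := by
  rw [measureReal_def, ENNReal.toReal_pos_iff]
  exact ⟨fun h => h.1, fun h => ⟨h, measure_lt_top _ _⟩⟩

section K

variable {K : Type} [NormedAddCommGroup K]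

theorem iK_le (e v : K) (j : ℤ) : (iK e v () j : ℝ) ≤ ‖v + j • e‖ := by
  unfold iK
  rw [Set.coe_projIcc]
  exact max_le (norm_nonneg _) (min_le_right _ _)

theorem norm_lt_of_iK {e v : K} {j : ℤ} {r : ℝ} (hr : r ≤ 1) (h : (iK e v () j : ℝ) < r) :
    ‖v + j • e‖ < r := by
  unfold iK at h
  rw [Set.coe_projIcc] at h
  rcases min_lt_iff.1 ((le_max_right _ _).trans_lt h) with h1 | h1
  · linarith
  · exact h1

end K

end I_SE3

open I_SE3 in
/-- [SE3] the sections of `N0 P` at a last point over the position `0`, as limits. -/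
theorem SE3_pf (hK3S : S_K3S) (hIKB : S_IKB) (hPOS : S_POS) (hSP2 : S_SP2) (hNBX : S_NBX)
    (hKPB : S_KPB) : S_SE3 := by
  intro k c g K _ _ _ _ e π hm μ η hF z hz hz0 P Q hQ
  obtain ⟨-, -, hMc, hsup, hsh⟩ := hPOS k c (orb g) K e π hm μ η hF
  obtain ⟨hpr, -, -, -, -⟩ := hKPB k (orb g) K e π hm μ η hF.fr
  have : IsProbabilityMeasure (kap1 hm η 0) := (hpr 0).1
  set ν : Measure (Om k × Om k) := kap1 hm η 0 with hν
  obtain ⟨-, hs0, hs1, hs2⟩ := hSP2 k ν
  obtain ⟨-, hbx, -, -⟩ := hNBX k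
  obtain ⟨hic, -, hish, -, hit⟩ := hIKB K e hF.fr.kro.dense hF.bd
  have hπ := hF.fr.kro.cont
  set A : ℕ → Set (Om k × Om k) := fun L =>
    {q | adm3 c g e π ν P z L (HK.wd L q.2) (HK.wd L q.1)} with hA
  have hAc : ∀ L, IsClopen (A L) := fun L => isClopen_wd2 _ L
  have hgM : ∀ n : ℤ, sh n g ∈ orb g := fun n => subset_closure ⟨n, rfl⟩
  have hg0 : g ∈ orb g := by simpa [sh_zero] using hgM 0
  have hix : ∀ x : ℕ, (sh (x : ℤ) (iK e (0 : K), ()) : Cube Unit × Unit) =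
      (iK e ((x : ℤ) • e), ()) := by
    intro x
    have h := hish 0 (x : ℤ)
    rw [zero_add] at h
    rw [sh_prod, h]
  have hanti : Antitone A := by
    intro L L' hL q hq N
    obtain ⟨x, hx, h1, ⟨n, h2, h3⟩, h4⟩ := hq N
    refine ⟨x, hx, wd_mono hL h1, ⟨n, wd_mono hL h2, h3.trans_le ?_⟩, h4.trans_le ?_⟩
    · have hL' : (L : ℝ) ≤ L' := by exact_mod_cast hL
      exact one_div_le_one_div_of_le (by positivity) (by linarith)
    · refine measureReal_mono fun y hy => ?_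
      exact ⟨hy.1, wd_mono hL hy.2.1, wd_mono hL hy.2.2⟩
  -- the open sets of `adm3`
  have hO : ∀ (x : ℤ) (L : ℕ) (u v : List (Fin k)), IsOpen (bx P 0 ∩ {q : Om k × Om k |
      HK.wd L (sh x q.1) = u ∧ HK.wd L (sh x q.2) = v}) := by
    intro x L u v
    refine (hbx P 0).isOpen.inter ?_
    have h := (isClopen_wd2 (k := k) (fun a b => b = u ∧ a = v) L).isOpen.preimage
      (sh_cont (X := Om k × Om k) x)
    exact h
  have hmem : ∀ q : Om k × Om k, q.1 ∈ orb g → q.2 ∈ orb g →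
      ((q.2, q.1, z) ∈ N0 c (orb g) e π hm η P ↔ ∀ L, q ∈ A L) := by
    intro q hq1 hq2
    have hπq : ContinuousWithinAt π (orb g) q.2 := hπ q.2 hq2
    constructor
    · rintro ⟨-, h⟩ L N
      have hδ : (0 : ℝ) < 1 / (2 * ((L : ℝ) + 1)) := by positivity
      -- the time `n`
      have hW : {y | y ∈ orb g → π y ∈ Metric.ball (π q.2) (1 / (2 * ((L : ℝ) + 1)))} ∈
          𝓝 q.2 := by
        have := hπq (Metric.ball_mem_nhds _ hδ)
        rw [mem_map, mem_nhdsWithin_iff_eventually] at this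
        exact this
      obtain ⟨y, ⟨hy1, hy2⟩, ⟨n, rfl⟩⟩ := mem_closure_iff_nhds.1 hq2 _
        (inter_mem hW (wd_nhds L q.2))
      have hy1' := hy1 (hgM n)
      rw [(hsh n g hg0).2, Metric.mem_ball, dist_eq_norm] at hy1'
      -- the time `x`
      have hV : Metric.ball (π q.2) (1 / (2 * ((L : ℝ) + 1))) ∈
          Filter.comap (iK e) (𝓝 (iK e (π q.2))) :=
        hit (π q.2) _ tendsto_comap (Metric.ball_mem_nhds _ hδ)
      obtain ⟨V0, hV0, hV1⟩ := hV
      obtain ⟨x, hx, g', ⟨hg1, hg2⟩, ⟨h3, h4, h5⟩, h6⟩ := h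
        ({w | HK.wd L w = HK.wd L q.2} ×ˢ ({u | HK.wd L u = HK.wd L q.1} ×ˢ
          {v | HK.wd L v = HK.wd L z}))
        (prod_mem_nhds (wd_nhds L q.2) (prod_mem_nhds (wd_nhds L q.1) (wd_nhds L z)))
        (V0 ×ˢ univ) (prod_mem_nhds hV0 univ_mem) N
      refine ⟨x, hx, h3, ⟨n, hy2, ?_⟩, ?_⟩
      · rw [hix] at h6
        have h7 : (x : ℤ) • e ∈ Metric.ball (π q.2) (1 / (2 * ((L : ℝ) + 1))) := hV1 h6.1
        rw [Metric.mem_ball, dist_eq_norm] at h7
        refine (iK_le e (π g) _).trans_lt ?_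
        have h8 : π g + (n - (x : ℤ)) • e = (π g + n • e - π q.2) - ((x : ℤ) • e - π q.2) := by
          rw [sub_smul]; abel
        rw [h8]
        refine (norm_sub_le _ _).trans_lt ?_
        have h9 : (1 : ℝ) / (2 * ((L : ℝ) + 1)) + 1 / (2 * ((L : ℝ) + 1)) = 1 / ((L : ℝ) + 1) := by
          field_simp
          ring
        linarith
      · rw [real_pos_iff]
        exact (hs1 g').1 hg2 _ ((hO x L _ _).mem_nhds ⟨hg1, h4, h5⟩)
    · intro h
      refine ⟨hq2, fun U hU V hV L0 => ?_⟩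
      obtain ⟨V1, hV1, V2, hV2, hV12⟩ := mem_nhds_prod_iff.1 hV
      have h1 : (iK e) ⁻¹' V1 ∈ 𝓝 (π q.2) := hic.continuousAt hV1
      obtain ⟨δ, hδ, hδV⟩ := Metric.mem_nhds_iff.1 h1
      obtain ⟨U1, hU1, U', hU', hUU⟩ := mem_nhds_prod_iff.1 hU
      obtain ⟨U2, hU2, U3, hU3, hUU'⟩ := mem_nhds_prod_iff.1 hU'
      obtain ⟨L1, hL1⟩ := wd_basis _ _ hU1
      obtain ⟨L2, hL2⟩ := wd_basis _ _ hU2
      obtain ⟨L3, hL3⟩ := wd_basis _ _ hU3
      have hW : {y | y ∈ orb g → π y ∈ Metric.ball (π q.2) (δ / 2)} ∈ 𝓝 q.2 := by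
        have := hπq (Metric.ball_mem_nhds _ (half_pos hδ))
        rw [mem_map, mem_nhdsWithin_iff_eventually] at this
        exact this
      obtain ⟨L4, hL4⟩ := wd_basis _ _ hW
      obtain ⟨L5, hL5⟩ := exists_nat_one_div_lt (half_pos hδ)
      set L := max (max (max L1 L2) (max L3 L4)) L5 with hL
      have e1 : L1 ≤ L := by omega
      have e2 : L2 ≤ L := by omega
      have e3 : L3 ≤ L := by omega
      have e4 : L4 ≤ L := by omega
      have e5 : L5 ≤ L := by omega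
      obtain ⟨x, hx, hw, ⟨n, hn, hlt⟩, hpos⟩ := h L L0
      rw [real_pos_iff] at hpos
      obtain ⟨g', ⟨hg1, hg2, hg3⟩, hgs⟩ := hs2 _ (hO x L _ _) hpos
      refine ⟨x, hx, g', ⟨hg1, hgs⟩, hUU ⟨hL1 _ (wd_mono e1 hw), hUU' ⟨hL2 _ (wd_mono e2 hg2),
        hL3 _ (wd_mono e3 hg3)⟩⟩, ?_⟩
      rw [hix]
      refine hV12 ⟨hδV ?_, mem_of_mem_nhds hV2⟩
      have h7 := hL4 _ (wd_mono e4 hn) (hgM n)
      rw [(hsh n g hg0).2, Metric.mem_ball, dist_eq_norm] at h7
      have h8 : ‖π g + (n - (x : ℤ)) • e‖ < 1 / ((L : ℝ) + 1) := by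
        refine norm_lt_of_iK ?_ hlt
        rw [div_le_one (by positivity)]
        have : (0 : ℝ) ≤ L := Nat.cast_nonneg L
        linarith
      have h9 : (1 : ℝ) / ((L : ℝ) + 1) ≤ 1 / ((L5 : ℝ) + 1) := by
        have : (L5 : ℝ) ≤ L := by exact_mod_cast e5
        exact one_div_le_one_div_of_le (by positivity) (by linarith)
      rw [Metric.mem_ball, dist_eq_norm]
      have h10 : (x : ℤ) • e - π q.2 = (π g + n • e - π q.2) - (π g + (n - (x : ℤ)) • e) := by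
        rw [sub_smul]; abel
      rw [h10]
      refine (norm_sub_le _ _).trans_lt ?_
      linarith
  -- the measures
  have hae : ∀ᵐ q ∂ν, q ∈ sup2 ν := by
    rw [ae_iff]
    exact hs0
  have hmap : (kap3 hm η (π z)).real (sec3 (N0 c (orb g) e π hm η P) z ∩ Q) =
      ν.real (Prod.swap ⁻¹' (sec3 (N0 c (orb g) e π hm η P) z ∩ Q)) := by
    rw [hz0, hK3S k (orb g) K e π hm μ η hF.fr, measureReal_def, measureReal_def]
    congr 1
    exact (MeasurableEquiv.prodComm (α := Om k) (β := Om k)).map_apply _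
  have heq : ν.real (Prod.swap ⁻¹' (sec3 (N0 c (orb g) e π hm η P) z ∩ Q)) =
      ν.real (⋂ L, {q | q.swap ∈ Q} ∩ A L) := by
    refine measureReal_congr ?_
    filter_upwards [hae] with q hq
    obtain ⟨hq1, hq2, -⟩ := hsup q hq
    apply propext
    show q ∈ Prod.swap ⁻¹' (sec3 (N0 c (orb g) e π hm η P) z ∩ Q) ↔
      q ∈ ⋂ L, {q : Om k × Om k | q.swap ∈ Q} ∩ A L
    rw [mem_iInter]
    constructor
    · rintro ⟨h1, h2⟩ L
      exact ⟨h2, (hmem q hq1 hq2).1 h1 L⟩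
    · intro h
      exact ⟨(hmem q hq1 hq2).2 fun L => (h L).2, (h 0).1⟩
  rw [hmap, heq]
  have hQs : IsClopen {q : Om k × Om k | q.swap ∈ Q} := hQ.preimage continuous_swap
  have hanti' : Antitone fun L => {q : Om k × Om k | q.swap ∈ Q} ∩ A L := fun L L' hL =>
    Set.inter_subset_inter_right _ (hanti hL)
  have hlim : Tendsto (fun L => ν.real ({q : Om k × Om k | q.swap ∈ Q} ∩ A L)) atTop
      (𝓝 (ν.real (⋂ L, {q : Om k × Om k | q.swap ∈ Q} ∩ A L))) := by
    have h2 := tendsto_measure_iInter_atTop (μ := ν)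
      (s := fun L => {q : Om k × Om k | q.swap ∈ Q} ∩ A L)
      (fun L => (hQs.isOpen.measurableSet.inter (hAc L).isOpen.measurableSet).nullMeasurableSet)
      hanti' ⟨0, measure_ne_top _ _⟩
    exact (ENNReal.tendsto_toReal (measure_ne_top _ _)).comp h2
  have hbdd : BddBelow (Set.range fun L => ν.real ({q : Om k × Om k | q.swap ∈ Q} ∩ A L)) :=
    ⟨0, by rintro _ ⟨L, rfl⟩; exact measureReal_nonneg⟩
  exact tendsto_nhds_unique hlim
    (tendsto_atTop_ciInf (fun L L' hL => measureReal_mono (hanti' hL)) hbdd)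

end Pool.Agent.Work.MP_69fea5_lc.N3
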