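import Pool.Agent.Work.MP_69fea5_lc.N3.StmtsH

/-!
# Block [69fea5 N3], part H, item STC: states and blocked states are recognised
-/

set_option autoImplicit false

namespace Pool.Agent.Work.MP_69fea5_lc.N3

open MeasureTheory Topology Set Filter ProbabilityTheory
open scoped NNReal ENNReal
open Pool.Agent.Work.MP_69fea5_lc.AK
open Pool.Agent.Work.MP_69fea5_lc.HK (Cl DU Ar ArF ArR Dat Law LawC act near sc Pt oc Mn mr)

namespace I_STC

variable {k : ℕ}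

theorem cyl_eq (hB : S_BXC) (w : Wd k) (n : ℤ) : AK.cyl w n = HK.cyl (KC.con w n) := by
  ext z
  have h : ((z, z) : Om k × Om k) ∈ bx (w, w) n ↔
      ((z, z) : Om k × Om k) ∈ HK.cyl (KC.con w n) ×ˢ HK.cyl (KC.con w n) := by
    rw [hB k (w, w) n]
  simpa [bx] using h

theorem cyl_cons (P : HK.C k) (x : ℤ) (r : Fin k) (g : Om k) :
    g ∈ HK.cyl ((x, r) :: P) ↔ g x = r ∧ g ∈ HK.cyl P := by
  simp only [HK.cyl, Set.mem_ofPred_eq, List.mem_cons, forall_eq_or_imp]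

theorem cyl_append (P Q : HK.C k) (g : Om k) :
    g ∈ HK.cyl (P ++ Q) ↔ g ∈ HK.cyl P ∧ g ∈ HK.cyl Q := by
  simp only [HK.cyl, Set.mem_ofPred_eq, List.mem_append]
  constructor
  · intro h
    exact ⟨fun p hp => h p (Or.inl hp), fun p hp => h p (Or.inr hp)⟩
  · rintro ⟨h1, h2⟩ p (hp | hp)
    · exact h1 p hp
    · exact h2 p hp

theorem nxt_eq (hB : S_BXC) (P : W2 k) (r : Fin k) (x : ℤ) :
    nxt P r x = HK.cyl (KC.con P.1 0 ++ KC.con P.2 x) ×ˢ HK.cyl ((x, r) :: KC.con P.2 0) := by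
  ext g
  simp only [nxt, Set.mem_ofPred_eq, Set.mem_prod, cyl_append, cyl_cons]
  rw [hB k P 0, cyl_eq hB P.2 x, Set.mem_prod]
  tauto

theorem pos_iff (ν : Measure (Om k × Om k)) [IsProbabilityMeasure ν] (A : Set (Om k × Om k)) :
    0 < ν A ↔ (0 : ℝ) < ν.real A := by
  rw [Measure.real, ENNReal.toReal_pos_iff]
  exact ⟨fun h => ⟨h, measure_lt_top ν A⟩, fun h => h.1⟩

theorem zero_iff (ν : Measure (Om k × Om k)) [IsProbabilityMeasure ν] (A : Set (Om k × Om k)) :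
    ν A = 0 ↔ ¬ (0 : ℝ) < ν.real A := by
  rw [← pos_iff, not_lt, nonpos_iff_eq_zero]

theorem St_iff (hB : S_BXC) (ν : Measure (Om k × Om k)) [IsProbabilityMeasure ν] (P : W2 k)
    (r : Fin k) : St ν P r ↔ P.1[P.1.length / 2]? = some r ∧ P.2[P.2.length / 2]? = some r ∧
      (0 : ℝ) < ν.real (HK.cyl (KC.con P.1 0) ×ˢ HK.cyl (KC.con P.2 0)) := by
  unfold St AK.mid
  rw [hB k P 0, pos_iff]

theorem Bl3_iff (hB : S_BXC) (c : Om k) (ν : Measure (Om k × Om k)) [IsProbabilityMeasure ν]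
    (P : W2 k) (r : Fin k) : Bl3 c ν P r ↔ ∃ N : ℕ, ∀ x : ℕ, N ≤ x →
      (∀ p ∈ KC.con P.1 (x : ℤ), c p.1 = p.2) →
      ¬ ((0 : ℝ) < ν.real (HK.cyl (KC.con P.1 0 ++ KC.con P.2 (x : ℤ)) ×ˢ
        HK.cyl (((x : ℤ), r) :: KC.con P.2 0))) := by
  unfold Bl3
  refine exists_congr fun N => forall_congr' fun x => forall_congr' fun _ => ?_
  rw [cyl_eq hB P.1 (x : ℤ), nxt_eq hB, zero_iff]
  exact Iff.rfl

end I_STC

open I_STC in
theorem STC_pf (hBXC : S_BXC) (hCONF : KC.S_CONF) : S_STC := by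
  intro S hS k c ν _ hc hν
  have hc1 : ArF S fun p : Unit × ℤ => c p.2 := hc
  have hc' : ArF S fun t : ℤ => c t :=
    hc1.comp hS (f := fun t : ℤ => ((), t)) ((ArF.const hS ()).pair hS (ArF.id hS))
  have hν' : ArR S fun P : HK.C k × HK.C k => ν.real (HK.cyl P.1 ×ˢ HK.cyl P.2) := hν
  have hcon := hCONF S hS k
  constructor
  · refine Ar.congr ?_ fun p => St_iff hBXC ν p.1 p.2
    have h1 : ArF S fun p : W2 k × Fin k => p.1.1 :=
      ArF.of_primrec hS (Primrec.fst.comp Primrec.fst)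
    have h2 : ArF S fun p : W2 k × Fin k => p.1.2 :=
      ArF.of_primrec hS (Primrec.snd.comp Primrec.fst)
    have hmid : ArF S fun w : Wd k => w[w.length / 2]? :=
      ArF.of_primrec hS (f := fun w : Wd k => w[w.length / 2]?)
        (Primrec.list_getElem?.comp Primrec.id
          (Primrec.nat_div.comp Primrec.list_length (Primrec.const 2)))
    refine Ar.and hS ?_ (Ar.and hS ?_ ?_)
    · exact Ar.eq hS (hmid.comp hS h1) (ArF.map hS Primrec.option_some (ArF.snd hS))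
    · exact Ar.eq hS (hmid.comp hS h2) (ArF.map hS Primrec.option_some (ArF.snd hS))
    · refine ArR.rlt hS (ArR.zero hS) ?_ (fun _ => le_rfl)
      exact ArR.sub hS hν' (g := fun p : W2 k × Fin k => (KC.con p.1.1 0, KC.con p.1.2 0))
        ((hcon.comp hS (h1.pair hS (ArF.const hS (0 : ℤ)))).pair hS
          (hcon.comp hS (h2.pair hS (ArF.const hS (0 : ℤ)))))
  · refine Ar.congr ?_ fun p => Bl3_iff hBXC c ν p.1 p.2
    refine Ar.ex hS (R := fun (p : W2 k × Fin k) (N : ℕ) => ∀ x : ℕ, N ≤ x →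
      (∀ q ∈ KC.con p.1.1 (x : ℤ), c q.1 = q.2) →
      ¬ ((0 : ℝ) < ν.real (HK.cyl (KC.con p.1.1 0 ++ KC.con p.1.2 (x : ℤ)) ×ˢ
        HK.cyl (((x : ℤ), p.2) :: KC.con p.1.2 0)))) ?_
    refine Ar.all hS (R := fun (p : (W2 k × Fin k) × ℕ) (x : ℕ) => p.2 ≤ x →
      (∀ q ∈ KC.con p.1.1.1 (x : ℤ), c q.1 = q.2) →
      ¬ ((0 : ℝ) < ν.real (HK.cyl (KC.con p.1.1.1 0 ++ KC.con p.1.1.2 (x : ℤ)) ×ˢ
        HK.cyl (((x : ℤ), p.1.2) :: KC.con p.1.1.2 0)))) ?_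
    have hx : ArF S fun p : ((W2 k × Fin k) × ℕ) × ℕ => ((p.2 : ℕ) : ℤ) :=
      (ArF.snd hS).natCast hS
    have h1 : ArF S fun p : ((W2 k × Fin k) × ℕ) × ℕ => p.1.1.1.1 :=
      ArF.of_primrec hS (Primrec.fst.comp (Primrec.fst.comp (Primrec.fst.comp Primrec.fst)))
    have h2 : ArF S fun p : ((W2 k × Fin k) × ℕ) × ℕ => p.1.1.1.2 :=
      ArF.of_primrec hS (Primrec.snd.comp (Primrec.fst.comp (Primrec.fst.comp Primrec.fst)))
    have hr : ArF S fun p : ((W2 k × Fin k) × ℕ) × ℕ => p.1.1.2 :=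
      ArF.of_primrec hS (Primrec.snd.comp (Primrec.fst.comp Primrec.fst))
    refine Ar.imp hS ?_ (Ar.imp hS ?_ (Ar.not hS ?_))
    · exact Ar.le hS (ArF.of_primrec hS (Primrec.snd.comp Primrec.fst)) (ArF.snd hS)
    · refine Ar.ballList hS (R := fun (_ : ((W2 k × Fin k) × ℕ) × ℕ) (q : ℤ × Fin k) =>
        c q.1 = q.2) ?_ (hcon.comp hS (h1.pair hS hx))
      refine Ar.eq hS ?_ ?_
      · exact hc'.comp hS (ArF.of_primrec hS (Primrec.fst.comp Primrec.snd))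
      · exact ArF.of_primrec hS (Primrec.snd.comp Primrec.snd)
    · refine ArR.rlt hS (ArR.zero hS) ?_ (fun _ => le_rfl)
      refine ArR.sub hS hν' (g := fun p : ((W2 k × Fin k) × ℕ) × ℕ =>
        (KC.con p.1.1.1.1 0 ++ KC.con p.1.1.1.2 (p.2 : ℤ),
          ((p.2 : ℤ), p.1.1.2) :: KC.con p.1.1.1.2 0)) ?_
      refine ArF.pair hS ?_ ?_
      · refine ArF.map₂ hS (g := fun (a b : List (ℤ × Fin k)) => a ++ b)
          Primrec.list_append ?_ ?_
        · exact hcon.comp hS (h1.pair hS (ArF.const hS (0 : ℤ)))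
        · exact hcon.comp hS (h2.pair hS hx)
      · refine ArF.map₂ hS (g := fun (a : ℤ × Fin k) (l : List (ℤ × Fin k)) => a :: l)
          Primrec.list_cons (hx.pair hS hr) ?_
        exact hcon.comp hS (h2.pair hS (ArF.const hS (0 : ℤ)))

end Pool.Agent.Work.MP_69fea5_lc.N3
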