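import Pool.Agent.Work.MP_69fea5_lc.N3.StmtsH2

/-!
# Block [69fea5 N3], item T3C: the base point of the isometric extension is coded
-/

set_option autoImplicit false

namespace Pool.Agent.Work.MP_69fea5_lc.N3

open MeasureTheory Topology Set Filter ProbabilityTheory
open scoped NNReal ENNReal
open Pool.Agent.Work.MP_69fea5_lc.AK
open Pool.Agent.Work.MP_69fea5_lc.HK (Cl DU Ar ArF ArR Dat Law LawC act near sc Pt oc Mn mr ext)

namespace I_T3C

theorem clopen_cyl {k : ℕ} (P : HK.C k) : IsClopen (HK.cyl P : Set (Om k)) := by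
  have h : (HK.cyl P : Set (Om k)) = ⋂ p ∈ P.toFinset, {z : Om k | z p.1 = p.2} := by
    ext z
    simp [HK.cyl]
  rw [h]
  refine isClopen_biInter_finset fun p _ => ?_
  exact (isClopen_discrete {p.2}).preimage (continuous_apply p.1)

variable {S : Set (Set ℕ)}

/-- substitution into a function of words, depths and two constraints -/
theorem ArR_aux (hS : Cl S) {W V Z K : Type} [Primcodable W] [Primcodable V] [Primcodable Z]
    [Primcodable K] {F : (W × ℕ) × ℕ × (K × K) → ℝ} (hF : ArR S F)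
    (cn : V → Z → K) (hc : ArF S fun p : V × Z => cn p.1 p.2) :
    ArR S fun p : ((W × (V × V)) × Z) × ℕ =>
      F ((p.1.1.1, p.2), p.2, (cn p.1.1.2.2 p.1.2, cn p.1.1.2.1 p.1.2)) := by
  have h5 : ArF S fun p : ((W × (V × V)) × Z) × ℕ =>
      (((p.1.1.1, p.2), p.2, (cn p.1.1.2.2 p.1.2, cn p.1.1.2.1 p.1.2)) :
        (W × ℕ) × ℕ × (K × K)) := by
    refine ArF.pair hS ?_ (ArF.pair hS (ArF.of_primrec hS Primrec.snd) (ArF.pair hS ?_ ?_))
    · exact ArF.of_primrec hS ((Primrec.fst.comp (Primrec.fst.comp Primrec.fst)).pair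
        Primrec.snd)
    · exact ArF.comp hS hc (f := fun p : ((W × (V × V)) × Z) × ℕ => (p.1.1.2.2, p.1.2))
        (ArF.of_primrec hS ((Primrec.snd.comp (Primrec.snd.comp
          (Primrec.fst.comp Primrec.fst))).pair (Primrec.snd.comp Primrec.fst)))
    · exact ArF.comp hS hc (f := fun p : ((W × (V × V)) × Z) × ℕ => (p.1.1.2.1, p.1.2))
        (ArF.of_primrec hS ((Primrec.fst.comp (Primrec.snd.comp
          (Primrec.fst.comp Primrec.fst))).pair (Primrec.snd.comp Primrec.fst)))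
  exact ArR.sub' hS hF h5

/-- swapping two words -/
theorem Ar_aux (hS : Cl S) {A B : Type} [Primcodable A] [Primcodable B]
    {R : A × (B × B) → Prop} (hR : Ar S R) : Ar S fun p : A × (B × B) => R (p.1, (p.2.2, p.2.1)) :=
  Ar.comp hS hR (f := fun p : A × (B × B) => (p.1, (p.2.2, p.2.1)))
    (Primrec.fst.pair ((Primrec.snd.comp Primrec.snd).pair (Primrec.fst.comp Primrec.snd)))

end I_T3C

open I_T3C in
theorem T3C_pf (hSE3 : S_SE3) (hMW2 : S_MW2) (hAD3 : S_AD3) (hBXC : S_BXC) (hCONF : KC.S_CONF)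
    (hTH3 : S_TH3) (hKPB : S_KPB) : S_T3C := by
  intro S U hS k c g K _ _ _ _ e π hm μ m0 η hF z hz hzπ hPz
  have hFc := hF.fc
  have hprob : IsProbabilityMeasure (kap1 hm η 0) := ((hKPB k (orb g) K e π hm μ η hF.fr).1 0).1
  obtain ⟨-, -, -, -, hval, -, -⟩ := hTH3 k c (orb g) K e π hm μ η hFc
  have h2 : ∀ p : Ix3 k × ℤ, (Th3 c (orb g) e π hm η z p.1 p.2 : ℝ) =
      ⨅ L : ℕ, (kap1 hm η 0).real
        ((HK.cyl (KC.con p.1.2.2 p.2) ×ˢ HK.cyl (KC.con p.1.2.1 p.2)) ∩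
          {q | adm3 c g e π (kap1 hm η 0) p.1.1 z L (HK.wd L q.2) (HK.wd L q.1)}) := by
    intro p
    have hclop : IsClopen (bx p.1.2 p.2) := by
      rw [hBXC k p.1.2 p.2]
      exact (clopen_cyl _).prod (clopen_cyl _)
    rw [hval z hz p.1 p.2, hSE3 k c g K e π hm μ η hFc z hz hzπ p.1.1 (bx p.1.2 p.2) hclop]
    congr 1
    funext L
    congr 2
    ext q
    rw [hBXC k p.1.2 p.2]
    exact and_comm
  have key : ArR S fun p : Ix3 k × ℤ => (Th3 c (orb g) e π hm η z p.1 p.2 : ℝ) := by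
    refine ArR.congr ?_ h2
    refine ArR.iInf hS ?_ (fun _ _ => measureReal_nonneg)
    have hH := Ar_aux hS (hAD3 S hS k K e π c g z (kap1 hm η 0) hF.ptc hF.ptg hPz hF.ptv hF.nc)
    have h4 := hMW2 S hS k (kap1 hm η 0) hF.nc (W2 k × ℕ)
      (fun b w => adm3 c g e π (kap1 hm η 0) b.1 z b.2 w.2 w.1) hH
    exact ArR_aux hS h4 KC.con (hCONF S hS k)
  exact ArR.comp hS key (g := fun p : Unit × Ix3 k × ℤ => p.2) Primrec.snd

end Pool.Agent.Work.MP_69fea5_lc.N3
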