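import Pool.Agent.Work.MP_69fea5_lc.N3.StmtsA
import Pool.Agent.Work.MP_69fea5_lc.N3.A44a

/-! Item [TRC] of block [69fea5 N3]. -/

set_option autoImplicit false

namespace Pool.Agent.Work.MP_69fea5_lc.N3

open MeasureTheory Topology Set Filter
open scoped NNReal ENNReal

theorem TRC_pf : S_TRC := by
  intro K _ _ _ _ hm _ _ e he I J _ _ f g hf hg bf bg
  exact cont_prod_shift hm e he Finset.univ Finset.univ f g hf hg (fun _ => 1) (fun _ => 1)
    (fun i t => abs_le.2 ⟨by linarith [(bf i t).1], (bf i t).2⟩)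
    (fun j t => abs_le.2 ⟨by linarith [(bg j t).1], (bg j t).2⟩)

end Pool.Agent.Work.MP_69fea5_lc.N3
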