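import Pool.Agent.Work.MP_69fea5_lc.N3.StmtsB

/-!
# Block [69fea5 N3], item TRN: transport of mass
-/

set_option autoImplicit false

namespace Pool.Agent.Work.MP_69fea5_lc.N3

open MeasureTheory Topology Set Filter ProbabilityTheory
open scoped NNReal ENNReal
open Pool.Agent.Work.MP_69fea5_lc.AK

namespace I_TRN

variable {k : ℕ} {K : Type} [NormedAddCommGroup K] [CompactSpace K] [MeasurableSpace K]
  [BorelSpace K]

theorem closedE {M : Set (Om k)} (hM : IsClosed M) {π : Om k → K} (hπ : ContinuousOn π M)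
    {C : Set K} (hC : IsClosed C) (a : K) :
    IsClosed {g : Om k × Om k | g.1 ∈ M ∧ π g.1 - a ∈ C} := by
  have h1 : ContinuousOn (fun g : Om k × Om k => π g.1 - a) {g : Om k × Om k | g.1 ∈ M} :=
    (hπ.comp continuous_fst.continuousOn (fun p hp => hp)).sub continuousOn_const
  have h2 := h1.preimage_isClosed_of_isClosed (hM.preimage continuous_fst) hC
  exact h2

end I_TRN

/-- [TRN] transport of mass. -/
theorem TRN_pf (h1 : S_IKB) (h2 : S_POS) (h3 : S_NNR) (h4 : S_CL2) (h5 : S_KPB) (h6 : S_KPE)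
    (h7 : S_KPC) (h8 : S_SP2) : S_TRN := by
  intro k c M K _ _ _ _ e π hm μ η hFc B _ _ θ b₀ hMt P w hw C hC
  obtain ⟨hiKc, -, hiKe, -, hiKn⟩ := h1 K e hFc.fr.kro.dense hFc.bd
  obtain ⟨-, -, hMc, hsup, hpos⟩ := h2 k c M K e π hm μ η hFc
  have hπ := hFc.fr.kro.cont
  have hN := h3 k c M K e π hm μ η hFc B θ b₀ hMt.cont hMt.equi P
  have hpr := (h5 k M K e π hm μ η hFc.fr).1
  have := (hpr 0).1
  have := (hpr (π w)).1
  set N := NN c M e π θ b₀ (kap1 hm η 0) P with hNdef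
  set ν := kap1 hm η 0 with hν
  set A : Set (Om k × Om k) := bx P 0 ∩ {g | g.1 ∈ M ∧ π g.1 ∈ C} with hA
  set E : Set (Om k × Om k) := sec1 N w ∩ {g | g.1 ∈ M ∧ π g.1 - π w ∈ C} with hE
  by_contra hcon
  rw [not_le] at hcon
  have hEc : IsClosed E := by
    refine IsClosed.inter ?_ (I_TRN.closedE hMc hπ hC (π w))
    exact hN.closed.preimage (Continuous.prodMk continuous_const
      (Continuous.prodMk continuous_fst continuous_snd))
  obtain ⟨R, hR, hER, hRa⟩ := h4 k (kap1 hm η (π w)) E _ hEc hcon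
  -- the filter of the good times
  set y₀ : Om k × (Cube Unit × B) := (c, (iK e (0 : K), b₀)) with hy₀
  set y : Om k × (Cube Unit × B) := (w, (iK e (π w), θ w)) with hy
  set F : Filter ℕ := atTop ⊓ comap (fun x : ℕ => sh (x : ℤ) y₀) (𝓝 y) with hF
  have hFne : F.NeBot := by
    rw [hF, Filter.inf_neBot_iff]
    intro S hS T hT
    obtain ⟨L, hL⟩ := Filter.mem_atTop_sets.1 hS
    obtain ⟨W, hW, hWT⟩ := Filter.mem_comap.1 hT
    obtain ⟨x, hx, hxW⟩ := hMt.ret w hw W hW L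
    exact ⟨x, hL x hx, hWT hxW⟩
  have hFy : Tendsto (fun x : ℕ => sh (x : ℤ) y₀) F (𝓝 y) :=
    (tendsto_comap (f := fun x : ℕ => sh (x : ℤ) y₀)).mono_left inf_le_right
  have hFc1 : Tendsto (fun x : ℕ => sh (x : ℤ) c) F (𝓝 w) :=
    (continuous_fst.tendsto y).comp hFy
  have hFb : Tendsto (fun x : ℕ => sh (x : ℤ) ((iK e (0 : K), b₀) : Cube Unit × B)) F
      (𝓝 (iK e (π w), θ w)) :=
    (continuous_snd.tendsto y).comp hFy
  have hFe : Tendsto (fun x : ℕ => (x : ℤ) • e) F (𝓝 (π w)) := by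
    have h9 : Tendsto (fun x : ℕ => sh (x : ℤ) (iK e (0 : K))) F (𝓝 (iK e (π w))) :=
      (continuous_fst.tendsto _).comp hFb
    have h10 : Tendsto (iK e) (map (fun x : ℕ => (x : ℤ) • e) F) (𝓝 (iK e (π w))) := by
      rw [tendsto_map'_iff]
      refine h9.congr fun x => ?_
      have := hiKe 0 (x : ℤ)
      rw [zero_add] at this
      exact this.symm
    exact hiKn (π w) _ h10
  -- the claim
  have hG : ∀ᶠ x : ℕ in F, ∀ g ∈ A ∩ sup2 ν, sh (x : ℤ) g ∈ R := by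
    by_contra hnot
    have hfr : ∃ᶠ x : ℕ in F, ¬ ∀ g ∈ A ∩ sup2 ν, sh (x : ℤ) g ∈ R :=
      Filter.not_eventually.1 hnot
    have hne : (F ⊓ 𝓟 {x : ℕ | ¬ ∀ g ∈ A ∩ sup2 ν, sh (x : ℤ) g ∈ R}).NeBot :=
      Filter.frequently_mem_iff_neBot.1 hfr
    set Uf : Ultrafilter ℕ := Ultrafilter.of
      (F ⊓ 𝓟 {x : ℕ | ¬ ∀ g ∈ A ∩ sup2 ν, sh (x : ℤ) g ∈ R}) with hUf
    have hUle : (Uf : Filter ℕ) ≤ F ⊓ 𝓟 {x : ℕ | ¬ ∀ g ∈ A ∩ sup2 ν, sh (x : ℤ) g ∈ R} :=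
      Ultrafilter.of_le _
    have hUF : (Uf : Filter ℕ) ≤ F := hUle.trans inf_le_left
    have hUG : ∀ᶠ x : ℕ in (Uf : Filter ℕ), ∃ g ∈ A ∩ sup2 ν, sh (x : ℤ) g ∉ R := by
      have := (hUle.trans inf_le_right) (mem_principal_self _)
      filter_upwards [this] with x hx
      have hx' : ¬ ∀ g ∈ A ∩ sup2 ν, sh (x : ℤ) g ∈ R := hx
      by_contra hc
      exact hx' fun g hg => by
        by_contra hgR
        exact hc ⟨g, hg, hgR⟩
    have hch : ∀ x : ℕ, ∃ g : Om k × Om k, (∃ g ∈ A ∩ sup2 ν, sh (x : ℤ) g ∉ R) →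
        g ∈ A ∩ sup2 ν ∧ sh (x : ℤ) g ∉ R := by
      intro x
      by_cases hx : ∃ g ∈ A ∩ sup2 ν, sh (x : ℤ) g ∉ R
      · obtain ⟨g, hg, hgR⟩ := hx
        exact ⟨g, fun _ => ⟨hg, hgR⟩⟩
      · exact ⟨(c, c), fun h => absurd h hx⟩
    choose g hg using hch
    have hgU : ∀ᶠ x : ℕ in (Uf : Filter ℕ), g x ∈ A ∩ sup2 ν ∧ sh (x : ℤ) (g x) ∉ R := by
      filter_upwards [hUG] with x hx using hg x hx
    obtain ⟨gs, hgs⟩ : ∃ gs : Om k × Om k,
        Tendsto (fun x : ℕ => sh (x : ℤ) (g x)) (Uf : Filter ℕ) (𝓝 gs) := by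
      obtain ⟨gs, -, h⟩ := isCompact_univ.ultrafilter_le_nhds
        (Uf.map fun x : ℕ => sh (x : ℤ) (g x)) (by simp)
      exact ⟨gs, h⟩
    have hgsR : gs ∉ R := by
      have hcl : IsClosed Rᶜ := hR.isOpen.isClosed_compl
      exact hcl.mem_of_tendsto hgs (hgU.mono fun x hx => hx.2)
    apply hgsR
    apply hER
    have hg1 : Tendsto (fun x : ℕ => sh (x : ℤ) (g x).1) (Uf : Filter ℕ) (𝓝 gs.1) :=
      (continuous_fst.tendsto gs).comp hgs
    have hgM : ∀ᶠ x : ℕ in (Uf : Filter ℕ), sh (x : ℤ) (g x).1 ∈ M :=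
      hgU.mono fun x hx => (hpos x _ hx.1.1.2.1).1
    have hgsM : gs.1 ∈ M := hMc.mem_of_tendsto hg1 hgM
    refine ⟨⟨hw, fun U hU V hV L => ?_⟩, hgsM, ?_⟩
    · have ht : Tendsto (fun x : ℕ => ((sh (x : ℤ) c, sh (x : ℤ) (g x)) : Om k × (Om k × Om k)))
          (Uf : Filter ℕ) (𝓝 (w, gs)) :=
        (hFc1.mono_left hUF).prodMk_nhds hgs
      have hU1 : ∀ᶠ x : ℕ in (Uf : Filter ℕ),
          ((sh (x : ℤ) c, sh (x : ℤ) (g x)) : Om k × (Om k × Om k)) ∈ U := ht hU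
      have hV1 : ∀ᶠ x : ℕ in (Uf : Filter ℕ),
          sh (x : ℤ) ((iK e (0 : K), b₀) : Cube Unit × B) ∈ V := (hFb.mono_left hUF) hV
      have hL1 : ∀ᶠ x : ℕ in (Uf : Filter ℕ), L ≤ x :=
        (hUF.trans inf_le_left) (Filter.eventually_ge_atTop L)
      obtain ⟨x, ⟨⟨hxU, hxV⟩, hxL⟩, hxg⟩ := (((hU1.and hV1).and hL1).and hgU).exists
      exact ⟨x, hxL, g x, ⟨hxg.1.1.1, hxg.1.2⟩, hxU, hxV⟩
    · have ht1 : Tendsto (fun x : ℕ => π (sh (x : ℤ) (g x).1)) (Uf : Filter ℕ) (𝓝 (π gs.1)) := by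
        have h11 : Tendsto (fun x : ℕ => sh (x : ℤ) (g x).1) (Uf : Filter ℕ) (𝓝[M] gs.1) :=
          tendsto_nhdsWithin_iff.2 ⟨hg1, hgM⟩
        exact (hπ gs.1 hgsM).tendsto.comp h11
      have ht2 : Tendsto (fun x : ℕ => π (sh (x : ℤ) (g x).1) - (x : ℤ) • e) (Uf : Filter ℕ)
          (𝓝 (π gs.1 - π w)) := ht1.sub (hFe.mono_left hUF)
      refine hC.mem_of_tendsto ht2 (hgU.mono fun x hx => ?_)
      have h12 := (hpos (x : ℤ) (g x).1 hx.1.1.2.1).2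
      rw [h12, add_sub_cancel_right]
      exact hx.1.1.2.2
  -- the end
  have hcont := (h7 k M K e π hm μ η hFc.fr R hR).1
  have hlt : ∀ᶠ x : ℕ in F, (kap1 hm η ((x : ℤ) • e)).real R < ν.real A :=
    ((hcont.tendsto (π w)).comp hFe).eventually (gt_mem_nhds hRa)
  obtain ⟨x, hxG, hxlt⟩ := (hG.and hlt).exists
  have hk := (h6 k M K e π hm μ η hFc.fr (x : ℤ) 0 R hR.isOpen.measurableSet).1
  rw [zero_add] at hk
  have hnull := (h8 k ν).2.1
  have hle : ν A ≤ ν {p | sh (x : ℤ) p ∈ R} := by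
    calc ν A ≤ ν ({p | sh (x : ℤ) p ∈ R} ∪ (sup2 ν)ᶜ) := by
          apply measure_mono
          intro g hgA
          by_cases hs : g ∈ sup2 ν
          · exact Or.inl (hxG g ⟨hgA, hs⟩)
          · exact Or.inr hs
      _ ≤ ν {p | sh (x : ℤ) p ∈ R} + ν (sup2 ν)ᶜ := measure_union_le _ _
      _ = ν {p | sh (x : ℤ) p ∈ R} := by rw [hnull, add_zero]
  have hreal : ν.real A ≤ (kap1 hm η ((x : ℤ) • e)).real R := by
    unfold Measure.real
    rw [hk]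
    exact ENNReal.toReal_mono (measure_ne_top ν _) hle
  exact absurd hxlt (not_lt.2 hreal)

end Pool.Agent.Work.MP_69fea5_lc.N3
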