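import Pool.Agent.Work.MP_69fea5_lc.N3.StmtsH2
import Pool.Agent.Work.MP_69fea5_lc.KC.I_LAWCU
import Pool.Agent.Work.MP_69fea5_lc.KC.I_CON
import Pool.Agent.Work.MP_69fea5_lc.KC.I_CONF

/-!
# Block [69fea5 N3], part H, item WWC: the sets `WW` are recognised
-/

set_option autoImplicit false

namespace Pool.Agent.Work.MP_69fea5_lc.N3

open MeasureTheory Topology Set Filter ProbabilityTheory
open scoped NNReal ENNReal
open Pool.Agent.Work.MP_69fea5_lc.AK
open Pool.Agent.Work.MP_69fea5_lc.HK (Cl DU Ar ArF ArR Dat Law LawC act near sc Pt oc Mn mr)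

namespace I_WWC

variable {S : Set (Set ℕ)}

/-- closeness of the translates of a coded point to the point -/
theorem near_ar (hS : Cl S) {I : Type} [Primcodable I] (y : Cube I) (hy : Pt S y) :
    Ar S fun p : ℕ × ℤ => near p.1 (sh p.2 y) y := by
  have hL : LawC (Cube I) := KC.LAWCCU_pf I
  have h1 : sc S (fun p : Unit × ℤ => act p.2 y) := hL.sc_act S Unit (fun _ => y) hS hy
  have h2 : sc S (fun n : ℤ => act n y) :=
    hL.sc_comp S (Unit × ℤ) ℤ (fun p : Unit × ℤ => act p.2 y) (fun n : ℤ => ((), n)) hS h1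
      ((ArF.const hS ()).pair hS (ArF.id hS))
  have h3 : sc S (fun _ : ℤ => y) :=
    hL.sc_comp S Unit ℤ (fun _ => y) (fun _ => ()) hS hy (ArF.const hS ())
  exact hL.sc_near S ℤ _ _ hS h2 h3

/-- membership of the translates of a coded sequence in cylinders -/
theorem mem_ar (hS : Cl S) {k : ℕ} (z : Om k) (hz : Pt S z) :
    Ar S fun p : Wd k × ℤ => sh p.2 z ∈ cyl p.1 0 := by
  have hz1 : ArF S fun p : Unit × ℤ => z p.2 := hz
  have hz' : ArF S fun t : ℤ => z t :=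
    hz1.comp hS (f := fun t : ℤ => ((), t)) ((ArF.const hS ()).pair hS (ArF.id hS))
  have hcon := KC.CONF_pf S hS k
  have h : Ar S fun p : Wd k × ℤ => ∀ q ∈ KC.con p.1 0, z (q.1 + p.2) = q.2 := by
    refine Ar.ballList hS (R := fun (p : Wd k × ℤ) (q : ℤ × Fin k) => z (q.1 + p.2) = q.2) ?_
      (hcon.comp hS ((ArF.fst hS).pair hS (ArF.const hS (0 : ℤ))))
    refine Ar.eq hS ?_ ?_
    · refine hz'.comp hS ?_
      exact ArF.intAdd hS (ArF.of_primrec hS (Primrec.fst.comp Primrec.snd))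
        (ArF.of_primrec hS (Primrec.snd.comp Primrec.fst))
    · exact ArF.of_primrec hS (Primrec.snd.comp Primrec.snd)
  refine Ar.congr h fun p => ?_
  rw [← KC.CON_pf k p.1 0]
  exact Iff.rfl

end I_WWC

/-- [WWC] the sets `WW` are recognised. -/
theorem WWC_pf : S_WWC := by
  intro S hS k y₀ z h1 h2 hz
  have hn : Ar S fun p : ℕ × ℤ => near2 p.1 (sh p.2 y₀) y₀ :=
    Ar.and hS (I_WWC.near_ar hS y₀.1 h1) (I_WWC.near_ar hS y₀.2 h2)
  refine ⟨hn, ?_⟩
  refine Ar.all hS (R := fun (p : Wd k × ℕ) (i : ℤ) => sh i z ∈ cyl p.1 0 →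
    near2 p.2 (sh i y₀) y₀) ?_
  refine Ar.imp hS ?_ ?_
  · exact Ar.comp hS (I_WWC.mem_ar hS z hz)
      (f := fun q : (Wd k × ℕ) × ℤ => (q.1.1, q.2))
      ((Primrec.fst.comp Primrec.fst).pair Primrec.snd)
  · exact Ar.comp hS hn (f := fun q : (Wd k × ℕ) × ℤ => (q.1.2, q.2))
      ((Primrec.snd.comp Primrec.fst).pair Primrec.snd)

end Pool.Agent.Work.MP_69fea5_lc.N3
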