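import Pool.Agent.Work.MP_69fea5_lc.N3.StmtsB

/-!
# Block [69fea5 N3], item ZCL: the zone of a blocked pair omits the colour `r`
-/

set_option autoImplicit false

namespace Pool.Agent.Work.MP_69fea5_lc.N3

open MeasureTheory Topology Set Filter ProbabilityTheory
open scoped NNReal ENNReal
open Pool.Agent.Work.MP_69fea5_lc.AK

namespace I_ZCL

/-- the set of the sequences with a given letter at a given place is open -/
theorem letter_open {k : ℕ} (x : ℤ) (r : Fin k) : IsOpen {z : Om k | z x = r} :=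
  (isOpen_discrete ({r} : Set (Fin k))).preimage (continuous_apply (A := fun _ : ℤ => Fin k) x)

/-- the sets `nxt` are open -/
theorem nxt_open (hC : AK.S_CYL) {k : ℕ} (P : W2 k) (r : Fin k) (x : ℤ) : IsOpen (nxt P r x) := by
  obtain ⟨hcl, -⟩ := hC k
  have h1 : IsOpen (bx P 0) := (hcl P.1 0).isOpen.prod (hcl P.2 0).isOpen
  have h2 : IsOpen {g : Om k × Om k | g.1 ∈ cyl P.2 x} :=
    (hcl P.2 x).isOpen.preimage continuous_fst
  have h3 : IsOpen {g : Om k × Om k | g.2 x = r} :=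
    (letter_open x r).preimage continuous_snd
  exact h1.inter (h2.inter h3)

end I_ZCL

/-- [ZCL] the zone of a blocked pair omits the colour `r` -/
theorem ZCL_pf (hC : AK.S_CYL) (hS : S_SP2) (hK : S_KPB) : S_ZCL := by
  intro k c M K _ _ _ _ e π hm μ η hF P r hB v hv hpos hvr
  obtain ⟨N, hN⟩ := hB
  obtain ⟨hcl, hsh, -⟩ := hC k
  have hprob : IsProbabilityMeasure (kap1 hm η 0) := ((hK k M K e π hm μ η hF.fr).1 0).1
  obtain ⟨-, -, hsup, -⟩ := hS k (kap1 hm η 0)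
  -- a point of the zone
  have hne : (sec3 (N0 c M e π hm η P) v ∩ bx P 0).Nonempty := by
    by_contra hcon
    rw [Set.not_nonempty_iff_eq_empty] at hcon
    rw [hcon, measureReal_empty] at hpos
    exact lt_irrefl _ hpos
  obtain ⟨p, hp1, hp2⟩ := hne
  have hq : (p.1, p.2, v) ∈ NN c M e π (fun _ => ()) () (kap1 hm η 0) P := hp1
  have hU : cyl P.1 0 ×ˢ (cyl P.2 0 ×ˢ {z : Om k | z 0 = r}) ∈ 𝓝 (p.1, p.2, v) :=
    prod_mem_nhds ((hcl P.1 0).isOpen.mem_nhds hp2.1)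
      (prod_mem_nhds ((hcl P.2 0).isOpen.mem_nhds hp2.2)
        ((I_ZCL.letter_open 0 r).mem_nhds hvr))
  obtain ⟨x, hNx, g, hg, hgU, -⟩ := hq.2 _ hU Set.univ Filter.univ_mem N
  obtain ⟨hc1, hg1, hg2⟩ := hgU
  have hc2 : c ∈ cyl P.1 (x : ℤ) := by
    have := (hsh P.1 0 (x : ℤ) c).1 hc1
    rwa [zero_add] at this
  have hg3 : g.1 ∈ cyl P.2 (x : ℤ) := by
    have := (hsh P.2 0 (x : ℤ) g.1).1 hg1
    rwa [zero_add] at this
  have hg4 : g.2 (x : ℤ) = r := by
    have h5 : (sh (x : ℤ) g.2 : Om k) 0 = r := hg2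
    have h6 : (sh (x : ℤ) g.2 : Om k) 0 = g.2 (0 + (x : ℤ)) := rfl
    rw [h6, zero_add] at h5
    exact h5
  have hmem : g ∈ nxt P r (x : ℤ) := ⟨hg.1, hg3, hg4⟩
  have h0 := hN x hNx hc2
  have h1 := (hsup g).1 hg.2 _ ((I_ZCL.nxt_open hC P r (x : ℤ)).mem_nhds hmem)
  rw [h0] at h1
  exact lt_irrefl _ h1

end Pool.Agent.Work.MP_69fea5_lc.N3
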