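import Pool.Agent.Work.MP_69fea5_lc.N3.StmtsB

/-!
# [69fea5 N3 ZNA] an empty zone: the first sections over `[P.1]` do not charge `[P.2] × M`
-/

set_option autoImplicit false

namespace Pool.Agent.Work.MP_69fea5_lc.N3

open MeasureTheory Topology Set Filter ProbabilityTheory
open scoped NNReal ENNReal
open Pool.Agent.Work.MP_69fea5_lc.AK

theorem ZNA_pf (hKPF : S_KPF) (hRKC : S_RKC) (hFUL : S_FUL) (hKPB : S_KPB) (hCYL : AK.S_CYL) :
    S_ZNA := by
  intro k M K _ _ _ _ e π hm μ η hF N hN P hz w₀ hw₀ hw₀P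
  obtain ⟨hprob, -, -, -, -⟩ := hKPB k M K e π hm μ η hF
  have hcyl : ∀ (w : Wd k) (n : ℤ), IsClopen (cyl w n) := (hCYL k).1
  have hi1 : ∀ a, IsFiniteMeasure (kap1 hm η a) := fun a => by
    have := (hprob a).1
    infer_instance
  have hi3 : ∀ a, IsFiniteMeasure (kap3 hm η a) := fun a => by
    have := (hprob a).2
    infer_instance
  set C : Set (Om k × Om k) := {g | g.1 ∈ cyl P.2 0} with hC
  have hCc : IsClopen C := (hcyl P.2 0).preimage continuous_fst
  set A : Set (Om k × Om k × Om k) := {q | q.1 ∈ cyl P.1 0 ∧ q.2.1 ∈ cyl P.2 0} with hA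
  have hAc : IsClopen A :=
    ((hcyl P.1 0).preimage (continuous_fst : Continuous fun q : Om k × Om k × Om k => q.1)).inter
      ((hcyl P.2 0).preimage
        (continuous_fst.comp continuous_snd : Continuous fun q : Om k × Om k × Om k => q.2.1))
  have hfub := hKPF k M K e π hm μ η hF N hN.closed A hAc
  have hR : ∫⁻ v in M, kap3 hm η (π v) (sec3 (N ∩ A) v) ∂(μ : Measure (Om k)) = 0 := by
    rw [← nonpos_iff_eq_zero, ← lintegral_zero (μ := (μ : Measure (Om k)).restrict M)]
    refine setLIntegral_mono' hF.min.closed.measurableSet ?_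
    intro v hv
    have h0 := hz v hv
    have hs : sec3 (N ∩ A) v = sec3 N v ∩ bx P 0 := by
      ext p
      simp only [sec3, hA, bx, mem_ofPred_eq, mem_inter_iff, mem_prod]
    rw [hs]
    have := hi3 (π v)
    rw [measureReal_eq_zero_iff] at h0
    exact h0.le
  by_contra hne
  set f : Om k → ℝ := fun w => (kap1 hm η (π w)).real (sec1 N w ∩ C) with hf
  have hfpos : 0 < f w₀ := lt_of_le_of_ne measureReal_nonneg (Ne.symm hne)
  have hcont : ContinuousOn f M := (hRKC k M K e π hm μ η hF N hN C hCc).1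
  have hev : ∀ᶠ w in 𝓝[M] w₀, f w₀ / 2 < f w :=
    (hcont w₀ hw₀).eventually (lt_mem_nhds (by linarith))
  obtain ⟨U, hUo, hwU, hU⟩ := mem_nhdsWithin.mp hev
  set V : Set (Om k) := U ∩ cyl P.1 0 with hV
  have hVo : IsOpen V := hUo.inter (hcyl P.1 0).isOpen
  have hVpos : 0 < μ V := hFUL k M K e π hm μ η hF V hVo ⟨w₀, ⟨hwU, hw₀P⟩, hw₀⟩
  have hMc : (μ : Measure (Om k)) Mᶜ = 0 := by
    rw [prob_compl_eq_zero_iff hF.min.closed.measurableSet]
    have := congrArg (fun a : ℝ≥0 => (a : ℝ≥0∞)) hF.one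
    simpa using this
  have hVM : 0 < (μ : Measure (Om k)) (M ∩ V) := by
    have h1 : (μ : Measure (Om k)) V ≤ (μ : Measure (Om k)) (M ∩ V) := by
      calc (μ : Measure (Om k)) V ≤ (μ : Measure (Om k)) ((M ∩ V) ∪ Mᶜ) := by
            refine measure_mono ?_
            intro x hx
            by_cases hxM : x ∈ M
            · exact Or.inl ⟨hxM, hx⟩
            · exact Or.inr hxM
        _ ≤ (μ : Measure (Om k)) (M ∩ V) + (μ : Measure (Om k)) Mᶜ := measure_union_le _ _
        _ = _ := by rw [hMc, add_zero]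
    have h2 : 0 < (μ : Measure (Om k)) V := by
      have : (0 : ℝ≥0∞) < ((μ V : ℝ≥0) : ℝ≥0∞) := by exact_mod_cast hVpos
      simpa using this
    exact lt_of_lt_of_le h2 h1
  have hge : ENNReal.ofReal (f w₀ / 2) * (μ : Measure (Om k)) (M ∩ V) ≤
      ∫⁻ w in M, kap1 hm η (π w) (sec1 (N ∩ A) w) ∂(μ : Measure (Om k)) := by
    calc ENNReal.ofReal (f w₀ / 2) * (μ : Measure (Om k)) (M ∩ V) =
          ∫⁻ _ in M ∩ V, ENNReal.ofReal (f w₀ / 2) ∂(μ : Measure (Om k)) := by
            rw [setLIntegral_const]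
      _ ≤ ∫⁻ w in M ∩ V, kap1 hm η (π w) (sec1 (N ∩ A) w) ∂(μ : Measure (Om k)) := by
            refine setLIntegral_mono' (hF.min.closed.measurableSet.inter hVo.measurableSet) ?_
            rintro w ⟨hwM, hwU', hwP⟩
            have h1 : f w₀ / 2 < f w := hU ⟨hwU', hwM⟩
            have hs : sec1 (N ∩ A) w = sec1 N w ∩ C := by
              ext p
              simp only [sec1, hA, hC, mem_ofPred_eq, mem_inter_iff]
              constructor
              · rintro ⟨ha, -, hb⟩
                exact ⟨ha, hb⟩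
              · rintro ⟨ha, hb⟩
                exact ⟨ha, hwP, hb⟩
            rw [hs]
            have := hi1 (π w)
            rw [ENNReal.ofReal_le_iff_le_toReal (measure_ne_top _ _)]
            exact h1.le
      _ ≤ _ := lintegral_mono_set inter_subset_left
  rw [hfub, hR, nonpos_iff_eq_zero, mul_eq_zero] at hge
  rcases hge with h | h
  · rw [ENNReal.ofReal_eq_zero] at h
    linarith
  · exact hVM.ne' h

end Pool.Agent.Work.MP_69fea5_lc.N3
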