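import Pool.Agent.Work.MP_69fea5_lc.N3.StmtsB

/-!
# Block [69fea5 N3], item ZNB: the second sections avoid the word
-/

set_option autoImplicit false

namespace Pool.Agent.Work.MP_69fea5_lc.N3

open MeasureTheory Topology Set Filter ProbabilityTheory
open scoped NNReal ENNReal
open Pool.Agent.Work.MP_69fea5_lc.AK

namespace I_ZNB

/-- comparison of two functions by their integrals over the closed sets -/
theorem ae_le_of_closed {K : Type} [NormedAddCommGroup K] [MeasurableSpace K] [BorelSpace K]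
    (hm : Measure K) [IsFiniteMeasure hm] (f g : K → ℝ≥0∞) (hf : Measurable f)
    (hf1 : ∀ t, f t ≤ 1)
    (h : ∀ C : Set K, IsClosed C → ∫⁻ t in C, f t ∂hm ≤ ∫⁻ t in C, g t ∂hm) :
    f ≤ᵐ[hm] g := by
  refine ae_le_of_forall_setLIntegral_le_of_sigmaFinite hf fun s hs _ => ?_
  have hfin : ∫⁻ t, f t ∂hm ≠ ⊤ := by
    refine ((lintegral_mono hf1).trans_lt ?_).ne
    rw [lintegral_one]
    exact measure_lt_top _ _
  have hν : IsFiniteMeasure (hm.withDensity f) := isFiniteMeasure_withDensity hfin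
  rw [← withDensity_apply _ hs, hs.measure_eq_iSup_isClosed_of_ne_top (measure_ne_top _ _)]
  refine iSup_le fun C => iSup_le fun hC => iSup_le fun hCc => ?_
  rw [withDensity_apply _ hCc.measurableSet]
  exact (h C hCc).trans (lintegral_mono_set hC)

end I_ZNB

open I_ZNB in
theorem ZNB_pf (h1 : S_ZOL) (h2 : S_KPE) (h3 : S_KPB) (h4 : S_RRB) (h5 : AK.S_CYL) : S_ZNB := by
  intro k M K _ _ _ _ e π hm μ η hF N hN P hTr hH
  have hprob := hF.prob
  have hhaar := hF.haar
  have hmk := hF.dis.markov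
  have hMc : IsClosed M := hF.min.closed
  have hπc : ContinuousOn π M := hF.kro.cont
  obtain ⟨hcl, hshc, -⟩ := h5 k
  have hcm : ∀ (w : Wd k) (n : ℤ), MeasurableSet (cyl w n) := fun w n => (hcl w n).isClosed.measurableSet
  obtain ⟨hKp, hK1, -, -, -⟩ := h3 k M K e π hm μ η hF
  obtain ⟨hRc, hRi, -⟩ := h4 k [(P.1, P.2)] []
  have hRm : ∀ w : Om k, MeasurableSet {u | (w, u) ∈ RR [(P.1, P.2)]} := fun w =>
    (hRc.preimage (Continuous.prodMk_right w)).measurableSet
  have hzol := h1 k M K e π hm μ η hF _ hRc hRi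
  have hM : ∀ᵐ w ∂(μ : Measure (Om k)), w ∈ M := by
    have h : (μ : Measure (Om k)) M = 1 := by
      have := hF.one
      rw [← ProbabilityMeasure.ennreal_coeFn_eq_coeFn_toMeasure, this]
      rfl
    rw [ae_iff]
    exact (prob_compl_eq_zero_iff hMc.measurableSet).2 h
  filter_upwards [hzol, hM] with w hw hwM hwP
  -- almost all first sections are in `R`
  have hnull : kap1 hm η (π w) (sec1 N w ∩ {g | (w, g.1) ∉ RR [(P.1, P.2)]}) = 0 := by
    have hsub : sec1 N w ∩ {g | (w, g.1) ∉ RR [(P.1, P.2)]} ⊆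
        ⋃ n : ℤ, sec1 N w ∩ {g | w ∈ cyl P.1 n ∧ g.1 ∈ cyl P.2 n} := by
      rintro g ⟨hg, hg2⟩
      have : ∃ n : ℤ, w ∈ cyl P.1 n ∧ g.1 ∈ cyl P.2 n := by
        by_contra hcon
        push Not at hcon
        apply hg2
        intro n q hq hq2
        rw [List.mem_singleton] at hq
        subst hq
        exact hcon n hq2.1 hq2.2
      obtain ⟨n, hn⟩ := this
      exact mem_iUnion.2 ⟨n, hg, hn⟩
    refine measure_mono_null hsub (measure_iUnion_null fun n => ?_)
    by_cases hn : w ∈ cyl P.1 n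
    · have hshM : sh n w ∈ M := hF.min.inv n w hwM
      have hπ : π (sh n w) = π w + n • e := hF.kro.equi w hwM n
      have hh := hH (sh n w) hshM ((hshc P.1 0 n w).2 (by simpa using hn))
      have hNm : MeasurableSet (sec1 N (sh n w)) :=
        (hN.closed.preimage (Continuous.prodMk_right (sh n w))).measurableSet
      have hSm : MeasurableSet (sec1 N (sh n w) ∩ {g : Om k × Om k | g.1 ∈ cyl P.2 0}) :=
        hNm.inter (measurable_fst (hcm P.2 0))
      have := hKp (π w + n • e)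
      have hp := this.1
      rw [hπ, measureReal_def, ENNReal.toReal_eq_zero_iff] at hh
      have hh' := hh.resolve_right (measure_ne_top _ _)
      rw [(h2 k M K e π hm μ η hF n (π w) _ hSm).1] at hh'
      refine measure_mono_null ?_ hh'
      rintro g ⟨hg, -, hg2⟩
      refine ⟨?_, ?_⟩
      · have := hN.inv n (w, g.1, g.2) hg
        exact this
      · show sh n g.1 ∈ cyl P.2 0
        exact (hshc P.2 0 n g.1).2 (by simpa using hg2)
    · have : sec1 N w ∩ {g | w ∈ cyl P.1 n ∧ g.1 ∈ cyl P.2 n} = ∅ := by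
        ext g
        simp [hn]
      rw [this, measure_empty]
  -- the comparison
  have hfib : ∀ᵐ t ∂hm, η (π w + t) {z | z ∈ M ∧ π z = π w + t}ᶜ = 0 :=
    (measurePreserving_add_left hm (π w)).quasiMeasurePreserving.ae hF.dis.fib
  have hcmp : (fun t => η t (cyl P.1 0) * η (t + t) (cyl P.2 0)) ≤ᵐ[hm]
      fun t => η (π w + t) {u | (w, u) ∈ RR [(P.1, P.2)]} := by
    have hmeas : Measurable fun t => η t (cyl P.1 0) * η (t + t) (cyl P.2 0) :=
      (Kernel.measurable_coe η (hcm P.1 0)).mul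
        ((Kernel.measurable_coe η (hcm P.2 0)).comp (continuous_id.add continuous_id).measurable)
    refine ae_le_of_closed hm _ _ hmeas (fun t => ?_) fun C hC => ?_
    · exact (mul_le_mul' prob_le_one prob_le_one).trans (one_mul _).le
    have hAc : IsClosed {x | x ∈ M ∧ π x ∈ C} := hπc.preimage_isClosed_of_isClosed hMc hC
    have hBc : IsClosed {x | x ∈ M ∧ π x - π w ∈ C} :=
      hπc.preimage_isClosed_of_isClosed hMc (hC.preimage (continuous_sub_right (π w)))
    have hT := hTr w hwM C hC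
    have hp0 := (hKp 0).1
    have hpw := (hKp (π w)).1
    rw [measureReal_def, measureReal_def,
      ENNReal.toReal_le_toReal (measure_ne_top _ _) (measure_ne_top _ _)] at hT
    have e1 : bx P 0 ∩ {g : Om k × Om k | g.1 ∈ M ∧ π g.1 ∈ C} =
        (cyl P.1 0 ∩ {x | x ∈ M ∧ π x ∈ C}) ×ˢ cyl P.2 0 := by
      ext g
      constructor
      · rintro ⟨⟨a, b⟩, c⟩
        exact ⟨⟨a, c⟩, b⟩
      · rintro ⟨⟨a, c⟩, b⟩
        exact ⟨⟨a, b⟩, c⟩
    have hAm : MeasurableSet (cyl P.1 0 ∩ {x | x ∈ M ∧ π x ∈ C}) :=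
      (hcm P.1 0).inter hAc.measurableSet
    rw [e1, hK1 0 _ (hAm.prod (hcm P.2 0))] at hT
    -- left side
    have hL : ∫⁻ t in C, η t (cyl P.1 0) * η (t + t) (cyl P.2 0) ∂hm ≤
        ∫⁻ t, ((η (0 + t)).prod (η (0 + t + t))) ((cyl P.1 0 ∩ {x | x ∈ M ∧ π x ∈ C}) ×ˢ
          cyl P.2 0) ∂hm := by
      rw [← lintegral_indicator hC.measurableSet]
      refine lintegral_mono_ae ?_
      filter_upwards [hF.dis.fib] with t ht
      by_cases htC : t ∈ C
      · rw [indicator_of_mem htC, zero_add, Measure.prod_prod]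
        refine mul_le_mul' ?_ le_rfl
        have hsub : cyl P.1 0 ⊆ (cyl P.1 0 ∩ {x | x ∈ M ∧ π x ∈ C}) ∪
            {z | z ∈ M ∧ π z = t}ᶜ := by
          intro x hx
          by_cases hx2 : x ∈ M ∧ π x = t
          · left
            exact ⟨hx, hx2.1, by rw [hx2.2]; exact htC⟩
          · right
            exact hx2
        refine (measure_mono hsub).trans ((measure_union_le _ _).trans ?_)
        rw [ht, add_zero]
      · rw [indicator_of_notMem htC]
        exact zero_le
    refine hL.trans (hT.trans ?_)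
    -- right side
    have hB3 : MeasurableSet ({u | (w, u) ∈ RR [(P.1, P.2)]} ∩ {x | x ∈ M ∧ π x - π w ∈ C}) :=
      (hRm w).inter hBc.measurableSet
    have hsub2 : sec1 N w ∩ {g : Om k × Om k | g.1 ∈ M ∧ π g.1 - π w ∈ C} ⊆
        (({u | (w, u) ∈ RR [(P.1, P.2)]} ∩ {x | x ∈ M ∧ π x - π w ∈ C}) ×ˢ univ) ∪
          (sec1 N w ∩ {g | (w, g.1) ∉ RR [(P.1, P.2)]}) := by
      rintro g ⟨hg, hg2⟩
      by_cases hg3 : (w, g.1) ∈ RR [(P.1, P.2)]
      · left
        exact ⟨⟨hg3, hg2⟩, trivial⟩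
      · right
        exact ⟨hg, hg3⟩
    refine (measure_mono hsub2).trans ((measure_union_le _ _).trans ?_)
    rw [hnull, add_zero, hK1 (π w) _ (hB3.prod MeasurableSet.univ),
      ← lintegral_indicator hC.measurableSet]
    refine lintegral_mono_ae ?_
    filter_upwards [hfib] with t ht
    rw [Measure.prod_prod, measure_univ, mul_one]
    by_cases htC : t ∈ C
    · rw [indicator_of_mem htC]
      exact measure_mono inter_subset_left
    · rw [indicator_of_notMem htC]
      refine (measure_mono_null ?_ ht).le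
      rintro u ⟨-, hu, hu2⟩ ⟨-, hu3⟩
      apply htC
      rw [hu3, add_sub_cancel_left] at hu2
      exact hu2
  have hw2 : ∀ᵐ t ∂hm, η (π w + t) {u | (w, u) ∈ RR [(P.1, P.2)]} = 0 ∨
      η (π w + t) {u | (w, u) ∈ RR [(P.1, P.2)]} = 1 :=
    (measurePreserving_add_left hm (π w)).quasiMeasurePreserving.ae hw
  filter_upwards [hcmp, hw2] with t ht1 ht2 ht3
  have hpos : η t (cyl P.1 0) * η (t + t) (cyl P.2 0) ≠ 0 := by
    intro h0
    rcases mul_eq_zero.1 h0 with h0 | h0 <;> simp [measureReal_def, h0] at ht3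
  have h1' : η (π w + t) {u | (w, u) ∈ RR [(P.1, P.2)]} = 1 := by
    rcases ht2 with h0 | h0
    · exact absurd (le_antisymm (ht1.trans h0.le) zero_le) hpos
    · exact h0
  have h0' : η (π w + t) {u | (w, u) ∈ RR [(P.1, P.2)]}ᶜ = 0 :=
    (prob_compl_eq_zero_iff (hRm w)).2 h1'
  rw [measureReal_def, ENNReal.toReal_eq_zero_iff]
  left
  refine measure_mono_null ?_ h0'
  intro u hu hu2
  exact hu2 0 (P.1, P.2) (List.mem_singleton.2 rfl) ⟨hwP, hu⟩

end Pool.Agent.Work.MP_69fea5_lc.N3
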