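import Pool.Agent.Work.MP_69fea5_lc.N3.StmtsB

/-!
Item ZNE: the zone is not empty.
-/

set_option autoImplicit false

namespace Pool.Agent.Work.MP_69fea5_lc.N3

open MeasureTheory Topology Set Filter ProbabilityTheory
open scoped NNReal ENNReal
open Pool.Agent.Work.MP_69fea5_lc.AK

theorem ZNE_pf (hZNA : S_ZNA) (hZNB : S_ZNB) (hZNC : S_ZNC) : S_ZNE := by
  intro k M K _ _ _ _ e π hm μ η hFr N hN P hTr hpos
  by_contra hne
  have h0 : ∀ v ∈ M, (kap3 hm η (π v)).real (sec3 N v ∩ bx P 0) = 0 := by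
    intro v hv
    by_contra h1
    exact hne ⟨v, hv, lt_of_le_of_ne measureReal_nonneg (Ne.symm h1)⟩
  have h1 := hZNA k M K e π hm μ η hFr N hN P h0
  have h2 := hZNB k M K e π hm μ η hFr N hN P hTr h1
  exact hZNC k M K e π hm μ η hFr P hpos h2

end Pool.Agent.Work.MP_69fea5_lc.N3
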