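import Pool.Agent.Work.MP_69fea5_lc.N3.StmtsB

/-!
Item ZNL: zones near the base point.
-/

set_option autoImplicit false

namespace Pool.Agent.Work.MP_69fea5_lc.N3

open MeasureTheory Topology Set Filter ProbabilityTheory
open scoped NNReal ENNReal
open Pool.Agent.Work.MP_69fea5_lc.AK

theorem ZNL_pf (hZNE : S_ZNE) (hLCF : S_LCF) (hN1R : S_N1R) (hKPB : S_KPB) : S_ZNL := by
  intro k c M K _ _ _ _ e π hm μ η hFc z hz W hW
  obtain ⟨W', hW', hloc⟩ := hLCF k c M K e π hm μ η hFc z hz W hW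
  refine ⟨W', hW', ?_⟩
  intro P hP1 hP2 hpos
  obtain ⟨hsub, _, hRel, hTr⟩ := hN1R k c M K e π hm μ η hFc z hz P
  obtain ⟨v, hv, hvpos⟩ := hZNE k M K e π hm μ η hFc.fr (N1 c M e π hm η z P) hRel P hTr hpos
  have hne : (sec3 (N1 c M e π hm η z P) v ∩ bx P 0).Nonempty := by
    rw [Set.nonempty_iff_ne_empty]
    intro h
    rw [h] at hvpos
    simp at hvpos
  obtain ⟨⟨w, u⟩, h1, h2⟩ := hne
  refine ⟨v, hv, hloc P hP1 hP2 w u v h1 h2, ?_⟩
  haveI : IsProbabilityMeasure (kap3 hm η (π v)) :=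
    ((hKPB k M K e π hm μ η hFc.fr).1 (π v)).2
  refine lt_of_lt_of_le hvpos (measureReal_mono ?_)
  intro p hp
  exact ⟨hsub hp.1, hp.2⟩

end Pool.Agent.Work.MP_69fea5_lc.N3
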