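import Pool.Agent.Work.MP_69fea5_lc.N3.StmtsB

/-!
# Block [69fea5 N3], item ZOL: the zero-one law for the sections over a position
-/

set_option autoImplicit false

namespace Pool.Agent.Work.MP_69fea5_lc.N3

open MeasureTheory Topology Set Filter ProbabilityTheory
open scoped NNReal ENNReal
open Pool.Agent.Work.MP_69fea5_lc.AK

namespace I_ZOL

variable {k : ℕ}

/-- zero-one law for one measure `ν` -/
theorem one (μ ν : Measure (Om k)) [IsProbabilityMeasure μ] [IsProbabilityMeasure ν]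
    (R : Set (Om k × Om k)) (hR : MeasurableSet R) (G : Set (Om k)) (hG : ν Gᶜ = 0)
    (h : ∀ u ∈ G, ∀ u' ∈ G, μ {w | (w, u) ∈ R ∧ (w, u') ∉ R} = 0) :
    ∀ᵐ w ∂μ, ν {u | (w, u) ∈ R} = 0 ∨ ν {u | (w, u) ∈ R} = 1 := by
  set S : Set (Om k × (Om k × Om k)) := {p | (p.1, p.2.1) ∈ R ∧ (p.1, p.2.2) ∉ R} with hS
  have hSm : MeasurableSet S := by
    have h1 : MeasurableSet {p : Om k × (Om k × Om k) | (p.1, p.2.1) ∈ R} :=
      (measurable_fst.prodMk (measurable_fst.comp measurable_snd)) hR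
    have h2 : MeasurableSet {p : Om k × (Om k × Om k) | (p.1, p.2.2) ∈ R} :=
      (measurable_fst.prodMk (measurable_snd.comp measurable_snd)) hR
    exact h1.inter h2.compl
  have hae : ∀ᵐ u ∂ν, u ∈ G := by
    rw [ae_iff]
    exact hG
  have h1 : ∀ᵐ p ∂(ν.prod ν), p.1 ∈ G := Measure.quasiMeasurePreserving_fst.ae hae
  have h2 : ∀ᵐ p ∂(ν.prod ν), p.2 ∈ G := Measure.quasiMeasurePreserving_snd.ae hae
  have h0 : (μ.prod (ν.prod ν)) S = 0 := by
    rw [Measure.prod_apply_symm hSm]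
    rw [lintegral_eq_zero_iff (measurable_measure_prodMk_right hSm)]
    filter_upwards [h1, h2] with p hp1 hp2
    exact h p.1 hp1 p.2 hp2
  rw [Measure.measure_prod_null hSm] at h0
  filter_upwards [h0] with w hw
  have hA : MeasurableSet {u | (w, u) ∈ R} := measurable_prodMk_left hR
  have e : Prod.mk w ⁻¹' S = {u | (w, u) ∈ R} ×ˢ {u | (w, u) ∈ R}ᶜ := by
    ext p
    simp [hS]
  have hw' : (ν.prod ν) (Prod.mk w ⁻¹' S) = 0 := hw
  rw [e, Measure.prod_prod, mul_eq_zero] at hw'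
  rcases hw' with hw' | hw'
  · exact Or.inl hw'
  · right
    rw [prob_compl_eq_zero_iff hA] at hw'
    exact hw'

end I_ZOL

open I_ZOL in
theorem ZOL_pf (hRUN : S_RUN) : S_ZOL := by
  intro k M K _ _ _ _ e π hm μ η hF R hR hI
  have := hF.prob
  have := hF.dis.markov
  have hRm : MeasurableSet R := hR.measurableSet
  have hq : Measurable fun p : Om k × K => η p.2 {u | (p.1, u) ∈ R} := by
    have hS2 : MeasurableSet {q : (Om k × K) × Om k | (q.1.1, q.2) ∈ R} :=
      ((measurable_fst.comp measurable_fst).prodMk measurable_snd) hRm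
    have h3 := Kernel.measurable_kernel_prodMk_left
      (κ := η.comap (Prod.snd : Om k × K → K) measurable_snd) hS2
    exact h3
  have hset : MeasurableSet {p : Om k × K |
      η p.2 {u | (p.1, u) ∈ R} = 0 ∨ η p.2 {u | (p.1, u) ∈ R} = 1} :=
    (hq (measurableSet_singleton 0)).union (hq (measurableSet_singleton 1))
  rw [Measure.ae_ae_comm (p := fun (w : Om k) (s : K) =>
    η s {u | (w, u) ∈ R} = 0 ∨ η s {u | (w, u) ∈ R} = 1) hset]
  filter_upwards [hF.dis.fib] with s hs
  refine one (μ : Measure (Om k)) (η s) R hRm _ hs ?_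
  intro u hu u' hu'
  have h := hRUN k M K e π hm μ η hF R hR hI u hu.1 u' hu'.1 (hu.2.trans hu'.2.symm)
  rwa [ProbabilityMeasure.null_iff_toMeasure_null] at h

end Pool.Agent.Work.MP_69fea5_lc.N3
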