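import Pool.Agent.Work.MP_69fea5_lc.AK.I_AAB
import Pool.Agent.Work.MP_69fea5_lc.AK.I_APX
import Pool.Agent.Work.MP_69fea5_lc.AK.I_CLP
import Pool.Agent.Work.MP_69fea5_lc.AK.I_CST
import Pool.Agent.Work.MP_69fea5_lc.AK.I_CYL
import Pool.Agent.Work.MP_69fea5_lc.AK.I_DNS82
import Pool.Agent.Work.MP_69fea5_lc.AK.I_ENG
import Pool.Agent.Work.MP_69fea5_lc.AK.I_GL
import Pool.Agent.Work.MP_69fea5_lc.AK.I_GLM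
import Pool.Agent.Work.MP_69fea5_lc.AK.I_GLO
import Pool.Agent.Work.MP_69fea5_lc.AK.I_GLX
import Pool.Agent.Work.MP_69fea5_lc.AK.I_IMG
import Pool.Agent.Work.MP_69fea5_lc.AK.I_KB
import Pool.Agent.Work.MP_69fea5_lc.AK.I_MMB
import Pool.Agent.Work.MP_69fea5_lc.AK.I_OMG
import Pool.Agent.Work.MP_69fea5_lc.AK.I_ORB
import Pool.Agent.Work.MP_69fea5_lc.AK.I_PMB
import Pool.Agent.Work.MP_69fea5_lc.AK.I_PRX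
import Pool.Agent.Work.MP_69fea5_lc.AK.I_STG
import Pool.Agent.Work.MP_69fea5_lc.AK.I_SUP
import Pool.Agent.Work.MP_69fea5_lc.AK.I_USC
import Pool.Agent.Work.MP_69fea5_lc.AK.I_ZORN
import Pool.Agent.Work.MP_69fea5_lc.AK.I_ZS1
import Pool.Agent.Work.MP_69fea5_lc.KC.I_CON
import Pool.Agent.Work.MP_69fea5_lc.KC.I_CONF
import Pool.Agent.Work.MP_69fea5_lc.KC.I_CYSC
import Pool.Agent.Work.MP_69fea5_lc.KC.I_FFSC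
import Pool.Agent.Work.MP_69fea5_lc.KC.I_KAA
import Pool.Agent.Work.MP_69fea5_lc.KC.I_KZS
import Pool.Agent.Work.MP_69fea5_lc.KC.I_LAWCPM
import Pool.Agent.Work.MP_69fea5_lc.KC.I_LAWCU
import Pool.Agent.Work.MP_69fea5_lc.KC.I_LAWPM
import Pool.Agent.Work.MP_69fea5_lc.KC.I_MXSC
import Pool.Agent.Work.MP_69fea5_lc.KC.I_OPT
import Pool.Agent.Work.MP_69fea5_lc.KC.I_ZEX
import Pool.Agent.Work.MP_69fea5_lc.KC.I_ZLIM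
import Pool.Agent.Work.MP_69fea5_lc.N3.I_AD3
import Pool.Agent.Work.MP_69fea5_lc.N3.I_AVG
import Pool.Agent.Work.MP_69fea5_lc.N3.I_BAV
import Pool.Agent.Work.MP_69fea5_lc.N3.I_BOX
import Pool.Agent.Work.MP_69fea5_lc.N3.I_BXC47
import Pool.Agent.Work.MP_69fea5_lc.N3.I_CHG
import Pool.Agent.Work.MP_69fea5_lc.N3.I_CHN
import Pool.Agent.Work.MP_69fea5_lc.N3.I_CI3
import Pool.Agent.Work.MP_69fea5_lc.N3.I_CL2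
import Pool.Agent.Work.MP_69fea5_lc.N3.I_CLR
import Pool.Agent.Work.MP_69fea5_lc.N3.I_DBL
import Pool.Agent.Work.MP_69fea5_lc.N3.I_DIC
import Pool.Agent.Work.MP_69fea5_lc.N3.I_DIS
import Pool.Agent.Work.MP_69fea5_lc.N3.I_DIV
import Pool.Agent.Work.MP_69fea5_lc.N3.I_DKB47
import Pool.Agent.Work.MP_69fea5_lc.N3.I_DKU
import Pool.Agent.Work.MP_69fea5_lc.N3.I_EPC
import Pool.Agent.Work.MP_69fea5_lc.N3.I_FRM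
import Pool.Agent.Work.MP_69fea5_lc.N3.I_FUL
import Pool.Agent.Work.MP_69fea5_lc.N3.I_GCA
import Pool.Agent.Work.MP_69fea5_lc.N3.I_GDA
import Pool.Agent.Work.MP_69fea5_lc.N3.I_GDB
import Pool.Agent.Work.MP_69fea5_lc.N3.I_GDT
import Pool.Agent.Work.MP_69fea5_lc.N3.I_GSL
import Pool.Agent.Work.MP_69fea5_lc.N3.I_HAC
import Pool.Agent.Work.MP_69fea5_lc.N3.I_HBC
import Pool.Agent.Work.MP_69fea5_lc.N3.I_HHC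
import Pool.Agent.Work.MP_69fea5_lc.N3.I_HHD
import Pool.Agent.Work.MP_69fea5_lc.N3.I_HHI
import Pool.Agent.Work.MP_69fea5_lc.N3.I_HHK
import Pool.Agent.Work.MP_69fea5_lc.N3.I_HHM
import Pool.Agent.Work.MP_69fea5_lc.N3.I_HLF
import Pool.Agent.Work.MP_69fea5_lc.N3.I_HUN
import Pool.Agent.Work.MP_69fea5_lc.N3.I_IIB
import Pool.Agent.Work.MP_69fea5_lc.N3.I_IKB
import Pool.Agent.Work.MP_69fea5_lc.N3.I_JNT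
import Pool.Agent.Work.MP_69fea5_lc.N3.I_K3S
import Pool.Agent.Work.MP_69fea5_lc.N3.I_KCP
import Pool.Agent.Work.MP_69fea5_lc.N3.I_KGR
import Pool.Agent.Work.MP_69fea5_lc.N3.I_KMI
import Pool.Agent.Work.MP_69fea5_lc.N3.I_KMZ
import Pool.Agent.Work.MP_69fea5_lc.N3.I_KNU
import Pool.Agent.Work.MP_69fea5_lc.N3.I_KPB
import Pool.Agent.Work.MP_69fea5_lc.N3.I_KPC
import Pool.Agent.Work.MP_69fea5_lc.N3.I_KPE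
import Pool.Agent.Work.MP_69fea5_lc.N3.I_KPF
import Pool.Agent.Work.MP_69fea5_lc.N3.I_KPS
import Pool.Agent.Work.MP_69fea5_lc.N3.I_KRO47
import Pool.Agent.Work.MP_69fea5_lc.N3.I_KZ0
import Pool.Agent.Work.MP_69fea5_lc.N3.I_LCF
import Pool.Agent.Work.MP_69fea5_lc.N3.I_LCN
import Pool.Agent.Work.MP_69fea5_lc.N3.I_LOC
import Pool.Agent.Work.MP_69fea5_lc.N3.I_MTC
import Pool.Agent.Work.MP_69fea5_lc.N3.I_MU3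
import Pool.Agent.Work.MP_69fea5_lc.N3.I_MUI
import Pool.Agent.Work.MP_69fea5_lc.N3.I_MW2
import Pool.Agent.Work.MP_69fea5_lc.N3.I_N1R
import Pool.Agent.Work.MP_69fea5_lc.N3.I_NBX
import Pool.Agent.Work.MP_69fea5_lc.N3.I_NNR
import Pool.Agent.Work.MP_69fea5_lc.N3.I_NUC
import Pool.Agent.Work.MP_69fea5_lc.N3.I_NUL
import Pool.Agent.Work.MP_69fea5_lc.N3.I_PIK
import Pool.Agent.Work.MP_69fea5_lc.N3.I_POS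
import Pool.Agent.Work.MP_69fea5_lc.N3.I_PSM
import Pool.Agent.Work.MP_69fea5_lc.N3.I_PUR
import Pool.Agent.Work.MP_69fea5_lc.N3.I_RCT
import Pool.Agent.Work.MP_69fea5_lc.N3.I_RHC
import Pool.Agent.Work.MP_69fea5_lc.N3.I_RKC
import Pool.Agent.Work.MP_69fea5_lc.N3.I_RKD
import Pool.Agent.Work.MP_69fea5_lc.N3.I_RKN
import Pool.Agent.Work.MP_69fea5_lc.N3.I_RKZ
import Pool.Agent.Work.MP_69fea5_lc.N3.I_RMC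
import Pool.Agent.Work.MP_69fea5_lc.N3.I_RRB
import Pool.Agent.Work.MP_69fea5_lc.N3.I_RSC
import Pool.Agent.Work.MP_69fea5_lc.N3.I_RUN
import Pool.Agent.Work.MP_69fea5_lc.N3.I_SE3
import Pool.Agent.Work.MP_69fea5_lc.N3.I_SMC
import Pool.Agent.Work.MP_69fea5_lc.N3.I_SP2
import Pool.Agent.Work.MP_69fea5_lc.N3.I_STC
import Pool.Agent.Work.MP_69fea5_lc.N3.I_T3C
import Pool.Agent.Work.MP_69fea5_lc.N3.I_TH3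
import Pool.Agent.Work.MP_69fea5_lc.N3.I_TRC
import Pool.Agent.Work.MP_69fea5_lc.N3.I_TRN
import Pool.Agent.Work.MP_69fea5_lc.N3.I_URB
import Pool.Agent.Work.MP_69fea5_lc.N3.I_WWC
import Pool.Agent.Work.MP_69fea5_lc.N3.I_WWP
import Pool.Agent.Work.MP_69fea5_lc.N3.I_ZCL
import Pool.Agent.Work.MP_69fea5_lc.N3.I_ZNA
import Pool.Agent.Work.MP_69fea5_lc.N3.I_ZNB
import Pool.Agent.Work.MP_69fea5_lc.N3.I_ZNC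
import Pool.Agent.Work.MP_69fea5_lc.N3.I_ZNE
import Pool.Agent.Work.MP_69fea5_lc.N3.I_ZNL
import Pool.Agent.Work.MP_69fea5_lc.N3.I_ZOL

/-!
Block [69fea5 N3]: assembly (generated).
-/

set_option autoImplicit false

namespace Pool.Agent.Work.MP_69fea5_lc

theorem N3.main : N3.S_MN3 := by
  have h_KC_S_EXTC : KC.S_EXTC := KC.EXTC_pf 
  have h_N3_S_URB : N3.S_URB := N3.URB_pf 
  have h_AK_S_ORB : AK.S_ORB := AK.ORB_pf 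
  have h_AK_S_CYL : AK.S_CYL := AK.CYL_pf 
  have h_AK_S_PMB : AK.S_PMB := AK.PMB_pf h_AK_S_CYL
  have h_AK_S_CLP : AK.S_CLP := AK.CLP_pf h_AK_S_CYL
  have h_AK_S_USC : AK.S_USC := AK.USC_pf h_AK_S_PMB h_AK_S_CLP
  have h_AK_S_KB : AK.S_KB := AK.KB_pf h_AK_S_ORB h_AK_S_CYL h_AK_S_PMB h_AK_S_USC
  have h_KC_S_MXSC : KC.S_MXSC := KC.MXSC_pf 
  have h_N3_S_KMI : N3.S_KMI := N3.KMI_pf h_AK_S_KB h_KC_S_MXSC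
  have h_N3_S_RRB : N3.S_RRB := N3.RRB_pf h_AK_S_CYL
  have h_AK_S_CST : AK.S_CST := AK.CST_pf 
  have h_N3_S_RMC : N3.S_RMC := N3.RMC_pf h_AK_S_USC h_AK_S_CST h_AK_S_PMB
  have h_N3_S_RHC : N3.S_RHC := N3.RHC_pf h_AK_S_USC h_N3_S_RMC h_AK_S_PMB
  have h_N3_S_DKB : N3.S_DKB := N3.DKB47_pf h_N3_S_RRB h_N3_S_RHC
  have h_N3_S_NBX : N3.S_NBX := N3.NBX_pf h_AK_S_CYL
  have h_N3_S_CLR : N3.S_CLR := N3.CLR_pf h_N3_S_RRB h_AK_S_CYL h_N3_S_NBX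
  have h_AK_S_SUP : AK.S_SUP := AK.SUP_pf h_AK_S_CYL h_AK_S_PMB
  have h_N3_S_DKU : N3.S_DKU := N3.DKU_pf h_N3_S_CLR h_N3_S_RMC h_N3_S_DKB h_AK_S_SUP
  have h_N3_S_KCP : N3.S_KCP := N3.KCP_pf 
  have h_N3_S_KRO : N3.S_KRO := N3.KRO47_pf h_N3_S_DKB h_N3_S_DKU h_N3_S_KCP
  have h_KC_S_CON : KC.S_CON := KC.CON_pf 
  have h_KC_S_CONF : KC.S_CONF := KC.CONF_pf 
  have h_N3_S_RSC : N3.S_RSC := N3.RSC_pf h_KC_S_CON h_KC_S_CONF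
  have h_N3_S_EPC : N3.S_EPC := N3.EPC_pf h_N3_S_RSC
  have h_N3_S_PIK : N3.S_PIK := N3.PIK_pf 
  have h_N3_S_KZ0 : N3.S_KZ0 := N3.KZ0_pf 
  have h_N3_S_IKB : N3.S_IKB := N3.IKB_pf 
  have h_AK_S_IMG : AK.S_IMG := AK.IMG_pf 
  have h_AK_S_OMG : AK.S_OMG := AK.OMG_pf 
  have h_N3_S_KGR : N3.S_KGR := N3.KGR_pf h_AK_S_ORB h_AK_S_IMG h_AK_S_OMG h_N3_S_IKB
  have h_AK_S_ENG : AK.S_ENG := AK.ENG_pf h_AK_S_CYL h_AK_S_PMB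
  have h_KC_S_OPT : KC.S_OPT := KC.OPT_pf h_AK_S_ENG
  have h_KC_S_CYSC : KC.S_CYSC := KC.CYSC_pf h_KC_S_CON h_KC_S_CONF
  have h_KC_S_FFSC : KC.S_FFSC := KC.FFSC_pf h_KC_S_CYSC
  have h_AK_S_AAB : AK.S_AAB := AK.AAB_pf h_AK_S_PMB h_AK_S_USC h_AK_S_ENG
  have h_AK_S_DNS : AK.S_DNS := AK.DNS_pf82 h_AK_S_CYL h_AK_S_PMB h_AK_S_SUP
  have h_AK_S_APX : AK.S_APX := AK.APX_pf h_AK_S_ORB h_AK_S_PMB h_AK_S_CLP h_AK_S_SUP h_AK_S_ENG h_AK_S_AAB h_AK_S_DNS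
  have h_HK_S_LAWCPM : HK.S_LAWCPM := KC.LAWCPM_pf 
  have h_KC_S_LAWCU : KC.S_LAWCU := KC.LAWCU_pf 
  have h_KC_S_LAWCCU : KC.S_LAWCCU := KC.LAWCCU_pf 
  have h_KC_S_KAA : KC.S_KAA := KC.KAA_pf h_KC_S_OPT h_KC_S_MXSC h_KC_S_FFSC h_AK_S_APX h_HK_S_LAWCPM h_KC_S_LAWCU h_KC_S_LAWCCU
  have h_N3_S_KMZ : N3.S_KMZ := N3.KMZ_pf h_KC_S_KAA h_AK_S_ORB h_AK_S_IMG h_AK_S_AAB
  have h_N3_S_MUI : N3.S_MUI := N3.MUI_pf h_AK_S_ORB h_AK_S_PMB h_AK_S_USC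
  have h_N3_S_HUN : N3.S_HUN := N3.HUN_pf 
  have h_N3_S_DIS : N3.S_DIS := N3.DIS_pf h_N3_S_HUN
  have h_N3_S_DIV : N3.S_DIV := N3.DIV_pf 
  have h_N3_S_AVG : N3.S_AVG := N3.AVG_pf 
  have h_N3_S_DBL : N3.S_DBL := N3.DBL_pf 
  have h_N3_S_KPB : N3.S_KPB := N3.KPB_pf h_N3_S_DBL
  have h_N3_S_NUL : N3.S_NUL := N3.NUL_pf h_N3_S_KPB
  have h_N3_S_NUC : N3.S_NUC := N3.NUC_pf h_N3_S_DIV h_N3_S_AVG h_N3_S_NUL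
  have h_N3_S_FRM : N3.S_FRM := N3.FRM_pf h_N3_S_URB h_N3_S_KMI h_N3_S_KRO h_N3_S_EPC h_N3_S_PIK h_N3_S_KZ0 h_N3_S_IKB h_N3_S_KGR h_N3_S_KMZ h_N3_S_MUI h_N3_S_DIS h_N3_S_NUC
  have h_AK_S_PRX : AK.S_PRX := AK.PRX_pf h_AK_S_ENG
  have h_AK_S_ZORN : AK.S_ZORN := AK.ZORN_pf 
  have h_AK_S_GLX : AK.S_GLX := AK.GLX_pf h_AK_S_ZORN h_AK_S_IMG
  have h_AK_S_MMB : AK.S_MMB := AK.MMB_pf 
  have h_AK_S_GL : AK.S_GL := AK.GL_pf h_AK_S_CST h_AK_S_CYL h_AK_S_PMB h_AK_S_USC h_AK_S_CLP h_AK_S_ENG h_AK_S_AAB h_AK_S_PRX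
  have h_AK_S_GLM : AK.S_GLM := AK.GLM_pf h_AK_S_IMG h_AK_S_SUP h_AK_S_MMB h_AK_S_GL
  have h_AK_S_GLO : AK.S_GLO := AK.GLO_pf h_AK_S_OMG h_AK_S_ENG h_AK_S_PRX h_AK_S_GLX h_AK_S_GLM
  have h_N3_S_SMC : N3.S_SMC := N3.SMC_pf h_AK_S_ORB h_AK_S_ENG h_AK_S_AAB h_AK_S_PRX h_AK_S_GLX h_AK_S_GLM h_AK_S_GLO h_N3_S_IKB
  have h_N3_S_BAV : N3.S_BAV := N3.BAV_pf 
  have h_N3_S_SP2 : N3.S_SP2 := N3.SP2_pf h_N3_S_NBX h_AK_S_CYL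
  have h_N3_S_GCA : N3.S_GCA := N3.GCA_pf h_AK_S_CYL h_N3_S_NBX h_N3_S_SP2 h_N3_S_KPB
  have h_N3_S_CI3 : N3.S_CI3 := N3.CI3_pf h_KC_S_CON h_KC_S_CONF
  have h_AK_S_STG : AK.S_STG := AK.STG_pf h_AK_S_ORB h_AK_S_OMG h_AK_S_IMG h_AK_S_PMB h_AK_S_USC h_AK_S_SUP h_AK_S_MMB
  have h_AK_S_ZS1 : AK.S_ZS1 := AK.ZS1_pf h_AK_S_CYL h_AK_S_PMB h_AK_S_SUP h_AK_S_MMB h_AK_S_STG
  have h_HK_S_LAWPM : HK.S_LAWPM := KC.LAWPM_pf 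
  have h_KC_S_ZEX : KC.S_ZEX := KC.ZEX_pf h_HK_S_LAWPM
  have h_KC_S_ZLIM : KC.S_ZLIM := KC.ZLIM_pf h_HK_S_LAWPM h_AK_S_SUP
  have h_KC_S_KZS : KC.S_KZS := KC.KZS_pf h_KC_S_ZEX h_KC_S_ZLIM h_HK_S_LAWCPM
  have h_N3_S_CL2 : N3.S_CL2 := N3.CL2_pf 
  have h_N3_S_RCT : N3.S_RCT := N3.RCT_pf h_AK_S_CYL
  have h_N3_S_TRC : N3.S_TRC := N3.TRC_pf 
  have h_N3_S_KPC : N3.S_KPC := N3.KPC_pf h_N3_S_RCT h_N3_S_TRC h_N3_S_KPB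
  have h_N3_S_KPE : N3.S_KPE := N3.KPE_pf h_N3_S_KPB h_N3_S_DBL
  have h_N3_S_KPF : N3.S_KPF := N3.KPF_pf h_N3_S_KPB
  have h_N3_S_RKN : N3.S_RKN := N3.RKN_pf h_AK_S_CST h_N3_S_CL2 h_N3_S_KPB h_N3_S_KPC h_N3_S_KPE h_N3_S_KPF
  have h_N3_S_RKD : N3.S_RKD := N3.RKD_pf h_N3_S_CL2 h_N3_S_KPB h_N3_S_KPC h_N3_S_KPE h_N3_S_RKN
  have h_N3_S_KPS : N3.S_KPS := N3.KPS_pf h_N3_S_DBL h_N3_S_KPB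
  have h_N3_S_POS : N3.S_POS := N3.POS_pf h_N3_S_KPB h_N3_S_KPS h_N3_S_SP2
  have h_N3_S_NNR : N3.S_NNR := N3.NNR_pf h_N3_S_IKB h_N3_S_POS
  have h_N3_S_RKC : N3.S_RKC := N3.RKC_pf h_N3_S_RKN h_N3_S_KPC h_N3_S_CL2 h_N3_S_KPB
  have h_N3_S_RKZ : N3.S_RKZ := N3.RKZ_pf h_N3_S_RCT h_N3_S_NBX h_N3_S_CL2 h_N3_S_KPB
  have h_N3_S_TH3 : N3.S_TH3 := N3.TH3_pf h_N3_S_NNR h_N3_S_RKC h_N3_S_RKD h_N3_S_RKZ h_N3_S_KPE h_N3_S_KPB h_N3_S_IKB h_N3_S_NBX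
  have h_N3_S_MTC : N3.S_MTC := N3.MTC_pf h_N3_S_RKD h_N3_S_TH3 h_N3_S_NNR h_N3_S_POS h_AK_S_SUP h_AK_S_MMB h_AK_S_IMG h_AK_S_ORB h_AK_S_OMG
  have h_N3_S_WWP : N3.S_WWP := N3.WWP_pf h_N3_S_TH3 h_AK_S_ORB h_AK_S_CYL
  have h_N3_S_FUL : N3.S_FUL := N3.FUL_pf h_AK_S_PMB
  have h_N3_S_ZNA : N3.S_ZNA := N3.ZNA_pf h_N3_S_KPF h_N3_S_RKC h_N3_S_FUL h_N3_S_KPB h_AK_S_CYL
  have h_N3_S_RUN : N3.S_RUN := N3.RUN_pf h_N3_S_RHC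
  have h_N3_S_ZOL : N3.S_ZOL := N3.ZOL_pf h_N3_S_RUN
  have h_N3_S_ZNB : N3.S_ZNB := N3.ZNB_pf h_N3_S_ZOL h_N3_S_KPE h_N3_S_KPB h_N3_S_RRB h_AK_S_CYL
  have h_N3_S_ZNC : N3.S_ZNC := N3.ZNC_pf h_N3_S_TRC h_N3_S_KPB h_AK_S_CYL
  have h_N3_S_ZNE : N3.S_ZNE := N3.ZNE_pf h_N3_S_ZNA h_N3_S_ZNB h_N3_S_ZNC
  have h_N3_S_HLF : N3.S_HLF := N3.HLF_pf 
  have h_N3_S_HHM : N3.S_HHM := N3.HHM_pf h_N3_S_KPB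
  have h_N3_S_HHK : N3.S_HHK := N3.HHK_pf h_N3_S_RCT h_N3_S_TRC
  have h_N3_S_HHC : N3.S_HHC := N3.HHC_pf h_N3_S_HHM h_N3_S_HHK h_N3_S_RKN h_N3_S_CL2 h_N3_S_KPC h_N3_S_KPB
  have h_N3_S_HHI : N3.S_HHI := N3.HHI_pf h_N3_S_HHM h_N3_S_DBL
  have h_N3_S_LCN : N3.S_LCN := N3.LCN_pf h_N3_S_TH3 h_N3_S_NNR h_N3_S_HLF h_N3_S_HHC h_N3_S_HHI h_N3_S_IKB h_N3_S_POS
  have h_N3_S_BOX : N3.S_BOX := N3.BOX_pf 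
  have h_N3_S_HHD : N3.S_HHD := N3.HHD_pf h_N3_S_BOX h_N3_S_HHC h_N3_S_HHI h_N3_S_KPB h_AK_S_CST
  have h_N3_S_LOC : N3.S_LOC := N3.LOC_pf h_N3_S_HLF h_N3_S_RKD h_N3_S_HHC h_N3_S_HHI h_N3_S_HHD
  have h_N3_S_LCF : N3.S_LCF := N3.LCF_pf h_N3_S_LCN h_N3_S_LOC h_N3_S_TH3 h_N3_S_NNR h_N3_S_IKB
  have h_N3_S_TRN : N3.S_TRN := N3.TRN_pf h_N3_S_IKB h_N3_S_POS h_N3_S_NNR h_N3_S_CL2 h_N3_S_KPB h_N3_S_KPE h_N3_S_KPC h_N3_S_SP2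
  have h_N3_S_N1R : N3.S_N1R := N3.N1R_pf h_N3_S_NNR h_N3_S_TRN h_N3_S_TH3
  have h_N3_S_ZNL : N3.S_ZNL := N3.ZNL_pf h_N3_S_ZNE h_N3_S_LCF h_N3_S_N1R h_N3_S_KPB
  have h_N3_S_ZCL : N3.S_ZCL := N3.ZCL_pf h_AK_S_CYL h_N3_S_SP2 h_N3_S_KPB
  have h_N3_S_GDT : N3.S_GDT := N3.GDT_pf 
  have h_N3_S_GDA : N3.S_GDA := N3.GDA_pf h_N3_S_ZCL h_N3_S_TH3 h_N3_S_GDT
  have h_N3_S_JNT : N3.S_JNT := N3.JNT_pf h_AK_S_CYL h_AK_S_PMB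
  have h_N3_S_CHG : N3.S_CHG := N3.CHG_pf h_AK_S_USC h_AK_S_CST h_AK_S_PMB h_AK_S_SUP h_AK_S_MMB h_N3_S_RKD h_N3_S_POS h_N3_S_NNR h_N3_S_TH3
  have h_N3_S_CHN : N3.S_CHN := N3.CHN_pf h_AK_S_USC h_N3_S_CHG h_N3_S_POS h_N3_S_TH3
  have h_N3_S_PSM : N3.S_PSM := N3.PSM_pf h_AK_S_CYL h_AK_S_PMB h_AK_S_SUP h_AK_S_MMB h_N3_S_POS h_N3_S_CHN h_N3_S_JNT
  have h_N3_S_KNU : N3.S_KNU := N3.KNU_pf h_N3_S_HUN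
  have h_N3_S_PUR : N3.S_PUR := N3.PUR_pf h_AK_S_CYL h_AK_S_PMB h_AK_S_USC h_AK_S_STG h_N3_S_DBL h_N3_S_KPB h_N3_S_JNT h_N3_S_PSM h_N3_S_KNU
  have h_N3_S_IIB : N3.S_IIB := N3.IIB_pf h_N3_S_PUR h_AK_S_USC h_AK_S_CYL h_AK_S_PMB h_AK_S_STG
  have h_N3_S_GDB : N3.S_GDB := N3.GDB_pf h_N3_S_GDT h_N3_S_MTC h_N3_S_WWP h_N3_S_TH3 h_AK_S_PMB h_AK_S_CYL h_AK_S_SUP h_AK_S_STG
  have h_N3_S_DIC : N3.S_DIC := N3.DIC_pf h_N3_S_KPB h_N3_S_WWP h_N3_S_ZNL h_N3_S_GDA h_N3_S_IIB h_N3_S_MTC h_N3_S_GDB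
  have h_N3_S_K3S : N3.S_K3S := N3.K3S_pf 
  have h_N3_S_SE3 : N3.S_SE3 := N3.SE3_pf h_N3_S_K3S h_N3_S_IKB h_N3_S_POS h_N3_S_SP2 h_N3_S_NBX h_N3_S_KPB
  have h_N3_S_MW2 : N3.S_MW2 := N3.MW2_pf 
  have h_N3_S_BXC : N3.S_BXC := N3.BXC47_pf h_KC_S_CON
  have h_N3_S_AD3 : N3.S_AD3 := N3.AD3_pf h_N3_S_BXC h_KC_S_CONF
  have h_N3_S_T3C : N3.S_T3C := N3.T3C_pf h_N3_S_SE3 h_N3_S_MW2 h_N3_S_AD3 h_N3_S_BXC h_KC_S_CONF h_N3_S_TH3 h_N3_S_KPB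
  have h_N3_S_STC : N3.S_STC := N3.STC_pf h_N3_S_BXC h_KC_S_CONF
  have h_N3_S_HAC : N3.S_HAC := N3.HAC_pf h_N3_S_STC
  have h_N3_S_WWC : N3.S_WWC := N3.WWC_pf 
  have h_N3_S_HBC : N3.S_HBC := N3.HBC_pf h_N3_S_WWC h_KC_S_CYSC
  have h_N3_S_GSL : N3.S_GSL := N3.GSL_pf 
  have h_N3_S_MU3 : N3.S_MU3 := N3.MU3_pf h_KC_S_EXTC h_N3_S_FRM h_N3_S_KPB h_N3_S_SMC h_N3_S_BAV h_N3_S_GCA h_N3_S_CI3 h_AK_S_ZS1 h_KC_S_KZS h_N3_S_MTC h_N3_S_DIC h_N3_S_T3C h_N3_S_HAC h_N3_S_HBC h_N3_S_GSL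
  have h_N3_S_MN3 : N3.S_MN3 := N3.MN3_pf h_N3_S_MU3
  exact h_N3_S_MN3

end Pool.Agent.Work.MP_69fea5_lc
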