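import Pool.Agent.Work.MP_69fea5_lc.AK.Stmts

/-!
# Block [69fea5 N3]: sums of at most three terms.  Definitions of the classical part

Paper proof: notes 3504 and 3621 on MP_69fea5_lc (use 3621 (a)-(h), they replace the heavy parts of
3504).  Everything lives on `Om k = ℤ → Fin k`; `M` is a minimal subset.
-/

set_option autoImplicit false

namespace Pool.Agent.Work.MP_69fea5_lc.N3

open MeasureTheory Topology Set Filter ProbabilityTheory
open scoped NNReal
open Pool.Agent.Work.MP_69fea5_lc.AK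

variable {k : ℕ}

/-! ### Closed invariant relations and the universal pseudometric -/

/-- finite lists of boxes -/
abbrev WL (k : ℕ) := List (Wd k × Wd k)

/-- the pairs whose orbits avoid the boxes of `L` -/
def RR (L : WL k) : Set (Om k × Om k) :=
  {p | ∀ n : ℤ, ∀ q ∈ L, ¬ (p.1 ∈ cyl q.1 n ∧ p.2 ∈ cyl q.2 n)}

/-- the measure of the symmetric difference of the sections at `x` and `y` -/
noncomputable def rho (m : PM k) (R : Set (Om k × Om k)) (x y : Om k) : ℝ :=
  (m {u | (x, u) ∈ R ∧ (y, u) ∉ R} : ℝ) + m {u | (y, u) ∈ R ∧ (x, u) ∉ R}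

/-- the `i`-th list -/
def wl (k : ℕ) (i : ℕ) : WL k := ((Encodable.decode i : Option (WL k))).getD []

/-- the universal pseudometric (it has values in `[0, 1]`) -/
noncomputable def dK (m : PM k) (x y : Om k) : ℝ :=
  ∑' i : ℕ, (1 / 2) ^ (i + 2) * rho m (RR (wl k i)) x y

/-- continuous invariant pseudometrics on `M` -/
structure IPM (M : Set (Om k)) (ρ : Om k → Om k → ℝ) : Prop where
  cont : ContinuousOn (fun p : Om k × Om k => ρ p.1 p.2) (M ×ˢ M)
  inv : ∀ (n : ℤ), ∀ x ∈ M, ∀ y ∈ M, ρ (sh n x) (sh n y) = ρ x y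
  self : ∀ x ∈ M, ρ x x = 0
  nonneg : ∀ x ∈ M, ∀ y ∈ M, 0 ≤ ρ x y
  symm : ∀ x ∈ M, ∀ y ∈ M, ρ x y = ρ y x
  tri : ∀ x ∈ M, ∀ y ∈ M, ∀ z ∈ M, ρ x z ≤ ρ x y + ρ y z

/-! ### The group of rotations -/

/-- the universal isometric factor of `M`: a compact group with a dense cyclic subgroup -/
structure Kro (M : Set (Om k)) {K : Type} [NormedAddCommGroup K] (e : K) (π : Om k → K) :
    Prop where
  dense : Dense (Set.range fun n : ℤ => n • e)
  cont : ContinuousOn π M
  equi : ∀ z ∈ M, ∀ n : ℤ, π (sh n z) = π z + n • e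
  univ : ∀ ρ, IPM M ρ → ∀ x ∈ M, ∀ y ∈ M, π x = π y → ρ x y = 0

/-- the points of `K` as points of a cube; the rotation becomes the shift -/
noncomputable def iK {K : Type} [NormedAddCommGroup K] (e : K) (v : K) : Cube Unit :=
  fun _ j => Set.projIcc (0 : ℝ) 1 zero_le_one ‖v + j • e‖

section K

variable {K : Type} [NormedAddCommGroup K] [CompactSpace K] [MeasurableSpace K] [BorelSpace K]

/-- `η` is a disintegration of the invariant measure `μ` over `K` (with its Haar measure `hm`) -/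
structure Dis (M : Set (Om k)) (e : K) (π : Om k → K) (hm : Measure K) (μ : PM k)
    (η : Kernel K (Om k)) : Prop where
  markov : IsMarkovKernel η
  bind : hm.bind η = (μ : Measure (Om k))
  fib : ∀ᵐ t ∂hm, η t {z | z ∈ M ∧ π z = t}ᶜ = 0
  eqv : ∀ᵐ t ∂hm, η (t + e) = (η t).map (sh 1 : Om k → Om k)

/-- the setting of the classical part -/
structure Fr (M : Set (Om k)) (e : K) (π : Om k → K) (hm : Measure K) (μ : PM k)
    (η : Kernel K (Om k)) : Prop where
  min : MinSet M
  inv : sh 1 μ = μ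
  one : μ M = 1
  kro : Kro M e π
  prob : IsProbabilityMeasure hm
  haar : hm.IsAddHaarMeasure
  dis : Dis M e π hm μ η

/-- the law of the two points after the first point (which is at the position `a`) of an averaged
progression of length three -/
noncomputable def kap1 (hm : Measure K) (η : Kernel K (Om k)) (a : K) : Measure (Om k × Om k) :=
  hm.bind fun t => (η (a + t)).prod (η (a + t + t))

/-- the law of the two points before the last point (which is at the position `b`) -/
noncomputable def kap3 (hm : Measure K) (η : Kernel K (Om k)) (b : K) : Measure (Om k × Om k) :=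
  hm.bind fun t => (η (b - t - t)).prod (η (b - t))

end K

/-- progressions of length three in `M` -/
def Z3 (M : Set (Om k)) {K : Type} [NormedAddCommGroup K] (π : Om k → K) :
    Set (Om k × Om k × Om k) :=
  {q | q.1 ∈ M ∧ q.2.1 ∈ M ∧ q.2.2 ∈ M ∧ π q.1 + π q.2.2 = π q.2.1 + π q.2.1}

/-- closed invariant sets of progressions -/
structure Rel3 (M : Set (Om k)) {K : Type} [NormedAddCommGroup K] (π : Om k → K)
    (N : Set (Om k × Om k × Om k)) : Prop where
  closed : IsClosed N
  inv : AK.Inv N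
  sub : N ⊆ Z3 M π

/-- sections at the first point -/
def sec1 (N : Set (Om k × Om k × Om k)) (w : Om k) : Set (Om k × Om k) :=
  {p | (w, p.1, p.2) ∈ N}

/-- sections at the last point -/
def sec3 (N : Set (Om k × Om k × Om k)) (v : Om k) : Set (Om k × Om k) :=
  {p | (p.1, p.2, v) ∈ N}

section K2

variable {K : Type} [NormedAddCommGroup K] [CompactSpace K] [MeasurableSpace K] [BorelSpace K]

/-- the pseudometric of `N` on the last points (used when `π v = π v'`) -/
noncomputable def dd3 (hm : Measure K) (η : Kernel K (Om k)) (π : Om k → K)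
    (N : Set (Om k × Om k × Om k)) (v v' : Om k) : ℝ :=
  (kap3 hm η (π v)).real (sec3 N v \ sec3 N v') + (kap3 hm η (π v)).real (sec3 N v' \ sec3 N v)

/-! ### The cube function of the location lemma -/

/-- the measure of the four points `((w, w₁), (u, u'))` of a cube over the parameter `a` -/
noncomputable def qm (η : Kernel K (Om k)) (b0 b1 s a : K) :
    Measure ((Om k × Om k) × (Om k × Om k)) :=
  ((η (a + a - b0)).prod (η (a + a - b1))).prod ((η a).prod (η (a + s)))

/-- the set of the four points whose pairs are in the given sections -/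
def qs (N00 N01 N10 N11 : Set (Om k × Om k)) : Set ((Om k × Om k) × (Om k × Om k)) :=
  {q | (q.1.1, q.2.1) ∈ N00 ∧ (q.1.1, q.2.2) ∈ N01 ∧ (q.1.2, q.2.1) ∈ N10 ∧
    (q.1.2, q.2.2) ∈ N11}

/-- the cube function -/
noncomputable def HH (hm : Measure K) (η : Kernel K (Om k)) (π : Om k → K)
    (N : Set (Om k × Om k × Om k)) (x00 x01 x10 x11 : Om k) (s : K) : ℝ :=
  ∫ a, (qm η (π x00) (π x10) s a).real (qs (sec3 N x00) (sec3 N x01) (sec3 N x10) (sec3 N x11)) ∂hm

/-- the domain of the cube function -/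
def HD (M : Set (Om k)) (π : Om k → K) : Set ((Om k × Om k) × (Om k × Om k) × K) :=
  {p | p.1.1 ∈ M ∧ p.1.2 ∈ M ∧ p.2.1.1 ∈ M ∧ p.2.1.2 ∈ M ∧ π p.1.2 = π p.1.1 + p.2.2 + p.2.2 ∧
    π p.2.1.2 = π p.2.1.1 + p.2.2 + p.2.2}

end K2

/-! ### Words, states, blocked states -/

/-- pairs of words -/
abbrev W2 (k : ℕ) := Wd k × Wd k

/-- the box of a pair of words, centred at `n` -/
def bx (P : W2 k) (n : ℤ) : Set (Om k × Om k) := cyl P.1 n ×ˢ cyl P.2 n

/-- the support of a measure on pairs -/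
def sup2 (ν : Measure (Om k × Om k)) : Set (Om k × Om k) :=
  {g | ∀ L : ℕ, 0 < ν (bx (wordOf g.1 L, wordOf g.2 L) 0)}

/-- states: boxes of positive measure whose two words have the same letter `r` in the middle -/
def St (ν : Measure (Om k × Om k)) (P : W2 k) (r : Fin k) : Prop :=
  mid P.1 = some r ∧ mid P.2 = some r ∧ 0 < ν (bx P 0)

/-- the set of the pairs which can be used at the time `x` -/
def nxt (P : W2 k) (r : Fin k) (x : ℤ) : Set (Om k × Om k) :=
  {g | g ∈ bx P 0 ∧ g.1 ∈ cyl P.2 x ∧ g.2 x = r}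

/-- blocked boxes -/
def Bl3 (c : Om k) (ν : Measure (Om k × Om k)) (P : W2 k) (r : Fin k) : Prop :=
  ∃ N : ℕ, ∀ x : ℕ, N ≤ x → c ∈ cyl P.1 x → ν (nxt P r x) = 0

/-- Case II: every state has a blocked extension -/
def CaseII3 (c : Om k) (ν : Measure (Om k × Om k)) : Prop :=
  ∀ P r, St ν P r → ∃ P', bx P' 0 ⊆ bx P 0 ∧ St ν P' r ∧ Bl3 c ν P' r

/-! ### Bases -/

/-- a base `B` over `K` (position `(iK e v, b)`), an exact base point `(iK e 0, b₀)` of `c` and the
set `Γ` of the points of `M` with their positions -/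
structure Bas (c : Om k) (M : Set (Om k)) {K : Type} [NormedAddCommGroup K] (e : K) (π : Om k → K)
    {B : Type} [TopologicalSpace B] [Sys B] (b₀ : B) (Γ : Set (Om k × (Cube Unit × B))) :
    Prop where
  closed : IsClosed Γ
  inv : AK.Inv Γ
  pos : ∀ q ∈ Γ, q.1 ∈ M ∧ q.2.1 = iK e (π q.1)
  onto : ∀ w ∈ M, ∃ q ∈ Γ, q.1 = w
  ret : Γ ⊆ omg (c, (iK e (0 : K), b₀))

/-- the limits of `T^x (c, g₁, g₂)`, `(g₁, g₂)` in the box `P` and in the support of `ν`, along the
times at which `T^x (c, b₀)` converges to a point of `Γ` -/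
def NB (c : Om k) {K : Type} [NormedAddCommGroup K] (e : K) {B : Type} [TopologicalSpace B]
    [Sys B] (b₀ : B) (Γ : Set (Om k × (Cube Unit × B))) (ν : Measure (Om k × Om k)) (P : W2 k) :
    Set (Om k × Om k × Om k) :=
  {q | ∃ b, (q.1, b) ∈ Γ ∧ ∀ U ∈ 𝓝 (q, b), ∀ L : ℕ, ∃ x : ℕ, L ≤ x ∧ ∃ g ∈ bx P 0 ∩ sup2 ν,
    (((sh (x : ℤ) c, sh (x : ℤ) g.1, sh (x : ℤ) g.2), sh (x : ℤ) (iK e (0 : K), b₀)) :
      (Om k × Om k × Om k) × (Cube Unit × B)) ∈ U}

end Pool.Agent.Work.MP_69fea5_lc.N3
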