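import Pool.Agent.Work.MP_69fea5_lc.N3.DefsA
import Pool.Agent.Work.MP_69fea5_lc.KC.Stmts

/-!
# Block [69fea5 N3], part H (coding): definitions

Coded objects: see `HK/Sys.lean` (`Dat`, `Law`, `LawC`, `Pt S x` = the point `x` is coded in `S`).
-/

set_option autoImplicit false

namespace Pool.Agent.Work.MP_69fea5_lc.N3

open MeasureTheory Topology Set Filter ProbabilityTheory
open scoped NNReal ENNReal
open Pool.Agent.Work.MP_69fea5_lc.AK
open Pool.Agent.Work.MP_69fea5_lc.HK (Cl DU Ar ArF ArR Dat Law LawC act near sc Pt oc Mn mr)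

variable {k : ℕ}

/-- the measure `ν` on pairs is coded: the measures of all boxes of constraints -/
def NC (S : Set (Set ℕ)) {k : ℕ} (ν : Measure (Om k × Om k)) : Prop :=
  ArR S fun P : HK.C k × HK.C k => ν.real (HK.cyl P.1 ×ˢ HK.cyl P.2)

/-- the average of the measures `T^n m0`, `n ≤ L` -/
noncomputable def avM (m0 : PM k) (L : ℕ) : Measure (Om k) :=
  ((L + 1 : ℕ) : ℝ≥0∞)⁻¹ • ∑ n ∈ Finset.range (L + 1),
    ((sh (n : ℤ) m0 : PM k) : Measure (Om k))

instance avM_prob (m0 : PM k) (L : ℕ) : IsProbabilityMeasure (avM m0 L) := by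
  constructor
  unfold avM
  rw [Measure.smul_apply, Measure.finsetSum_apply]
  simp only [measure_univ, Finset.sum_const, Finset.card_range, nsmul_eq_mul, mul_one,
    smul_eq_mul]
  exact ENNReal.inv_mul_cancel (by simp) (by simp)

/-- the same as a point of `PM k` -/
noncomputable def avP (m0 : PM k) (L : ℕ) : PM k := ⟨avM m0 L, avM_prob m0 L⟩

/-- the tent function of width `1 / (i + 1)` -/
noncomputable def tent {K : Type} [NormedAddCommGroup K] (i : ℕ) (s : K) : ℝ :=
  max (1 - (i + 1) * ‖s‖) 0

section K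

variable {K : Type} [NormedAddCommGroup K] [CompactSpace K] [MeasurableSpace K] [BorelSpace K]

/-- the smoothed density of the second point over the position `2 t` -/
noncomputable def gSm (hm : Measure K) (η : Kernel K (Om k)) (i : ℕ) (P : Set (Om k)) (t : K) : ℝ :=
  ∫ t', tent i (t' - t - t) * (η t').real P ∂hm

/-- admissible pairs of words of level `L`: approximation of the section of `N0` at the last
point `z` (which has the position `0`); `w` is the word of the first point, `u` that of the middle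
point; the point `T^n g` reads off the position of the first point -/
def adm3 (c g : Om k) (e : K) (π : Om k → K) (ν : Measure (Om k × Om k)) (P : W2 k) (z : Om k)
    (L : ℕ) (w u : List (Fin k)) : Prop :=
  ∀ N : ℕ, ∃ x : ℕ, N ≤ x ∧ HK.wd L (AK.sh (x : ℤ) c) = w ∧
    (∃ n : ℤ, HK.wd L (AK.sh n g) = w ∧ (iK e (π g) () (n - x) : ℝ) < 1 / (L + 1)) ∧
    0 < ν.real (bx P 0 ∩ {q | HK.wd L (AK.sh (x : ℤ) q.1) = u ∧
      HK.wd L (AK.sh (x : ℤ) q.2) = HK.wd L z})

end K

end Pool.Agent.Work.MP_69fea5_lc.N3
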