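import Pool.Agent.Work.MP_69fea5_lc.N3.StmtsH2
import Pool.Agent.Work.MP_69fea5_lc.KC.Final
import Pool.Agent.Work.MP_69fea5_lc.TwoMain

/-!
Block [69fea5 N3]: the final theorem: exact strength, on omega-models, of Hindman's theorem for
sums of at most two terms and `k ≥ 3` colours and for sums of at most three terms and two colours.
-/

set_option autoImplicit false

namespace Pool.Agent.Work.MP_69fea5_lc.N3

open Pool.Agent.Work.MP_69fea5_lc
open Pool.Agent.Work.MP_69fea5_lc.HK (Cl Ar ArF Sol)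
open Pool.Agent.Work.MP_69fea5_lc.KC (enum enum_inj mem_range_enum enum_rec cl_of_ideal
  arF_of_classes)

variable {S : Set (Set ℕ)}

/-- the two forms of the theorem for sums of at most two terms -/
theorem sol2_iff {k : ℕ} (c : ℕ → Fin k) (X : Set ℕ) :
    (∃ i, ∀ x ∈ X, 0 < x ∧ c x = i ∧ ∀ y ∈ X, y ≠ x → c (x + y) = i) ↔
    ((∀ x ∈ X, 0 < x) ∧ ∃ i, ∀ F : Finset ℕ, (F : Set ℕ) ⊆ X → F.Nonempty → F.card ≤ 2 →
      c (∑ x ∈ F, x) = i) ∨ (X = ∅ ∧ Nonempty (Fin k)) := by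
  constructor
  · rintro ⟨i, h⟩
    rcases X.eq_empty_or_nonempty with rfl | hX
    · exact Or.inr ⟨rfl, ⟨i⟩⟩
    refine Or.inl ⟨fun x hx => (h x hx).1, i, ?_⟩
    intro F hF hne hcard
    rcases Nat.lt_or_ge F.card 2 with h2 | h2
    · have h1 : F.card = 1 := by
        have := hne.card_pos
        omega
      obtain ⟨x, rfl⟩ := Finset.card_eq_one.1 h1
      rw [Finset.sum_singleton]
      exact (h x (hF (by simp))).2.1
    · obtain ⟨x, y, hxy, rfl⟩ := Finset.card_eq_two.1 (le_antisymm hcard h2)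
      rw [Finset.sum_pair hxy]
      exact (h x (hF (by simp))).2.2 y (hF (by simp)) hxy.symm
  · rintro (⟨h0, i, h⟩ | ⟨rfl, ⟨i⟩⟩)
    · refine ⟨i, fun x hx => ⟨h0 x hx, ?_, fun y hy hyx => ?_⟩⟩
      · have := h {x} (by simpa using hx) (by simp) (by simp)
        simpa using this
      · have := h {x, y} (by
          intro t ht
          simp only [Finset.coe_insert, Finset.coe_singleton, Set.mem_insert_iff,
            Set.mem_singleton_iff] at ht
          rcases ht with rfl | rfl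
          · exact hx
          · exact hy) (by simp) (Finset.card_le_two)
        rwa [Finset.sum_pair hyx.symm] at this
    · exact ⟨i, fun x hx => absurd hx (Set.notMem_empty x)⟩

/-- the reversal for three terms and two colours -/
theorem proj_of_sol3
    (hS : ∀ A ∈ S, ∀ B ∈ S, ∀ C : Set ℕ, RecursiveIn {charFn A, charFn B} (charFn C) → C ∈ S)
    (h : ∀ c : ℕ → Fin 2, (∀ i, {x | c x = i} ∈ S) →
      ∃ X ∈ S, X.Infinite ∧ (∀ x ∈ X, 0 < x) ∧ ∃ i, ∀ F : Finset ℕ, (F : Set ℕ) ⊆ X →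
        F.Nonempty → F.card ≤ 3 → c (∑ x ∈ F, x) = i) :
    ∀ A ∈ S, {n | ∃ m, Nat.pair n m ∈ A} ∈ S := by
  classical
  intro A hA
  have hAo : Nat.RecursiveIn {charFn A, charFn A} (charFn A) :=
    Nat.RecursiveIn.oracle (charFn A) (by simp)
  let g := enum A
  have hg : Function.Injective g := enum_inj A
  let c : ℕ → Fin 2 := fun x => ⟨c2 g x, c2_lt g x⟩
  obtain ⟨X, hX, hinf, hpos, i, hi⟩ := h c (by
    intro i
    refine hS A hA A hA _ ?_
    rw [RecursiveIn.iff_nat]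
    have h1 : Computable fun n : ℕ => if n = (i : ℕ) then 1 else 0 := by
      apply Primrec.to_comp
      exact Primrec.ite (PrimrecRel.comp Primrec.eq Primrec.id (Primrec.const (i : ℕ)))
        (Primrec.const 1) (Primrec.const 0)
    refine (comp_tot (comp_of h1) (c2_rec (g := g) (enum_rec hAo))).of_eq fun n => ?_
    simp [charFn, c, Fin.ext_iff])
  have hsol : IsSolution (c2 g) 3 X :=
    ⟨hinf, hpos, i, fun F hF hne hcard => congrArg Fin.val (hi F hF hne hcard)⟩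
  refine hS A hA X hX _ ?_
  rw [RecursiveIn.iff_nat]
  have hr : Nat.RecursiveIn {charFn A, charFn X} (charFn (Set.range g)) :=
    two_colours hg hsol (enum_rec (Nat.RecursiveIn.oracle (charFn A) (by simp)))
      (Nat.RecursiveIn.oracle (charFn X) (by simp))
  let χ : ℕ → ℕ := fun n => if n ∈ Set.range g then 1 else 0
  have hχ : Nat.RecursiveIn {charFn A, charFn X} (fun n => Part.some (χ n)) :=
    hr.of_eq fun n => by simp [charFn, χ]
  have h2 : Computable fun n : ℕ => 2 * n :=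
    (Primrec.nat_mul.comp (Primrec.const 2) Primrec.id).to_comp
  refine (comp_tot hχ (comp_of h2)).of_eq fun n => ?_
  have h3 := mem_range_enum A n
  have h4 : (n ∈ {n | ∃ m, Nat.pair n m ∈ A}) ↔ ∃ m, Nat.pair n m ∈ A := Iff.rfl
  simp only [charFn, χ]
  congr 1
  exact if_congr (h3.trans h4.symm) rfl rfl

/-- three terms or all finite sums without one colour -/
theorem three_or_drop (hM : S_MN3) (hne : S.Nonempty)
    (hS : ∀ A ∈ S, ∀ B ∈ S, ∀ C : Set ℕ, RecursiveIn {charFn A, charFn B} (charFn C) → C ∈ S)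
    (hp : ∀ A ∈ S, {n | ∃ m, Nat.pair n m ∈ A} ∈ S) (k : ℕ) (c : ℕ → Fin k)
    (hc : ∀ i, {x | c x = i} ∈ S) :
    ∃ X ∈ S, X.Infinite ∧ (∀ x ∈ X, 0 < x) ∧
      ((∃ i, ∀ F : Finset ℕ, (F : Set ℕ) ⊆ X → F.Nonempty → F.card ≤ 3 →
        c (∑ x ∈ F, x) = i) ∨
      ∃ i, ∀ F : Finset ℕ, (F : Set ℕ) ⊆ X → F.Nonempty → c (∑ x ∈ F, x) ≠ i) := by
  have hC := cl_of_ideal hne hS hp
  rcases hM S hC k c (arF_of_classes hC hc) with ⟨X, hX, h1, h2, i, h3⟩ | ⟨r, X, hX, h1, h2, h3⟩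
  · exact ⟨X, hX, h1, h2, Or.inl ⟨i, h3⟩⟩
  · exact ⟨X, hX, h1, h2, Or.inr ⟨r, fun F hF hFn =>
      (Finset.mem_erase.1 (h3 F hF hFn)).1⟩⟩

/-- two colours: three terms -/
theorem three_two (hM : S_MN3) (hne : S.Nonempty)
    (hS : ∀ A ∈ S, ∀ B ∈ S, ∀ C : Set ℕ, RecursiveIn {charFn A, charFn B} (charFn C) → C ∈ S)
    (hp : ∀ A ∈ S, {n | ∃ m, Nat.pair n m ∈ A} ∈ S) (c : ℕ → Fin 2)
    (hc : ∀ i, {x | c x = i} ∈ S) :
    ∃ X ∈ S, X.Infinite ∧ (∀ x ∈ X, 0 < x) ∧ ∃ i, ∀ F : Finset ℕ, (F : Set ℕ) ⊆ X →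
      F.Nonempty → F.card ≤ 3 → c (∑ x ∈ F, x) = i := by
  obtain ⟨X, hX, h1, h2, h3 | ⟨i, h3⟩⟩ := three_or_drop hM hne hS hp 2 c hc
  · exact ⟨X, hX, h1, h2, h3⟩
  · refine ⟨X, hX, h1, h2, 1 - i, fun F hF hFn _ => ?_⟩
    have h5 : ∀ a i : Fin 2, a ≠ i → a = 1 - i := by decide
    exact h5 _ _ (h3 F hF hFn)

/-- the exact strength -/
theorem final3_of (hM : HK.S_MAIN) (hM3 : S_MN3) (n k : ℕ)
    (hnk : (n = 2 ∧ 3 ≤ k) ∨ (n = 3 ∧ k = 2)) (S : Set (Set ℕ)) (hne : S.Nonempty)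
    (hS : ∀ A ∈ S, ∀ B ∈ S, ∀ C : Set ℕ, RecursiveIn {charFn A, charFn B} (charFn C) → C ∈ S) :
    (∀ c : ℕ → Fin k, (∀ i, {x | c x = i} ∈ S) →
      ∃ X ∈ S, X.Infinite ∧ (∀ x ∈ X, 0 < x) ∧ ∃ i, ∀ F : Finset ℕ, (F : Set ℕ) ⊆ X →
        F.Nonempty → F.card ≤ n → c (∑ x ∈ F, x) = i) ↔
    ∀ A ∈ S, {n | ∃ m, Nat.pair n m ∈ A} ∈ S := by
  rcases hnk with ⟨rfl, hk⟩ | ⟨rfl, rfl⟩
  · rw [← KC.final_of hM k hk S hne hS]
    refine forall_congr' fun c => forall_congr' fun _ => exists_congr fun X =>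
      and_congr_right fun _ => and_congr_right fun hinf => ?_
    rw [sol2_iff]
    refine ⟨Or.inl, fun h => ?_⟩
    rcases h with h | ⟨rfl, -⟩
    · exact h
    · exact absurd Set.finite_empty hinf
  · exact ⟨proj_of_sol3 hS, fun hp c hc => three_two hM3 hne hS hp c hc⟩

end Pool.Agent.Work.MP_69fea5_lc.N3
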