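import Pool.Agent.Work.MP_69fea5_lc.N3.StmtsB
import Pool.Agent.Work.MP_69fea5_lc.N3.I_MUI

/-!
# Block [69fea5 N3]: item AVM

Limits of averages along an ultrafilter: existence, invariance, support.
-/

set_option autoImplicit false

namespace Pool.Agent.Work.MP_69fea5_lc.N3

open MeasureTheory Topology Set Filter ProbabilityTheory
open scoped NNReal ENNReal
open Pool.Agent.Work.MP_69fea5_lc.AK

theorem AVM_pf (hPMB : AK.S_PMB) (hUSC : AK.S_USC) : S_AVM := by
  intro k U m0 hU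
  obtain ⟨hP1, _, hP3, hP4, _⟩ := hPMB k
  obtain ⟨μ, -, hμ⟩ := isCompact_univ.ultrafilter_le_nhds
    (U.map (fun L : ℕ => avP m0 (L - 1))) (by simp)
  have hlim : Tendsto (fun L : ℕ => avP m0 (L - 1)) (U : Filter ℕ) (𝓝 μ) := hμ
  refine ⟨μ, ?_, ?_, ?_⟩
  · intro C hC
    have h1 : Tendsto (fun L : ℕ => ((avP m0 (L - 1) C : ℝ≥0) : ℝ)) (U : Filter ℕ)
        (𝓝 ((μ C : ℝ≥0) : ℝ)) :=
      ((NNReal.continuous_coe.comp (hP3 C hC)).tendsto μ).comp hlim
    refine h1.congr' ?_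
    filter_upwards [hU (Ioi_mem_atTop 0)] with L hL
    have hL' : L - 1 + 1 = L := Nat.sub_add_cancel hL
    rw [I_MUI.av_apply, hL']
    congr 1
    exact_mod_cast hL'
  · apply hP4
    intro w
    have hcl : IsClopen (cyl w 0 : Set (Om k)) := (AK.CYL_pf k).1 w 0
    have hcl' : IsClopen {z : Om k | sh 1 z ∈ cyl w 0} := hcl.preimage (sh_cont 1)
    rw [hP1 μ 1 (cyl w 0) hcl.1.measurableSet]
    have hf : Continuous fun m' : PM k =>
        |((m' {z : Om k | sh 1 z ∈ cyl w 0} : ℝ≥0) : ℝ) - ((m' (cyl w 0) : ℝ≥0) : ℝ)| :=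
      ((NNReal.continuous_coe.comp (hP3 _ hcl')).sub
        (NNReal.continuous_coe.comp (hP3 _ hcl))).abs
    have h1 := (hf.tendsto μ).comp hlim
    have h2 : Tendsto (fun L : ℕ => 1 / (((L - 1 : ℕ) : ℝ) + 1)) (U : Filter ℕ) (𝓝 0) :=
      (tendsto_one_div_add_atTop_nhds_zero_nat.comp (tendsto_sub_atTop_nat 1)).mono_left hU
    have h3 := le_of_tendsto_of_tendsto' h1 h2
      (fun L => I_MUI.diff_le hPMB m0 (L - 1) (cyl w 0) hcl)
    have h4 := abs_nonpos_iff.1 h3
    exact NNReal.coe_injective (sub_eq_zero.1 h4)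
  · intro M hMc hMi hm0
    have hK : IsClosed (M ×ˢ (univ : Set Unit)) := hMc.prod isClosed_univ
    have hC := hUSC k Unit _ hK 1
    have hC' : IsClosed {m' : PM k | (1 : ℝ≥0) ≤ m' M} := by
      have h1 := hC.preimage (f := fun m' : PM k => (m', ())) (by fun_prop)
      convert h1 using 1
      ext m'
      simp
    have hmem : ∀ L : ℕ, avP m0 (L - 1) ∈ {m' : PM k | (1 : ℝ≥0) ≤ m' M} := by
      intro L
      change (1 : ℝ≥0) ≤ _
      rw [← NNReal.coe_le_coe, I_MUI.av_apply]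
      have h1 : ∀ n : ℤ, (((sh n m0 : PM k) M : ℝ≥0) : ℝ) = 1 := by
        intro n
        rw [hP1 _ n M hMc.measurableSet]
        have h2 : (1 : ℝ≥0) ≤ m0 {z | sh n z ∈ M} := by
          rw [← hm0]
          exact m0.apply_mono (fun z hz => hMi n z hz)
        have h3 := m0.apply_le_one {z | sh n z ∈ M}
        rw [le_antisymm h3 h2]
        rfl
      simp only [h1]
      simp
      rw [div_self]
      positivity
    have h2 : μ ∈ {m' : PM k | (1 : ℝ≥0) ≤ m' M} :=
      hC'.mem_of_tendsto hlim (Eventually.of_forall hmem)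
    exact le_antisymm (μ.apply_le_one _) h2

end Pool.Agent.Work.MP_69fea5_lc.N3
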