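import Pool.Agent.Work.MP_69fea5_lc.N3.StmtsA

/-!
# Block [69fea5 N3], item CL2

A closed set of pairs of measure `< a` is contained in a clopen set of measure `< a`.
-/

set_option autoImplicit false

namespace Pool.Agent.Work.MP_69fea5_lc.N3

open MeasureTheory Topology Set Filter ProbabilityTheory
open scoped NNReal ENNReal
open Pool.Agent.Work.MP_69fea5_lc.AK

theorem CL2_pf : S_CL2 := by
  intro k ν hν F a hF ha
  have ha0 : 0 < a := lt_of_le_of_lt measureReal_nonneg ha
  have hlt : ν F < ENNReal.ofReal a := by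
    rw [Measure.real] at ha
    rwa [← ENNReal.lt_ofReal_iff_toReal_lt (measure_ne_top ν F)] at ha
  obtain ⟨U, hFU, hUo, hU⟩ := Set.exists_isOpen_lt_of_lt F (ENNReal.ofReal a) hlt
  obtain ⟨C, hC, hFC, hCU⟩ := exists_clopen_of_closed_subset_open hF hUo hFU
  refine ⟨C, hC, hFC, ?_⟩
  rw [Measure.real]
  rw [← ENNReal.lt_ofReal_iff_toReal_lt (measure_ne_top ν C)]
  exact lt_of_le_of_lt (measure_mono hCU) hU

end Pool.Agent.Work.MP_69fea5_lc.N3
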