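import Pool.Agent.Work.MP_69fea5_lc.N3.StmtsH
import Pool.Agent.Work.MP_69fea5_lc.N3.DefsH2

/-!
Block [69fea5 N3], item FRM: the frame exists.
-/

set_option autoImplicit false

namespace Pool.Agent.Work.MP_69fea5_lc.N3

open MeasureTheory Topology Set Filter ProbabilityTheory
open scoped NNReal ENNReal
open Pool.Agent.Work.MP_69fea5_lc.AK
open Pool.Agent.Work.MP_69fea5_lc.HK (Cl DU Ar ArF ArR Dat Law LawC act near sc Pt oc Mn mr)

namespace I_FRM

/-- limits along an ultrafilter in a compact space -/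
theorem exists_lim {α : Type} [TopologicalSpace α] [CompactSpace α] (U : Ultrafilter ℕ)
    (f : ℕ → α) : ∃ a, Tendsto f (U : Filter ℕ) (𝓝 a) := by
  obtain ⟨a, -, ha⟩ := isCompact_univ.ultrafilter_le_nhds (U.map f) (by simp)
  exact ⟨a, ha⟩

theorem exists_haar (K : Type) [NormedAddCommGroup K] [CompactSpace K] [MeasurableSpace K]
    [BorelSpace K] : ∃ hm : Measure K, IsProbabilityMeasure hm ∧ hm.IsAddHaarMeasure := by
  refine ⟨Measure.addHaarMeasure ⊤, ⟨?_⟩, inferInstance⟩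
  exact Measure.addHaarMeasure_self (K₀ := (⊤ : TopologicalSpace.PositiveCompacts K))

end I_FRM

open I_FRM in
theorem FRM_pf (hURB : S_URB) (hKMI : S_KMI) (hKRO : S_KRO) (hEPC : S_EPC) (hPIK : S_PIK)
    (hKZ0 : S_KZ0) (hIKB : S_IKB) (hKGR : S_KGR) (hKMZ : S_KMZ) (hMUI : S_MUI) (hDIS : S_DIS)
    (hNUC : S_NUC) : S_FRM := by
  intro S U hS hU k c hc
  obtain ⟨b, g, hb, hbn, hlim, hmin, hg⟩ := hURB S U hS hU k c hc
  obtain ⟨m1, hm1, hm1i, hm1o⟩ := hKMI S U hS hU k g hg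
  obtain ⟨K, _, _, e, π, hkro, hnorm, hle, -, hbe⟩ := hKRO k c g m1 U b hmin hm1i hm1o hlim
  have hne : ArR S fun n : ℤ => ‖n • e‖ := (hEPC S hS k g m1 hg hm1).congr hnorm
  obtain ⟨hp0, hpv⟩ := hPIK S U hS hU K e (π g) b hle hne hb hbe
  obtain ⟨z, hz, hzo, hzl⟩ := hKZ0 S U hS hU k g b hg hb
  have hgo : g ∈ orb g := subset_closure ⟨0, sh_zero g⟩
  -- the position of `z`
  have hz0 : π z = 0 := by
    have h1 : Tendsto (fun n => sh (-(b n : ℤ)) g) (U : Filter ℕ) (𝓝[orb g] z) := by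
      refine tendsto_nhdsWithin_iff.2 ⟨hzl, Eventually.of_forall fun n => ?_⟩
      exact hmin.inv _ _ hgo
    have h2 : Tendsto (fun n => π (sh (-(b n : ℤ)) g)) (U : Filter ℕ) (𝓝 (π z)) :=
      (hkro.cont z hzo).tendsto.comp h1
    have h3 : Tendsto (fun n => π (sh (-(b n : ℤ)) g)) (U : Filter ℕ) (𝓝 (π g - π g)) := by
      refine (tendsto_const_nhds.sub hbe).congr fun n => ?_
      rw [hkro.equi g hgo, neg_smul, sub_eq_add_neg]
    rw [sub_self] at h3
    exact tendsto_nhds_unique h2 h3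
  obtain ⟨hG1, hG2⟩ := hKGR k c g K e π U b hmin hkro hle hU.top hbn hlim hbe
  have hzG : (z, iK e (0 : K)) ∈ GK (orb g) e π := ⟨z, hzo, by simp [hz0]⟩
  obtain ⟨m0, hm0, haa, hmm⟩ := hKMZ S U hS hU k Unit (GK (orb g) e π) z (iK e 0) hG1 hzG hz hp0
  have hpos : m0 {z | z ∈ orb g ∧ π z = 0} = 1 := by
    have h1 : m0 {z | (z, iK e (0 : K)) ∈ GK (orb g) e π} = 1 := haa.1
    have h2 : {z | (z, iK e (0 : K)) ∈ GK (orb g) e π} ⊆ {z | z ∈ orb g ∧ π z = 0} := by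
      rintro w ⟨w', hw', h3⟩
      have h4 : w' = w := congrArg Prod.fst h3
      have h5 : iK e (π w') = iK e (0 : K) := congrArg Prod.snd h3
      subst h4
      exact ⟨hw', (hIKB K e hkro.dense hle).2.1 h5⟩
    refine le_antisymm (m0.apply_le_one _) ?_
    rw [← h1]
    exact m0.apply_mono h2
  have hm0o : m0 (orb g) = 1 := by
    refine le_antisymm (m0.apply_le_one _) ?_
    rw [← hpos]
    exact m0.apply_mono fun w hw => hw.1
  obtain ⟨μ, hμ⟩ := exists_lim U (avP m0)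
  obtain ⟨hμi, hμo⟩ := hMUI k (orb g) m0 μ U hU.top hmin hm0o hμ
  letI : MeasurableSpace K := borel K
  haveI : BorelSpace K := ⟨rfl⟩
  obtain ⟨hm, hmp, hmh⟩ := exists_haar K
  obtain ⟨η, hη⟩ := hDIS k (orb g) K e π hm μ hmp hmh hmin hμi hμo hkro
  have hfr : Fr (orb g) e π hm μ η := ⟨hmin, hμi, hμo, hkro, hmp, hmh, hη⟩
  refine ⟨g, K, ‹_›, ‹_›, borel K, ⟨rfl⟩, e, π, hm, μ, m0, η, ?_⟩
  exact
    { fr := hfr
      ptc := hc
      ptg := hg
      ptm := hm0
      pt0 := hp0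
      ptv := hpv
      nc := hNUC S U hS hU k (orb g) K e π hm μ η hfr m0 hpos hμ hm0 hne
      nrm := hle
      base := hG1
      om := hG2
      aa := haa
      mm := hmm
      pos := hpos
      top := hU.top
      av := hμ }

end Pool.Agent.Work.MP_69fea5_lc.N3
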