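import Pool.Agent.Work.MP_69fea5_lc.N3.StmtsA

/-!
# Block [69fea5 N3], item HHC: the cube function is continuous on its domain
-/

set_option autoImplicit false

namespace Pool.Agent.Work.MP_69fea5_lc.N3

open MeasureTheory Topology Set Filter ProbabilityTheory
open scoped NNReal ENNReal
open Pool.Agent.Work.MP_69fea5_lc.AK

namespace I_HHC

variable {k : ℕ}

/-- sections of closed sets are closed -/
theorem sec_closed {N : Set (Om k × Om k × Om k)} (hN : IsClosed N) (v : Om k) :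
    IsClosed (sec3 N v) := by
  have : Continuous fun p : Om k × Om k => (p.1, p.2, v) := by fun_prop
  exact hN.preimage this

/-- upper semicontinuity of the sections -/
theorem sec_usc {N : Set (Om k × Om k × Om k)} (hN : IsClosed N) {C : Set (Om k × Om k)}
    (hC : IsOpen C) (v : Om k) (h : sec3 N v ⊆ C) : ∀ᶠ x in 𝓝 v, sec3 N x ⊆ C := by
  have hcl : IsClosed {q : (Om k × Om k) × Om k | q.1 ∉ C ∧ (q.1.1, q.1.2, q.2) ∈ N} := by
    refine (hC.isClosed_compl.preimage continuous_fst).inter ?_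
    have : Continuous fun q : (Om k × Om k) × Om k => (q.1.1, q.1.2, q.2) := by fun_prop
    exact hN.preimage this
  have hpr : IsClosed (Prod.snd '' {q : (Om k × Om k) × Om k | q.1 ∉ C ∧
      (q.1.1, q.1.2, q.2) ∈ N}) := isClosedMap_snd_of_compactSpace _ hcl
  have hv : v ∈ (Prod.snd '' {q : (Om k × Om k) × Om k | q.1 ∉ C ∧
      (q.1.1, q.1.2, q.2) ∈ N})ᶜ := by
    rintro ⟨q, ⟨h1, h2⟩, h3⟩
    exact h1 (h (by rw [← h3]; exact h2))
  refine (hpr.isOpen_compl.eventually_mem hv).mono fun x hx p hp => ?_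
  by_contra hc
  exact hx ⟨(p, x), ⟨hc, hp⟩, rfl⟩

/-- one corner: the section at a nearby point is close to the clopen set -/
theorem corner {M : Set (Om k)} {K : Type} [NormedAddCommGroup K] [CompactSpace K]
    [MeasurableSpace K] [BorelSpace K] {e : K} {π : Om k → K} {hm : Measure K} {μ : PM k}
    {η : Kernel K (Om k)} (F : Fr M e π hm μ η) (hN3 : S_RKN) (hCL : S_CL2) (hKC : S_KPC)
    (hKB : S_KPB) {N : Set (Om k × Om k × Om k)} (hN : Rel3 M π N) {P : Type}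
    [TopologicalSpace P] (D : Set P) (p₀ : P) (hp₀ : p₀ ∈ D) (f : P → Om k) (hf : Continuous f)
    (hfD : ∀ p ∈ D, f p ∈ M) (δ : ℝ) (hδ : 0 < δ) :
    ∃ C : Set (Om k × Om k), IsClopen C ∧ ∀ᶠ p in 𝓝[D] p₀,
      (kap3 hm η (π (f p))).real ((sec3 N (f p) \ C) ∪ (C \ sec3 N (f p))) < δ := by
  obtain ⟨a, -, ha⟩ := hN3 k M K e π hm μ η F N hN
  obtain ⟨hpr, -, -, -, -⟩ := hKB k M K e π hm μ η F
  have hpr3 : ∀ b, IsProbabilityMeasure (kap3 hm η b) := fun b => (hpr b).2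
  have := hpr3 (π (f p₀))
  obtain ⟨C, hC, hsub, hlt⟩ := hCL k (kap3 hm η (π (f p₀))) (sec3 N (f p₀)) (a + δ)
    (sec_closed hN.closed _) (by rw [ha _ (hfD p₀ hp₀)]; linarith)
  refine ⟨C, hC, ?_⟩
  have e1 : ∀ᶠ p in 𝓝[D] p₀, sec3 N (f p) ⊆ C := by
    refine Filter.Eventually.filter_mono nhdsWithin_le_nhds ?_
    exact hf.continuousAt.eventually (sec_usc hN.closed hC.isOpen (f p₀) hsub)
  have e2 : ∀ᶠ p in 𝓝[D] p₀, (kap3 hm η (π (f p))).real C < a + δ := by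
    have c1 : ContinuousOn (fun p => (kap3 hm η (π (f p))).real C) D := by
      have c2 := (hKC k M K e π hm μ η F C hC).2
      exact c2.comp_continuousOn (F.kro.cont.comp hf.continuousOn hfD)
    exact (c1 p₀ hp₀).eventually (gt_mem_nhds hlt)
  filter_upwards [e1, e2, self_mem_nhdsWithin] with p h1 h2 h3
  have hm1 : MeasurableSet (sec3 N (f p)) := (sec_closed hN.closed _).measurableSet
  have := hpr3 (π (f p))
  have e3 : (sec3 N (f p) \ C) ∪ (C \ sec3 N (f p)) = C \ sec3 N (f p) := by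
    rw [Set.sdiff_eq_empty.2 h1, Set.empty_union]
  rw [e3, measureReal_sdiff h1 hm1, ha _ (hfD p h3)]
  linarith

end I_HHC

open I_HHC in
theorem HHC_pf (hHM : S_HHM) (hHK : S_HHK) (hRN : S_RKN) (hCL : S_CL2) (hKC : S_KPC)
    (hKB : S_KPB) : S_HHC := by
  intro k M K _ _ _ _ e π hm μ η F N hN p₀ hp₀
  rw [ContinuousWithinAt, Metric.tendsto_nhds]
  intro ε hε
  have hδ : 0 < ε / 12 := by positivity
  obtain ⟨C00, c00, E00⟩ := corner F hRN hCL hKC hKB hN (HD M π) p₀ hp₀ (fun p => p.1.1)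
    (by fun_prop) (fun p hp => hp.1) (ε / 12) hδ
  obtain ⟨C01, c01, E01⟩ := corner F hRN hCL hKC hKB hN (HD M π) p₀ hp₀ (fun p => p.1.2)
    (by fun_prop) (fun p hp => hp.2.1) (ε / 12) hδ
  obtain ⟨C10, c10, E10⟩ := corner F hRN hCL hKC hKB hN (HD M π) p₀ hp₀ (fun p => p.2.1.1)
    (by fun_prop) (fun p hp => hp.2.2.1) (ε / 12) hδ
  obtain ⟨C11, c11, E11⟩ := corner F hRN hCL hKC hKB hN (HD M π) p₀ hp₀ (fun p => p.2.1.2)
    (by fun_prop) (fun p hp => hp.2.2.2.1) (ε / 12) hδ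
  -- the integral of the clopen sets
  let J : (Om k × Om k) × (Om k × Om k) × K → ℝ := fun p =>
    ∫ a, (qm η (π p.1.1) (π p.2.1.1) p.2.2 a).real (qs C00 C01 C10 C11) ∂hm
  have hJ : ContinuousOn J (HD M π) := by
    have h1 := hHK k M K e π hm μ η F C00 C01 C10 C11 c00 c01 c10 c11
    have h2 : ContinuousOn (fun p : (Om k × Om k) × (Om k × Om k) × K =>
        (π p.1.1, π p.2.1.1, p.2.2)) (HD M π) := by
      refine ContinuousOn.prodMk ?_ (ContinuousOn.prodMk ?_ ?_)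
      · exact F.kro.cont.comp (by fun_prop) (fun p hp => hp.1)
      · exact F.kro.cont.comp (by fun_prop) (fun p hp => hp.2.2.1)
      · fun_prop
    exact h1.comp_continuousOn h2
  have EJ : ∀ᶠ p in 𝓝[HD M π] p₀, dist (J p) (J p₀) < ε / 12 :=
    (Metric.tendsto_nhds.1 (hJ p₀ hp₀)) (ε / 12) hδ
  have hmeas : ∀ v : Om k, MeasurableSet (sec3 N v) := fun v =>
    (sec_closed hN.closed v).measurableSet
  -- comparison at one point
  have cmp : ∀ p ∈ HD M π,
      (kap3 hm η (π p.1.1)).real ((sec3 N p.1.1 \ C00) ∪ (C00 \ sec3 N p.1.1)) < ε / 12 →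
      (kap3 hm η (π p.1.2)).real ((sec3 N p.1.2 \ C01) ∪ (C01 \ sec3 N p.1.2)) < ε / 12 →
      (kap3 hm η (π p.2.1.1)).real ((sec3 N p.2.1.1 \ C10) ∪ (C10 \ sec3 N p.2.1.1)) < ε / 12 →
      (kap3 hm η (π p.2.1.2)).real ((sec3 N p.2.1.2 \ C11) ∪ (C11 \ sec3 N p.2.1.2)) < ε / 12 →
      |HH hm η π N p.1.1 p.1.2 p.2.1.1 p.2.1.2 p.2.2 - J p| < ε / 3 := by
    intro p hp h00 h01 h10 h11
    have h := hHM k M K e π hm μ η F (π p.1.1) (π p.1.2) (π p.2.1.1) (π p.2.1.2) p.2.2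
      hp.2.2.2.2.1 hp.2.2.2.2.2 (sec3 N p.1.1) (sec3 N p.1.2) (sec3 N p.2.1.1) (sec3 N p.2.1.2)
      C00 C01 C10 C11 (hmeas _) (hmeas _) (hmeas _) (hmeas _) c00.1.measurableSet
      c01.1.measurableSet c10.1.measurableSet c11.1.measurableSet
    calc |HH hm η π N p.1.1 p.1.2 p.2.1.1 p.2.1.2 p.2.2 - J p| ≤ _ := h
      _ < ε / 3 := by linarith
  have self0 : ∀ {Q : (Om k × Om k) × (Om k × Om k) × K → Prop},
      (∀ᶠ p in 𝓝[HD M π] p₀, Q p) → Q p₀ := fun h => h.self_of_nhdsWithin hp₀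
  have at0 := cmp p₀ hp₀ (self0 E00) (self0 E01) (self0 E10) (self0 E11)
  filter_upwards [E00, E01, E10, E11, EJ, self_mem_nhdsWithin] with p h00 h01 h10 h11 hj hp
  have at1 := cmp p hp h00 h01 h10 h11
  rw [Real.dist_eq] at hj ⊢
  rw [abs_lt] at *
  constructor <;> linarith [at0.1, at0.2, at1.1, at1.2, hj.1, hj.2]

end Pool.Agent.Work.MP_69fea5_lc.N3
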