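import Pool.Agent.Work.MP_69fea5_lc.N3.StmtsB
import Pool.Agent.Work.MP_69fea5_lc.N3.I_AVG

/-! Item [JNT] of block [69fea5 N3]: the joint law of the point and its position. -/

set_option autoImplicit false

namespace Pool.Agent.Work.MP_69fea5_lc.N3

open MeasureTheory Topology Set Filter ProbabilityTheory
open scoped NNReal ENNReal
open Pool.Agent.Work.MP_69fea5_lc.AK
open Pool.Agent.Work.MP_69fea5_lc.HK (mr)

namespace I_JNT

/-- averages over `L` and over `L + 1` terms -/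
theorem avg_shift (a : ℕ → ℝ) (B : ℝ) (hB : ∀ i, |a i| ≤ B) :
    Tendsto (fun L : ℕ => (∑ i ∈ Finset.range (L + 1), a i) / ((L : ℝ) + 1) -
      (∑ i ∈ Finset.range L, a i) / L) atTop (𝓝 0) := by
  have hB0 : 0 ≤ B := (abs_nonneg _).trans (hB 0)
  have h1 : Tendsto (fun L : ℕ => (2 * B) * (1 / ((L : ℝ) + 1))) atTop (𝓝 0) := by
    have := (tendsto_one_div_add_atTop_nhds_zero_nat (𝕜 := ℝ)).const_mul (2 * B)
    rwa [mul_zero] at this
  refine squeeze_zero_norm' ?_ h1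
  filter_upwards [eventually_ge_atTop 1] with L hL
  have hL0 : (0 : ℝ) < L := by exact_mod_cast hL
  have hL1 : (0 : ℝ) < (L : ℝ) + 1 := by positivity
  have hs : |∑ i ∈ Finset.range L, a i| ≤ L * B := by
    refine (Finset.abs_sum_le_sum_abs _ _).trans ?_
    refine (Finset.sum_le_sum fun i _ => hB i).trans ?_
    simp
  rw [Finset.sum_range_succ, Real.norm_eq_abs]
  have e : (∑ i ∈ Finset.range L, a i + a L) / ((L : ℝ) + 1) - (∑ i ∈ Finset.range L, a i) / L =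
      a L * (1 / ((L : ℝ) + 1)) - (∑ i ∈ Finset.range L, a i) / L * (1 / ((L : ℝ) + 1)) := by
    field_simp
    ring
  rw [e]
  refine (abs_sub _ _).trans ?_
  rw [abs_mul, abs_mul, abs_of_pos (show 0 < 1 / ((L : ℝ) + 1) by positivity), abs_div,
    abs_of_pos hL0]
  have h2 : |∑ i ∈ Finset.range L, a i| / L ≤ B := by
    rw [div_le_iff₀ hL0, mul_comm]
    exact hs
  have h3 : (0 : ℝ) ≤ 1 / ((L : ℝ) + 1) := by positivity
  calc |a L| * (1 / ((L : ℝ) + 1)) + |∑ i ∈ Finset.range L, a i| / L * (1 / ((L : ℝ) + 1))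
      ≤ B * (1 / ((L : ℝ) + 1)) + B * (1 / ((L : ℝ) + 1)) :=
        add_le_add (mul_le_mul_of_nonneg_right (hB L) h3) (mul_le_mul_of_nonneg_right h2 h3)
    _ = 2 * B * (1 / ((L : ℝ) + 1)) := by ring

/-- the limits are the same -/
theorem avg_iff (U : Ultrafilter ℕ) (hU : (U : Filter ℕ) ≤ atTop) (a : ℕ → ℝ) (B : ℝ)
    (hB : ∀ i, |a i| ≤ B) (x : ℝ) :
    Tendsto (fun L : ℕ => (∑ i ∈ Finset.range (L + 1), a i) / ((L : ℝ) + 1)) (U : Filter ℕ) (𝓝 x) ↔
    Tendsto (fun L : ℕ => (∑ i ∈ Finset.range L, a i) / L) (U : Filter ℕ) (𝓝 x) := by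
  have h := (avg_shift a B hB).mono_left hU
  constructor
  · intro h1
    have := h1.sub h
    rw [sub_zero] at this
    refine this.congr fun L => ?_
    ring
  · intro h1
    have := h1.add h
    rw [add_zero] at this
    refine this.congr fun L => ?_
    ring

variable {k : ℕ}

theorem pm_le_one (m : PM k) (C : Set (Om k)) : |((m C : ℝ≥0) : ℝ)| ≤ 1 := by
  rw [abs_of_nonneg (NNReal.coe_nonneg _)]
  exact_mod_cast ProbabilityMeasure.apply_le_one m C

/-- values of the averages -/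
theorem avP_apply (m0 : PM k) (L : ℕ) (C : Set (Om k)) :
    ((avP m0 L C : ℝ≥0) : ℝ) =
      (∑ i ∈ Finset.range (L + 1), ((sh (i : ℤ) m0) C : ℝ)) / ((L : ℝ) + 1) := by
  have h0 : ((avP m0 L C : ℝ≥0) : ℝ) = ((avM m0 L) C).toReal := rfl
  rw [h0]
  unfold avM
  rw [Measure.smul_apply, Measure.finsetSum_apply, smul_eq_mul, ENNReal.toReal_mul,
    ENNReal.toReal_inv, ENNReal.toReal_natCast, ENNReal.toReal_sum]
  · push_cast
    rw [div_eq_inv_mul]
    rfl
  · intro i _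
    exact measure_ne_top _ _

/-- from `Avm` to convergence in the space of measures -/
theorem tendsto_avP (hCYL : AK.S_CYL) (hPMB : AK.S_PMB) {U : Ultrafilter ℕ}
    (hU : (U : Filter ℕ) ≤ atTop) {m0 μ : PM k} (h : Avm U m0 μ) :
    Tendsto (avP m0) (U : Filter ℕ) (𝓝 μ) := by
  refine (hPMB k).2.2.2.2 μ (Filter.map (avP m0) (U : Filter ℕ)) fun w => ?_
  rw [tendsto_map'_iff]
  have h1 := h (cyl w 0) ((hCYL k).1 w 0)
  rw [← avg_iff U hU _ 1 (fun i => pm_le_one _ _)] at h1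
  rw [← NNReal.tendsto_coe]
  refine h1.congr fun L => ?_
  exact (avP_apply m0 L _).symm

end I_JNT

open I_JNT

theorem JNT_pf (hCYL : AK.S_CYL) (hPMB : AK.S_PMB) : S_JNT := by
  intro k c M K _ _ _ _ e π hm μ η hFc U m0 hU hSm hAvm C φ hC hφ
  have h1 := tendsto_avP hCYL hPMB hU hAvm
  have h2 := AVG_pf k M K e π hm μ η hFc.fr m0 U hSm.zer h1 φ hφ C hC
  obtain ⟨B, hB⟩ := (isCompact_univ (X := K)).exists_bound_of_continuousOn hφ.continuousOn
  have hb : ∀ i : ℕ, |φ ((i : ℤ) • e) * ((sh (i : ℤ) m0) C : ℝ)| ≤ B := by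
    intro i
    rw [abs_mul]
    have := hB ((i : ℤ) • e) (mem_univ _)
    rw [Real.norm_eq_abs] at this
    calc |φ ((i : ℤ) • e)| * |(((sh (i : ℤ) m0) C : ℝ≥0) : ℝ)| ≤ B * 1 :=
          mul_le_mul this (pm_le_one _ _) (abs_nonneg _) ((abs_nonneg _).trans this)
      _ = B := mul_one B
  exact (avg_iff U hU _ B hb _).1 h2

end Pool.Agent.Work.MP_69fea5_lc.N3
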