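import Pool.Agent.Work.MP_69fea5_lc.N3.StmtsA

set_option autoImplicit false

namespace Pool.Agent.Work.MP_69fea5_lc.N3

open MeasureTheory Topology Set Filter ProbabilityTheory
open scoped NNReal ENNReal
open Pool.Agent.Work.MP_69fea5_lc.AK

theorem KGR47_pf (hIMG : AK.S_IMG) (hOMG : AK.S_OMG) (hIKB : S_IKB) : S_KGR := by
  intro k c g K _ _ e π G b hmin hkro hle hG hb hlim hbe
  obtain ⟨hic, -, hie, -, -⟩ := hIKB K e hkro.dense hle
  have hM : MinSet ((fun w => (w, iK e (π w))) '' orb g : Set (Om k × Cube Unit)) := by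
    refine hIMG (Om k) (Om k × Cube Unit) (orb g) (fun w => (w, iK e (π w))) hmin ?_ ?_
    · exact continuousOn_id.prodMk (hic.comp_continuousOn hkro.cont)
    · intro n x hx
      rw [hkro.equi x hx, hie]
      rfl
  refine ⟨hM, ?_⟩
  have hg : g ∈ orb g := subset_closure ⟨0, sh_zero g⟩
  have hmem : (g, iK e (π g)) ∈ omg (c, iK e (0 : K)) := by
    intro U hU N
    have h1 : Tendsto (fun n => sh (b n : ℤ) (c, iK e (0 : K))) (G : Filter ℕ)
        (𝓝 (g, iK e (π g))) := by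
      have h2 : Tendsto (fun n => iK e ((b n : ℤ) • e)) (G : Filter ℕ) (𝓝 (iK e (π g))) :=
        (hic.tendsto _).comp hbe
      refine (hlim.prodMk_nhds h2).congr fun n => ?_
      rw [sh_prod, ← hie, zero_add]
    obtain ⟨n, h3, h4⟩ := ((h1.eventually hU).and (hG (eventually_ge_atTop N))).exists
    exact ⟨b n, h4.trans (hb n), h3⟩
  obtain ⟨ho1, ho2, -⟩ := hOMG (Om k × Cube Unit) (c, iK e (0 : K))
  have hint := hM.min (((fun w => (w, iK e (π w))) '' orb g) ∩ omg (c, iK e (0 : K)))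
    (hM.closed.inter ho1) ⟨_, ⟨g, hg, rfl⟩, hmem⟩
    (fun n x hx => ⟨hM.inv n x hx.1, ho2 n x hx.2⟩) inter_subset_left
  rw [← hint]
  exact inter_subset_right

end Pool.Agent.Work.MP_69fea5_lc.N3
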