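import Pool.Agent.Work.MP_69fea5_lc.N3.StmtsA

/-!
# Block [69fea5 N3], item KPE: equivariance of the kernels of progressions
-/

set_option autoImplicit false

namespace Pool.Agent.Work.MP_69fea5_lc.N3

open MeasureTheory Topology Set Filter ProbabilityTheory
open scoped NNReal ENNReal
open Pool.Agent.Work.MP_69fea5_lc.AK

namespace I_KPE

variable {k : ℕ} {K : Type} [NormedAddCommGroup K] [CompactSpace K] [MeasurableSpace K]
  [BorelSpace K]

theorem map_sh (m : Measure (Om k)) (a b : ℤ) :
    (m.map (sh a : Om k → Om k)).map (sh b : Om k → Om k) = m.map (sh (b + a) : Om k → Om k) := by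
  rw [Measure.map_map (sh_cont b).measurable (sh_cont a).measurable]
  congr 1
  exact (funext fun z => sh_add b a z).symm

theorem eqv_nat {e : K} {hm : Measure K} [hm.IsAddHaarMeasure] {η : Kernel K (Om k)}
    (h : ∀ᵐ t ∂hm, η (t + e) = (η t).map (sh 1 : Om k → Om k)) (n : ℕ) :
    ∀ᵐ t ∂hm, η (t + (n : ℤ) • e) = (η t).map (sh (n : ℤ) : Om k → Om k) := by
  induction n with
  | zero =>
    refine Eventually.of_forall fun t => ?_
    have h0 : (sh ((0 : ℕ) : ℤ) : Om k → Om k) = id := funext fun z => sh_zero z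
    rw [h0, Measure.map_id]
    simp
  | succ n ih =>
    have h1 : ∀ᵐ t ∂hm, η (t + (n : ℤ) • e + e) =
        (η (t + (n : ℤ) • e)).map (sh 1 : Om k → Om k) :=
      (measurePreserving_add_right hm ((n : ℤ) • e)).quasiMeasurePreserving.ae h
    filter_upwards [h1, ih] with t h1 h2
    have e1 : t + ((n + 1 : ℕ) : ℤ) • e = t + (n : ℤ) • e + e := by
      push_cast
      rw [add_zsmul, one_zsmul, add_assoc]
    rw [e1, h1, h2, map_sh]
    congr 2
    push_cast
    ring

theorem eqv_int {e : K} {hm : Measure K} [hm.IsAddHaarMeasure] {η : Kernel K (Om k)}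
    (h : ∀ᵐ t ∂hm, η (t + e) = (η t).map (sh 1 : Om k → Om k)) (n : ℤ) :
    ∀ᵐ t ∂hm, η (t + n • e) = (η t).map (sh n : Om k → Om k) := by
  obtain ⟨m, rfl | rfl⟩ := Int.eq_nat_or_neg n
  · exact eqv_nat h m
  · have h1 : ∀ᵐ t ∂hm, η (t + (-(m : ℤ)) • e + (m : ℤ) • e) =
        (η (t + (-(m : ℤ)) • e)).map (sh (m : ℤ) : Om k → Om k) :=
      (measurePreserving_add_right hm ((-(m : ℤ)) • e)).quasiMeasurePreserving.ae (eqv_nat h m)
    filter_upwards [h1] with t h1
    have e1 : t + (-(m : ℤ)) • e + (m : ℤ) • e = t := by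
      rw [neg_zsmul, neg_add_cancel_right]
    rw [e1] at h1
    rw [h1, map_sh]
    have h0 : (sh (-(m : ℤ) + (m : ℤ)) : Om k → Om k) = id := by
      rw [neg_add_cancel]
      exact funext fun z => sh_zero z
    rw [h0, Measure.map_id]

theorem qmp_double {hm : Measure K} [hm.IsAddHaarMeasure]
    (hd : hm.map (fun t => t + t) ≤ (2 : ℝ≥0∞) • hm) (a : K) :
    Measure.QuasiMeasurePreserving (fun t : K => a + t + t) hm hm := by
  have hdm : Measurable fun t : K => t + t := (continuous_id.add continuous_id).measurable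
  have h1 : Measure.QuasiMeasurePreserving (fun t : K => t + t) hm hm :=
    ⟨hdm, (Measure.absolutelyContinuous_of_le hd).trans
      (Measure.smul_absolutelyContinuous)⟩
  have h2 := (measurePreserving_add_left hm a).quasiMeasurePreserving.comp h1
  have e1 : ((fun x => a + x) ∘ fun t : K => t + t) = fun t : K => a + t + t := by
    funext t
    show a + (t + t) = a + t + t
    rw [add_assoc]
  rwa [e1] at h2

theorem prod_map (m m' : Measure (Om k)) [IsProbabilityMeasure m] [IsProbabilityMeasure m']
    (n : ℤ) (S : Set (Om k × Om k)) (hS : MeasurableSet S) :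
    ((m.map (sh n : Om k → Om k)).prod (m'.map (sh n : Om k → Om k))) S =
      (m.prod m') {p | sh n p ∈ S} := by
  have hn : Measurable (sh n : Om k → Om k) := (sh_cont n).measurable
  rw [Measure.map_prod_map m m' hn hn, Measure.map_apply (hn.prodMap hn) hS]
  rfl

end I_KPE

open I_KPE in
theorem KPE_pf (h1 : S_KPB) (h2 : S_DBL) : S_KPE := by
  intro k M K _ _ _ _ e π hm μ η F n a S hS
  have := F.prob
  have := F.haar
  have := F.dis.markov
  obtain ⟨-, k1, k3, -, -⟩ := h1 k M K e π hm μ η F
  have hd := h2 K hm e F.kro.dense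
  have hq := eqv_int F.dis.eqv n
  have hS' : MeasurableSet {p : Om k × Om k | sh n p ∈ S} := (sh_cont n).measurable hS
  refine ⟨?_, ?_⟩
  · rw [k1 _ _ hS, k1 _ _ hS']
    refine lintegral_congr_ae ?_
    have q1 : ∀ᵐ t ∂hm, η (a + t + n • e) = (η (a + t)).map (sh n : Om k → Om k) :=
      (measurePreserving_add_left hm a).quasiMeasurePreserving.ae hq
    have q2 : ∀ᵐ t ∂hm, η (a + t + t + n • e) = (η (a + t + t)).map (sh n : Om k → Om k) :=
      (qmp_double hd a).ae hq
    filter_upwards [q1, q2] with t q1 q2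
    have e1 : a + n • e + t = a + t + n • e := by abel
    have e2 : a + t + n • e + t = a + t + t + n • e := by abel
    rw [e1, e2, q1, q2]
    exact prod_map _ _ n S hS
  · rw [k3 _ _ hS, k3 _ _ hS']
    refine lintegral_congr_ae ?_
    have hneg : Measure.QuasiMeasurePreserving (fun t : K => -t) hm hm :=
      (Measure.measurePreserving_neg hm).quasiMeasurePreserving
    have q1 : ∀ᵐ t ∂hm, η (a + -t + n • e) = (η (a + -t)).map (sh n : Om k → Om k) :=
      ((measurePreserving_add_left hm a).quasiMeasurePreserving.comp hneg).ae hq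
    have q2 : ∀ᵐ t ∂hm, η (a + -t + -t + n • e) =
        (η (a + -t + -t)).map (sh n : Om k → Om k) :=
      ((qmp_double hd a).comp hneg).ae hq
    filter_upwards [q1, q2] with t q1 q2
    have e1 : a + n • e - t = a + -t + n • e := by abel
    have e2 : a + -t + n • e - t = a + -t + -t + n • e := by abel
    have e3 : a - t = a + -t := by abel
    have e4 : a + -t - t = a + -t + -t := by abel
    rw [e1, e2, e3, e4, q1, q2]
    exact prod_map _ _ n S hS

end Pool.Agent.Work.MP_69fea5_lc.N3
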