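import Pool.Agent.Work.MP_69fea5_lc.N3.StmtsH2

/-!
Block [69fea5 N3], items MU3, MN3: assembly.
-/

set_option autoImplicit false

namespace Pool.Agent.Work.MP_69fea5_lc.N3

open MeasureTheory Topology Set Filter ProbabilityTheory
open scoped NNReal ENNReal
open Pool.Agent.Work.MP_69fea5_lc.AK
open Pool.Agent.Work.MP_69fea5_lc.HK (Cl DU Ar ArF ArR Dat Law LawC act near sc Pt oc Mn mr ext)

theorem MU3_pf (hEXTC : KC.S_EXTC) (hFRM : S_FRM) (hKPB : S_KPB) (hSMC : S_SMC) (hBAV : S_BAV)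
    (hGCA : S_GCA) (hCI3 : S_CI3) (hZS1 : AK.S_ZS1) (hKZS : KC.S_KZS) (hMTC : S_MTC)
    (hDIC : S_DIC) (hT3C : S_T3C) (hHAC : S_HAC) (hHBC : S_HBC) (hGSL : S_GSL) : S_MU3 := by
  intro S U hS hU k c hc
  have hpc := hEXTC S hS k c hc
  obtain ⟨g, K, _, _, _, _, e, π, hm, μ, m0, η, h⟩ := hFRM S U hS hU k (ext c) hpc
  have hfc : Fc (ext c : Om k) (orb g) e π hm μ η := h.fc
  haveI hprob : IsProbabilityMeasure (kap1 hm η 0) := ((hKPB k (orb g) K e π hm μ η h.fr).1 0).1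
  by_cases hII : CaseII3 (ext c : Om k) (kap1 hm η 0)
  swap
  · exact Or.inl (hCI3 S hS k c _ hc hpc h.nc
      (hGCA k (ext c) (orb g) K e π hm μ η hfc hII))
  have hsm : Sm (ext c : Om k) (orb g) π m0 :=
    hSMC k (ext c) (orb g) K e π h.fr.min h.fr.kro h.nrm hfc.ret h.base m0 h.aa h.mm
  have hav : Avm U m0 μ := hBAV k U m0 μ h.top h.av
  obtain ⟨z, hz, hZ⟩ := hKZS S U hS hU k (ext c) m0 hpc h.ptm (hZS1 k (ext c) m0 _ hsm.stg)
  obtain ⟨hbp, -⟩ := hMTC k (ext c) (orb g) K e π hm μ η hfc m0 hsm z hZ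
  obtain ⟨r, hr⟩ := hDIC k (ext c) (orb g) K e π hm μ η hfc U m0 h.top hsm hav z hZ hII
  have hth : Pt S (Th3 (ext c : Om k) (orb g) e π hm η z) :=
    hT3C S U hS k (ext c) g K e π hm μ m0 η h z hbp.mem hbp.pos hz
  have hik : Pt S (iK e (π z)) := by rw [hbp.pos]; exact h.pt0
  refine Or.inr ⟨r, ?_⟩
  rcases hr with h1 | ⟨L₀, L₁, h1⟩
  · exact hGSL S hS k c _ _ hc
      (hHAC S hS k (ext c) K hm η (ps (ext c : Om k) (orb g) e π hm η z) r hpc h.nc hth) h1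
  · exact hGSL S hS k c _ _ hc
      (hHBC S hS k m0 (ps (ext c : Om k) (orb g) e π hm η z) z L₀ L₁ r h.ptm hik hth hz) h1

theorem MN3_pf (hM : S_MU3) : S_MN3 := by
  intro S hS k c hc
  obtain ⟨S', hS', hco, hmem, hsub⟩ :=
    HK.exists_cl_countable (HK.cod fun p : ℕ × Fin k => c p.1 = p.2)
  obtain ⟨U, hU⟩ := HK.exists_DU hS' hco
  have hc' : ArF S' c := hmem
  rcases hM S' U hS' hU k c hc' with ⟨A, hA, hA'⟩ | ⟨r, A, hA, hA'⟩
  · exact Or.inl ⟨A, hsub S hS hc hA, hA'⟩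
  · exact Or.inr ⟨r, A, hsub S hS hc hA, hA'⟩

end Pool.Agent.Work.MP_69fea5_lc.N3
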