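import Pool.Agent.Work.MP_69fea5_lc.N3.StmtsH

set_option autoImplicit false

namespace Pool.Agent.Work.MP_69fea5_lc.N3

open MeasureTheory Topology Set Filter ProbabilityTheory
open scoped NNReal ENNReal
open Pool.Agent.Work.MP_69fea5_lc.AK
open Pool.Agent.Work.MP_69fea5_lc.HK (Cl DU Ar ArF ArR Dat Law LawC act near sc Pt oc Mn mr)

theorem PIK47_pf : S_PIK := by
  intro S U hS hU K _ _ e v b hle hne hb hv
  have hval : ∀ (w : K) (j : ℤ), ((iK e w) () j : ℝ) = ‖w + j • e‖ := by
    intro w j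
    unfold iK
    rw [Set.coe_projIcc]
    rw [min_eq_right (hle _), max_eq_right (norm_nonneg _)]
  have h1 : ArR S fun j : ℤ => ‖v + j • e‖ := by
    refine ArR.lim hS hU (f := fun (j : ℤ) (n : ℕ) => ‖((b n : ℤ) + j) • e‖) ?_
      (fun _ _ => norm_nonneg _) ?_
    · exact ArR.sub hS hne (g := fun p : ℤ × ℕ => (b p.2 : ℤ) + p.1)
        (ArF.intAdd hS ((hb.comp hS (ArF.snd hS)).natCast hS) (ArF.fst hS))
    · intro j
      have h2 : Tendsto (fun n => (b n : ℤ) • e + j • e) (U : Filter ℕ) (𝓝 (v + j • e)) :=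
        hv.add_const _
      exact (h2.norm).congr fun n => by rw [add_smul]
  constructor
  · have h2 : ArR S fun j : ℤ => ‖(0 : K) + j • e‖ := hne.congr fun j => by rw [zero_add]
    have h3 : ArR S fun p : Unit × Unit × ℤ => ‖(0 : K) + p.2.2 • e‖ :=
      ArR.comp hS h2 (Primrec.snd.comp Primrec.snd)
    exact h3.congr fun p => hval _ _
  · have h3 : ArR S fun p : Unit × Unit × ℤ => ‖v + p.2.2 • e‖ :=
      ArR.comp hS h1 (Primrec.snd.comp Primrec.snd)
    exact h3.congr fun p => hval _ _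

end Pool.Agent.Work.MP_69fea5_lc.N3
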