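import Pool.Agent.Work.MP_69fea5_lc.N3.StmtsA

/-! Item [PIN] of block [69fea5 N3]: the displacement does not depend on the point. -/

set_option autoImplicit false

namespace Pool.Agent.Work.MP_69fea5_lc.N3

open MeasureTheory Topology Set Filter ProbabilityTheory
open scoped NNReal ENNReal
open Pool.Agent.Work.MP_69fea5_lc.AK

theorem PIN_pf (hcst : AK.S_CST) : S_PIN := by
  intro k M ρ hM hρ n x hx y hy
  refine hcst (Om k) M (fun x => ρ (sh n x) x) hM ?_ ?_ x hx y hy
  · intro m x hx
    show ρ (sh n (sh m x)) (sh m x) = ρ (sh n x) x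
    rw [← sh_add, add_comm, sh_add, hρ.inv m _ (hM.inv n x hx) _ hx]
  · intro a
    have hc : ContinuousOn (fun x : Om k => ρ (sh n x) x) M := by
      have h1 : ContinuousOn (fun x : Om k => (sh n x, x)) M :=
        ((sh_cont n).prodMk continuous_id).continuousOn
      exact hρ.cont.comp h1 fun x hx => ⟨hM.inv n x hx, hx⟩
    exact hc.preimage_isClosed_of_isClosed hM.closed isClosed_Ici

end Pool.Agent.Work.MP_69fea5_lc.N3
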