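import Pool.Agent.Work.MP_69fea5_lc.N3.StmtsB

/-!
Item POS: positions.
-/

set_option autoImplicit false

namespace Pool.Agent.Work.MP_69fea5_lc.N3

open MeasureTheory Topology Set Filter ProbabilityTheory
open scoped NNReal ENNReal
open Pool.Agent.Work.MP_69fea5_lc.AK

theorem POS_pf (hKPB : S_KPB) (hKPS : S_KPS) (hSP2 : S_SP2) : S_POS := by
  intro k c M K _ _ _ _ e π hm μ η h
  have hmin := h.fr.min
  have hkro := h.fr.kro
  have hMcl : IsClosed M := hmin.closed
  have honto : ∀ a : K, ∃ w ∈ M, π w = a := by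
    have hcomp : IsCompact (π '' M) := hMcl.isCompact.image_of_continuousOn hkro.cont
    have hcl : IsClosed (π '' M) := hcomp.isClosed
    obtain ⟨w₀, hw₀⟩ := hmin.ne
    have hsub : (fun x : K => π w₀ + x) '' (Set.range fun n : ℤ => n • e) ⊆ π '' M := by
      rintro _ ⟨_, ⟨n, rfl⟩, rfl⟩
      exact ⟨sh n w₀, hmin.inv n w₀ hw₀, hkro.equi w₀ hw₀ n⟩
    have hd : Dense ((fun x : K => π w₀ + x) '' (Set.range fun n : ℤ => n • e)) := by
      have hd0 : Dense (Set.range fun n : ℤ => n • e) := hkro.dense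
      exact (Homeomorph.addLeft (π w₀)).surjective.denseRange.dense_image
        (Homeomorph.addLeft (π w₀)).continuous hd0
    have huniv : π '' M = univ := by
      have h1 : closure ((fun x : K => π w₀ + x) '' (Set.range fun n : ℤ => n • e)) ⊆ π '' M :=
        closure_minimal hsub hcl
      rw [hd.closure_eq] at h1
      exact eq_univ_of_univ_subset h1
    intro a
    have ha : a ∈ π '' M := by rw [huniv]; exact mem_univ a
    obtain ⟨w, hw, hwa⟩ := ha
    exact ⟨w, hw, hwa⟩
  refine ⟨honto, ?_, hMcl, ?_, ?_⟩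
  · intro a
    have := hkro.cont.preimage_isClosed_of_isClosed hMcl (isClosed_singleton (x := a))
    exact this
  · intro g hg
    obtain ⟨w, hw, hw0⟩ := honto 0
    have hprob : IsProbabilityMeasure (kap1 hm η 0) :=
      ((hKPB k M K e π hm μ η h.fr).1 0).1
    have hnull := (hKPS k M K e π hm μ η h.fr w hw).1
    rw [hw0] at hnull
    have hsupp := (hSP2 k (kap1 hm η 0)).2.2.1 g
    -- the good set is closed
    have hc1 : ContinuousOn (fun p : Om k × Om k => π p.2) (M ×ˢ M) :=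
      hkro.cont.comp continuous_snd.continuousOn (fun p hp => hp.2)
    have hc2 : ContinuousOn (fun p : Om k × Om k => π p.1 + π p.1) (M ×ˢ M) := by
      have hc : ContinuousOn (fun p : Om k × Om k => π p.1) (M ×ˢ M) :=
        hkro.cont.comp continuous_fst.continuousOn (fun p hp => hp.1)
      exact hc.add hc
    have hclosed : IsClosed {p : Om k × Om k | p ∈ M ×ˢ M ∧ π p.2 = π p.1 + π p.1} := by
      have h3 : ContinuousOn (fun p : Om k × Om k => π p.2 - (π p.1 + π p.1)) (M ×ˢ M) :=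
        hc1.sub hc2
      have h4 := h3.preimage_isClosed_of_isClosed (hMcl.prod hMcl)
        (isClosed_singleton (x := (0 : K)))
      have h5 : {p : Om k × Om k | p ∈ M ×ˢ M ∧ π p.2 = π p.1 + π p.1} =
          (M ×ˢ M) ∩ (fun p : Om k × Om k => π p.2 - (π p.1 + π p.1)) ⁻¹' {(0 : K)} := by
        ext p
        simp only [Set.mem_ofPred_eq, mem_inter_iff, mem_preimage, mem_singleton_iff, sub_eq_zero]
      rw [h5]
      exact h4
    by_contra hcon
    have hgn : g ∈ {p : Om k × Om k | p ∈ M ×ˢ M ∧ π p.2 = π p.1 + π p.1}ᶜ := by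
      intro hgm
      exact hcon ⟨hgm.1.1, hgm.1.2, hgm.2⟩
    have hpos := hsupp.mp hg _ (hclosed.isOpen_compl.mem_nhds hgn)
    have hle : (kap1 hm η 0) {p : Om k × Om k | p ∈ M ×ˢ M ∧ π p.2 = π p.1 + π p.1}ᶜ ≤
        (kap1 hm η 0) (sec1 (Z3 M π) w)ᶜ := by
      apply measure_mono
      intro p hp hp2
      apply hp
      have h6 : w ∈ M ∧ p.1 ∈ M ∧ p.2 ∈ M ∧ π w + π p.2 = π p.1 + π p.1 := hp2
      rw [hw0, zero_add] at h6
      exact ⟨⟨h6.2.1, h6.2.2.1⟩, h6.2.2.2⟩
    rw [hnull] at hle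
    exact absurd (lt_of_lt_of_le hpos hle) (lt_irrefl _)
  · intro n w hw
    exact ⟨hmin.inv n w hw, hkro.equi w hw n⟩

end Pool.Agent.Work.MP_69fea5_lc.N3
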