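import Pool.Agent.Work.MP_69fea5_lc.N3.StmtsA

/-!
# [69fea5 N3 RMC] the measure of the sections of a closed invariant set of pairs is constant on `M`
-/

set_option autoImplicit false

namespace Pool.Agent.Work.MP_69fea5_lc.N3

open MeasureTheory Topology Set Filter ProbabilityTheory
open scoped NNReal ENNReal
open Pool.Agent.Work.MP_69fea5_lc.AK

namespace I_RMC

variable {k : ℕ}

/-- a measure which is invariant under `sh 1` is invariant under all `sh n` -/
theorem sh_all {X : Type*} [TopologicalSpace X] [Sys X] (m : X) (h : sh 1 m = m) (n : ℤ) :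
    sh n m = m := by
  have hneg : sh (-1) m = m := by
    conv_lhs => rw [← h]
    rw [← sh_add]
    simp [sh_zero]
  induction n using Int.induction_on with
  | zero => exact sh_zero m
  | succ n ih => rw [sh_add, h, ih]
  | pred n ih =>
    have : (-(n : ℤ) - 1) = -(n : ℤ) + (-1) := by ring
    rw [this, sh_add, hneg, ih]

theorem inv_iff {X : Type*} [TopologicalSpace X] [Sys X] (R : Set X) (hR : AK.Inv R) (n : ℤ)
    (x : X) : sh n x ∈ R ↔ x ∈ R := by
  constructor
  · intro h
    have := hR (-n) _ h
    rw [← sh_add] at this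
    simpa [sh_zero] using this
  · exact hR n x

end I_RMC

open I_RMC in
theorem RMC_pf (hUSC : AK.S_USC) (hCST : AK.S_CST) (hPMB : AK.S_PMB) : S_RMC := by
  intro k m M hM hm R hR hRi x hx y hy
  obtain ⟨hPM1, -, -, -, -⟩ := hPMB k
  set f : Om k → ℝ := fun z => ((m {u | (z, u) ∈ R} : ℝ≥0) : ℝ) with hf
  have hcl : ∀ z : Om k, IsClosed {u | (z, u) ∈ R} := fun z =>
    hR.preimage (by fun_prop : Continuous fun u : Om k => (z, u))
  have hinv : ∀ (n : ℤ), ∀ z ∈ M, f (sh n z) = f z := by
    intro n z _
    simp only [hf]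
    congr 1
    conv_lhs => rw [← sh_all m hm n]
    rw [hPM1 m n _ (hcl _).measurableSet]
    congr 1
    ext u
    exact inv_iff R hRi n (z, u)
  have husc : ∀ a : ℝ, IsClosed (M ∩ {z | a ≤ f z}) := by
    intro a
    refine hM.closed.inter ?_
    have h := hUSC k (Om k) {q | (q.2, q.1) ∈ R}
      (hR.preimage (by fun_prop : Continuous fun q : Om k × Om k => (q.2, q.1))) a.toNNReal
    have h2 := h.preimage (by fun_prop : Continuous fun z : Om k => (m, z))
    convert h2 using 1
    ext z
    simp only [mem_setOf_eq, mem_preimage, hf]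
    rw [Real.toNNReal_le_iff_le_coe]
  have := hCST (Om k) M f hM hinv husc x hx y hy
  simp only [hf] at this
  exact_mod_cast this

end Pool.Agent.Work.MP_69fea5_lc.N3
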