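import Pool.Agent.Work.MP_69fea5_lc.N3.StmtsB

/-!
# Block [69fea5 N3]: item TH3, the isometric extension
-/

set_option autoImplicit false

namespace Pool.Agent.Work.MP_69fea5_lc.N3

open MeasureTheory Topology Set Filter ProbabilityTheory
open scoped NNReal ENNReal
open Pool.Agent.Work.MP_69fea5_lc.AK

namespace I_TH3

variable {k : ℕ}

theorem meas_sec3 (N : Set (Om k × Om k × Om k)) (hN : IsClosed N) (v : Om k) :
    MeasurableSet (sec3 N v) := by
  have : sec3 N v = (fun p : Om k × Om k => (p.1, p.2, v)) ⁻¹' N := rfl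
  rw [this]
  exact (hN.preimage (by fun_prop)).measurableSet

/-- sections of an invariant set at shifted points -/
theorem sec3_sh (N : Set (Om k × Om k × Om k)) (hN : AK.Inv N) (n : ℤ) (p : Om k × Om k)
    (v : Om k) : sh n p ∈ sec3 N (sh n v) ↔ p ∈ sec3 N v := by
  constructor
  · intro h
    have h' := hN (-n) _ h
    have hz : ∀ z : Om k, sh (-n) (sh n z) = z := fun z => by
      rw [← sh_add, neg_add_cancel, sh_zero]
    change (sh (-n) (sh n p.1), sh (-n) (sh n p.2), sh (-n) (sh n v)) ∈ N at h'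
    rw [hz, hz, hz] at h'
    exact h'
  · intro h
    exact hN n _ h

/-- the sets `N0 P` are closed invariant sets of progressions -/
theorem rel3_N0 (hNNR : S_NNR) {c : Om k} {M : Set (Om k)} {K : Type} [NormedAddCommGroup K]
    [CompactSpace K] [MeasurableSpace K] [BorelSpace K] {e : K} {π : Om k → K} {hm : Measure K}
    {μ : PM k} {η : Kernel K (Om k)} (h : Fc c M e π hm μ η) (P : W2 k) :
    Rel3 M π (N0 c M e π hm η P) :=
  hNNR k c M K e π hm μ η h Unit (fun _ => ()) () continuousOn_const (fun _ _ _ => rfl) P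

end I_TH3

open I_TH3 in
theorem TH3_pf (hNNR : S_NNR) (hRKC : S_RKC) (hRKD : S_RKD) (hRKZ : S_RKZ) (hKPE : S_KPE)
    (hKPB : S_KPB) (hIKB : S_IKB) (hNBX : S_NBX) : S_TH3 := by
  intro k c M K _ _ _ _ e π hm μ η h
  have hR := rel3_N0 hNNR h
  obtain ⟨_, hclo, hshb, _⟩ := hNBX k
  have hval : ∀ v : Om k, ∀ (i : Ix3 k) (n : ℤ), (Th3 c M e π hm η v i n : ℝ) =
      (kap3 hm η (π v)).real (sec3 (N0 c M e π hm η i.1) v ∩ bx i.2 n) := by
    intro v i n
    have hp : IsProbabilityMeasure (kap3 hm η (π v)) :=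
      ((hKPB k M K e π hm μ η h.fr).1 (π v)).2
    unfold Th3
    rw [Set.coe_projIcc, min_eq_right measureReal_le_one, max_eq_right measureReal_nonneg]
  have hcont : ContinuousOn (Th3 c M e π hm η) M := by
    refine continuousOn_pi.mpr fun i => continuousOn_pi.mpr fun n => ?_
    exact continuous_projIcc.comp_continuousOn
      (hRKC k M K e π hm μ η h.fr _ (hR i.1) (bx i.2 n) (hclo i.2 n)).2
  have hequi : ∀ w ∈ M, ∀ n : ℤ, Th3 c M e π hm η (sh n w) = sh n (Th3 c M e π hm η w) := by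
    intro w hw m
    funext i n
    apply Subtype.ext
    rw [hval (sh m w) i n]
    change _ = (Th3 c M e π hm η w i (n + m) : ℝ)
    rw [hval w i (n + m), h.fr.kro.equi w hw m]
    unfold Measure.real
    rw [(hKPE k M K e π hm μ η h.fr m (π w) _
      ((meas_sec3 _ (hR i.1).closed _).inter (hclo i.2 n).1.measurableSet)).2]
    congr 2
    ext p
    simp only [mem_ofPred_eq, mem_inter_iff]
    rw [sec3_sh _ (hR i.1).inv, hshb]
  have hpi : ∀ w ∈ M, ∀ n : ℤ, iK e (π (sh n w)) = sh n (iK e (π w)) := by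
    intro w hw n
    rw [h.fr.kro.equi w hw n]
    exact (hIKB K e h.fr.kro.dense h.bd).2.2.1 (π w) n
  refine ⟨hcont, hequi, ?_, ?_, fun v _ i n => hval v i n, ?_, ?_⟩
  · intro v hv v' hv' hπ hT P
    refine hRKZ k M K e π hm μ η h.fr _ (hR P) v hv v' hv' hπ fun Q => ?_
    rw [← hval v (P, Q) 0, ← hval v' (P, Q) 0, hT]
  · intro v hv v' hv' hπ i n
    rw [hval v i n, hval v' i n]
    exact (hRKD k M K e π hm μ η h.fr _ (hR i.1)).2.2.2.2.2.2 v hv v' hv' hπ _
      (hclo i.2 n).1.measurableSet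
  · exact ((hIKB K e h.fr.kro.dense h.bd).1.comp_continuousOn h.fr.kro.cont).prodMk hcont
  · intro w hw n
    unfold ps
    rw [hequi w hw n, hpi w hw n, sh_prod]

end Pool.Agent.Work.MP_69fea5_lc.N3
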