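import Pool.Agent.Work.MP_69fea5_lc.N3.StmtsB

/-!
# Block [69fea5 N3], item ZNC

The contradiction which shows that the zone is not empty: Fubini, a substitution and the
continuity of integrals of products of translates.
-/

set_option autoImplicit false

namespace Pool.Agent.Work.MP_69fea5_lc.N3

open MeasureTheory Topology Set Filter ProbabilityTheory
open scoped NNReal ENNReal
open Pool.Agent.Work.MP_69fea5_lc.AK

namespace I_ZNC

variable {K : Type} [NormedAddCommGroup K] [CompactSpace K] [MeasurableSpace K] [BorelSpace K]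

/-- Fubini, substitution and continuity. -/
theorem core (hT : S_TRC) (hm : Measure K) [IsProbabilityMeasure hm] [hm.IsAddHaarMeasure] (e : K)
    (hd : Dense (Set.range fun n : ℤ => n • e)) (F G : K → ℝ) (hF : Measurable F)
    (hG : Measurable G) (hF1 : ∀ t, 0 ≤ F t ∧ F t ≤ 1) (hG1 : ∀ t, 0 ≤ G t ∧ G t ≤ 1)
    (H : ∀ᵐ a ∂hm, F a ≠ 0 → ∀ᵐ t ∂hm, 0 < F t * G (t + t) → G (a + t) = 0) :
    ∫ a, F a * G (a + a) ∂hm = 0 := by
  classical
  -- the indicator of `h > 0`
  set h : K → ℝ := fun t => F t * G (t + t) with hh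
  have hmh : Measurable h := hF.mul (hG.comp (measurable_id.add measurable_id))
  set S : Set K := {t | 0 < h t} with hS
  have hSm : MeasurableSet S := measurableSet_lt measurable_const hmh
  set χ : K → ℝ := S.indicator (fun _ => (1 : ℝ)) with hχ
  have hχm : Measurable χ := measurable_const.indicator hSm
  have hχ1 : ∀ t, 0 ≤ χ t ∧ χ t ≤ 1 := by
    intro t
    by_cases ht : t ∈ S
    · simp [hχ, ht]
    · simp [hχ, ht]
  -- the substitution
  have h1 : ∀ᵐ a ∂hm, ∀ᵐ t ∂hm, F a * χ (a + t) * G (a + a + t) = 0 := by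
    filter_upwards [H] with a ha
    by_cases hFa : F a = 0
    · filter_upwards with t
      simp [hFa]
    · have h2 := ha hFa
      have h3 : ∀ᵐ t ∂hm, 0 < F (a + t) * G (a + t + (a + t)) → G (a + (a + t)) = 0 :=
        (quasiMeasurePreserving_add_left hm a).ae h2
      filter_upwards [h3] with t ht
      by_cases hs : (a + t) ∈ S
      · have := ht hs
        rw [← add_assoc] at this
        simp [this]
      · have : χ (a + t) = 0 := by simp [hχ, hs]
        simp [this]
  have hmeas : Measurable fun p : K × K => F p.1 * χ (p.1 + p.2) * G (p.1 + p.1 + p.2) := by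
    refine Measurable.mul (Measurable.mul (hF.comp measurable_fst)
      (hχm.comp (measurable_fst.add measurable_snd))) (hG.comp ?_)
    exact (measurable_fst.add measurable_fst).add measurable_snd
  have hset : MeasurableSet {p : K × K | F p.1 * χ (p.1 + p.2) * G (p.1 + p.1 + p.2) = 0} :=
    measurableSet_eq_fun hmeas measurable_const
  have h4 : ∀ᵐ p ∂(hm.prod hm), F p.1 * χ (p.1 + p.2) * G (p.1 + p.1 + p.2) = 0 :=
    (Measure.ae_prod_iff_ae_ae hset).2 h1
  have h5 : ∀ᵐ t ∂hm, ∀ᵐ a ∂hm, F a * χ (a + t) * G (a + a + t) = 0 := by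
    have h6 : ∀ᵐ p ∂(hm.prod hm), F p.2 * χ (p.2 + p.1) * G (p.2 + p.2 + p.1) = 0 := by
      have hsw : Measure.QuasiMeasurePreserving (Prod.swap : K × K → K × K) (hm.prod hm)
          (hm.prod hm) := Measure.measurePreserving_swap.quasiMeasurePreserving
      exact hsw.ae h4
    exact Measure.ae_ae_of_ae_prod h6
  -- the continuous function
  set Φ : K → ℝ := fun t => ∫ a, F a * χ (a + t) * G (a + a + t) ∂hm with hΦ
  have hcont : Continuous Φ := by
    have hc := hT K hm e hd Bool Unit (fun b => if b then χ else F) (fun _ => G)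
      (by intro b; cases b <;> simp [hF, hχm]) (fun _ => hG)
      (by intro b t; cases b <;> simp [hF1, hχ1]) (fun _ => hG1)
    have hc2 : Continuous fun t : K =>
        ((fun b : Bool => if b then t else 0, fun _ : Unit => t) : (Bool → K) × (Unit → K)) := by
      refine Continuous.prodMk (continuous_pi fun b => ?_) (continuous_pi fun _ => continuous_id)
      cases b
      · exact continuous_const
      · exact continuous_id
    have := hc.comp hc2
    refine this.congr fun t => ?_
    simp only [hΦ, Function.comp]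
    refine integral_congr_ae (Eventually.of_forall fun a => ?_)
    simp [mul_comm]
  have hzero : Φ =ᵐ[hm] fun _ => (0 : ℝ) := by
    filter_upwards [h5] with t ht
    simp only [hΦ]
    exact integral_eq_zero_of_ae ht
  have hall : Φ = fun _ => (0 : ℝ) := (hcont.ae_eq_iff_eq hm continuous_const).1 hzero
  have h0 : Φ 0 = 0 := congrFun hall 0
  rw [← h0]
  simp only [hΦ, add_zero]
  refine integral_congr_ae (Eventually.of_forall fun a => ?_)
  show F a * G (a + a) = F a * χ a * G (a + a)
  by_cases hs : a ∈ S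
  · simp [hχ, hs]
  · have h7 : h a = 0 := by
      have : ¬ 0 < h a := hs
      have h8 : 0 ≤ h a := mul_nonneg (hF1 a).1 (hG1 _).1
      linarith
    have h9 : F a * G (a + a) = 0 := h7
    rw [h9]
    simp [hχ, hs]

end I_ZNC

open I_ZNC in
theorem ZNC_pf (h1 : S_TRC) (h2 : S_KPB) (h3 : AK.S_CYL) : S_ZNC := by
  intro k M K _ _ _ _ e π hm μ η hFr P hpos H
  have : IsProbabilityMeasure hm := hFr.prob
  have : hm.IsAddHaarMeasure := hFr.haar
  have : IsMarkovKernel η := hFr.dis.markov
  have hc1 : MeasurableSet (cyl P.1 0) := ((h3 k).1 P.1 0).1.measurableSet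
  have hc2 : MeasurableSet (cyl P.2 0) := ((h3 k).1 P.2 0).1.measurableSet
  set F : K → ℝ := fun a => (η a).real (cyl P.1 0) with hFd
  set G : K → ℝ := fun a => (η a).real (cyl P.2 0) with hGd
  have hF : Measurable F := (η.measurable_coe hc1).ennreal_toReal
  have hG : Measurable G := (η.measurable_coe hc2).ennreal_toReal
  have hF1 : ∀ t, 0 ≤ F t ∧ F t ≤ 1 := fun t => ⟨measureReal_nonneg, measureReal_le_one⟩
  have hG1 : ∀ t, 0 ≤ G t ∧ G t ≤ 1 := fun t => ⟨measureReal_nonneg, measureReal_le_one⟩
  have hH : ∀ᵐ a ∂hm, F a ≠ 0 → ∀ᵐ t ∂hm, 0 < F t * G (t + t) → G (a + t) = 0 := by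
    have hb : ∀ᵐ a ∂hm, ∀ᵐ w ∂(η a), w ∈ cyl P.1 0 → ∀ᵐ t ∂hm,
        0 < F t * G (t + t) → G (π w + t) = 0 := by
      have := hFr.dis.bind
      rw [← this] at H
      exact Measure.ae_ae_of_ae_bind η.measurable.aemeasurable H
    filter_upwards [hb, hFr.dis.fib] with a ha hfa hne
    have hfa' : ∀ᵐ w ∂(η a), w ∈ {z | z ∈ M ∧ π z = a} := hfa
    have hpa : η a (cyl P.1 0) ≠ 0 := by
      intro h0
      exact hne (by simp [hFd, Measure.real, h0])
    have hfr : ∃ᵐ w ∂(η a), w ∈ cyl P.1 0 := by
      rw [frequently_ae_iff]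
      exact hpa
    obtain ⟨w, hw, hw1, hw2⟩ := (hfr.and_eventually (ha.and hfa')).exists
    have h5 := hw1 hw
    rw [hw2.2] at h5
    exact h5
  have h0 := core h1 hm e hFr.kro.dense F G hF hG hF1 hG1 hH
  -- the value at zero
  have hkap := (h2 k M K e π hm μ η hFr).2.1 0 (bx P 0) (hc1.prod hc2)
  have hval : (kap1 hm η 0).real (bx P 0) = ∫ a, F a * G (a + a) ∂hm := by
    rw [Measure.real, hkap]
    have hm1 : Measurable fun a => F a * G (a + a) :=
      hF.mul (hG.comp (measurable_id.add measurable_id))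
    rw [integral_eq_lintegral_of_nonneg_ae (Eventually.of_forall fun a =>
      mul_nonneg (hF1 a).1 (hG1 _).1) hm1.aestronglyMeasurable]
    congr 1
    refine lintegral_congr fun a => ?_
    rw [zero_add]
    show ((η a).prod (η (a + a))) (cyl P.1 0 ×ˢ cyl P.2 0) = _
    rw [Measure.prod_prod, ENNReal.ofReal_mul (hF1 a).1]
    simp only [hFd, hGd]
    rw [ofReal_measureReal, ofReal_measureReal]
  rw [hval, h0] at hpos
  exact lt_irrefl _ hpos

end Pool.Agent.Work.MP_69fea5_lc.N3
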