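import Pool.Agent.Work.MP_69fea5_lc.N3.DefsB
import Pool.Agent.Work.MP_69fea5_lc.N3.StmtsA

/-!
# Block [69fea5 N3], classical part, second half: the statements of the items

Every item is a theorem `XXX_pf (h1 : S_A) (h2 : S_B) ... : S_XXX` in its own file
`N3/I_XXX.lean`; the hypotheses may be any statements of EARLIER items of this file, of `StmtsA`
or `AK.S_...`.  Paper proof: notes 3504, 3621 on MP_69fea5_lc; proofs in the docstrings.
-/

set_option autoImplicit false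

namespace Pool.Agent.Work.MP_69fea5_lc.N3

open MeasureTheory Topology Set Filter ProbabilityTheory
open scoped NNReal ENNReal
open Pool.Agent.Work.MP_69fea5_lc.AK

/-! ## McMahon's sets of triples -/

/-- [POS] positions: `π` maps `M` onto `K`; `fb M π a` is closed; convergence in `K` can be tested
with `iK e`; the support of `ν = kap1 hm η 0` is in `M × M` and its points satisfy
`π g.2 = π g.1 + π g.1`. Proof: `π '' M` is closed and invariant; `S_IKB`; `S_KPS` at a point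
`w ∈ M` with `π w = 0`: the set `{g | g.1 ∈ M, g.2 ∈ M, π g.2 = π g.1 + π g.1}` is closed and of
full measure (`S_SP2`). -/
def S_POS : Prop := ∀ (k : ℕ) (c : Om k) (M : Set (Om k)) (K : Type) [NormedAddCommGroup K]
  [CompactSpace K] [MeasurableSpace K] [BorelSpace K] (e : K) (π : Om k → K) (hm : Measure K)
  (μ : PM k) (η : Kernel K (Om k)), Fc c M e π hm μ η →
  (∀ a : K, ∃ w ∈ M, π w = a) ∧ (∀ a : K, IsClosed (fb M π a)) ∧ IsClosed M ∧
  (∀ g ∈ sup2 (kap1 hm η 0), g.1 ∈ M ∧ g.2 ∈ M ∧ π g.2 = π g.1 + π g.1) ∧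
  (∀ (n : ℤ) (w : Om k), w ∈ M → sh n w ∈ M ∧ π (sh n w) = π w + n • e)

/-- [NNR] the sets `NN` are closed invariant sets of progressions. Closed: `M` is closed and
`w ↦ (iK e (π w), θ w)` is continuous on `M`. Invariant: shift the times. Positions: for the times
`x`, `T^x g₁` is at the position `π g₁ + x • e`, `T^x g₂` at `2 π g₁ + x • e`, and `x • e → π w`
(`sh x (iK e 0) = iK e (x • e)` is close to `iK e (π w)`: `S_IKB`). -/
def S_NNR : Prop := ∀ (k : ℕ) (c : Om k) (M : Set (Om k)) (K : Type) [NormedAddCommGroup K]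
  [CompactSpace K] [MeasurableSpace K] [BorelSpace K] (e : K) (π : Om k → K) (hm : Measure K)
  (μ : PM k) (η : Kernel K (Om k)), Fc c M e π hm μ η →
  ∀ (B : Type) [TopologicalSpace B] [Sys B] (θ : Om k → B) (b₀ : B), ContinuousOn θ M →
  (∀ w ∈ M, ∀ n : ℤ, θ (sh n w) = sh n (θ w)) → ∀ P : W2 k,
    Rel3 M π (NN c M e π θ b₀ (kap1 hm η 0) P)

/-- [TRN] transport of mass. `E := sec1 (NN ..) w ∩ {g | g.1 ∈ M, π g.1 - π w ∈ C}` is closed; if
its measure is smaller, take a clopen `R ⊇ E` with measure `< kap1 0 (..)` (`S_CL2`); by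
compactness there are neighbourhoods and `L` such that for `x ≥ L` with `T^x (c, iK 0, b₀)` close
to `(w, iK (π w), θ w)` all `g` in the box `P` and in the support with `π g.1 ∈ C` have
`T^x g ∈ R` (otherwise a limit point is in `E`; `π (T^x g.1) - x • e = π g.1`). So
`kap1 0 (..) ≤ kap1 0 {T^x g ∈ R} = kap1 (x • e) R → kap1 (π w) R` (`S_KPE`, `S_KPC`). -/
def S_TRN : Prop := ∀ (k : ℕ) (c : Om k) (M : Set (Om k)) (K : Type) [NormedAddCommGroup K]
  [CompactSpace K] [MeasurableSpace K] [BorelSpace K] (e : K) (π : Om k → K) (hm : Measure K)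
  (μ : PM k) (η : Kernel K (Om k)), Fc c M e π hm μ η →
  ∀ (B : Type) [TopologicalSpace B] [Sys B] (θ : Om k → B) (b₀ : B), Mt c M e π θ b₀ →
  ∀ P : W2 k, Tr M π hm η P (NN c M e π θ b₀ (kap1 hm η 0) P)

/-- [ZCL] the zone of a blocked pair omits the colour `r`: otherwise some `(w, u, v) ∈ N0 P` has
`w ∈ [P.1]`, `u ∈ [P.2]`, `v 0 = r`, an open condition, so there are `x ≥ N` and `g` in the support
of `ν` with `g ∈ nxt P r x`, `c ∈ cyl P.1 x`: `nxt P r x` is an open set which meets the support, so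
`ν (nxt P r x) > 0`. -/
def S_ZCL : Prop := ∀ (k : ℕ) (c : Om k) (M : Set (Om k)) (K : Type) [NormedAddCommGroup K]
  [CompactSpace K] [MeasurableSpace K] [BorelSpace K] (e : K) (π : Om k → K) (hm : Measure K)
  (μ : PM k) (η : Kernel K (Om k)), Fc c M e π hm μ η →
  ∀ (P : W2 k) (r : Fin k), Bl3 c (kap1 hm η 0) P r → ∀ v ∈ M,
  0 < (kap3 hm η (π v)).real (sec3 (N0 c M e π hm η P) v ∩ bx P 0) → v 0 ≠ r

/-- [TH3] the isometric extension: continuity (`S_RKC`), equivariance (`S_KPE`, invariance of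
`N0 P`, boxes), comparison with `dd3` (`S_RKD`, `S_RKZ`). -/
def S_TH3 : Prop := ∀ (k : ℕ) (c : Om k) (M : Set (Om k)) (K : Type) [NormedAddCommGroup K]
  [CompactSpace K] [MeasurableSpace K] [BorelSpace K] (e : K) (π : Om k → K) (hm : Measure K)
  (μ : PM k) (η : Kernel K (Om k)), Fc c M e π hm μ η →
  ContinuousOn (Th3 c M e π hm η) M ∧
  (∀ w ∈ M, ∀ n : ℤ, Th3 c M e π hm η (sh n w) = sh n (Th3 c M e π hm η w)) ∧
  (∀ v ∈ M, ∀ v' ∈ M, π v = π v' → Th3 c M e π hm η v = Th3 c M e π hm η v' →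
    ∀ P : W2 k, dd3 hm η π (N0 c M e π hm η P) v v' = 0) ∧
  (∀ v ∈ M, ∀ v' ∈ M, π v = π v' → ∀ (i : Ix3 k) (n : ℤ),
    |(Th3 c M e π hm η v i n : ℝ) - Th3 c M e π hm η v' i n| ≤
      dd3 hm η π (N0 c M e π hm η i.1) v v') ∧
  (∀ v ∈ M, ∀ (i : Ix3 k) (n : ℤ), (Th3 c M e π hm η v i n : ℝ) =
    (kap3 hm η (π v)).real (sec3 (N0 c M e π hm η i.1) v ∩ bx i.2 n)) ∧
  ContinuousOn (ps c M e π hm η) M ∧
  (∀ w ∈ M, ∀ n : ℤ, ps c M e π hm η (sh n w) = sh n (ps c M e π hm η w))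

/-! ## Step (2): the zone is not empty -/

/-- [RUN] the sections over the second point of a closed invariant set of pairs depend only on the
position (apply `Kro.univ` to `rho μ R'`, `R'` the transposed set, `S_RHC`). -/
def S_RUN : Prop := ∀ (k : ℕ) (M : Set (Om k)) (K : Type) [NormedAddCommGroup K]
  [CompactSpace K] [MeasurableSpace K] [BorelSpace K] (e : K) (π : Om k → K) (hm : Measure K)
  (μ : PM k) (η : Kernel K (Om k)), Fr M e π hm μ η →
  ∀ R : Set (Om k × Om k), IsClosed R → AK.Inv R → ∀ u ∈ M, ∀ u' ∈ M, π u = π u' →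
  μ {w | (w, u) ∈ R ∧ (w, u') ∉ R} = 0

/-- [ZOL] zero-one law: for a.e. `w` and a.e. `s` the section `R_w` has `η s`-measure `0` or `1`.
(By `S_RUN` and Fubini `∫ ∫ ∫ |1_R (w, u) - 1_R (w, u')| = 0`, `u`, `u'` independent with law
`η s`, `w` with law `μ`; the inner integral is `2 q (1 - q)`, `q = η s (R_w)`.) -/
def S_ZOL : Prop := ∀ (k : ℕ) (M : Set (Om k)) (K : Type) [NormedAddCommGroup K]
  [CompactSpace K] [MeasurableSpace K] [BorelSpace K] (e : K) (π : Om k → K) (hm : Measure K)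
  (μ : PM k) (η : Kernel K (Om k)), Fr M e π hm μ η →
  ∀ R : Set (Om k × Om k), IsClosed R → AK.Inv R →
  ∀ᵐ w ∂(μ : Measure (Om k)), ∀ᵐ s ∂hm, η s {u | (w, u) ∈ R} = 0 ∨ η s {u | (w, u) ∈ R} = 1

/-- [FUL] an invariant measure on a minimal set has full support. -/
def S_FUL : Prop := ∀ (k : ℕ) (M : Set (Om k)) (K : Type) [NormedAddCommGroup K]
  [CompactSpace K] [MeasurableSpace K] [BorelSpace K] (e : K) (π : Om k → K) (hm : Measure K)
  (μ : PM k) (η : Kernel K (Om k)), Fr M e π hm μ η →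
  ∀ U : Set (Om k), IsOpen U → (U ∩ M).Nonempty → 0 < μ U

/-- [ZNA] if the zone is empty then the first sections over `[P.1]` do not charge `[P.2] × M`: Fubini
(`S_KPF` with `A = {(w, u, v) | w ∈ [P.1], u ∈ [P.2]}`) gives this for a.e. `w`, the function
`w ↦ kap1 (π w) (sec1 N w ∩ ([P.2] × M))` is continuous on `M` (`S_RKC`), `μ` has full support
(`S_FUL`). -/
def S_ZNA : Prop := ∀ (k : ℕ) (M : Set (Om k)) (K : Type) [NormedAddCommGroup K]
  [CompactSpace K] [MeasurableSpace K] [BorelSpace K] (e : K) (π : Om k → K) (hm : Measure K)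
  (μ : PM k) (η : Kernel K (Om k)), Fr M e π hm μ η →
  ∀ N : Set (Om k × Om k × Om k), Rel3 M π N → ∀ P : W2 k,
  (∀ v ∈ M, (kap3 hm η (π v)).real (sec3 N v ∩ bx P 0) = 0) →
  ∀ w ∈ M, w ∈ cyl P.1 0 → (kap1 hm η (π w)).real (sec1 N w ∩ {g | g.1 ∈ cyl P.2 0}) = 0

/-- [ZNB] let `R = {(w, u) | the orbit avoids [P.1] × [P.2]}` (closed, invariant). For `w ∈ M` almost
all `g` in `sec1 N w` have `(w, g.1) ∈ R` (shift: `S_KPE`). With `Tr` and the law of `g.1`
(position `π w + t`, `t` Haar, conditional law `η`): for all closed `C`,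
`∫_C h ≤ ∫_C η (π w + t) (R_w) dt`, `h t = η t [P.1] * η (t + t) [P.2]`. So for a.e. `t` with
`h t > 0` one has `η (π w + t) (R_w) > 0`, hence `= 1` for a.e. `w` (`S_ZOL`, and the map
`t ↦ π w + t` preserves null sets), and `R_w ∩ [P.2] = ∅` if `w ∈ [P.1]`. -/
def S_ZNB : Prop := ∀ (k : ℕ) (M : Set (Om k)) (K : Type) [NormedAddCommGroup K]
  [CompactSpace K] [MeasurableSpace K] [BorelSpace K] (e : K) (π : Om k → K) (hm : Measure K)
  (μ : PM k) (η : Kernel K (Om k)), Fr M e π hm μ η →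
  ∀ N : Set (Om k × Om k × Om k), Rel3 M π N → ∀ P : W2 k, Tr M π hm η P N →
  (∀ w ∈ M, w ∈ cyl P.1 0 →
    (kap1 hm η (π w)).real (sec1 N w ∩ {g | g.1 ∈ cyl P.2 0}) = 0) →
  ∀ᵐ w ∂(μ : Measure (Om k)), w ∈ cyl P.1 0 → ∀ᵐ t ∂hm,
    0 < (η t).real (cyl P.1 0) * (η (t + t)).real (cyl P.2 0) →
      (η (π w + t)).real (cyl P.2 0) = 0

/-- [ZNC] contradiction: the hypothesis gives (disintegration, Fubini)
`∫ ∫ F (a) G (a + t) 1_{h > 0} (t) da dt = 0`, `F = η · [P.1]`, `G = η · [P.2]`,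
`h t = F t * G (t + t)`; substitute `t = a + t'`: for a.e. `t'`,
`∫ F (a) G (a + a + t') 1_{h > 0} (a + t') da = 0`; this is a continuous function of `t'` (`S_TRC`),
so it is `0` at `t' = 0`, where it is `∫ h = kap1 0 (bx P 0) > 0`. -/
def S_ZNC : Prop := ∀ (k : ℕ) (M : Set (Om k)) (K : Type) [NormedAddCommGroup K]
  [CompactSpace K] [MeasurableSpace K] [BorelSpace K] (e : K) (π : Om k → K) (hm : Measure K)
  (μ : PM k) (η : Kernel K (Om k)), Fr M e π hm μ η →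
  ∀ P : W2 k, 0 < (kap1 hm η 0).real (bx P 0) →
  ¬ ∀ᵐ w ∂(μ : Measure (Om k)), w ∈ cyl P.1 0 → ∀ᵐ t ∂hm,
    0 < (η t).real (cyl P.1 0) * (η (t + t)).real (cyl P.2 0) →
      (η (π w + t)).real (cyl P.2 0) = 0

/-- [ZNE] the zone is not empty (`S_ZNA`, `S_ZNB`, `S_ZNC`). -/
def S_ZNE : Prop := ∀ (k : ℕ) (M : Set (Om k)) (K : Type) [NormedAddCommGroup K]
  [CompactSpace K] [MeasurableSpace K] [BorelSpace K] (e : K) (π : Om k → K) (hm : Measure K)
  (μ : PM k) (η : Kernel K (Om k)), Fr M e π hm μ η →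
  ∀ N : Set (Om k × Om k × Om k), Rel3 M π N → ∀ P : W2 k, Tr M π hm η P N →
  0 < (kap1 hm η 0).real (bx P 0) →
    ∃ v ∈ M, 0 < (kap3 hm η (π v)).real (sec3 N v ∩ bx P 0)

/-! ## Location of the zones -/

/-- [N1R] the located sets: `N1 z P ⊆ N0 P`, closed invariant sets of progressions, transport
(`S_NNR`, `S_TRN`, `S_TH3`). -/
def S_N1R : Prop := ∀ (k : ℕ) (c : Om k) (M : Set (Om k)) (K : Type) [NormedAddCommGroup K]
  [CompactSpace K] [MeasurableSpace K] [BorelSpace K] (e : K) (π : Om k → K) (hm : Measure K)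
  (μ : PM k) (η : Kernel K (Om k)), Fc c M e π hm μ η →
  ∀ z, Bp c M e π hm η z → ∀ P : W2 k, N1 c M e π hm η z P ⊆ N0 c M e π hm η P ∧
  Rel3 M π (N0 c M e π hm η P) ∧ Rel3 M π (N1 c M e π hm η z P) ∧
  Tr M π hm η P (N1 c M e π hm η z P)

/-- [LCN] a triple `(w, u, v)` of `N1 z P` is a limit of `T^x (c, g_x, g'_x)` with
`T^x (ps z) → ps w`. Let `g, g'` be limits of `g_x, g'_x` (along an ultrafilter), `z'` a limit of
`T^x z`: then `ps z' = ps w`, so `dd3 (N0 Q) z' w = 0` for all `Q` (`S_TH3`). For `s + s = π g`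
choose `s_x → s` with `s_x + s_x = π g_x` (`S_HLF`). Then
`HH z g_x g_x g'_x s_x = HH (T^x z) (T^x g_x) (T^x g_x) (T^x g'_x) s_x` (`S_HHI`); both sides
converge (`S_HHC`) to `HH z g g g' s` and to `HH z' u u v s = HH w u u v s` (`S_HHI`). -/
def S_LCN : Prop := ∀ (k : ℕ) (c : Om k) (M : Set (Om k)) (K : Type) [NormedAddCommGroup K]
  [CompactSpace K] [MeasurableSpace K] [BorelSpace K] (e : K) (π : Om k → K) (hm : Measure K)
  (μ : PM k) (η : Kernel K (Om k)), Fc c M e π hm μ η →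
  ∀ z, Bp c M e π hm η z → ∀ (P : W2 k) (w u v : Om k), (w, u, v) ∈ N1 c M e π hm η z P →
  ∃ g ∈ M, ∃ g' ∈ M, (g, g') ∈ bx P 0 ∧ π w + π g = π u ∧ π g' = π g + π g ∧
    ∀ (Q : W2 k) (s : K), s + s = π g →
      HH hm η π (N0 c M e π hm η Q) w u u v s = HH hm η π (N0 c M e π hm η Q) z g g g' s

/-- [LCF] location: by contradiction; take `W' = ` a neighbourhood basis (`Cube` is first countable:
use a sequence of neighbourhoods, or ultrafilters on the neighbourhood filter), `P_i, w_i, u_i,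
v_i, g_i, g'_i` (`S_LCN`) and limits along an ultrafilter on `ℕ`; `ps` of the limits of `w, u, g, g'`
is `ps z` (`S_TH3` continuity; words inside `W'`), so their `dd3` distances to `z` vanish; `S_LOC` for
every `Q`; so the limit `v₀` of `v_i` has `π v₀ = 0`, `dd3 (N0 Q) z v₀ = 0` for all `Q`, hence
`ps v₀ = ps z` (`S_TH3`), contradiction. -/
def S_LCF : Prop := ∀ (k : ℕ) (c : Om k) (M : Set (Om k)) (K : Type) [NormedAddCommGroup K]
  [CompactSpace K] [MeasurableSpace K] [BorelSpace K] (e : K) (π : Om k → K) (hm : Measure K)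
  (μ : PM k) (η : Kernel K (Om k)), Fc c M e π hm μ η →
  ∀ z, Bp c M e π hm η z → ∀ W ∈ 𝓝 (ps c M e π hm η z), ∃ W' ∈ 𝓝 (ps c M e π hm η z),
  ∀ P : W2 k, Ins c M e π hm η W' P.1 → Ins c M e π hm η W' P.2 → ∀ w u v : Om k,
    (w, u, v) ∈ N1 c M e π hm η z P → (w, u) ∈ bx P 0 → ps c M e π hm η v ∈ W

/-- [ZNL] zones near the base point (`S_ZNE` for `N1 z P`, `S_LCF`, `S_N1R`). -/
def S_ZNL : Prop := ∀ (k : ℕ) (c : Om k) (M : Set (Om k)) (K : Type) [NormedAddCommGroup K]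
  [CompactSpace K] [MeasurableSpace K] [BorelSpace K] (e : K) (π : Om k → K) (hm : Measure K)
  (μ : PM k) (η : Kernel K (Om k)), Fc c M e π hm μ η →
  ∀ z, Bp c M e π hm η z → ∀ W ∈ 𝓝 (ps c M e π hm η z), ∃ W' ∈ 𝓝 (ps c M e π hm η z),
  ∀ P : W2 k, Ins c M e π hm η W' P.1 → Ins c M e π hm η W' P.2 →
    0 < (kap1 hm η 0).real (bx P 0) →
    ∃ v ∈ M, ps c M e π hm η v ∈ W ∧
      0 < (kap3 hm η (π v)).real (sec3 (N0 c M e π hm η P) v ∩ bx P 0)

/-! ## The stage measure -/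

/-- [SMC] stage measures from the energy set over the base `K`. `Γ = {(w, iK (π w))}` is minimal
and `Γ ⊆ omg (c, iK 0)` (`S_KGR`). `Y := orb (iK e 0, m0)` is a minimal subset of `AA Γ` (`AK.S_AAB`: closed,
invariant). `AK.S_GLX` gives `M'`; `AK.S_GL`, `AK.S_GLM`: `MM m0` is minimal and is the image of
`M'`; `AK.S_GLO`: `(MM m0 ∩ omg (c, m0)).Nonempty`; `rob` is trivial for `Finset.univ`. `onM`:
`p = (z, m)` comes from `(z, (v, m)) ∈ M'`, `(z, v) ∈ Γ`, `(v, m) ∈ Y ⊆ QQ Γ`. `prx`: `AK.S_PRX`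
(`d2 → 0`, compactness, `AK.S_ENG`); a measure `m ∈ orb m0` carried by `fb M π a` has
`(iK a, m) ∈ Y`. -/
def S_SMC : Prop := ∀ (k : ℕ) (c : Om k) (M : Set (Om k)) (K : Type) [NormedAddCommGroup K]
  [CompactSpace K] (e : K) (π : Om k → K), MinSet M → Kro M e π → (∀ x : K, ‖x‖ ≤ 1) →
  (∀ w ∈ M, (w, iK e (π w)) ∈ omg (c, iK e (0 : K))) →
  MinSet ((fun w => (w, iK e (π w))) '' M : Set (Om k × Cube Unit)) →
  ∀ m0 : PM k, (iK e (0 : K), m0) ∈ AA ((fun w => (w, iK e (π w))) '' M : Set (Om k × Cube Unit)) →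
  MinSet (orb (iK e (0 : K), m0)) → Sm c M π m0

/-- [AVM] limits of averages: existence (compactness of `PM k`), invariance, support. -/
def S_AVM : Prop := ∀ (k : ℕ) (U : Ultrafilter ℕ) (m0 : PM k), (U : Filter ℕ) ≤ atTop →
  ∃ μ : PM k, Avm U m0 μ ∧ sh 1 μ = μ ∧ ∀ M : Set (Om k), IsClosed M → AK.Inv M → m0 M = 1 → μ M = 1

/-- [JNT] the joint law of the point and its position. `T^i m0` is carried by the fibre over `i • e`;
the function `x ↦ φ (π x) 1_C (x)` is continuous on `M`, hence uniformly close on `M` to a finite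
combination of indicators of clopen sets; `Dis`. -/
def S_JNT : Prop := ∀ (k : ℕ) (c : Om k) (M : Set (Om k)) (K : Type) [NormedAddCommGroup K]
  [CompactSpace K] [MeasurableSpace K] [BorelSpace K] (e : K) (π : Om k → K) (hm : Measure K)
  (μ : PM k) (η : Kernel K (Om k)), Fc c M e π hm μ η →
  ∀ (U : Ultrafilter ℕ) (m0 : PM k), (U : Filter ℕ) ≤ atTop → Sm c M π m0 → Avm U m0 μ →
  ∀ (C : Set (Om k)) (φ : K → ℝ), IsClopen C → Continuous φ →
    Tendsto (fun L : ℕ => (∑ i ∈ Finset.range L, φ ((i : ℤ) • e) * ((sh (i : ℤ) m0) C : ℝ)) / L)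
      (U : Filter ℕ) (𝓝 (∫ t, φ t * (η t).real C ∂hm))

/-- [CHG] every `m ∈ orb m0` charges every ball of the isometric extension. For a finite set `A` of
pairs of words and `ε > 0` the function `(x, m) ↦ m {y ∈ M | π y = π x, dd3 (N0 P) x y ≤ ε (P ∈ A)}`
is upper semicontinuous (`AK.S_USC`) and invariant (`S_RKD`) on the minimal set `MM m0`, so it is a
constant, positive because `dd3` is continuous at the diagonal and `m0` charges the neighbourhoods of
its support. If `m` is over `π x` but `(x, m) ∉ MM m0` take `(x, m') ∈ MM m0` (`Sm.sur`), an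
ultrafilter `G` with `T^n m, T^n m' → m''` (`Sm.prx`), `T^n x → x''`; `(x'', m'') ∈ MM m0`; the
measure of the OPEN ball is lower semicontinuous (complement closed, the fibres have measure `1`), so
`m (ball x) = (T^n m) (ball (T^n x))` is eventually at least half of the constant. Then `S_TH3`. -/
def S_CHG : Prop := ∀ (k : ℕ) (c : Om k) (M : Set (Om k)) (K : Type) [NormedAddCommGroup K]
  [CompactSpace K] [MeasurableSpace K] [BorelSpace K] (e : K) (π : Om k → K) (hm : Measure K)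
  (μ : PM k) (η : Kernel K (Om k)), Fc c M e π hm μ η →
  ∀ m0 : PM k, Sm c M π m0 → ∀ m ∈ orb m0, ∀ x ∈ M, m (fb M π (π x)) = 1 →
  ∀ W ∈ 𝓝 (ps c M e π hm η x), 0 < m {y | y ∈ M ∧ ps c M e π hm η y ∈ W}

/-- [CHN] the same near the base point, uniformly: by contradiction and compactness from `S_CHG`
(the condition `m {y ∈ M | ps y ∈ W} = 0` is closed in `m` if `W` is open, since
`{y ∈ M | ps y ∈ W}` is relatively open in `M` and `m M = 1`). -/
def S_CHN : Prop := ∀ (k : ℕ) (c : Om k) (M : Set (Om k)) (K : Type) [NormedAddCommGroup K]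
  [CompactSpace K] [MeasurableSpace K] [BorelSpace K] (e : K) (π : Om k → K) (hm : Measure K)
  (μ : PM k) (η : Kernel K (Om k)), Fc c M e π hm μ η →
  ∀ m0 : PM k, Sm c M π m0 → ∀ z ∈ M, π z = 0 → ∀ W ∈ 𝓝 (ps c M e π hm η z),
  ∃ δ : ℝ, 0 < δ ∧ ∀ m ∈ orb m0, ∀ a : K, ‖a‖ < δ → m (fb M π a) = 1 →
    0 < m {y | y ∈ M ∧ ps c M e π hm η y ∈ W}

/-! ## Case IIb: no state near the base point -/

/-- [PSM] for almost all small `t` some word of `𝒲` is charged by `η t`. From `S_CHN` and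
compactness there are `ε > 0` and a finite set of words of `𝒲` whose union `C` has `m C ≥ ε` for all
`m ∈ orb m0` over `‖a‖ ≤ δ/2` (the sets `{m | m (cyl P 0) > 0}` are open); `S_JNT` for `C`: for
continuous `φ ≥ 0` supported in the ball, `∫ φ t * (η t).real C ≥ ε ∫ φ` (`T^i m0` is over `i • e`;
`S_HUN` or `S_JNT` with `C = univ`); so `(η t).real C ≥ ε` a.e. in the ball. -/
def S_PSM : Prop := ∀ (k : ℕ) (c : Om k) (M : Set (Om k)) (K : Type) [NormedAddCommGroup K]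
  [CompactSpace K] [MeasurableSpace K] [BorelSpace K] (e : K) (π : Om k → K) (hm : Measure K)
  (μ : PM k) (η : Kernel K (Om k)), Fc c M e π hm μ η →
  ∀ (U : Ultrafilter ℕ) (m0 : PM k), (U : Filter ℕ) ≤ atTop → Sm c M π m0 → Avm U m0 μ →
  ∀ z ∈ M, π z = 0 → ∀ (𝒲 : Set (Wd k)) (W : Set (Cube Unit × Cube (Ix3 k))),
  W ∈ 𝓝 (ps c M e π hm η z) →
  (∀ x ∈ M, ps c M e π hm η x ∈ W → ∃ P ∈ 𝒲, x ∈ cyl P 0) →
    ∃ δ : ℝ, 0 < δ ∧ ∀ᵐ t ∂hm, ‖t‖ < δ → ∃ P ∈ 𝒲, 0 < (η t).real (cyl P 0)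

open Classical in
/-- [KNU] a fact on `K`. The points `i • e`, `i ∈ A`, have positive upper density along `U` and lie
in the closed set `F`; `ε` times the average of `φ` over them is at most `∫ φ f_r`, for all `r` and
all continuous `φ ≥ 0`. Then it is not true that for a.e. `t ∈ F` some `f_r t` is `0`. Proof: let
`θ` be a limit along `U` of the uniform measures on `{i • e | i ∈ A, i < L}` (compactness of
`ProbabilityMeasure K`); `θ φ ≤ C ∫ φ f_r` and `θ φ ≤ C ∫ φ` for continuous `φ ≥ 0`; so `θ C' = 0` for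
closed `C' ⊆ {f_r = 0}` and for null sets; `θ F = 1`. -/
def S_KNU : Prop := ∀ (K : Type) [NormedAddCommGroup K] [CompactSpace K] [MeasurableSpace K]
  [BorelSpace K] (hm : Measure K) [IsProbabilityMeasure hm] [hm.IsAddHaarMeasure] (e : K),
  Dense (Set.range fun n : ℤ => n • e) → ∀ (U : Ultrafilter ℕ), (U : Filter ℕ) ≤ atTop →
  ∀ (A : Set ℕ) (d : ℝ), 0 < d →
  (∀ᶠ L : ℕ in (U : Filter ℕ), d * L ≤ (((Finset.range L).filter (fun i => i ∈ A)).card : ℝ)) →
  ∀ F : Set K, IsClosed F → (∀ i ∈ A, (i : ℤ) • e ∈ F) →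
  ∀ (ι : Type) [Fintype ι] (f : ι → K → ℝ) (ε : ℝ), 0 < ε → (∀ r, Measurable (f r)) →
  (∀ r t, 0 ≤ f r t ∧ f r t ≤ 1) →
  (∀ r, ∀ φ : K → ℝ, Continuous φ → (∀ t, 0 ≤ φ t) → ∀ δ : ℝ, 0 < δ →
    ∀ᶠ L : ℕ in (U : Filter ℕ),
      ε * ((∑ i ∈ (Finset.range L).filter (fun i => i ∈ A), φ ((i : ℤ) • e)) / L) ≤
        ∫ t, φ t * f r t ∂hm + δ) →
  ¬ ∀ᵐ t ∂hm, t ∈ F → ∃ r, f r t = 0

/-- [PUR] no charged states among the words of `𝒲`: then every `m₁ ∈ orb m0` over a small position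
omits a colour on the words of `𝒲`. By `S_PSM` for a.e. small `t` some colour is charged by
`η (t + t)` (use `t ↦ t + t`: `S_DBL`), and by the hypothesis (`kap1 0 (bx (P, Q) 0) =
∫ (η t).real [P] * (η (t + t)).real [Q]`, `S_KPB`) it is not charged by `η t`; so for a.e. small `t`
there is `r` with `(η t).real [P] = 0` for all `P ∈ 𝒲` with the letter `r`. If `m₁` charges `P_r ∈ 𝒲` for all `r`
(more than `ε`), the set `A` of the times `i` with `T^i m0` close to `m₁` has positive density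
(minimality: bounded gaps) and `S_KNU` with `f_r = (η t).real [P_r]` (`S_JNT`) gives a
contradiction. -/
def S_PUR : Prop := ∀ (k : ℕ) (c : Om k) (M : Set (Om k)) (K : Type) [NormedAddCommGroup K]
  [CompactSpace K] [MeasurableSpace K] [BorelSpace K] (e : K) (π : Om k → K) (hm : Measure K)
  (μ : PM k) (η : Kernel K (Om k)), Fc c M e π hm μ η →
  ∀ (U : Ultrafilter ℕ) (m0 : PM k), (U : Filter ℕ) ≤ atTop → Sm c M π m0 → Avm U m0 μ →
  ∀ z ∈ M, π z = 0 → ∀ (𝒲 : Set (Wd k)) (W : Set (Cube Unit × Cube (Ix3 k))),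
  W ∈ 𝓝 (ps c M e π hm η z) →
  (∀ x ∈ M, ps c M e π hm η x ∈ W → ∃ L : ℕ, wordOf x L ∈ 𝒲) →
  (∀ P ∈ 𝒲, ∀ Q ∈ 𝒲, ∀ r, mid P = some r → mid Q = some r →
    (kap1 hm η 0).real (bx (P, Q) 0) = 0) →
    ∃ δ : ℝ, 0 < δ ∧ ∀ m ∈ orb m0, ∀ a : K, ‖a‖ < δ → m (fb M π a) = 1 →
      ∃ r, ∀ P ∈ 𝒲, mid P = some r → m (cyl P 0) = 0

/-- [IIB] Case IIb: near `m0` one colour is omitted on open sets of measures. The sets
`{m ∈ orb m0 | m (cyl P 0) = 0 for P ∈ 𝒲 with the letter r}` are closed and cover a neighbourhood of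
`m0` in `orb m0` (`S_PUR`; the position is a continuous function of `m ∈ orb m0`); a finite closed
cover of an open set: one of them has interior points there; one `r` for all neighbourhoods
(finitely many colours). -/
def S_IIB : Prop := ∀ (k : ℕ) (c : Om k) (M : Set (Om k)) (K : Type) [NormedAddCommGroup K]
  [CompactSpace K] [MeasurableSpace K] [BorelSpace K] (e : K) (π : Om k → K) (hm : Measure K)
  (μ : PM k) (η : Kernel K (Om k)), Fc c M e π hm μ η →
  ∀ (U : Ultrafilter ℕ) (m0 : PM k), (U : Filter ℕ) ≤ atTop → Sm c M π m0 → Avm U m0 μ →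
  ∀ z ∈ M, π z = 0 → ∀ (𝒲 : Set (Wd k)) (W : Set (Cube Unit × Cube (Ix3 k))),
  W ∈ 𝓝 (ps c M e π hm η z) →
  (∀ x ∈ M, ps c M e π hm η x ∈ W → ∃ L : ℕ, wordOf x L ∈ 𝒲) →
  (∀ P ∈ 𝒲, ∀ Q ∈ 𝒲, ∀ r, mid P = some r → mid Q = some r →
    (kap1 hm η 0).real (bx (P, Q) 0) = 0) →
    ∃ r, ∀ O ∈ 𝓝 m0, ∃ m₁ ∈ orb m0 ∩ O, ∃ O₁ ∈ 𝓝 m₁, ∀ m ∈ orb m0 ∩ O₁,
      ∀ P ∈ 𝒲, mid P = some r → m (cyl P 0) = 0

/-! ## Base points and the final set -/

/-- [MTC] base points of `AK` are matched in the isometric extension. `z` is a limit of points `g` of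
`supp m0` (position `0`) such that `T^x g` and `T^x c` agree on long windows and `T^x m0` is close to
`m0`. `dd3 (N0 P) (T^x g) (T^x z) = dd3 (N0 P) g z → 0` (`S_RKD`), so along these times
`T^x (c, m0, ps z)` converges to `(h, m0, ps h)`, `h = lim T^x g`, `(h, m0) ∈ MM m0`; the set
`{(w, (m, ps w)) | (w, m) ∈ MM m0}` is minimal (`AK.S_IMG`), the limit set is closed and invariant. -/
def S_MTC : Prop := ∀ (k : ℕ) (c : Om k) (M : Set (Om k)) (K : Type) [NormedAddCommGroup K]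
  [CompactSpace K] [MeasurableSpace K] [BorelSpace K] (e : K) (π : Om k → K) (hm : Measure K)
  (μ : PM k) (η : Kernel K (Om k)), Fc c M e π hm μ η →
  ∀ m0 : PM k, Sm c M π m0 → ∀ z, ZS c m0 z → Bp c M e π hm η z ∧
  ∀ p ∈ MM m0, (p.1, (p.2, ps c M e π hm η p.1)) ∈ omg (c, (m0, ps c M e π hm η z))

/-- [GDT] (topology only) zones which accumulate at a matched base point give `GOOD`. For the times
`s ∈ F` with `T^s y₀ ∈ O` choose `(w, b) ∈ R` with `b ∈ O` so close to `y₀` that `T^s b ∈ O` for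
`s ∈ F` (relative openness at `T^s y₀`; `T^s b` is in the projection of `R`); then a late `x` with
`T^x (c, y₀)` close to `(w, b)`. -/
def S_GDT : Prop := ∀ (k : ℕ) (c : Om k) (B : Type) [TopologicalSpace B] [Sys B]
  (R : Set (Om k × B)) (z : Om k) (y₀ : B) (O : Set B) (D : Finset (Fin k)), AK.Inv R →
  (z, y₀) ∈ R → (∀ p ∈ R, p ∈ omg (c, y₀)) →
  (∀ p ∈ R, p.2 ∈ O → ∃ V ∈ 𝓝 p.2, ∀ p' ∈ R, p'.2 ∈ V → p'.2 ∈ O) →
  (∀ p ∈ R, p.2 ∈ O → p.1 0 ∈ D) →
  (∀ V ∈ 𝓝 y₀, ∃ p ∈ R, p.2 ∈ V ∧ p.2 ∈ O) →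
    GOOD c D (fun n => sh (n : ℤ) y₀ ∈ O)

/-- [GDA] zones of blocked pairs accumulating at the base point give `GOOD` (`S_GDT` with
`B = Cube Unit × Cube (Ix3 k)`, `R = {(w, ps w) | w ∈ M}`,
`O = {b | ∃ P, Blk P r ∧ 0 < b.2 (P, P) 0}`, `D = univ.erase r`, `S_ZCL`, `S_TH3`). -/
def S_GDA : Prop := ∀ (k : ℕ) (c : Om k) (M : Set (Om k)) (K : Type) [NormedAddCommGroup K]
  [CompactSpace K] [MeasurableSpace K] [BorelSpace K] (e : K) (π : Om k → K) (hm : Measure K)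
  (μ : PM k) (η : Kernel K (Om k)), Fc c M e π hm μ η →
  ∀ z, Bp c M e π hm η z → ∀ r : Fin k,
  (∀ W ∈ 𝓝 (ps c M e π hm η z), ∃ P : W2 k, Blk c hm η P r ∧ ∃ v ∈ M, ps c M e π hm η v ∈ W ∧
    0 < (kap3 hm η (π v)).real (sec3 (N0 c M e π hm η P) v ∩ bx P 0)) →
  GOOD c (Finset.univ.erase r) (hitA c hm η (ps c M e π hm η z) r)

/-- [WWP] the words at the level `L`: every word of `WW` is inside a small neighbourhood if `L` is
large (`M ∩ cyl P 0` is in the closure of the points `T^i z` in `cyl P 0`); the centred words of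
the points close to the base point are in `WW` (continuity of `ps`); decreasing in `L`; closed under
smaller cylinders. -/
def S_WWP : Prop := ∀ (k : ℕ) (c : Om k) (M : Set (Om k)) (K : Type) [NormedAddCommGroup K]
  [CompactSpace K] [MeasurableSpace K] [BorelSpace K] (e : K) (π : Om k → K) (hm : Measure K)
  (μ : PM k) (η : Kernel K (Om k)), Fc c M e π hm μ η →
  ∀ z ∈ M, (∀ W ∈ 𝓝 (ps c M e π hm η z), ∃ L : ℕ, ∀ P ∈ WW (ps c M e π hm η z) z L,
    Ins c M e π hm η W P) ∧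
  (∀ L : ℕ, ∃ W ∈ 𝓝 (ps c M e π hm η z), ∀ x ∈ M, ps c M e π hm η x ∈ W →
    ∃ L' : ℕ, wordOf x L' ∈ WW (ps c M e π hm η z) z L) ∧
  (∀ (L : ℕ) (P P' : Wd k), P ∈ WW (ps c M e π hm η z) z L → cyl P' 0 ⊆ cyl P 0 →
    P' ∈ WW (ps c M e π hm η z) z L)

/-- [GDB] zones of the second kind give `GOOD` (`S_GDT` with `B = PM k × (Cube Unit × Cube (Ix3 k))`,
`R = {(w, (m, ps w)) | (w, m) ∈ MM m0}`, `y₀ = (m0, ps z)`, `O` = the set of all `(m, y)` with
`near2 L₁ y (ps z)` and `∃ O₁ ∈ 𝓝 m, ∀ m' ∈ orb m0 ∩ O₁, ∀ P ∈ WW, mid P = some r → m' (cyl P 0) = 0`;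
on the orbit this is `hitB` (words: `AK.S_PMB`; the condition on `m'` is closed, the orbit of `m0` is
dense). Colour: if `near2 L₁ (ps w) (ps z)`, `w 0 = r` then for `L₁` large `wordOf w L' ∈ WW` for
some `L'` (`S_WWP`), it has the letter `r`; points `(T^n z', T^n m0)`, `z' ∈ supp m0`, are dense in
`MM m0`, so some `m' ∈ orb m0 ∩ O₁` charges this word. -/
def S_GDB : Prop := ∀ (k : ℕ) (c : Om k) (M : Set (Om k)) (K : Type) [NormedAddCommGroup K]
  [CompactSpace K] [MeasurableSpace K] [BorelSpace K] (e : K) (π : Om k → K) (hm : Measure K)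
  (μ : PM k) (η : Kernel K (Om k)), Fc c M e π hm μ η →
  ∀ m0 : PM k, Sm c M π m0 → ∀ z, ZS c m0 z → ∀ (L₀ : ℕ) (r : Fin k),
  (∀ O ∈ 𝓝 m0, ∃ m₁ ∈ orb m0 ∩ O, ∃ O₁ ∈ 𝓝 m₁, ∀ m ∈ orb m0 ∩ O₁,
    ∀ P ∈ WW (ps c M e π hm η z) z L₀, mid P = some r → m (cyl P 0) = 0) →
  ∃ L₁ : ℕ, GOOD c (Finset.univ.erase r) (hitB m0 (ps c M e π hm η z) z L₀ L₁ r)

/-- [GCA] Case I gives the greedy property: a state without blocked extension; refine boxes to
centred words (`S_NBX`), the middle letters are `r`. -/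
def S_GCA : Prop := ∀ (k : ℕ) (c : Om k) (M : Set (Om k)) (K : Type) [NormedAddCommGroup K]
  [CompactSpace K] [MeasurableSpace K] [BorelSpace K] (e : K) (π : Om k → K) (hm : Measure K)
  (μ : PM k) (η : Kernel K (Om k)), Fc c M e π hm μ η →
  ¬ CaseII3 c (kap1 hm η 0) → GRD c (kap1 hm η 0)

/-- [DIC] the dichotomy of Case II. If for every level `L` there is a state with both words in
`WW L`, then (`CaseII3`, `S_WWP`, `S_ZNL`) for every neighbourhood there are a blocked pair and a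
point of its zone in it, for one colour `r` (finitely many): `S_GDA`. Otherwise `S_IIB` for
`𝒲 = WW L₀` and `S_GDB`. -/
def S_DIC : Prop := ∀ (k : ℕ) (c : Om k) (M : Set (Om k)) (K : Type) [NormedAddCommGroup K]
  [CompactSpace K] [MeasurableSpace K] [BorelSpace K] (e : K) (π : Om k → K) (hm : Measure K)
  (μ : PM k) (η : Kernel K (Om k)), Fc c M e π hm μ η →
  ∀ (U : Ultrafilter ℕ) (m0 : PM k), (U : Filter ℕ) ≤ atTop → Sm c M π m0 → Avm U m0 μ →
  ∀ z, ZS c m0 z → CaseII3 c (kap1 hm η 0) → ∃ r : Fin k,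
    GOOD c (Finset.univ.erase r) (hitA c hm η (ps c M e π hm η z) r) ∨
    ∃ L₀ L₁ : ℕ, GOOD c (Finset.univ.erase r) (hitB m0 (ps c M e π hm η z) z L₀ L₁ r)

end Pool.Agent.Work.MP_69fea5_lc.N3
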