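import Pool.Agent.Work.MP_69fea5_lc.N3.DefsH
import Pool.Agent.Work.MP_69fea5_lc.N3.StmtsA

/-!
# Block [69fea5 N3], part H (coding), first half: the statements of the items

Every item is a theorem `XXX_pf (h1 : S_A) (h2 : KC.S_B) ... : S_XXX` in its own file
`N3/I_XXX.lean`; the hypotheses may be statements of EARLIER items of this file, of `StmtsA`, and
any statements `AK.S_...`, `KC.S_...` (all proved on main). Theorems `HK...._pf`, `KC...._pf` may
be used directly. Models: `KC/I_*.lean`.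
-/

set_option autoImplicit false

namespace Pool.Agent.Work.MP_69fea5_lc.N3

open MeasureTheory Topology Set Filter ProbabilityTheory
open scoped NNReal ENNReal
open Pool.Agent.Work.MP_69fea5_lc.AK
open Pool.Agent.Work.MP_69fea5_lc.HK (Cl DU Ar ArF ArR Dat Law LawC act near sc Pt oc Mn mr)

/-! ## Real functions -/

/-- [DIV] quotients of coded real functions (`r < (f/g) (s+1) ↔ r g < f (s+1)`, `ArR.rlt`). -/
def S_DIV : Prop := ∀ (S : Set (Set ℕ)), Cl S → ∀ (α : Type) [Primcodable α] (f g : α → ℝ),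
  ArR S f → ArR S g → (∀ a, 0 ≤ f a) → (∀ a, 0 < g a) → ArR S fun a => f a / g a

/-- [MW2] measures of decidable families of pairs of words (copy of `HK.MEASW_pf`). -/
def S_MW2 : Prop := ∀ (S : Set (Set ℕ)), Cl S → ∀ (k : ℕ) (ν : Measure (Om k × Om k))
  [IsProbabilityMeasure ν], NC S ν → ∀ (β : Type) [Primcodable β]
  (H : β → List (Fin k) × List (Fin k) → Prop),
  (Ar S fun p : β × (List (Fin k) × List (Fin k)) => H p.1 p.2) →
  ArR S fun p : β × ℕ × (HK.C k × HK.C k) => ν.real ((HK.cyl p.2.2.1 ×ˢ HK.cyl p.2.2.2) ∩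
    {g | H p.1 (HK.wd p.2.1 g.1, HK.wd p.2.1 g.2)})

/-! ## The group `K` -/

/-- [URB] a coded uniformly recurrent limit point of `c` with coded times (`HK.URP_pf`; then choose
the times again, `b n` the first `x ≥ n` with `near n (sh x c) g`). -/
def S_URB : Prop := ∀ (S : Set (Set ℕ)) (U : Ultrafilter ℕ), Cl S → DU S U → ∀ (k : ℕ) (c : Om k),
  Pt S c → ∃ (b : ℕ → ℕ) (g : Om k), ArF S b ∧ (∀ n, n ≤ b n) ∧
    Tendsto (fun n => sh (b n : ℤ) c) (U : Filter ℕ) (𝓝 g) ∧ MinSet (orb g) ∧ Pt S g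

/-- [KMI] a coded invariant measure on the orbit closure of a coded point (see `KC/I_KINIT.lean`). -/
def S_KMI : Prop := ∀ (S : Set (Set ℕ)) (U : Ultrafilter ℕ), Cl S → DU S U → ∀ (k : ℕ) (g : Om k),
  Pt S g → ∃ m : PM k, Pt S m ∧ sh 1 m = m ∧ m (orb g) = 1

/-- [RSC] the measures of the sections of the relations `RR`: `RR L` at `x` is the decreasing
intersection of the clopen sets `{u | ∀ j, |j| ≤ N → ∀ q ∈ L, ¬ (x ∈ cyl q.1 j ∧ u ∈ cyl q.2 j)}`,
which are decidable conditions on the word of `u` on `[-N', N']`, `N' = N +` the sum of the lengths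
of the words of `L`; `HK.MEASW_pf`, `ArR.iInf`, `ArR.tsub`. -/
def S_RSC : Prop := ∀ (S : Set (Set ℕ)), Cl S → ∀ (k : ℕ) (g : Om k) (m : PM k), Pt S g →
  Pt S m → ArR S fun p : (WL k) × ℤ × ℤ => rho m (RR p.1) (sh p.2.1 g) (sh p.2.2 g)

/-- [EPC] the universal pseudometric along the orbit of `g` is coded (`RSC`, `ArR.tsum`;
`rho ≤ 2`). -/
def S_EPC : Prop := ∀ (S : Set (Set ℕ)), Cl S → ∀ (k : ℕ) (g : Om k) (m : PM k), Pt S g →
  Pt S m → ArR S fun n : ℤ => dK m (sh n g) g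

/-- [PIK] the points of the cube given by positions are coded. -/
def S_PIK : Prop := ∀ (S : Set (Set ℕ)) (U : Ultrafilter ℕ), Cl S → DU S U → ∀ (K : Type)
  [NormedAddCommGroup K] [CompactSpace K] (e v : K) (b : ℕ → ℕ), (∀ x : K, ‖x‖ ≤ 1) →
  (ArR S fun n : ℤ => ‖n • e‖) → ArF S b →
  Tendsto (fun n => (b n : ℤ) • e) (U : Filter ℕ) (𝓝 v) →
    Pt S (iK e (0 : K)) ∧ Pt S (iK e v)

/-- [KZ0] a coded point over the position `0`. -/
def S_KZ0 : Prop := ∀ (S : Set (Set ℕ)) (U : Ultrafilter ℕ), Cl S → DU S U → ∀ (k : ℕ) (g : Om k)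
  (b : ℕ → ℕ), Pt S g → ArF S b → ∃ z : Om k, Pt S z ∧ z ∈ orb g ∧
    Tendsto (fun n => sh (-(b n : ℤ)) g) (U : Filter ℕ) (𝓝 z)

/-- [KMZ] a coded measure of the energy set over a prescribed point, with minimal orbit closure
(`KC.S_KAA`; then `HK.URP_pf` and back to `v` by another limit; see `KC/I_KSTEP.lean`). -/
def S_KMZ : Prop := ∀ (S : Set (Set ℕ)) (U : Ultrafilter ℕ), Cl S → DU S U → ∀ (k : ℕ) (I : Type)
  [Primcodable I] (M : Set (Om k × Cube I)) (z : Om k) (v : Cube I), MinSet M → (z, v) ∈ M →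
  Pt S z → Pt S v → ∃ m, Pt S m ∧ (v, m) ∈ AA M ∧ MinSet (orb (v, m))

/-! ## The invariant measure and the law of the pairs -/

/-- [MUI] limits of the averages. -/
def S_MUI : Prop := ∀ (k : ℕ) (M : Set (Om k)) (m0 μ : PM k) (U : Ultrafilter ℕ),
  (U : Filter ℕ) ≤ atTop → MinSet M → m0 M = 1 → Tendsto (avP m0) (U : Filter ℕ) (𝓝 μ) →
    sh 1 μ = μ ∧ μ M = 1

/-- [AVG] averages weighted by a continuous function of the position (`f · 1_P` with `f` a
continuous extension of `ψ ∘ π` from `M` to `Om k`, Tietze). -/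
def S_AVG : Prop := ∀ (k : ℕ) (M : Set (Om k)) (K : Type) [NormedAddCommGroup K] [CompactSpace K]
  [MeasurableSpace K] [BorelSpace K] (e : K) (π : Om k → K) (hm : Measure K) (μ : PM k)
  (η : Kernel K (Om k)), Fr M e π hm μ η → ∀ (m0 : PM k) (U : Ultrafilter ℕ),
  m0 {z | z ∈ M ∧ π z = 0} = 1 → Tendsto (avP m0) (U : Filter ℕ) (𝓝 μ) →
  ∀ ψ : K → ℝ, Continuous ψ → ∀ P : Set (Om k), IsClopen P →
  Tendsto (fun L : ℕ => (∑ n ∈ Finset.range (L + 1), ψ ((n : ℤ) • e) * mr (sh (n : ℤ) m0) P) /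
    ((L : ℝ) + 1)) (U : Filter ℕ) (𝓝 (∫ t, ψ t * (η t).real P ∂hm))

/-- [NUL] the law of the pairs as a limit (TRC, Fubini, approximate identity). -/
def S_NUL : Prop := ∀ (k : ℕ) (M : Set (Om k)) (K : Type) [NormedAddCommGroup K] [CompactSpace K]
  [MeasurableSpace K] [BorelSpace K] (e : K) (π : Om k → K) (hm : Measure K) (μ : PM k)
  (η : Kernel K (Om k)), Fr M e π hm μ η → ∀ P1 P2 : Set (Om k), IsClopen P1 → IsClopen P2 →
  (∀ i : ℕ, 0 < ∫ s, tent i s ∂hm) ∧ (∀ i : ℕ, Continuous (gSm hm η i P2)) ∧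
  Tendsto (fun i : ℕ => (∫ t, gSm hm η i P2 t * (η t).real P1 ∂hm) / ∫ s, tent i s ∂hm) atTop
    (𝓝 ((kap1 hm η 0).real (P1 ×ˢ P2)))

/-- [NUC] the law of the pairs is coded: iterated limits along `U` of the weighted averages of
`T^n m0`, by AVG and NUL; the weight `tent i ((n' - 2n) • e)` is coded. -/
def S_NUC : Prop := ∀ (S : Set (Set ℕ)) (U : Ultrafilter ℕ), Cl S → DU S U →
  ∀ (k : ℕ) (M : Set (Om k)) (K : Type) [NormedAddCommGroup K] [CompactSpace K]
  [MeasurableSpace K] [BorelSpace K] (e : K) (π : Om k → K) (hm : Measure K) (μ : PM k)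
  (η : Kernel K (Om k)), Fr M e π hm μ η → ∀ m0 : PM k,
  m0 {z | z ∈ M ∧ π z = 0} = 1 → Tendsto (avP m0) (U : Filter ℕ) (𝓝 μ) → Pt S m0 →
  (ArR S fun n : ℤ => ‖n • e‖) → NC S (kap1 hm η 0)

/-- [K3S] the law of the pairs before a last point at the position `0` (`t ↦ -t`). -/
def S_K3S : Prop := ∀ (k : ℕ) (M : Set (Om k)) (K : Type) [NormedAddCommGroup K] [CompactSpace K]
  [MeasurableSpace K] [BorelSpace K] (e : K) (π : Om k → K) (hm : Measure K) (μ : PM k)
  (η : Kernel K (Om k)), Fr M e π hm μ η →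
  kap3 hm η 0 = (kap1 hm η 0).map Prod.swap

/-! ## States and blocked states -/

/-- [BXC] the box of a pair of words as a box of constraints (`KC.S_CON`). -/
def S_BXC : Prop := ∀ (k : ℕ) (P : W2 k) (n : ℤ),
  bx P n = HK.cyl (KC.con P.1 n) ×ˢ HK.cyl (KC.con P.2 n)

/-- [STC] states and blocked states are recognised (see `KC/I_KBL.lean`). -/
def S_STC : Prop := ∀ (S : Set (Set ℕ)), Cl S → ∀ (k : ℕ) (c : Om k) (ν : Measure (Om k × Om k))
  [IsProbabilityMeasure ν], Pt S c → NC S ν →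
  (Ar S fun p : W2 k × Fin k => St ν p.1 p.2) ∧ (Ar S fun p : W2 k × Fin k => Bl3 c ν p.1 p.2)

/-- [AD3] admissible pairs of words are recognised (see `KC/I_ADM.lean`). -/
def S_AD3 : Prop := ∀ (S : Set (Set ℕ)), Cl S → ∀ (k : ℕ) (K : Type) [NormedAddCommGroup K]
  [CompactSpace K] (e : K) (π : Om k → K) (c g z : Om k) (ν : Measure (Om k × Om k))
  [IsProbabilityMeasure ν], Pt S c → Pt S g → Pt S z → Pt S (iK e (π g)) → NC S ν →
  Ar S fun p : (W2 k × ℕ) × (List (Fin k) × List (Fin k)) =>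
    adm3 c g e π ν p.1.1 z p.1.2 p.2.1 p.2.2

end Pool.Agent.Work.MP_69fea5_lc.N3
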