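import Pool.Agent.Work.MP_69fea5_lc.N3.DefsH2
import Pool.Agent.Work.MP_69fea5_lc.N3.StmtsH
import Pool.Agent.Work.MP_69fea5_lc.N3.StmtsB

/-!
# Block [69fea5 N3], part H (coding), second half: the statements of the items

Every item is a theorem `XXX_pf (h1 : S_A) (h2 : KC.S_B) ... : S_XXX` in its own file
`N3/I_XXX.lean`; the hypotheses may be statements of EARLIER items of this file, of `StmtsA`,
`StmtsB`, `StmtsH` and any statements `AK.S_...`, `KC.S_...` (all proved on main).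
-/

set_option autoImplicit false

namespace Pool.Agent.Work.MP_69fea5_lc.N3

open MeasureTheory Topology Set Filter ProbabilityTheory
open scoped NNReal ENNReal
open Pool.Agent.Work.MP_69fea5_lc.AK
open Pool.Agent.Work.MP_69fea5_lc.HK (Cl DU Ar ArF ArR Dat Law LawC act near sc Pt oc Mn mr ext)

theorem FrH.fc {S : Set (Set ℕ)} {U : Ultrafilter ℕ} {k : ℕ} {c g : Om k} {K : Type}
    [NormedAddCommGroup K] [CompactSpace K] [MeasurableSpace K] [BorelSpace K] {e : K}
    {π : Om k → K} {hm : Measure K} {μ m0 : PM k} {η : Kernel K (Om k)}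
    (h : FrH S U c g e π hm μ m0 η) : Fc c (orb g) e π hm μ η :=
  ⟨h.fr, h.nrm, fun w hw => h.om ⟨w, hw, rfl⟩⟩

/-! ### Solutions -/

/-- all sums of at most three elements of `X` have one colour -/
def SolT (S : Set (Set ℕ)) {k : ℕ} (c : ℕ → Fin k) : Prop :=
  ∃ X ∈ S, X.Infinite ∧ (∀ x ∈ X, 0 < x) ∧ ∃ r, ∀ F : Finset ℕ, (F : Set ℕ) ⊆ X → F.Nonempty →
    F.card ≤ 3 → c (∑ x ∈ F, x) = r

/-- the finite sums of `X` have colours in `D` -/
def SolD (S : Set (Set ℕ)) {k : ℕ} (c : ℕ → Fin k) (D : Finset (Fin k)) : Prop :=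
  ∃ X ∈ S, X.Infinite ∧ (∀ x ∈ X, 0 < x) ∧ ∀ F : Finset ℕ, (F : Set ℕ) ⊆ X → F.Nonempty →
    c (∑ x ∈ F, x) ∈ D

/-! ### Bridges -/

/-- [BAV] the two forms of the averages: `(∑_(i < L) a_i) / L` and `(∑_(i ≤ L) a_i) / (L + 1)`
differ by at most `2 / L`; the measure of a clopen set is continuous. -/
def S_BAV : Prop := ∀ (k : ℕ) (U : Ultrafilter ℕ) (m0 μ : PM k), (U : Filter ℕ) ≤ atTop →
  Tendsto (avP m0) (U : Filter ℕ) (𝓝 μ) → Avm U m0 μ

/-- [SE3] the sections of `N0 P` at a last point `z` over the position `0`, as limits. By `S_K3S`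
`kap3 hm η 0` is the image of `ν = kap1 hm η 0` under `Prod.swap`. The sets
`A L = {q | adm3 .. L (wd L q.2) (wd L q.1)}` are clopen and decreasing, and for `q.1, q.2 ∈ M`
(`ν`-almost all `q`) `q` is in all of them iff `(q.2, q.1, z) ∈ N0 P`: (only if) for each `L` take
`N = L`: `x ≥ L`, `n` with `T^n g` close to `w = q.2`, so `π (T^n g) → π w` (`π` is continuous on
`M`), `iK e (π g) () (n - x) = ‖π (T^n g) - x • e‖` is small, so `x • e → π w`; a point `g'` of
`sup2 ν` in the open set of positive measure (`S_SP2`). (if) the same backwards; `T^n g` dense in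
`M`. Positions: `sh x (iK e 0) = iK e (x • e)` (`S_IKB`). -/
def S_SE3 : Prop := ∀ (k : ℕ) (c g : Om k) (K : Type) [NormedAddCommGroup K]
  [CompactSpace K] [MeasurableSpace K] [BorelSpace K] (e : K) (π : Om k → K) (hm : Measure K)
  (μ : PM k) (η : Kernel K (Om k)), Fc c (orb g) e π hm μ η →
  ∀ z ∈ orb g, π z = 0 → ∀ (P : W2 k) (Q : Set (Om k × Om k)), IsClopen Q →
  (kap3 hm η (π z)).real (sec3 (N0 c (orb g) e π hm η P) z ∩ Q) =
    ⨅ L : ℕ, (kap1 hm η 0).real ({q | q.swap ∈ Q} ∩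
      {q | adm3 c g e π (kap1 hm η 0) P z L (HK.wd L q.2) (HK.wd L q.1)})

/-! ### Coded objects -/

/-- [T3C] the base point of the isometric extension is coded (see `KC/I_KTH.lean`; `S_SE3`, `S_MW2`,
`S_AD3`, `S_BXC`, `S_TH3` for the values of `Th3`). -/
def S_T3C : Prop := ∀ (S : Set (Set ℕ)) (U : Ultrafilter ℕ), Cl S → ∀ (k : ℕ) (c g : Om k)
  (K : Type) [NormedAddCommGroup K] [CompactSpace K] [MeasurableSpace K] [BorelSpace K] (e : K)
  (π : Om k → K) (hm : Measure K) (μ m0 : PM k) (η : Kernel K (Om k)),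
  FrH S U c g e π hm μ m0 η → ∀ z ∈ orb g, π z = 0 → Pt S z →
    Pt S (Th3 c (orb g) e π hm η z)

/-- [WWC] the sets `WW` are recognised (`nearC` is `near` of `KC.datCube`; `LawC.sc_near`,
`LawC.sc_act`). -/
def S_WWC : Prop := ∀ (S : Set (Set ℕ)), Cl S → ∀ (k : ℕ) (y₀ : Cube Unit × Cube (Ix3 k))
  (z : Om k), Pt S y₀.1 → Pt S y₀.2 → Pt S z →
  (Ar S fun p : ℕ × ℤ => near2 p.1 (sh p.2 y₀) y₀) ∧
    (Ar S fun p : Wd k × ℕ => p.1 ∈ WW y₀ z p.2)

/-- [HAC] the first kind of zones is recognised on the orbit (`S_STC`). -/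
def S_HAC : Prop := ∀ (S : Set (Set ℕ)), Cl S → ∀ (k : ℕ) (c : Om k) (K : Type)
  [NormedAddCommGroup K] [CompactSpace K] [MeasurableSpace K] [BorelSpace K] (hm : Measure K)
  (η : Kernel K (Om k)) [IsProbabilityMeasure (kap1 hm η 0)] (y₀ : Cube Unit × Cube (Ix3 k))
  (r : Fin k), Pt S c → NC S (kap1 hm η 0) → Pt S y₀.2 → Ar S (hitA c hm η y₀ r)

/-- [HBC] the second kind of zones is recognised on the orbit (`S_WWC`, `KC.S_CYSC`). -/
def S_HBC : Prop := ∀ (S : Set (Set ℕ)), Cl S → ∀ (k : ℕ) (m0 : PM k)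
  (y₀ : Cube Unit × Cube (Ix3 k)) (z : Om k) (L₀ L₁ : ℕ) (r : Fin k), Pt S m0 → Pt S y₀.1 →
  Pt S y₀.2 → Pt S z → Ar S (hitB m0 y₀ z L₀ L₁ r)

/-! ### The final sets -/

/-- [GSL] `GOOD` gives all finite sums: the state is the list `F` of all finite sums of the elements
chosen so far; choose (`Ar.choose`) `x >` all of them with the property of `GOOD` (with `x > 0`), the
next list is `x :: F ++ F.map (· + x)`; `exists_rec`, `ArF.rec` as in `KC/I_KCI.lean`. -/
def S_GSL : Prop := ∀ (S : Set (Set ℕ)), Cl S → ∀ (k : ℕ) (c : ℕ → Fin k) (D : Finset (Fin k))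
  (hit : ℕ → Prop), ArF S c → Ar S hit → GOOD (ext c) D hit → SolD S c D

/-- [CI3] the greedy construction in Case I (copy of `KC/I_KCI.lean`): states are boxes `P` with
`0 < ν (bx P 0)` whose constraints contain those of `Q`; step `x`, `P'`:
the constraints of `P'.1` contain those of `P.1` and those of `P.2` shifted by `x`, the constraints of
`P'.2` contain those of `P.2` and `(x, r)` (for `k ≥ 2`, `KC.I_KCI.mem_con_of`). The sums of
at most three elements have the colour `r`. -/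
def S_CI3 : Prop := ∀ (S : Set (Set ℕ)), Cl S → ∀ (k : ℕ) (c : ℕ → Fin k)
  (ν : Measure (Om k × Om k)) [IsProbabilityMeasure ν], ArF S c → Pt S (ext c) → NC S ν →
  GRD (ext c) ν → SolT S c

/-- [MU3] the theorem for a family with a definable ultrafilter (assembly). -/
def S_MU3 : Prop := ∀ (S : Set (Set ℕ)) (U : Ultrafilter ℕ), Cl S → DU S U →
  ∀ (k : ℕ) (c : ℕ → Fin k), ArF S c → SolT S c ∨ ∃ r, SolD S c (Finset.univ.erase r)

/-- [MN3] the theorem (from MU3 as `KC.MAIN_pf`). -/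
def S_MN3 : Prop := ∀ (S : Set (Set ℕ)), Cl S →
  ∀ (k : ℕ) (c : ℕ → Fin k), ArF S c → SolT S c ∨ ∃ r, SolD S c (Finset.univ.erase r)

end Pool.Agent.Work.MP_69fea5_lc.N3
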